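import Mathlib

/-! # Arguments of numbers with equal imaginary part, and the level lemmas (helper53, folder HN)

PROOF of `arg_quot`. Z1 = x + s I, Z2 = y + s I. Case s > 0: both arguments are in (0, pi), case s < 0: both in (-pi, 0); so their difference is in (-pi, pi), hence equal to the argument of the quotient
 (`Complex.arg_div_coe_angle` together with `Real.Angle` uniqueness, or: Z1/Z2 = (|Z1|/|Z2|) * exp(I (arg Z1 - arg Z2)) and `Complex.arg_mul_cos_add_sin_mul_I` / `Complex.arg_real_mul`, `Complex.arg_exp_mul_I`-type lemmas).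
 Case s = 0: x, y nonzero of equal sign, the quotient is the positive real x/y with argument 0, and arg x = arg y (0 or pi).
 The quotient is in the slit plane because it is nonzero and its argument is not pi (`Complex.mem_slitPlane_iff_arg`).
PROOF of `level_lo`. Let L j be the integer with T j in [-pi/2 + 2 pi L j, 3pi/2 + 2 pi L j) (floor of (T j + pi/2)/(2 pi)). By hstep L j <= L (j+1) for j < n. At the special j: T j < 3pi/2 + 2 pi l gives L j <= l and
 T (j+1) >= 3pi/2 + 2 pi l gives L (j+1) >= l+1. So L 0 < L n, and L n = L 0 + k because T n = T 0 + 2 pi k. So k >= 1.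
PROOF of `level_hi`. The same with the intervals (2 pi l, 2 pi (l+1)]: L j = ceiling of T j/(2 pi) minus 1. (Or apply `level_lo`'s argument to the ceiling.)
-/

set_option autoImplicit false

namespace Pool.Agent.H53.HN

private theorem ArgL_core {Z W : ℂ} (hZ : Z ≠ 0) (hW : W ≠ 0) (hWpi : W.arg ≠ Real.pi)
    (h1 : -Real.pi < Z.arg - W.arg) (h2 : Z.arg - W.arg < Real.pi) :
    Z / W ∈ Complex.slitPlane ∧ (Z / W).arg = Z.arg - W.arg := by
  have hinv : W⁻¹.arg = -W.arg := by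
    rw [Complex.arg_inv, if_neg hWpi]
  have hq : (Z / W).arg = Z.arg - W.arg := by
    rw [div_eq_mul_inv, (Complex.arg_mul_eq_add_arg_iff hZ (inv_ne_zero hW)).2, hinv]
    · ring
    · rw [hinv]
      constructor
      · linarith
      · linarith
  refine ⟨?_, hq⟩
  rw [Complex.mem_slitPlane_iff_arg, hq]
  exact ⟨h2.ne, div_ne_zero hZ hW⟩

theorem arg_quot {s x y : ℝ} (h : s ≠ 0 ∨ 0 < x * y) :
    (((x : ℂ) + (s : ℂ) * Complex.I) / ((y : ℂ) + (s : ℂ) * Complex.I)) ∈ Complex.slitPlane ∧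
      Complex.arg (((x : ℂ) + (s : ℂ) * Complex.I) / ((y : ℂ) + (s : ℂ) * Complex.I)) =
        Complex.arg ((x : ℂ) + (s : ℂ) * Complex.I) -
          Complex.arg ((y : ℂ) + (s : ℂ) * Complex.I) := by
  have him : ∀ t : ℝ, ((t : ℂ) + (s : ℂ) * Complex.I).im = s := by
    intro t
    simp
  have hre : ∀ t : ℝ, ((t : ℂ) + (s : ℂ) * Complex.I).re = t := by
    intro t
    simp
  rcases lt_trichotomy s 0 with hs | hs | hs
  · have hne : ∀ t : ℝ, ((t : ℂ) + (s : ℂ) * Complex.I) ≠ 0 := by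
      intro t ht
      have := him t
      rw [ht] at this
      simp at this
      linarith
    have hneg : ∀ t : ℝ, ((t : ℂ) + (s : ℂ) * Complex.I).arg < 0 := by
      intro t
      rw [Complex.arg_neg_iff, him]
      exact hs
    have hp := Real.pi_pos
    have h1 := hneg x
    have h2 := hneg y
    have h3 := Complex.neg_pi_lt_arg ((x : ℂ) + (s : ℂ) * Complex.I)
    have h4 := Complex.neg_pi_lt_arg ((y : ℂ) + (s : ℂ) * Complex.I)
    exact ArgL_core (hne x) (hne y) (by linarith [hneg y] : _ < Real.pi).ne (by linarith)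
      (by linarith)
  · have hxy : 0 < x * y := by
      rcases h with h | h
      · exact absurd hs h
      · exact h
    rw [hs]
    have e : ∀ t : ℝ, ((t : ℂ) + ((0 : ℝ) : ℂ) * Complex.I) = (t : ℂ) := by
      intro t
      simp
    rw [e x, e y]
    have hquot : ((x : ℂ) / (y : ℂ)) = ((x / y : ℝ) : ℂ) := by
      push_cast
      rfl
    have hpos : 0 < x / y := by
      rcases pos_and_pos_or_neg_and_neg_of_mul_pos hxy with ⟨h1, h2⟩ | ⟨h1, h2⟩
      · exact div_pos h1 h2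
      · exact div_pos_of_neg_of_neg h1 h2
    rw [hquot]
    refine ⟨Complex.ofReal_mem_slitPlane.2 hpos, ?_⟩
    rw [Complex.arg_ofReal_of_nonneg hpos.le]
    rcases pos_and_pos_or_neg_and_neg_of_mul_pos hxy with ⟨h1, h2⟩ | ⟨h1, h2⟩
    · rw [Complex.arg_ofReal_of_nonneg h1.le, Complex.arg_ofReal_of_nonneg h2.le, sub_zero]
    · rw [Complex.arg_ofReal_of_neg h1, Complex.arg_ofReal_of_neg h2, sub_self]
  · have hne : ∀ t : ℝ, ((t : ℂ) + (s : ℂ) * Complex.I) ≠ 0 := by
      intro t ht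
      have := him t
      rw [ht] at this
      simp at this
      linarith
    have hnn : ∀ t : ℝ, 0 ≤ ((t : ℂ) + (s : ℂ) * Complex.I).arg := by
      intro t
      rw [Complex.arg_nonneg_iff, him]
      exact hs.le
    have hlt : ∀ t : ℝ, ((t : ℂ) + (s : ℂ) * Complex.I).arg < Real.pi := by
      intro t
      refine lt_of_le_of_ne (Complex.arg_le_pi _) ?_
      intro hc
      rw [Complex.arg_eq_pi_iff, him] at hc
      exact hs.ne' hc.2
    have h1 := hnn x
    have h2 := hnn y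
    have h3 := hlt x
    have h4 := hlt y
    exact ArgL_core (hne x) (hne y) h4.ne (by linarith) (by linarith)

private theorem ArgL_chain {n : ℕ} {L : ℕ → ℤ} (h : ∀ j < n, L j ≤ L (j + 1)) :
    ∀ b ≤ n, ∀ a ≤ b, L a ≤ L b := by
  intro b
  induction b with
  | zero =>
    intro _ a ha
    have : a = 0 := by omega
    rw [this]
  | succ b ih =>
    intro hb a ha
    rcases Nat.lt_or_ge a (b + 1) with h1 | h1
    · exact (ih (by omega) a (by omega)).trans (h b (by omega))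
    · have : a = b + 1 := by omega
      rw [this]

theorem level_lo {n : ℕ} {T : ℕ → ℝ} {κ : ℤ} (hT : T n = T 0 + 2 * Real.pi * κ)
    (hstep : ∀ j < n, ∀ l : ℤ, -(Real.pi / 2) + 2 * Real.pi * l ≤ T j →
      T j < 3 * Real.pi / 2 + 2 * Real.pi * l → -(Real.pi / 2) + 2 * Real.pi * l ≤ T (j + 1))
    (hj : ∃ j < n, ∃ l : ℤ, T j < 3 * Real.pi / 2 + 2 * Real.pi * l ∧
      3 * Real.pi / 2 + 2 * Real.pi * l ≤ T (j + 1)) : 1 ≤ κ := by
  have hp : 0 < 2 * Real.pi := by linarith [Real.pi_pos]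
  have hle : ∀ (t : ℝ) (l : ℤ), -(Real.pi / 2) + 2 * Real.pi * l ≤ t →
      l ≤ ⌊(t + Real.pi / 2) / (2 * Real.pi)⌋ := by
    intro t l h
    rw [Int.le_floor, le_div_iff₀ hp]
    linarith
  have hlo : ∀ t : ℝ, -(Real.pi / 2) + 2 * Real.pi * ⌊(t + Real.pi / 2) / (2 * Real.pi)⌋ ≤ t := by
    intro t
    have h := Int.floor_le ((t + Real.pi / 2) / (2 * Real.pi))
    rw [le_div_iff₀ hp] at h
    linarith
  have hhi : ∀ t : ℝ, t < 3 * Real.pi / 2 +
      2 * Real.pi * ⌊(t + Real.pi / 2) / (2 * Real.pi)⌋ := by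
    intro t
    have h := Int.lt_floor_add_one ((t + Real.pi / 2) / (2 * Real.pi))
    rw [div_lt_iff₀ hp] at h
    linarith
  have hmono : ∀ j < n, ⌊(T j + Real.pi / 2) / (2 * Real.pi)⌋ ≤
      ⌊(T (j + 1) + Real.pi / 2) / (2 * Real.pi)⌋ := fun j hjn =>
    hle _ _ (hstep j hjn _ (hlo _) (hhi _))
  have hchain := ArgL_chain (L := fun j => ⌊(T j + Real.pi / 2) / (2 * Real.pi)⌋) hmono
  obtain ⟨j, hjn, l, h1, h2⟩ := hj
  have h3 : ⌊(T j + Real.pi / 2) / (2 * Real.pi)⌋ ≤ l := by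
    have h := hlo (T j)
    have h4 : 2 * Real.pi * (⌊(T j + Real.pi / 2) / (2 * Real.pi)⌋ : ℝ) <
        2 * Real.pi * ((l + 1 : ℤ) : ℝ) := by
      push_cast
      linarith
    have h5 := lt_of_mul_lt_mul_left h4 hp.le
    have h6 : ⌊(T j + Real.pi / 2) / (2 * Real.pi)⌋ < l + 1 := by exact_mod_cast h5
    omega
  have h4 : l + 1 ≤ ⌊(T (j + 1) + Real.pi / 2) / (2 * Real.pi)⌋ := by
    apply hle
    push_cast
    linarith
  have h5 := hchain j hjn.le 0 (Nat.zero_le _)
  have h6 := hchain n le_rfl (j + 1) hjn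
  have h7 : ⌊(T n + Real.pi / 2) / (2 * Real.pi)⌋ =
      ⌊(T 0 + Real.pi / 2) / (2 * Real.pi)⌋ + κ := by
    rw [← Int.floor_add_intCast]
    congr 1
    rw [hT]
    field_simp
    ring
  omega

theorem level_hi {n : ℕ} {T : ℕ → ℝ} {κ : ℤ} (hT : T n = T 0 + 2 * Real.pi * κ)
    (hstep : ∀ j < n, ∀ l : ℤ, 2 * Real.pi * l < T j →
      T j ≤ 2 * Real.pi + 2 * Real.pi * l → 2 * Real.pi * l < T (j + 1))
    (hj : ∃ j < n, ∃ l : ℤ, T j ≤ 2 * Real.pi * l ∧ 2 * Real.pi * l < T (j + 1)) : 1 ≤ κ := by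
  have hp : 0 < 2 * Real.pi := by linarith [Real.pi_pos]
  have hle : ∀ (t : ℝ) (l : ℤ), 2 * Real.pi * l < t → l < ⌈t / (2 * Real.pi)⌉ := by
    intro t l h
    rw [Int.lt_ceil, lt_div_iff₀ hp]
    linarith
  have hlo : ∀ t : ℝ, 2 * Real.pi * ((⌈t / (2 * Real.pi)⌉ - 1 : ℤ) : ℝ) < t := by
    intro t
    have h := Int.ceil_lt_add_one (t / (2 * Real.pi))
    have h1 : (((⌈t / (2 * Real.pi)⌉ - 1 : ℤ) : ℝ)) < t / (2 * Real.pi) := by
      push_cast
      linarith
    rw [lt_div_iff₀ hp] at h1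
    linarith
  have hhi : ∀ t : ℝ, t ≤ 2 * Real.pi + 2 * Real.pi * ((⌈t / (2 * Real.pi)⌉ - 1 : ℤ) : ℝ) := by
    intro t
    have h := Int.le_ceil (t / (2 * Real.pi))
    rw [div_le_iff₀ hp] at h
    push_cast
    linarith
  have hmono : ∀ j < n, ⌈T j / (2 * Real.pi)⌉ ≤ ⌈T (j + 1) / (2 * Real.pi)⌉ := by
    intro j hjn
    have h := hle _ _ (hstep j hjn _ (hlo _) (hhi _))
    omega
  have hchain := ArgL_chain (L := fun j => ⌈T j / (2 * Real.pi)⌉) hmono
  obtain ⟨j, hjn, l, h1, h2⟩ := hj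
  have h3 : ⌈T j / (2 * Real.pi)⌉ ≤ l := by
    rw [Int.ceil_le, div_le_iff₀ hp]
    linarith
  have h4 := hle _ _ h2
  have h5 := hchain j hjn.le 0 (Nat.zero_le _)
  have h6 := hchain n le_rfl (j + 1) hjn
  have h7 : ⌈T n / (2 * Real.pi)⌉ = ⌈T 0 / (2 * Real.pi)⌉ + κ := by
    rw [← Int.ceil_add_intCast]
    congr 1
    rw [hT]
    field_simp
  omega

end Pool.Agent.H53.HN
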