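import Pool.Agent.H53.HN.Defs

/-! # Basic API (helper53, folder HN) -/

set_option autoImplicit false

namespace Pool.Agent.H53.HN

open Filter Topology

theorem io_fR (c b : ℝ) (z : ℝ × ℝ) : fC c b (io z) = io (fR c b z) := by
  simp [fC, fR, io]

theorem io_gR (c b : ℝ) (z : ℝ × ℝ) : gC c b (io z) = io (gR c b z) := by
  simp [gC, gR, io]

theorem io_iter_f (c b : ℝ) (n : ℕ) (z : ℝ × ℝ) :
    (fC c b)^[n] (io z) = io ((fR c b)^[n] z) := by
  induction n generalizing z with
  | zero => rfl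
  | succ n ih => rw [Function.iterate_succ_apply, Function.iterate_succ_apply, io_fR, ih]

theorem io_iter_g (c b : ℝ) (n : ℕ) (z : ℝ × ℝ) :
    (gC c b)^[n] (io z) = io ((gR c b)^[n] z) := by
  induction n generalizing z with
  | zero => rfl
  | succ n ih => rw [Function.iterate_succ_apply, Function.iterate_succ_apply, io_gR, ih]

theorem fR_gR (c : ℝ) {b : ℝ} (hb : b ≠ 0) (z : ℝ × ℝ) : fR c b (gR c b z) = z := by
  ext
  · simp only [fR, gR]; field_simp; ring
  · simp [fR, gR]

theorem gR_fR (c : ℝ) {b : ℝ} (hb : b ≠ 0) (z : ℝ × ℝ) : gR c b (fR c b z) = z := by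
  ext
  · simp [fR, gR]
  · simp only [fR, gR]; field_simp; ring

theorem fC_gC (c : ℝ) {b : ℝ} (hb : b ≠ 0) (z : ℂ × ℂ) : fC c b (gC c b z) = z := by
  have hb' : (b : ℂ) ≠ 0 := by exact_mod_cast hb
  ext
  · simp only [fC, gC]; field_simp; ring
  · simp [fC, gC]

theorem gC_fC (c : ℝ) {b : ℝ} (hb : b ≠ 0) (z : ℂ × ℂ) : gC c b (fC c b z) = z := by
  have hb' : (b : ℂ) ≠ 0 := by exact_mod_cast hb
  ext
  · simp [fC, gC]
  · simp only [fC, gC]; field_simp; ring

theorem iter_fR_gR (c : ℝ) {b : ℝ} (hb : b ≠ 0) (n : ℕ) (z : ℝ × ℝ) :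
    (fR c b)^[n] ((gR c b)^[n] z) = z :=
  Function.LeftInverse.iterate (fR_gR c hb) n z

theorem iter_gR_fR (c : ℝ) {b : ℝ} (hb : b ≠ 0) (n : ℕ) (z : ℝ × ℝ) :
    (gR c b)^[n] ((fR c b)^[n] z) = z :=
  Function.LeftInverse.iterate (gR_fR c hb) n z

theorem iter_fC_gC (c : ℝ) {b : ℝ} (hb : b ≠ 0) (n : ℕ) (z : ℂ × ℂ) :
    (fC c b)^[n] ((gC c b)^[n] z) = z :=
  Function.LeftInverse.iterate (fC_gC c hb) n z

theorem iter_gC_fC (c : ℝ) {b : ℝ} (hb : b ≠ 0) (n : ℕ) (z : ℂ × ℂ) :
    (gC c b)^[n] ((fC c b)^[n] z) = z :=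
  Function.LeftInverse.iterate (gC_fC c hb) n z

theorem diff_fC (c b : ℝ) : Differentiable ℂ (fC c b) := by
  unfold fC; fun_prop

theorem diff_gC (c b : ℝ) : Differentiable ℂ (gC c b) := by
  unfold gC; fun_prop

theorem diff_iter {F : ℂ × ℂ → ℂ × ℂ} (hF : Differentiable ℂ F) (n : ℕ) :
    Differentiable ℂ F^[n] := by
  induction n with
  | zero => exact differentiable_id
  | succ n ih => rw [Function.iterate_succ']; exact hF.comp ih

theorem ana_fC (c b : ℝ) (z : ℂ × ℂ) : AnalyticAt ℂ (fC c b) z := by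
  unfold fC
  exact (((analyticAt_fst.pow 2).add analyticAt_const).sub
    (analyticAt_const.mul analyticAt_snd)).prod analyticAt_fst

theorem ana_gC (c b : ℝ) (z : ℂ × ℂ) : AnalyticAt ℂ (gC c b) z := by
  unfold gC
  refine analyticAt_snd.prod ?_
  simp only [div_eq_mul_inv]
  exact (((analyticAt_snd.pow 2).add analyticAt_const).sub analyticAt_fst).mul analyticAt_const

theorem ana_iter {F : ℂ × ℂ → ℂ × ℂ} (hF : ∀ z, AnalyticAt ℂ F z) (n : ℕ) (z : ℂ × ℂ) :
    AnalyticAt ℂ F^[n] z := by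
  induction n with
  | zero => exact analyticAt_id
  | succ n ih => rw [Function.iterate_succ']; exact (hF _).comp ih

theorem cj_fC (c b : ℝ) (z : ℂ × ℂ) : fC c b (cj z) = cj (fC c b z) := by
  simp [fC, cj]

theorem cj_gC (c b : ℝ) (z : ℂ × ℂ) : gC c b (cj z) = cj (gC c b z) := by
  simp [gC, cj]

theorem cj_iter {F : ℂ × ℂ → ℂ × ℂ} (hF : ∀ z, F (cj z) = cj (F z)) (n : ℕ) (z : ℂ × ℂ) :
    F^[n] (cj z) = cj (F^[n] z) := by
  induction n generalizing z with
  | zero => rfl
  | succ n ih => rw [Function.iterate_succ_apply, Function.iterate_succ_apply, hF, ih]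

theorem continuous_fR (c b : ℝ) : Continuous (fR c b) := by
  unfold fR; fun_prop

theorem continuous_gR (c b : ℝ) : Continuous (gR c b) := by
  unfold gR; fun_prop

theorem continuous_io : Continuous io := by unfold io; fun_prop

theorem continuous_rp : Continuous rp := by unfold rp; fun_prop

theorem continuous_en : Continuous en := by unfold en; fun_prop

theorem continuous_cj : Continuous cj := by unfold cj; fun_prop

@[simp] theorem cj_cj (z : ℂ × ℂ) : cj (cj z) = z := by simp [cj]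

@[simp] theorem cj_io (z : ℝ × ℝ) : cj (io z) = io z := by simp [cj, io]

@[simp] theorem rp_io (z : ℝ × ℝ) : rp (io z) = z := by simp [rp, io]

theorem io_rp {z : ℂ × ℂ} (h : cj z = z) : io (rp z) = z := by
  have h1 : starRingEnd ℂ z.1 = z.1 := congrArg Prod.fst h
  have h2 : starRingEnd ℂ z.2 = z.2 := congrArg Prod.snd h
  ext
  · simpa [io, rp] using Complex.conj_eq_iff_re.1 h1
  · simpa [io, rp] using Complex.conj_eq_iff_re.1 h2

theorem io_injective : Function.Injective io := fun z w h => by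
  have := congrArg rp h
  simpa using this

@[simp] theorem en_re (z : ℝ × ℝ) : (en z).re = z.1 := by simp [en]

@[simp] theorem en_im (z : ℝ × ℝ) : (en z).im = z.2 := by simp [en]

theorem en_injective : Function.Injective en := fun z w h => by
  ext
  · simpa using congrArg Complex.re h
  · simpa using congrArg Complex.im h

@[simp] theorem rp_cj (z : ℂ × ℂ) : rp (cj z) = rp z := by simp [rp, cj]

end Pool.Agent.H53.HN
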