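import Mathlib

/-! # A function vanishing on both axes (helper53, folder HN)

PROOF. For fixed x (|x| < r) the function y -> H (x,y) vanishes at 0 and is bounded by M on |y| < r: Schwarz (`Complex.norm_le_norm_mul...`, `Complex.dist_le_div_mul_dist_of_mapsTo_ball` with R1 = r, any R2 > M, then R2 -> M) gives |H(x,y)| <= (M/r)|y|. For fixed y the function x -> H (x,y) vanishes at 0 and is bounded
 by (M/r)|y| on |x| < r, so |H(x,y)| <= ((M/r)|y|/r)|x|.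
-/

set_option autoImplicit false

namespace Pool.Agent.H53.HN

private theorem schw1 {f : ℂ → ℂ} {r M : ℝ}
    (hd : DifferentiableOn ℂ f (Metric.ball 0 r)) (hb : ∀ z : ℂ, ‖z‖ < r → ‖f z‖ ≤ M)
    (h0 : f 0 = 0) {z : ℂ} (hz : ‖z‖ < r) : ‖f z‖ ≤ M / r * ‖z‖ := by
  have hm : Set.MapsTo f (Metric.ball 0 r) (Metric.closedBall (f 0) M) := by
    intro y hy
    rw [mem_ball_zero_iff] at hy
    rw [h0, mem_closedBall_zero_iff]
    exact hb y hy
  have := Complex.dist_le_div_mul_dist_of_mapsTo_ball hd hm (z := z)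
    (by rwa [mem_ball_zero_iff])
  rwa [h0, dist_zero_right, dist_zero_right] at this

theorem schw2 {H : ℂ × ℂ → ℂ} {r M : ℝ} (hr : 0 < r) (hM : 0 ≤ M)
    (hd : DifferentiableOn ℂ H {z | ‖z.1‖ < r ∧ ‖z.2‖ < r})
    (hb : ∀ z : ℂ × ℂ, ‖z.1‖ < r → ‖z.2‖ < r → ‖H z‖ ≤ M)
    (h1 : ∀ x : ℂ, ‖x‖ < r → H (x, 0) = 0) (h2 : ∀ y : ℂ, ‖y‖ < r → H (0, y) = 0)
    {z : ℂ × ℂ} (hz1 : ‖z.1‖ < r) (hz2 : ‖z.2‖ < r) :
    ‖H z‖ ≤ M / r ^ 2 * ‖z.1‖ * ‖z.2‖ := by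
  have _ := hM
  have stepA : ∀ x y : ℂ, ‖x‖ < r → ‖y‖ < r → ‖H (x, y)‖ ≤ M / r * ‖y‖ := by
    intro x y hx hy
    refine schw1 (f := fun y => H (x, y)) ?_ (fun y hy => hb (x, y) hx hy) (h1 x hx) hy
    refine hd.comp (f := fun y : ℂ => ((x, y) : ℂ × ℂ)) ?_ ?_
    · exact ((differentiable_const x).prodMk differentiable_id).differentiableOn
    · intro y hy
      rw [mem_ball_zero_iff] at hy
      exact ⟨hx, hy⟩
  have stepB : ‖H (z.1, z.2)‖ ≤ (M / r * ‖z.2‖) / r * ‖z.1‖ := by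
    refine schw1 (f := fun x => H (x, z.2)) ?_ (fun x hx => stepA x z.2 hx hz2) (h2 z.2 hz2) hz1
    refine hd.comp (f := fun x : ℂ => ((x, z.2) : ℂ × ℂ)) ?_ ?_
    · exact (differentiable_id.prodMk (differentiable_const z.2)).differentiableOn
    · intro x hx
      rw [mem_ball_zero_iff] at hx
      exact ⟨hx, hz2⟩
  refine stepB.trans (le_of_eq ?_)
  field_simp

end Pool.Agent.H53.HN
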