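import Pool.Agent.H53.HN.Chart1
import Pool.Agent.H53.HN.Schw

/-! # Existence of the chart (helper53, folder HN)

PROOF. χ from `chart1`. χ 0 = io p (U 0 = S 0 = io p). F (io p) = io p (h.eU 0). The source is open and contains 0, the target is open and contains io p, χ is continuous on the source, F is continuous: there is r1 > 0 such that for ‖z.1‖, ‖z.2‖ < r1: z in source, F (χ z) in target, and (1 + μ) r1-bounds:
 also for ‖x‖ < r1: (μ x, 0) and (0, ν x) are in the source. Let E z = χ.symm (F (χ z)), differentiable on the polydisc of radius r1 (χ = U + S - io p there; χ.symm is analytic on the open target), and continuous at 0 with E 0 = 0, so bounded by 1 on a polydisc of radius r2 <= r1.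
 E (x,0) = χ.symm (F (U x)) = χ.symm (U (μ x)) = χ.symm (χ (μ x, 0)) = (μ x, 0) for ‖x‖ < r2; E (0,y) = (0, ν y) similarly. Apply `schw2` to H1 z = (E z).1 - μ z.1 and H2 z = (E z).2 - ν z.2 (bounded by 1 + μ r2) : n1, n2 with C = (1 + μ r2)/r2^2 + 1.
 Then choose r <= r2 with C r <= (1-ν)/2 and C r <= (μ-1)/2. real: if cj (χ z) = χ z then χ (cj z) = cj (χ z) = χ z (cU, cS, cj additive, cj_io; cj z is in the polydisc, so in the source), injectivity of χ on the source gives cj z = z.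
-/

set_option autoImplicit false

namespace Pool.Agent.H53.HN

open Filter Topology

private theorem chart_cj_add (a b c : ℂ × ℂ) : cj (a + b - c) = cj a + cj b - cj c := by
  ext <;> simp [cj]

theorem chart_ex {F G : ℂ × ℂ → ℂ × ℂ} {p : ℝ × ℝ} {μ ν : ℝ} {U S : ℂ → ℂ × ℂ}
    (h : IsSad F G p μ ν U S) :
    ∃ (χ : OpenPartialHomeomorph (ℂ × ℂ) (ℂ × ℂ)) (r C : ℝ), IsChart F p μ ν U S χ r C := by
  obtain ⟨χ, h0, happ, hana⟩ := chart1 h
  have hμ : 0 < μ := h.mu0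
  have hν : 0 < ν := h.nu0
  have hν1 := h.nu1
  have hμ1 := h.mu
  set T : ℂ × ℂ → ℂ × ℂ := fun z => U z.1 + S z.2 - io p with hT
  have hTd : Differentiable ℂ T :=
    ((h.dU.comp differentiable_fst).add (h.dS.comp differentiable_snd)).sub_const _
  have hT1 : ∀ x : ℂ, T (x, 0) = U x := fun x => by simp [hT, h.S0]
  have hT2 : ∀ y : ℂ, T (0, y) = S y := fun y => by simp [hT, h.U0]
  have hT0 : T 0 = io p := by
    have := hT1 0
    rw [h.U0] at this
    exact this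
  have hF0 : F (io p) = io p := by
    have := h.eU 0
    rwa [mul_zero, h.U0] at this
  have hχ0 : χ 0 = io p := by rw [happ 0 h0]; exact hT0
  have hpt : io p ∈ χ.target := hχ0 ▸ χ.map_source h0
  have hsymm0 : χ.symm (io p) = 0 := by rw [← hχ0]; exact χ.left_inv h0
  set E : ℂ × ℂ → ℂ × ℂ := fun z => χ.symm (F (T z)) with hE
  have hFT : Differentiable ℂ (fun z => F (T z)) := h.dF.comp hTd
  have hE0 : E 0 = 0 := by
    simp only [hE]
    rw [hT0, hF0, hsymm0]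
  have hEc : ContinuousAt E 0 := by
    have h1 : ContinuousAt χ.symm (F (T 0)) := by
      rw [hT0, hF0]
      exact (hana _ hpt).continuousAt
    exact ContinuousAt.comp (g := χ.symm) (f := fun z => F (T z)) h1
      (hFT.continuous.continuousAt)
  have e1 : ∀ᶠ z in 𝓝 (0 : ℂ × ℂ), z ∈ χ.source := χ.open_source.mem_nhds h0
  have e2 : ∀ᶠ z in 𝓝 (0 : ℂ × ℂ), F (T z) ∈ χ.target := by
    have h1 : Tendsto (fun z => F (T z)) (𝓝 0) (𝓝 (io p)) := by
      have := hFT.continuous.tendsto 0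
      rwa [hT0, hF0] at this
    exact h1.eventually (χ.open_target.mem_nhds hpt)
  have e3 : ∀ᶠ z in 𝓝 (0 : ℂ × ℂ), ‖E z‖ < 1 := by
    have h1 : Tendsto (fun z => ‖E z‖) (𝓝 0) (𝓝 ‖E 0‖) := hEc.norm
    rw [hE0, norm_zero] at h1
    exact h1.eventually (gt_mem_nhds one_pos)
  have e4 : ∀ᶠ z in 𝓝 (0 : ℂ × ℂ), (((μ : ℂ) * z.1, (0 : ℂ)) : ℂ × ℂ) ∈ χ.source := by
    have h1 : Tendsto (fun z : ℂ × ℂ => (((μ : ℂ) * z.1, (0 : ℂ)) : ℂ × ℂ)) (𝓝 0) (𝓝 0) := by
      have : Continuous (fun z : ℂ × ℂ => (((μ : ℂ) * z.1, (0 : ℂ)) : ℂ × ℂ)) := by fun_prop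
      have h2 := this.tendsto 0
      simp only [Prod.fst_zero, Prod.snd_zero, mul_zero] at h2
      exact h2
    exact h1.eventually e1
  have e5 : ∀ᶠ z in 𝓝 (0 : ℂ × ℂ), (((0 : ℂ), (ν : ℂ) * z.2) : ℂ × ℂ) ∈ χ.source := by
    have h1 : Tendsto (fun z : ℂ × ℂ => (((0 : ℂ), (ν : ℂ) * z.2) : ℂ × ℂ)) (𝓝 0) (𝓝 0) := by
      have : Continuous (fun z : ℂ × ℂ => (((0 : ℂ), (ν : ℂ) * z.2) : ℂ × ℂ)) := by fun_prop
      have h2 := this.tendsto 0
      simp only [Prod.fst_zero, Prod.snd_zero, mul_zero] at h2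
      exact h2
    exact h1.eventually e1
  obtain ⟨R, hR, hball⟩ := Metric.eventually_nhds_iff_ball.1
    (e1.and (e2.and (e3.and (e4.and e5))))
  have hmem : ∀ z : ℂ × ℂ, ‖z.1‖ < R → ‖z.2‖ < R → z ∈ Metric.ball (0 : ℂ × ℂ) R := by
    intro z h1 h2
    rw [mem_ball_zero_iff, Prod.norm_def]
    exact max_lt h1 h2
  have hEx : ∀ x : ℂ, ‖x‖ < R → E (x, 0) = ((μ : ℂ) * x, 0) := by
    intro x hx
    have h1 := (hball (x, 0) (hmem _ hx (by simpa using hR))).2.2.2.1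
    simp only [hE]
    rw [hT1, h.eU, ← hT1]
    have h2 : T ((μ : ℂ) * x, 0) = χ ((μ : ℂ) * x, 0) := (happ _ h1).symm
    rw [h2, χ.left_inv h1]
  have hEy : ∀ y : ℂ, ‖y‖ < R → E (0, y) = (0, (ν : ℂ) * y) := by
    intro y hy
    have h1 := (hball (0, y) (hmem _ (by simpa using hR) hy)).2.2.2.2
    simp only [hE]
    rw [hT2, h.eS, ← hT2]
    have h2 : T (0, (ν : ℂ) * y) = χ (0, (ν : ℂ) * y) := (happ _ h1).symm
    rw [h2, χ.left_inv h1]
  have hEd : ∀ z : ℂ × ℂ, ‖z.1‖ < R → ‖z.2‖ < R → DifferentiableAt ℂ E z := by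
    intro z h1 h2
    have h3 := (hball z (hmem z h1 h2)).2.1
    exact DifferentiableAt.comp (g := χ.symm) (f := fun z => F (T z)) z
      (hana _ h3).differentiableAt (hFT z)
  have hEb : ∀ z : ℂ × ℂ, ‖z.1‖ < R → ‖z.2‖ < R → ‖E z‖ ≤ 1 := fun z h1 h2 =>
    (hball z (hmem z h1 h2)).2.2.1.le
  set M : ℝ := 1 + μ * R with hM
  have hM0 : 0 < M := by positivity
  have k1 : ∀ z : ℂ × ℂ, ‖z.1‖ < R → ‖z.2‖ < R →
      ‖(E z).1 - (μ : ℂ) * z.1‖ ≤ M / R ^ 2 * ‖z.1‖ * ‖z.2‖ := by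
    intro z hz1 hz2
    refine schw2 (H := fun z => (E z).1 - (μ : ℂ) * z.1) hR hM0.le ?_ ?_ ?_ ?_ hz1 hz2
    · intro w hw
      exact (((hEd w hw.1 hw.2).fst).sub
        ((differentiableAt_const _).mul differentiableAt_fst)).differentiableWithinAt
    · intro w h1 h2
      have h3 : ‖(E w).1 - (μ : ℂ) * w.1‖ ≤ ‖(E w).1‖ + ‖(μ : ℂ) * w.1‖ := norm_sub_le _ _
      have h4 : ‖(E w).1‖ ≤ 1 := (norm_fst_le _).trans (hEb w h1 h2)
      have h5 : ‖(μ : ℂ) * w.1‖ ≤ μ * R := by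
        rw [norm_mul, Complex.norm_real, Real.norm_of_nonneg hμ.le]
        exact mul_le_mul_of_nonneg_left h1.le hμ.le
      linarith
    · intro x hx
      simp only [hEx x hx, sub_self]
    · intro y hy
      simp only [hEy y hy, mul_zero, sub_zero]
  have k2 : ∀ z : ℂ × ℂ, ‖z.1‖ < R → ‖z.2‖ < R →
      ‖(E z).2 - (ν : ℂ) * z.2‖ ≤ M / R ^ 2 * ‖z.1‖ * ‖z.2‖ := by
    intro z hz1 hz2
    refine schw2 (H := fun z => (E z).2 - (ν : ℂ) * z.2) hR hM0.le ?_ ?_ ?_ ?_ hz1 hz2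
    · intro w hw
      exact (((hEd w hw.1 hw.2).snd).sub
        ((differentiableAt_const _).mul differentiableAt_snd)).differentiableWithinAt
    · intro w h1 h2
      have h3 : ‖(E w).2 - (ν : ℂ) * w.2‖ ≤ ‖(E w).2‖ + ‖(ν : ℂ) * w.2‖ := norm_sub_le _ _
      have h4 : ‖(E w).2‖ ≤ 1 := (norm_snd_le _).trans (hEb w h1 h2)
      have h5 : ‖(ν : ℂ) * w.2‖ ≤ μ * R := by
        rw [norm_mul, Complex.norm_real, Real.norm_of_nonneg hν.le]
        have : ν * ‖w.2‖ ≤ μ * ‖w.2‖ :=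
          mul_le_mul_of_nonneg_right (by linarith) (norm_nonneg _)
        have h6 : μ * ‖w.2‖ ≤ μ * R := mul_le_mul_of_nonneg_left h2.le hμ.le
        linarith
      linarith
    · intro x hx
      simp only [hEx x hx, mul_zero, sub_zero]
    · intro y hy
      simp only [hEy y hy, sub_self]
  set C : ℝ := M / R ^ 2 + 1 with hC
  have hC0 : 0 < C := by positivity
  have hMC : M / R ^ 2 ≤ C := by rw [hC]; linarith
  set r : ℝ := min R (min ((1 - ν) / 2 / C) ((μ - 1) / 2 / C)) with hr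
  have hrR : r ≤ R := min_le_left _ _
  have hr0 : 0 < r := by
    refine lt_min hR (lt_min ?_ ?_)
    · exact div_pos (by linarith) hC0
    · exact div_pos (by linarith) hC0
  refine ⟨χ, r, C, ?_⟩
  have hbd : ∀ z : ℂ × ℂ, ‖z.1‖ < r → ‖z.2‖ < r → ‖z.1‖ < R ∧ ‖z.2‖ < R := fun z h1 h2 =>
    ⟨h1.trans_le hrR, h2.trans_le hrR⟩
  have hsrc : ∀ z : ℂ × ℂ, ‖z.1‖ < r → ‖z.2‖ < r → z ∈ χ.source := fun z h1 h2 =>
    (hball z (hmem z (hbd z h1 h2).1 (hbd z h1 h2).2)).1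
  have hEeq : ∀ z : ℂ × ℂ, ‖z.1‖ < r → ‖z.2‖ < r → χ.symm (F (χ z)) = E z := by
    intro z h1 h2
    rw [happ z (hsrc z h1 h2)]
  refine ⟨hr0, hC0, hsrc, happ, hana, ?_, ?_, ?_, ?_, ?_, ?_⟩
  · intro z h1 h2 hz
    have h3 : ‖(cj z).1‖ < r := by simpa [cj] using h1
    have h4 : ‖(cj z).2‖ < r := by simpa [cj] using h2
    have h5 : χ (cj z) = χ z := by
      rw [happ _ (hsrc _ h3 h4)]
      rw [happ _ (hsrc _ h1 h2), chart_cj_add, ← h.cU, ← h.cS, cj_io] at hz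
      rw [happ _ (hsrc _ h1 h2)]
      exact hz
    exact χ.injOn (hsrc _ h3 h4) (hsrc _ h1 h2) h5
  · intro z h1 h2
    rw [happ z (hsrc z h1 h2)]
    exact (hball z (hmem z (hbd z h1 h2).1 (hbd z h1 h2).2)).2.1
  · have h1 : r ≤ (1 - ν) / 2 / C := (min_le_right _ _).trans (min_le_left _ _)
    rw [le_div_iff₀ hC0] at h1
    linarith
  · have h1 : r ≤ (μ - 1) / 2 / C := (min_le_right _ _).trans (min_le_right _ _)
    rw [le_div_iff₀ hC0] at h1
    linarith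
  · intro z h1 h2
    rw [hEeq z h1 h2]
    refine (k1 z (hbd z h1 h2).1 (hbd z h1 h2).2).trans ?_
    gcongr
  · intro z h1 h2
    rw [hEeq z h1 h2]
    refine (k2 z (hbd z h1 h2).1 (hbd z h1 h2).2).trans ?_
    gcongr

end Pool.Agent.H53.HN
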