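import Pool.Agent.H53.HN.SadApi

/-! # Local coordinates at the saddle (helper53, folder HN)

PROOF. T z = U z.1 + S z.2 - io p is differentiable on ℂ × ℂ, T 0 = io p, with derivative at z: (a,b) -> a U'(z.1) + b S'(z.2), which is bijective iff det2 (U' z.1) (S' z.2) ≠ 0; at 0 by h.li, so (continuity of the derivatives of entire functions) for z in a ball B about 0.
 T is analytic at every point (a sum of one variable analytic functions composed with projections; there is no general Osgood theorem in Mathlib). `HasStrictFDerivAt.toOpenPartialHomeomorph` (or `ContDiffAt.toOpenPartialHomeomorph`) at 0 gives a local homeomorphism χ0 with χ0 = T on its source; restrict it to B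
 (`OpenPartialHomeomorph.restrOpen`). symm is analytic at every point of the target: `OpenPartialHomeomorph.analyticAt_symm` (Mathlib.Analysis.Calculus.FDeriv.Analytic), the derivative of T at the preimage being a continuous linear equivalence.
-/

set_option autoImplicit false

namespace Pool.Agent.H53.HN

open Filter Topology

/-- the linear map with columns `v`, `w` -/
private noncomputable def chLin (v w : ℂ × ℂ) : (ℂ × ℂ) →L[ℂ] (ℂ × ℂ) :=
  (ContinuousLinearMap.fst ℂ ℂ ℂ).smulRight v + (ContinuousLinearMap.snd ℂ ℂ ℂ).smulRight w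

private theorem chLin_apply (v w z : ℂ × ℂ) : chLin v w z = z.1 • v + z.2 • w := by
  simp [chLin]

private theorem chEquiv (v w : ℂ × ℂ) (h : det2 v w ≠ 0) :
    ∃ e : (ℂ × ℂ) ≃L[ℂ] (ℂ × ℂ), (e : (ℂ × ℂ) →L[ℂ] (ℂ × ℂ)) = chLin v w := by
  have hinj : Function.Injective (chLin v w : (ℂ × ℂ) →ₗ[ℂ] (ℂ × ℂ)) := by
    rw [← LinearMap.ker_eq_bot, LinearMap.ker_eq_bot']
    intro z hz
    have hz' : z.1 • v + z.2 • w = 0 := by
      rw [← chLin_apply]
      exact hz
    have h1 : z.1 * v.1 + z.2 * w.1 = 0 := by simpa using congrArg Prod.fst hz'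
    have h2 : z.1 * v.2 + z.2 * w.2 = 0 := by simpa using congrArg Prod.snd hz'
    have h3 : z.1 * det2 v w = 0 := by
      unfold det2
      linear_combination w.2 * h1 - w.1 * h2
    have h4 : z.2 * det2 v w = 0 := by
      unfold det2
      linear_combination v.1 * h2 - v.2 * h1
    have h5 : z.1 = 0 := (mul_eq_zero.1 h3).resolve_right h
    have h6 : z.2 = 0 := (mul_eq_zero.1 h4).resolve_right h
    exact Prod.ext h5 h6
  refine ⟨(LinearEquiv.ofInjectiveEndo _ hinj).toContinuousLinearEquiv, ?_⟩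
  ext z <;> rfl

theorem chart1 {F G : ℂ × ℂ → ℂ × ℂ} {p : ℝ × ℝ} {μ ν : ℝ} {U S : ℂ → ℂ × ℂ}
    (h : IsSad F G p μ ν U S) :
    ∃ χ : OpenPartialHomeomorph (ℂ × ℂ) (ℂ × ℂ), (0 : ℂ × ℂ) ∈ χ.source ∧
      (∀ z ∈ χ.source, χ z = U z.1 + S z.2 - io p) ∧
      ∀ z ∈ χ.target, AnalyticAt ℂ χ.symm z := by
  set T : ℂ × ℂ → ℂ × ℂ := fun z => U z.1 + S z.2 - io p with hT
  have hana : ∀ z, AnalyticAt ℂ T z := by
    intro z
    exact (((h.anaU z.1).comp analyticAt_fst).add ((h.anaS z.2).comp analyticAt_snd)).sub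
      analyticAt_const
  have hfd : ∀ z, HasFDerivAt T (chLin (deriv U z.1) (deriv S z.2)) z := by
    intro z
    have h1 : HasFDerivAt (fun z : ℂ × ℂ => U z.1)
        ((ContinuousLinearMap.fst ℂ ℂ ℂ).smulRight (deriv U z.1)) z := by
      have := (h.dU z.1).hasDerivAt.hasFDerivAt.comp z (hasFDerivAt_fst (𝕜 := ℂ))
      refine this.congr_fderiv ?_
      ext x <;> simp
    have h2 : HasFDerivAt (fun z : ℂ × ℂ => S z.2)
        ((ContinuousLinearMap.snd ℂ ℂ ℂ).smulRight (deriv S z.2)) z := by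
      have := (h.dS z.2).hasDerivAt.hasFDerivAt.comp z (hasFDerivAt_snd (𝕜 := ℂ))
      refine this.congr_fderiv ?_
      ext x <;> simp
    exact (h1.add h2).sub_const _
  have hcont : Continuous (fun z : ℂ × ℂ => det2 (deriv U z.1) (deriv S z.2)) := by
    have hU : Continuous (deriv U) := (h.dU.contDiff (n := 1)).continuous_deriv le_rfl
    have hS : Continuous (deriv S) := (h.dS.contDiff (n := 1)).continuous_deriv le_rfl
    unfold det2
    fun_prop
  set B : Set (ℂ × ℂ) := {z | det2 (deriv U z.1) (deriv S z.2) ≠ 0} with hB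
  have hBo : IsOpen B := isOpen_ne_fun hcont continuous_const
  have hB0 : (0 : ℂ × ℂ) ∈ B := h.li
  obtain ⟨e0, he0⟩ := chEquiv _ _ h.li
  have hs : HasStrictFDerivAt T (e0 : (ℂ × ℂ) →L[ℂ] (ℂ × ℂ)) 0 := by
    have h1 := (hana 0).hasStrictFDerivAt
    rw [(hfd 0).fderiv] at h1
    rw [he0]
    exact h1
  refine ⟨(hs.toOpenPartialHomeomorph T).restrOpen B hBo, ?_, ?_, ?_⟩
  · exact ⟨hs.mem_toOpenPartialHomeomorph_source, hB0⟩
  · intro z _
    rfl
  · intro z hz
    set χ := (hs.toOpenPartialHomeomorph T).restrOpen B hBo with hχ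
    have hsrc : χ.symm z ∈ χ.source := χ.map_target hz
    have hb : χ.symm z ∈ B := hsrc.2
    obtain ⟨e, he⟩ := chEquiv _ _ (show det2 (deriv U (χ.symm z).1) (deriv S (χ.symm z).2) ≠ 0
      from hb)
    refine χ.analyticAt_symm (i := e) hz (hana _) ?_
    rw [he]
    exact (hfd _).fderiv

end Pool.Agent.H53.HN
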