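import Pool.Agent.H53.HN.Uprop

/-! # API for the chart at a saddle (helper53, folder HN)

PROOF. `chart_U`: hc.app for (ζ, 0) in the source (hc.src), S 0 = io p. `chart_S` the same. `chart_real`: χ z = U z.1 + S z.2 - io p commutes with conjugation (cU, cS, cj_io; cj is additive).
 `chart_loc`: F^[j] z0 = χ w0 lies in the open target; χ.symm is continuous there, χ.symm (F^[j] z0) = w0; so near z0 the iterate is in the target and both coordinates of χ.symm (F^[j] z) have norm < r (open conditions).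
 `chart_diff`: composition of analytic maps (hc.asym, h.aF, `ana_iter`); Q = χ.symm o F^[j]. Injectivity of the derivative at z0: near z0, χ (Q z) = F^[j] z (`χ.right_inv`), and G^[j] (F^[j] z) = z, so
  z = G^[j] (χ (Q z)) near z0 where χ agrees near w0 with w -> U w.1 + S w.2 - io p (hc.app; the source is open). By the chain rule the identity is D(G^[j] o (U+S-io p)) o DQ(z0), so DQ(z0) is injective.
 `chart_step`: hc.tgt, hc.n1, hc.n2 and the triangle inequality; χ (χ.symm (F (χ z))) = F (χ z) as F (χ z) is in the target. |X'| <= (μ + C |Y|)|X| <= (μ + C r)|X| <= ((3 μ - 1)/2)... use hc.sm1, hc.sm2: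
  |X'| <= (μ + (μ-1)/2)|X|, |X'| >= (μ - (μ-1)/2)|X| = ((1+μ)/2)|X|, |Y'| <= (ν + (1-ν)/2)|Y| = ((1+ν)/2)|Y|.
 `chart_zero`: if F^[j] z = χ w with w.1 = 0, ‖w.2‖ < r then F^[j] z = S w.2 = F^[j] (S (ν^-j w.2)) so z = S (ν^-j w.2).
 `chart_uniq`: w, w' in the polydisc of radius r with χ w = χ w' are equal (both in the source: `χ.injOn`).
-/

set_option autoImplicit false

namespace Pool.Agent.H53.HN

open Filter Topology

variable {F G : ℂ × ℂ → ℂ × ℂ} {p : ℝ × ℝ} {μ ν r C : ℝ} {U S : ℂ → ℂ × ℂ}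
  {χ : OpenPartialHomeomorph (ℂ × ℂ) (ℂ × ℂ)}

theorem cj_add (x y : ℂ × ℂ) : cj (x + y) = cj x + cj y := by simp [cj]

theorem cj_sub (x y : ℂ × ℂ) : cj (x - y) = cj x - cj y := by simp [cj]

theorem chart_U (h : IsSad F G p μ ν U S) (hc : IsChart F p μ ν U S χ r C) {ζ : ℂ}
    (hζ : ‖ζ‖ < r) : χ (ζ, 0) = U ζ := by
  have hs : ((ζ, 0) : ℂ × ℂ) ∈ χ.source := hc.src _ hζ (by simpa using hc.r0)
  rw [hc.app _ hs]; simp [h.S0]

theorem chart_S (h : IsSad F G p μ ν U S) (hc : IsChart F p μ ν U S χ r C) {ζ : ℂ}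
    (hζ : ‖ζ‖ < r) : χ (0, ζ) = S ζ := by
  have hs : ((0, ζ) : ℂ × ℂ) ∈ χ.source := hc.src _ (by simpa using hc.r0) hζ
  rw [hc.app _ hs]; simp [h.U0]

theorem chart_real (h : IsSad F G p μ ν U S) (hc : IsChart F p μ ν U S χ r C) {w : ℂ × ℂ}
    (h1 : ‖w.1‖ < r) (h2 : ‖w.2‖ < r) (hw : cj w = w) : cj (χ w) = χ w := by
  have h3 : starRingEnd ℂ w.1 = w.1 := congrArg Prod.fst hw
  have h4 : starRingEnd ℂ w.2 = w.2 := congrArg Prod.snd hw
  rw [hc.app _ (hc.src _ h1 h2), cj_sub, cj_add, ← h.cU, ← h.cS, h3, h4, cj_io]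

theorem chart_uniq (hc : IsChart F p μ ν U S χ r C) {w w' : ℂ × ℂ}
    (h1 : ‖w.1‖ < r) (h2 : ‖w.2‖ < r) (h1' : ‖w'.1‖ < r) (h2' : ‖w'.2‖ < r)
    (hw : χ w = χ w') : w = w' :=
  χ.injOn (hc.src _ h1 h2) (hc.src _ h1' h2') hw

theorem chart_symm (hc : IsChart F p μ ν U S χ r C) {w : ℂ × ℂ}
    (h1 : ‖w.1‖ < r) (h2 : ‖w.2‖ < r) : χ w ∈ χ.target ∧ χ.symm (χ w) = w :=
  ⟨χ.map_source (hc.src _ h1 h2), χ.left_inv (hc.src _ h1 h2)⟩

theorem chart_loc (h : IsSad F G p μ ν U S) (hc : IsChart F p μ ν U S χ r C) {z0 w0 : ℂ × ℂ}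
    {j : ℕ} (h1 : ‖w0.1‖ < r) (h2 : ‖w0.2‖ < r) (hz : F^[j] z0 = χ w0) :
    ∀ᶠ z in 𝓝 z0, F^[j] z ∈ χ.target ∧ ‖(χ.symm (F^[j] z)).1‖ < r ∧
      ‖(χ.symm (F^[j] z)).2‖ < r := by
  obtain ⟨ht, hs⟩ := chart_symm hc h1 h2
  have cF : ContinuousAt F^[j] z0 := (ana_iter h.aF j z0).continuousAt
  have ht' : F^[j] z0 ∈ χ.target := by rw [hz]; exact ht
  have c2 : ContinuousAt (fun z => χ.symm (F^[j] z)) z0 :=
    (χ.symm.continuousAt (x := F^[j] z0) (by simpa using ht')).comp cF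
  have hval : χ.symm (F^[j] z0) = w0 := by rw [hz, hs]
  have e1 : ∀ᶠ z in 𝓝 z0, F^[j] z ∈ χ.target :=
    cF.eventually (χ.open_target.mem_nhds ht')
  have e2 : ∀ᶠ z in 𝓝 z0, ‖(χ.symm (F^[j] z)).1‖ < r := by
    have c3 : ContinuousAt (fun z => ‖(χ.symm (F^[j] z)).1‖) z0 := c2.fst.norm
    refine c3.eventually_lt continuousAt_const ?_
    simpa [hval] using h1
  have e3 : ∀ᶠ z in 𝓝 z0, ‖(χ.symm (F^[j] z)).2‖ < r := by
    have c3 : ContinuousAt (fun z => ‖(χ.symm (F^[j] z)).2‖) z0 := c2.snd.norm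
    refine c3.eventually_lt continuousAt_const ?_
    simpa [hval] using h2
  filter_upwards [e1, e2, e3] with z a b c using ⟨a, b, c⟩

theorem chart_diff (h : IsSad F G p μ ν U S) (hc : IsChart F p μ ν U S χ r C) {z0 w0 : ℂ × ℂ}
    {j : ℕ} (h1 : ‖w0.1‖ < r) (h2 : ‖w0.2‖ < r) (hz : F^[j] z0 = χ w0) :
    AnalyticAt ℂ (fun z => χ.symm (F^[j] z)) z0 ∧
      ∀ v, fderiv ℂ (fun z => χ.symm (F^[j] z)) z0 v = 0 → v = 0 := by
  obtain ⟨ht, hs⟩ := chart_symm hc h1 h2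
  have ht' : F^[j] z0 ∈ χ.target := by rw [hz]; exact ht
  have hA : AnalyticAt ℂ (fun z => χ.symm (F^[j] z)) z0 :=
    (hc.asym _ ht').comp (ana_iter h.aF j z0)
  refine ⟨hA, fun v hv => ?_⟩
  set Q : ℂ × ℂ → ℂ × ℂ := fun z => χ.symm (F^[j] z) with hQ
  set R : ℂ × ℂ → ℂ × ℂ := fun w => G^[j] (U w.1 + S w.2 - io p) with hR
  have dR : Differentiable ℂ R := by
    have : Differentiable ℂ G^[j] := diff_iter h.dG j
    refine this.comp ?_
    exact ((h.dU.comp differentiable_fst).add (h.dS.comp differentiable_snd)).sub_const _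
  have hev : ∀ᶠ z in 𝓝 z0, R (Q z) = z := by
    filter_upwards [chart_loc h hc h1 h2 hz] with z hz1
    have h3 : χ (Q z) = F^[j] z := χ.right_inv hz1.1
    have h4 : χ (Q z) = U (Q z).1 + S (Q z).2 - io p := hc.app _ (hc.src _ hz1.2.1 hz1.2.2)
    simp only [hR]
    rw [← h4, h3, h.iterGF]
  have h5 : HasFDerivAt (fun z => R (Q z)) ((fderiv ℂ R (Q z0)).comp (fderiv ℂ Q z0)) z0 :=
    (dR (Q z0)).hasFDerivAt.comp z0 hA.differentiableAt.hasFDerivAt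
  have h6 : HasFDerivAt (fun z => R (Q z)) (ContinuousLinearMap.id ℂ (ℂ × ℂ)) z0 :=
    (hasFDerivAt_id z0).congr_of_eventuallyEq hev
  have h7 := h5.unique h6
  have h8 := congrArg (fun L => L v) h7
  simp only [ContinuousLinearMap.comp_apply, ContinuousLinearMap.id_apply] at h8
  rw [← h8, hv, map_zero]

theorem chart_step (h : IsSad F G p μ ν U S) (hc : IsChart F p μ ν U S χ r C) {w : ℂ × ℂ}
    (h1 : ‖w.1‖ < r) (h2 : ‖w.2‖ < r) :
    χ (χ.symm (F (χ w))) = F (χ w) ∧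
      ‖(χ.symm (F (χ w))).1‖ ≤ (3 * μ - 1) / 2 * ‖w.1‖ ∧
      (1 + μ) / 2 * ‖w.1‖ ≤ ‖(χ.symm (F (χ w))).1‖ ∧
      ‖(χ.symm (F (χ w))).2‖ ≤ (1 + ν) / 2 * ‖w.2‖ := by
  have hC := hc.C0
  have b1 : C * ‖w.1‖ * ‖w.2‖ ≤ (μ - 1) / 2 * ‖w.1‖ := by
    have : C * ‖w.2‖ ≤ (μ - 1) / 2 :=
      (mul_le_mul_of_nonneg_left h2.le hC.le).trans hc.sm2
    calc C * ‖w.1‖ * ‖w.2‖ = (C * ‖w.2‖) * ‖w.1‖ := by ring
      _ ≤ _ := mul_le_mul_of_nonneg_right this (norm_nonneg _)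
  have b2 : C * ‖w.1‖ * ‖w.2‖ ≤ (1 - ν) / 2 * ‖w.2‖ := by
    have : C * ‖w.1‖ ≤ (1 - ν) / 2 :=
      (mul_le_mul_of_nonneg_left h1.le hC.le).trans hc.sm1
    exact mul_le_mul_of_nonneg_right this (norm_nonneg _)
  have n1 := hc.n1 w h1 h2
  have n2 := hc.n2 w h1 h2
  have e1 : ‖(μ : ℂ) * w.1‖ = μ * ‖w.1‖ := by
    rw [norm_mul, Complex.norm_real, Real.norm_of_nonneg h.mu0.le]
  have e2 : ‖(ν : ℂ) * w.2‖ = ν * ‖w.2‖ := by
    rw [norm_mul, Complex.norm_real, Real.norm_of_nonneg h.nu0.le]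
  refine ⟨χ.right_inv (hc.tgt w h1 h2), ?_, ?_, ?_⟩
  · have := norm_le_norm_add_norm_sub' (χ.symm (F (χ w))).1 ((μ : ℂ) * w.1)
    rw [e1] at this
    nlinarith
  · have := norm_sub_norm_le ((μ : ℂ) * w.1) (χ.symm (F (χ w))).1
    rw [e1, norm_sub_rev] at this
    nlinarith
  · have := norm_le_norm_add_norm_sub' (χ.symm (F (χ w))).2 ((ν : ℂ) * w.2)
    rw [e2] at this
    nlinarith

theorem chart_zero (h : IsSad F G p μ ν U S) (hc : IsChart F p μ ν U S χ r C) {z w : ℂ × ℂ}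
    {j : ℕ} (h1 : w.1 = 0) (h2 : ‖w.2‖ < r) (hz : F^[j] z = χ w) :
    z = S ((((ν ^ j)⁻¹ : ℝ) : ℂ) * w.2) := by
  have hw : w = (0, w.2) := Prod.ext h1 rfl
  have h3 : F^[j] z = F^[j] (S ((((ν ^ j)⁻¹ : ℝ) : ℂ) * w.2)) := by
    rw [hz, hw, chart_S h hc h2, h.iterS]
    congr 1
    have : ((ν : ℂ)) ^ j ≠ 0 := pow_ne_zero _ h.nuC
    push_cast
    field_simp
  rw [← h.iterGF j z, h3, h.iterGF]

/-- The chart is analytic with injective derivative on the polydisc. -/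
theorem chart_ana (h : IsSad F G p μ ν U S) (hc : IsChart F p μ ν U S χ r C) {w : ℂ × ℂ}
    (h1 : ‖w.1‖ < r) (h2 : ‖w.2‖ < r) :
    AnalyticAt ℂ χ w ∧ ∀ v, fderiv ℂ χ w v = 0 → v = 0 := by
  have hw : w ∈ χ.source := hc.src _ h1 h2
  have hT : AnalyticAt ℂ (fun z : ℂ × ℂ => U z.1 + S z.2 - io p) w := by
    have a1 : AnalyticAt ℂ (fun z : ℂ × ℂ => U z.1) w :=
      AnalyticAt.fun_comp (h.anaU w.1) analyticAt_fst
    have a2 : AnalyticAt ℂ (fun z : ℂ × ℂ => S z.2) w :=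
      AnalyticAt.fun_comp (h.anaS w.2) analyticAt_snd
    exact (a1.add a2).sub analyticAt_const
  have hev : ∀ᶠ z in 𝓝 w, U z.1 + S z.2 - io p = χ z := by
    filter_upwards [χ.open_source.mem_nhds hw] with z hz using (hc.app z hz).symm
  have hA : AnalyticAt ℂ χ w := hT.congr hev
  refine ⟨hA, fun v hv => ?_⟩
  have ht : χ w ∈ χ.target := χ.map_source hw
  have h5 : HasFDerivAt (fun z => χ.symm (χ z))
      ((fderiv ℂ χ.symm (χ w)).comp (fderiv ℂ χ w)) w :=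
    (hc.asym _ ht).differentiableAt.hasFDerivAt.comp w hA.differentiableAt.hasFDerivAt
  have hev2 : ∀ᶠ z in 𝓝 w, χ.symm (χ z) = z := by
    filter_upwards [χ.open_source.mem_nhds hw] with z hz using χ.left_inv hz
  have h6 : HasFDerivAt (fun z => χ.symm (χ z)) (ContinuousLinearMap.id ℂ (ℂ × ℂ)) w :=
    (hasFDerivAt_id w).congr_of_eventuallyEq hev2
  have h8 := congrArg (fun L => L v) (h5.unique h6)
  simp only [ContinuousLinearMap.comp_apply, ContinuousLinearMap.id_apply] at h8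
  rw [← h8, hv, map_zero]

/-- The first component of a map with injective derivative has nonzero derivative. -/
theorem fst_fderiv_ne {H : ℂ × ℂ → ℂ × ℂ} {z : ℂ × ℂ} (hd : DifferentiableAt ℂ H z)
    (hinj : ∀ v, fderiv ℂ H z v = 0 → v = 0) :
    fderiv ℂ (fun x => (H x).1) z ≠ 0 := by
  intro h0
  have hinj' : Function.Injective (fderiv ℂ H z).toLinearMap := by
    rw [← LinearMap.ker_eq_bot]
    exact LinearMap.ker_eq_bot'.2 (fun v hv => hinj v hv)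
  have hsur := LinearMap.injective_iff_surjective.1 hinj'
  obtain ⟨v, hv⟩ := hsur ((1, 0) : ℂ × ℂ)
  have h1 : fderiv ℂ (fun x => (H x).1) z v = (fderiv ℂ H z v).1 := by
    have := (hd.hasFDerivAt).fst
    rw [this.fderiv]; rfl
  have hv' : fderiv ℂ H z v = (1, 0) := hv
  rw [h0, hv'] at h1
  simp at h1

end Pool.Agent.H53.HN
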