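import Mathlib

/-! # Local estimates for the degenerate case (helper53, folder HN)

PROOF. A(x) := Φ(x,0), analytic at a, A(a) = 0, A'(a) = 0 (hX), not identically zero near a, so A(x) = (x-a)^k' u(x), u(a) ≠ 0, k' >= 1 (`AnalyticAt.exists_eventuallyEq_pow_smul_nonzero_iff`).
 (1) |A(x)| >= c0 |x-a|^k' near a, c0 = |u(a)|/2. (2) A'(x) = k'(x-a)^(k'-1) u(x) + (x-a)^k' u'(x), so |A'(x)| |x-a| >= (1/2)|A(x)| near a (k' >= 1; |u'(x)||x-a| <= |u(x)|/2 near a).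
 Let B = |fderiv Φ (a,0) (0,1)| > 0. Φ has a strict derivative at (a,0) and continuous fderiv near (a,0) with a Lipschitz bound: there are C1 and a neighbourhood W (a product of balls) such that for z = (x,y) in W:
 (3) |Φ(x,y) - Φ(x,0)| <= 2 B |y| and >= (B/2)|y| (strict differentiability along (0,y), `HasStrictFDerivAt`); (4) ‖fderiv Φ z (0,1)‖ <= 2B;
 (5) ‖fderiv Φ (x,y) (1,0) - fderiv Φ (x,0) (1,0)‖ <= C1 |y| (fderiv Φ is analytic, hence Lipschitz near (a,0)); fderiv Φ (x,0) (1,0) = A'(x).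
 Let Φ z = 0, y ≠ 0: by (3) |A(x)| >= (B/2)|y| > 0, so x ≠ a. |fderiv Φ z (1,0)| >= |A'(x)| - C1|y| >= |A(x)|/(2|x-a|) - C1 |y| >= |y| (B/(4|x-a|) - C1). And c0 |x-a|^k' <= |A(x)| <= 2B|y| gives |y| >= (c0/(2B))|x-a|^k'.
 Take c1 = min (B/4) (c0/(2B)) and the constant max C1 (2B).
-/

set_option autoImplicit false

namespace Pool.Agent.H53.HN

open Filter Topology

private theorem coreA_one {A u : ℂ → ℂ} {a : ℂ} {k : ℕ} (hu : AnalyticAt ℂ u a) (hu0 : u a ≠ 0)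
    (hA : ∀ᶠ x in 𝓝 a, A x = (x - a) ^ k • u x) (hk : k ≠ 0) :
    ∀ᶠ x in 𝓝 a, ‖u a‖ / 2 * ‖x - a‖ ^ k ≤ ‖A x‖ ∧
      ‖A x‖ / 2 ≤ ‖deriv A x‖ * ‖x - a‖ := by
  have hup : 0 < ‖u a‖ := norm_pos_iff.2 hu0
  have hdA : deriv A =ᶠ[𝓝 a] deriv (fun x => (x - a) ^ k • u x) :=
    Filter.EventuallyEq.deriv hA
  have h1 : ∀ᶠ x in 𝓝 a, ‖u a‖ / 2 < ‖u x‖ :=
    hu.continuousAt.norm.eventually (lt_mem_nhds (by linarith))
  have h2 : ∀ᶠ x in 𝓝 a, ‖x - a‖ * ‖deriv u x‖ < ‖u x‖ / 2 := by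
    have hc : ContinuousAt (fun x => ‖x - a‖ * ‖deriv u x‖) a :=
      ((continuousAt_id.sub continuousAt_const).norm).mul hu.deriv.continuousAt.norm
    have hc2 : ContinuousAt (fun x => ‖u x‖ / 2) a := hu.continuousAt.norm.div_const 2
    have h3 : (fun x => ‖x - a‖ * ‖deriv u x‖) a < (fun x => ‖u x‖ / 2) a := by
      simp only [sub_self, norm_zero, zero_mul]
      linarith
    exact hc.eventually_lt hc2 h3
  filter_upwards [hA, hdA, h1, h2, hu.eventually_analyticAt] with x hx1 hx2 hx3 hx4 hx5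
  have hn : ‖A x‖ = ‖x - a‖ ^ k * ‖u x‖ := by
    rw [hx1, norm_smul, norm_pow]
  have hpk : 0 ≤ ‖x - a‖ ^ k := by positivity
  refine ⟨?_, ?_⟩
  · rw [hn]
    nlinarith
  · obtain ⟨m, rfl⟩ : ∃ m, k = m + 1 := ⟨k - 1, by omega⟩
    have hd : HasDerivAt (fun x => (x - a) ^ (m + 1) • u x)
        ((x - a) ^ (m + 1) • deriv u x + (((m + 1 : ℕ) : ℂ) * (x - a) ^ m * 1) • u x) x := by
      have e1 : HasDerivAt (fun x : ℂ => (x - a) ^ (m + 1))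
          (((m + 1 : ℕ) : ℂ) * (x - a) ^ m * 1) x := by
        exact ((hasDerivAt_id x).sub_const a).pow (m + 1)
      exact e1.smul hx5.differentiableAt.hasDerivAt
    have hx2' : deriv A x =
        (x - a) ^ (m + 1) • deriv u x + (((m + 1 : ℕ) : ℂ) * (x - a) ^ m * 1) • u x := by
      rw [hx2]
      exact hd.deriv
    have e2 : deriv A x * (x - a) =
        ((m + 1 : ℕ) : ℂ) * A x + (x - a) ^ (m + 1) * ((x - a) * deriv u x) := by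
      rw [hx2', hx1]
      simp only [smul_eq_mul]
      ring
    have e3 : ‖((m + 1 : ℕ) : ℂ) * A x‖ ≤
        ‖deriv A x * (x - a)‖ + ‖(x - a) ^ (m + 1) * ((x - a) * deriv u x)‖ := by
      have e4 : ((m + 1 : ℕ) : ℂ) * A x =
          deriv A x * (x - a) - (x - a) ^ (m + 1) * ((x - a) * deriv u x) := by
        rw [e2]
        ring
      rw [e4]
      exact norm_sub_le _ _
    have e5 : ‖(x - a) ^ (m + 1) * ((x - a) * deriv u x)‖ ≤ ‖A x‖ / 2 := by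
      rw [norm_mul, norm_mul, norm_pow, hn]
      have := mul_le_mul_of_nonneg_left hx4.le hpk
      calc ‖x - a‖ ^ (m + 1) * (‖x - a‖ * ‖deriv u x‖) ≤ ‖x - a‖ ^ (m + 1) * (‖u x‖ / 2) := this
        _ = ‖x - a‖ ^ (m + 1) * ‖u x‖ / 2 := by ring
    have e6 : ‖A x‖ ≤ ‖((m + 1 : ℕ) : ℂ) * A x‖ := by
      rw [norm_mul, Complex.norm_natCast]
      have : (1 : ℝ) ≤ ((m + 1 : ℕ) : ℝ) := by
        push_cast
        have : (0 : ℝ) ≤ m := Nat.cast_nonneg m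
        linarith
      exact le_mul_of_one_le_left (norm_nonneg _) this
    rw [norm_mul (deriv A x)] at e3
    linarith

theorem core_A {Φ : ℂ × ℂ → ℂ} {a : ℂ} (hΦ : AnalyticAt ℂ Φ (a, 0)) (h0 : Φ (a, 0) = 0)
    (hX : fderiv ℂ Φ (a, 0) (1, 0) = 0) (hY : fderiv ℂ Φ (a, 0) (0, 1) ≠ 0)
    (hnz : ¬ ∀ᶠ x in 𝓝 a, Φ (x, 0) = 0) :
    ∃ (c1 C1 : ℝ) (k' : ℕ), 0 < c1 ∧ 0 < C1 ∧ ∀ᶠ z : ℂ × ℂ in 𝓝 (a, 0), Φ z = 0 → z.2 ≠ 0 →
      z.1 ≠ a ∧ ‖z.2‖ * (c1 / ‖z.1 - a‖ - C1) ≤ ‖fderiv ℂ Φ z (1, 0)‖ ∧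
      ‖fderiv ℂ Φ z (0, 1)‖ ≤ C1 ∧ c1 * ‖z.1 - a‖ ^ k' ≤ ‖z.2‖ := by
  have hAan : AnalyticAt ℂ (fun x : ℂ => Φ (x, 0)) a :=
    AnalyticAt.comp (g := Φ) (f := fun x : ℂ => ((x, 0) : ℂ × ℂ)) hΦ
      (analyticAt_id.prod analyticAt_const)
  obtain ⟨k, u, hu, hu0, hA⟩ := hAan.exists_eventuallyEq_pow_smul_nonzero_iff.2 hnz
  have hk : k ≠ 0 := by
    rintro rfl
    have h1 := hA.self_of_nhds
    simp only [pow_zero, one_smul] at h1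
    exact hu0 (by rw [← h1]; exact h0)
  have hone := coreA_one hu hu0 hA hk
  set B : ℝ := ‖fderiv ℂ Φ (a, 0) (0, 1)‖ with hB
  have hB0 : 0 < B := norm_pos_iff.2 hY
  have hup : 0 < ‖u a‖ := norm_pos_iff.2 hu0
  -- the projection to the axis
  have hproj : Tendsto (fun z : ℂ × ℂ => ((z.1, (0 : ℂ)) : ℂ × ℂ)) (𝓝 (a, 0)) (𝓝 (a, 0)) := by
    have hc : Continuous (fun z : ℂ × ℂ => ((z.1, (0 : ℂ)) : ℂ × ℂ)) := by fun_prop
    exact hc.tendsto (a, 0)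
  have hfst : Tendsto (fun z : ℂ × ℂ => z.1) (𝓝 (a, 0)) (𝓝 a) := continuous_fst.tendsto (a, 0)
  have hsub : ∀ z : ℂ × ℂ, z - (z.1, 0) = (0, z.2) := fun z => by ext <;> simp
  have hnsub : ∀ z : ℂ × ℂ, ‖z - (z.1, 0)‖ = ‖z.2‖ := fun z => by
    rw [hsub, Prod.norm_def]
    simp
  -- (3)
  have h3 : ∀ᶠ z : ℂ × ℂ in 𝓝 (a, 0), ‖Φ z - Φ (z.1, 0)‖ ≤ 2 * B * ‖z.2‖ ∧
      B / 2 * ‖z.2‖ ≤ ‖Φ z - Φ (z.1, 0)‖ := by
    have hs := hΦ.hasStrictFDerivAt.isLittleO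
    have h4 := hs.def (show 0 < B / 2 by linarith)
    have h5 : Tendsto (fun z : ℂ × ℂ => ((z, (z.1, (0 : ℂ))) : (ℂ × ℂ) × (ℂ × ℂ)))
        (𝓝 (a, 0)) (𝓝 ((a, 0), (a, 0))) := tendsto_id.prodMk_nhds hproj
    filter_upwards [h5.eventually h4] with z hz
    have hz' : ‖Φ z - Φ (z.1, 0) - fderiv ℂ Φ (a, 0) (0, z.2)‖ ≤ B / 2 * ‖z.2‖ := by
      rw [← hsub z, ← hnsub z]
      exact hz
    have h6 : fderiv ℂ Φ (a, 0) (0, z.2) = z.2 • fderiv ℂ Φ (a, 0) (0, 1) := by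
      rw [← map_smul]
      congr 1
      ext <;> simp
    rw [h6] at hz'
    have h7 : ‖z.2 • fderiv ℂ Φ (a, 0) (0, 1)‖ = B * ‖z.2‖ := by
      rw [norm_smul, mul_comm]
    have h8 := norm_sub_norm_le (z.2 • fderiv ℂ Φ (a, 0) (0, 1)) (Φ z - Φ (z.1, 0))
    have h9 := norm_sub_norm_le (Φ z - Φ (z.1, 0)) (z.2 • fderiv ℂ Φ (a, 0) (0, 1))
    rw [norm_sub_rev (z.2 • fderiv ℂ Φ (a, 0) (0, 1)) (Φ z - Φ (z.1, 0))] at h8
    rw [h7] at h8 h9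
    have h10 : 0 ≤ B * ‖z.2‖ := by positivity
    constructor <;> linarith
  -- (4)
  have h4 : ∀ᶠ z : ℂ × ℂ in 𝓝 (a, 0), ‖fderiv ℂ Φ z (0, 1)‖ < 2 * B := by
    have hc : ContinuousAt (fun z => ‖fderiv ℂ Φ z (0, 1)‖) ((a, 0) : ℂ × ℂ) :=
      (hΦ.fderiv.continuousAt.clm_apply continuousAt_const).norm
    exact hc.eventually (gt_mem_nhds (by linarith))
  -- (5)
  obtain ⟨K, s, hs, hK⟩ := hΦ.fderiv.hasStrictFDerivAt.exists_lipschitzOnWith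
  have h5 : ∀ᶠ z : ℂ × ℂ in 𝓝 (a, 0),
      ‖fderiv ℂ Φ z (1, 0) - fderiv ℂ Φ (z.1, 0) (1, 0)‖ ≤ K * ‖z.2‖ := by
    filter_upwards [hs, hproj.eventually hs] with z hz1 hz2
    have h6 := hK.dist_le_mul z hz1 (z.1, 0) hz2
    rw [dist_eq_norm, dist_eq_norm, hnsub] at h6
    have h7 : fderiv ℂ Φ z (1, 0) - fderiv ℂ Φ (z.1, 0) (1, 0) =
        (fderiv ℂ Φ z - fderiv ℂ Φ (z.1, 0)) (1, 0) := by simp
    rw [h7]
    have h8 := (fderiv ℂ Φ z - fderiv ℂ Φ (z.1, 0)).le_opNorm (1, 0)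
    have h9 : ‖((1 : ℂ), (0 : ℂ))‖ = 1 := by simp [Prod.norm_def]
    rw [h9, mul_one] at h8
    exact h8.trans h6
  -- the derivative of A
  have h6 : ∀ᶠ z : ℂ × ℂ in 𝓝 (a, 0),
      deriv (fun x : ℂ => Φ (x, 0)) z.1 = fderiv ℂ Φ (z.1, 0) (1, 0) := by
    filter_upwards [hproj.eventually hΦ.eventually_analyticAt] with z hz
    have h7 : HasDerivAt (fun x : ℂ => ((x, (0 : ℂ)) : ℂ × ℂ)) (1, 0) z.1 :=
      (hasDerivAt_id z.1).prodMk (hasDerivAt_const z.1 (0 : ℂ))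
    exact (hz.differentiableAt.hasFDerivAt.comp_hasDerivAt z.1 h7).deriv
  refine ⟨min (B / 4) (‖u a‖ / 2 / (2 * B)), max K (2 * B), k, ?_, ?_, ?_⟩
  · exact lt_min (by linarith) (by positivity)
  · exact lt_max_of_lt_right (by linarith)
  filter_upwards [h3, h4, h5, h6, hfst.eventually hone] with z hz3 hz4 hz5 hz6 hz7 hz0 hz2
  have hy : 0 < ‖z.2‖ := norm_pos_iff.2 hz2
  rw [hz0, zero_sub, norm_neg] at hz3
  have hAx : 0 < ‖Φ (z.1, 0)‖ := lt_of_lt_of_le (by positivity) hz3.2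
  have hxa : z.1 ≠ a := by
    intro hxa
    rw [hxa, h0, norm_zero] at hAx
    exact lt_irrefl _ hAx
  have hxa' : 0 < ‖z.1 - a‖ := norm_pos_iff.2 (sub_ne_zero.2 hxa)
  refine ⟨hxa, ?_, hz4.le.trans (le_max_right _ _), ?_⟩
  · have e1 : ‖Φ (z.1, 0)‖ / 2 ≤ ‖fderiv ℂ Φ (z.1, 0) (1, 0)‖ * ‖z.1 - a‖ := by
      rw [← hz6]
      exact hz7.2
    have e2 : ‖z.2‖ * (B / 4 / ‖z.1 - a‖) ≤ ‖fderiv ℂ Φ (z.1, 0) (1, 0)‖ := by
      rw [mul_div_assoc', div_le_iff₀ hxa']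
      nlinarith [hz3.2]
    have e3 : ‖fderiv ℂ Φ (z.1, 0) (1, 0)‖ ≤
        ‖fderiv ℂ Φ z (1, 0)‖ + ‖fderiv ℂ Φ z (1, 0) - fderiv ℂ Φ (z.1, 0) (1, 0)‖ := by
      have := norm_sub_le (fderiv ℂ Φ z (1, 0))
        (fderiv ℂ Φ z (1, 0) - fderiv ℂ Φ (z.1, 0) (1, 0))
      rwa [sub_sub_cancel] at this
    have e4 : min (B / 4) (‖u a‖ / 2 / (2 * B)) / ‖z.1 - a‖ ≤ B / 4 / ‖z.1 - a‖ :=
      div_le_div_of_nonneg_right (min_le_left _ _) hxa'.le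
    have e5 : (K : ℝ) ≤ max (K : ℝ) (2 * B) := le_max_left _ _
    have e6 := mul_le_mul_of_nonneg_left e4 hy.le
    have e7 := mul_le_mul_of_nonneg_left e5 hy.le
    rw [mul_sub]
    linarith
  · have e1 : min (B / 4) (‖u a‖ / 2 / (2 * B)) * ‖z.1 - a‖ ^ k ≤
        ‖u a‖ / 2 / (2 * B) * ‖z.1 - a‖ ^ k :=
      mul_le_mul_of_nonneg_right (min_le_right _ _) (by positivity)
    refine e1.trans ?_
    rw [div_mul_eq_mul_div, div_le_iff₀ (by linarith)]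
    linarith [hz7.1, hz3.1]

end Pool.Agent.H53.HN
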