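import Pool.Agent.H53.HN.CoreDefs

/-! # Zeros along the family (helper53, folder HN)

PROOF. Let δ > 0 be given. Let W be a neighbourhood of (t',0) on which Φ is continuous and real on real points. Choose η in (0, 1/20) so small that η |t'| < δ, η|t'| < ε (ε from hsgn), and all points (x,0), |x - t'| <= η |t'|, and nearby (x,y), |y| <= δ', are in W.
 Let A(x) = (Φ (x,0)).re. By hsgn A(t' - η|t'|) and A(t' + η|t'|) have opposite signs (both nonzero). By continuity there is δ'' > 0 (<= δ', <= δ) such that for real y, |y| <= δ'': Φ(t' ∓ η|t'|, y).re has the same sign as A(t' ∓ η|t'|).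
 Let J be such that |Y j| <= δ'' for j >= J. Fix such j and let ξ(w) = X j w / t' for real w in [-1/(8k), 1/(8k)], a real continuous function (rX, dX). By aX: ξ(-1/(8k)) <= (1 - 1/(8k))^k + 1/100 <= exp(-1/8) + 1/100 < 0.9 < 1 - η, ξ(1/(8k)) >= 1 + 1/8 - 1/100 > 1 + η.
 Let w2 = the first point w with ξ(w) >= 1 + η (infimum of a nonempty closed set), w1 = the last point of [-1/(8k), w2] with ξ(w) <= 1 - η. Then w1 < w2, ξ(w1) = 1 - η, ξ(w2) = 1 + η, and 1 - η <= ξ <= 1 + η on [w1,w2].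
 The real continuous function w -> Φ(X j w, Y j w).re on [w1,w2] has at the ends opposite signs (t' > 0: X j w1 = t' - η t', X j w2 = t' + η t'; t' < 0: exchanged), so it vanishes at some w in (w1,w2); the imaginary part vanishes as the point is real and in W.
-/

set_option autoImplicit false

namespace Pool.Agent.H53.HN

open Filter Topology

private theorem cz_pow {k : ℕ} (hk : 0 < k) :
    9 / 8 ≤ (1 + 1 / (8 * (k : ℝ))) ^ k ∧ (1 + -(1 / (8 * (k : ℝ)))) ^ k ≤ 8 / 9 := by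
  have hk' : (0 : ℝ) < k := by exact_mod_cast hk
  have hk1 : (1 : ℝ) ≤ k := by exact_mod_cast hk
  set x : ℝ := 1 / (8 * (k : ℝ)) with hx
  have hx0 : 0 < x := by positivity
  have hx1 : x ≤ 1 := by
    rw [hx, div_le_one (by positivity)]
    linarith
  have hkx : (k : ℝ) * x = 1 / 8 := by
    rw [hx]
    field_simp
  have h1 : 9 / 8 ≤ (1 + x) ^ k := by
    have := one_add_mul_le_pow (show (-2 : ℝ) ≤ x by linarith) k
    rw [hkx] at this
    linarith
  refine ⟨h1, ?_⟩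
  have h2 : (1 + -x) ^ k * (1 + x) ^ k ≤ 1 := by
    rw [← mul_pow]
    apply pow_le_one₀
    · nlinarith
    · nlinarith
  have h3 : 0 ≤ (1 + -x) ^ k := pow_nonneg (by linarith) k
  nlinarith

theorem core_zero {k : ℕ} {t' : ℝ} {X Y : ℕ → ℂ → ℂ} (h : IsFam k t' X Y) {Φ : ℂ × ℂ → ℂ}
    (hΦ : AnalyticAt ℂ Φ ((t' : ℂ), 0))
    (hΦr : ∀ᶠ z in 𝓝 ((t' : ℂ), (0 : ℂ)), cj z = z → (Φ z).im = 0)
    (hsgn : ∃ ε : ℝ, 0 < ε ∧ ∀ τ τ' : ℝ, 0 < τ → τ < ε → 0 < τ' → τ' < ε →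
      (Φ (((t' - τ : ℝ) : ℂ), 0)).re * (Φ (((t' + τ' : ℝ) : ℂ), 0)).re < 0)
    {δ : ℝ} (hδ : 0 < δ) :
    ∃ J : ℕ, ∀ j, J ≤ j → ∃ w : ℝ, |w| ≤ 1 / (8 * k) ∧ ‖X j (w : ℂ) - t'‖ < δ ∧
      ‖Y j (w : ℂ)‖ < δ ∧ Φ (X j (w : ℂ), Y j (w : ℂ)) = 0 := by
  have hk' : (0 : ℝ) < k := by exact_mod_cast h.k0
  have ht : 0 < |t'| := abs_pos.2 h.t0
  obtain ⟨ρ, hρ, hball⟩ := Metric.eventually_nhds_iff_ball.1
    (hΦ.eventually_analyticAt.and hΦr)
  obtain ⟨ε, hε, hsgn⟩ := hsgn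
  -- the number η
  obtain ⟨η, hη0, hη1, hηρ, hηδ, hηε⟩ : ∃ η : ℝ, 0 < η ∧ η < 1 / 20 ∧ |t'| * η < ρ ∧
      |t'| * η < δ ∧ |t'| * η < ε := by
    have hm : 0 < min ρ (min δ ε) := lt_min hρ (lt_min hδ hε)
    refine ⟨min (1 / 40) (min ρ (min δ ε) / (2 * |t'|)), ?_, ?_, ?_⟩
    · exact lt_min (by norm_num) (by positivity)
    · exact lt_of_le_of_lt (min_le_left _ _) (by norm_num)
    · have h1 : |t'| * min (1 / 40) (min ρ (min δ ε) / (2 * |t'|)) < min ρ (min δ ε) := by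
        have h2 : |t'| * min (1 / 40) (min ρ (min δ ε) / (2 * |t'|)) ≤
            |t'| * (min ρ (min δ ε) / (2 * |t'|)) :=
          mul_le_mul_of_nonneg_left (min_le_right _ _) ht.le
        have h3 : |t'| * (min ρ (min δ ε) / (2 * |t'|)) = min ρ (min δ ε) / 2 := by
          field_simp
        linarith
      exact ⟨h1.trans_le (min_le_left _ _),
        h1.trans_le ((min_le_right _ _).trans (min_le_left _ _)),
        h1.trans_le ((min_le_right _ _).trans (min_le_right _ _))⟩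
  -- points of the ball
  have hmem : ∀ (s : ℝ) (y : ℂ), |s - 1| ≤ η → ‖y‖ < ρ →
      (((t' * s : ℝ) : ℂ), y) ∈ Metric.ball ((t' : ℂ), (0 : ℂ)) ρ := by
    intro s y hs hy
    rw [Metric.mem_ball, dist_eq_norm, Prod.norm_def]
    refine max_lt ?_ ?_
    · have h1 : ((((t' * s : ℝ) : ℂ), y) - ((t' : ℂ), (0 : ℂ))).1 = ((t' * (s - 1) : ℝ) : ℂ) := by
        simp only [Prod.fst_sub]
        push_cast
        ring
      rw [h1, Complex.norm_real, Real.norm_eq_abs, abs_mul]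
      exact lt_of_le_of_lt (mul_le_mul_of_nonneg_left hs ht.le) hηρ
    · simpa using hy
  set σ1 : ℝ := (Φ (((t' * (1 - η) : ℝ) : ℂ), 0)).re with hσ1
  set σ2 : ℝ := (Φ (((t' * (1 + η) : ℝ) : ℂ), 0)).re with hσ2
  have hσ : σ1 * σ2 < 0 := by
    have h1 := hsgn (|t'| * η) (|t'| * η) (by positivity) hηε (by positivity) hηε
    rcases lt_or_gt_of_ne h.t0 with htn | htp
    · rw [abs_of_neg htn] at h1
      have e1 : t' - -t' * η = t' * (1 + η) := by ring
      have e2 : t' + -t' * η = t' * (1 - η) := by ring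
      rw [e1, e2] at h1
      rw [hσ1, hσ2, mul_comm]
      exact h1
    · rw [abs_of_pos htp] at h1
      have e1 : t' - t' * η = t' * (1 - η) := by ring
      have e2 : t' + t' * η = t' * (1 + η) := by ring
      rw [e1, e2] at h1
      exact h1
  have hσ1n : σ1 ≠ 0 := by
    intro h0
    rw [h0, zero_mul] at hσ
    exact lt_irrefl _ hσ
  have hσ2n : σ2 ≠ 0 := by
    intro h0
    rw [h0, mul_zero] at hσ
    exact lt_irrefl _ hσ
  have hsign : ∀ s : ℝ, |s - 1| ≤ η → (Φ (((t' * s : ℝ) : ℂ), 0)).re ≠ 0 →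
      ∃ d : ℝ, 0 < d ∧ ∀ y : ℂ, ‖y‖ < d →
        0 < (Φ (((t' * s : ℝ) : ℂ), y)).re * (Φ (((t' * s : ℝ) : ℂ), 0)).re := by
    intro s hs hne
    have hc : ContinuousAt (fun y : ℂ => (Φ (((t' * s : ℝ) : ℂ), y)).re *
        (Φ (((t' * s : ℝ) : ℂ), 0)).re) 0 := by
      have h1 : ContinuousAt Φ (((t' * s : ℝ) : ℂ), (0 : ℂ)) :=
        (hball _ (hmem s 0 hs (by simpa using hρ))).1.continuousAt
      have h2 : ContinuousAt (fun y : ℂ => Φ (((t' * s : ℝ) : ℂ), y)) 0 :=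
        ContinuousAt.comp (g := Φ) (f := fun y : ℂ => ((((t' * s : ℝ) : ℂ), y) : ℂ × ℂ)) h1
          (by fun_prop)
      exact (Complex.continuous_re.continuousAt.comp h2).mul continuousAt_const
    have h3 : ∀ᶠ y in 𝓝 (0 : ℂ), 0 < (Φ (((t' * s : ℝ) : ℂ), y)).re *
        (Φ (((t' * s : ℝ) : ℂ), 0)).re :=
      hc.eventually (lt_mem_nhds (mul_self_pos.2 hne))
    obtain ⟨d, hd, hd2⟩ := Metric.eventually_nhds_iff_ball.1 h3
    exact ⟨d, hd, fun y hy => hd2 y (by simpa using hy)⟩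
  have hab1 : |(1 - η) - 1| ≤ η := by
    rw [show (1 - η) - 1 = -η by ring, abs_neg, abs_of_pos hη0]
  have hab2 : |(1 + η) - 1| ≤ η := by
    rw [show (1 + η) - 1 = η by ring, abs_of_pos hη0]
  obtain ⟨d1, hd1, hD1⟩ := hsign (1 - η) hab1 hσ1n
  obtain ⟨d2, hd2, hD2⟩ := hsign (1 + η) hab2 hσ2n
  have hm : 0 < min (min δ ρ) (min d1 d2) := lt_min (lt_min hδ hρ) (lt_min hd1 hd2)
  obtain ⟨J, hJ⟩ := h.uY (min (min δ ρ) (min d1 d2) / 2) (by positivity)
  refine ⟨J, fun j hj => ?_⟩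
  have hwb : ∀ w : ℝ, |w| ≤ 1 / (8 * k) → |w| < 1 / (4 * k) := by
    intro w hw
    refine lt_of_le_of_lt hw ?_
    apply div_lt_div_of_pos_left one_pos (by positivity)
    linarith
  have hwball : ∀ w : ℝ, |w| ≤ 1 / (8 * k) → (w : ℂ) ∈ Metric.ball (0 : ℂ) (1 / (4 * k)) := by
    intro w hw
    rw [mem_ball_zero_iff, Complex.norm_real]
    exact hwb w hw
  have hYb : ∀ w : ℝ, |w| ≤ 1 / (8 * k) → ‖Y j (w : ℂ)‖ < δ ∧ ‖Y j (w : ℂ)‖ < ρ ∧
      ‖Y j (w : ℂ)‖ < d1 ∧ ‖Y j (w : ℂ)‖ < d2 := by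
    intro w hw
    have h1 : ‖Y j (w : ℂ)‖ < min (min δ ρ) (min d1 d2) :=
      lt_of_le_of_lt (hJ j hj _ (hwball w hw)) (by linarith)
    exact ⟨h1.trans_le ((min_le_left _ _).trans (min_le_left _ _)),
      h1.trans_le ((min_le_left _ _).trans (min_le_right _ _)),
      h1.trans_le ((min_le_right _ _).trans (min_le_left _ _)),
      h1.trans_le ((min_le_right _ _).trans (min_le_right _ _))⟩
  set ξ : ℝ → ℝ := fun w => (X j (w : ℂ)).re / t' with hξ
  set Tc : ℝ → ℝ := fun w => max (1 - η) (min (1 + η) (ξ w)) with hTc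
  have hTb : ∀ w, |Tc w - 1| ≤ η := by
    intro w
    rw [abs_le]
    constructor
    · have : 1 - η ≤ Tc w := le_max_left _ _
      linarith
    · have : Tc w ≤ 1 + η := max_le (by linarith) (min_le_left _ _)
      linarith
  have hXc : ContinuousOn (fun w : ℝ => X j (w : ℂ)) {w | |w| ≤ 1 / (8 * k)} := by
    refine (h.dX j).continuousOn.comp Complex.continuous_ofReal.continuousOn ?_
    intro w hw
    exact hwball w hw
  have hYc : ContinuousOn (fun w : ℝ => Y j (w : ℂ)) {w | |w| ≤ 1 / (8 * k)} := by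
    refine (h.dY j).continuousOn.comp Complex.continuous_ofReal.continuousOn ?_
    intro w hw
    exact hwball w hw
  have hTcc : ContinuousOn Tc {w | |w| ≤ 1 / (8 * k)} := by
    have h1 : ContinuousOn ξ {w | |w| ≤ 1 / (8 * k)} :=
      (Complex.continuous_re.comp_continuousOn hXc).div_const t'
    exact continuousOn_const.sup (continuousOn_const.inf h1)
  set H : ℝ → ℝ := fun w => (Φ (((t' * Tc w : ℝ) : ℂ), Y j (w : ℂ))).re with hH
  have hHc : ContinuousOn H {w | |w| ≤ 1 / (8 * k)} := by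
    have h1 : ContinuousOn Φ (Metric.ball ((t' : ℂ), (0 : ℂ)) ρ) := fun z hz =>
      (hball z hz).1.continuousAt.continuousWithinAt
    have h2 : ContinuousOn (fun w : ℝ => ((((t' * Tc w : ℝ) : ℂ), Y j (w : ℂ)) : ℂ × ℂ))
        {w | |w| ≤ 1 / (8 * k)} :=
      (Complex.continuous_ofReal.comp_continuousOn (continuousOn_const.mul hTcc)).prodMk hYc
    exact Complex.continuous_re.comp_continuousOn
      (h1.comp h2 fun w hw => hmem _ _ (hTb w) (hYb w hw).2.1)
  set β : ℝ := 1 / (8 * (k : ℝ)) with hβ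
  have hβ0 : 0 < β := by positivity
  have hpw := cz_pow h.k0
  have hest : ∀ w : ℝ, |w| ≤ β → |ξ w - (1 + w) ^ k| ≤ 1 / 100 := by
    intro w hw
    have h1 := h.aX j _ (hwball w hw)
    have h2 : X j (w : ℂ) = (((X j (w : ℂ)).re : ℝ) : ℂ) := by
      apply Complex.ext
      · simp
      · simpa using h.rX j w (hwb w hw)
    have h3 : X j (w : ℂ) - (t' : ℂ) * (1 + (w : ℂ)) ^ k =
        ((t' * (ξ w - (1 + w) ^ k) : ℝ) : ℂ) := by
      rw [h2, hξ]
      have h4 : t' * ((X j (w : ℂ)).re / t' - (1 + w) ^ k) =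
          (X j (w : ℂ)).re - t' * (1 + w) ^ k := by
        rw [mul_sub, mul_div_cancel₀ _ h.t0]
      simp only
      rw [h4]
      push_cast
      rfl
    rw [h3, Complex.norm_real, Real.norm_eq_abs, abs_mul] at h1
    have h5 : |t'| * |ξ w - (1 + w) ^ k| ≤ |t'| * (1 / 100) := by linarith
    exact le_of_mul_le_mul_left h5 ht
  have habsβ : |β| ≤ β := by rw [abs_of_pos hβ0]
  have habsβ' : |-β| ≤ β := by rw [abs_neg, abs_of_pos hβ0]
  have hTβ : Tc β = 1 + η := by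
    have h1 := (abs_le.1 (hest β habsβ)).1
    have h2 : 1 + η ≤ ξ β := by linarith [hpw.1]
    simp only [hTc]
    rw [min_eq_left h2, max_eq_right (by linarith)]
  have hTβ' : Tc (-β) = 1 - η := by
    have h1 := (abs_le.1 (hest (-β) habsβ')).2
    have h2 : ξ (-β) ≤ 1 - η := by linarith [hpw.2]
    simp only [hTc]
    rw [min_eq_right (by linarith), max_eq_left h2]
  have hH1 : 0 < H (-β) * σ1 := by
    simp only [hH]
    rw [hTβ']
    exact hD1 _ (hYb (-β) habsβ').2.2.1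
  have hH2 : 0 < H β * σ2 := by
    simp only [hH]
    rw [hTβ]
    exact hD2 _ (hYb β habsβ).2.2.2
  have hH12 : H (-β) * H β < 0 := by
    by_contra hcon
    push Not at hcon
    have h1 : 0 < (H (-β) * σ1) * (H β * σ2) := mul_pos hH1 hH2
    have h2 : (H (-β) * σ1) * (H β * σ2) = (H (-β) * H β) * (σ1 * σ2) := by ring
    rw [h2] at h1
    have h3 : (H (-β) * H β) * (σ1 * σ2) ≤ 0 :=
      mul_nonpos_of_nonneg_of_nonpos hcon hσ.le
    linarith
  have hsub : Set.uIcc (-β) β ⊆ {w | |w| ≤ 1 / (8 * k)} := by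
    intro w hw
    rw [Set.uIcc_of_le (by linarith)] at hw
    exact abs_le.2 hw
  have h0mem : (0 : ℝ) ∈ Set.uIcc (H (-β)) (H β) := by
    rw [Set.mem_uIcc]
    rcases mul_neg_iff.1 hH12 with h1 | h1
    · right
      exact ⟨h1.2.le, h1.1.le⟩
    · left
      exact ⟨h1.1.le, h1.2.le⟩
  obtain ⟨w, hw, hHw⟩ := intermediate_value_uIcc (hHc.mono hsub) h0mem
  have hwβ : |w| ≤ 1 / (8 * k) := hsub hw
  have hne1 : Tc w ≠ 1 - η := by
    intro he
    have h1 := hD1 _ (hYb w hwβ).2.2.1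
    have h2 : H w = (Φ (((t' * (1 - η) : ℝ) : ℂ), Y j (w : ℂ))).re := by
      simp only [hH]
      rw [he]
    rw [← h2, hHw, zero_mul] at h1
    exact lt_irrefl _ h1
  have hne2 : Tc w ≠ 1 + η := by
    intro he
    have h1 := hD2 _ (hYb w hwβ).2.2.2
    have h2 : H w = (Φ (((t' * (1 + η) : ℝ) : ℂ), Y j (w : ℂ))).re := by
      simp only [hH]
      rw [he]
    rw [← h2, hHw, zero_mul] at h1
    exact lt_irrefl _ h1
  have hTξ : Tc w = ξ w := by
    simp only [hTc] at hne1 hne2 ⊢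
    rcases le_total (1 - η) (min (1 + η) (ξ w)) with h1 | h1
    · rw [max_eq_right h1] at hne2 ⊢
      rcases le_total (1 + η) (ξ w) with h2 | h2
      · rw [min_eq_left h2] at hne2
        exact absurd rfl hne2
      · exact min_eq_right h2
    · rw [max_eq_left h1] at hne1
      exact absurd rfl hne1
  have hXre : X j (w : ℂ) = ((t' * Tc w : ℝ) : ℂ) := by
    rw [hTξ, hξ]
    simp only
    rw [mul_div_cancel₀ _ h.t0]
    apply Complex.ext
    · simp
    · simpa using h.rX j w (hwb w hwβ)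
  refine ⟨w, hwβ, ?_, (hYb w hwβ).1, ?_⟩
  · have h1 : X j (w : ℂ) - (t' : ℂ) = ((t' * (Tc w - 1) : ℝ) : ℂ) := by
      rw [hXre]
      push_cast
      ring
    rw [h1, Complex.norm_real, Real.norm_eq_abs, abs_mul]
    exact lt_of_le_of_lt (mul_le_mul_of_nonneg_left (hTb w) ht.le) hηδ
  · have h1 := hmem _ _ (hTb w) (hYb w hwβ).2.1
    rw [← hXre] at h1
    have h2 : cj (X j (w : ℂ), Y j (w : ℂ)) = (X j (w : ℂ), Y j (w : ℂ)) := by
      unfold cj
      ext
      · exact Complex.conj_eq_iff_im.2 (h.rX j w (hwb w hwβ))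
      · exact Complex.conj_eq_iff_im.2 (h.rY j w (hwb w hwβ))
    have h3 := (hball _ h1).2 h2
    have h4 : (Φ (X j (w : ℂ), Y j (w : ℂ))).re = 0 := by
      rw [hXre]
      exact hHw
    exact Complex.ext h4 h3

end Pool.Agent.H53.HN
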