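import Pool.Agent.H53.HN.CoreDer
import Pool.Agent.H53.HN.CoreZero
import Pool.Agent.H53.HN.CoreA

/-! # The core lemma: a transversal zero exists (helper53, folder HN)

PROOF. Φ (t',0) = 0: by hsgn the real part of Φ(·,0) changes sign at t', and it is continuous; the imaginary part vanishes at (t',0) (hΦr). Let W be a neighbourhood of (t',0) on which Φ is differentiable, contained in the given Ω.
 For w in the ball: derivative of Φ(X j, Y j) at w = fderiv Φ (X j w, Y j w) (X j' w, Y j' w) = Φ_X X' + Φ_Y Y' (chain rule, linearity: (a,b) = a (1,0) + b (0,1)). Suppose the conclusion fails: for all j and all real w, |w| < 1/(4k), with (X j w, Y j w) in Ω and Φ = 0 there: Φ_X X' + Φ_Y Y' = 0.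
 CASE 1: Φ_X(t',0) ≠ 0. By continuity of fderiv Φ there are B > 0, C0 and δ > 0 with |Φ_X| >= B, |Φ_Y| <= C0 on the δ-polydisc around (t',0) (inside W). By `fam_dY` |Y'| <= B |t'|/(4 (C0+1)) for j >= J; `core_zero` gives w; `fam_dX`: |Φ_X X'| >= B |t'|/2 > |Φ_Y Y'|: contradiction.
 CASE 2: Φ_X(t',0) = 0, so Φ_Y(t',0) ≠ 0 (hdΦ, linearity). Φ(·,0) is not locally zero (hsgn). `core_A` with constants c1, C1, k' on a δ0-polydisc. For δ <= δ0, j large, `core_zero` gives w with x := |X j w - t'| < δ, |Y j w| < δ, Φ = 0, Y j w ≠ 0, so X j w ≠ t', x > 0,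
 y := |Y j w| >= c1 x^k', |Φ_X| >= y (c1/x - C1), |Φ_Y| <= C1. From Φ_X X' = -Φ_Y Y': y (c1/x - C1)|t'|/2 <= C1 |Y'| <= C1 16 k y (-log y) (`fam_SP`), and -log y <= -log c1 - k' log x. Divide by y: (c1/x - C1)|t'|/2 <= 16 k C1 (-log c1 - k' log x).
 As x -> 0 the left side times x tends to c1 |t'|/2 > 0 and the right side times x tends to 0 (x log x -> 0: `Real.tendsto_log_mul_self_nhds_zero...`): choose δ so small that the inequality is impossible for 0 < x < δ. Contradiction.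
-/

set_option autoImplicit false

namespace Pool.Agent.H53.HN

open Filter Topology

private theorem small_x {c1 T A B : ℝ} (h : 0 < c1 * T) :
    ∃ δ : ℝ, 0 < δ ∧ ∀ x : ℝ, 0 < x → x < δ → x * A - B * (x * Real.log x) < c1 * T := by
  have hc : Continuous (fun x : ℝ => x * A - B * (x * Real.log x)) :=
    (continuous_id.mul continuous_const).sub (continuous_const.mul Real.continuous_mul_log)
  have h0 : (fun x : ℝ => x * A - B * (x * Real.log x)) 0 < c1 * T := by simpa using h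
  have hev : ∀ᶠ x in 𝓝 (0 : ℝ), x * A - B * (x * Real.log x) < c1 * T :=
    hc.continuousAt.eventually_lt continuousAt_const h0
  obtain ⟨δ, hδ, hb⟩ := Metric.eventually_nhds_iff_ball.1 hev
  refine ⟨δ, hδ, fun x h1 h2 => hb x ?_⟩
  rw [mem_ball_zero_iff, Real.norm_eq_abs, abs_of_pos h1]; exact h2

theorem core {k : ℕ} {t' : ℝ} {X Y : ℕ → ℂ → ℂ} (h : IsFam k t' X Y) {Φ : ℂ × ℂ → ℂ}
    (hΦ : AnalyticAt ℂ Φ ((t' : ℂ), 0))
    (hΦr : ∀ᶠ z in 𝓝 ((t' : ℂ), (0 : ℂ)), cj z = z → (Φ z).im = 0)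
    (hdΦ : fderiv ℂ Φ ((t' : ℂ), 0) ≠ 0)
    (hsgn : ∃ ε : ℝ, 0 < ε ∧ ∀ τ τ' : ℝ, 0 < τ → τ < ε → 0 < τ' → τ' < ε →
      (Φ (((t' - τ : ℝ) : ℂ), 0)).re * (Φ (((t' + τ' : ℝ) : ℂ), 0)).re < 0)
    {Ω : Set (ℂ × ℂ)} (hΩ : Ω ∈ 𝓝 ((t' : ℂ), (0 : ℂ))) :
    ∃ (j : ℕ) (w : ℝ), |w| < 1 / (4 * k) ∧ (X j (w : ℂ), Y j (w : ℂ)) ∈ Ω ∧
      Φ (X j (w : ℂ), Y j (w : ℂ)) = 0 ∧ deriv (fun z : ℂ => Φ (X j z, Y j z)) (w : ℂ) ≠ 0 := by
  set P : ℂ × ℂ := ((t' : ℂ), (0 : ℂ)) with hP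
  have hk : (0 : ℝ) < k := by exact_mod_cast h.k0
  have ht0 : 0 < |t'| := abs_pos.2 h.t0
  have hcjP : cj P = P := by simp [hP, cj]
  have him : (Φ P).im = 0 := hΦr.self_of_nhds hcjP
  -- the value at P is zero
  have hre : (Φ P).re = 0 := by
    obtain ⟨ε, hε, hs⟩ := hsgn
    have c0 : ContinuousAt (fun x : ℝ => (Φ (((t' + x : ℝ) : ℂ), 0)).re) 0 := by
      have c1 : ContinuousAt (fun x : ℝ => ((((t' + x : ℝ) : ℂ)), (0 : ℂ))) 0 := by
        fun_prop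
      have c2 : ContinuousAt Φ (((t' + (0 : ℝ) : ℝ) : ℂ), (0 : ℂ)) := by
        rw [add_zero]; exact hΦ.continuousAt
      exact Complex.continuous_re.continuousAt.comp (ContinuousAt.comp (f := fun x : ℝ =>
        ((((t' + x : ℝ) : ℂ)), (0 : ℂ))) (g := Φ) c2 c1)
    have c1 : ContinuousAt (fun x : ℝ => (Φ (((t' - x : ℝ) : ℂ), 0)).re) 0 := by
      have c1 : ContinuousAt (fun x : ℝ => ((((t' - x : ℝ) : ℂ)), (0 : ℂ))) 0 := by
        fun_prop
      have c2 : ContinuousAt Φ (((t' - (0 : ℝ) : ℝ) : ℂ), (0 : ℂ)) := by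
        rw [sub_zero]; exact hΦ.continuousAt
      exact Complex.continuous_re.continuousAt.comp (ContinuousAt.comp (f := fun x : ℝ =>
        ((((t' - x : ℝ) : ℂ)), (0 : ℂ))) (g := Φ) c2 c1)
    have c2 := c1.mul c0
    have c3 : Tendsto (fun x : ℝ => (Φ (((t' - x : ℝ) : ℂ), 0)).re *
        (Φ (((t' + x : ℝ) : ℂ), 0)).re) (𝓝[>] 0) (𝓝 ((Φ P).re * (Φ P).re)) := by
      have h9 : Tendsto (fun x : ℝ => (Φ (((t' - x : ℝ) : ℂ), 0)).re *
          (Φ (((t' + x : ℝ) : ℂ), 0)).re) (𝓝 0) (𝓝 ((Φ (((t' - 0 : ℝ) : ℂ), 0)).re *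
          (Φ (((t' + 0 : ℝ) : ℂ), 0)).re)) := c2.tendsto
      rw [sub_zero, add_zero] at h9
      exact h9.mono_left nhdsWithin_le_nhds
    have c4 : (Φ P).re * (Φ P).re ≤ 0 := by
      refine le_of_tendsto c3 ?_
      have hmem : Set.Ioo (0 : ℝ) ε ∈ 𝓝[>] (0 : ℝ) := Ioo_mem_nhdsGT hε
      filter_upwards [hmem] with x hx
      exact (hs x x hx.1 hx.2 hx.1 hx.2).le
    nlinarith [mul_self_nonneg (Φ P).re]
  have h0 : Φ P = 0 := Complex.ext (by simpa using hre) (by simpa using him)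
  by_contra hcon
  push Not at hcon
  have hdiffev : ∀ᶠ z in 𝓝 P, DifferentiableAt ℂ Φ z := by
    filter_upwards [hΦ.eventually_analyticAt] with z hz using hz.differentiableAt
  have hfc : ContinuousAt (fderiv ℂ Φ) P := hΦ.fderiv.continuousAt
  have happ : ∀ v, ContinuousAt (fun z => ‖fderiv ℂ Φ z v‖) P := fun v =>
    (hfc.clm_apply continuousAt_const).norm
  -- chain rule
  have hchain : ∀ (j : ℕ) (w : ℝ), |w| < 1 / (4 * k) →
      DifferentiableAt ℂ Φ (X j (w : ℂ), Y j (w : ℂ)) →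
      deriv (fun z : ℂ => Φ (X j z, Y j z)) (w : ℂ) =
        fderiv ℂ Φ (X j (w : ℂ), Y j (w : ℂ)) (1, 0) * deriv (X j) (w : ℂ) +
        fderiv ℂ Φ (X j (w : ℂ), Y j (w : ℂ)) (0, 1) * deriv (Y j) (w : ℂ) := by
    intro j w hw hd
    have hwb : (w : ℂ) ∈ Metric.ball (0 : ℂ) (1 / (4 * k)) := by
      rw [mem_ball_zero_iff, Complex.norm_real, Real.norm_eq_abs]; exact hw
    have d1 := ((h.dX j).differentiableAt (Metric.isOpen_ball.mem_nhds hwb)).hasDerivAt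
    have d2 := ((h.dY j).differentiableAt (Metric.isOpen_ball.mem_nhds hwb)).hasDerivAt
    have d3 := hd.hasFDerivAt.comp_hasDerivAt (w : ℂ) (d1.prodMk d2)
    have d4 : deriv (fun z : ℂ => Φ (X j z, Y j z)) (w : ℂ) =
        fderiv ℂ Φ (X j (w : ℂ), Y j (w : ℂ)) (deriv (X j) (w : ℂ), deriv (Y j) (w : ℂ)) :=
      d3.deriv
    rw [d4]
    have e1 : ((deriv (X j) (w : ℂ), deriv (Y j) (w : ℂ)) : ℂ × ℂ) =
        deriv (X j) (w : ℂ) • ((1, 0) : ℂ × ℂ) + deriv (Y j) (w : ℂ) • ((0, 1) : ℂ × ℂ) := by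
      ext <;> simp
    rw [e1, map_add, map_smul, map_smul, smul_eq_mul, smul_eq_mul]; ring
  have h84 : ∀ w : ℝ, |w| ≤ 1 / (8 * k) → |w| < 1 / (4 * k) := by
    intro w hw
    refine lt_of_le_of_lt hw ?_
    rw [div_lt_div_iff₀ (by positivity) (by positivity)]
    linarith
  -- a point of the family
  have hpoint : ∀ E : Set (ℂ × ℂ), E ∈ 𝓝 P → ∀ δ : ℝ, 0 < δ → ∃ J : ℕ, ∀ j, J ≤ j →
      ∃ w : ℝ, |w| ≤ 1 / (8 * k) ∧ (X j (w : ℂ), Y j (w : ℂ)) ∈ E ∧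
        ‖X j (w : ℂ) - t'‖ < δ ∧ Φ (X j (w : ℂ), Y j (w : ℂ)) = 0 ∧
        fderiv ℂ Φ (X j (w : ℂ), Y j (w : ℂ)) (1, 0) * deriv (X j) (w : ℂ) +
          fderiv ℂ Φ (X j (w : ℂ), Y j (w : ℂ)) (0, 1) * deriv (Y j) (w : ℂ) = 0 := by
    intro E hE δ hδ
    obtain ⟨η, hη, hb⟩ := Metric.mem_nhds_iff.1 (Filter.inter_mem hE
      (Filter.inter_mem hΩ hdiffev))
    obtain ⟨J, hJ⟩ := core_zero h hΦ hΦr hsgn (δ := min δ η) (lt_min hδ hη)
    refine ⟨J, fun j hj => ?_⟩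
    obtain ⟨w, h1, h2, h3, h4⟩ := hJ j hj
    have hmem : (X j (w : ℂ), Y j (w : ℂ)) ∈ Metric.ball P η := by
      rw [Metric.mem_ball, dist_eq_norm, hP, Prod.norm_def]
      refine max_lt ?_ ?_
      · exact lt_of_lt_of_le h2 (min_le_right _ _)
      · simp only [Prod.snd_sub, sub_zero]
        exact lt_of_lt_of_le h3 (min_le_right _ _)
    have hm := hb hmem
    refine ⟨w, h1, hm.1, lt_of_lt_of_le h2 (min_le_left _ _), h4, ?_⟩
    rw [← hchain j w (h84 w h1) hm.2.2]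
    exact hcon j w (h84 w h1) hm.2.1 h4
  have hnorm84 : ∀ w : ℝ, |w| ≤ 1 / (8 * k) → ‖(w : ℂ)‖ ≤ 1 / (8 * k) := by
    intro w hw
    rw [Complex.norm_real, Real.norm_eq_abs]; exact hw
  by_cases hX1 : fderiv ℂ Φ P (1, 0) = 0
  · -- case 2
    have hY1 : fderiv ℂ Φ P (0, 1) ≠ 0 := by
      intro hY1
      apply hdΦ
      ext
      · simpa using hX1
      · simpa using hY1
    have hnz : ¬ ∀ᶠ x in 𝓝 (t' : ℂ), Φ (x, 0) = 0 := by
      intro hz
      obtain ⟨ε, hε, hs⟩ := hsgn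
      obtain ⟨η, hη, hb⟩ := Metric.eventually_nhds_iff_ball.1 hz
      have hm : 0 < min ε η / 2 := by have := lt_min hε hη; linarith
      have hm1 : min ε η / 2 < ε := by
        have := min_le_left ε η; have := lt_min hε hη; linarith
      have hm2 : min ε η / 2 < η := by
        have := min_le_right ε η; have := lt_min hε hη; linarith
      have h1 := hs _ _ hm hm1 hm hm1
      have h2 : Φ (((t' - min ε η / 2 : ℝ) : ℂ), 0) = 0 := by
        apply hb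
        rw [Metric.mem_ball, dist_eq_norm]
        have : ((t' - min ε η / 2 : ℝ) : ℂ) - (t' : ℂ) = ((-(min ε η / 2) : ℝ) : ℂ) := by
          push_cast; ring
        rw [this, Complex.norm_real, Real.norm_eq_abs, abs_neg, abs_of_pos hm]; exact hm2
      rw [h2] at h1
      simp at h1
    obtain ⟨c1, C1, k', hc1, hC1, hev⟩ := core_A hΦ h0 hX1 hY1 hnz
    obtain ⟨δ, hδ, hsm⟩ := small_x (c1 := c1) (T := |t'| / 2)
      (A := C1 * (|t'| / 2) - 16 * k * C1 * Real.log c1) (B := 16 * k * C1 * k')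
      (by positivity)
    obtain ⟨J1, hJ1⟩ := hpoint _ hev δ hδ
    obtain ⟨J2, hJ2⟩ := fam_SP h
    obtain ⟨w, h1, h2, h3, h4, h5⟩ := hJ1 (max J1 J2) (le_max_left _ _)
    set j := max J1 J2
    have hwb : (w : ℂ) ∈ Metric.ball (0 : ℂ) (1 / (4 * k)) := by
      rw [mem_ball_zero_iff, Complex.norm_real, Real.norm_eq_abs]; exact h84 w h1
    have hYne := h.nY j _ hwb
    obtain ⟨g1, g2, g3, g4⟩ := h2 h4 hYne
    have hSP := hJ2 j (le_max_right _ _) (w : ℂ) (hnorm84 w h1)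
    have hXd := fam_dX h j (hnorm84 w h1)
    set x : ℝ := ‖X j (w : ℂ) - t'‖ with hx
    set y : ℝ := ‖Y j (w : ℂ)‖ with hy
    have hx0 : 0 < x := norm_pos_iff.2 (sub_ne_zero.2 g1)
    have hy0 : 0 < y := norm_pos_iff.2 hYne
    have e1 : ‖fderiv ℂ Φ (X j (w : ℂ), Y j (w : ℂ)) (1, 0)‖ * ‖deriv (X j) (w : ℂ)‖ =
        ‖fderiv ℂ Φ (X j (w : ℂ), Y j (w : ℂ)) (0, 1)‖ * ‖deriv (Y j) (w : ℂ)‖ := by
      rw [← norm_mul, ← norm_mul, eq_neg_of_add_eq_zero_left h5, norm_neg]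
    have g2' : y * (c1 / x - C1) ≤ ‖fderiv ℂ Φ (X j (w : ℂ), Y j (w : ℂ)) (1, 0)‖ := g2
    have g4' : c1 * x ^ k' ≤ y := g4
    have e2 : y * (c1 / x - C1) * (|t'| / 2) ≤ C1 * (16 * k * (y * (-Real.log y))) := by
      calc y * (c1 / x - C1) * (|t'| / 2)
          ≤ ‖fderiv ℂ Φ (X j (w : ℂ), Y j (w : ℂ)) (1, 0)‖ * (|t'| / 2) :=
            mul_le_mul_of_nonneg_right g2' (by positivity)
        _ ≤ ‖fderiv ℂ Φ (X j (w : ℂ), Y j (w : ℂ)) (1, 0)‖ * ‖deriv (X j) (w : ℂ)‖ :=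
            mul_le_mul_of_nonneg_left hXd (norm_nonneg _)
        _ = ‖fderiv ℂ Φ (X j (w : ℂ), Y j (w : ℂ)) (0, 1)‖ * ‖deriv (Y j) (w : ℂ)‖ := e1
        _ ≤ C1 * (16 * k * (y * (-Real.log y))) :=
            mul_le_mul g3 hSP (norm_nonneg _) hC1.le
    have e3 : (c1 / x - C1) * (|t'| / 2) ≤ C1 * (16 * k * (-Real.log y)) := by
      have h6 : y * ((c1 / x - C1) * (|t'| / 2)) ≤ y * (C1 * (16 * k * (-Real.log y))) := by
        linarith
      exact le_of_mul_le_mul_left h6 hy0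
    have e4 : -Real.log y ≤ -Real.log c1 - k' * Real.log x := by
      have h6 : Real.log (c1 * x ^ k') ≤ Real.log y :=
        Real.log_le_log (mul_pos hc1 (pow_pos hx0 _)) g4'
      rw [Real.log_mul hc1.ne' (pow_pos hx0 _).ne', Real.log_pow] at h6
      linarith
    have e5 : (c1 / x - C1) * (|t'| / 2) ≤
        C1 * (16 * k * (-Real.log c1 - k' * Real.log x)) := by
      refine e3.trans ?_
      gcongr
    have e6 := hsm x hx0 h3
    have e7 : x * ((c1 / x - C1) * (|t'| / 2)) ≤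
        x * (C1 * (16 * k * (-Real.log c1 - k' * Real.log x))) :=
      mul_le_mul_of_nonneg_left e5 hx0.le
    have e8 : x * ((c1 / x - C1) * (|t'| / 2)) = c1 * (|t'| / 2) - x * (C1 * (|t'| / 2)) := by
      field_simp
    rw [e8] at e7
    have e9 : x * (C1 * (16 * k * (-Real.log c1 - k' * Real.log x))) =
        -(x * (16 * k * C1 * Real.log c1)) - 16 * k * C1 * k' * (x * Real.log x) := by ring
    rw [e9] at e7
    have e10 : x * (C1 * (|t'| / 2) - 16 * k * C1 * Real.log c1) =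
        x * (C1 * (|t'| / 2)) - x * (16 * k * C1 * Real.log c1) := by ring
    rw [e10] at e6
    linarith
  · -- case 1
    have hB0 : 0 < ‖fderiv ℂ Φ P (1, 0)‖ := norm_pos_iff.2 hX1
    set B : ℝ := ‖fderiv ℂ Φ P (1, 0)‖ / 2 with hB
    have hBpos : 0 < B := by linarith
    set C0 : ℝ := ‖fderiv ℂ Φ P (0, 1)‖ + 1 with hC0
    have hC0pos : 0 < C0 := by have := norm_nonneg (fderiv ℂ Φ P (0, 1)); linarith
    have hev : ∀ᶠ z in 𝓝 P, B < ‖fderiv ℂ Φ z (1, 0)‖ ∧ ‖fderiv ℂ Φ z (0, 1)‖ < C0 := by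
      have e1 : ∀ᶠ z in 𝓝 P, B < ‖fderiv ℂ Φ z (1, 0)‖ :=
        continuousAt_const.eventually_lt (happ (1, 0)) (by linarith)
      have e2 : ∀ᶠ z in 𝓝 P, ‖fderiv ℂ Φ z (0, 1)‖ < C0 :=
        (happ (0, 1)).eventually_lt continuousAt_const (by linarith)
      exact e1.and e2
    obtain ⟨J1, hJ1⟩ := hpoint _ hev 1 one_pos
    obtain ⟨J2, hJ2⟩ := fam_dY h (ε := B * |t'| / (4 * C0)) (by positivity)
    obtain ⟨w, h1, h2, -, h4, h5⟩ := hJ1 (max J1 J2) (le_max_left _ _)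
    set j := max J1 J2
    have hYd := hJ2 j (le_max_right _ _) (w : ℂ) (hnorm84 w h1)
    have hXd := fam_dX h j (hnorm84 w h1)
    obtain ⟨g1, g2⟩ := h2
    have e1 : ‖fderiv ℂ Φ (X j (w : ℂ), Y j (w : ℂ)) (1, 0)‖ * ‖deriv (X j) (w : ℂ)‖ =
        ‖fderiv ℂ Φ (X j (w : ℂ), Y j (w : ℂ)) (0, 1)‖ * ‖deriv (Y j) (w : ℂ)‖ := by
      rw [← norm_mul, ← norm_mul, eq_neg_of_add_eq_zero_left h5, norm_neg]
    have e2 : B * (|t'| / 2) ≤
        ‖fderiv ℂ Φ (X j (w : ℂ), Y j (w : ℂ)) (1, 0)‖ * ‖deriv (X j) (w : ℂ)‖ :=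
      mul_le_mul g1.le hXd (by positivity) (norm_nonneg _)
    have e3 : ‖fderiv ℂ Φ (X j (w : ℂ), Y j (w : ℂ)) (0, 1)‖ * ‖deriv (Y j) (w : ℂ)‖ ≤
        C0 * (B * |t'| / (4 * C0)) :=
      mul_le_mul g2.le hYd (norm_nonneg _) hC0pos.le
    have e4 : C0 * (B * |t'| / (4 * C0)) = B * |t'| / 4 := by field_simp
    rw [e1] at e2
    rw [e4] at e3
    have : 0 < B * |t'| := by positivity
    linarith

end Pool.Agent.H53.HN
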