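import Pool.Agent.H53.HN.Basic

/-! # The family of curves produced by iteration: definition (helper53, folder HN) -/

set_option autoImplicit false

namespace Pool.Agent.H53.HN

/-- Curves (X_j, Y_j) on a small disc, close to (t' (1+ω)^k, 0), never meeting the first axis. -/
structure IsFam (k : ℕ) (t' : ℝ) (X Y : ℕ → ℂ → ℂ) : Prop where
  k0 : 0 < k
  t0 : t' ≠ 0
  dX : ∀ j, DifferentiableOn ℂ (X j) (Metric.ball 0 (1 / (4 * k)))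
  dY : ∀ j, DifferentiableOn ℂ (Y j) (Metric.ball 0 (1 / (4 * k)))
  rX : ∀ j, ∀ w : ℝ, |w| < 1 / (4 * k) → (X j (w : ℂ)).im = 0
  rY : ∀ j, ∀ w : ℝ, |w| < 1 / (4 * k) → (Y j (w : ℂ)).im = 0
  aX : ∀ j, ∀ w ∈ Metric.ball (0 : ℂ) (1 / (4 * k)),
    ‖X j w - (t' : ℂ) * (1 + w) ^ k‖ ≤ |t'| / 100
  nY : ∀ j, ∀ w ∈ Metric.ball (0 : ℂ) (1 / (4 * k)), Y j w ≠ 0
  uY : ∀ ε : ℝ, 0 < ε → ∃ J : ℕ, ∀ j, J ≤ j → ∀ w ∈ Metric.ball (0 : ℂ) (1 / (4 * k)),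
    ‖Y j w‖ ≤ ε

end Pool.Agent.H53.HN
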