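import Mathlib

/-! # Schwarz-Pick for functions omitting 0 (helper53, folder HN)

PROOF. g'/g is holomorphic on the ball, so it has a primitive L there (Mathlib: `DifferentiableOn.isExactOn_ball` or a similar statement on primitives on balls), normalised by exp (L a) = g a (`Complex.exp_log`, g a ≠ 0).
 (exp(-L) g)' = 0 so exp L = g on the ball (the ball is preconnected). |g| < 1 gives Re L < 0. Let w0 = L a, Re w0 < 0, and φ(z) = (L z - w0)/(L z + conj w0). Since Re (L z) < 0 and Re w0 < 0: |L z - w0| < |L z + conj w0| (difference of squares = -4 Re(L z) Re(w0) < 0,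
 in particular the denominator is nonzero), so φ maps the ball into the unit disc, φ a = 0; Schwarz lemma (`Complex.norm_deriv_le_div_of_mapsTo_ball`, R2 = 1): |φ'(a)| <= 1/ρ. φ'(a) = L'(a)/(w0 + conj w0) = L'(a)/(2 Re w0). So |L'(a)| <= 2 |Re w0|/ρ and g'(a) = g(a) L'(a),
 |Re w0| = -log |g a| = log(1/|g a|) (|exp w0| = exp(Re w0)).
-/

set_option autoImplicit false

namespace Pool.Agent.H53.HN

theorem schwarz_pick {g : ℂ → ℂ} {a : ℂ} {ρ : ℝ} (hρ : 0 < ρ)
    (hg : DifferentiableOn ℂ g (Metric.ball a ρ))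
    (h0 : ∀ z ∈ Metric.ball a ρ, g z ≠ 0) (h1 : ∀ z ∈ Metric.ball a ρ, ‖g z‖ < 1) :
    ‖deriv g a‖ ≤ 2 / ρ * (‖g a‖ * (-Real.log ‖g a‖)) := by
  have ha : a ∈ Metric.ball a ρ := Metric.mem_ball_self hρ
  have hga := h0 a ha
  have hdg : DifferentiableOn ℂ (fun z => deriv g z / g z) (Metric.ball a ρ) :=
    (hg.deriv Metric.isOpen_ball).div hg h0
  obtain ⟨L, hLa, hL⟩ := hdg.isExactOn_ball.with_val_at a (Complex.log (g a))
  have hgd : ∀ z ∈ Metric.ball a ρ, HasDerivAt g (deriv g z) z := fun z hz =>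
    (hg.differentiableAt (Metric.isOpen_ball.mem_nhds hz)).hasDerivAt
  -- exp L = g
  have hh : ∀ z ∈ Metric.ball a ρ, HasDerivAt (fun z => Complex.exp (-L z) * g z) 0 z := by
    intro z hz
    have h2 := ((hL z hz).neg.cexp).mul (hgd z hz)
    refine h2.congr_deriv ?_
    have h3 := h0 z hz
    field_simp
    ring
  have hconst : ∀ z ∈ Metric.ball a ρ, Complex.exp (-L z) * g z = 1 := by
    intro z hz
    have h2 := Metric.isOpen_ball.is_const_of_deriv_eq_zero (convex_ball a ρ).isPreconnected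
      (fun z hz => (hh z hz).differentiableAt.differentiableWithinAt)
      (fun z hz => (hh z hz).deriv) hz ha
    rw [h2, hLa, Complex.exp_neg, Complex.exp_log hga, inv_mul_cancel₀ hga]
  have hexp : ∀ z ∈ Metric.ball a ρ, g z = Complex.exp (L z) := by
    intro z hz
    have h2 := hconst z hz
    rw [Complex.exp_neg, inv_mul_eq_iff_eq_mul₀ (Complex.exp_ne_zero _), mul_one] at h2
    exact h2
  have hre : ∀ z ∈ Metric.ball a ρ, (L z).re < 0 := by
    intro z hz
    have h2 := h1 z hz
    rw [hexp z hz, Complex.norm_exp] at h2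
    exact Real.exp_lt_one_iff.1 h2
  set w0 : ℂ := L a with hw0
  have hw0re : w0.re < 0 := hre a ha
  have hlt : ∀ z ∈ Metric.ball a ρ, ‖L z - w0‖ < ‖L z + starRingEnd ℂ w0‖ := by
    intro z hz
    have h2 := hre z hz
    apply lt_of_pow_lt_pow_left₀ 2 (norm_nonneg _)
    rw [← Complex.normSq_eq_norm_sq, ← Complex.normSq_eq_norm_sq, Complex.normSq_apply,
      Complex.normSq_apply]
    simp only [Complex.sub_re, Complex.sub_im, Complex.add_re, Complex.add_im, Complex.conj_re,
      Complex.conj_im]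
    nlinarith [mul_pos_of_neg_of_neg h2 hw0re]
  have hden : ∀ z ∈ Metric.ball a ρ, L z + starRingEnd ℂ w0 ≠ 0 := by
    intro z hz h2
    have := hlt z hz
    rw [h2, norm_zero] at this
    exact absurd this (not_lt.2 (norm_nonneg _))
  set φ : ℂ → ℂ := fun z => (L z - w0) / (L z + starRingEnd ℂ w0) with hφ
  have hφd : ∀ z ∈ Metric.ball a ρ, DifferentiableAt ℂ φ z := fun z hz =>
    ((hL z hz).differentiableAt.sub_const w0).div ((hL z hz).differentiableAt.add_const _)
      (hden z hz)
  have hφa : φ a = 0 := by simp [hφ, hw0]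
  have hmaps : Set.MapsTo φ (Metric.ball a ρ) (Metric.closedBall (φ a) 1) := by
    intro z hz
    rw [hφa, mem_closedBall_zero_iff, hφ]
    simp only
    rw [norm_div, div_le_one (norm_pos_iff.2 (hden z hz))]
    exact (hlt z hz).le
  have hS := Complex.norm_deriv_le_div_of_mapsTo_ball
    (fun z hz => (hφd z hz).differentiableWithinAt) hmaps hρ
  have hsum : w0 + starRingEnd ℂ w0 = ((2 * w0.re : ℝ) : ℂ) := by
    rw [Complex.add_conj]
  have hne : ((2 * w0.re : ℝ) : ℂ) ≠ 0 := by
    have : (2 * w0.re : ℝ) ≠ 0 := by linarith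
    exact_mod_cast this
  have hφ' : deriv φ a = (deriv g a / g a) / ((2 * w0.re : ℝ) : ℂ) := by
    have h2 : HasDerivAt φ _ a := ((hL a ha).sub_const w0).div ((hL a ha).add_const _) (hden a ha)
    rw [h2.deriv, ← hw0, sub_self, zero_mul, sub_zero, hsum]
    field_simp
  have hlog : Real.log ‖g a‖ = w0.re := by
    rw [hexp a ha, Complex.norm_exp, Real.log_exp]
  rw [hφ', norm_div, norm_div, Complex.norm_real, Real.norm_eq_abs, abs_of_neg (by linarith),
    div_div, div_le_div_iff₀ (mul_pos (norm_pos_iff.2 hga) (by linarith)) hρ] at hS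
  rw [hlog, div_mul_eq_mul_div, le_div_iff₀ hρ]
  nlinarith

end Pool.Agent.H53.HN
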