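import Pool.Agent.H53.HN.CoreDefs
import Pool.Agent.H53.HN.SP

/-! # Derivative estimates for the family (helper53, folder HN)

PROOF. Let |w| <= 1/(8k) (w real or complex). The ball of radius 1/(8k) about w is contained in the ball of radius 1/(4k) about 0.
 `fam_dX`: E(z) = X j z - t'(1+z)^k has |E| <= |t'|/100 on the ball, so |E'(w)| <= 8k |t'|/100 (Cauchy estimate: `Complex.norm_deriv_le_of_forall_mem_sphere_norm_le` on spheres of radius slightly less than 1/(8k), or `Complex.norm_deriv_le_div_of_mapsTo_ball`).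
  |t' k (1+w)^(k-1)| >= |t'| k (1 - 1/(8k))^(k-1) >= |t'| k (1 - (k-1)/(8k)) >= (7/8) k |t'| (Bernoulli). So |X'| >= (7/8 - 8/100) k |t'| >= |t'| k/2 >= |t'|/2.
 `fam_dY`: |Y| <= ε on the ball gives |Y'(w)| <= 8 k ε (Cauchy, any radius < 1/(8k), limit).
 `fam_SP`: `schwarz_pick` with a = w, ρ = 1/(8k) (Y j is nonzero, of norm < 1): |Y'| <= 16 k |Y| (-log |Y|).
-/

set_option autoImplicit false

namespace Pool.Agent.H53.HN

private theorem ball_sub {k : ℕ} (hk : 0 < k) {w : ℂ} (hw : ‖w‖ ≤ 1 / (8 * k)) :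
    Metric.ball w (1 / (8 * k)) ⊆ Metric.ball 0 (1 / (4 * k)) := by
  have hk' : (0 : ℝ) < k := by exact_mod_cast hk
  apply Metric.ball_subset_ball'
  rw [dist_zero_right]
  have : (1 : ℝ) / (4 * k) = 1 / (8 * k) + 1 / (8 * k) := by field_simp; ring
  linarith

private theorem cauchy_bd {f : ℂ → ℂ} {k : ℕ} (hk : 0 < k) {w : ℂ} (hw : ‖w‖ ≤ 1 / (8 * k))
    (hf : DifferentiableOn ℂ f (Metric.ball 0 (1 / (4 * k)))) {M : ℝ}
    (hM : ∀ z ∈ Metric.ball (0 : ℂ) (1 / (4 * k)), ‖f z‖ ≤ M) : ‖deriv f w‖ ≤ 16 * k * M := by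
  have hk' : (0 : ℝ) < k := by exact_mod_cast hk
  have hr : (0 : ℝ) < 1 / (8 * k) := by positivity
  have hsub := ball_sub hk hw
  have hmaps : Set.MapsTo f (Metric.ball w (1 / (8 * k))) (Metric.closedBall (f w) (2 * M)) := by
    intro z hz
    rw [Metric.mem_closedBall, dist_eq_norm]
    have h1 := hM z (hsub hz)
    have h2 := hM w (hsub (Metric.mem_ball_self hr))
    linarith [norm_sub_le (f z) (f w)]
  have h3 := Complex.norm_deriv_le_div_of_mapsTo_ball (hf.mono hsub) hmaps hr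
  refine h3.trans (le_of_eq ?_)
  field_simp
  ring

theorem fam_dX {k : ℕ} {t' : ℝ} {X Y : ℕ → ℂ → ℂ} (h : IsFam k t' X Y) (j : ℕ) {w : ℂ}
    (hw : ‖w‖ ≤ 1 / (8 * k)) : |t'| / 2 ≤ ‖deriv (X j) w‖ := by
  have hk := h.k0
  have hk' : (0 : ℝ) < k := by exact_mod_cast hk
  have hk1 : (1 : ℝ) ≤ k := by exact_mod_cast hk
  have ht : 0 < |t'| := abs_pos.2 h.t0
  have hr : (0 : ℝ) < 1 / (8 * k) := by positivity
  have hmem : w ∈ Metric.ball (0 : ℂ) (1 / (4 * k)) := ball_sub hk hw (Metric.mem_ball_self hr)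
  have hdP : Differentiable ℂ (fun z : ℂ => (t' : ℂ) * (1 + z) ^ k) := by fun_prop
  have hXd : DifferentiableAt ℂ (X j) w :=
    (h.dX j).differentiableAt (Metric.isOpen_ball.mem_nhds hmem)
  have h1 : ‖deriv (fun z => X j z - (t' : ℂ) * (1 + z) ^ k) w‖ ≤ 16 * k * (|t'| / 100) :=
    cauchy_bd hk hw ((h.dX j).sub hdP.differentiableOn) (h.aX j)
  have hP : HasDerivAt (fun z : ℂ => (t' : ℂ) * (1 + z) ^ k)
      ((t' : ℂ) * (k * (1 + w) ^ (k - 1))) w := by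
    have h2 : HasDerivAt (fun z : ℂ => 1 + z) 1 w := (hasDerivAt_id w).const_add 1
    have h3 := (h2.pow k).const_mul (t' : ℂ)
    simpa using h3
  have h2 : deriv (fun z => X j z - (t' : ℂ) * (1 + z) ^ k) w =
      deriv (X j) w - (t' : ℂ) * (k * (1 + w) ^ (k - 1)) := (hXd.hasDerivAt.sub hP).deriv
  rw [h2] at h1
  have hlow : (7 / 8 : ℝ) ≤ ‖(1 + w) ^ (k - 1)‖ := by
    rw [norm_pow]
    have e1 : 1 - 1 / (8 * k) ≤ ‖1 + w‖ := by
      have := norm_sub_norm_le (1 : ℂ) (-w)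
      rw [norm_one, norm_neg, sub_neg_eq_add] at this
      linarith
    have e2 : (1 : ℝ) / (8 * k) ≤ 1 / 8 := by
      apply one_div_le_one_div_of_le (by norm_num)
      linarith
    have e3 : (1 : ℝ) + ((k - 1 : ℕ) : ℝ) * (-(1 / (8 * k))) ≤ (1 + -(1 / (8 * k))) ^ (k - 1) :=
      one_add_mul_le_pow (by linarith) _
    have e4 : ((k - 1 : ℕ) : ℝ) ≤ k := by exact_mod_cast Nat.sub_le _ _
    have e5 : ((k - 1 : ℕ) : ℝ) * (1 / (8 * k)) ≤ 1 / 8 := by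
      calc ((k - 1 : ℕ) : ℝ) * (1 / (8 * k)) ≤ k * (1 / (8 * k)) := by gcongr
        _ = 1 / 8 := by field_simp
    calc (7 / 8 : ℝ) ≤ (1 + -(1 / (8 * k))) ^ (k - 1) := by linarith
      _ ≤ ‖1 + w‖ ^ (k - 1) := by
        apply pow_le_pow_left₀ (by linarith)
        linarith
  have h3 : (7 / 8) * k * |t'| ≤ ‖(t' : ℂ) * (k * (1 + w) ^ (k - 1))‖ := by
    rw [norm_mul, norm_mul, Complex.norm_real, Real.norm_eq_abs, Complex.norm_natCast]
    calc (7 / 8) * k * |t'| = |t'| * (k * (7 / 8)) := by ring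
      _ ≤ _ := by gcongr
  have h4 := norm_sub_norm_le ((t' : ℂ) * (k * (1 + w) ^ (k - 1))) (deriv (X j) w)
  rw [norm_sub_rev] at h4
  nlinarith

theorem fam_dY {k : ℕ} {t' : ℝ} {X Y : ℕ → ℂ → ℂ} (h : IsFam k t' X Y) {ε : ℝ} (hε : 0 < ε) :
    ∃ J : ℕ, ∀ j, J ≤ j → ∀ w : ℂ, ‖w‖ ≤ 1 / (8 * k) → ‖deriv (Y j) w‖ ≤ ε := by
  have hk' : (0 : ℝ) < k := by exact_mod_cast h.k0
  obtain ⟨J, hJ⟩ := h.uY (ε / (16 * k)) (by positivity)
  refine ⟨J, fun j hj w hw => ?_⟩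
  refine (cauchy_bd h.k0 hw (h.dY j) (hJ j hj)).trans (le_of_eq ?_)
  field_simp

theorem fam_SP {k : ℕ} {t' : ℝ} {X Y : ℕ → ℂ → ℂ} (h : IsFam k t' X Y) :
    ∃ J : ℕ, ∀ j, J ≤ j → ∀ w : ℂ, ‖w‖ ≤ 1 / (8 * k) →
      ‖deriv (Y j) w‖ ≤ 16 * k * (‖Y j w‖ * (-Real.log ‖Y j w‖)) := by
  have hk' : (0 : ℝ) < k := by exact_mod_cast h.k0
  obtain ⟨J, hJ⟩ := h.uY (1 / 2) (by norm_num)
  refine ⟨J, fun j hj w hw => ?_⟩
  have hsub := ball_sub h.k0 hw
  have h1 := schwarz_pick (g := Y j) (a := w) (ρ := 1 / (8 * k)) (by positivity)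
    ((h.dY j).mono hsub) (fun z hz => h.nY j z (hsub hz))
    (fun z hz => (hJ j hj z (hsub hz)).trans_lt (by norm_num))
  refine h1.trans (le_of_eq ?_)
  field_simp
  ring

end Pool.Agent.H53.HN
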