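import Mathlib

/-! # A piecewise constant function jumps somewhere (helper53, folder HN)

PROOF. Induction on the number of points of E ∩ (α, β), for all α, β (the case α = β is impossible as u α ≠ u β; so α < β). If there are none then hloc for x = α, y = β gives u α = u β, contradiction.
 Otherwise let e be a point of E ∩ (α, β). Choose ε > 0 with (e - ε, e + ε) in (α, β) and containing no point of E except e. By hloc u is constant, = c1, on (e - ε, e) and constant, = c2, on (e, e + ε). If c1 ≠ c2, then t = e works with this ε.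
 If c1 = c2: put x = e - ε/2, y = e + ε/2, u x = u y = c1. Either u α ≠ c1, then apply the induction hypothesis to [α, x] (fewer points: e is removed; the hypotheses hα, x not in E), or u β ≠ c1 and apply it to [y, β].
-/

set_option autoImplicit false

namespace Pool.Agent.H53.HN

private theorem jump_aux {X : Type} {u : ℝ → X} {E : Set ℝ} (n : ℕ) : ∀ {α β : ℝ}, α ≤ β →
    (E ∩ Set.Icc α β).Finite → (E ∩ Set.Icc α β).ncard ≤ n → α ∉ E → β ∉ E →
    (∀ x y, α ≤ x → x ≤ y → y ≤ β → (∀ t ∈ Set.Icc x y, t ∉ E) → u x = u y) → u α ≠ u β →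
    ∃ t ∈ E, α < t ∧ t < β ∧ ∃ ε : ℝ, 0 < ε ∧ ∀ τ τ' : ℝ, 0 < τ → τ < ε → 0 < τ' → τ' < ε →
      u (t - τ) ≠ u (t + τ') := by
  induction n with
  | zero =>
    intro α β hαβ hE hn hα hβ hloc hne
    exfalso
    have h0 : E ∩ Set.Icc α β = ∅ := (Set.ncard_eq_zero hE).1 (Nat.le_zero.1 hn)
    apply hne
    refine hloc α β le_rfl hαβ le_rfl fun t ht htE => ?_
    have : t ∈ E ∩ Set.Icc α β := ⟨htE, ht⟩
    rw [h0] at this
    exact this
  | succ n ih =>
    intro α β hαβ hE hn hα hβ hloc hne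
    by_cases hemp : E ∩ Set.Icc α β = ∅
    · exfalso
      apply hne
      refine hloc α β le_rfl hαβ le_rfl fun t ht htE => ?_
      have : t ∈ E ∩ Set.Icc α β := ⟨htE, ht⟩
      rw [hemp] at this
      exact this
    · obtain ⟨e, heE, he1, he2⟩ := Set.nonempty_iff_ne_empty.2 hemp
      have h1 : α < e := lt_of_le_of_ne he1 fun h => hα (h ▸ heE)
      have h2 : e < β := lt_of_le_of_ne he2 fun h => hβ (h ▸ heE)
      have hE' : ((E ∩ Set.Icc α β) \ {e}).Finite := hE.subset Set.sdiff_subset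
      obtain ⟨δ, hδ, hball⟩ := Metric.isOpen_iff.1 hE'.isClosed.isOpen_compl e
        (fun h => h.2 rfl)
      obtain ⟨ε, hε, he3, he4, he5⟩ : ∃ ε : ℝ, 0 < ε ∧ ε ≤ δ ∧ ε ≤ e - α ∧ ε ≤ β - e :=
        ⟨min δ (min (e - α) (β - e)), lt_min hδ (lt_min (by linarith) (by linarith)),
          min_le_left _ _, (min_le_right _ _).trans (min_le_left _ _),
          (min_le_right _ _).trans (min_le_right _ _)⟩
      have hno : ∀ t, |t - e| < ε → t ≠ e → t ∉ E := by
        intro t ht hte htE
        have hab := abs_lt.1 ht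
        have : t ∈ Metric.ball e δ := by
          rw [Metric.mem_ball, Real.dist_eq]
          exact lt_of_lt_of_le ht he3
        exact hball this ⟨⟨htE, by linarith, by linarith⟩, hte⟩
      by_cases hc : ∃ τ τ' : ℝ, 0 < τ ∧ τ < ε ∧ 0 < τ' ∧ τ' < ε ∧ u (e - τ) = u (e + τ')
      · obtain ⟨τ, τ', a1, a2, a3, a4, a5⟩ := hc
        have hx : e - τ ∉ E := hno _ (by
          rw [sub_sub_cancel_left, abs_neg, abs_of_pos a1]
          exact a2) (by linarith)
        have hy : e + τ' ∉ E := hno _ (by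
          rw [add_sub_cancel_left, abs_of_pos a3]
          exact a4) (by linarith)
        by_cases hux : u α = u (e - τ)
        · have huy : u (e + τ') ≠ u β := by
            rw [← a5, ← hux]
            exact hne
          have hss : E ∩ Set.Icc (e + τ') β ⊂ E ∩ Set.Icc α β := by
            refine ⟨fun t ht => ⟨ht.1, by linarith [ht.2.1], ht.2.2⟩, fun h => ?_⟩
            have := h ⟨heE, he1, he2⟩
            linarith [this.2.1]
          have hfin := hE.subset hss.subset
          have hcard := Set.ncard_lt_ncard hss hE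
          obtain ⟨t, htE, b1, b2, b3⟩ := ih (by linarith) hfin (by omega) hy hβ
            (fun x y h3 h4 h5 => hloc x y (by linarith) h4 h5) huy
          exact ⟨t, htE, by linarith, b2, b3⟩
        · have hss : E ∩ Set.Icc α (e - τ) ⊂ E ∩ Set.Icc α β := by
            refine ⟨fun t ht => ⟨ht.1, ht.2.1, by linarith [ht.2.2]⟩, fun h => ?_⟩
            have := h ⟨heE, he1, he2⟩
            linarith [this.2.2]
          have hfin := hE.subset hss.subset
          have hcard := Set.ncard_lt_ncard hss hE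
          obtain ⟨t, htE, b1, b2, b3⟩ := ih (by linarith) hfin (by omega) hα hx
            (fun x y h3 h4 h5 => hloc x y h3 h4 (by linarith)) hux
          exact ⟨t, htE, b1, by linarith, b3⟩
      · refine ⟨e, heE, h1, h2, ε, hε, fun τ τ' a1 a2 a3 a4 h => hc ⟨τ, τ', a1, a2, a3, a4, h⟩⟩

theorem jump {X : Type} {u : ℝ → X} {E : Set ℝ} {α β : ℝ} (hαβ : α ≤ β)
    (hE : (E ∩ Set.Icc α β).Finite) (hα : α ∉ E) (hβ : β ∉ E)
    (hloc : ∀ x y, α ≤ x → x ≤ y → y ≤ β → (∀ t ∈ Set.Icc x y, t ∉ E) → u x = u y)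
    (hne : u α ≠ u β) :
    ∃ t ∈ E, α < t ∧ t < β ∧ ∃ ε : ℝ, 0 < ε ∧ ∀ τ τ' : ℝ, 0 < τ → τ < ε → 0 < τ' → τ' < ε →
      u (t - τ) ≠ u (t + τ') := by
  exact jump_aux _ hαβ hE le_rfl hα hβ hloc hne

end Pool.Agent.H53.HN
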