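import Pool.Agent.H53.HN.Side
import Pool.Agent.H53.HN.Jump

/-! # A jump of the index is a crossing (helper53, folder HN)

PROOF. Γ = lp (pa S) α β '' [0,1], E = {τ : pa V τ in Γ}. Since rp (V τ) is not in K and the segment part of Γ lies in en '' K (`lp_image`, convexity, en injective and real linear), E = {τ : exists x in [α,β], pa V τ = pa S x} = {τ : exists x in [α,β], V τ = S x} (`pa_inj`);
 E ∩ [α',t1] is finite by hfin. u τ := ind (lp (pa S) α β) (pa V τ). If [x,y] contains no point of E then pa V '' [x,y] is preconnected and misses Γ, so u x = u y (`ind_const`).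
 α' and t1 are not in E (h1, h2), u α' = 0 ≠ u t1. `jump` on [α', t1]: t in E, α' < t < t1, and ε with u (t - τ) ≠ u (t + τ'). Let s in [α,β] with V t = S s. s ≠ α, β since rp (S α), rp (S β) are in K and rp (V t) is not. So α < s < β.
 Choose j with ν^j * |x| < r for x in [α,β] (|x| <= max |α| |β|, ν^j tends to 0, hc.r0). `side` gives ε'. Choose ε'' <= ε, ε' such that t ± τ is not in E and in [α',t1] for 0 < τ < ε'' (E ∩ [α',t1] is finite). For τ, τ' in (0, ε''): the two numbers X(t-τ), X(t+τ') are nonzero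
 and their product is not positive (otherwise the indices agree), so it is negative.
-/

set_option autoImplicit false

namespace Pool.Agent.H53.HN

variable {F G : ℂ × ℂ → ℂ × ℂ} {p : ℝ × ℝ} {μ ν r C : ℝ} {U S : ℂ → ℂ × ℂ}
  {χ : OpenPartialHomeomorph (ℂ × ℂ) (ℂ × ℂ)}

private theorem cs_en (a b : ℝ) (z w : ℝ × ℝ) : a • en z + b • en w = en (a • z + b • w) := by
  simp only [en, Complex.real_smul, Prod.fst_add, Prod.smul_fst, smul_eq_mul, Prod.snd_add,
    Prod.smul_snd]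
  push_cast
  ring

theorem cross_side (h : IsSad F G p μ ν U S) (hc : IsChart F p μ ν U S χ r C) {α β : ℝ}
    (hαβ : α < β) {V : ℂ → ℂ × ℂ} (hV : Continuous V)
    (cV : ∀ t, V (starRingEnd ℂ t) = cj (V t)) {K : Set (ℝ × ℝ)} (hK : IsClosed K)
    (hKc : Convex ℝ K) (hKα : rp (S (α : ℂ)) ∈ K) (hKβ : rp (S (β : ℂ)) ∈ K)
    (hKV : ∀ τ : ℝ, rp (V (τ : ℂ)) ∉ K) {α' t1 : ℝ} (hα' : α' ≤ t1)
    (h1 : pa V α' ∉ lp (pa S) α β '' Set.Icc 0 1) (h2 : pa V t1 ∉ lp (pa S) α β '' Set.Icc 0 1)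
    (h3 : ind (lp (pa S) α β) (pa V α') = 0) (h4 : ind (lp (pa S) α β) (pa V t1) ≠ 0)
    (hfin : {τ : ℝ | τ ∈ Set.Icc α' t1 ∧ ∃ x ∈ Set.Icc α β, V (τ : ℂ) = S (x : ℂ)}.Finite) :
    ∃ t s : ℝ, α' < t ∧ t < t1 ∧ α < s ∧ s < β ∧ CrossAt F χ ν r V S t s := by
  have hΓ := lp_image (pa S) hαβ.le
  have hE : ∀ τ : ℝ, pa V τ ∈ lp (pa S) α β '' Set.Icc 0 1 ↔
      ∃ x ∈ Set.Icc α β, V (τ : ℂ) = S (x : ℂ) := by
    intro τ
    rw [hΓ]
    constructor
    · rintro (⟨x, hx, hxe⟩ | hseg)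
      · exact ⟨x, hx, pa_inj cV h.cS hxe.symm⟩
      · exfalso
        obtain ⟨a, b, ha, hb, hab, he⟩ := hseg
        have h5 : en (a • rp (S (β : ℂ)) + b • rp (S (α : ℂ))) = en (rp (V (τ : ℂ))) := by
          rw [← cs_en]
          exact he
        have h6 := en_injective h5
        exact hKV τ (h6 ▸ hKc hKβ hKα ha hb hab)
    · rintro ⟨x, hx, hxe⟩
      left
      refine ⟨x, hx, ?_⟩
      simp only [pa, hxe]
  have hcl : lp (pa S) α β 0 = lp (pa S) α β 1 := by rw [lp_zero, lp_one]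
  have hco : ContinuousOn (lp (pa S) α β) (Set.Icc 0 1) :=
    (lp_cont (continuous_pa h.dS.continuous) α β).continuousOn
  have hfin' : ({τ : ℝ | pa V τ ∈ lp (pa S) α β '' Set.Icc 0 1} ∩ Set.Icc α' t1).Finite := by
    refine hfin.subset ?_
    rintro τ ⟨hτ, hτ'⟩
    exact ⟨hτ', (hE τ).1 hτ⟩
  obtain ⟨t, htE, ht1, ht2, ε, hε, hjump⟩ := jump (u := fun τ => ind (lp (pa S) α β) (pa V τ))
    (E := {τ : ℝ | pa V τ ∈ lp (pa S) α β '' Set.Icc 0 1}) hα' hfin' h1 h2 (by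
      intro x y _ hxy _ hno
      refine ind_const hco hcl (s := pa V '' Set.Icc x y)
        (isPreconnected_Icc.image _ (continuous_pa hV).continuousOn) ?_
        ⟨x, ⟨le_rfl, hxy⟩, rfl⟩ ⟨y, ⟨hxy, le_rfl⟩, rfl⟩
      rintro z ⟨τ, hτ, rfl⟩ s hs he
      exact hno τ hτ ⟨s, hs, he⟩) (by
      show ind (lp (pa S) α β) (pa V α') ≠ ind (lp (pa S) α β) (pa V t1)
      rw [h3]
      exact fun e => h4 e.symm)
  obtain ⟨s, hs, hVS⟩ := (hE t).1 htE
  have hsα : α < s := by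
    refine lt_of_le_of_ne hs.1 ?_
    rintro rfl
    exact hKV t (by rw [hVS]; exact hKα)
  have hsβ : s < β := by
    refine lt_of_le_of_ne hs.2 ?_
    rintro rfl
    exact hKV t (by rw [hVS]; exact hKβ)
  have hpos : 0 < |α| + |β| + 1 := by positivity
  obtain ⟨j, hj⟩ := exists_pow_lt_of_lt_one (div_pos hc.r0 hpos) h.nu1
  have hj' : ν ^ j * (|α| + |β| + 1) < r := by rwa [lt_div_iff₀ hpos] at hj
  have hνj : 0 < ν ^ j := pow_pos h.nu0 j
  have hjx : ∀ x ∈ Set.Icc α β, ν ^ j * |x| < r := by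
    intro x hx
    have hx' : |x| ≤ |α| + |β| + 1 := by
      have h5 := abs_le_max_abs_abs hx.1 hx.2
      have h6 : max |α| |β| ≤ |α| + |β| :=
        max_le (by linarith [abs_nonneg β]) (by linarith [abs_nonneg α])
      linarith
    exact lt_of_le_of_lt (mul_le_mul_of_nonneg_left hx' hνj.le) hj'
  obtain ⟨ε', hε', hside⟩ := side h hc hsα hsβ hjx hV cV hVS hK hKc hKα hKβ (hKV t)
  obtain ⟨δ, hδ, hball⟩ := Metric.isOpen_iff.1
    (hfin'.subset (Set.sdiff_subset (t := {t}))).isClosed.isOpen_compl t (fun h => h.2 rfl)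
  obtain ⟨η, hη, e1, e2, e3, e4, e5⟩ : ∃ η : ℝ, 0 < η ∧ η ≤ ε ∧ η ≤ ε' ∧ η ≤ δ ∧
      η ≤ t - α' ∧ η ≤ t1 - t := by
    refine ⟨min ε (min ε' (min δ (min (t - α') (t1 - t)))), ?_, ?_, ?_, ?_, ?_, ?_⟩
    · exact lt_min hε (lt_min hε' (lt_min hδ (lt_min (by linarith) (by linarith))))
    · exact min_le_left _ _
    · exact (min_le_right _ _).trans (min_le_left _ _)
    · exact (min_le_right _ _).trans ((min_le_right _ _).trans (min_le_left _ _))
    · exact (min_le_right _ _).trans ((min_le_right _ _).trans ((min_le_right _ _).trans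
        (min_le_left _ _)))
    · exact (min_le_right _ _).trans ((min_le_right _ _).trans ((min_le_right _ _).trans
        (min_le_right _ _)))
  have hno : ∀ x, |x - t| < η → x ≠ t → pa V x ∉ lp (pa S) α β '' Set.Icc 0 1 := by
    intro x hx hxt hxE
    have hab := abs_lt.1 hx
    have : x ∈ Metric.ball t δ := by
      rw [Metric.mem_ball, Real.dist_eq]
      exact lt_of_lt_of_le hx e3
    exact hball this ⟨⟨hxE, by linarith, by linarith⟩, hxt⟩
  refine ⟨t, s, ht1, ht2, hsα, hsβ, hVS, j, hjx s hs, η, hη, fun τ τ' a1 a2 a3 a4 => ?_⟩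
  have b1 : |t - τ - t| < η := by
    rw [sub_sub_cancel_left, abs_neg, abs_of_pos a1]
    exact a2
  have b2 : |t + τ' - t| < η := by
    rw [add_sub_cancel_left, abs_of_pos a3]
    exact a4
  have c1 := hno _ b1 (by linarith)
  have c2 := hno _ b2 (by linarith)
  have d1 := hside (t - τ) (t + τ') (lt_of_lt_of_le b1 e2) (lt_of_lt_of_le b2 e2) c1 c2
  have d2 := hside (t + τ') (t - τ) (lt_of_lt_of_le b2 e2) (lt_of_lt_of_le b1 e2) c2 c1
  have hne := mul_ne_zero d1.1 d2.1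
  rcases lt_or_gt_of_ne hne with hlt | hgt
  · exact hlt
  · exact absurd (d1.2 hgt) (hjump τ τ' a1 (lt_of_lt_of_le a2 e1) a3 (lt_of_lt_of_le a4 e1))

end Pool.Agent.H53.HN
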