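import Pool.Agent.H53.HN.Lift

/-! # The loop of a path and a segment (helper53, folder HN)

PROOF. `lp_cont`: `Continuous.if_le`; at s = 1/2 the first formula gives ψ β and the second ψ β. `lp_image`: s in [0,1/2] gives α + 2 s (β - α), all of [α,β]; s in [1/2,1] gives the segment from ψ β to ψ α
 (`segment_eq_image`, ψ β + θ (ψ α - ψ β) = (1-θ) ψ β + θ ψ α).
 `ind_lp`: a logarithm of lp - o on [0,1]: for s <= 1/2, with t = α + 2 s (β-α), L s = log |ψ t - o| + I Θ t (exp of it is ψ t - o by hrep); for s >= 1/2: L s = Log(lp s - o) + (I Θ β + log |ψ β - o| - Log(ψ β - o)), Log principal, continuous since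
 the shifted segment is in the slit plane; the constant in brackets has exponential 1, so exp (L s) = lp s - o. Continuity at 1/2 clear. L 1 - L 0 = Log(ψ α - o) - Log(ψ β - o) + (I Θ β + log|ψ β - o|) - (log|ψ α - o| + I Θ α)
  = I (Θ β - Θ α + arg(ψ α - o) - arg(ψ β - o)). `ind_eq`.
-/

set_option autoImplicit false

namespace Pool.Agent.H53.HN

theorem lp_cont {ψ : ℝ → ℂ} (h : Continuous ψ) (α β : ℝ) : Continuous (lp ψ α β) := by
  unfold lp
  refine Continuous.if_le (by fun_prop) (by fun_prop) continuous_id continuous_const ?_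
  intro s hs
  have hs' : s = 1 / 2 := hs
  subst hs'
  have h1 : α + 2 * (1 / 2) * (β - α) = β := by ring
  rw [h1]
  push_cast
  ring

theorem lp_zero (ψ : ℝ → ℂ) (α β : ℝ) : lp ψ α β 0 = ψ α := by
  simp [lp]

theorem lp_one (ψ : ℝ → ℂ) (α β : ℝ) : lp ψ α β 1 = ψ α := by
  have : ¬ ((1 : ℝ) ≤ 1 / 2) := by norm_num
  simp only [lp, this, if_false]
  push_cast; ring

theorem lp_image (ψ : ℝ → ℂ) {α β : ℝ} (h : α ≤ β) :
    lp ψ α β '' Set.Icc 0 1 = ψ '' Set.Icc α β ∪ segment ℝ (ψ β) (ψ α) := by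
  ext x
  constructor
  · rintro ⟨s, ⟨hs0, hs1⟩, rfl⟩
    by_cases hs : s ≤ 1 / 2
    · left
      refine ⟨α + 2 * s * (β - α), ⟨?_, ?_⟩, ?_⟩
      · nlinarith
      · nlinarith
      · simp only [lp, if_pos hs]
    · right
      rw [segment_eq_image']
      refine ⟨2 * s - 1, ⟨by linarith [not_le.1 hs], by linarith⟩, ?_⟩
      simp only [lp, if_neg hs, Complex.real_smul]
  · rintro (⟨t, ⟨ht0, ht1⟩, rfl⟩ | hx)
    · rcases h.eq_or_lt with hab | hab
      · refine ⟨0, ⟨le_rfl, zero_le_one⟩, ?_⟩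
        rw [lp_zero]
        congr 1
        linarith
      · have hpos : 0 < β - α := sub_pos.2 hab
        have hs : (t - α) / (2 * (β - α)) ≤ 1 / 2 := by
          rw [div_le_iff₀ (by positivity)]
          nlinarith
        refine ⟨(t - α) / (2 * (β - α)), ⟨div_nonneg (by linarith) (by linarith), by linarith⟩, ?_⟩
        simp only [lp, if_pos hs]
        congr 1
        field_simp
        ring
    · rw [segment_eq_image'] at hx
      obtain ⟨θ, ⟨h0, h1⟩, rfl⟩ := hx
      refine ⟨(1 + θ) / 2, ⟨by linarith, by linarith⟩, ?_⟩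
      by_cases hs : (1 + θ) / 2 ≤ 1 / 2
      · have hθ : θ = 0 := by linarith
        subst hθ
        simp only [lp, if_pos hs]
        have : α + 2 * ((1 + 0) / 2) * (β - α) = β := by ring
        rw [this]
        simp
      · simp only [lp, if_neg hs, Complex.real_smul]
        congr 2
        push_cast
        ring

theorem ind_lp {ψ : ℝ → ℂ} (h : Continuous ψ) {α β : ℝ} (hαβ : α ≤ β) {o : ℂ}
    (ho : ∀ t, ψ t ≠ o) {Θ : ℝ → ℝ} (hΘ : Continuous Θ)
    (hrep : ∀ t, ψ t - o = (‖ψ t - o‖ : ℂ) * Complex.exp ((Θ t : ℂ) * Complex.I))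
    (hseg : ∀ x ∈ segment ℝ (ψ β) (ψ α), x - o ∈ Complex.slitPlane) :
    ind (lp ψ α β) o =
      (((Θ β - Θ α + Complex.arg (ψ α - o) - Complex.arg (ψ β - o)) / (2 * Real.pi) : ℝ) : ℂ) := by
  have hne : ∀ t, ψ t - o ≠ 0 := fun t => sub_ne_zero.2 (ho t)
  have hpos : ∀ t, 0 < ‖ψ t - o‖ := fun t => norm_pos_iff.2 (hne t)
  obtain ⟨r, hr⟩ : ∃ r : ℝ → ℝ, r = fun s => (Set.projIcc (0 : ℝ) 1 zero_le_one (2 * s - 1) : ℝ) :=
    ⟨_, rfl⟩
  have hrc : Continuous r := by
    rw [hr]
    exact continuous_subtype_val.comp (continuous_projIcc.comp (by fun_prop))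
  have hrm : ∀ s, r s ∈ Set.Icc (0 : ℝ) 1 := by
    intro s
    rw [hr]
    exact (Set.projIcc (0 : ℝ) 1 zero_le_one (2 * s - 1)).2
  have hre : ∀ s, 1 / 2 ≤ s → s ≤ 1 → r s = 2 * s - 1 := by
    intro s h1 h2
    rw [hr]
    dsimp only
    rw [Set.projIcc_of_mem zero_le_one ⟨by linarith, by linarith⟩]
  have hsl : ∀ s, ψ β + ((r s : ℝ) : ℂ) * (ψ α - ψ β) - o ∈ Complex.slitPlane := by
    intro s
    apply hseg
    rw [segment_eq_image']
    exact ⟨r s, hrm s, by simp only [Complex.real_smul]⟩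
  have elog : ∀ t, Complex.exp ((Real.log ‖ψ t - o‖ : ℂ) + (Θ t : ℂ) * Complex.I) = ψ t - o := by
    intro t
    rw [Complex.exp_add, ← Complex.ofReal_exp, Real.exp_log (hpos t)]
    exact (hrep t).symm
  obtain ⟨C, hC⟩ : ∃ C : ℂ, C = (Θ β : ℂ) * Complex.I + (Real.log ‖ψ β - o‖ : ℂ) -
    Complex.log (ψ β - o) := ⟨_, rfl⟩
  have hexpC : Complex.exp C = 1 := by
    rw [hC, Complex.exp_sub, add_comm ((Θ β : ℂ) * Complex.I), elog, Complex.exp_log (hne β),
      div_self (hne β)]
  have hLog : IsLog (lp ψ α β) o (fun s => if s ≤ 1 / 2 then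
      (Real.log ‖ψ (α + 2 * s * (β - α)) - o‖ : ℂ) + (Θ (α + 2 * s * (β - α)) : ℂ) * Complex.I
      else Complex.log (ψ β + ((r s : ℝ) : ℂ) * (ψ α - ψ β) - o) + C) := by
    constructor
    · apply Continuous.continuousOn
      refine Continuous.if_le ?_ ?_ continuous_id continuous_const ?_
      · refine Continuous.add ?_ ?_
        · refine Complex.continuous_ofReal.comp ?_
          refine Continuous.log (by fun_prop) fun s => (hpos _).ne'
        · exact (Complex.continuous_ofReal.comp (hΘ.comp (by fun_prop))).mul continuous_const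
      · refine Continuous.add ?_ continuous_const
        refine Continuous.clog ?_ hsl
        exact (continuous_const.add ((Complex.continuous_ofReal.comp hrc).mul
          continuous_const)).sub continuous_const
      · intro s hs
        have hs' : s = 1 / 2 := hs
        subst hs'
        have e1 : α + 2 * (1 / 2) * (β - α) = β := by ring
        have e2 : r (1 / 2) = 0 := by
          rw [hre (1 / 2) le_rfl (by norm_num)]
          norm_num
        rw [e1, e2, hC, Complex.ofReal_zero, zero_mul, add_zero]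
        ring
    · intro s hs
      by_cases h1 : s ≤ 1 / 2
      · simp only [lp, if_pos h1]
        exact elog _
      · simp only [lp, if_neg h1]
        rw [hre s (le_of_lt (not_le.1 h1)) hs.2, Complex.exp_add, hexpC, mul_one,
          Complex.exp_log]
        have := Complex.slitPlane_ne_zero (hsl s)
        rwa [hre s (le_of_lt (not_le.1 h1)) hs.2] at this
  rw [ind_eq hLog]
  have h01 : (0 : ℝ) ≤ 1 / 2 := by norm_num
  have h11 : ¬ ((1 : ℝ) ≤ 1 / 2) := by norm_num
  have e0 : α + 2 * 0 * (β - α) = α := by ring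
  have e1 : r 1 = 1 := by
    rw [hre 1 (by norm_num) le_rfl]
    norm_num
  simp only [if_pos h01, if_neg h11]
  rw [e0, e1, hC, Complex.ofReal_one, one_mul, add_sub_cancel, Complex.log, Complex.log]
  have hpi : (Real.pi : ℂ) ≠ 0 := by exact_mod_cast Real.pi_ne_zero
  have hI := Complex.I_ne_zero
  push_cast
  field_simp
  ring

end Pool.Agent.H53.HN
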