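import Pool.Agent.H53.HN.SadApi

/-! # Injectivity and disjointness of the manifolds (helper53, folder HN)

PROOF. `deriv U 0` is not 0 (h.li: det2 0 _ = 0). Choose a coordinate i with (deriv U 0).i not 0: the scalar function t -> (U t).i has nonzero (strict) derivative at 0, so it is injective on a neighbourhood of 0
 (`HasStrictDerivAt.toOpenPartialHomeomorph` or `HasStrictDerivAt.eventually...`/`injOn`), so U is injective on a ball of radius δ about 0; and by continuity of the derivative deriv U t is not 0 for |t| < δ.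
 `injU`: if U t = U t' then with k large |μ^-k t|, |μ^-k t'| < δ; G^[k] (U t) = U (μ^-k t) (`h.symm.iterS`), so U (μ^-k t) = U (μ^-k t'), so t = t'.
 `dU_ne`: U t = F^[k] (U (μ^-k t)) (`h.iterU`), so G^[k] (U t') = U (μ^-k t') for all t'; differentiate at t' = t: fderiv (G^[k]) (U t) (deriv U t) = μ^-k deriv U (μ^-k t), which is not 0 if k is large; so deriv U t is not 0.
 `disjU`: suppose U t = U' t' (two saddles p, q of the same F, G). G^[k] (U t) = U (μ^-k t) tends to U 0 = io p, and G^[k] (U' t') = U' (μ'^-k t') tends to io q; so io p = io q, p = q (`io_injective`).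
 The statements for S follow from `IsSad.symm`.
 `only0`: if U t = io z and G^[k] (U t) = U t with k >= 1, then U (μ^-k t) = U t so t = 0 (injectivity).
-/

set_option autoImplicit false

namespace Pool.Agent.H53.HN

open Filter Topology

variable {F G : ℂ × ℂ → ℂ × ℂ} {p q : ℝ × ℝ} {μ ν μ' ν' : ℝ} {U S U' S' : ℂ → ℂ × ℂ}

private theorem deriv_U0_ne (h : IsSad F G p μ ν U S) : deriv U 0 ≠ 0 := by
  intro h0
  apply h.li
  rw [h0]
  simp [det2]

private theorem loc_inj {f : ℂ → ℂ} (df : Differentiable ℂ f) (h0 : deriv f 0 ≠ 0) :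
    ∃ δ : ℝ, 0 < δ ∧ ∀ t t' : ℂ, ‖t‖ < δ → ‖t'‖ < δ → f t = f t' → t = t' := by
  have hs : HasStrictDerivAt f (deriv f 0) 0 := (df.analyticAt 0).hasStrictDerivAt
  have hs' := hs.hasStrictFDerivAt_equiv h0
  have hmem : (hs'.toOpenPartialHomeomorph f).source ∈ 𝓝 (0 : ℂ) :=
    (hs'.toOpenPartialHomeomorph f).open_source.mem_nhds hs'.mem_toOpenPartialHomeomorph_source
  obtain ⟨δ, hδ, hsub⟩ := Metric.mem_nhds_iff.1 hmem
  refine ⟨δ, hδ, fun t t' ht ht' he => ?_⟩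
  refine (hs'.toOpenPartialHomeomorph f).injOn (hsub (by simpa using ht)) (hsub (by simpa using ht')) ?_
  simpa using he

private theorem loc_injU (h : IsSad F G p μ ν U S) :
    ∃ δ : ℝ, 0 < δ ∧ ∀ t t' : ℂ, ‖t‖ < δ → ‖t'‖ < δ → U t = U t' → t = t' := by
  have h0 := deriv_U0_ne h
  have hd : HasDerivAt U (deriv U 0) 0 := (h.dU 0).hasDerivAt
  by_cases h1 : (deriv U 0).1 = 0
  · have h2 : (deriv U 0).2 ≠ 0 := fun h2 => h0 (Prod.ext h1 h2)
    have hd2 : HasDerivAt (fun t => (U t).2) (deriv U 0).2 0 := hd.snd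
    obtain ⟨δ, hδ, H⟩ := loc_inj (f := fun t => (U t).2) h.dU.snd (by rw [hd2.deriv]; exact h2)
    exact ⟨δ, hδ, fun t t' ht ht' he => H t t' ht ht' (congrArg Prod.snd he)⟩
  · have hd1 : HasDerivAt (fun t => (U t).1) (deriv U 0).1 0 := hd.fst
    obtain ⟨δ, hδ, H⟩ := loc_inj (f := fun t => (U t).1) h.dU.fst (by rw [hd1.deriv]; exact h1)
    exact ⟨δ, hδ, fun t t' ht ht' he => H t t' ht ht' (congrArg Prod.fst he)⟩

private theorem tends_mul (h : IsSad F G p μ ν U S) (t : ℂ) :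
    Tendsto (fun k : ℕ => (((μ⁻¹) ^ k : ℝ) : ℂ) * t) atTop (𝓝 0) := by
  have h1 : Tendsto (fun k : ℕ => (μ⁻¹) ^ k) atTop (𝓝 (0 : ℝ)) :=
    tendsto_pow_atTop_nhds_zero_of_lt_one (inv_nonneg.2 h.mu0.le) (inv_lt_one_of_one_lt₀ h.mu)
  have h2 : Tendsto (fun k : ℕ => (((μ⁻¹) ^ k : ℝ) : ℂ)) atTop (𝓝 ((0 : ℝ) : ℂ)) :=
    (Complex.continuous_ofReal.tendsto 0).comp h1
  simpa using h2.mul_const t

theorem IsSad.injU (h : IsSad F G p μ ν U S) : Function.Injective U := by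
  obtain ⟨δ, hδ, H⟩ := loc_injU h
  intro t t' he
  have e1 : ∀ᶠ k : ℕ in atTop, ‖(((μ⁻¹) ^ k : ℝ) : ℂ) * t‖ < δ := by
    have := (tends_mul h t).norm
    rw [norm_zero] at this
    exact this.eventually (gt_mem_nhds hδ)
  have e2 : ∀ᶠ k : ℕ in atTop, ‖(((μ⁻¹) ^ k : ℝ) : ℂ) * t'‖ < δ := by
    have := (tends_mul h t').norm
    rw [norm_zero] at this
    exact this.eventually (gt_mem_nhds hδ)
  obtain ⟨k, hk1, hk2⟩ := (e1.and e2).exists
  have h3 : U ((((μ⁻¹) ^ k : ℝ) : ℂ) * t) = U ((((μ⁻¹) ^ k : ℝ) : ℂ) * t') := by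
    rw [← h.symm.iterS, ← h.symm.iterS, he]
  have h4 := H _ _ hk1 hk2 h3
  have h5 : (((μ⁻¹) ^ k : ℝ) : ℂ) ≠ 0 := by
    have : (μ⁻¹) ^ k ≠ 0 := pow_ne_zero _ (inv_ne_zero h.mu0.ne')
    exact_mod_cast this
  exact mul_left_cancel₀ h5 h4

theorem IsSad.injS (h : IsSad F G p μ ν U S) : Function.Injective S :=
  h.symm.injU

theorem IsSad.dU_ne (h : IsSad F G p μ ν U S) (t : ℂ) : deriv U t ≠ 0 := by
  intro h0
  have hcont : Continuous (deriv U) := (h.dU.contDiff (n := 1)).continuous_deriv le_rfl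
  have hlim : Tendsto (fun k : ℕ => deriv U ((((μ⁻¹) ^ k : ℝ) : ℂ) * t)) atTop (𝓝 (deriv U 0)) :=
    (hcont.tendsto 0).comp (tends_mul h t)
  obtain ⟨k, hk⟩ := (hlim.eventually_ne (deriv_U0_ne h)).exists
  set c : ℂ := (((μ⁻¹) ^ k : ℝ) : ℂ) with hcdef
  have hc : c ≠ 0 := by
    have : (μ⁻¹) ^ k ≠ 0 := pow_ne_zero _ (inv_ne_zero h.mu0.ne')
    rw [hcdef]
    exact_mod_cast this
  have h1 : HasDerivAt (fun t' => G^[k] (U t')) (fderiv ℂ G^[k] (U t) (deriv U t)) t :=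
    (diff_iter h.dG k (U t)).hasFDerivAt.comp_hasDerivAt t (h.dU t).hasDerivAt
  have h2 : HasDerivAt (fun t' => U (c * t')) (c • deriv U (c * t)) t := by
    have h3 : HasDerivAt (fun t' : ℂ => c * t') c t := by
      simpa using (hasDerivAt_id t).const_mul c
    exact HasDerivAt.scomp t (h.dU (c * t)).hasDerivAt h3
  have h3 : (fun t' => G^[k] (U t')) = fun t' => U (c * t') := funext fun t' => h.symm.iterS k t'
  rw [h3] at h1
  have h4 := h1.unique h2
  rw [h0, map_zero] at h4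
  exact hk ((smul_eq_zero.1 h4.symm).resolve_left hc)

theorem IsSad.dS_ne (h : IsSad F G p μ ν U S) (t : ℂ) : deriv S t ≠ 0 :=
  h.symm.dU_ne t

theorem IsSad.disjU (h : IsSad F G p μ ν U S) (h' : IsSad F G q μ' ν' U' S') (hpq : p ≠ q)
    (t t' : ℂ) : U t ≠ U' t' := by
  intro he
  have h1 : Tendsto (fun k : ℕ => G^[k] (U t)) atTop (𝓝 (io p)) := by
    have h2 : (fun k : ℕ => G^[k] (U t)) = fun k : ℕ => U ((((μ⁻¹) ^ k : ℝ) : ℂ) * t) :=
      funext fun k => h.symm.iterS k t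
    rw [h2, ← h.U0]
    exact (h.dU.continuous.tendsto 0).comp (tends_mul h t)
  have h3 : Tendsto (fun k : ℕ => G^[k] (U' t')) atTop (𝓝 (io q)) := by
    have h2 : (fun k : ℕ => G^[k] (U' t')) = fun k : ℕ => U' ((((μ'⁻¹) ^ k : ℝ) : ℂ) * t') :=
      funext fun k => h'.symm.iterS k t'
    rw [h2, ← h'.U0]
    exact (h'.dU.continuous.tendsto 0).comp (tends_mul h' t')
  rw [← he] at h3
  exact hpq (io_injective (tendsto_nhds_unique h1 h3))

theorem IsSad.only0 (h : IsSad F G p μ ν U S) {t : ℂ} (ht : F (U t) = U t) : t = 0 := by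
  rw [h.eU] at ht
  have h1 := h.injU ht
  have h2 : ((μ : ℂ) - 1) * t = 0 := by linear_combination h1
  rcases mul_eq_zero.1 h2 with h3 | h3
  · exfalso
    have : (μ : ℂ) = ((1 : ℝ) : ℂ) := by push_cast; linear_combination h3
    have h4 : μ = 1 := by exact_mod_cast this
    linarith [h.mu]
  · exact h3

theorem IsSad.only0S (h : IsSad F G p μ ν U S) {t : ℂ} (ht : F (S t) = S t) : t = 0 := by
  have h1 : G (S t) = S t := by
    conv_lhs => rw [← ht]
    exact h.GF _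
  exact h.symm.only0 h1

end Pool.Agent.H53.HN
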