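import Pool.Agent.H53.HN.RotAng
import Pool.Agent.H53.HN.Loop
import Pool.Agent.H53.HN.Uprop

/-! # Loops around the centre from the two manifolds (helper53, folder HN)

PROOF of `ind_S`. f = fR c b, F = (fC c b)^[N], N = h n, o fixed by f^[h] hence by f^[N]. rp (S t) is not o for real t: otherwise S t = io o (`io_rpV`), F (S t) = io (f^[N] o) = S t, so t = 0 by `IsSad.only0S`, and S 0 = io p gives p = o.
 Θ from `angle_ex` for ψ = pa S. `rot_angle` with V = S, l = ν at the parameter t1/ν: Θ t1 = Θ (t1/ν) + Σ - 2 pi κ with Σ = arg(ψ t1 - o) - arg(ψ (t1/ν) - o) by `tel_M` applied to z = rp (S (t1/ν)) ((f^[h])^[n] z = f^[N] z = rp (S t1) in Nm).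
 z is in Nm b R too (z = g^[N] (rp (S t1)), hs.gNm). The segment between ψ t1 and ψ (t1/ν) is the image of the segment in the plane (en is real linear), contained in Nm b R (`Nm_convex`), so shifted by o it is in the slit plane (`Nm_slit`).
 If t1 > 0: α = t1, β = t1/ν (> t1). `ind_lp`: index = (Θ β - Θ α + arg(ψ α - o) - arg(ψ β - o))/(2 pi) = κ. If t1 < 0: α = t1/ν, β = t1: index = -κ. Both nonzero.
PROOF of `ind_U`. The same with V = U, l = μ at the parameter t2: Θ (μ t2) = Θ t2 + Σ - 2 pi κ, Σ = arg(ψ (μ t2) - o) - arg(ψ t2 - o) by `tel_P`. α, β = t2, μ t2 in increasing order; rp (U (μ t2)) = f^[N] (rp (U t2)) in Np. Index -κ or κ. (`IsSad.only0`, `Np_convex`, `Np_slit`.)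
-/

set_option autoImplicit false

namespace Pool.Agent.H53.HN

theorem off_center {c b : ℝ} {N : ℕ} {o : ℝ × ℝ} (ho : (fR c b)^[N] o = o) {p : ℝ × ℝ}
    {μ ν : ℝ} {U S : ℂ → ℂ × ℂ} (hp : IsSad (fC c b)^[N] (gC c b)^[N] p μ ν U S) (hpo : p ≠ o)
    (t : ℝ) : rp (U (t : ℂ)) ≠ o ∧ rp (S (t : ℂ)) ≠ o := by
  constructor
  · intro h
    have h1 : U (t : ℂ) = io o := by rw [← io_rpV hp.cU t, h]
    have h2 : (fC c b)^[N] (U (t : ℂ)) = U (t : ℂ) := by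
      rw [h1, io_iter_f, ho]
    have h3 := hp.only0 h2
    rw [h3, hp.U0] at h1
    exact hpo (io_injective h1)
  · intro h
    have h1 : S (t : ℂ) = io o := by rw [← io_rpV hp.cS t, h]
    have h2 : (fC c b)^[N] (S (t : ℂ)) = S (t : ℂ) := by
      rw [h1, io_iter_f, ho]
    have h3 := hp.only0S h2
    rw [h3, hp.S0] at h1
    exact hpo (io_injective h1)

theorem seg_slit {C : Set (ℝ × ℝ)} (hC : Convex ℝ C) {o : ℝ × ℝ}
    (hsl : ∀ z ∈ C, en z - en o ∈ Complex.slitPlane) {z1 z2 : ℝ × ℝ} (h1 : z1 ∈ C) (h2 : z2 ∈ C) :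
    ∀ x ∈ segment ℝ (en z1) (en z2), x - en o ∈ Complex.slitPlane := by
  rintro x ⟨a, b, ha, hb, hab, rfl⟩
  have h3 : a • en z1 + b • en z2 = en (a • z1 + b • z2) := by
    apply Complex.ext
    · simp [en]
    · simp [en]
  rw [h3]
  exact hsl _ (hC h1 h2 ha hb hab)

theorem ind_two {ψ : ℝ → ℂ} (hψ : Continuous ψ) {o : ℂ} (ho : ∀ t, ψ t ≠ o) {Θ : ℝ → ℝ}
    (hΘ : Continuous Θ)
    (hrep : ∀ t, ψ t - o = (‖ψ t - o‖ : ℂ) * Complex.exp ((Θ t : ℂ) * Complex.I))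
    {s t : ℝ} (hseg : ∀ x ∈ segment ℝ (ψ s) (ψ t), x - o ∈ Complex.slitPlane) {κ : ℤ}
    (hκ : κ ≠ 0)
    (e : Θ s - Θ t + Complex.arg (ψ t - o) - Complex.arg (ψ s - o) = 2 * Real.pi * κ) :
    ind (lp ψ (min s t) (max s t)) o ≠ 0 := by
  have hκ' : (κ : ℝ) ≠ 0 := by exact_mod_cast hκ
  have hpi : (2 * Real.pi : ℝ) ≠ 0 := by positivity
  rcases le_total s t with h | h
  · rw [min_eq_left h, max_eq_right h, ind_lp hψ h ho hΘ hrep (by rw [segment_symm]; exact hseg)]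
    have h1 : Θ t - Θ s + Complex.arg (ψ s - o) - Complex.arg (ψ t - o) =
        -(2 * Real.pi * κ) := by linarith
    rw [h1]
    norm_cast
    rw [neg_div, mul_div_cancel_left₀ _ hpi]
    exact neg_ne_zero.2 hκ'
  · rw [min_eq_right h, max_eq_left h, ind_lp hψ h ho hΘ hrep hseg]
    rw [e]
    norm_cast
    rw [mul_div_cancel_left₀ _ hpi]
    exact hκ'

theorem indsu_fix {c b : ℝ} {h n N : ℕ} (hN : N = h * n) {R : ℝ} {o : ℝ × ℝ}
    {d : ℝ × ℝ → ℝ} (H : IsRot c b h R o d) : (fR c b)^[N] o = o := by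
  rw [hN, Function.iterate_mul]
  exact Function.iterate_fixed H.fix n

theorem minmax_pos {s t : ℝ} (h : 0 < s * t) : 0 < min s t * max s t := by
  rw [min_mul_max]; exact h

theorem ind_S {c b : ℝ} (hb : b ≠ 0) {h n N : ℕ} (hN : N = h * n) (hn : 0 < n) {R : ℝ}
    {o : ℝ × ℝ} {d : ℝ × ℝ → ℝ} (H : IsRot c b h R o d) (hs : IsSec c b R) (hoR : ‖o‖ < R)
    {p : ℝ × ℝ} {μ ν : ℝ} {U S : ℂ → ℂ × ℂ}
    (hp : IsSad (fC c b)^[N] (gC c b)^[N] p μ ν U S) (hpo : p ≠ o) {κ : ℤ} (hκ : κ ≠ 0)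
    (hsum : ∑ j ∈ Finset.range n, d (((fR c b)^[h])^[j] p) = 2 * Real.pi * κ) {t1 : ℝ}
    (ht1 : t1 ≠ 0) (hNm : rp (S (t1 : ℂ)) ∈ Nm b R) :
    ∃ α β : ℝ, α < β ∧ 0 < α * β ∧ rp (S (α : ℂ)) ∈ Nm b R ∧ rp (S (β : ℂ)) ∈ Nm b R ∧
      ind (lp (pa S) α β) (en o) ≠ 0 := by
  have ho := indsu_fix hN H
  have hoff : ∀ t : ℝ, rp (S (t : ℂ)) ≠ o := fun t => (off_center ho hp hpo t).2
  have hψ : Continuous (pa S) := continuous_pa hp.dS.continuous
  have hne : ∀ t, pa S t ≠ en o := fun t h => hoff t (en_injective h)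
  obtain ⟨Θ, hΘ, hrep⟩ := angle_ex hψ hne
  have hν := hp.nu0
  set s1 : ℝ := t1 / ν with hs1
  have hs1' : ν * s1 = t1 := by rw [hs1]; field_simp
  have hκ0 : ∑ j ∈ Finset.range n, d (((fR c b)^[h])^[j] (rp (S 0))) = 2 * Real.pi * κ := by
    rw [hp.S0, rp_io]; exact hsum
  have e1 := rot_angle hb hN H hp.dS.continuous hp.cS hp.eS hoff hκ0 hΘ hrep s1
  rw [hs1'] at e1
  have hN' : (fR c b)^[N] (rp (S (s1 : ℂ))) = rp (S (t1 : ℂ)) := by
    apply io_injective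
    rw [rp_iter hp.cS, hp.eS, io_rpV hp.cS]
    congr 1
    rw [← hs1']
    push_cast
    rfl
  have hit : ((fR c b)^[h])^[n] (rp (S (s1 : ℂ))) = rp (S (t1 : ℂ)) := by
    rw [← Function.iterate_mul, ← hN, hN']
  have e2 := tel_M hb H hs (z := rp (S (s1 : ℂ))) (n := n) (by rw [hit]; exact hNm)
  rw [hit] at e2
  have hNm1 : rp (S (s1 : ℂ)) ∈ Nm b R := by
    rw [← iter_gR_fR c hb N (rp (S (s1 : ℂ))), hN']
    exact (show Set.MapsTo (gR c b) (Nm b R) (Nm b R) from fun z hz => hs.gNm z hz).iterate N hNm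
  have hseg : ∀ x ∈ segment ℝ (pa S s1) (pa S t1), x - en o ∈ Complex.slitPlane :=
    seg_slit (Nm_convex b R) (fun z hz => Nm_slit hb hs.R0 hoR hz) hNm1 hNm
  have e3 : Θ s1 - Θ t1 + Complex.arg (pa S t1 - en o) - Complex.arg (pa S s1 - en o) =
      2 * Real.pi * κ := by
    rw [e1, e2]
    unfold pa
    ring
  have hne1 : s1 ≠ t1 := by
    intro h1
    rw [h1] at hs1'
    have h2 : (ν - 1) * t1 = 0 := by linarith
    rcases mul_eq_zero.1 h2 with h3 | h3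
    · linarith [hp.nu1]
    · exact ht1 h3
  have hpos : 0 < s1 * t1 := by
    have h2 : s1 * t1 = t1 ^ 2 / ν := by rw [hs1]; ring
    rw [h2]
    positivity
  refine ⟨min s1 t1, max s1 t1, min_lt_max.2 hne1, minmax_pos hpos, ?_, ?_,
    ind_two hψ hne hΘ hrep hseg hκ e3⟩
  · rcases min_choice s1 t1 with h1 | h1 <;> rw [h1] <;> assumption
  · rcases max_choice s1 t1 with h1 | h1 <;> rw [h1] <;> assumption

theorem ind_U {c b : ℝ} (hb : b ≠ 0) {h n N : ℕ} (hN : N = h * n) (hn : 0 < n) {R : ℝ}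
    {o : ℝ × ℝ} {d : ℝ × ℝ → ℝ} (H : IsRot c b h R o d) (hs : IsSec c b R) (hoR : ‖o‖ < R)
    {p : ℝ × ℝ} {μ ν : ℝ} {U S : ℂ → ℂ × ℂ}
    (hp : IsSad (fC c b)^[N] (gC c b)^[N] p μ ν U S) (hpo : p ≠ o) {κ : ℤ} (hκ : κ ≠ 0)
    (hsum : ∑ j ∈ Finset.range n, d (((fR c b)^[h])^[j] p) = 2 * Real.pi * κ) {t2 : ℝ}
    (ht2 : t2 ≠ 0) (hNp : rp (U (t2 : ℂ)) ∈ Np R) :
    ∃ α β : ℝ, α < β ∧ 0 < α * β ∧ rp (U (α : ℂ)) ∈ Np R ∧ rp (U (β : ℂ)) ∈ Np R ∧
      ind (lp (pa U) α β) (en o) ≠ 0 := by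
  have ho := indsu_fix hN H
  have hoff : ∀ t : ℝ, rp (U (t : ℂ)) ≠ o := fun t => (off_center ho hp hpo t).1
  have hψ : Continuous (pa U) := continuous_pa hp.dU.continuous
  have hne : ∀ t, pa U t ≠ en o := fun t h => hoff t (en_injective h)
  obtain ⟨Θ, hΘ, hrep⟩ := angle_ex hψ hne
  have hκ0 : ∑ j ∈ Finset.range n, d (((fR c b)^[h])^[j] (rp (U 0))) = 2 * Real.pi * κ := by
    rw [hp.U0, rp_io]; exact hsum
  have e1 := rot_angle hb hN H hp.dU.continuous hp.cU hp.eU hoff hκ0 hΘ hrep t2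
  set s2 : ℝ := μ * t2 with hs2
  have hN' : (fR c b)^[N] (rp (U (t2 : ℂ))) = rp (U (s2 : ℂ)) := by
    apply io_injective
    rw [rp_iter hp.cU, hp.eU, io_rpV hp.cU]
    congr 1
    rw [hs2]
    push_cast
    rfl
  have hit : ((fR c b)^[h])^[n] (rp (U (t2 : ℂ))) = rp (U (s2 : ℂ)) := by
    rw [← Function.iterate_mul, ← hN, hN']
  have e2 := tel_P H hs hNp n
  rw [hit] at e2
  have hNp1 : rp (U (s2 : ℂ)) ∈ Np R := by
    rw [← hN']
    exact (show Set.MapsTo (fR c b) (Np R) (Np R) from fun z hz => hs.fNp z hz).iterate N hNp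
  have hseg : ∀ x ∈ segment ℝ (pa U t2) (pa U s2), x - en o ∈ Complex.slitPlane :=
    seg_slit (Np_convex R) (fun z hz => Np_slit hs.R0 hoR hz) hNp hNp1
  have e3 : Θ t2 - Θ s2 + Complex.arg (pa U s2 - en o) - Complex.arg (pa U t2 - en o) =
      2 * Real.pi * κ := by
    rw [e1, e2]
    unfold pa
    ring
  have hne1 : t2 ≠ s2 := by
    intro h1
    have h2 : (μ - 1) * t2 = 0 := by
      rw [hs2] at h1
      linarith
    rcases mul_eq_zero.1 h2 with h3 | h3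
    · linarith [hp.mu]
    · exact ht2 h3
  have hpos : 0 < t2 * s2 := by
    have h2 : t2 * s2 = μ * t2 ^ 2 := by rw [hs2]; ring
    have h3 := hp.mu0
    rw [h2]
    positivity
  refine ⟨min t2 s2, max t2 s2, min_lt_max.2 hne1, minmax_pos hpos, ?_, ?_,
    ind_two hψ hne hΘ hrep hseg hκ e3⟩
  · rcases min_choice t2 s2 with h1 | h1 <;> rw [h1] <;> assumption
  · rcases max_choice t2 s2 with h1 | h1 <;> rw [h1] <;> assumption

end Pool.Agent.H53.HN
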