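import Pool.Agent.H53.HN.Iso1

/-! # Intersections are isolated (helper53, folder HN)

PROOF. Suppose the set is infinite. Bolzano-Weierstrass in the compact set [α,β] x [α',β']: there are pairwise distinct t_k with V t_k = S s_k, t_k -> t0, s_k -> s0 (t0 > 0), V t0 = S s0 by continuity; so the hypothesis of `iso1` holds at t0 (t_k ≠ t0 for all but one k).
 J := {t > 0 : exists M, for all real t' near t, exists s, |s| <= M, V t' = S s}. J is open and t0 is in J by `iso1`. For t in J let s(t) be the unique real with V t = S (s(t)) (h.injS).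
 (1) s is continuous on J: near t it is bounded by M; if t_k -> t then every limit point s' of s(t_k) has S s' = V t = S (s t), so s' = s t.
 (2) Let b = sup of {y >= t0 : [t0,y] ⊆ J}. b is finite: otherwise V t is in S(reals) for all t >= t0, contradicting hfar. b > t0 > 0, [t0,b) ⊆ J, b is not in J (J open).
 (3) |s(t)| -> infinity as t -> b from the left: otherwise there are t_k -> b, t_k < b, s(t_k) -> s* (bounded subsequence), V b = S s*, so `iso1` applies at b (t_k ≠ b) and gives b in J: contradiction.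
 (4) Let t1 in (t0,b) be such that |s t| >= 1 on [t1,b); by continuity s has constant sign σ there. For k large ν^-k > |s t1|; by the intermediate value theorem there is t_k in [t1,b) with s(t_k) = σ ν^-k (s is continuous on [t1,b), |s| -> infinity).
  t_k -> b: for any b' < b, |s| is bounded on [t1,b'] by continuity, so t_k > b' for k large. So V(t_k) = S (σ ν^-k) = G^[k] (S σ) -> V b.
  Then G^[k+1] (S σ) = V(t_(k+1)) -> V b and also G^[k+1] (S σ) = G (V t_k) -> G (V b). So G (V b) = V b. But V b = V (m (b/m)) gives G (V b) = V (b/m) (eV), so b/m = b by injectivity: b = 0 as m > 1. Contradiction.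
-/

set_option autoImplicit false

namespace Pool.Agent.H53.HN

open Filter Topology

variable {F G : ℂ × ℂ → ℂ × ℂ} {p : ℝ × ℝ} {μ ν r C : ℝ} {U S : ℂ → ℂ × ℂ}
  {χ : OpenPartialHomeomorph (ℂ × ℂ) (ℂ × ℂ)}

private theorem iso_lim {V S : ℂ → ℂ × ℂ} (hV : Continuous V) (hS : Continuous S) {σ : ℝ → ℝ}
    {U : Filter ℝ} [U.NeBot] {t x : ℝ} (hU : U ≤ 𝓝 t)
    (he : ∀ᶠ y : ℝ in U, V (y : ℂ) = S (σ y : ℂ)) (hx : Tendsto σ U (𝓝 x)) :
    V (t : ℂ) = S (x : ℂ) := by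
  have h1 : Tendsto (fun y : ℝ => V (y : ℂ)) U (𝓝 (V (t : ℂ))) :=
    ((hV.comp Complex.continuous_ofReal).tendsto t).mono_left hU
  have h2 : Tendsto (fun y : ℝ => S (σ y : ℂ)) U (𝓝 (S (x : ℂ))) :=
    ((hS.comp Complex.continuous_ofReal).tendsto x).comp hx
  exact tendsto_nhds_unique (h1.congr' he) h2

theorem iso (h : IsSad F G p μ ν U S) (hc : IsChart F p μ ν U S χ r C) {V : ℂ → ℂ × ℂ}
    (dV : Differentiable ℂ V) (cV : ∀ t, V (starRingEnd ℂ t) = cj (V t))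
    (iV : Function.Injective V) {m : ℝ} (hm : 1 < m) (eV : ∀ t, G (V ((m : ℂ) * t)) = V t)
    {α β α' β' : ℝ} (hα : 0 < α)
    (hfar : ∀ T : ℝ, ∃ t : ℝ, T < t ∧ ∀ s : ℝ, V (t : ℂ) ≠ S (s : ℂ)) :
    {t : ℝ | t ∈ Set.Icc α β ∧ ∃ s ∈ Set.Icc α' β', V (t : ℂ) = S (s : ℂ)}.Finite := by
  by_contra hinf
  have hinf' : Set.Infinite
    {t : ℝ | t ∈ Set.Icc α β ∧ ∃ s ∈ Set.Icc α' β', V (t : ℂ) = S (s : ℂ)} := hinf
  have hVr : Continuous (fun t : ℝ => V (t : ℂ)) := dV.continuous.comp Complex.continuous_ofReal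
  have hSr : Continuous (fun t : ℝ => S (t : ℂ)) := h.dS.continuous.comp Complex.continuous_ofReal
  have injSr : ∀ x y : ℝ, S (x : ℂ) = S (y : ℂ) → x = y := fun x y e => by
    have := h.injS e
    exact_mod_cast this
  have injVr : ∀ x y : ℝ, V (x : ℂ) = V (y : ℂ) → x = y := fun x y e => by
    have := iV e
    exact_mod_cast this
  have hm0 : 0 < m := by linarith
  have hmC : (m : ℂ) ≠ 0 := by exact_mod_cast hm0.ne'
  have eV' : ∀ t : ℝ, G (V (t : ℂ)) = V ((t / m : ℝ) : ℂ) := by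
    intro t
    have := eV ((t / m : ℝ) : ℂ)
    rw [← this]
    congr 2
    push_cast
    field_simp
  -- accumulation
  obtain ⟨T2, hT2⟩ : ∃ T2 : Set (ℝ × ℝ), T2 =
    {q | q ∈ Set.Icc α β ×ˢ Set.Icc α' β' ∧ V (q.1 : ℂ) = S (q.2 : ℂ)} := ⟨_, rfl⟩
  have hT2inf : T2.Infinite := by
    refine Set.Infinite.of_image Prod.fst (hinf'.mono ?_)
    rintro t ⟨h1, s, h2, h3⟩
    exact ⟨(t, s), by rw [hT2]; exact ⟨⟨h1, h2⟩, h3⟩, rfl⟩
  have hT2cl : IsClosed T2 := by
    rw [hT2]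
    refine (isClosed_Icc.prod isClosed_Icc).inter ?_
    exact isClosed_eq (hVr.comp continuous_fst) (hSr.comp continuous_snd)
  obtain ⟨q0, hq0K, hacc⟩ := hT2inf.exists_accPt_of_subset_isCompact
    ((isCompact_Icc (a := α) (b := β)).prod (isCompact_Icc (a := α') (b := β')))
    (fun q hq => by rw [hT2] at hq; exact hq.1)
  have hq0 : q0 ∈ T2 := by
    have : q0 ∈ closure T2 := mem_closure_iff_clusterPt.2 hacc.clusterPt
    rwa [hT2cl.closure_eq] at this
  obtain ⟨t0, s0⟩ := q0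
  have hq0' := hq0
  rw [hT2] at hq0'
  obtain ⟨⟨ht0, hs0⟩, hVS0⟩ := hq0'
  have hVS0' : V (t0 : ℂ) = S (s0 : ℂ) := hVS0
  have ht0' : α ≤ t0 := ht0.1
  have ht0pos : 0 < t0 := lt_of_lt_of_le hα ht0'
  have hP0 : ∃ M : ℝ, ∀ᶠ t : ℝ in 𝓝 t0, ∃ s : ℝ, |s| ≤ M ∧ V (t : ℂ) = S (s : ℂ) := by
    refine iso1 h hc dV cV hVS0' (fun ε hε => ?_)
    obtain ⟨⟨t, s⟩, ⟨hball, hmem⟩, hne⟩ := accPt_iff_nhds.1 hacc (Metric.ball (t0, s0) ε)
      (Metric.ball_mem_nhds _ hε)
    rw [Metric.mem_ball, Prod.dist_eq, max_lt_iff] at hball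
    rw [hT2] at hmem
    have hVS : V (t : ℂ) = S (s : ℂ) := hmem.2
    refine ⟨t, s, ?_, by simpa [Real.dist_eq] using hball.1,
      by simpa [Real.dist_eq] using hball.2, hVS⟩
    intro ht
    apply hne
    rw [ht, hVS0'] at hVS
    rw [ht, injSr _ _ hVS]
  -- the set J
  obtain ⟨J, hJ⟩ : ∃ J : Set ℝ, J = {t | 0 < t ∧
    ∃ M : ℝ, ∀ᶠ t' : ℝ in 𝓝 t, ∃ s : ℝ, |s| ≤ M ∧ V (t' : ℂ) = S (s : ℂ)} := ⟨_, rfl⟩
  have hJo : IsOpen J := by
    rw [isOpen_iff_mem_nhds]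
    intro t ht
    rw [hJ] at ht ⊢
    obtain ⟨h1, M, h2⟩ := ht
    filter_upwards [eventually_gt_nhds h1, eventually_eventually_nhds.2 h2] with y hy1 hy2
    exact ⟨hy1, M, hy2⟩
  have ht0J : t0 ∈ J := by rw [hJ]; exact ⟨ht0pos, hP0⟩
  -- the section
  have hsec : ∃ σ : ℝ → ℝ, ∀ t : ℝ, (∃ s : ℝ, V (t : ℂ) = S (s : ℂ)) →
      V (t : ℂ) = S (σ t : ℂ) := by
    have : ∀ t : ℝ, ∃ s' : ℝ, (∃ s : ℝ, V (t : ℂ) = S (s : ℂ)) → V (t : ℂ) = S (s' : ℂ) := by
      intro t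
      by_cases hex : ∃ s : ℝ, V (t : ℂ) = S (s : ℂ)
      · obtain ⟨s, hs⟩ := hex
        exact ⟨s, fun _ => hs⟩
      · exact ⟨0, fun he => absurd he hex⟩
    choose σ hσ using this
    exact ⟨σ, hσ⟩
  obtain ⟨σ, hσ⟩ := hsec
  have hJσ : ∀ t ∈ J, V (t : ℂ) = S (σ t : ℂ) := by
    intro t ht
    rw [hJ] at ht
    obtain ⟨-, M, h2⟩ := ht
    obtain ⟨s, -, hs⟩ := h2.self_of_nhds
    exact hσ t ⟨s, hs⟩
  have hσc : ∀ t ∈ J, ContinuousAt σ t := by
    intro t ht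
    have ht' := ht
    rw [hJ] at ht'
    obtain ⟨-, M, h2⟩ := ht'
    have hmem : ∀ᶠ y in 𝓝 t, σ y ∈ Set.Icc (-M) M := by
      filter_upwards [h2] with y hy
      obtain ⟨s, hs1, hs2⟩ := hy
      have e := hσ y ⟨s, hs2⟩
      rw [hs2] at e
      rw [← injSr _ _ e]
      exact abs_le.1 hs1
    refine isCompact_Icc.tendsto_nhds_of_unique_mapClusterPt hmem (fun x _ hx => ?_)
    obtain ⟨W, hW1, hW2⟩ := mapClusterPt_iff_ultrafilter.1 hx
    have he : ∀ᶠ y : ℝ in (W : Filter ℝ), V (y : ℂ) = S (σ y : ℂ) := by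
      refine hW1 ?_
      filter_upwards [h2] with y hy
      obtain ⟨s, -, hs2⟩ := hy
      exact hσ y ⟨s, hs2⟩
    have e := iso_lim dV.continuous h.dS.continuous hW1 he hW2
    rw [hJσ t ht] at e
    exact (injSr _ _ e).symm
  have hσne : ∀ t ∈ J, σ t ≠ 0 := by
    intro t ht h0
    have e := hJσ t ht
    have e2 := eV' t
    rw [e, h0, Complex.ofReal_zero, h.GS, mul_zero] at e2
    rw [h0, Complex.ofReal_zero] at e
    have e3 := injVr _ _ (e.trans e2)
    have htpos : 0 < t := by rw [hJ] at ht; exact ht.1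
    rw [eq_div_iff hm0.ne'] at e3
    nlinarith
  -- the point b
  obtain ⟨B, hB⟩ : ∃ B : Set ℝ, B = Set.Ici t0 ∩ Jᶜ := ⟨_, rfl⟩
  have hBcl : IsClosed B := by rw [hB]; exact isClosed_Ici.inter hJo.isClosed_compl
  have hBne : B.Nonempty := by
    obtain ⟨t, ht1, ht2⟩ := hfar t0
    refine ⟨t, ?_⟩
    rw [hB]
    exact ⟨ht1.le, fun htJ => ht2 _ (hJσ t htJ)⟩
  have hBbd : BddBelow B := ⟨t0, fun y hy => by rw [hB] at hy; exact hy.1⟩
  obtain ⟨b, hb⟩ : ∃ b, b = sInf B := ⟨_, rfl⟩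
  have hbB : b ∈ B := by rw [hb]; exact hBcl.csInf_mem hBne hBbd
  have hbB' := hbB
  rw [hB] at hbB'
  obtain ⟨hb0, hbJ⟩ := hbB'
  have hb0' : t0 ≤ b := hb0
  have hbt : t0 < b := by
    rcases hb0'.eq_or_lt with e | e
    · exact absurd (e ▸ ht0J) hbJ
    · exact e
  have hlt : ∀ t, t0 ≤ t → t < b → t ∈ J := by
    intro t h1 h2
    by_contra h3
    have : t ∈ B := by rw [hB]; exact ⟨h1, h3⟩
    have := csInf_le hBbd this
    rw [← hb] at this
    linarith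
  -- unboundedness near b
  have hunb : ∀ M : ℝ, ∃ t, t0 ≤ t ∧ t < b ∧ M ≤ |σ t| := by
    intro M
    by_contra hcon
    push Not at hcon
    apply hbJ
    rw [hJ]
    refine ⟨by linarith, ?_⟩
    obtain ⟨W, hW⟩ : ∃ W : Ultrafilter ℝ, (W : Filter ℝ) ≤ 𝓝[<] b :=
      ⟨Ultrafilter.of (𝓝[<] b), Ultrafilter.of_le _⟩
    have hW1 : ∀ᶠ t in (W : Filter ℝ), t < b := hW self_mem_nhdsWithin
    have hWb : (W : Filter ℝ) ≤ 𝓝 b := hW.trans nhdsWithin_le_nhds
    have hW2 : ∀ᶠ t in (W : Filter ℝ), t0 < t := hWb (eventually_gt_nhds hbt)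
    have hW3 : ∀ᶠ t in (W : Filter ℝ), σ t ∈ Set.Icc (-M) M := by
      filter_upwards [hW1, hW2] with t h1 h2
      exact abs_le.1 (hcon t h2.le h1).le
    have hW4 : ∀ᶠ t : ℝ in (W : Filter ℝ), V (t : ℂ) = S (σ t : ℂ) := by
      filter_upwards [hW1, hW2] with t h1 h2
      exact hJσ t (hlt t h2.le h1)
    obtain ⟨s1, -, hs1⟩ := (isCompact_Icc (a := -M) (b := M)).ultrafilter_le_nhds
      (Ultrafilter.map σ W) (by
        rw [Filter.le_principal_iff]
        exact hW3)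
    have hs1' : Tendsto σ (W : Filter ℝ) (𝓝 s1) := hs1
    have e := iso_lim dV.continuous h.dS.continuous hWb hW4 hs1'
    refine iso1 h hc dV cV e (fun ε hε => ?_)
    have hW5 : ∀ᶠ t in (W : Filter ℝ), |t - b| < ε := by
      refine hWb ?_
      have := Metric.ball_mem_nhds b hε
      filter_upwards [this] with t ht
      rwa [Metric.mem_ball, Real.dist_eq] at ht
    have hW6 : ∀ᶠ t in (W : Filter ℝ), |σ t - s1| < ε := by
      have := hs1'.eventually (Metric.ball_mem_nhds s1 hε)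
      filter_upwards [this] with t ht
      rwa [Real.dist_eq] at ht
    obtain ⟨t, k1, k4, k5, k6⟩ := (hW1.and (hW4.and (hW5.and hW6))).exists
    exact ⟨t, σ t, k1.ne, k5, k6, k4⟩
  -- the conclusion
  have hν1 : 1 < ν⁻¹ := (one_lt_inv₀ h.nu0).2 h.nu1
  obtain ⟨t2, h2a, h2b, h2c⟩ := hunb (ν⁻¹ * |σ t0|)
  have hcont : ContinuousOn σ (Set.Icc t0 t2) := fun t ht =>
    (hσc t (hlt t ht.1 (lt_of_le_of_lt ht.2 h2b))).continuousWithinAt
  have hge : |σ t0| ≤ ν⁻¹ * |σ t0| := by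
    have := abs_nonneg (σ t0)
    nlinarith
  obtain ⟨t', ht', ht'e⟩ := intermediate_value_Icc h2a hcont.abs ⟨hge, h2c⟩
  have ht'e' : |σ t'| = ν⁻¹ * |σ t0| := ht'e
  have hsame : σ t' = ν⁻¹ * σ t0 := by
    have hcont' : ContinuousOn σ (Set.Icc t0 t') := hcont.mono (Set.Icc_subset_Icc_right ht'.2)
    have hz : ∀ t ∈ Set.Icc t0 t', σ t ≠ 0 := fun t ht =>
      hσne t (hlt t ht.1 (lt_of_le_of_lt (ht.2.trans ht'.2) h2b))
    rcases lt_or_gt_of_ne (hσne t0 ht0J) with hneg | hpos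
    · have hneg' : σ t' < 0 := by
        by_contra hcon
        obtain ⟨x, hx, hx0⟩ := intermediate_value_Icc ht'.1 hcont' ⟨hneg.le, not_lt.1 hcon⟩
        exact hz x hx hx0
      rw [abs_of_neg hneg, abs_of_neg hneg'] at ht'e'
      linarith
    · have hpos' : 0 < σ t' := by
        by_contra hcon
        obtain ⟨x, hx, hx0⟩ := intermediate_value_Icc' ht'.1 hcont'
          ⟨not_lt.1 hcon, le_of_lt hpos⟩
        exact hz x hx hx0
      rw [abs_of_pos hpos, abs_of_pos hpos'] at ht'e'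
      exact ht'e'
  have ht'J : t' ∈ J := hlt t' ht'.1 (lt_of_le_of_lt ht'.2 h2b)
  have e1 := hJσ t' ht'J
  rw [hsame, Complex.ofReal_mul, ← h.GS, ← hJσ t0 ht0J, eV'] at e1
  have e2 := injVr _ _ e1
  have e3 : t0 / m < t0 := div_lt_self ht0pos hm
  have e4 : t0 ≤ t' := ht'.1
  linarith

/-- Version for intervals on one side of 0, of either sign. -/
theorem iso_both (h : IsSad F G p μ ν U S) (hc : IsChart F p μ ν U S χ r C) {V : ℂ → ℂ × ℂ}
    (dV : Differentiable ℂ V) (cV : ∀ t, V (starRingEnd ℂ t) = cj (V t))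
    (iV : Function.Injective V) {m : ℝ} (hm : 1 < m) (eV : ∀ t, G (V ((m : ℂ) * t)) = V t)
    {α β α' β' : ℝ} (hαβ : α < β) (hαβ' : 0 < α * β)
    (hfar : ∀ k : ℕ, ∀ s : ℝ, V (((m ^ k * α : ℝ) : ℂ)) ≠ S (s : ℂ)) :
    {t : ℝ | t ∈ Set.Icc α β ∧ ∃ s ∈ Set.Icc α' β', V (t : ℂ) = S (s : ℂ)}.Finite := by
  rcases lt_or_ge 0 α with hα | hα
  · refine iso h hc dV cV iV hm eV hα ?_
    intro T
    obtain ⟨k, hk⟩ := pow_unbounded_of_one_lt (|T| / α) hm
    refine ⟨m ^ k * α, ?_, hfar k⟩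
    have := (div_lt_iff₀ hα).1 hk
    exact lt_of_le_of_lt (le_abs_self T) this
  · have hα0 : α < 0 := lt_of_le_of_ne hα (fun e => by simp [e] at hαβ')
    have hβ0 : β < 0 := by nlinarith
    have dV' : Differentiable ℂ (fun t => V (-t)) := dV.comp differentiable_neg
    have key := iso h hc (V := fun t => V (-t)) dV'
      (fun t => by rw [← cV]; simp) (fun x y e => neg_injective (iV e)) hm
      (fun t => by
        have := eV (-t)
        rw [show (m : ℂ) * -t = -((m : ℂ) * t) by ring] at this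
        exact this) (α := -β) (β := -α) (α' := α') (β' := β') (by linarith) (by
        intro T
        obtain ⟨k, hk⟩ := pow_unbounded_of_one_lt (|T| / (-α)) hm
        refine ⟨m ^ k * (-α), ?_, ?_⟩
        · have := (div_lt_iff₀ (by linarith : 0 < -α)).1 hk
          exact lt_of_le_of_lt (le_abs_self T) this
        · intro s
          have := hfar k s
          simpa using this)
    refine (key.image (fun t => -t)).subset ?_
    rintro t ⟨⟨h1, h2⟩, s, hs, hVs⟩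
    refine ⟨-t, ⟨⟨by linarith, by linarith⟩, s, hs, ?_⟩, by simp⟩
    simpa using hVs

end Pool.Agent.H53.HN
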