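import Pool.Agent.H53.HN.Ind

/-! # Two linked loops (helper53, folder HN)

PROOF. Write A, B for the images of [0,1] (compact sets). Suppose both alternatives fail: (a) ind γA z = 0 for z in B, z not in A; (b) ind γB z = 0 for z in A, z not in B.
 Let CA = `connectedComponentIn (Aᶜ) o`, CB = `connectedComponentIn (Bᶜ) o`. By `ind_const` ind γA = ind γA o, not 0, on CA, so CA does not meet B (a point of B in CA is not in A and has nonzero index: contradicts (a)). So CA is a preconnected subset of the
 complement of B containing o: CA ⊆ CB (`IsPreconnected.subset_connectedComponentIn`). Symmetrically CB ⊆ CA. So C := CA = CB.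
 C is open (`IsOpen.connectedComponentIn`, the complement of a compact set is open). C is bounded: if ‖z‖ > all |γA| then `ind_far` gives index 0. The frontier of C lies in A: a point z of closure C that is not in A has a ball around it in the complement of A,
 this ball meets C, so it lies in the component C, so z in C = interior C. Similarly the frontier lies in B. So the frontier of C is contained in the finite set A ∩ B.
 W := (A ∩ B)ᶜ is connected (`Set.Countable.isPathConnected_compl_of_one_lt_rank`, rank of the complex line over the reals is 2; or `Set.Countable.isConnected_compl_of_one_lt_rank`). C ⊆ W is open, W \ C = W \ closure C is open too (frontier C is disjoint from W), C is nonempty,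
 W \ C is nonempty (C is bounded, W contains points of arbitrarily large norm). This contradicts `isPreconnected` of W.
-/

set_option autoImplicit false

namespace Pool.Agent.H53.HN

private lemma link_sub {γA γB : ℝ → ℂ} (hA : ContinuousOn γA (Set.Icc 0 1))
    (cA : γA 0 = γA 1) {o : ℂ} (iA : ind γA o ≠ 0)
    (hoA : o ∉ γA '' Set.Icc 0 1)
    (h : ∀ z ∈ γB '' Set.Icc 0 1, z ∉ γA '' Set.Icc 0 1 → ind γA z = 0) :
    connectedComponentIn (γA '' Set.Icc 0 1)ᶜ o ⊆ connectedComponentIn (γB '' Set.Icc 0 1)ᶜ o := by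
  have ho : o ∈ connectedComponentIn (γA '' Set.Icc 0 1)ᶜ o := mem_connectedComponentIn hoA
  apply isPreconnected_connectedComponentIn.subset_connectedComponentIn ho
  intro z hz hzB
  have hzA : z ∉ γA '' Set.Icc 0 1 := connectedComponentIn_subset _ _ hz
  have h1 := h z hzB hzA
  have h2 := ind_const hA cA (isPreconnected_connectedComponentIn
    (x := o) (F := (γA '' Set.Icc 0 1)ᶜ)) (fun w hw t ht he =>
      connectedComponentIn_subset _ _ hw ⟨t, ht, he⟩) hz ho
  exact iA (h2 ▸ h1)

private lemma link_cl {A : Set ℂ} (hA : IsClosed A) {o z : ℂ}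
    (hz : z ∈ closure (connectedComponentIn Aᶜ o)) (hzA : z ∉ A) :
    z ∈ connectedComponentIn Aᶜ o := by
  have hzD : z ∈ connectedComponentIn Aᶜ z := mem_connectedComponentIn hzA
  have hDo : IsOpen (connectedComponentIn Aᶜ z) := hA.isOpen_compl.connectedComponentIn
  obtain ⟨y, hy1, hy2⟩ := mem_closure_iff.1 hz _ hDo hzD
  rw [connectedComponentIn_eq hy2, ← connectedComponentIn_eq hy1]
  exact hzD

theorem link {γA γB : ℝ → ℂ} (hA : ContinuousOn γA (Set.Icc 0 1))
    (hB : ContinuousOn γB (Set.Icc 0 1)) (cA : γA 0 = γA 1) (cB : γB 0 = γB 1) {o : ℂ}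
    (hoA : ∀ t ∈ Set.Icc (0 : ℝ) 1, γA t ≠ o) (hoB : ∀ t ∈ Set.Icc (0 : ℝ) 1, γB t ≠ o)
    (iA : ind γA o ≠ 0) (iB : ind γB o ≠ 0)
    (hfin : ((γA '' Set.Icc 0 1) ∩ (γB '' Set.Icc 0 1)).Finite) :
    (∃ z ∈ γB '' Set.Icc 0 1, z ∉ γA '' Set.Icc 0 1 ∧ ind γA z ≠ 0) ∨
      (∃ z ∈ γA '' Set.Icc 0 1, z ∉ γB '' Set.Icc 0 1 ∧ ind γB z ≠ 0) := by
  by_contra hcon
  push Not at hcon
  obtain ⟨ha, hb⟩ := hcon
  have hoA' : o ∉ γA '' Set.Icc 0 1 := by
    rintro ⟨t, ht, he⟩
    exact hoA t ht he
  have hoB' : o ∉ γB '' Set.Icc 0 1 := by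
    rintro ⟨t, ht, he⟩
    exact hoB t ht he
  have hAc : IsCompact (γA '' Set.Icc 0 1) := isCompact_Icc.image_of_continuousOn hA
  have hBc : IsCompact (γB '' Set.Icc 0 1) := isCompact_Icc.image_of_continuousOn hB
  have hsub1 := link_sub hA cA iA hoA' ha
  have hsub2 := link_sub hB cB iB hoB' hb
  set C := connectedComponentIn (γA '' Set.Icc 0 1)ᶜ o with hC
  have hCB : C = connectedComponentIn (γB '' Set.Icc 0 1)ᶜ o := Set.Subset.antisymm hsub1 hsub2
  have hoC : o ∈ C := mem_connectedComponentIn hoA'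
  have hCo : IsOpen C := hAc.isClosed.isOpen_compl.connectedComponentIn
  obtain ⟨K, hK⟩ := hAc.isBounded.exists_norm_le
  have hCK : C ⊆ Metric.closedBall 0 K := by
    intro z hz
    rw [mem_closedBall_zero_iff]
    by_contra hlt
    push Not at hlt
    have h1 := ind_far hA cA (z := z) (fun s hs => (hK _ ⟨s, hs, rfl⟩).trans_lt hlt)
    have h2 := ind_const hA cA (isPreconnected_connectedComponentIn
      (x := o) (F := (γA '' Set.Icc 0 1)ᶜ)) (fun w hw t ht he =>
      connectedComponentIn_subset _ _ hw ⟨t, ht, he⟩) hz hoC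
    exact iA (h2 ▸ h1)
  have hfr : ∀ z, z ∈ closure C → z ∉ C → z ∈ (γA '' Set.Icc 0 1) ∩ (γB '' Set.Icc 0 1) := by
    intro z hz hzC
    refine ⟨?_, ?_⟩
    · by_contra h
      exact hzC (link_cl hAc.isClosed hz h)
    · by_contra h
      rw [hCB] at hz hzC
      exact hzC (link_cl hBc.isClosed hz h)
  have hW : IsPreconnected ((γA '' Set.Icc 0 1) ∩ (γB '' Set.Icc 0 1))ᶜ := by
    apply IsConnected.isPreconnected
    apply Set.Countable.isConnected_compl_of_one_lt_rank
    · rw [Complex.rank_real_complex]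
      norm_num
    · exact hfin.countable
  have hKn : ‖(((|K| + 1 : ℝ)) : ℂ)‖ = |K| + 1 := by
    rw [Complex.norm_real, Real.norm_eq_abs, abs_of_pos (by positivity)]
  have hKlt : K < |K| + 1 := by linarith [le_abs_self K]
  have h1 := hW C (closure C)ᶜ hCo isClosed_closure.isOpen_compl
    (fun z hz => by
      by_cases hzC : z ∈ C
      · exact Or.inl hzC
      · exact Or.inr fun hcl => hz (hfr z hcl hzC))
    ⟨o, fun h => hoA' h.1, hoC⟩
    ⟨((|K| + 1 : ℝ) : ℂ), fun h => by
      have := hK _ h.1
      rw [hKn] at this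
      linarith, fun h => by
      have h2 := closure_minimal hCK Metric.isClosed_closedBall h
      rw [mem_closedBall_zero_iff, hKn] at h2
      linarith⟩
  obtain ⟨z, _, hz1, hz2⟩ := h1
  exact hz2 (subset_closure hz1)

end Pool.Agent.H53.HN
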