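import Mathlib

/-! # Sign changes are symmetric (helper53, folder HN)

PROOF. Case x1 ≠ 0: x (t + τ) = x1 τ + o(τ), so x (t - τ) and x (t + τ') have opposite signs for small τ, τ' > 0 (|x(t+h) - x1 h| <= |x1||h|/2 for |h| < ε).
 Case x1 = 0, y1 ≠ 0: the chain rule for Θ(x τ, y τ) = 0 near t gives Θ' (x1, y1) = 0, so Θ' (0,1) = 0 (divide by y1), so A := Θ' (1,0) ≠ 0 (Θ' ≠ 0). Strict differentiability: for points a, a' close to (0,Y): |Θ a - Θ a' - Θ' (a - a')| <= (|A|/2)‖a - a'‖.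
 Take a = (x τ, y τ), a' = (0, y τ), τ near t: Θ a = 0, so |Θ (0, y τ) + A x τ| <= (|A|/2)|x τ|. (*)
 For τ near t, τ ≠ t: y τ ≠ Y (y1 ≠ 0) and y τ close to Y, so Θ (0, y τ) ≠ 0 by hs (a factor of a negative product), so by (*) x τ ≠ 0 and Θ (0, y τ) * (A * x τ) < 0.
 y is on opposite sides of Y at t - τ and t + τ' (y1 ≠ 0): if y1 > 0, y (t-τ) = Y - η, y (t+τ') = Y + η' with small η, η' > 0, and hs gives Θ(0,y(t-τ)) Θ(0,y(t+τ')) < 0; if y1 < 0 exchange the roles. Multiply the two relations: A^2 x(t-τ) x(t+τ') times a negative number is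
 positive, so x(t-τ) x(t+τ') < 0.
-/

set_option autoImplicit false

namespace Pool.Agent.H53.HN

open Filter Topology

private theorem sign_der {f : ℝ → ℝ} {t f0 f1 : ℝ} (hf : HasDerivAt f f1 t) (h0 : f t = f0)
    (h1 : f1 ≠ 0) : ∃ ε : ℝ, 0 < ε ∧ ∀ τ : ℝ, 0 < τ → τ < ε →
      f1 * (f (t - τ) - f0) < 0 ∧ 0 < f1 * (f (t + τ) - f0) := by
  have hA : 0 < |f1| := abs_pos.2 h1
  have hev := (hasDerivAt_iff_isLittleO.1 hf).def (c := |f1| / 2) (by positivity)
  obtain ⟨ε, hε, H⟩ := Metric.eventually_nhds_iff.1 hev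
  have hsq : 0 < f1 ^ 2 := by positivity
  refine ⟨ε, hε, fun τ hτ hτε => ⟨?_, ?_⟩⟩
  · have := H (y := t - τ) (by rw [Real.dist_eq]; simpa [abs_of_pos hτ] using hτε)
    rw [h0, Real.norm_eq_abs, Real.norm_eq_abs, smul_eq_mul] at this
    have e : |t - τ - t| = τ := by
      rw [show t - τ - t = -τ by ring, abs_neg, abs_of_pos hτ]
    rw [e] at this
    have h2 : |f1 * (f (t - τ) - f0 - (t - τ - t) * f1)| ≤ f1 ^ 2 / 2 * τ := by
      rw [abs_mul]
      calc |f1| * |f (t - τ) - f0 - (t - τ - t) * f1| ≤ |f1| * (|f1| / 2 * τ) := by gcongr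
        _ = |f1| ^ 2 / 2 * τ := by ring
        _ = f1 ^ 2 / 2 * τ := by rw [sq_abs]
    have h3 := (abs_le.1 h2).2
    have h4 : 0 < f1 ^ 2 * τ := by positivity
    nlinarith
  · have := H (y := t + τ) (by rw [Real.dist_eq]; simpa [abs_of_pos hτ] using hτε)
    rw [h0, Real.norm_eq_abs, Real.norm_eq_abs, smul_eq_mul] at this
    have e : |t + τ - t| = τ := by
      rw [show t + τ - t = τ by ring, abs_of_pos hτ]
    rw [e] at this
    have h2 : |f1 * (f (t + τ) - f0 - (t + τ - t) * f1)| ≤ f1 ^ 2 / 2 * τ := by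
      rw [abs_mul]
      calc |f1| * |f (t + τ) - f0 - (t + τ - t) * f1| ≤ |f1| * (|f1| / 2 * τ) := by gcongr
        _ = |f1| ^ 2 / 2 * τ := by ring
        _ = f1 ^ 2 / 2 * τ := by rw [sq_abs]
    have h3 := (abs_le.1 h2).1
    have h4 : 0 < f1 ^ 2 * τ := by positivity
    nlinarith

private theorem opp {A a u : ℝ} (ha : a ≠ 0) (h : |a + A * u| ≤ |A| / 2 * |u|) :
    a * (A * u) < 0 := by
  have h1 : |a + A * u| ≤ |A * u| / 2 := by rw [abs_mul]; linarith
  have h2 : A * u ≠ 0 := by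
    intro h0
    rw [h0, add_zero, abs_zero, zero_div] at h1
    exact ha (abs_nonpos_iff.1 h1)
  have h3 : |(a + A * u) * (A * u)| ≤ (A * u) ^ 2 / 2 := by
    rw [abs_mul]
    calc |a + A * u| * |A * u| ≤ |A * u| / 2 * |A * u| := by gcongr
      _ = |A * u| ^ 2 / 2 := by ring
      _ = (A * u) ^ 2 / 2 := by rw [sq_abs]
  have h4 := (abs_le.1 h3).2
  have h5 : 0 < (A * u) ^ 2 := by positivity
  nlinarith

theorem sym_sign {x y : ℝ → ℝ} {t Y x1 y1 : ℝ} (hx : HasDerivAt x x1 t) (hy : HasDerivAt y y1 t)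
    (hx0 : x t = 0) (hy0 : y t = Y) (hreg : x1 ≠ 0 ∨ y1 ≠ 0) {Θ : ℝ × ℝ → ℝ}
    {Θ' : ℝ × ℝ →L[ℝ] ℝ} (hΘ : HasStrictFDerivAt Θ Θ' (0, Y)) (hne : Θ' ≠ 0)
    (h0 : ∀ᶠ τ in 𝓝 t, Θ (x τ, y τ) = 0)
    (hs : ∃ ε : ℝ, 0 < ε ∧ ∀ τ τ' : ℝ, 0 < τ → τ < ε → 0 < τ' → τ' < ε →
      Θ (0, Y - τ) * Θ (0, Y + τ') < 0) :
    ∃ ε : ℝ, 0 < ε ∧ ∀ τ τ' : ℝ, 0 < τ → τ < ε → 0 < τ' → τ' < ε →
      x (t - τ) * x (t + τ') < 0 := by
  by_cases hx1 : x1 = 0
  swap
  · obtain ⟨ε, hε, H⟩ := sign_der hx hx0 hx1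
    refine ⟨ε, hε, fun τ τ' h1 h2 h3 h4 => ?_⟩
    have e1 := (H τ h1 h2).1
    have e2 := (H τ' h3 h4).2
    rw [sub_zero] at e1 e2
    have e3 := mul_neg_of_neg_of_pos e1 e2
    have e4 : 0 < x1 ^ 2 := by positivity
    by_contra hc
    push Not at hc
    nlinarith [mul_nonneg e4.le hc]
  have hy1 : y1 ≠ 0 := hreg.resolve_left (not_not.2 hx1)
  -- the derivative of Θ in the direction (0,1) vanishes
  have hpair : HasDerivAt (fun τ => (x τ, y τ)) (x1, y1) t := hx.prodMk hy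
  have hΘd : HasFDerivAt Θ Θ' (x t, y t) := by rw [hx0, hy0]; exact hΘ.hasFDerivAt
  have hcomp : HasDerivAt (fun τ => Θ (x τ, y τ)) (Θ' (x1, y1)) t :=
    hΘd.comp_hasDerivAt t hpair
  have hzero : HasDerivAt (fun τ => Θ (x τ, y τ)) 0 t :=
    (hasDerivAt_const t (0 : ℝ)).congr_of_eventuallyEq h0
  have h01 : Θ' (0, 1) = 0 := by
    have h1 := hcomp.unique hzero
    rw [hx1] at h1
    have h2 : ((0 : ℝ), y1) = y1 • ((0 : ℝ), (1 : ℝ)) := by simp
    rw [h2, map_smul, smul_eq_mul] at h1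
    exact (mul_eq_zero.1 h1).resolve_left hy1
  set A : ℝ := Θ' (1, 0) with hA
  have hA0 : A ≠ 0 := by
    intro h
    apply hne
    ext
    · simpa [hA] using h
    · simpa using h01
  -- strict differentiability
  have hcont : ContinuousAt (fun τ : ℝ => (((x τ, y τ) : ℝ × ℝ), ((0, y τ) : ℝ × ℝ))) t :=
    (hx.continuousAt.prodMk hy.continuousAt).prodMk (continuousAt_const.prodMk hy.continuousAt)
  have hstrict := (hΘ.isLittleO.def (c := |A| / 2) (by positivity))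
  have hlim : Tendsto (fun τ : ℝ => (((x τ, y τ) : ℝ × ℝ), ((0, y τ) : ℝ × ℝ))) (𝓝 t)
      (𝓝 (((0, Y) : ℝ × ℝ), ((0, Y) : ℝ × ℝ))) := by
    have := hcont.tendsto
    rwa [hx0, hy0] at this
  have hev := (hlim.eventually hstrict).and h0
  obtain ⟨ε1, hε1, H1⟩ := Metric.eventually_nhds_iff.1 hev
  have hstar : ∀ τ : ℝ, |τ - t| < ε1 → |Θ (0, y τ) + A * x τ| ≤ |A| / 2 * |x τ| := by
    intro τ hτ
    obtain ⟨h1, h2⟩ := H1 (y := τ) (by rwa [Real.dist_eq])
    have e1 : ((x τ, y τ) : ℝ × ℝ) - (0, y τ) = x τ • ((1 : ℝ), (0 : ℝ)) := by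
      ext <;> simp
    rw [e1, h2, map_smul, norm_smul, smul_eq_mul, ← hA] at h1
    have e2 : ‖((1 : ℝ), (0 : ℝ))‖ = 1 := by simp [Prod.norm_def]
    rw [e2, mul_one, Real.norm_eq_abs, Real.norm_eq_abs] at h1
    rw [← abs_neg]
    convert h1 using 2
    ring
  obtain ⟨ε0, hε0, H0⟩ := hs
  obtain ⟨ε2, hε2, H2⟩ := sign_der hy hy0 hy1
  obtain ⟨ε3, hε3, H3⟩ := Metric.continuousAt_iff.1 hy.continuousAt ε0 hε0
  refine ⟨min ε1 (min ε2 ε3), lt_min hε1 (lt_min hε2 hε3), fun τ τ' t1 t2 t3 t4 => ?_⟩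
  have a1 : τ < ε1 := t2.trans_le (min_le_left _ _)
  have a2 : τ < ε2 := t2.trans_le ((min_le_right _ _).trans (min_le_left _ _))
  have a3 : τ < ε3 := t2.trans_le ((min_le_right _ _).trans (min_le_right _ _))
  have b1 : τ' < ε1 := t4.trans_le (min_le_left _ _)
  have b2 : τ' < ε2 := t4.trans_le ((min_le_right _ _).trans (min_le_left _ _))
  have b3 : τ' < ε3 := t4.trans_le ((min_le_right _ _).trans (min_le_right _ _))
  have s1 := hstar (t - τ) (by
    rw [show t - τ - t = -τ by ring, abs_neg, abs_of_pos t1]; exact a1)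
  have s2 := hstar (t + τ') (by
    rw [show t + τ' - t = τ' by ring, abs_of_pos t3]; exact b1)
  have d1 := (H2 τ t1 a2).1
  have d2 := (H2 τ' t3 b2).2
  have c1 := H3 (x := t - τ) (by
    rw [Real.dist_eq, show t - τ - t = -τ by ring, abs_neg, abs_of_pos t1]; exact a3)
  have c2 := H3 (x := t + τ') (by
    rw [Real.dist_eq, show t + τ' - t = τ' by ring, abs_of_pos t3]; exact b3)
  rw [Real.dist_eq, hy0] at c1 c2
  obtain ⟨c11, c12⟩ := abs_lt.1 c1
  obtain ⟨c21, c22⟩ := abs_lt.1 c2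
  have hab : Θ (0, y (t - τ)) * Θ (0, y (t + τ')) < 0 := by
    rcases lt_or_gt_of_ne hy1 with hn | hp
    · have e1 : 0 < y (t - τ) - Y := by
        by_contra hc
        push Not at hc
        nlinarith [mul_nonneg_of_nonpos_of_nonpos hn.le hc]
      have e2 : y (t + τ') - Y < 0 := by
        by_contra hc
        push Not at hc
        nlinarith [mul_nonpos_of_nonpos_of_nonneg hn.le hc]
      have := H0 (Y - y (t + τ')) (y (t - τ) - Y) (by linarith) (by linarith) e1 (by linarith)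
      rw [show Y - (Y - y (t + τ')) = y (t + τ') by ring,
        show Y + (y (t - τ) - Y) = y (t - τ) by ring] at this
      linarith
    · have e1 : y (t - τ) - Y < 0 := by
        by_contra hc
        push Not at hc
        nlinarith [mul_nonneg hp.le hc]
      have e2 : 0 < y (t + τ') - Y := by
        by_contra hc
        push Not at hc
        nlinarith [mul_nonpos_of_nonneg_of_nonpos hp.le hc]
      have := H0 (Y - y (t - τ)) (y (t + τ') - Y) (by linarith) (by linarith) e2 (by linarith)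
      rw [show Y - (Y - y (t - τ)) = y (t - τ) by ring,
        show Y + (y (t + τ') - Y) = y (t + τ') by ring] at this
      exact this
  have ha : Θ (0, y (t - τ)) ≠ 0 := left_ne_zero_of_mul hab.ne
  have hb : Θ (0, y (t + τ')) ≠ 0 := right_ne_zero_of_mul hab.ne
  have o1 := opp ha s1
  have o2 := opp hb s2
  have o3 := mul_pos_of_neg_of_neg o1 o2
  have hA2 : 0 < A ^ 2 := by positivity
  by_contra hc
  push Not at hc
  have o4 : (Θ (0, y (t - τ)) * Θ (0, y (t + τ'))) * (A ^ 2 * (x (t - τ) * x (t + τ'))) ≤ 0 :=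
    mul_nonpos_of_nonpos_of_nonneg hab.le (mul_nonneg hA2.le hc)
  nlinarith

end Pool.Agent.H53.HN
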