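import Pool.Agent.H53.HN.ChartApi
import Pool.Agent.H53.HN.Sym

/-! # The crossing condition is symmetric (helper53, folder HN)

PROOF. z = U' t = S s. Choose j with ν^j |s| < r, Y = ν^j s; F^[j] z = S (ν^j s) = χ (0, Y). Q τ := χ.symm (F^[j] (U' τ)) for complex τ near t, analytic at t; for real τ near t, F^[j] (U' τ) is fixed by cj, in the target, with coordinates of norm < r (`chart_loc`), so Q τ has real coordinates (hc.real).
 x τ := (Q τ).1.re, y τ := (Q τ).2.re, x t = 0, y t = Y (`chart_symm`). HasDerivAt x x1 t, HasDerivAt y y1 t with (x1, y1) real parts of the complex derivative D = DQ-of-the-chart applied to deriv U' t; the coordinates of D are real (limits of real difference quotients), and D ≠ 0 by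
 `chart_diff` (injective derivative) and `dU_ne`. So (x1,y1) ≠ 0.
 From hX: i with μ'^-i |t| < r', G^[i] (U' t) = U' (μ'^-i t) = χ' (0, μ'^-i t) (hq.symm: for the pair (G, F) the stable manifold of q is U', `chart_S` for the chart χ').
 Θ (X, Y') := (χ'.symm (G^[i] (G^[j] (χ (X, Y'))))).1.re for real X, Y'. The complex map Λ w = (χ'.symm (G^[i] (G^[j] (χ w)))).1 is analytic at w0 = (0,Y): χ is differentiable on its open source (hc.app), G^[j] (χ w0) = G^[j] (F^[j] z) = z, `chart_diff` for the chart χ' at z.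
 Its derivative at w0 is not 0: w -> χ'.symm (G^[i] (G^[j] (χ w))) has bijective derivative (injective composition: χ has injective derivative at w0 because χ.symm is differentiable and χ.symm o χ = id near w0; G^[j] has inverse F^[j]; `chart_diff` for χ'; dimension 2), so its first component
 is a nonzero functional. Λ is real on real points near w0 (hc', reality), so the real functional Θ' = restriction is nonzero and Θ is strictly differentiable at (0,Y) (real and imaginary parts; ContDiffAt.hasStrictFDerivAt).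
 h0: for real τ near t: χ (x τ, y τ) = F^[j] (U' τ), G^[j] gives U' τ, G^[i] (U' τ) = U' (μ'^-i τ) = χ' (0, μ'^-i τ) (norm < r' near t), so Λ = 0.
 hs: Θ(0, Y ∓ τ): χ (0, Y ∓ τ) = S (Y ∓ τ), G^[j] gives S (s ∓ ν^-j τ), and Θ (0, Y ∓ τ) = (χ'.symm (G^[i] (S (s ∓ ν^-j τ)))).1.re: the product is negative by hX for small τ.
 `sym_sign` gives the sign condition of CrossAt F χ ν r U' S t s with the index j.
-/

set_option autoImplicit false

namespace Pool.Agent.H53.HN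

open Filter Topology

variable {F G : ℂ × ℂ → ℂ × ℂ} {p q : ℝ × ℝ} {μ ν μ' ν' r r' C C' : ℝ} {U S U' S' : ℂ → ℂ × ℂ}
  {χ χ' : OpenPartialHomeomorph (ℂ × ℂ) (ℂ × ℂ)}

private theorem ofReal_pair_of_cj {w : ℂ × ℂ} (h : cj w = w) :
    ((w.1.re : ℂ), (w.2.re : ℂ)) = w := by
  have h1 : starRingEnd ℂ w.1 = w.1 := congrArg Prod.fst h
  have h2 : starRingEnd ℂ w.2 = w.2 := congrArg Prod.snd h
  exact Prod.ext (Complex.conj_eq_iff_re.1 h1) (Complex.conj_eq_iff_re.1 h2)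

private theorem im_of_cj {w : ℂ × ℂ} (h : cj w = w) : w.1.im = 0 ∧ w.2.im = 0 :=
  ⟨Complex.conj_eq_iff_im.1 (congrArg Prod.fst h), Complex.conj_eq_iff_im.1 (congrArg Prod.snd h)⟩

/-- Coordinates of a point near a chart point, in the real plane. -/
private theorem chart_fix (hp : IsSad F G p μ ν U S) (hc : IsChart F p μ ν U S χ r C)
    {z : ℂ × ℂ} {j : ℕ} (hz : cj z = z) (h1 : F^[j] z ∈ χ.target)
    (h2 : ‖(χ.symm (F^[j] z)).1‖ < r) (h3 : ‖(χ.symm (F^[j] z)).2‖ < r) :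
    cj (χ.symm (F^[j] z)) = χ.symm (F^[j] z) := by
  have e1 : χ (χ.symm (F^[j] z)) = F^[j] z := χ.right_inv h1
  refine hc.real _ h2 h3 ?_
  rw [e1, ← cj_iter hp.cF, hz]

/-- The continuous real linear inclusion of the real plane. -/
private noncomputable def ioL : ℝ × ℝ →L[ℝ] ℂ × ℂ :=
  (Complex.ofRealCLM.comp (ContinuousLinearMap.fst ℝ ℝ ℝ)).prod
    (Complex.ofRealCLM.comp (ContinuousLinearMap.snd ℝ ℝ ℝ))

private theorem ioL_apply (q : ℝ × ℝ) : ioL q = ((q.1 : ℂ), (q.2 : ℂ)) := rfl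

private theorem exists_pow_mul_lt {a R : ℝ} (ha : 0 < a) (ha1 : a < 1) (hR : 0 < R) (x : ℝ) :
    ∃ j : ℕ, a ^ j * |x| < R := by
  have ht : Tendsto (fun j : ℕ => a ^ j * |x|) atTop (𝓝 (0 * |x|)) :=
    (tendsto_pow_atTop_nhds_zero_of_lt_one ha.le ha1).mul_const _
  rw [zero_mul] at ht
  exact (ht.eventually_lt_const hR).exists

theorem sym_cross (hp : IsSad F G p μ ν U S) (hc : IsChart F p μ ν U S χ r C)
    (hq : IsSad F G q μ' ν' U' S') (hc' : IsChart G q ν'⁻¹ μ'⁻¹ S' U' χ' r' C') {t s : ℝ}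
    (hX : CrossAt G χ' μ'⁻¹ r' S U' s t) : CrossAt F χ ν r U' S t s := by
  obtain ⟨hST, i, hi, ε0, hε0, hneg⟩ := hX
  obtain ⟨j, hj⟩ := exists_pow_mul_lt hp.nu0 hp.nu1 hc.r0 s
  have hνj : 0 < ν ^ j := pow_pos hp.nu0 j
  refine ⟨hST.symm, j, hj, ?_⟩
  obtain ⟨Y, hY⟩ : ∃ Y : ℝ, Y = ν ^ j * s := ⟨_, rfl⟩
  have hYr : |Y| < r := by
    rw [hY, abs_mul, abs_of_pos hνj]; exact hj
  obtain ⟨z, hz⟩ : ∃ z : ℂ × ℂ, z = U' (t : ℂ) := ⟨_, rfl⟩
  have hzS : z = S (s : ℂ) := by rw [hz, hST]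
  have hFS : ∀ x : ℝ, F^[j] (S (x : ℂ)) = S ((ν ^ j * x : ℝ) : ℂ) := by
    intro x
    rw [hp.iterS]
    congr 1
    push_cast
    ring
  have hchS : ∀ y : ℝ, |y| < r → χ ((0 : ℂ), (y : ℂ)) = S (y : ℂ) := by
    intro y hy
    exact chart_S hp hc (by rw [Complex.norm_real]; exact hy)
  have hchU : ∀ y : ℝ, |y| < r' → χ' ((0 : ℂ), (y : ℂ)) = U' (y : ℂ) := by
    intro y hy
    exact chart_S hq.symm hc' (by rw [Complex.norm_real]; exact hy)
  obtain ⟨w0, hw0⟩ : ∃ w0 : ℂ × ℂ, w0 = ((0 : ℂ), (Y : ℂ)) := ⟨_, rfl⟩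
  have hw01 : ‖w0.1‖ < r := by rw [hw0]; simpa using hc.r0
  have hw02 : ‖w0.2‖ < r := by
    rw [hw0]; show ‖(Y : ℂ)‖ < r; rw [Complex.norm_real]; exact hYr
  have hFz : F^[j] z = χ w0 := by
    rw [hzS, hFS, ← hY, hw0, hchS Y hYr]
  have hUcont : ContinuousAt (fun τ : ℝ => U' (τ : ℂ)) t :=
    (hq.dU.continuous.comp Complex.continuous_ofReal).continuousAt
  -- the chart coordinates along U'
  have hloc := chart_loc hp hc hw01 hw02 hFz
  obtain ⟨hQa, hQinj⟩ := chart_diff hp hc hw01 hw02 hFz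
  obtain ⟨Q, hQ⟩ : ∃ Q : ℂ → ℂ × ℂ, ∀ τ, Q τ = χ.symm (F^[j] (U' τ)) := ⟨_, fun _ => rfl⟩
  have hQfun : Q = (fun w => χ.symm (F^[j] w)) ∘ U' := funext hQ
  obtain ⟨D, hD⟩ : ∃ D : ℂ × ℂ,
    D = fderiv ℂ (fun w => χ.symm (F^[j] w)) z (deriv U' (t : ℂ)) := ⟨_, rfl⟩
  have hQd : HasDerivAt Q D (t : ℂ) := by
    rw [hQfun, hD]
    have h1 : HasFDerivAt (fun w => χ.symm (F^[j] w))
        (fderiv ℂ (fun w => χ.symm (F^[j] w)) z) (U' (t : ℂ)) := by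
      rw [← hz]; exact hQa.differentiableAt.hasFDerivAt
    exact h1.comp_hasDerivAt (t : ℂ) (hq.dU _).hasDerivAt
  have hDne : D ≠ 0 := fun h0 => hq.dU_ne (t : ℂ) (hQinj _ (by rw [← hD]; exact h0))
  have hQt : Q (t : ℂ) = w0 := by
    rw [hQ, ← hz, hFz]; exact (chart_symm hc hw01 hw02).2
  have hlocR : ∀ᶠ τ : ℝ in 𝓝 t, F^[j] (U' (τ : ℂ)) ∈ χ.target ∧
      ‖(χ.symm (F^[j] (U' (τ : ℂ)))).1‖ < r ∧ ‖(χ.symm (F^[j] (U' (τ : ℂ)))).2‖ < r := by
    have hloc2 : ∀ᶠ w in 𝓝 (U' (t : ℂ)), F^[j] w ∈ χ.target ∧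
      ‖(χ.symm (F^[j] w)).1‖ < r ∧ ‖(χ.symm (F^[j] w)).2‖ < r := by
      rw [← hz]; exact hloc
    exact hUcont.eventually hloc2
  have hQreal : ∀ᶠ τ : ℝ in 𝓝 t, cj (Q (τ : ℂ)) = Q (τ : ℂ) := by
    filter_upwards [hlocR] with τ hτ
    rw [hQ]
    exact chart_fix hp hc (hq.realU τ) hτ.1 hτ.2.1 hτ.2.2
  have hQ1 : HasDerivAt (fun τ : ℂ => (Q τ).1) D.1 (t : ℂ) :=
    (hasFDerivAt_fst (p := Q (t : ℂ))).comp_hasDerivAt (t : ℂ) hQd
  have hQ2 : HasDerivAt (fun τ : ℂ => (Q τ).2) D.2 (t : ℂ) :=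
    (hasFDerivAt_snd (p := Q (t : ℂ))).comp_hasDerivAt (t : ℂ) hQd
  have hx : HasDerivAt (fun τ : ℝ => (Q (τ : ℂ)).1.re) D.1.re t := hQ1.real_of_complex
  have hy : HasDerivAt (fun τ : ℝ => (Q (τ : ℂ)).2.re) D.2.re t := hQ2.real_of_complex
  have him1 : D.1.im = 0 := by
    have h1 : HasDerivAt (fun τ : ℝ => (Q (τ : ℂ)).1.im) D.1.im t := by
      have h3 := hQ1.comp_ofReal
      have h4 : HasFDerivAt (Complex.imCLM : ℂ → ℝ) Complex.imCLM (Q (t : ℂ)).1 :=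
        Complex.imCLM.hasFDerivAt
      exact h4.comp_hasDerivAt t h3
    have h2 : HasDerivAt (fun _ : ℝ => (0 : ℝ)) D.1.im t :=
      h1.congr_of_eventuallyEq (by
        filter_upwards [hQreal] with τ hτ using (im_of_cj hτ).1.symm)
    exact h2.unique (hasDerivAt_const t 0)
  have him2 : D.2.im = 0 := by
    have h1 : HasDerivAt (fun τ : ℝ => (Q (τ : ℂ)).2.im) D.2.im t := by
      have h3 := hQ2.comp_ofReal
      have h4 : HasFDerivAt (Complex.imCLM : ℂ → ℝ) Complex.imCLM (Q (t : ℂ)).2 :=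
        Complex.imCLM.hasFDerivAt
      exact h4.comp_hasDerivAt t h3
    have h2 : HasDerivAt (fun _ : ℝ => (0 : ℝ)) D.2.im t :=
      h1.congr_of_eventuallyEq (by
        filter_upwards [hQreal] with τ hτ using (im_of_cj hτ).2.symm)
    exact h2.unique (hasDerivAt_const t 0)
  have hreg : D.1.re ≠ 0 ∨ D.2.re ≠ 0 := by
    by_contra hcon
    push Not at hcon
    apply hDne
    exact Prod.ext (Complex.ext hcon.1 him1) (Complex.ext hcon.2 him2)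
  -- the map H
  obtain ⟨v0, hv0⟩ : ∃ v0 : ℂ × ℂ, v0 = ((0 : ℂ), (((μ'⁻¹) ^ i * t : ℝ) : ℂ)) := ⟨_, rfl⟩
  have hμ'0 : 0 < μ'⁻¹ := inv_pos.2 hq.mu0
  have hμi : 0 < μ'⁻¹ ^ i := pow_pos hμ'0 i
  have hv01 : ‖v0.1‖ < r' := by rw [hv0]; simpa using hc'.r0
  have habs : |μ'⁻¹ ^ i * t| < r' := by rw [abs_mul, abs_of_pos hμi]; exact hi
  have hv02 : ‖v0.2‖ < r' := by
    rw [hv0]; show ‖((μ'⁻¹ ^ i * t : ℝ) : ℂ)‖ < r'; rw [Complex.norm_real]; exact habs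
  have hGU : ∀ x : ℝ, G^[i] (U' (x : ℂ)) = U' ((μ'⁻¹ ^ i * x : ℝ) : ℂ) := by
    intro x
    rw [hq.symm.iterS]
    congr 1
    push_cast
    ring
  have hGz : G^[i] z = χ' v0 := by
    rw [hz, hGU, hv0, hchU _ habs]
  obtain ⟨hQa', hQinj'⟩ := chart_diff hq.symm hc' hv01 hv02 hGz
  have hloc' := chart_loc hq.symm hc' hv01 hv02 hGz
  obtain ⟨hχa, hχinj⟩ := chart_ana hp hc hw01 hw02
  have hGjz : G^[j] (χ w0) = z := by rw [← hFz, hp.iterGF]
  have hGja : AnalyticAt ℂ G^[j] (χ w0) := ana_iter hp.aG j _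
  have hGjinj : ∀ v, fderiv ℂ G^[j] (χ w0) v = 0 → v = 0 := by
    intro v hv
    have h5 : HasFDerivAt (fun w => F^[j] (G^[j] w))
        ((fderiv ℂ F^[j] (G^[j] (χ w0))).comp (fderiv ℂ G^[j] (χ w0))) (χ w0) :=
      ((diff_iter hp.dF j) _).hasFDerivAt.comp (χ w0) hGja.differentiableAt.hasFDerivAt
    have h6 : HasFDerivAt (fun w => F^[j] (G^[j] w)) (ContinuousLinearMap.id ℂ (ℂ × ℂ)) (χ w0) :=
      (hasFDerivAt_id (χ w0)).congr_of_eventuallyEq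
        (Filter.Eventually.of_forall fun w => hp.iterFG j w)
    have h8 := congrArg (fun L => L v) (h5.unique h6)
    simp only [ContinuousLinearMap.comp_apply, ContinuousLinearMap.id_apply] at h8
    rw [← h8, hv, map_zero]
  obtain ⟨R, hR⟩ : ∃ R : ℂ × ℂ → ℂ × ℂ, ∀ w, R w = G^[j] (χ w) := ⟨_, fun _ => rfl⟩
  have hRfun : R = G^[j] ∘ χ := funext hR
  have hRa : AnalyticAt ℂ R w0 := by rw [hRfun]; exact hGja.comp hχa
  have hRz : R w0 = z := by rw [hR, hGjz]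
  have hRinj : ∀ v, fderiv ℂ R w0 v = 0 → v = 0 := by
    intro v hv
    have e : fderiv ℂ R w0 = (fderiv ℂ G^[j] (χ w0)).comp (fderiv ℂ χ w0) := by
      rw [hRfun]
      exact (hGja.differentiableAt.hasFDerivAt.comp w0 hχa.differentiableAt.hasFDerivAt).fderiv
    rw [e] at hv
    exact hχinj v (hGjinj _ hv)
  obtain ⟨H, hH⟩ : ∃ H : ℂ × ℂ → ℂ × ℂ, ∀ w, H w = χ'.symm (G^[i] (R w)) := ⟨_, fun _ => rfl⟩
  have hHfun : H = (fun w => χ'.symm (G^[i] w)) ∘ R := funext hH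
  have hQa'' : AnalyticAt ℂ (fun w => χ'.symm (G^[i] w)) (R w0) := by rw [hRz]; exact hQa'
  have hHa : AnalyticAt ℂ H w0 := by rw [hHfun]; exact hQa''.comp hRa
  have hHinj : ∀ v, fderiv ℂ H w0 v = 0 → v = 0 := by
    intro v hv
    have e : fderiv ℂ H w0 =
        (fderiv ℂ (fun w => χ'.symm (G^[i] w)) (R w0)).comp (fderiv ℂ R w0) := by
      rw [hHfun]
      exact (hQa''.differentiableAt.hasFDerivAt.comp w0 hRa.differentiableAt.hasFDerivAt).fderiv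
    rw [e] at hv
    refine hRinj v (hQinj' _ ?_)
    rw [← hRz]; exact hv
  obtain ⟨Λ, hΛ⟩ : ∃ Λ : ℂ × ℂ → ℂ, ∀ w, Λ w = (H w).1 := ⟨_, fun _ => rfl⟩
  have hΛfun : Λ = fun w => (H w).1 := funext hΛ
  have hΛne : fderiv ℂ Λ w0 ≠ 0 := by
    rw [hΛfun]; exact fst_fderiv_ne hHa.differentiableAt hHinj
  have hΛa : AnalyticAt ℂ Λ w0 := by
    rw [hΛfun]; exact analyticAt_fst.comp hHa
  have hio : ioL (0, Y) = w0 := by rw [ioL_apply, hw0]; simp
  have hstr : HasStrictFDerivAt (fun q : ℝ × ℝ => Λ (ioL q))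
      (((fderiv ℂ Λ w0).restrictScalars ℝ).comp ioL) (0, Y) := by
    have h1 : HasStrictFDerivAt Λ ((fderiv ℂ Λ w0).restrictScalars ℝ) (ioL (0, Y)) := by
      rw [hio]; exact hΛa.hasStrictFDerivAt.restrictScalars ℝ
    exact h1.comp (0, Y) ioL.hasStrictFDerivAt
  obtain ⟨Θ, hΘ⟩ : ∃ Θ : ℝ × ℝ → ℝ, ∀ q, Θ q = (Λ (ioL q)).re := ⟨_, fun _ => rfl⟩
  have hΘfun : Θ = fun q => (Λ (ioL q)).re := funext hΘ
  obtain ⟨Θ', hΘ'⟩ : ∃ Θ' : ℝ × ℝ →L[ℝ] ℝ,
    Θ' = Complex.reCLM.comp (((fderiv ℂ Λ w0).restrictScalars ℝ).comp ioL) := ⟨_, rfl⟩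
  have hΘd : HasStrictFDerivAt Θ Θ' (0, Y) := by
    rw [hΘfun, hΘ']
    exact (Complex.reCLM.hasStrictFDerivAt).comp (0, Y) hstr
  -- continuity of R and of H in the real plane
  have hRreal : ∀ q : ℝ × ℝ, |q.1| < r → |q.2| < r → cj (R (ioL q)) = R (ioL q) := by
    intro q h1 h2
    have k1 : ‖(ioL q).1‖ < r := by
      rw [ioL_apply]; show ‖(q.1 : ℂ)‖ < r; rw [Complex.norm_real]; exact h1
    have k2 : ‖(ioL q).2‖ < r := by
      rw [ioL_apply]; show ‖(q.2 : ℂ)‖ < r; rw [Complex.norm_real]; exact h2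
    have k3 : cj (ioL q) = ioL q := by rw [ioL_apply]; simp [cj]
    rw [hR, ← cj_iter hp.cG, chart_real hp hc k1 k2 k3]
  have hcR : ContinuousAt (fun q : ℝ × ℝ => R (ioL q)) (0, Y) := by
    have : ContinuousAt R (ioL (0, Y)) := by rw [hio]; exact hRa.continuousAt
    exact this.comp ioL.continuous.continuousAt
  have hev1 : ∀ᶠ q : ℝ × ℝ in 𝓝 (0, Y), |q.1| < r := by
    have c : ContinuousAt (fun q : ℝ × ℝ => |q.1|) (0, Y) := by fun_prop
    refine c.eventually_lt continuousAt_const ?_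
    simpa using hc.r0
  have hev2 : ∀ᶠ q : ℝ × ℝ in 𝓝 (0, Y), |q.2| < r := by
    have c : ContinuousAt (fun q : ℝ × ℝ => |q.2|) (0, Y) := by fun_prop
    exact c.eventually_lt continuousAt_const hYr
  have hev3 : ∀ᶠ q : ℝ × ℝ in 𝓝 (0, Y), G^[i] (R (ioL q)) ∈ χ'.target ∧
      ‖(χ'.symm (G^[i] (R (ioL q)))).1‖ < r' ∧ ‖(χ'.symm (G^[i] (R (ioL q)))).2‖ < r' := by
    have hloc2 : ∀ᶠ w in 𝓝 (R (ioL (0, Y))), G^[i] w ∈ χ'.target ∧
      ‖(χ'.symm (G^[i] w)).1‖ < r' ∧ ‖(χ'.symm (G^[i] w)).2‖ < r' := by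
      rw [hio, hRz]; exact hloc'
    exact hcR.eventually hloc2
  have hΛim : ∀ᶠ q : ℝ × ℝ in 𝓝 (0, Y), (Λ (ioL q)).im = 0 := by
    filter_upwards [hev1, hev2, hev3] with q h1 h2 h3
    rw [hΛ, hH]
    exact (im_of_cj (chart_fix hq.symm hc' (hRreal q h1 h2) h3.1 h3.2.1 h3.2.2)).1
  have hΘne : Θ' ≠ 0 := by
    intro h0
    have him : Complex.imCLM.comp (((fderiv ℂ Λ w0).restrictScalars ℝ).comp ioL) = 0 := by
      have h1 : HasFDerivAt (fun q : ℝ × ℝ => (Λ (ioL q)).im)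
          (Complex.imCLM.comp (((fderiv ℂ Λ w0).restrictScalars ℝ).comp ioL)) (0, Y) :=
        ((Complex.imCLM.hasStrictFDerivAt).comp (0, Y) hstr).hasFDerivAt
      have h2 : HasFDerivAt (fun _ : ℝ × ℝ => (0 : ℝ))
          (Complex.imCLM.comp (((fderiv ℂ Λ w0).restrictScalars ℝ).comp ioL)) (0, Y) :=
        h1.congr_of_eventuallyEq (by filter_upwards [hΛim] with q hq using hq.symm)
      exact h2.unique (hasFDerivAt_const (0 : ℝ) ((0, Y) : ℝ × ℝ))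
    have hz1 : ∀ q : ℝ × ℝ, fderiv ℂ Λ w0 (ioL q) = 0 := by
      intro q
      have k1 := congrArg (fun L => L q) h0
      have k2 := congrArg (fun L => L q) him
      rw [hΘ'] at k1
      exact Complex.ext k1 k2
    apply hΛne
    refine ContinuousLinearMap.ext fun v => ?_
    have e : v = v.1 • ioL (1, 0) + v.2 • ioL (0, 1) := by
      rw [ioL_apply, ioL_apply]
      apply Prod.ext <;> simp
    rw [e, map_add, map_smul, map_smul, hz1, hz1]
    simp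
  -- the curve is in the zero set
  have h0 : ∀ᶠ τ : ℝ in 𝓝 t, Θ ((Q (τ : ℂ)).1.re, (Q (τ : ℂ)).2.re) = 0 := by
    have c : ContinuousAt (fun τ : ℝ => |μ'⁻¹ ^ i * τ|) t := by fun_prop
    filter_upwards [hlocR, hQreal, c.eventually_lt continuousAt_const habs] with τ h1 h2 h3
    have e1 : ioL ((Q (τ : ℂ)).1.re, (Q (τ : ℂ)).2.re) = Q (τ : ℂ) := by
      rw [ioL_apply]; exact ofReal_pair_of_cj h2
    have e2 : R (Q (τ : ℂ)) = U' (τ : ℂ) := by
      rw [hR, hQ, χ.right_inv h1.1, hp.iterGF]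
    rw [hΘ, e1, hΛ, hH, e2, hGU, ← hchU _ h3]
    have k2 : ‖((μ'⁻¹ ^ i * τ : ℝ) : ℂ)‖ < r' := by rw [Complex.norm_real]; exact h3
    have e3 := (chart_symm hc' (w := ((0 : ℂ), ((μ'⁻¹ ^ i * τ : ℝ) : ℂ)))
      (by simpa using hc'.r0) k2).2
    rw [e3]
    simp
  -- sign change on the axis
  have hval : ∀ η : ℝ, |Y + η| < r →
      Θ (0, Y + η) = (χ'.symm (G^[i] (S ((s + (ν ^ j)⁻¹ * η : ℝ) : ℂ)))).1.re := by
    intro η hη
    have e1 : ioL (0, Y + η) = ((0 : ℂ), ((Y + η : ℝ) : ℂ)) := by rw [ioL_apply]; simp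
    have e2 : F^[j] (S ((s + (ν ^ j)⁻¹ * η : ℝ) : ℂ)) = S ((Y + η : ℝ) : ℂ) := by
      rw [hFS]
      congr 2
      rw [mul_add, ← hY, mul_inv_cancel_left₀ hνj.ne']
    rw [hΘ, hΛ, hH, hR, e1, hchS _ hη, ← e2, hp.iterGF]
  have hs : ∃ ε : ℝ, 0 < ε ∧ ∀ τ τ' : ℝ, 0 < τ → τ < ε → 0 < τ' → τ' < ε →
      Θ (0, Y - τ) * Θ (0, Y + τ') < 0 := by
    refine ⟨min (r - |Y|) (ν ^ j * ε0), lt_min (by linarith) (mul_pos hνj hε0), ?_⟩
    intro τ τ' h1 h2 h3 h4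
    have a1 := lt_of_lt_of_le h2 (min_le_left _ _)
    have a2 := lt_of_lt_of_le h2 (min_le_right _ _)
    have a3 := lt_of_lt_of_le h4 (min_le_left _ _)
    have a4 := lt_of_lt_of_le h4 (min_le_right _ _)
    have b1 : |Y + -τ| < r := by
      have := abs_add_le Y (-τ)
      rw [abs_neg, abs_of_pos h1] at this
      linarith
    have b2 : |Y + τ'| < r := by
      have := abs_add_le Y τ'
      rw [abs_of_pos h3] at this
      linarith
    rw [sub_eq_add_neg, hval _ b1, hval _ b2]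
    have e1 : s + (ν ^ j)⁻¹ * -τ = s - (ν ^ j)⁻¹ * τ := by ring
    rw [e1]
    have hinv : 0 < (ν ^ j)⁻¹ := inv_pos.2 hνj
    refine hneg _ _ (mul_pos hinv h1) ?_ (mul_pos hinv h3) ?_
    · rw [inv_mul_lt_iff₀ hνj]; exact a2
    · rw [inv_mul_lt_iff₀ hνj]; exact a4
  have hx0 : (Q (t : ℂ)).1.re = 0 := by rw [hQt, hw0]; simp
  have hy0 : (Q (t : ℂ)).2.re = Y := by rw [hQt, hw0]; simp
  obtain ⟨ε, hε, hres⟩ := sym_sign hx hy hx0 hy0 hreg hΘd hΘne h0 hs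
  refine ⟨ε, hε, fun τ τ' h1 h2 h3 h4 => ?_⟩
  have := hres τ τ' h1 h2 h3 h4
  simp only [hQ] at this
  exact this

end Pool.Agent.H53.HN
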