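import Pool.Agent.H53.HN.Far
import Pool.Agent.H53.HN.IndSU
import Pool.Agent.H53.HN.Link
import Pool.Agent.H53.HN.CrossSide
import Pool.Agent.H53.HN.Iso
import Pool.Agent.H53.HN.SymCross

/-! # The linking argument (helper53, folder HN) -/

set_option autoImplicit false

namespace Pool.Agent.H53.HN

theorem en_add (z w : ℝ × ℝ) : en (z + w) = en z + en w := by
  simp [en]; ring

theorem en_smul (a : ℝ) (z : ℝ × ℝ) : en (a • z) = (a : ℂ) * en z := by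
  simp [en]; ring

theorem seg_en {K : Set (ℝ × ℝ)} (hK : Convex ℝ K) {z w : ℝ × ℝ} (hz : z ∈ K) (hw : w ∈ K)
    {x : ℂ} (hx : x ∈ segment ℝ (en z) (en w)) : ∃ v ∈ K, en v = x := by
  obtain ⟨a, b, ha, hb, hab, rfl⟩ := hx
  refine ⟨a • z + b • w, hK hz hw ha hb hab, ?_⟩
  rw [en_add, en_smul, en_smul]; simp

theorem rp_stepN {c b : ℝ} {N : ℕ} {V : ℂ → ℂ × ℂ}
    (cV : ∀ t, V (starRingEnd ℂ t) = cj (V t)) {l : ℝ}
    (eV : ∀ t, (fC c b)^[N] (V t) = V ((l : ℂ) * t)) (t : ℝ) :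
    rp (V ((l * t : ℝ) : ℂ)) = (fR c b)^[N] (rp (V (t : ℂ))) := by
  apply io_injective
  rw [rp_iter cV, eV, io_rpV cV]; push_cast; rfl

theorem rp_stepN_g {c b : ℝ} {N : ℕ} {V : ℂ → ℂ × ℂ}
    (cV : ∀ t, V (starRingEnd ℂ t) = cj (V t)) {l : ℝ}
    (eV : ∀ t, (gC c b)^[N] (V t) = V ((l : ℂ) * t)) (t : ℝ) :
    rp (V ((l * t : ℝ) : ℂ)) = (gR c b)^[N] (rp (V (t : ℂ))) := by
  apply io_injective
  rw [rp_iter_g cV, eV, io_rpV cV]; push_cast; rfl

theorem iter_Np {c b R : ℝ} (hs : IsSec c b R) {z : ℝ × ℝ} (hz : z ∈ Np R) (m : ℕ) :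
    (fR c b)^[m] z ∈ Np R := by
  induction m with
  | zero => exact hz
  | succ m ih => rw [Function.iterate_succ_apply']; exact hs.fNp _ ih

theorem iter_Nm {c b R : ℝ} (hs : IsSec c b R) {z : ℝ × ℝ} (hz : z ∈ Nm b R) (m : ℕ) :
    (gR c b)^[m] z ∈ Nm b R := by
  induction m with
  | zero => exact hz
  | succ m ih => rw [Function.iterate_succ_apply']; exact hs.gNm _ ih

theorem cross {c b : ℝ} (hb : b ≠ 0) {h n N : ℕ} (hN : N = h * n) (hn : 0 < n) {R : ℝ}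
    {o : ℝ × ℝ} {d : ℝ × ℝ → ℝ} (H : IsRot c b h R o d) (hs : IsSec c b R) (hoR : ‖o‖ < R)
    {p q : ℝ × ℝ} {μ ν μ' ν' r r' C C' : ℝ} {U S U' S' : ℂ → ℂ × ℂ}
    {χ χ' : OpenPartialHomeomorph (ℂ × ℂ) (ℂ × ℂ)}
    (hp : IsSad (fC c b)^[N] (gC c b)^[N] p μ ν U S)
    (hc : IsChart (fC c b)^[N] p μ ν U S χ r C)
    (hq : IsSad (fC c b)^[N] (gC c b)^[N] q μ' ν' U' S')
    (hc' : IsChart (gC c b)^[N] q ν'⁻¹ μ'⁻¹ S' U' χ' r' C')
    (hpo : p ≠ o) (hqo : q ≠ o) {κ κ' : ℤ} (hκ : κ ≠ 0) (hκ' : κ' ≠ 0)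
    (hsum : ∑ j ∈ Finset.range n, d (((fR c b)^[h])^[j] p) = 2 * Real.pi * κ)
    (hsum' : ∑ j ∈ Finset.range n, d (((fR c b)^[h])^[j] q) = 2 * Real.pi * κ')
    (huS : ¬ ∃ K : ℝ, ∀ t : ℝ, ‖S (t : ℂ)‖ ≤ K)
    (huU : ¬ ∃ K : ℝ, ∀ t : ℝ, ‖U' (t : ℂ)‖ ≤ K) :
    ∃ t s : ℝ, t ≠ 0 ∧ s ≠ 0 ∧ CrossAt (fC c b)^[N] χ ν r U' S t s := by
  have hN0 : 0 < N := by rw [hN]; exact Nat.mul_pos H.h0 hn
  have hR := hs.R0
  obtain ⟨t1, ht1, hNm⟩ := far_S hN0 hs hp huS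
  obtain ⟨t2, ht2, hNp⟩ := far_U hN0 hs hq huU
  obtain ⟨α, β, hαβ, hαβ0, hα, hβ, hiA⟩ :=
    ind_S hb hN hn H hs hoR hp hpo hκ hsum ht1 hNm
  obtain ⟨α', β', hαβ', hαβ0', hα', hβ', hiB⟩ :=
    ind_U hb hN hn H hs hoR hq hqo hκ' hsum' ht2 hNp
  have hoN : (fR c b)^[N] o = o := by
    have : ∀ k : ℕ, (fR c b)^[h * k] o = o := by
      intro k
      induction k with
      | zero => rfl
      | succ k ih => rw [Nat.mul_succ, Function.iterate_add_apply, H.fix, ih]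
    rw [hN]; exact this n
  have contS : Continuous (pa S) := continuous_pa hp.dS.continuous
  have contU : Continuous (pa U') := continuous_pa hq.dU.continuous
  have imA := lp_image (pa S) hαβ.le
  have imB := lp_image (pa U') hαβ'.le
  have cA := (lp_cont contS α β).continuousOn (s := Set.Icc 0 1)
  have cB := (lp_cont contU α' β').continuousOn (s := Set.Icc 0 1)
  have clA : lp (pa S) α β 0 = lp (pa S) α β 1 := by rw [lp_zero, lp_one]
  have clB : lp (pa U') α' β' 0 = lp (pa U') α' β' 1 := by rw [lp_zero, lp_one]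
  -- segments
  have segA : ∀ x ∈ segment ℝ (pa S β) (pa S α), ∃ v ∈ Nm b R, en v = x := fun x hx =>
    seg_en (Nm_convex b R) hβ hα hx
  have segB : ∀ x ∈ segment ℝ (pa U' β') (pa U' α'), ∃ v ∈ Np R, en v = x := fun x hx =>
    seg_en (Np_convex R) hβ' hα' hx
  have dis : ∀ z, z ∈ Np R → z ∉ Nm b R := fun z h1 h2 => Set.disjoint_left.1 hs.disj h1 h2
  have hAP : ∀ z ∈ Np R, en z ∉ lp (pa S) α β '' Set.Icc 0 1 := by
    intro z hz hmem
    rw [imA] at hmem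
    rcases hmem with ⟨t, -, ht⟩ | hmem
    · have : rp (S (t : ℂ)) = z := en_injective ht
      exact off_S hN0 hs hp t (this ▸ hz)
    · obtain ⟨v, hv, he⟩ := segA _ hmem
      exact dis z hz (en_injective he ▸ hv)
  have hBM : ∀ z ∈ Nm b R, en z ∉ lp (pa U') α' β' '' Set.Icc 0 1 := by
    intro z hz hmem
    rw [imB] at hmem
    rcases hmem with ⟨t, -, ht⟩ | hmem
    · have : rp (U' (t : ℂ)) = z := en_injective ht
      exact off_U hN0 hs hq t (this ▸ hz)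
    · obtain ⟨v, hv, he⟩ := segB _ hmem
      exact dis v hv (en_injective he ▸ hz)
  have hoA : en o ∉ lp (pa S) α β '' Set.Icc 0 1 := by
    intro hmem
    rw [imA] at hmem
    rcases hmem with ⟨t, -, ht⟩ | hmem
    · exact (off_center hoN hp hpo t).2 (en_injective ht)
    · obtain ⟨v, hv, he⟩ := segA _ hmem
      have := Nm_slit hb hR hoR hv
      rw [he, sub_self] at this
      simp at this
  have hoB : en o ∉ lp (pa U') α' β' '' Set.Icc 0 1 := by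
    intro hmem
    rw [imB] at hmem
    rcases hmem with ⟨t, -, ht⟩ | hmem
    · exact (off_center hoN hq hqo t).1 (en_injective ht)
    · obtain ⟨v, hv, he⟩ := segB _ hmem
      have := Np_slit hR hoR hv
      rw [he, sub_self] at this
      simp at this
  have zA : ∀ z ∈ Np R, ind (lp (pa S) α β) (en z) = 0 := by
    intro z hz
    refine ind_unb cA clA (s := en '' Np R) ?_ ?_ ?_ ⟨z, hz, rfl⟩
    · exact (Np_convex R).isPreconnected.image _ continuous_en.continuousOn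
    · rintro _ ⟨w, hw, rfl⟩ t ht e
      exact hAP w hw ⟨t, ht, e⟩
    · intro K
      obtain ⟨w, hw, hK⟩ := Np_unb hR K
      exact ⟨en w, ⟨w, hw, rfl⟩, hK⟩
  have zB : ∀ z ∈ Nm b R, ind (lp (pa U') α' β') (en z) = 0 := by
    intro z hz
    refine ind_unb cB clB (s := en '' Nm b R) ?_ ?_ ?_ ⟨z, hz, rfl⟩
    · exact (Nm_convex b R).isPreconnected.image _ continuous_en.continuousOn
    · rintro _ ⟨w, hw, rfl⟩ t ht e
      exact hBM w hw ⟨t, ht, e⟩
    · intro K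
      obtain ⟨w, hw, hK⟩ := Nm_unb hb hR K
      exact ⟨en w, ⟨w, hw, rfl⟩, hK⟩
  -- powers
  have farU : ∀ k : ℕ, rp (U' ((μ' ^ k * α' : ℝ) : ℂ)) ∈ Np R := by
    intro k
    induction k with
    | zero => simpa using hα'
    | succ k ih =>
      rw [show μ' ^ (k + 1) * α' = μ' * (μ' ^ k * α') by ring,
        rp_stepN hq.cU (fun t => hq.eU t)]
      exact iter_Np hs ih N
  have farS : ∀ k : ℕ, rp (S ((ν⁻¹ ^ k * α : ℝ) : ℂ)) ∈ Nm b R := by
    intro k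
    induction k with
    | zero => simpa using hα
    | succ k ih =>
      rw [show ν⁻¹ ^ (k + 1) * α = ν⁻¹ * (ν⁻¹ ^ k * α) by ring,
        rp_stepN_g hp.cS (fun t => hp.GS t)]
      exact iter_Nm hs ih N
  have fin1 : {t : ℝ | t ∈ Set.Icc α' β' ∧ ∃ s ∈ Set.Icc α β, U' (t : ℂ) = S (s : ℂ)}.Finite := by
    refine iso_both hp hc hq.dU hq.cU hq.injU hq.mu (fun t => ?_) hαβ' hαβ0' ?_
    · rw [← hq.eU, hq.GF]
    · intro k s e
      have h1 := farU k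
      rw [e] at h1
      exact off_S hN0 hs hp s h1
  have fin2 : {t : ℝ | t ∈ Set.Icc α β ∧ ∃ s ∈ Set.Icc α' β', S (t : ℂ) = U' (s : ℂ)}.Finite := by
    refine iso_both hq.symm hc' hp.dS hp.cS hp.injS hp.symm.mu (fun t => ?_) hαβ hαβ0 ?_
    · rw [← hp.GS, hp.FG]
    · intro k s e
      have h1 := farS k
      rw [e] at h1
      exact off_U hN0 hs hq s h1
  have hfin : ((lp (pa S) α β '' Set.Icc 0 1) ∩ (lp (pa U') α' β' '' Set.Icc 0 1)).Finite := by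
    refine (fin1.image (pa U')).subset ?_
    rintro z ⟨hz1, hz2⟩
    rw [imB] at hz2
    rcases hz2 with ⟨t, ht, rfl⟩ | hz2
    · rw [imA] at hz1
      rcases hz1 with ⟨s, hs', he⟩ | hz1
      · exact ⟨t, ⟨ht, s, hs', pa_inj hq.cU hp.cS he.symm⟩, rfl⟩
      · obtain ⟨v, hv, he⟩ := segA _ hz1
        exfalso
        have : v = rp (U' (t : ℂ)) := en_injective he
        exact off_U hN0 hs hq t (this ▸ hv)
    · obtain ⟨v, hv, rfl⟩ := segB _ hz2
      exact absurd hz1 (hAP v hv)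
  rcases link cA cB clA clB (fun t ht e => hoA ⟨t, ht, e⟩) (fun t ht e => hoB ⟨t, ht, e⟩)
    hiA hiB hfin with ⟨z, hz, hz1, hz2⟩ | ⟨z, hz, hz1, hz2⟩
  · rw [imB] at hz
    rcases hz with ⟨t3, ht3, rfl⟩ | hz
    · obtain ⟨t, s, h1, h2, h3, h4, h5⟩ := cross_side hp hc hαβ (V := U') hq.dU.continuous hq.cU
        (Nm_closed b R) (Nm_convex b R) hα hβ (fun τ => off_U hN0 hs hq τ) ht3.1
        (hAP _ hα') hz1 (zA _ hα') hz2
        (fin1.subset (fun t ht => ⟨⟨ht.1.1, ht.1.2.trans ht3.2⟩, ht.2⟩))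
      refine ⟨t, s, ?_, ?_, h5⟩
      · rintro rfl
        have := ht3.2
        nlinarith
      · rintro rfl
        nlinarith
    · obtain ⟨v, hv, rfl⟩ := segB _ hz
      exact absurd (zA v hv) hz2
  · rw [imA] at hz
    rcases hz with ⟨t3, ht3, rfl⟩ | hz
    · obtain ⟨s, t, h1, h2, h3, h4, h5⟩ := cross_side hq.symm hc' hαβ' (V := S)
        hp.dS.continuous hp.cS (Np_closed R) (Np_convex R) hα' hβ'
        (fun τ => off_S hN0 hs hp τ) ht3.1
        (hBM _ hα) hz1 (zB _ hα) hz2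
        (fin2.subset (fun t ht => ⟨⟨ht.1.1, ht.1.2.trans ht3.2⟩, ht.2⟩))
      refine ⟨t, s, ?_, ?_, sym_cross hp hc hq hc' h5⟩
      · rintro rfl
        nlinarith
      · rintro rfl
        have := ht3.2
        nlinarith
    · obtain ⟨v, hv, rfl⟩ := segA _ hz
      exact absurd (zB v hv) hz2

end Pool.Agent.H53.HN
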