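import Pool.Agent.H53.HN.ChartApi

/-! # The crossing condition for a larger index (helper53, folder HN)

PROOF. Induction on n; one step from j to j+1: ν^(j+1)|s| <= ν^j|s| < r. z0 = V t = S s, F^[j] z0 = S (ν^j s) = χ (0, ν^j s). For real τ near t (`chart_loc` and continuity of V) w := χ.symm (F^[j] (V τ)) satisfies ‖w.1‖, ‖w.2‖ < r, χ w = F^[j] (V τ) (right inverse), and w is real:
 F^[j] (V τ) is fixed by cj (cV, `cj_iter`, h.cF), hc.real. F^[j+1] (V τ) = F (χ w) (`Function.iterate_succ_apply'`), and by hc.n1, sm2: ‖(χ.symm (F (χ w))).1 - μ w.1‖ <= C ‖w.1‖ ‖w.2‖ <= C r ‖w.1‖ <= (μ-1)/2 ‖w.1‖. Since w.1 is real, w.1 = x, the real part x' of (χ.symm (F (χ w))).1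
 satisfies |x' - μ x| <= (μ-1)/2 |x| so x' x >= ((μ+1)/2) x^2 > 0 when x ≠ 0. So x' has the sign of x: the negative product for the index j gives a negative product for the index j+1 (for τ, τ' in a possibly smaller interval (0,ε)).
-/

set_option autoImplicit false

namespace Pool.Agent.H53.HN

open Filter Topology

variable {F G : ℂ × ℂ → ℂ × ℂ} {p : ℝ × ℝ} {μ ν r C : ℝ} {U S : ℂ → ℂ × ℂ}
  {χ : OpenPartialHomeomorph (ℂ × ℂ) (ℂ × ℂ)}

private theorem cross_step (h : IsSad F G p μ ν U S) (hc : IsChart F p μ ν U S χ r C)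
    {V : ℂ → ℂ × ℂ} (hV : Continuous V) (cV : ∀ t, V (starRingEnd ℂ t) = cj (V t))
    {t s : ℝ} {j : ℕ} (hVS : V (t : ℂ) = S (s : ℂ)) (hj : ν ^ j * |s| < r)
    (hsgn : ∃ ε : ℝ, 0 < ε ∧ ∀ τ τ' : ℝ, 0 < τ → τ < ε → 0 < τ' → τ' < ε →
      (χ.symm (F^[j] (V ((t - τ : ℝ) : ℂ)))).1.re *
        (χ.symm (F^[j] (V ((t + τ' : ℝ) : ℂ)))).1.re < 0) :
    ν ^ (j + 1) * |s| < r ∧ ∃ ε : ℝ, 0 < ε ∧ ∀ τ τ' : ℝ, 0 < τ → τ < ε → 0 < τ' → τ' < ε →
      (χ.symm (F^[j + 1] (V ((t - τ : ℝ) : ℂ)))).1.re *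
        (χ.symm (F^[j + 1] (V ((t + τ' : ℝ) : ℂ)))).1.re < 0 := by
  have hr := hc.r0
  have hν := h.nu0
  have hμ := h.mu
  constructor
  · have h1 : 0 ≤ ν ^ j * |s| := by positivity
    rw [pow_succ]
    nlinarith [h.nu1]
  · have hY : ‖((ν ^ j * s : ℝ) : ℂ)‖ < r := by
      rw [Complex.norm_real, Real.norm_eq_abs, abs_mul, abs_of_pos (pow_pos hν j)]; exact hj
    have hz : F^[j] (V (t : ℂ)) = χ (0, ((ν ^ j * s : ℝ) : ℂ)) := by
      rw [hVS, h.iterS, chart_S h hc hY]; push_cast; rfl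
    have hloc := chart_loc h hc (z0 := V (t : ℂ)) (w0 := (0, ((ν ^ j * s : ℝ) : ℂ))) (j := j)
      (by simpa using hr) hY hz
    have hloc' : ∀ᶠ τ : ℝ in 𝓝 t, F^[j] (V (τ : ℂ)) ∈ χ.target ∧
        ‖(χ.symm (F^[j] (V (τ : ℂ)))).1‖ < r ∧ ‖(χ.symm (F^[j] (V (τ : ℂ)))).2‖ < r :=
      (hV.comp Complex.continuous_ofReal).continuousAt.eventually hloc
    obtain ⟨η, hη, hb⟩ := Metric.eventually_nhds_iff_ball.1 hloc'
    obtain ⟨ε, hε, hs⟩ := hsgn
    -- the sign is kept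
    have key : ∀ τ : ℝ, |τ - t| < η →
        (χ.symm (F^[j] (V (τ : ℂ)))).1.re ≠ 0 →
        0 < (χ.symm (F^[j + 1] (V (τ : ℂ)))).1.re * (χ.symm (F^[j] (V (τ : ℂ)))).1.re := by
      intro τ hτ hne
      obtain ⟨h1, h2, h3⟩ := hb τ (by rw [Metric.mem_ball, Real.dist_eq]; exact hτ)
      set w := χ.symm (F^[j] (V (τ : ℂ))) with hw
      have h4 : χ w = F^[j] (V (τ : ℂ)) := χ.right_inv h1
      have h5 : cj w = w := hc.real _ h2 h3 (by
        rw [h4, ← cj_iter h.cF, ← cV, Complex.conj_ofReal])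
      have h6 : (w.1.re : ℂ) = w.1 := Complex.conj_eq_iff_re.1 (congrArg Prod.fst h5)
      have h7 : F^[j + 1] (V (τ : ℂ)) = F (χ w) := by
        rw [Function.iterate_succ_apply', h4]
      rw [h7]
      have h8 := hc.n1 w h2 h3
      have h9 : C * ‖w.1‖ * ‖w.2‖ ≤ (μ - 1) / 2 * ‖w.1‖ := by
        have : C * ‖w.2‖ ≤ (μ - 1) / 2 :=
          (mul_le_mul_of_nonneg_left h3.le hc.C0.le).trans hc.sm2
        calc C * ‖w.1‖ * ‖w.2‖ = (C * ‖w.2‖) * ‖w.1‖ := by ring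
          _ ≤ _ := mul_le_mul_of_nonneg_right this (norm_nonneg _)
      have h10 : |(χ.symm (F (χ w))).1.re - μ * w.1.re| ≤ (μ - 1) / 2 * |w.1.re| := by
        have h11 : ((χ.symm (F (χ w))).1 - (μ : ℂ) * w.1).re =
            (χ.symm (F (χ w))).1.re - μ * w.1.re := by
          rw [← h6]; simp
        rw [← h11]
        have h12 : ‖w.1‖ = |w.1.re| := by
          rw [← h6, Complex.norm_real, Real.norm_eq_abs]; simp
        calc |((χ.symm (F (χ w))).1 - (μ : ℂ) * w.1).re| ≤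
            ‖(χ.symm (F (χ w))).1 - (μ : ℂ) * w.1‖ := Complex.abs_re_le_norm _
          _ ≤ _ := h8.trans (h9.trans (by rw [h12]))
      rcases lt_or_gt_of_ne hne with hneg | hpos
      · rw [abs_of_neg hneg] at h10
        have := (abs_le.1 h10).2
        have h13 : (χ.symm (F (χ w))).1.re < 0 := by nlinarith
        exact mul_pos_of_neg_of_neg h13 hneg
      · rw [abs_of_pos hpos] at h10
        have := (abs_le.1 h10).1
        have h13 : 0 < (χ.symm (F (χ w))).1.re := by nlinarith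
        exact mul_pos h13 hpos
    refine ⟨min ε η, lt_min hε hη, fun τ τ' h1 h2 h3 h4 => ?_⟩
    have hs1 := hs τ τ' h1 (lt_of_lt_of_le h2 (min_le_left _ _)) h3
      (lt_of_lt_of_le h4 (min_le_left _ _))
    have k1 := key (t - τ) (by
      rw [show t - τ - t = -τ by ring, abs_neg, abs_of_pos h1]
      exact lt_of_lt_of_le h2 (min_le_right _ _)) (fun h0 => by rw [h0] at hs1; simp at hs1)
    have k2 := key (t + τ') (by
      rw [show t + τ' - t = τ' by ring, abs_of_pos h3]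
      exact lt_of_lt_of_le h4 (min_le_right _ _)) (fun h0 => by rw [h0] at hs1; simp at hs1)
    set a := (χ.symm (F^[j + 1] (V ((t - τ : ℝ) : ℂ)))).1.re
    set b := (χ.symm (F^[j + 1] (V ((t + τ' : ℝ) : ℂ)))).1.re
    set a' := (χ.symm (F^[j] (V ((t - τ : ℝ) : ℂ)))).1.re
    set b' := (χ.symm (F^[j] (V ((t + τ' : ℝ) : ℂ)))).1.re
    have k3 : 0 < (a * b) * (a' * b') := by
      have := mul_pos k1 k2
      nlinarith
    by_contra hcon
    push Not at hcon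
    have := mul_nonpos_of_nonneg_of_nonpos hcon hs1.le
    linarith

theorem cross_up (h : IsSad F G p μ ν U S) (hc : IsChart F p μ ν U S χ r C)
    {V : ℂ → ℂ × ℂ} (hV : Continuous V) (cV : ∀ t, V (starRingEnd ℂ t) = cj (V t))
    {t s : ℝ} {j : ℕ} (hVS : V (t : ℂ) = S (s : ℂ)) (hj : ν ^ j * |s| < r)
    (hsgn : ∃ ε : ℝ, 0 < ε ∧ ∀ τ τ' : ℝ, 0 < τ → τ < ε → 0 < τ' → τ' < ε →
      (χ.symm (F^[j] (V ((t - τ : ℝ) : ℂ)))).1.re *
        (χ.symm (F^[j] (V ((t + τ' : ℝ) : ℂ)))).1.re < 0) (n : ℕ) :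
    ν ^ (j + n) * |s| < r ∧ ∃ ε : ℝ, 0 < ε ∧ ∀ τ τ' : ℝ, 0 < τ → τ < ε → 0 < τ' → τ' < ε →
      (χ.symm (F^[j + n] (V ((t - τ : ℝ) : ℂ)))).1.re *
        (χ.symm (F^[j + n] (V ((t + τ' : ℝ) : ℂ)))).1.re < 0 := by
  induction n with
  | zero => exact ⟨hj, hsgn⟩
  | succ n ih =>
    have := cross_step h hc hV cV hVS ih.1 ih.2
    rwa [Nat.add_assoc] at this

end Pool.Agent.H53.HN
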