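import Pool.Agent.H53.HN.CrossUp

/-! # The crossing curve in the chart (helper53, folder HN)

PROOF. By hX and `cross_up` the sign condition holds for some j with ν^j |s| < min δ r (ν^j tends to 0). z0 = V t = S s, F^[j] z0 = S (ν^j s) = χ (0, ν^j s). Q z = χ.symm (F^[j] z) is analytic at z0 (`chart_diff`); for complex τ near 0 put w(τ) = Q (V (t + τ)), w(0) = (0, ν^j s), χ (w τ) = F^[j] (V (t+τ)),
 coordinates of norm < r (`chart_loc`). x(τ) = (w τ).1 is analytic at 0, not identically zero near 0 (the sign condition), so x(τ) = τ^k u(τ) near 0 with u analytic, u 0 ≠ 0 (`AnalyticAt.exists_eventuallyEq_pow_smul_nonzero_iff`), v(τ) = (w τ).2.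
 Real τ: F^[j] (V (t+τ)) is fixed by cj so x(τ), v(τ) are real (hc.real); u(τ) = x(τ)/τ^k is real for real τ ≠ 0, so u 0 is real (closedness).
 k is odd: if k is even, x(-τ) x(τ) = τ^(2k) u(-τ) u(τ), whose sign for small real τ > 0 is the sign of (u 0)^2 > 0 (continuity, u real on reals): contradiction to the sign condition (take τ = τ').
 Choose ρ so small that everything holds on the ball of radius ρ (`AnalyticAt` gives differentiability in a neighbourhood).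
-/

set_option autoImplicit false

namespace Pool.Agent.H53.HN

open Filter Topology

variable {F G : ℂ × ℂ → ℂ × ℂ} {p : ℝ × ℝ} {μ ν r C : ℝ} {U S : ℂ → ℂ × ℂ}
  {χ : OpenPartialHomeomorph (ℂ × ℂ) (ℂ × ℂ)}

theorem curve (h : IsSad F G p μ ν U S) (hc : IsChart F p μ ν U S χ r C)
    {V : ℂ → ℂ × ℂ} (dV : Differentiable ℂ V) (cV : ∀ t, V (starRingEnd ℂ t) = cj (V t))
    {t s : ℝ} (hX : CrossAt F χ ν r V S t s) {δ : ℝ} (hδ : 0 < δ) :
    ∃ (j k : ℕ) (u v : ℂ → ℂ) (ρ : ℝ), 0 < ρ ∧ Odd k ∧ ν ^ j * |s| < δ ∧ ν ^ j * |s| < r ∧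
      DifferentiableOn ℂ u (Metric.ball 0 ρ) ∧ DifferentiableOn ℂ v (Metric.ball 0 ρ) ∧
      u 0 ≠ 0 ∧ (u 0).im = 0 ∧ v 0 = ((ν ^ j * s : ℝ) : ℂ) ∧
      ∀ τ ∈ Metric.ball (0 : ℂ) ρ, ‖τ ^ k * u τ‖ < r ∧ ‖v τ‖ < r ∧
        F^[j] (V ((t : ℂ) + τ)) = χ (τ ^ k * u τ, v τ) := by
  have hr := hc.r0
  have hν := h.nu0
  obtain ⟨hVS, j1, hj1, hsgn1⟩ := hX
  obtain ⟨n, hn⟩ : ∃ n : ℕ, ν ^ n * (|s| + 1) < min δ r := by
    have hpos : 0 < min δ r / (|s| + 1) := div_pos (lt_min hδ hr) (by positivity)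
    obtain ⟨n, hn⟩ := exists_pow_lt_of_lt_one hpos h.nu1
    refine ⟨n, ?_⟩
    rwa [lt_div_iff₀ (by positivity)] at hn
  obtain ⟨hjr, ε, hε, hs⟩ := cross_up h hc dV.continuous cV hVS hj1 hsgn1 n
  set j : ℕ := j1 + n with hj
  have hjs : ν ^ j * |s| < min δ r := by
    refine lt_of_le_of_lt ?_ hn
    have h1 : ν ^ j ≤ ν ^ n := pow_le_pow_of_le_one hν.le h.nu1.le (by omega)
    have h2 : 0 ≤ ν ^ n := by positivity
    have h3 := abs_nonneg s
    nlinarith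
  have hjδ : ν ^ j * |s| < δ := lt_of_lt_of_le hjs (min_le_left _ _)
  set Y0 : ℝ := ν ^ j * s with hY0
  have hY : ‖((Y0 : ℝ) : ℂ)‖ < r := by
    rw [Complex.norm_real, Real.norm_eq_abs, hY0, abs_mul, abs_of_pos (pow_pos hν j)]; exact hjr
  have hz : F^[j] (V (t : ℂ)) = χ (0, (Y0 : ℂ)) := by
    rw [hVS, h.iterS, chart_S h hc hY, hY0]; push_cast; rfl
  have hr0 : ‖(0 : ℂ)‖ < r := by simpa using hr
  obtain ⟨hQa, -⟩ := chart_diff h hc (z0 := V (t : ℂ)) (w0 := (0, (Y0 : ℂ))) (j := j) hr0 hY hz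
  have hloc := chart_loc h hc (z0 := V (t : ℂ)) (w0 := (0, (Y0 : ℂ))) (j := j) hr0 hY hz
  set W : ℂ → ℂ × ℂ := fun τ => χ.symm (F^[j] (V ((t : ℂ) + τ))) with hW
  have hVa : AnalyticAt ℂ (fun τ : ℂ => V ((t : ℂ) + τ)) 0 := by
    have : Differentiable ℂ (fun τ : ℂ => V ((t : ℂ) + τ)) :=
      dV.comp (differentiable_id.const_add _)
    exact this.analyticAt 0
  have hWa : AnalyticAt ℂ W 0 := by
    have h1 : AnalyticAt ℂ (fun z => χ.symm (F^[j] z)) ((fun τ : ℂ => V ((t : ℂ) + τ)) 0) := by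
      simpa using hQa
    exact AnalyticAt.comp (g := fun z => χ.symm (F^[j] z)) (f := fun τ : ℂ => V ((t : ℂ) + τ))
      h1 hVa
  have hW0 : W 0 = (0, (Y0 : ℂ)) := by
    simp only [hW, add_zero]; rw [hz]; exact (chart_symm hc hr0 hY).2
  have hcontV : ContinuousAt (fun τ : ℂ => V ((t : ℂ) + τ)) 0 := hVa.continuousAt
  have hloc' : ∀ᶠ τ : ℂ in 𝓝 0, F^[j] (V ((t : ℂ) + τ)) ∈ χ.target ∧ ‖(W τ).1‖ < r ∧
      ‖(W τ).2‖ < r := by
    have h1 : Tendsto (fun τ : ℂ => V ((t : ℂ) + τ)) (𝓝 0) (𝓝 (V (t : ℂ))) := by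
      have := hcontV.tendsto
      simpa using this
    exact h1.eventually hloc
  have hxa : AnalyticAt ℂ (fun τ => (W τ).1) 0 := AnalyticAt.fun_comp analyticAt_fst hWa
  have hva : AnalyticAt ℂ (fun τ => (W τ).2) 0 := AnalyticAt.fun_comp analyticAt_snd hWa
  obtain ⟨η, hη, hηb⟩ := Metric.eventually_nhds_iff_ball.1 hloc'
  -- the sign condition in terms of W
  have hsW : ∀ τ τ' : ℝ, 0 < τ → τ < ε → 0 < τ' → τ' < ε →
      (W ((-τ : ℝ) : ℂ)).1.re * (W (τ' : ℂ)).1.re < 0 := by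
    intro τ τ' h1 h2 h3 h4
    have := hs τ τ' h1 h2 h3 h4
    simp only [hW]
    have e1 : (t : ℂ) + ((-τ : ℝ) : ℂ) = ((t - τ : ℝ) : ℂ) := by push_cast; ring
    have e2 : (t : ℂ) + (τ' : ℂ) = ((t + τ' : ℝ) : ℂ) := by push_cast; ring
    rw [e1, e2]; exact this
  have hWreal : ∀ τ : ℝ, |τ| < η → cj (W (τ : ℂ)) = W (τ : ℂ) := by
    intro τ hτ
    obtain ⟨h1, h2, h3⟩ := hηb (τ : ℂ) (by
      rw [mem_ball_zero_iff, Complex.norm_real, Real.norm_eq_abs]; exact hτ)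
    refine hc.real _ h2 h3 ?_
    have h4 : χ (W (τ : ℂ)) = F^[j] (V ((t : ℂ) + (τ : ℂ))) := χ.right_inv h1
    rw [h4, ← cj_iter h.cF, ← cV]
    congr 2
    simp
  have hnz : ¬ ∀ᶠ τ in 𝓝 (0 : ℂ), (W τ).1 = 0 := by
    intro hev
    obtain ⟨ρ, hρ, hb⟩ := Metric.eventually_nhds_iff_ball.1 hev
    have hm : 0 < min ε ρ / 2 := by have := lt_min hε hρ; linarith
    have hm1 : min ε ρ / 2 < ε := by
      have := min_le_left ε ρ; have := lt_min hε hρ; linarith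
    have hm2 : min ε ρ / 2 < ρ := by
      have := min_le_right ε ρ; have := lt_min hε hρ; linarith
    have h1 := hsW _ _ hm hm1 hm hm1
    rw [hb _ (by rw [mem_ball_zero_iff, Complex.norm_real, Real.norm_eq_abs, abs_neg,
      abs_of_pos hm]; exact hm2)] at h1
    simp at h1
  obtain ⟨k, u, hua, hu0, huev⟩ := hxa.exists_eventuallyEq_pow_smul_nonzero_iff.2 hnz
  have huev' : ∀ᶠ τ in 𝓝 (0 : ℂ), (W τ).1 = τ ^ k * u τ := by
    filter_upwards [huev] with τ hτ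
    rw [hτ, sub_zero, smul_eq_mul]
  obtain ⟨ρ1, hρ1, hb1⟩ := Metric.eventually_nhds_iff_ball.1 huev'
  -- u is real on the real line near 0
  have hureal : ∀ τ : ℝ, τ ≠ 0 → |τ| < η → |τ| < ρ1 → (u (τ : ℂ)).im = 0 := by
    intro τ hτ0 h1 h2
    have h3 := hb1 (τ : ℂ) (by
      rw [mem_ball_zero_iff, Complex.norm_real, Real.norm_eq_abs]; exact h2)
    have h4 : (W (τ : ℂ)).1.im = 0 := Complex.conj_eq_iff_im.1 (congrArg Prod.fst (hWreal τ h1))
    rw [h3] at h4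
    have h5 : ((τ : ℂ) ^ k * u (τ : ℂ)) = ((τ ^ k : ℝ) : ℂ) * u (τ : ℂ) := by push_cast; rfl
    rw [h5, Complex.im_ofReal_mul] at h4
    rcases mul_eq_zero.1 h4 with h6 | h6
    · exact absurd h6 (pow_ne_zero _ hτ0)
    · exact h6
  have cu : ContinuousAt (fun τ : ℝ => u (τ : ℂ)) 0 := by
    have h1 : ContinuousAt u ((0 : ℝ) : ℂ) := by simpa using hua.continuousAt
    exact ContinuousAt.comp (f := fun τ : ℝ => (τ : ℂ)) (g := u) h1
      Complex.continuous_ofReal.continuousAt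
  have hu0im : (u 0).im = 0 := by
    have c1 : Tendsto (fun τ : ℝ => (u (τ : ℂ)).im) (𝓝[≠] 0) (𝓝 (u 0).im) := by
      have := (Complex.continuous_im.continuousAt.comp cu).tendsto
      have h2 : Tendsto (fun τ : ℝ => (u (τ : ℂ)).im) (𝓝 0) (𝓝 (u ((0 : ℝ) : ℂ)).im) := this
      rw [Complex.ofReal_zero] at h2
      exact h2.mono_left nhdsWithin_le_nhds
    have c2 : Tendsto (fun τ : ℝ => (u (τ : ℂ)).im) (𝓝[≠] 0) (𝓝 0) := by
      refine tendsto_const_nhds.congr' ?_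
      have hmem : Set.Ioo (-(min η ρ1)) (min η ρ1) ∈ 𝓝 (0 : ℝ) :=
        Ioo_mem_nhds (by have := lt_min hη hρ1; linarith) (lt_min hη hρ1)
      filter_upwards [self_mem_nhdsWithin, mem_nhdsWithin_of_mem_nhds hmem] with τ h1 h2
      have h3 : |τ| < min η ρ1 := abs_lt.2 ⟨h2.1, h2.2⟩
      exact (hureal τ h1 (lt_of_lt_of_le h3 (min_le_left _ _))
        (lt_of_lt_of_le h3 (min_le_right _ _))).symm
    exact tendsto_nhds_unique c1 c2
  have hodd : Odd k := by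
    by_contra hev
    rw [Nat.not_odd_iff_even] at hev
    have hure : (u 0).re ≠ 0 := fun h0 => hu0 (Complex.ext (by simpa using h0)
      (by simpa using hu0im))
    have c1 : ContinuousAt (fun τ : ℝ => (u (τ : ℂ)).re) 0 :=
      Complex.continuous_re.continuousAt.comp cu
    have cn : ContinuousAt (fun τ : ℝ => (u ((-τ : ℝ) : ℂ)).re) 0 := by
      have h1 : ContinuousAt (fun τ : ℝ => (u (τ : ℂ)).re) (-0) := by rw [neg_zero]; exact c1
      exact ContinuousAt.comp (f := fun τ : ℝ => -τ) (g := fun τ : ℝ => (u (τ : ℂ)).re) h1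
        continuous_neg.continuousAt
    have c2 : ∀ᶠ τ : ℝ in 𝓝 0, 0 < (u ((-τ : ℝ) : ℂ)).re * (u (τ : ℂ)).re := by
      have h1 := cn.mul c1
      refine continuousAt_const.eventually_lt h1 ?_
      simp only [neg_zero, Complex.ofReal_zero]
      exact mul_self_pos.2 hure
    obtain ⟨ρ2, hρ2, hb2⟩ := Metric.eventually_nhds_iff_ball.1 c2
    set m := min (min ε ρ1) ρ2 / 2 with hm
    have hmm : 0 < min (min ε ρ1) ρ2 := lt_min (lt_min hε hρ1) hρ2
    have hm0 : 0 < m := by rw [hm]; linarith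
    have hmle : m < min (min ε ρ1) ρ2 := by rw [hm]; linarith
    have hm1 : m < ε := lt_of_lt_of_le hmle ((min_le_left _ _).trans (min_le_left _ _))
    have hm2 : m < ρ1 := lt_of_lt_of_le hmle ((min_le_left _ _).trans (min_le_right _ _))
    have hm3 : m < ρ2 := lt_of_lt_of_le hmle (min_le_right _ _)
    have h1 := hsW m m hm0 hm1 hm0 hm1
    have w1 : ((-m : ℝ) : ℂ) ∈ Metric.ball (0 : ℂ) ρ1 := by
      rw [mem_ball_zero_iff, Complex.norm_real, Real.norm_eq_abs, abs_neg, abs_of_pos hm0]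
      exact hm2
    have w2 : ((m : ℝ) : ℂ) ∈ Metric.ball (0 : ℂ) ρ1 := by
      rw [mem_ball_zero_iff, Complex.norm_real, Real.norm_eq_abs, abs_of_pos hm0]
      exact hm2
    rw [hb1 _ w1, hb1 _ w2] at h1
    have e1 : (((-m : ℝ) : ℂ) ^ k * u ((-m : ℝ) : ℂ)) =
        ((m ^ k : ℝ) : ℂ) * u ((-m : ℝ) : ℂ) := by
      rw [← Complex.ofReal_pow, hev.neg_pow]
    have e2 : (((m : ℝ) : ℂ) ^ k * u ((m : ℝ) : ℂ)) =
        ((m ^ k : ℝ) : ℂ) * u ((m : ℝ) : ℂ) := by push_cast; rfl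
    rw [e1, e2, Complex.re_ofReal_mul, Complex.re_ofReal_mul] at h1
    have h2 := hb2 m (by rw [mem_ball_zero_iff, Real.norm_eq_abs, abs_of_pos hm0]; exact hm3)
    have h3 : 0 < m ^ k := pow_pos hm0 k
    have h4 : 0 < (m ^ k * (u ((-m : ℝ) : ℂ)).re) * (m ^ k * (u ((m : ℝ) : ℂ)).re) := by
      have := mul_pos (mul_pos h3 h3) h2
      nlinarith
    linarith
  have hall : ∀ᶠ τ in 𝓝 (0 : ℂ), AnalyticAt ℂ u τ ∧ AnalyticAt ℂ (fun τ => (W τ).2) τ ∧
      (W τ).1 = τ ^ k * u τ ∧ F^[j] (V ((t : ℂ) + τ)) ∈ χ.target ∧ ‖(W τ).1‖ < r ∧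
      ‖(W τ).2‖ < r := by
    filter_upwards [hua.eventually_analyticAt, hva.eventually_analyticAt, huev', hloc'] with
      τ a b c d using ⟨a, b, c, d⟩
  obtain ⟨ρ, hρ, hb⟩ := Metric.eventually_nhds_iff_ball.1 hall
  refine ⟨j, k, u, fun τ => (W τ).2, ρ, hρ, hodd, hjδ, hjr, ?_, ?_, hu0, hu0im, ?_, ?_⟩
  · exact fun τ hτ => (hb τ hτ).1.differentiableAt.differentiableWithinAt
  · exact fun τ hτ => (hb τ hτ).2.1.differentiableAt.differentiableWithinAt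
  · show (W 0).2 = _
    rw [hW0]
  · intro τ hτ
    obtain ⟨-, -, h1, h2, h3, h4⟩ := hb τ hτ
    refine ⟨by rw [← h1]; exact h3, h4, ?_⟩
    rw [← h1]
    exact (χ.right_inv h2).symm

end Pool.Agent.H53.HN
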