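import Mathlib

/-!
# MP_50acbd_an, real Henon maps: definitions (helper53, folder HN)

The complete paper proof is in the team table `proofs`, id 277.
Real Henon map `fR c b`, its inverse `gR c b` (for b not 0), the complex versions `fC`, `gC`,
the inclusion `io` of the real plane into the complex plane, complex conjugation `cj`,
the real part `rp`, and the identification `en` of the real plane with the complex line.
-/

set_option autoImplicit false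

namespace Pool.Agent.H53.HN

open Filter Topology

/-- The real Henon map. -/
def fR (c b : ℝ) (z : ℝ × ℝ) : ℝ × ℝ := (z.1 ^ 2 + c - b * z.2, z.1)

/-- Its inverse (for b not zero). -/
noncomputable def gR (c b : ℝ) (z : ℝ × ℝ) : ℝ × ℝ := (z.2, (z.2 ^ 2 + c - z.1) / b)

/-- The complex Henon map with real parameters. -/
def fC (c b : ℝ) (z : ℂ × ℂ) : ℂ × ℂ := (z.1 ^ 2 + (c : ℂ) - (b : ℂ) * z.2, z.1)

/-- Its inverse. -/
noncomputable def gC (c b : ℝ) (z : ℂ × ℂ) : ℂ × ℂ :=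
  (z.2, (z.2 ^ 2 + (c : ℂ) - z.1) / (b : ℂ))

/-- Inclusion of the real plane. -/
def io (z : ℝ × ℝ) : ℂ × ℂ := ((z.1 : ℂ), (z.2 : ℂ))

/-- Complex conjugation of the complex plane (two complex coordinates). -/
def cj (z : ℂ × ℂ) : ℂ × ℂ := (starRingEnd ℂ z.1, starRingEnd ℂ z.2)

/-- Real part. -/
def rp (z : ℂ × ℂ) : ℝ × ℝ := (z.1.re, z.2.re)

/-- The real plane as the complex line. -/
noncomputable def en (z : ℝ × ℝ) : ℂ := (z.1 : ℂ) + (z.2 : ℂ) * Complex.I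

/-- Determinant of two vectors. -/
def det2 (v w : ℂ × ℂ) : ℂ := v.1 * w.2 - v.2 * w.1

/-- Determinant of two real vectors. -/
def det2R (v w : ℝ × ℝ) : ℝ := v.1 * w.2 - v.2 * w.1

/-- Stable set of p. -/
def Ws (c b : ℝ) (p : ℝ × ℝ) : Set (ℝ × ℝ) :=
  {z | Tendsto (fun t : ℕ => dist ((fR c b)^[t] z) ((fR c b)^[t] p)) atTop (𝓝 0)}

/-- Unstable set of p. -/
def Wu (c b : ℝ) (p : ℝ × ℝ) : Set (ℝ × ℝ) :=
  {z | Tendsto (fun t : ℕ => dist ((gR c b)^[t] z) ((gR c b)^[t] p)) atTop (𝓝 0)}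

/-- F is an automorphism of the complex plane (two coordinates) with inverse G, both entire and real,
p is a real fixed point, U and S are entire real parametrisations of its unstable and stable
manifolds, linearising F with the multipliers mu > 1 > nu > 0. -/
structure IsSad (F G : ℂ × ℂ → ℂ × ℂ) (p : ℝ × ℝ) (μ ν : ℝ) (U S : ℂ → ℂ × ℂ) : Prop where
  FG : ∀ z, F (G z) = z
  GF : ∀ z, G (F z) = z
  aF : ∀ z, AnalyticAt ℂ F z
  aG : ∀ z, AnalyticAt ℂ G z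
  cF : ∀ z, F (cj z) = cj (F z)
  mu : 1 < μ
  nu0 : 0 < ν
  nu1 : ν < 1
  dU : Differentiable ℂ U
  dS : Differentiable ℂ S
  U0 : U 0 = io p
  S0 : S 0 = io p
  eU : ∀ t, F (U t) = U ((μ : ℂ) * t)
  eS : ∀ t, F (S t) = S ((ν : ℂ) * t)
  cU : ∀ t, U (starRingEnd ℂ t) = cj (U t)
  cS : ∀ t, S (starRingEnd ℂ t) = cj (S t)
  li : det2 (deriv U 0) (deriv S 0) ≠ 0

/-- A chart at the saddle in which the axes are the invariant manifolds. -/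
structure IsChart (F : ℂ × ℂ → ℂ × ℂ) (p : ℝ × ℝ) (μ ν : ℝ) (U S : ℂ → ℂ × ℂ)
    (χ : OpenPartialHomeomorph (ℂ × ℂ) (ℂ × ℂ)) (r C : ℝ) : Prop where
  r0 : 0 < r
  C0 : 0 < C
  src : ∀ z : ℂ × ℂ, ‖z.1‖ < r → ‖z.2‖ < r → z ∈ χ.source
  app : ∀ z ∈ χ.source, χ z = U z.1 + S z.2 - io p
  asym : ∀ z ∈ χ.target, AnalyticAt ℂ χ.symm z
  real : ∀ z : ℂ × ℂ, ‖z.1‖ < r → ‖z.2‖ < r → cj (χ z) = χ z → cj z = z
  tgt : ∀ z : ℂ × ℂ, ‖z.1‖ < r → ‖z.2‖ < r → F (χ z) ∈ χ.target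
  sm1 : C * r ≤ (1 - ν) / 2
  sm2 : C * r ≤ (μ - 1) / 2
  n1 : ∀ z : ℂ × ℂ, ‖z.1‖ < r → ‖z.2‖ < r →
    ‖(χ.symm (F (χ z))).1 - (μ : ℂ) * z.1‖ ≤ C * ‖z.1‖ * ‖z.2‖
  n2 : ∀ z : ℂ × ℂ, ‖z.1‖ < r → ‖z.2‖ < r →
    ‖(χ.symm (F (χ z))).2 - (ν : ℂ) * z.2‖ ≤ C * ‖z.1‖ * ‖z.2‖

/-- Sector in which forward orbits escape. -/
def Np (R : ℝ) : Set (ℝ × ℝ) := {z | R ≤ z.2 ∧ 2 * z.2 ≤ z.1}

/-- Sector in which backward orbits escape. -/
def Nm (b R : ℝ) : Set (ℝ × ℝ) :=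
  {z | (0 < b → R ≤ z.1 ∧ 2 * z.1 ≤ z.2) ∧ (b < 0 → z.1 ≤ -R ∧ z.2 ≤ 2 * z.1)}

/-- The escape sectors work at level R: f keeps Np, g keeps Nm, points of Np escape forward, points
of Nm backward; far points with bounded forward (backward) orbit enter Nm (Np) backward (forward). -/
structure IsSec (c b R : ℝ) : Prop where
  R0 : 0 < R
  fNp : ∀ z ∈ Np R, fR c b z ∈ Np R
  gNm : ∀ z ∈ Nm b R, gR c b z ∈ Nm b R
  escP : ∀ z ∈ Np R, ¬ ∃ K : ℝ, ∀ t : ℕ, ‖(fR c b)^[t] z‖ ≤ K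
  escM : ∀ z ∈ Nm b R, ¬ ∃ K : ℝ, ∀ t : ℕ, ‖(gR c b)^[t] z‖ ≤ K
  retM : ∀ z : ℝ × ℝ, R ≤ ‖z‖ → (∃ K : ℝ, ∀ t : ℕ, ‖(fR c b)^[t] z‖ ≤ K) →
    (gR c b)^[2] z ∈ Nm b R
  retP : ∀ z : ℝ × ℝ, R ≤ ‖z‖ → (∃ K : ℝ, ∀ t : ℕ, ‖(gR c b)^[t] z‖ ≤ K) →
    (fR c b)^[2] z ∈ Np R
  disj : Disjoint (Np R) (Nm b R)

/-- Rotation data: a centre o, fixed by the h-th iterate, and the displacement d of a lift of that
iterate to the universal cover of the plane without o; in the sectors the lift keeps the sheet. -/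
structure IsRot (c b : ℝ) (h : ℕ) (R : ℝ) (o : ℝ × ℝ) (d : ℝ × ℝ → ℝ) : Prop where
  h0 : 0 < h
  fix : (fR c b)^[h] o = o
  cont : ContinuousOn d {o}ᶜ
  rot : ∀ z, z ≠ o → ∃ ρ : ℝ, 0 < ρ ∧
    en ((fR c b)^[h] z) - en o = (ρ : ℂ) * Complex.exp ((d z : ℂ) * Complex.I) * (en z - en o)
  argP : ∀ z ∈ Np R,
    Complex.arg (en ((fR c b)^[h] z) - en o) = Complex.arg (en z - en o) + d z
  argM : ∀ z ∈ Nm b R, (fR c b)^[h] z ∈ Nm b R →
    Complex.arg (en ((fR c b)^[h] z) - en o) = Complex.arg (en z - en o) + d z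

/-- The curve V meets the curve S at V t = S s, and (for some j) the first chart coordinate of the
j-th iterate changes sign along V at t. -/
def CrossAt (F : ℂ × ℂ → ℂ × ℂ) (χ : OpenPartialHomeomorph (ℂ × ℂ) (ℂ × ℂ)) (ν r : ℝ)
    (V S : ℂ → ℂ × ℂ) (t s : ℝ) : Prop :=
  V (t : ℂ) = S (s : ℂ) ∧ ∃ j : ℕ, ν ^ j * |s| < r ∧ ∃ ε : ℝ, 0 < ε ∧ ∀ τ τ' : ℝ,
    0 < τ → τ < ε → 0 < τ' → τ' < ε →
      (χ.symm (F^[j] (V ((t - τ : ℝ) : ℂ)))).1.re *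
        (χ.symm (F^[j] (V ((t + τ' : ℝ) : ℂ)))).1.re < 0

/-- Transversal intersection of the unstable set of p and the stable set of q (tangent vectors
described by contraction), as in the frozen statement. -/
def TI (c b : ℝ) (p q : ℝ × ℝ) : Prop :=
  ∃ z : ℝ × ℝ, z ∈ Wu c b p ∧ z ∈ Ws c b q ∧ ∃ v w : ℝ × ℝ, det2R v w ≠ 0 ∧
    Tendsto (fun t : ℕ => ‖fderiv ℝ ((fR c b)^[t]) z v‖) atTop (𝓝 0) ∧
    Tendsto (fun t : ℕ => ‖fderiv ℝ ((gR c b)^[t]) z w‖) atTop (𝓝 0)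

/-- Exponents a < 0 < e at the periodic point p with common eigenvectors v, w. -/
structure IsExp (c b : ℝ) (p : ℝ × ℝ) (a e : ℝ) (v w : ℝ × ℝ) : Prop where
  a0 : a < 0
  e0 : 0 < e
  li : det2R v w ≠ 0
  ev : ∀ m : ℕ, 0 < m → (fR c b)^[m] p = p → ∃ x y : ℝ,
    fderiv ℝ ((fR c b)^[m]) p v = x • v ∧ fderiv ℝ ((fR c b)^[m]) p w = y • w ∧
    |x| = Real.exp (m * a) ∧ |y| = Real.exp (m * e)

/-- L is a continuous logarithm of γ - z on [0,1]. -/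
def IsLog (γ : ℝ → ℂ) (z : ℂ) (L : ℝ → ℂ) : Prop :=
  ContinuousOn L (Set.Icc 0 1) ∧ ∀ s ∈ Set.Icc (0 : ℝ) 1, Complex.exp (L s) = γ s - z

open Classical in
/-- Index of the loop γ on [0,1] around z (an integer if γ is closed and misses z). -/
noncomputable def ind (γ : ℝ → ℂ) (z : ℂ) : ℂ :=
  if h : ∃ L, IsLog γ z L then (h.choose 1 - h.choose 0) / (2 * (Real.pi : ℂ) * Complex.I) else 0

/-- The loop consisting of the path ψ on [α,β] and the segment from ψ β back to ψ α. -/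
noncomputable def lp (ψ : ℝ → ℂ) (α β : ℝ) (s : ℝ) : ℂ :=
  if s ≤ 1 / 2 then ψ (α + 2 * s * (β - α))
  else ψ β + ((2 * s - 1 : ℝ) : ℂ) * (ψ α - ψ β)

/-- The real curve of an entire real parametrisation, as a path in the complex line. -/
noncomputable def pa (V : ℂ → ℂ × ℂ) (t : ℝ) : ℂ := en (rp (V (t : ℂ)))

end Pool.Agent.H53.HN
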