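import Pool.Agent.H53.HN.Fder

/-! # Exponents and common eigenvectors of a periodic saddle (helper53, folder HN)

PROOF of `exp_ex`. A = fderiv (f^[m0]) p, eigenvectors v for μ1, w for μ2 (nonzero; `Module.End.HasEigenvalue.exists_hasEigenvector`); A is injective (`gf_der`), so μ1 ≠ 0. μ1 ≠ μ2, so v, w are linearly independent: det2R v w ≠ 0. a = log|μ1|/m0 < 0, e = log|μ2|/m0 > 0.
 Let m > 0, f^[m] p = p, B = fderiv (f^[m]) p. By `chain_f` in both orders A (B x) = B (A x) for all x (f^[m0+m] = f^[m+m0], both points fixed). So A (B v) = μ1 (B v); write B v = s v + t w (basis); A (B v) = s μ1 v + t μ2 w = μ1 (s v + t w), so t = 0: B v = x v. Similarly B w = y w.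
 fderiv (f^[m0 m]) p = A^m = B^m0 applied to v (induction with `chain_f`): μ1^m = x^m0, so |x|^m0 = |μ1|^m = exp(m m0 a) so |x| = exp(m a). The same for y.
PROOF of `exp_eig`: v ≠ 0 is an eigenvector for x, |x| = exp(m a) < 1, log|x| = m a; w for y.
PROOF of `exp_shift`: if f^[m] (f^[i] p) = f^[i] p then f^[m] p = p (f injective). fderiv (f^[m]) (f^[i] p) (D v) = fderiv (f^[m+i]) p v = fderiv (f^[i+m]) p v = D (B v) = x D v, D = fderiv (f^[i]) p. det2R (D v) (D w) ≠ 0: D is injective linear (`gf_der`): if det2R (D v) (D w) = 0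
 then s D v + t D w = 0 for some (s,t) ≠ 0, so s v + t w = 0, contradiction to det2R v w ≠ 0.
-/

set_option autoImplicit false

namespace Pool.Agent.H53.HN

private lemma exp_dep {v w : ℝ × ℝ} (h : det2R v w = 0) :
    ∃ s t : ℝ, (s ≠ 0 ∨ t ≠ 0) ∧ s • v + t • w = 0 := by
  obtain ⟨v1, v2⟩ := v
  obtain ⟨w1, w2⟩ := w
  simp only [det2R] at h
  by_cases h1 : w2 ≠ 0 ∨ v2 ≠ 0
  · refine ⟨w2, -v2, ?_, ?_⟩
    · rcases h1 with h1 | h1
      · exact Or.inl h1
      · exact Or.inr (neg_ne_zero.2 h1)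
    · ext
      · simp only [Prod.smul_mk, Prod.mk_add_mk, smul_eq_mul, Prod.fst_zero]; linarith
      · simp only [Prod.smul_mk, Prod.mk_add_mk, smul_eq_mul, Prod.snd_zero]; ring
  · by_cases h2 : w1 ≠ 0 ∨ v1 ≠ 0
    · refine ⟨w1, -v1, ?_, ?_⟩
      · rcases h2 with h2 | h2
        · exact Or.inl h2
        · exact Or.inr (neg_ne_zero.2 h2)
      · ext
        · simp only [Prod.smul_mk, Prod.mk_add_mk, smul_eq_mul, Prod.fst_zero]; ring
        · simp only [Prod.smul_mk, Prod.mk_add_mk, smul_eq_mul, Prod.snd_zero]; linarith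
    · push Not at h1 h2
      refine ⟨1, 0, Or.inl one_ne_zero, ?_⟩
      rw [h1.2, h2.2]
      simp

private lemma exp_span {v w : ℝ × ℝ} (h : det2R v w ≠ 0) (x : ℝ × ℝ) :
    ∃ s t : ℝ, x = s • v + t • w := by
  obtain ⟨v1, v2⟩ := v
  obtain ⟨w1, w2⟩ := w
  obtain ⟨x1, x2⟩ := x
  simp only [det2R] at h
  refine ⟨(x1 * w2 - x2 * w1) / (v1 * w2 - v2 * w1), (v1 * x2 - v2 * x1) / (v1 * w2 - v2 * w1), ?_⟩
  ext
  · simp only [Prod.smul_mk, Prod.mk_add_mk, smul_eq_mul]
    rw [div_mul_eq_mul_div, div_mul_eq_mul_div, ← add_div, eq_div_iff h]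
    ring
  · simp only [Prod.smul_mk, Prod.mk_add_mk, smul_eq_mul]
    rw [div_mul_eq_mul_div, div_mul_eq_mul_div, ← add_div, eq_div_iff h]
    ring

private lemma exp_indep {v w : ℝ × ℝ} (h : det2R v w ≠ 0) {s t s' t' : ℝ}
    (he : s • v + t • w = s' • v + t' • w) : s = s' ∧ t = t' := by
  obtain ⟨v1, v2⟩ := v
  obtain ⟨w1, w2⟩ := w
  simp only [det2R] at h
  simp only [Prod.smul_mk, Prod.mk_add_mk, smul_eq_mul, Prod.mk.injEq] at he
  obtain ⟨h1, h2⟩ := he
  constructor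
  · have e : (s - s') * (v1 * w2 - v2 * w1) = 0 := by linear_combination w2 * h1 - w1 * h2
    rcases mul_eq_zero.1 e with e | e
    · linarith
    · exact absurd e h
  · have e : (t - t') * (v1 * w2 - v2 * w1) = 0 := by linear_combination v1 * h2 - v2 * h1
    rcases mul_eq_zero.1 e with e | e
    · linarith
    · exact absurd e h

private lemma exp_iter (c b : ℝ) {p v : ℝ × ℝ} {m : ℕ} {x : ℝ} (hp : (fR c b)^[m] p = p)
    (hv : fderiv ℝ ((fR c b)^[m]) p v = x • v) (k : ℕ) :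
    (fR c b)^[k * m] p = p ∧ fderiv ℝ ((fR c b)^[k * m]) p v = x ^ k • v := by
  induction k with
  | zero =>
    refine ⟨by simp, ?_⟩
    rw [Nat.zero_mul]
    have : (fR c b)^[0] = id := rfl
    rw [this, fderiv_id]
    simp
  | succ k ih =>
    have e : (k + 1) * m = m + k * m := by ring
    rw [e]
    refine ⟨by rw [Function.iterate_add_apply, ih.1, hp], ?_⟩
    rw [chain_f, ih.1, ih.2, map_smul, hv, smul_smul, pow_succ]

private lemma exp_inj (c : ℝ) {b : ℝ} (hb : b ≠ 0) (n : ℕ) (p : ℝ × ℝ) {v : ℝ × ℝ}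
    (h : fderiv ℝ ((fR c b)^[n]) p v = 0) : v = 0 := by
  have := gf_der c hb n p v
  rw [h, map_zero] at this
  exact this.symm

theorem exp_ex {c b : ℝ} (hb : b ≠ 0) {p : ℝ × ℝ}
    (hs : ∃ m : ℕ, 0 < m ∧ (fR c b)^[m] p = p ∧ ∃ μ₁ μ₂ : ℝ,
        Module.End.HasEigenvalue (fderiv ℝ ((fR c b)^[m]) p).toLinearMap μ₁ ∧
        Module.End.HasEigenvalue (fderiv ℝ ((fR c b)^[m]) p).toLinearMap μ₂ ∧
        abs μ₁ < 1 ∧ 1 < abs μ₂) :
    ∃ (a e : ℝ) (v w : ℝ × ℝ), IsExp c b p a e v w := by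
  obtain ⟨m0, hm0, hp, μ₁, μ₂, hμ1, hμ2, h1, h2⟩ := hs
  obtain ⟨v, hv⟩ := hμ1.exists_hasEigenvector
  obtain ⟨w, hw⟩ := hμ2.exists_hasEigenvector
  have hv0 := hv.2
  have hw0 := hw.2
  have hAv : fderiv ℝ ((fR c b)^[m0]) p v = μ₁ • v := hv.apply_eq_smul
  have hAw : fderiv ℝ ((fR c b)^[m0]) p w = μ₂ • w := hw.apply_eq_smul
  have hne : μ₁ ≠ μ₂ := by
    rintro rfl
    linarith
  have hμ10 : μ₁ ≠ 0 := by
    rintro rfl
    rw [zero_smul] at hAv
    exact hv0 (exp_inj c hb m0 p hAv)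
  have hμ20 : μ₂ ≠ 0 := by
    rintro rfl
    rw [abs_zero] at h2
    linarith
  have hdet : det2R v w ≠ 0 := by
    intro hd
    obtain ⟨s, t, hst, he⟩ := exp_dep hd
    have he2 := congrArg (fderiv ℝ ((fR c b)^[m0]) p) he
    rw [map_add, map_smul, map_smul, hAv, hAw, map_zero] at he2
    have e1 : (s * (μ₁ - μ₂)) • v = 0 := by
      have : s • μ₁ • v + t • μ₂ • w - μ₂ • (s • v + t • w) = 0 := by rw [he2, he]; simp
      rw [← this]
      module
    have e2 : (t * (μ₂ - μ₁)) • w = 0 := by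
      have : s • μ₁ • v + t • μ₂ • w - μ₁ • (s • v + t • w) = 0 := by rw [he2, he]; simp
      rw [← this]
      module
    rcases hst with hst | hst
    · rcases smul_eq_zero.1 e1 with h | h
      · rcases mul_eq_zero.1 h with h | h
        · exact hst h
        · exact hne (sub_eq_zero.1 h)
      · exact hv0 h
    · rcases smul_eq_zero.1 e2 with h | h
      · rcases mul_eq_zero.1 h with h | h
        · exact hst h
        · exact hne (sub_eq_zero.1 h).symm
      · exact hw0 h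
  have hm0r : (0 : ℝ) < m0 := by exact_mod_cast hm0
  refine ⟨Real.log |μ₁| / m0, Real.log |μ₂| / m0, v, w, ?_, ?_, hdet, ?_⟩
  · exact div_neg_of_neg_of_pos (Real.log_neg (abs_pos.2 hμ10) h1) hm0r
  · exact div_pos (Real.log_pos h2) hm0r
  · intro m hm hpm
    have hcomm : ∀ x, fderiv ℝ ((fR c b)^[m0]) p (fderiv ℝ ((fR c b)^[m]) p x)
        = fderiv ℝ ((fR c b)^[m]) p (fderiv ℝ ((fR c b)^[m0]) p x) := by
      intro x
      have e1 := chain_f c b m0 m p x
      have e2 := chain_f c b m m0 p x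
      rw [hpm] at e1
      rw [hp] at e2
      rw [← e1, ← e2, add_comm]
    have hBv : ∃ x : ℝ, fderiv ℝ ((fR c b)^[m]) p v = x • v := by
      obtain ⟨s, t, hst⟩ := exp_span hdet (fderiv ℝ ((fR c b)^[m]) p v)
      have e1 := hcomm v
      rw [hAv, map_smul, hst, map_add, map_smul, map_smul, hAv, hAw] at e1
      have e2 : (s * μ₁) • v + (t * μ₂) • w = (μ₁ * s) • v + (μ₁ * t) • w := by
        rw [mul_smul, mul_smul, mul_smul, mul_smul, e1, smul_add]
      have e3 := (exp_indep hdet e2).2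
      have e4 : t = 0 := by
        have : t * (μ₂ - μ₁) = 0 := by linarith
        rcases mul_eq_zero.1 this with h | h
        · exact h
        · exact absurd (sub_eq_zero.1 h).symm hne
      exact ⟨s, by rw [hst, e4, zero_smul, add_zero]⟩
    have hBw : ∃ y : ℝ, fderiv ℝ ((fR c b)^[m]) p w = y • w := by
      obtain ⟨s, t, hst⟩ := exp_span hdet (fderiv ℝ ((fR c b)^[m]) p w)
      have e1 := hcomm w
      rw [hAw, map_smul, hst, map_add, map_smul, map_smul, hAv, hAw] at e1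
      have e2 : (s * μ₁) • v + (t * μ₂) • w = (μ₂ * s) • v + (μ₂ * t) • w := by
        rw [mul_smul, mul_smul, mul_smul, mul_smul, e1, smul_add]
      have e3 := (exp_indep hdet e2).1
      have e4 : s = 0 := by
        have : s * (μ₁ - μ₂) = 0 := by linarith
        rcases mul_eq_zero.1 this with h | h
        · exact h
        · exact absurd (sub_eq_zero.1 h) hne
      exact ⟨t, by rw [hst, e4, zero_smul, zero_add]⟩
    obtain ⟨x, hx⟩ := hBv
    obtain ⟨y, hy⟩ := hBw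
    have key : ∀ (u : ℝ × ℝ) (μ z : ℝ), u ≠ 0 → μ ≠ 0 →
        fderiv ℝ ((fR c b)^[m0]) p u = μ • u → fderiv ℝ ((fR c b)^[m]) p u = z • u →
        |z| = Real.exp (m * (Real.log |μ| / m0)) := by
      intro u μ z hu hμ hA hB
      have e1 := (exp_iter c b hp hA m).2
      have e2 := (exp_iter c b hpm hB m0).2
      rw [mul_comm m m0, e2] at e1
      have e3 : z ^ m0 = μ ^ m := smul_left_injective ℝ hu e1
      have e4 : |z| ^ m0 = (Real.exp (m * (Real.log |μ| / m0))) ^ m0 := by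
        rw [← abs_pow, e3, abs_pow, ← Real.exp_nat_mul]
        have : (m0 : ℝ) * (m * (Real.log |μ| / m0)) = m * Real.log |μ| := by
          field_simp
        rw [this, Real.exp_nat_mul, Real.exp_log (abs_pos.2 hμ)]
      exact (pow_left_inj₀ (abs_nonneg z) (Real.exp_pos _).le hm0.ne').1 e4
    exact ⟨x, y, hx, hy, key v μ₁ x hv0 hμ10 hAv hx, key w μ₂ y hw0 hμ20 hAw hy⟩

theorem exp_eig {c b : ℝ} {p : ℝ × ℝ} {a e : ℝ} {v w : ℝ × ℝ} (h : IsExp c b p a e v w) {m : ℕ}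
    (hm : 0 < m) (hp : (fR c b)^[m] p = p) :
    (∃ x : ℝ, Module.End.HasEigenvalue (fderiv ℝ ((fR c b)^[m]) p).toLinearMap x ∧
      |x| < 1 ∧ abs (Real.log (abs x)) / m = -a) ∧
    (∃ y : ℝ, Module.End.HasEigenvalue (fderiv ℝ ((fR c b)^[m]) p).toLinearMap y ∧
      1 < |y| ∧ abs (Real.log (abs y)) / m = e) := by
  obtain ⟨x, y, hx, hy, hxa, hya⟩ := h.ev m hm hp
  have hmr : (0 : ℝ) < m := by exact_mod_cast hm
  have hv0 : v ≠ 0 := by
    rintro rfl
    apply h.li
    simp [det2R]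
  have hw0 : w ≠ 0 := by
    rintro rfl
    apply h.li
    simp [det2R]
  refine ⟨⟨x, ?_, ?_, ?_⟩, ⟨y, ?_, ?_, ?_⟩⟩
  · exact Module.End.hasEigenvalue_of_hasEigenvector (x := v)
      ⟨Module.End.mem_eigenspace_iff.2 hx, hv0⟩
  · rw [hxa, Real.exp_lt_one_iff]
    exact mul_neg_of_pos_of_neg hmr h.a0
  · rw [hxa, Real.log_exp, abs_of_neg (mul_neg_of_pos_of_neg hmr h.a0)]
    field_simp
  · exact Module.End.hasEigenvalue_of_hasEigenvector (x := w)
      ⟨Module.End.mem_eigenspace_iff.2 hy, hw0⟩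
  · rw [hya, Real.one_lt_exp_iff]
    exact mul_pos hmr h.e0
  · rw [hya, Real.log_exp, abs_of_pos (mul_pos hmr h.e0)]
    field_simp

theorem exp_shift {c b : ℝ} (hb : b ≠ 0) {p : ℝ × ℝ} {a e : ℝ} {v w : ℝ × ℝ}
    (h : IsExp c b p a e v w) (i : ℕ) :
    ∃ v' w' : ℝ × ℝ, IsExp c b ((fR c b)^[i] p) a e v' w' := by
  refine ⟨fderiv ℝ ((fR c b)^[i]) p v, fderiv ℝ ((fR c b)^[i]) p w, h.a0, h.e0, ?_, ?_⟩
  · intro hd
    obtain ⟨s, t, hst, he⟩ := exp_dep hd
    rw [← map_smul, ← map_smul, ← map_add] at he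
    have h1 := exp_inj c hb i p he
    have h2 : s • v + t • w = (0 : ℝ) • v + (0 : ℝ) • w := by rw [h1]; simp
    obtain ⟨h3, h4⟩ := exp_indep h.li h2
    rcases hst with hst | hst
    · exact hst h3
    · exact hst h4
  · intro m hm hpm
    have hp : (fR c b)^[m] p = p := by
      have e1 : (fR c b)^[i] ((fR c b)^[m] p) = (fR c b)^[i] p := by
        rw [← Function.iterate_add_apply, add_comm, Function.iterate_add_apply, hpm]
      have e2 := congrArg ((gR c b)^[i]) e1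
      rwa [iter_gR_fR c hb, iter_gR_fR c hb] at e2
    obtain ⟨x, y, hx, hy, hxa, hya⟩ := h.ev m hm hp
    have key : ∀ (u : ℝ × ℝ) (z : ℝ), fderiv ℝ ((fR c b)^[m]) p u = z • u →
        fderiv ℝ ((fR c b)^[m]) ((fR c b)^[i] p) (fderiv ℝ ((fR c b)^[i]) p u)
          = z • fderiv ℝ ((fR c b)^[i]) p u := by
      intro u z hu
      rw [← chain_f, add_comm, chain_f, hp, hu, map_smul]
    exact ⟨x, y, key v x hx, key w y hy, hxa, hya⟩

end Pool.Agent.H53.HN
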