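import Pool.Agent.H53.HN.It
import Pool.Agent.H53.HN.Curve
import Pool.Agent.H53.HN.CoreDefs

/-! # The family exists (helper53, folder HN)

PROOF. `it` with ε = 1/400 gives δ. `curve` with δ/2 gives i0 (= its j), k odd (so k > 0), u, v, ρ. Let u0 = (u 0).re ≠ 0, u 0 = u0. Real numbers: m > 1 with m^k = μ (m = μ^(1/k)), w0 ≠ 0 with u0 w0^k = t' (k odd: real k-th root of t'/u0).
 Choose ρ' <= ρ such that ‖u τ - u 0‖ <= |u0|/400 and ‖v τ‖ <= δ for ‖τ‖ < ρ' (v 0 has norm < δ/2). Choose J0 with m^-J0 |w0| * 2 < ρ'. For the index j put n = J0 + j, τ = m^-n w0 (1 + w), so ‖τ‖ < ρ'; a j = t + m^-n w0, b j = m^-n w0, V (a j + b j w) = V (t + τ), J j = i0 + n.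
 F^[i0] (V (t+τ)) = χ (τ^k u τ, v τ); μ^n τ^k = w0^k (1+w)^k. |1+w|^k <= (1 + 1/(4k))^k <= exp(1/4) < 1.29. μ^n ‖τ^k u τ‖ <= |w0|^k 1.29 |u0| (1 + 1/400) <= 1.3 |t'| <= 1.3 r/4 < r/2. `it` applies to the point (τ^k u τ, v τ): F^[n] of it is χ w', with
 ‖w'.1 - w0^k (1+w)^k u τ‖ <= (1/400) 1.3 |t'|, ‖w'.2‖ <= ν1^n δ. Define X j w, Y j w as the coordinates of χ.symm (F^[J j] (V (a j + b j w))); they are those of w' (`chart_symm`).
 ‖X - t'(1+w)^k‖ <= 1.3|t'|/400 + |w0|^k |1+w|^k |u τ - u 0| <= 1.3 |t'|/400 + 1.29 |t'|/400 <= |t'|/100. Differentiability: V, F^[n] entire, F^[J j] (V (..)) = χ w' in the open target, hc.asym. Reality: V, F real on real points, hc.real.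
 Y ≠ 0: otherwise F^[J] (V (..)) = χ (X,0) = U X = F^[J] (U (μ^-J X)) (`chart_U`, `iterU`), so V (..) = U (μ^-J X) (F^[J] injective), contradicting hdis. uY: ν1^n δ tends to 0, ν1 = (1+ν)/2 < 1.
-/

set_option autoImplicit false

namespace Pool.Agent.H53.HN

open Filter Topology

variable {F G : ℂ × ℂ → ℂ × ℂ} {p : ℝ × ℝ} {μ ν r C : ℝ} {U S : ℂ → ℂ × ℂ}
  {χ : OpenPartialHomeomorph (ℂ × ℂ) (ℂ × ℂ)}

private theorem odd_root {k : ℕ} (hk : Odd k) (q : ℝ) : ∃ x : ℝ, x ^ k = q := by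
  have hk0 : k ≠ 0 := hk.pos.ne'
  rcases le_or_gt 0 q with hq | hq
  · exact ⟨q ^ ((k : ℝ)⁻¹), Real.rpow_inv_natCast_pow hq hk0⟩
  · refine ⟨-((-q) ^ ((k : ℝ)⁻¹)), ?_⟩
    rw [hk.neg_pow, Real.rpow_inv_natCast_pow (by linarith) hk0, neg_neg]

private theorem exp_quarter : Real.exp (1 / 4) < 1.29 := by
  by_contra hcon
  push Not at hcon
  have h1 : Real.exp (1 / 4) ^ 4 = Real.exp 1 := by
    rw [← Real.exp_nat_mul]; norm_num
  have h2 : (1.29 : ℝ) ^ 4 ≤ Real.exp (1 / 4) ^ 4 := by gcongr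
  have h3 := Real.exp_one_lt_d9
  rw [h1] at h2
  norm_num at h2
  linarith

private theorem pow_one_add {k : ℕ} (hk : 0 < k) {w : ℂ} (hw : ‖w‖ < 1 / (4 * k)) :
    ‖(1 + w) ^ k‖ ≤ 1.29 := by
  have hk' : (0 : ℝ) < k := by exact_mod_cast hk
  have h1 : ‖1 + w‖ ≤ 1 + 1 / (4 * k) := by
    refine (norm_add_le _ _).trans ?_
    rw [norm_one]; linarith
  have h2 : 1 + 1 / (4 * (k : ℝ)) ≤ Real.exp (1 / (4 * k)) := by
    have := Real.add_one_le_exp (1 / (4 * (k : ℝ)))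
    linarith
  rw [norm_pow]
  calc ‖1 + w‖ ^ k ≤ (Real.exp (1 / (4 * k))) ^ k := by
        gcongr; exact h1.trans h2
    _ = Real.exp (1 / 4) := by
        rw [← Real.exp_nat_mul]; congr 1; field_simp
    _ ≤ 1.29 := exp_quarter.le

theorem fam_ex (h : IsSad F G p μ ν U S) (hc : IsChart F p μ ν U S χ r C)
    {V : ℂ → ℂ × ℂ} (dV : Differentiable ℂ V) (cV : ∀ t, V (starRingEnd ℂ t) = cj (V t))
    (hdis : ∀ x y : ℂ, V x ≠ U y) {t s : ℝ} (hX : CrossAt F χ ν r V S t s)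
    {t' : ℝ} (ht' : t' ≠ 0) (hr : |t'| ≤ r / 4) :
    ∃ (k : ℕ) (X Y : ℕ → ℂ → ℂ) (J : ℕ → ℕ) (a b : ℕ → ℝ), IsFam k t' X Y ∧ (∀ j, b j ≠ 0) ∧
      ∀ j, ∀ w ∈ Metric.ball (0 : ℂ) (1 / (4 * k)), ‖X j w‖ < r ∧ ‖Y j w‖ < r ∧
        F^[J j] (V ((a j : ℂ) + (b j : ℂ) * w)) = χ (X j w, Y j w) := by
  have hr0 := hc.r0
  have hμ := h.mu0
  obtain ⟨δ, hδ, hit⟩ := it h hc (ε := 1 / 400) (by norm_num) (by norm_num)
  obtain ⟨i0, k, u, v, ρ, hρ, hk, hi0, hi0r, du, dv, hu0, hu0r, hv0, hcur⟩ :=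
    curve h hc dV cV hX (half_pos hδ)
  have hkpos : 0 < k := hk.pos
  have hk' : (0 : ℝ) < k := by exact_mod_cast hkpos
  set u0 : ℝ := (u 0).re with hu0def
  have hu0' : (u0 : ℂ) = u 0 := Complex.ext (by simp [hu0def]) (by simp [hu0r])
  have hu0ne : u0 ≠ 0 := fun h0 => hu0 (by rw [← hu0', h0]; simp)
  -- roots
  obtain ⟨m, hm1, hmk⟩ : ∃ m : ℝ, 1 < m ∧ m ^ k = μ :=
    ⟨μ ^ ((k : ℝ)⁻¹), Real.one_lt_rpow h.mu (inv_pos.2 hk'),
      Real.rpow_inv_natCast_pow hμ.le hkpos.ne'⟩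
  have hm0 : 0 < m := by linarith
  obtain ⟨w0, hw0⟩ := odd_root hk (t' / u0)
  have hw0' : w0 ^ k * u0 = t' := by rw [hw0]; field_simp
  have hw0ne : w0 ≠ 0 := by
    rintro rfl
    rw [zero_pow hkpos.ne', zero_mul] at hw0'
    exact ht' hw0'.symm
  have habs : |w0| ^ k * |u0| = |t'| := by rw [← abs_pow, ← abs_mul, hw0']
  -- a small ball
  have cu : ContinuousAt u 0 :=
    (du.differentiableAt (Metric.isOpen_ball.mem_nhds (Metric.mem_ball_self hρ))).continuousAt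
  have cv : ContinuousAt v 0 :=
    (dv.differentiableAt (Metric.isOpen_ball.mem_nhds (Metric.mem_ball_self hρ))).continuousAt
  have hv0n : ‖v 0‖ < δ := by
    rw [hv0, Complex.norm_real, Real.norm_eq_abs, abs_mul, abs_of_pos (pow_pos h.nu0 i0)]
    linarith
  obtain ⟨ρ', hρ', hρρ, hsm⟩ : ∃ ρ' : ℝ, 0 < ρ' ∧ ρ' ≤ ρ ∧ ∀ τ : ℂ, ‖τ‖ < ρ' →
      ‖u τ - u 0‖ ≤ |u0| / 400 ∧ ‖v τ‖ ≤ δ := by
    have e1 : ∀ᶠ τ in 𝓝 (0 : ℂ), ‖u τ - u 0‖ < |u0| / 400 := by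
      have c3 : ContinuousAt (fun τ => ‖u τ - u 0‖) 0 := (cu.sub continuousAt_const).norm
      refine c3.eventually_lt continuousAt_const ?_
      simp only [sub_self, norm_zero]
      have := abs_pos.2 hu0ne
      positivity
    have e2 : ∀ᶠ τ in 𝓝 (0 : ℂ), ‖v τ‖ < δ := cv.norm.eventually_lt continuousAt_const hv0n
    obtain ⟨ρ1, hρ1, hb⟩ := Metric.eventually_nhds_iff_ball.1 (e1.and e2)
    refine ⟨min ρ1 ρ, lt_min hρ1 hρ, min_le_right _ _, fun τ hτ => ?_⟩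
    have := hb τ (mem_ball_zero_iff.2 (lt_of_lt_of_le hτ (min_le_left _ _)))
    exact ⟨this.1.le, this.2.le⟩
  obtain ⟨J0, hJ0⟩ := pow_unbounded_of_one_lt (2 * |w0| / ρ') hm1
  have hJ0' : 2 * |w0| / m ^ J0 < ρ' := by
    rw [div_lt_iff₀ hρ'] at hJ0
    rw [div_lt_iff₀ (pow_pos hm0 J0)]
    linarith
  set b : ℕ → ℝ := fun j => w0 / m ^ (J0 + j) with hb
  set a : ℕ → ℝ := fun j => t + b j with ha
  set J : ℕ → ℕ := fun j => (J0 + j) + i0 with hJ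
  set W : ℕ → ℂ → ℂ × ℂ := fun j w => χ.symm (F^[J j] (V ((a j : ℂ) + (b j : ℂ) * w))) with hW
  have hab : ∀ j (w : ℂ), (a j : ℂ) + (b j : ℂ) * w = (t : ℂ) + (b j : ℂ) * (1 + w) := by
    intro j w; simp only [ha]; push_cast; ring
  -- the key claim
  have key : ∀ j, ∀ w ∈ Metric.ball (0 : ℂ) (1 / (4 * k)), ∃ w' : ℂ × ℂ, ‖w'.1‖ < r ∧
      ‖w'.2‖ < r ∧ F^[J j] (V ((a j : ℂ) + (b j : ℂ) * w)) = χ w' ∧
      ‖w'.1 - (t' : ℂ) * (1 + w) ^ k‖ ≤ |t'| / 100 ∧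
      ‖w'.2‖ ≤ ((1 + ν) / 2) ^ (J0 + j) * δ := by
    intro j w hw
    rw [mem_ball_zero_iff] at hw
    set n := J0 + j with hn
    have hmn : 0 < m ^ n := pow_pos hm0 n
    have hw14 : ‖w‖ < 1 / 4 := by
      refine lt_of_lt_of_le hw ?_
      rw [div_le_div_iff₀ (by positivity) (by norm_num)]
      have : (1 : ℝ) ≤ k := by exact_mod_cast hkpos
      linarith
    set τ : ℂ := (b j : ℂ) * (1 + w) with hτ
    have hbj : |b j| ≤ |w0| / m ^ J0 := by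
      simp only [hb]
      rw [abs_div, abs_of_pos (pow_pos hm0 _)]
      apply div_le_div_of_nonneg_left (abs_nonneg _) (pow_pos hm0 _)
      exact pow_le_pow_right₀ hm1.le (Nat.le_add_right _ _)
    have hτn : ‖τ‖ < ρ' := by
      rw [hτ, norm_mul, Complex.norm_real, Real.norm_eq_abs]
      have h1 : ‖1 + w‖ ≤ 2 := by
        refine (norm_add_le _ _).trans ?_
        rw [norm_one]; linarith
      calc |b j| * ‖1 + w‖ ≤ (|w0| / m ^ J0) * 2 := by gcongr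
        _ = 2 * |w0| / m ^ J0 := by ring
        _ < ρ' := hJ0'
    obtain ⟨hs1, hs2⟩ := hsm τ hτn
    obtain ⟨hc1, hc2, hc3⟩ := hcur τ (mem_ball_zero_iff.2 (lt_of_lt_of_le hτn hρρ))
    have hP := pow_one_add hkpos hw
    have hτk : ((μ ^ n : ℝ) : ℂ) * (τ ^ k * u τ) = (w0 : ℂ) ^ k * (1 + w) ^ k * u τ := by
      have h1 : ((m ^ n : ℝ) : ℂ) * (b j : ℂ) = (w0 : ℂ) := by
        have : m ^ n * b j = w0 := by simp only [hb, hn]; field_simp
        exact_mod_cast this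
      have h2 : ((μ ^ n : ℝ) : ℂ) = (((m ^ n : ℝ) : ℂ)) ^ k := by
        rw [← hmk]; push_cast; ring
      rw [h2, hτ, mul_pow, ← h1]; ring
    have hun : ‖u τ‖ ≤ |u0| * (1 + 1 / 400) := by
      have := norm_le_norm_add_norm_sub' (u τ) (u 0)
      rw [← hu0', Complex.norm_real, Real.norm_eq_abs, hu0'] at this
      linarith
    have hnorm : ‖(w0 : ℂ) ^ k * (1 + w) ^ k * u τ‖ ≤ 1.3 * |t'| := by
      rw [norm_mul, norm_mul, norm_pow, Complex.norm_real, Real.norm_eq_abs]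
      have h3 : 0 ≤ |w0| ^ k := by positivity
      calc |w0| ^ k * ‖(1 + w) ^ k‖ * ‖u τ‖ ≤ |w0| ^ k * 1.29 * (|u0| * (1 + 1 / 400)) := by
            gcongr
        _ = 1.29 * (1 + 1 / 400) * (|w0| ^ k * |u0|) := by ring
        _ ≤ 1.3 * |t'| := by
            rw [habs]
            have := abs_nonneg t'
            nlinarith
    have hμn : 0 < μ ^ n := pow_pos hμ n
    have hnorm2 : μ ^ n * ‖τ ^ k * u τ‖ ≤ 1.3 * |t'| := by
      have : ‖((μ ^ n : ℝ) : ℂ) * (τ ^ k * u τ)‖ = μ ^ n * ‖τ ^ k * u τ‖ := by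
        rw [norm_mul, Complex.norm_real, Real.norm_of_nonneg hμn.le]
      rw [← this, hτk]; exact hnorm
    obtain ⟨w', h1, h2, h3, h4, h5⟩ := hit (τ ^ k * u τ, v τ) n hs2
      (by simp only; nlinarith)
    refine ⟨w', h1, h2, ?_, ?_, ?_⟩
    · simp only [hJ]
      rw [Function.iterate_add_apply, hab, ← hτ, hc3, h3]
    · simp only at h4
      rw [hτk] at h4
      have e1 : (t' : ℂ) = (w0 : ℂ) ^ k * u 0 := by
        rw [← hu0', ← hw0']; push_cast; ring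
      have e2 : w'.1 - (t' : ℂ) * (1 + w) ^ k =
          (w'.1 - (w0 : ℂ) ^ k * (1 + w) ^ k * u τ) +
          (w0 : ℂ) ^ k * (1 + w) ^ k * (u τ - u 0) := by
        rw [e1]; ring
      rw [e2]
      have e3 : ‖(w0 : ℂ) ^ k * (1 + w) ^ k * (u τ - u 0)‖ ≤ 1.29 * |t'| / 400 := by
        rw [norm_mul, norm_mul, norm_pow, Complex.norm_real, Real.norm_eq_abs]
        calc |w0| ^ k * ‖(1 + w) ^ k‖ * ‖u τ - u 0‖ ≤ |w0| ^ k * 1.29 * (|u0| / 400) := by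
              gcongr
          _ = 1.29 * (|w0| ^ k * |u0|) / 400 := by ring
          _ = 1.29 * |t'| / 400 := by rw [habs]
      have e4 : ‖w'.1 - (w0 : ℂ) ^ k * (1 + w) ^ k * u τ‖ ≤ 1.3 * |t'| / 400 := by
        refine h4.trans ?_
        linarith
      refine (norm_add_le _ _).trans ?_
      have := abs_nonneg t'
      linarith
    · refine h5.trans ?_
      have : 0 ≤ ((1 + ν) / 2) ^ n := by
        have := h.nu0
        positivity
      exact mul_le_mul_of_nonneg_left hs2 this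
  have hWval : ∀ j, ∀ w ∈ Metric.ball (0 : ℂ) (1 / (4 * k)), ‖(W j w).1‖ < r ∧
      ‖(W j w).2‖ < r ∧ F^[J j] (V ((a j : ℂ) + (b j : ℂ) * w)) = χ (W j w) ∧
      ‖(W j w).1 - (t' : ℂ) * (1 + w) ^ k‖ ≤ |t'| / 100 ∧
      ‖(W j w).2‖ ≤ ((1 + ν) / 2) ^ (J0 + j) * δ := by
    intro j w hw
    obtain ⟨w', h1, h2, h3, h4, h5⟩ := key j w hw
    have : W j w = w' := by
      simp only [hW]; rw [h3]; exact (chart_symm hc h1 h2).2
    rw [this]; exact ⟨h1, h2, h3, h4, h5⟩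
  have hWd : ∀ j, DifferentiableOn ℂ (W j) (Metric.ball 0 (1 / (4 * k))) := by
    intro j w hw
    obtain ⟨h1, h2, h3, -, -⟩ := hWval j w hw
    have ht : F^[J j] (V ((a j : ℂ) + (b j : ℂ) * w)) ∈ χ.target := by
      rw [h3]; exact (chart_symm hc h1 h2).1
    have d1 : DifferentiableAt ℂ (fun w : ℂ => (a j : ℂ) + (b j : ℂ) * w) w := by fun_prop
    have d2 : DifferentiableAt ℂ (fun w : ℂ => V ((a j : ℂ) + (b j : ℂ) * w)) w :=
      (dV _).comp w d1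
    have d3 : DifferentiableAt ℂ (fun w : ℂ => F^[J j] (V ((a j : ℂ) + (b j : ℂ) * w))) w :=
      ((diff_iter h.dF (J j)) _).comp w d2
    have d4 : DifferentiableAt ℂ (W j) w :=
      (hc.asym _ ht).differentiableAt.comp w d3
    exact d4.differentiableWithinAt
  have hWr : ∀ j, ∀ w : ℝ, |w| < 1 / (4 * k) → cj (W j (w : ℂ)) = W j (w : ℂ) := by
    intro j w hw
    obtain ⟨h1, h2, h3, -, -⟩ := hWval j (w : ℂ)
      (by rw [mem_ball_zero_iff, Complex.norm_real, Real.norm_eq_abs]; exact hw)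
    refine hc.real _ h1 h2 ?_
    rw [← h3, ← cj_iter h.cF, ← cV]
    congr 3
    simp
  refine ⟨k, fun j w => (W j w).1, fun j w => (W j w).2, J, a, b, ?_, ?_, ?_⟩
  · refine ⟨hkpos, ht', ?_, ?_, ?_, ?_, ?_, ?_, ?_⟩
    · intro j w hw
      exact (hWd j w hw).fst
    · intro j w hw
      exact (hWd j w hw).snd
    · intro j w hw
      exact Complex.conj_eq_iff_im.1 (congrArg Prod.fst (hWr j w hw))
    · intro j w hw
      exact Complex.conj_eq_iff_im.1 (congrArg Prod.snd (hWr j w hw))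
    · intro j w hw
      exact (hWval j w hw).2.2.2.1
    · intro j w hw h0
      obtain ⟨h1, h2, h3, -, -⟩ := hWval j w hw
      have h4 : W j w = ((W j w).1, 0) := Prod.ext rfl h0
      rw [h4, chart_U h hc h1] at h3
      have h5 : U (W j w).1 = F^[J j] (U ((((μ ^ (J j))⁻¹ : ℝ) : ℂ) * (W j w).1)) := by
        rw [h.iterU]
        congr 1
        have : ((μ : ℂ)) ^ (J j) ≠ 0 := pow_ne_zero _ h.muC
        push_cast
        field_simp
      rw [h5] at h3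
      have h6 := congrArg (G^[J j]) h3
      rw [h.iterGF, h.iterGF] at h6
      exact hdis _ _ h6
    · intro ε hε
      have hν1 : (1 + ν) / 2 < 1 := by linarith [h.nu1]
      have hν0 : 0 ≤ (1 + ν) / 2 := by linarith [h.nu0]
      obtain ⟨N, hN⟩ := exists_pow_lt_of_lt_one (div_pos hε hδ) hν1
      refine ⟨N, fun j hj w hw => ?_⟩
      refine (hWval j w hw).2.2.2.2.trans ?_
      have h1 : ((1 + ν) / 2) ^ (J0 + j) ≤ ((1 + ν) / 2) ^ N :=
        pow_le_pow_of_le_one hν0 hν1.le (by omega)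
      rw [lt_div_iff₀ hδ] at hN
      nlinarith
  · intro j
    simp only [hb]
    exact div_ne_zero hw0ne (pow_pos hm0 _).ne'
  · intro j w hw
    obtain ⟨h1, h2, h3, -, -⟩ := hWval j w hw
    exact ⟨h1, h2, h3⟩

end Pool.Agent.H53.HN
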