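import Pool.Agent.H53.HN.Basic

/-! # Escape sectors (helper53, folder HN)

`Np R = {y >= R, x >= 2y}`; `Nm b R = {x >= R, y >= 2x}` if b > 0 and `{x <= -R, y <= 2x}` if b < 0.

PROOF. Choose R0 >= 1 so large that for all t >= R0: t^2 >= |c| + (2 + |b|) t * 1 + ... precisely
 (A) t^2 - |c| - (1+|b|) t >= 2 t   and   (B) t^2 - |c| - t >= 2 |b| t   (e.g. R0 = 4 + |c| + 4|b|: t^2 >= R0 t).
 (s1) z = (x,y) in Np R: x >= 2y >= 2R. f z = (x^2 + c - b y, x), second coordinate x >= R, first >= x^2 - |c| - |b| x >= 2x by (A).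
 (s2) b > 0, z in Nm: x >= R, y >= 2x. g z = (y, (y^2+c-x)/b): y >= R; (y^2 + c - x)/b >= 2y iff y^2 + c - x >= 2 b y, true by (B) since x <= y.
  b < 0, z in Nm: x <= -R, y <= 2x <= -2R. g z = (y, (y^2+c-x)/b), y <= -R; (y^2+c-x)/b <= 2y iff y^2 + c - x >= 2 b y (multiply by b < 0), 2by = 2|b||y|, y^2 + c - x >= y^2 - |c|, true by (B).
 (s3) z in Np R: all iterates in Np R and the second coordinate at least doubles: (f^[t] z).2 >= 2^t R (induction, second coordinate of f z is x >= 2y). So the forward orbit is unbounded.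
 (s4) z in Nm b R: |(g^[t] z).1| >= 2^t R.
 (s5) Let the forward orbit of z be bounded and ‖z‖ >= R. Then |x| < |y|: otherwise |x| >= |y|, |x| >= R >= R0 and by induction the iterates (x_t,y_t) satisfy |x_t| >= 2^t |x|, |x_t| >= |y_t|:
   |x_(t+1)| >= |x_t|^2 - |c| - |b||x_t| >= 2|x_t|, y_(t+1) = x_t. Contradiction. (‖z‖ = max(|x|,|y|).) So |y| >= R, |y| > |x|. g z = (y, y1), y1 = (y^2+c-x)/b, |y1| >= (y^2-|c|-|y|)/|b| >= 2|y|, and sign y1 = sign b.
   b > 0: y1 >= 2|y| >= 2R. g^2 z = (y1, (y1^2 + c - y)/b), (y1^2 + c - y)/b >= 2 y1 by (B) (|y| <= y1): in Nm. b < 0: y1 <= -2|y| <= -2R, g^2 z = (y1, (y1^2+c-y)/b), (y1^2+c-y)/b <= 2 y1: in Nm.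
 (s6) Let the backward orbit of z be bounded, ‖z‖ >= R. Then |y| < |x| or |x| = |y|...: if |y| > |x|... precisely if |y| >= |x| and not |x| >= |y|, i.e. |y| > |x|, then |y| >= R and under g: |y_(t+1)| >= 2|y_t| , |x_(t+1)| = |y_t|: unbounded (by (B) divided by |b|): contradiction.
   So |x| >= |y|, |x| >= R. f z = (x1, x), x1 = x^2 + c - b y >= x^2 - |c| - |b||x| >= 2|x|. f^2 z = (x1^2 + c - b x, x1), second coordinate x1 >= R, first >= x1^2 - |c| - |b| x1 >= 2 x1: in Np.
 (s7) disjointness is immediate (R > 0).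
 `Np_slit`: the real part of en z - en o is z.1 - o.1 >= 2R - |o.1| > 0. `Nm_slit`: b > 0: real part z.1 - o.1 >= R - |o.1| > 0; b < 0: imaginary part z.2 - o.2 <= -2R + |o.2| < 0.
 `Np_unb`: the points (2x, x), x large. `Nm_unb`: (x, 2x), x large (b > 0) or very negative (b < 0).
-/

set_option autoImplicit false

namespace Pool.Agent.H53.HN

private lemma sec_T {c b t : ℝ} (h : 4 + |c| + 4 * |b| ≤ t) :
    4 * t + |c| + 4 * (|b| * t) ≤ t ^ 2 := by
  have hc := abs_nonneg c
  have hb := abs_nonneg b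
  have ht : 4 ≤ t := by linarith
  have h1 : (4 + |c| + 4 * |b|) * t ≤ t * t := mul_le_mul_of_nonneg_right h (by linarith)
  have h2 : |c| * 1 ≤ |c| * t := mul_le_mul_of_nonneg_left (by linarith) hc
  nlinarith

private lemma sec_no_bound {R K : ℝ} (hR : 0 < R) (h : ∀ t : ℕ, 2 ^ t * R ≤ K) : False := by
  obtain ⟨n, hn⟩ := pow_unbounded_of_one_lt (K / R) (by norm_num : (1 : ℝ) < 2)
  rw [div_lt_iff₀ hR] at hn
  linarith [h n]

private lemma sec_fgrow {c b R : ℝ} (hR : 4 + |c| + 4 * |b| ≤ R) {z : ℝ × ℝ}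
    (h1 : R ≤ |z.1|) (h2 : |z.2| ≤ |z.1|) :
    2 * |z.1| ≤ z.1 ^ 2 + c - b * z.2 := by
  have hT := sec_T (hR.trans h1)
  rw [sq_abs] at hT
  have hc := neg_abs_le c
  have hb := le_abs_self (b * z.2)
  rw [abs_mul] at hb
  have h3 : |b| * |z.2| ≤ |b| * |z.1| := mul_le_mul_of_nonneg_left h2 (abs_nonneg b)
  have h4 : 0 ≤ |b| * |z.1| := by positivity
  have h5 := abs_nonneg z.1
  linarith

private lemma sec_ggrow {c b R : ℝ} (hR : 4 + |c| + 4 * |b| ≤ R) {z : ℝ × ℝ}
    (h1 : R ≤ |z.2|) (h2 : |z.1| ≤ |z.2|) :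
    2 * (|b| * |z.2|) ≤ z.2 ^ 2 + c - z.1 := by
  have hT := sec_T (hR.trans h1)
  rw [sq_abs] at hT
  have hc := neg_abs_le c
  have hb := le_abs_self z.1
  have h4 : 0 ≤ |b| * |z.2| := by positivity
  have h5 := abs_nonneg z.2
  linarith

private lemma sec_abs_le_norm (z : ℝ × ℝ) : |z.1| ≤ ‖z‖ ∧ |z.2| ≤ ‖z‖ :=
  ⟨norm_fst_le z, norm_snd_le z⟩

theorem sec_ex (c : ℝ) {b : ℝ} (hb : b ≠ 0) : ∃ R0 : ℝ, 0 < R0 ∧ ∀ R, R0 ≤ R → IsSec c b R := by
  have hbp : 0 < |b| := abs_pos.2 hb
  refine ⟨4 + |c| + 4 * |b|, by positivity, fun R hR => ?_⟩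
  have hR0 : 0 < R := by
    have := abs_nonneg c
    linarith
  have s1 : ∀ z ∈ Np R, fR c b z ∈ Np R := by
    rintro ⟨x, y⟩ ⟨h1, h2⟩
    simp only at h1 h2
    have hx : R ≤ x := by linarith
    have hxa : |x| = x := abs_of_pos (by linarith)
    have hya : |y| = y := abs_of_pos (by linarith)
    have h3 := sec_fgrow (c := c) (b := b) hR (z := (x, y)) (by rw [hxa]; exact hx)
      (by rw [hxa, hya]; linarith)
    simp only [hxa] at h3
    exact ⟨hx, h3⟩
  have s2 : ∀ z ∈ Nm b R, gR c b z ∈ Nm b R := by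
    rintro ⟨x, y⟩ ⟨h1, h2⟩
    simp only at h1 h2
    rcases lt_or_gt_of_ne hb with hneg | hpos
    · obtain ⟨h3, h4⟩ := h2 hneg
      have hya : |y| = -y := abs_of_neg (by linarith)
      have hxa : |x| = -x := abs_of_neg (by linarith)
      have hba : |b| = -b := abs_of_neg hneg
      have h5 := sec_ggrow (c := c) (b := b) hR (z := (x, y)) (by rw [hya]; linarith)
        (by rw [hxa, hya]; linarith)
      simp only [hya, hba] at h5
      refine ⟨fun h => absurd h (not_lt.2 hneg.le), fun _ => ⟨?_, ?_⟩⟩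
      · show y ≤ -R
        linarith
      · show (y ^ 2 + c - x) / b ≤ 2 * y
        rw [div_le_iff_of_neg hneg]
        linarith
    · obtain ⟨h3, h4⟩ := h1 hpos
      have hya : |y| = y := abs_of_pos (by linarith)
      have hxa : |x| = x := abs_of_pos (by linarith)
      have hba : |b| = b := abs_of_pos hpos
      have h5 := sec_ggrow (c := c) (b := b) hR (z := (x, y)) (by rw [hya]; linarith)
        (by rw [hxa, hya]; linarith)
      simp only [hya, hba] at h5
      refine ⟨fun _ => ⟨?_, ?_⟩, fun h => absurd h (not_lt.2 hpos.le)⟩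
      · show R ≤ y
        linarith
      · show 2 * y ≤ (y ^ 2 + c - x) / b
        rw [le_div_iff₀ hpos]
        linarith
  have s3 : ∀ z ∈ Np R, ¬ ∃ K : ℝ, ∀ t : ℕ, ‖(fR c b)^[t] z‖ ≤ K := by
    rintro z hz ⟨K, hK⟩
    have key : ∀ t : ℕ, (fR c b)^[t] z ∈ Np R ∧ 2 ^ t * R ≤ ((fR c b)^[t] z).2 := by
      intro t
      induction t with
      | zero => exact ⟨hz, by simpa using hz.1⟩
      | succ t ih =>
        rw [Function.iterate_succ_apply']
        refine ⟨s1 _ ih.1, ?_⟩
        have h1 := ih.1.2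
        have h2 : (fR c b ((fR c b)^[t] z)).2 = ((fR c b)^[t] z).1 := rfl
        rw [h2, pow_succ]
        linarith [ih.2]
    refine sec_no_bound hR0 (K := K) fun t => ?_
    exact (key t).2.trans ((le_abs_self _).trans ((sec_abs_le_norm _).2.trans (hK t)))
  have s4 : ∀ z ∈ Nm b R, ¬ ∃ K : ℝ, ∀ t : ℕ, ‖(gR c b)^[t] z‖ ≤ K := by
    rintro z hz ⟨K, hK⟩
    have key : ∀ t : ℕ, (gR c b)^[t] z ∈ Nm b R ∧ 2 ^ t * R ≤ |((gR c b)^[t] z).1| := by
      intro t
      induction t with
      | zero =>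
        refine ⟨hz, ?_⟩
        rw [pow_zero, one_mul]
        show R ≤ |z.1|
        rcases lt_or_gt_of_ne hb with hneg | hpos
        · have := (hz.2 hneg).1
          have h1 := neg_abs_le z.1
          linarith
        · exact (hz.1 hpos).1.trans (le_abs_self _)
      | succ t ih =>
        rw [Function.iterate_succ_apply']
        refine ⟨s2 _ ih.1, ?_⟩
        have h2 : (gR c b ((gR c b)^[t] z)).1 = ((gR c b)^[t] z).2 := rfl
        rw [h2, pow_succ]
        have h3 : 2 * |((gR c b)^[t] z).1| ≤ |((gR c b)^[t] z).2| := by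
          rcases lt_or_gt_of_ne hb with hneg | hpos
          · obtain ⟨h4, h5⟩ := ih.1.2 hneg
            rw [abs_of_neg (by linarith), abs_of_neg (by linarith)]
            linarith
          · obtain ⟨h4, h5⟩ := ih.1.1 hpos
            rw [abs_of_pos (by linarith), abs_of_pos (by linarith)]
            linarith
        linarith [ih.2]
    refine sec_no_bound hR0 (K := K) fun t => ?_
    exact (key t).2.trans ((sec_abs_le_norm _).1.trans (hK t))
  have s5 : ∀ z : ℝ × ℝ, R ≤ ‖z‖ → (∃ K : ℝ, ∀ t : ℕ, ‖(fR c b)^[t] z‖ ≤ K) →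
      (gR c b)^[2] z ∈ Nm b R := by
    rintro ⟨x, y⟩ hz ⟨K, hK⟩
    have hnorm : ‖((x, y) : ℝ × ℝ)‖ = max |x| |y| := rfl
    rw [hnorm] at hz
    have hlt : |x| < |y| := by
      by_contra hcon
      push Not at hcon
      rw [max_eq_left hcon] at hz
      have key : ∀ t : ℕ, 2 ^ t * R ≤ |((fR c b)^[t] (x, y)).1| ∧
          |((fR c b)^[t] (x, y)).2| ≤ |((fR c b)^[t] (x, y)).1| := by
        intro t
        induction t with
        | zero => exact ⟨by simpa using hz, hcon⟩
        | succ t ih =>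
          rw [Function.iterate_succ_apply']
          obtain ⟨ih1, ih2⟩ := ih
          set w := (fR c b)^[t] (x, y) with hw
          have hRw : R ≤ |w.1| := by
            have : (1 : ℝ) ≤ 2 ^ t := one_le_pow₀ (by norm_num)
            nlinarith
          have h3 := sec_fgrow (c := c) (b := b) hR hRw ih2
          have h4 : (fR c b w).1 = w.1 ^ 2 + c - b * w.2 := rfl
          have h5 : (fR c b w).2 = w.1 := rfl
          have h6 := le_abs_self (w.1 ^ 2 + c - b * w.2)
          rw [h4, h5, pow_succ]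
          have h7 := abs_nonneg w.1
          constructor <;> linarith
      refine sec_no_bound hR0 (K := K) fun t => ?_
      exact (key t).1.trans ((sec_abs_le_norm _).1.trans (hK t))
    rw [max_eq_right hlt.le] at hz
    have h1 := sec_ggrow (c := c) (b := b) hR (z := (x, y)) hz hlt.le
    simp only at h1
    have hg2 : (gR c b)^[2] (x, y) = ((y ^ 2 + c - x) / b,
        (((y ^ 2 + c - x) / b) ^ 2 + c - y) / b) := rfl
    rw [hg2]
    set y1 := (y ^ 2 + c - x) / b with hy1
    rcases lt_or_gt_of_ne hb with hneg | hpos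
    · have hba : |b| = -b := abs_of_neg hneg
      have h2 : y1 ≤ -(2 * |y|) := by
        rw [hy1, div_le_iff_of_neg hneg]
        rw [hba] at h1
        linarith
      have hy1a : |y1| = -y1 := abs_of_neg (by linarith)
      have h3 := sec_ggrow (c := c) (b := b) hR (z := (y, y1)) (by
        show R ≤ |y1|
        rw [hy1a]; linarith) (by
        show |y| ≤ |y1|
        rw [hy1a]; linarith)
      simp only [hy1a, hba] at h3
      refine ⟨fun h => absurd h (not_lt.2 hneg.le), fun _ => ⟨?_, ?_⟩⟩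
      · show y1 ≤ -R
        linarith
      · show (y1 ^ 2 + c - y) / b ≤ 2 * y1
        rw [div_le_iff_of_neg hneg]
        linarith
    · have hba : |b| = b := abs_of_pos hpos
      have h2 : 2 * |y| ≤ y1 := by
        rw [hy1, le_div_iff₀ hpos]
        rw [hba] at h1
        linarith
      have hy1a : |y1| = y1 := abs_of_pos (by linarith)
      have h3 := sec_ggrow (c := c) (b := b) hR (z := (y, y1)) (by
        show R ≤ |y1|
        rw [hy1a]; linarith) (by
        show |y| ≤ |y1|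
        rw [hy1a]; linarith)
      simp only [hy1a, hba] at h3
      refine ⟨fun _ => ⟨?_, ?_⟩, fun h => absurd h (not_lt.2 hpos.le)⟩
      · show R ≤ y1
        linarith
      · show 2 * y1 ≤ (y1 ^ 2 + c - y) / b
        rw [le_div_iff₀ hpos]
        linarith
  have s6 : ∀ z : ℝ × ℝ, R ≤ ‖z‖ → (∃ K : ℝ, ∀ t : ℕ, ‖(gR c b)^[t] z‖ ≤ K) →
      (fR c b)^[2] z ∈ Np R := by
    rintro ⟨x, y⟩ hz ⟨K, hK⟩
    have hnorm : ‖((x, y) : ℝ × ℝ)‖ = max |x| |y| := rfl
    rw [hnorm] at hz
    have hlt : |y| ≤ |x| := by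
      by_contra hcon
      push Not at hcon
      rw [max_eq_right hcon.le] at hz
      have key : ∀ t : ℕ, 2 ^ t * R ≤ |((gR c b)^[t] (x, y)).2| ∧
          |((gR c b)^[t] (x, y)).1| ≤ |((gR c b)^[t] (x, y)).2| := by
        intro t
        induction t with
        | zero => exact ⟨by simpa using hz, hcon.le⟩
        | succ t ih =>
          rw [Function.iterate_succ_apply']
          obtain ⟨ih1, ih2⟩ := ih
          set w := (gR c b)^[t] (x, y) with hw
          have hRw : R ≤ |w.2| := by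
            have : (1 : ℝ) ≤ 2 ^ t := one_le_pow₀ (by norm_num)
            nlinarith
          have h3 := sec_ggrow (c := c) (b := b) hR hRw ih2
          have h4 : (gR c b w).2 = (w.2 ^ 2 + c - w.1) / b := rfl
          have h5 : (gR c b w).1 = w.2 := rfl
          have h6 : 2 * |w.2| ≤ |(w.2 ^ 2 + c - w.1) / b| := by
            rw [abs_div, le_div_iff₀ hbp]
            have := le_abs_self (w.2 ^ 2 + c - w.1)
            linarith
          rw [h4, h5, pow_succ]
          have h7 := abs_nonneg w.2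
          constructor <;> linarith
      refine sec_no_bound hR0 (K := K) fun t => ?_
      exact (key t).1.trans ((sec_abs_le_norm _).2.trans (hK t))
    rw [max_eq_left hlt] at hz
    have h1 := sec_fgrow (c := c) (b := b) hR (z := (x, y)) hz hlt
    simp only at h1
    have hf2 : (fR c b)^[2] (x, y) = ((x ^ 2 + c - b * y) ^ 2 + c - b * x, x ^ 2 + c - b * y) := rfl
    rw [hf2]
    set x1 := x ^ 2 + c - b * y with hx1
    have hx1a : |x1| = x1 := abs_of_pos (by linarith)
    have h3 := sec_fgrow (c := c) (b := b) hR (z := (x1, x)) (by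
      show R ≤ |x1|
      rw [hx1a]; linarith) (by
      show |x| ≤ |x1|
      rw [hx1a]; linarith)
    simp only [hx1a] at h3
    refine ⟨?_, ?_⟩
    · show R ≤ x1
      linarith
    · exact h3
  have s7 : Disjoint (Np R) (Nm b R) := by
    rw [Set.disjoint_left]
    rintro ⟨x, y⟩ ⟨h1, h2⟩ ⟨h3, h4⟩
    simp only at h1 h2 h3 h4
    rcases lt_or_gt_of_ne hb with hneg | hpos
    · have := h4 hneg
      linarith [this.1, this.2]
    · have := h3 hpos
      linarith [this.1, this.2]
  exact ⟨hR0, s1, s2, s3, s4, s5, s6, s7⟩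

theorem Np_convex (R : ℝ) : Convex ℝ (Np R) := by
  rintro ⟨x, y⟩ ⟨h1, h2⟩ ⟨x', y'⟩ ⟨h1', h2'⟩ a a' ha ha' haa
  simp only at h1 h2 h1' h2'
  refine ⟨?_, ?_⟩
  · show R ≤ a * y + a' * y'
    calc R = (a + a') * R := by rw [haa, one_mul]
      _ ≤ _ := by nlinarith
  · show 2 * (a * y + a' * y') ≤ a * x + a' * x'
    nlinarith

theorem Nm_convex (b R : ℝ) : Convex ℝ (Nm b R) := by
  rintro ⟨x, y⟩ ⟨h1, h2⟩ ⟨x', y'⟩ ⟨h1', h2'⟩ a a' ha ha' haa
  simp only at h1 h2 h1' h2'
  refine ⟨fun hb => ?_, fun hb => ?_⟩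
  · obtain ⟨h3, h4⟩ := h1 hb
    obtain ⟨h3', h4'⟩ := h1' hb
    refine ⟨?_, ?_⟩
    · show R ≤ a * x + a' * x'
      calc R = (a + a') * R := by rw [haa, one_mul]
        _ ≤ _ := by nlinarith
    · show 2 * (a * x + a' * x') ≤ a * y + a' * y'
      nlinarith
  · obtain ⟨h3, h4⟩ := h2 hb
    obtain ⟨h3', h4'⟩ := h2' hb
    refine ⟨?_, ?_⟩
    · show a * x + a' * x' ≤ -R
      calc a * x + a' * x' ≤ (a + a') * (-R) := by nlinarith
        _ = -R := by rw [haa, one_mul]
    · show a * y + a' * y' ≤ 2 * (a * x + a' * x')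
      nlinarith

theorem Np_closed (R : ℝ) : IsClosed (Np R) := by
  apply IsClosed.inter
  · exact isClosed_le continuous_const continuous_snd
  · exact isClosed_le (continuous_const.mul continuous_snd) continuous_fst

theorem Nm_closed (b R : ℝ) : IsClosed (Nm b R) := by
  have h1 : IsClosed {z : ℝ × ℝ | 0 < b → R ≤ z.1 ∧ 2 * z.1 ≤ z.2} := by
    by_cases hb : 0 < b
    · simp only [hb, true_imp_iff]
      exact (isClosed_le continuous_const continuous_fst).inter
        (isClosed_le (continuous_const.mul continuous_fst) continuous_snd)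
    · simp only [hb, false_imp_iff]
      exact isClosed_univ
  have h2 : IsClosed {z : ℝ × ℝ | b < 0 → z.1 ≤ -R ∧ z.2 ≤ 2 * z.1} := by
    by_cases hb : b < 0
    · simp only [hb, true_imp_iff]
      exact (isClosed_le continuous_fst continuous_const).inter
        (isClosed_le continuous_snd (continuous_const.mul continuous_fst))
    · simp only [hb, false_imp_iff]
      exact isClosed_univ
  exact h1.inter h2

private lemma sec_en_re (z o : ℝ × ℝ) : (en z - en o).re = z.1 - o.1 := by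
  simp [en]

private lemma sec_en_im (z o : ℝ × ℝ) : (en z - en o).im = z.2 - o.2 := by
  simp [en]

/-- The shifted sectors lie in the slit plane. -/
theorem Np_slit {R : ℝ} (hR : 0 < R) {o z : ℝ × ℝ} (ho : ‖o‖ < R) (hz : z ∈ Np R) :
    en z - en o ∈ Complex.slitPlane := by
  rw [Complex.mem_slitPlane_iff]
  left
  rw [sec_en_re]
  have h1 := (sec_abs_le_norm o).1
  have h2 := le_abs_self o.1
  linarith [hz.1, hz.2]

theorem Nm_slit {b R : ℝ} (hb : b ≠ 0) (hR : 0 < R) {o z : ℝ × ℝ} (ho : ‖o‖ < R)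
    (hz : z ∈ Nm b R) : en z - en o ∈ Complex.slitPlane := by
  rw [Complex.mem_slitPlane_iff]
  rcases lt_or_gt_of_ne hb with hneg | hpos
  · right
    rw [sec_en_im]
    have h1 := (sec_abs_le_norm o).2
    have h2 := neg_abs_le o.2
    have h3 := hz.2 hneg
    have : z.2 - o.2 < 0 := by linarith [h3.1, h3.2]
    exact this.ne
  · left
    rw [sec_en_re]
    have h1 := (sec_abs_le_norm o).1
    have h2 := le_abs_self o.1
    have h3 := hz.1 hpos
    linarith [h3.1]

/-- The sectors contain arbitrarily large points. -/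
theorem Np_unb {R : ℝ} (hR : 0 < R) (K : ℝ) : ∃ z ∈ Np R, K < ‖en z‖ := by
  refine ⟨(2 * (R + |K|), R + |K|), ⟨?_, le_rfl⟩, ?_⟩
  · show R ≤ R + |K|
    linarith [abs_nonneg K]
  · have h1 := Complex.abs_re_le_norm (en (2 * (R + |K|), R + |K|))
    have h2 : (en (2 * (R + |K|), R + |K|)).re = 2 * (R + |K|) := by simp [en]
    rw [h2] at h1
    have h3 := le_abs_self (2 * (R + |K|))
    have h4 := le_abs_self K
    have h5 := abs_nonneg K
    linarith

theorem Nm_unb {b R : ℝ} (hb : b ≠ 0) (hR : 0 < R) (K : ℝ) : ∃ z ∈ Nm b R, K < ‖en z‖ := by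
  have h4 := le_abs_self K
  have h5 := abs_nonneg K
  rcases lt_or_gt_of_ne hb with hneg | hpos
  · refine ⟨(-(R + |K|), -(2 * (R + |K|))), ⟨fun h => absurd h (not_lt.2 hneg.le),
      fun _ => ⟨?_, ?_⟩⟩, ?_⟩
    · show -(R + |K|) ≤ -R
      linarith
    · show -(2 * (R + |K|)) ≤ 2 * -(R + |K|)
      linarith
    · have h1 := Complex.abs_re_le_norm (en (-(R + |K|), -(2 * (R + |K|))))
      have h2 : (en (-(R + |K|), -(2 * (R + |K|)))).re = -(R + |K|) := by simp [en]
      rw [h2, abs_neg] at h1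
      have h3 := le_abs_self (R + |K|)
      linarith
  · refine ⟨(R + |K|, 2 * (R + |K|)), ⟨fun _ => ⟨?_, le_rfl⟩,
      fun h => absurd h (not_lt.2 hpos.le)⟩, ?_⟩
    · show R ≤ R + |K|
      linarith
    · have h1 := Complex.abs_re_le_norm (en (R + |K|, 2 * (R + |K|)))
      have h2 : (en (R + |K|, 2 * (R + |K|))).re = R + |K| := by simp [en]
      rw [h2] at h1
      have h3 := le_abs_self (R + |K|)
      linarith

end Pool.Agent.H53.HN
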