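import Pool.Agent.H53.HN.Uprop
import Pool.Agent.H53.HN.Sec

/-! # Unbounded manifolds reach the sectors (helper53, folder HN)

PROOF. f = fR c b, F = (fC)^[N]. `bdd_S`: for real t, f^[N k] (rp (S t)) = rp (S (ν^k t)) (`iterS`, `rp_iter`, `Function.iterate_mul`), bounded in k since |ν^k t| <= |t| and S is continuous; a general exponent is N k + i with i < N (N > 0), and f^[i] is continuous,
 so bounded on the compact set rp (S [-|t|,|t|]); finitely many i. `bdd_U`: the same for the inverse (`IsSad.symm`).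
 `off_S`: by hs.escP and `bdd_S`; `off_U` by hs.escM and `bdd_U`.
 `far_S`: unbounded: there is a real t with ‖S t‖ > R + ‖p‖ (so t ≠ 0), ‖rp (S t)‖ = ‖S t‖ (S t is real) >= R; `bdd_S` and hs.retM: g^[2] (rp (S t)) in Nm; hs.gNm: g^[m] (rp (S t)) in Nm for m >= 2, in particular for m = 2N:
  g^[2N] (rp (S t)) = rp (S (ν^-2 t)) (as io of it is (gC)^[N]^[2] (S t) = S (ν^-2 t)). t1 = ν^-2 t. `far_U`: the same with hs.retP, hs.fNp.
-/

set_option autoImplicit false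

namespace Pool.Agent.H53.HN

variable {c b : ℝ} {N : ℕ} {p : ℝ × ℝ} {μ ν R : ℝ} {U S : ℂ → ℂ × ℂ}

private theorem far_io (z : ℝ × ℝ) : ‖io z‖ = ‖z‖ := by
  rw [Prod.norm_def, Prod.norm_def]
  simp [io]

private theorem far_norm {V : ℂ → ℂ × ℂ} (cV : ∀ t, V (starRingEnd ℂ t) = cj (V t)) (t : ℝ) :
    ‖rp (V (t : ℂ))‖ = ‖V (t : ℂ)‖ := by
  rw [← far_io, io_rpV cV]

private theorem bdd_aux {f : ℝ × ℝ → ℝ × ℝ} {fc : ℂ × ℂ → ℂ × ℂ} (hf : Continuous f)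
    (hio : ∀ (n : ℕ) z, fc^[n] (io z) = io (f^[n] z)) {V : ℂ → ℂ × ℂ} (hV : Continuous V)
    (cV : ∀ t, V (starRingEnd ℂ t) = cj (V t)) {N : ℕ} (hN : 0 < N) {κ : ℝ}
    (eV : ∀ t, fc^[N] (V t) = V ((κ : ℂ) * t)) (hκ : |κ| ≤ 1) (t : ℝ) :
    ∃ K : ℝ, ∀ k : ℕ, ‖f^[k] (rp (V (t : ℂ)))‖ ≤ K := by
  have hA : IsCompact ((fun s : ℝ => rp (V (s : ℂ))) '' Set.Icc (-|t|) |t|) :=
    isCompact_Icc.image (continuous_rp.comp (hV.comp Complex.continuous_ofReal))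
  have hb : ∀ i : ℕ, ∃ K, ∀ z ∈ (fun s : ℝ => rp (V (s : ℂ))) '' Set.Icc (-|t|) |t|,
      ‖f^[i] z‖ ≤ K := fun i => hA.exists_bound_of_continuousOn (hf.iterate i).continuousOn
  choose K hK using hb
  have hit : ∀ k : ℕ, f^[N * k] (rp (V (t : ℂ))) = rp (V ((κ ^ k * t : ℝ) : ℂ)) := by
    intro k
    induction k with
    | zero => simp
    | succ k ih =>
      rw [Nat.mul_succ, Nat.add_comm, Function.iterate_add_apply, ih]
      have h1 := hio N (rp (V ((κ ^ k * t : ℝ) : ℂ)))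
      rw [io_rpV cV, eV] at h1
      have h2 := congrArg rp h1
      rw [rp_io] at h2
      rw [← h2]
      congr 2
      push_cast
      ring
  refine ⟨∑ i ∈ Finset.range N, |K i|, fun k => ?_⟩
  have hk : f^[k] (rp (V (t : ℂ))) = f^[k % N] (rp (V ((κ ^ (k / N) * t : ℝ) : ℂ))) := by
    rw [← hit, ← Function.iterate_add_apply, Nat.mod_add_div]
  rw [hk]
  have hmem : κ ^ (k / N) * t ∈ Set.Icc (-|t|) |t| := by
    rw [Set.mem_Icc, ← abs_le, abs_mul, abs_pow]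
    calc |κ| ^ (k / N) * |t| ≤ 1 * |t| :=
          mul_le_mul_of_nonneg_right (pow_le_one₀ (abs_nonneg _) hκ) (abs_nonneg _)
      _ = |t| := one_mul _
  calc ‖f^[k % N] (rp (V ((κ ^ (k / N) * t : ℝ) : ℂ)))‖ ≤ K (k % N) := hK _ _ ⟨_, hmem, rfl⟩
    _ ≤ |K (k % N)| := le_abs_self _
    _ ≤ ∑ i ∈ Finset.range N, |K i| :=
        Finset.single_le_sum (f := fun i => |K i|) (fun i _ => abs_nonneg _)
          (Finset.mem_range.2 (Nat.mod_lt _ hN))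

theorem bdd_S (hN : 0 < N) (hp : IsSad (fC c b)^[N] (gC c b)^[N] p μ ν U S) (t : ℝ) :
    ∃ K : ℝ, ∀ k : ℕ, ‖(fR c b)^[k] (rp (S (t : ℂ)))‖ ≤ K := by
  refine bdd_aux (continuous_fR c b) (fun n z => io_iter_f c b n z) hp.dS.continuous hp.cS hN
    (κ := ν) hp.eS ?_ t
  rw [abs_of_pos hp.nu0]
  exact hp.nu1.le

theorem bdd_U (hN : 0 < N) (hp : IsSad (fC c b)^[N] (gC c b)^[N] p μ ν U S) (t : ℝ) :
    ∃ K : ℝ, ∀ k : ℕ, ‖(gR c b)^[k] (rp (U (t : ℂ)))‖ ≤ K := by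
  refine bdd_aux (continuous_gR c b) (fun n z => io_iter_g c b n z) hp.dU.continuous hp.cU hN
    (κ := μ⁻¹) hp.GU ?_ t
  rw [abs_of_pos hp.symm.nu0]
  exact hp.symm.nu1.le

theorem off_S (hN : 0 < N) (hs : IsSec c b R)
    (hp : IsSad (fC c b)^[N] (gC c b)^[N] p μ ν U S) (t : ℝ) : rp (S (t : ℂ)) ∉ Np R :=
  fun h => hs.escP _ h (bdd_S hN hp t)

theorem off_U (hN : 0 < N) (hs : IsSec c b R)
    (hp : IsSad (fC c b)^[N] (gC c b)^[N] p μ ν U S) (t : ℝ) : rp (U (t : ℂ)) ∉ Nm b R :=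
  fun h => hs.escM _ h (bdd_U hN hp t)

theorem far_S (hN : 0 < N) (hs : IsSec c b R)
    (hp : IsSad (fC c b)^[N] (gC c b)^[N] p μ ν U S)
    (hu : ¬ ∃ K : ℝ, ∀ t : ℝ, ‖S (t : ℂ)‖ ≤ K) :
    ∃ t1 : ℝ, t1 ≠ 0 ∧ rp (S (t1 : ℂ)) ∈ Nm b R := by
  push Not at hu
  obtain ⟨t, ht⟩ := hu (R + ‖p‖)
  have hn := far_norm hp.cS t
  have hN2 : ∃ m, N * 2 = m + 2 := ⟨N * 2 - 2, by omega⟩
  obtain ⟨m, hm⟩ := hN2
  have h1 : (gR c b)^[2] (rp (S (t : ℂ))) ∈ Nm b R :=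
    hs.retM _ (by rw [hn]; linarith [norm_nonneg p]) (bdd_S hN hp t)
  have h2 : ∀ i : ℕ, (gR c b)^[i + 2] (rp (S (t : ℂ))) ∈ Nm b R := by
    intro i
    induction i with
    | zero => simpa using h1
    | succ i ih =>
      rw [show i + 1 + 2 = (i + 2) + 1 from rfl, Function.iterate_succ_apply']
      exact hs.gNm _ ih
  have h3 := h2 m
  rw [← hm] at h3
  have h4 : (gR c b)^[N * 2] (rp (S (t : ℂ))) = rp (S (((ν⁻¹ ^ 2 * t : ℝ)) : ℂ)) := by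
    have h5 := rp_iter_g (c := c) (b := b) hp.cS t (N * 2)
    rw [Function.iterate_mul (gC c b) N 2, hp.symm.iterU] at h5
    have h6 := congrArg rp h5
    rw [rp_io] at h6
    rw [h6]
    push_cast
    rfl
  rw [h4] at h3
  refine ⟨ν⁻¹ ^ 2 * t, mul_ne_zero (pow_ne_zero _ (inv_ne_zero hp.nu0.ne')) ?_, h3⟩
  rintro rfl
  rw [Complex.ofReal_zero, hp.S0, far_io] at ht
  linarith [hs.R0]

theorem far_U (hN : 0 < N) (hs : IsSec c b R)
    (hp : IsSad (fC c b)^[N] (gC c b)^[N] p μ ν U S)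
    (hu : ¬ ∃ K : ℝ, ∀ t : ℝ, ‖U (t : ℂ)‖ ≤ K) :
    ∃ t1 : ℝ, t1 ≠ 0 ∧ rp (U (t1 : ℂ)) ∈ Np R := by
  push Not at hu
  obtain ⟨t, ht⟩ := hu (R + ‖p‖)
  have hn := far_norm hp.cU t
  have hN2 : ∃ m, N * 2 = m + 2 := ⟨N * 2 - 2, by omega⟩
  obtain ⟨m, hm⟩ := hN2
  have h1 : (fR c b)^[2] (rp (U (t : ℂ))) ∈ Np R :=
    hs.retP _ (by rw [hn]; linarith [norm_nonneg p]) (bdd_U hN hp t)
  have h2 : ∀ i : ℕ, (fR c b)^[i + 2] (rp (U (t : ℂ))) ∈ Np R := by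
    intro i
    induction i with
    | zero => simpa using h1
    | succ i ih =>
      rw [show i + 1 + 2 = (i + 2) + 1 from rfl, Function.iterate_succ_apply']
      exact hs.fNp _ ih
  have h3 := h2 m
  rw [← hm] at h3
  have h4 : (fR c b)^[N * 2] (rp (U (t : ℂ))) = rp (U (((μ ^ 2 * t : ℝ)) : ℂ)) := by
    have h5 := rp_iter (c := c) (b := b) hp.cU t (N * 2)
    rw [Function.iterate_mul (fC c b) N 2, hp.iterU] at h5
    have h6 := congrArg rp h5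
    rw [rp_io] at h6
    rw [h6]
    push_cast
    rfl
  rw [h4] at h3
  refine ⟨μ ^ 2 * t, mul_ne_zero (pow_ne_zero _ hp.mu0.ne') ?_, h3⟩
  rintro rfl
  rw [Complex.ofReal_zero, hp.U0, far_io] at ht
  linarith [hs.R0]

end Pool.Agent.H53.HN
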