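import Pool.Agent.H53.HN.Basic

/-! # Real and complex derivatives (helper53, folder HN)

PROOF. `fder_io`: io is a real linear continuous map, io o f^[n] = fC^[n] o io (`io_iter_f`). Differentiate over the reals at p in the direction v: the real derivative of fC^[n] is the complex derivative with restricted scalars (`HasFDerivAt.restrictScalars`, `diff_iter`, `diff_fC`). The same for g.
 `diffR_f`, `diffR_g`: polynomial maps. `fder_inj`: g^[n] o f^[n] = id, chain rule.
-/

set_option autoImplicit false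

namespace Pool.Agent.H53.HN

theorem diffR_f (c b : ℝ) (n : ℕ) : Differentiable ℝ ((fR c b)^[n]) := by
  refine Differentiable.iterate ?_ n
  unfold fR
  fun_prop

theorem diffR_g (c b : ℝ) (n : ℕ) : Differentiable ℝ ((gR c b)^[n]) := by
  refine Differentiable.iterate ?_ n
  unfold gR
  fun_prop

private noncomputable def ioL : ℝ × ℝ →L[ℝ] ℂ × ℂ := Complex.ofRealCLM.prodMap Complex.ofRealCLM

private theorem ioL_apply (z : ℝ × ℝ) : ioL z = io z := rfl

private theorem has_io (z : ℝ × ℝ) : HasFDerivAt io ioL z := ioL.hasFDerivAt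

private theorem der_io {F : ℂ × ℂ → ℂ × ℂ} {f : ℝ × ℝ → ℝ × ℝ} (hF : Differentiable ℂ F)
    (hf : Differentiable ℝ f) (hio : ∀ z, F (io z) = io (f z)) (p v : ℝ × ℝ) :
    fderiv ℂ F (io p) (io v) = io (fderiv ℝ f p v) := by
  have h1 : HasFDerivAt (fun z => F (io z)) (((fderiv ℂ F (io p)).restrictScalars ℝ).comp ioL) p :=
    ((hF (io p)).hasFDerivAt.restrictScalars ℝ).comp p (has_io p)
  have h2 : HasFDerivAt (fun z => io (f z)) (ioL.comp (fderiv ℝ f p)) p :=
    (has_io (f p)).comp p (hf p).hasFDerivAt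
  have h3 : (fun z => F (io z)) = fun z => io (f z) := funext hio
  rw [h3] at h1
  exact congrArg (fun L => L v) (h1.unique h2)

theorem fder_io (c b : ℝ) (n : ℕ) (p v : ℝ × ℝ) :
    fderiv ℂ ((fC c b)^[n]) (io p) (io v) = io (fderiv ℝ ((fR c b)^[n]) p v) :=
  der_io (diff_iter (diff_fC c b) n) (diffR_f c b n) (io_iter_f c b n) p v

theorem gder_io (c b : ℝ) (n : ℕ) (p v : ℝ × ℝ) :
    fderiv ℂ ((gC c b)^[n]) (io p) (io v) = io (fderiv ℝ ((gR c b)^[n]) p v) :=
  der_io (diff_iter (diff_gC c b) n) (diffR_g c b n) (io_iter_g c b n) p v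

/-- The derivative of the inverse iterate inverts the derivative. -/
theorem gf_der (c : ℝ) {b : ℝ} (hb : b ≠ 0) (n : ℕ) (p v : ℝ × ℝ) :
    fderiv ℝ ((gR c b)^[n]) ((fR c b)^[n] p) (fderiv ℝ ((fR c b)^[n]) p v) = v := by
  have h1 : HasFDerivAt (fun z => (gR c b)^[n] ((fR c b)^[n] z))
      ((fderiv ℝ ((gR c b)^[n]) ((fR c b)^[n] p)).comp (fderiv ℝ ((fR c b)^[n]) p)) p :=
    (diffR_g c b n _).hasFDerivAt.comp p (diffR_f c b n p).hasFDerivAt
  have h3 : (fun z => (gR c b)^[n] ((fR c b)^[n] z)) = fun z => z :=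
    funext fun z => Function.LeftInverse.iterate (gR_fR c hb) n z
  rw [h3] at h1
  exact congrArg (fun L => L v) (h1.unique (hasFDerivAt_id p))

theorem chain_f (c b : ℝ) (m n : ℕ) (p v : ℝ × ℝ) :
    fderiv ℝ ((fR c b)^[m + n]) p v =
      fderiv ℝ ((fR c b)^[m]) ((fR c b)^[n] p) (fderiv ℝ ((fR c b)^[n]) p v) := by
  rw [Function.iterate_add, fderiv_comp p (diffR_f c b m _) (diffR_f c b n p)]
  rfl

end Pool.Agent.H53.HN
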