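import Pool.Agent.H53.HN.Basic

/-! # Points of period at most two (helper53, folder HN) -/

set_option autoImplicit false

namespace Pool.Agent.H53.HN

theorem quad_root {B C x : ℝ} (h : x ^ 2 + B * x + C = 0) :
    x = (-B + Real.sqrt (B ^ 2 - 4 * C)) / 2 ∨ x = (-B - Real.sqrt (B ^ 2 - 4 * C)) / 2 := by
  have h1 : (2 * x + B) ^ 2 = B ^ 2 - 4 * C := by nlinarith
  have h2 : Real.sqrt (B ^ 2 - 4 * C) = |2 * x + B| := by rw [← h1, Real.sqrt_sq_eq_abs]
  rw [h2]
  rcases abs_choice (2 * x + B) with h3 | h3 <;> rw [h3]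
  · left; ring
  · right; ring

/-- Three points represent all orbits of period at most two. -/
theorem fix2 (c b : ℝ) : ∃ Z : Finset (ℝ × ℝ), Z.card ≤ 3 ∧
    ∀ p : ℝ × ℝ, (fR c b)^[2] p = p → ∃ k : ℕ, (fR c b)^[k] p ∈ Z := by
  classical
  let r1 := (-(-(1 + b)) + Real.sqrt ((-(1 + b)) ^ 2 - 4 * c)) / 2
  let r2 := (-(-(1 + b)) - Real.sqrt ((-(1 + b)) ^ 2 - 4 * c)) / 2
  let s1 := (-(1 + b) + Real.sqrt ((1 + b) ^ 2 - 4 * ((1 + b) ^ 2 + c))) / 2
  let s2 := (-(1 + b) - Real.sqrt ((1 + b) ^ 2 - 4 * ((1 + b) ^ 2 + c))) / 2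
  refine ⟨{(r1, r1), (r2, r2), (s1, -(1 + b) - s1)}, Finset.card_le_three, ?_⟩
  rintro ⟨x, y⟩ h
  have h1 : ((x ^ 2 + c - b * y) ^ 2 + c - b * x, x ^ 2 + c - b * y) = (x, y) := h
  have h2 : x ^ 2 + c - b * y = y := congrArg Prod.snd h1
  have h3 : y ^ 2 + c - b * x = x := by
    have := congrArg Prod.fst h1
    simp only at this
    rwa [h2] at this
  have h4 : (x - y) * (x + y + (1 + b)) = 0 := by nlinarith
  rcases mul_eq_zero.1 h4 with h5 | h5
  · have hy : y = x := by linarith
    subst hy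
    have h6 : y ^ 2 + (-(1 + b)) * y + c = 0 := by nlinarith
    refine ⟨0, ?_⟩
    rw [Function.iterate_zero, id]
    rcases quad_root h6 with h7 | h7
    · simp only [Finset.mem_insert, Finset.mem_singleton]
      left; exact Prod.ext h7 h7
    · simp only [Finset.mem_insert, Finset.mem_singleton]
      right; left; exact Prod.ext h7 h7
  · have hy : y = -(1 + b) - x := by linarith
    have h6 : x ^ 2 + (1 + b) * x + ((1 + b) ^ 2 + c) = 0 := by
      rw [hy] at h2; nlinarith
    rcases quad_root h6 with h7 | h7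
    · refine ⟨0, ?_⟩
      rw [Function.iterate_zero, id]
      simp only [Finset.mem_insert, Finset.mem_singleton]
      right; right
      refine Prod.ext h7 ?_
      show y = -(1 + b) - s1
      rw [hy]; exact congrArg (fun t => -(1 + b) - t) h7
    · refine ⟨1, ?_⟩
      have h8 : fR c b (x, y) = (y, x) := by
        show (x ^ 2 + c - b * y, x) = (y, x)
        rw [h2]
      rw [Function.iterate_one, h8]
      simp only [Finset.mem_insert, Finset.mem_singleton]
      right; right
      have h9 : y = s1 := by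
        rw [hy, h7]
        show -(1 + b) - s2 = s1
        simp only [s1, s2]; ring
      refine Prod.ext h9 ?_
      show x = -(1 + b) - s1
      rw [← h9, hy]; ring

end Pool.Agent.H53.HN
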