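import Pool.Agent.H53.HN.Ueq1

/-! # Global existence of the unstable parametrisation (helper53, folder HN)

PROOF. U0, δ from `u_local`. For t let k be any natural number with |μ^-k t| < δ and put U t = F^[k] (U0 (μ^-k t)); this does not depend on k: F^[k+1] (U0 (μ^(-k-1) t)) = F^[k] (F (U0 (μ^(-k-1) t))) = F^[k] (U0 (μ^-k t)) as |μ μ^(-k-1) t| < δ (so compare k and k' >= k by induction).
 On the disc |t| < μ^k δ: U = F^[k] o U0 o (μ^-k ·), differentiable. U = U0 near 0: U 0 = P, HasDerivAt U e 0. F (U t) = F^[k+1] (U0 (μ^(-k-1) (μ t))) = U (μ t). Reality from that of U0, F (`cj_iter`), conj (μ^-k t) = μ^-k conj t.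
-/

set_option autoImplicit false

namespace Pool.Agent.H53.HN

private theorem Ueq2_norm (μ : ℝ) (hμ : 1 < μ) (t : ℂ) (k : ℕ) :
    ‖t / (μ : ℂ) ^ k‖ = ‖t‖ / μ ^ k := by
  rw [norm_div, norm_pow, Complex.norm_real, Real.norm_eq_abs, abs_of_pos (by linarith)]

private theorem Ueq2_ex (μ : ℝ) (hμ : 1 < μ) (δ : ℝ) (hδ : 0 < δ) (t : ℂ) :
    ∃ k : ℕ, ‖t / (μ : ℂ) ^ k‖ < δ := by
  obtain ⟨k, hk⟩ := pow_unbounded_of_one_lt (‖t‖ / δ) hμ
  refine ⟨k, ?_⟩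
  rw [Ueq2_norm μ hμ]
  have h1 : 0 < μ ^ k := pow_pos (by linarith) k
  rw [div_lt_iff₀ hδ] at hk
  rw [div_lt_iff₀ h1]
  linarith

theorem u_global {F : ℂ × ℂ → ℂ × ℂ} (aF : ∀ z, AnalyticAt ℂ F z)
    (cF : ∀ z, F (cj z) = cj (F z)) {P e e' : ℂ × ℂ} (hP : F P = P) (cP : cj P = P)
    (ce : cj e = e) {μ μ' : ℝ} (hμ : 1 < μ) (hμ' : |μ'| ≤ μ) (he : fderiv ℂ F P e = (μ : ℂ) • e)
    (he' : fderiv ℂ F P e' = (μ' : ℂ) • e') (hli : det2 e e' ≠ 0) :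
    ∃ U : ℂ → ℂ × ℂ, Differentiable ℂ U ∧ U 0 = P ∧ deriv U 0 = e ∧
      (∀ t : ℂ, F (U t) = U ((μ : ℂ) * t)) ∧
      (∀ t : ℂ, U (starRingEnd ℂ t) = cj (U t)) := by
  obtain ⟨δ, U0, hδ, dU, h0, hd, hF, hc⟩ := u_local aF cF hP cP ce hμ hμ' he he' hli
  have hμ0 : (μ : ℂ) ≠ 0 := by
    have : μ ≠ 0 := by linarith
    exact_mod_cast this
  have dF : Differentiable ℂ F := fun z => (aF z).differentiableAt
  have hstep : ∀ (k : ℕ) (t : ℂ), ‖t / (μ : ℂ) ^ k‖ < δ →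
      F^[k + 1] (U0 (t / (μ : ℂ) ^ (k + 1))) = F^[k] (U0 (t / (μ : ℂ) ^ k)) := by
    intro k t hk
    have h1 : (μ : ℂ) * (t / (μ : ℂ) ^ (k + 1)) = t / (μ : ℂ) ^ k := by
      rw [pow_succ]
      field_simp
    rw [Function.iterate_succ_apply, hF _ (by rw [h1]; exact hk), h1]
  have hmono : ∀ (t : ℂ) (k : ℕ), ‖t / (μ : ℂ) ^ k‖ < δ → ∀ k', k ≤ k' →
      ‖t / (μ : ℂ) ^ k'‖ < δ ∧
      F^[k'] (U0 (t / (μ : ℂ) ^ k')) = F^[k] (U0 (t / (μ : ℂ) ^ k)) := by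
    intro t k hk k' hk'
    induction k', hk' using Nat.le_induction with
    | base => exact ⟨hk, rfl⟩
    | succ m hm ih =>
      refine ⟨?_, (hstep m t ih.1).trans ih.2⟩
      refine lt_of_le_of_lt ?_ ih.1
      rw [Ueq2_norm μ hμ, Ueq2_norm μ hμ]
      apply div_le_div_of_nonneg_left (norm_nonneg t) (pow_pos (by linarith) m)
      exact pow_le_pow_right₀ hμ.le (Nat.le_succ m)
  have hex := Ueq2_ex μ hμ δ hδ
  choose K hK using hex
  have hU : ∀ (t : ℂ) (k : ℕ), ‖t / (μ : ℂ) ^ k‖ < δ →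
      F^[K t] (U0 (t / (μ : ℂ) ^ K t)) = F^[k] (U0 (t / (μ : ℂ) ^ k)) := by
    intro t k hk
    rw [← (hmono t (K t) (hK t) (max k (K t)) (le_max_right _ _)).2,
      ← (hmono t k hk (max k (K t)) (le_max_left _ _)).2]
  have hnhds : ∀ (t : ℂ) (k : ℕ), ‖t / (μ : ℂ) ^ k‖ < δ →
      (fun t => F^[K t] (U0 (t / (μ : ℂ) ^ K t))) =ᶠ[nhds t]
        fun t => F^[k] (U0 (t / (μ : ℂ) ^ k)) := by
    intro t k hk
    have h1 : IsOpen {s : ℂ | ‖s / (μ : ℂ) ^ k‖ < δ} :=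
      isOpen_lt (by fun_prop) continuous_const
    filter_upwards [h1.mem_nhds hk] with s hs
    exact hU s k hs
  have h00 : ‖(0 : ℂ) / (μ : ℂ) ^ 0‖ < δ := by
    rw [zero_div, norm_zero]
    exact hδ
  refine ⟨fun t => F^[K t] (U0 (t / (μ : ℂ) ^ K t)), ?_, ?_, ?_, ?_, ?_⟩
  · intro t
    refine DifferentiableAt.congr_of_eventuallyEq ?_ (hnhds t (K t) (hK t))
    have h1 : DifferentiableAt ℂ U0 (t / (μ : ℂ) ^ K t) := by
      apply (dU _ _).differentiableAt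
      · exact Metric.isOpen_ball.mem_nhds (by rw [Metric.mem_ball, dist_zero_right]; exact hK t)
      · rw [Metric.mem_ball, dist_zero_right]
        exact hK t
    have h2 : DifferentiableAt ℂ (fun s : ℂ => s / (μ : ℂ) ^ K t) t :=
      differentiableAt_id.div_const _
    have h3 : DifferentiableAt ℂ (fun s : ℂ => U0 (s / (μ : ℂ) ^ K t)) t :=
      DifferentiableAt.comp t h1 h2
    exact DifferentiableAt.comp t (diff_iter dF (K t) _) h3
  · show F^[K 0] (U0 (0 / (μ : ℂ) ^ K 0)) = P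
    rw [hU 0 0 h00, zero_div]
    exact h0
  · have h1 : HasDerivAt (fun t => F^[K t] (U0 (t / (μ : ℂ) ^ K t))) e 0 := by
      refine hd.congr_of_eventuallyEq ?_
      refine (hnhds 0 0 h00).trans ?_
      refine Filter.Eventually.of_forall fun t => ?_
      show U0 (t / (μ : ℂ) ^ 0) = U0 t
      rw [pow_zero, div_one]
    exact h1.deriv
  · intro t
    have h1 : (μ : ℂ) * t / (μ : ℂ) ^ (K t + 1) = t / (μ : ℂ) ^ K t := by
      rw [pow_succ]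
      field_simp
    show F (F^[K t] (U0 (t / (μ : ℂ) ^ K t))) =
      F^[K ((μ : ℂ) * t)] (U0 ((μ : ℂ) * t / (μ : ℂ) ^ K ((μ : ℂ) * t)))
    rw [hU ((μ : ℂ) * t) (K t + 1) (by rw [h1]; exact hK t), h1, Function.iterate_succ_apply']
  · intro t
    have h1 : (starRingEnd ℂ) t / (μ : ℂ) ^ K t = (starRingEnd ℂ) (t / (μ : ℂ) ^ K t) := by
      rw [map_div₀, map_pow, Complex.conj_ofReal]
    show F^[K ((starRingEnd ℂ) t)] (U0 ((starRingEnd ℂ) t / (μ : ℂ) ^ K ((starRingEnd ℂ) t))) =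
      cj (F^[K t] (U0 (t / (μ : ℂ) ^ K t)))
    rw [hU ((starRingEnd ℂ) t) (K t) (by rw [h1, Complex.norm_conj]; exact hK t), h1,
      hc _ (hK t), cj_iter cF]

end Pool.Agent.H53.HN
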