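import Pool.Agent.H53.HN.Expo
import Pool.Agent.H53.HN.Ueq2

/-! # A saddle in the complexified form exists (helper53, folder HN)

PROOF. N = 2 M, F = fC^[N], G = gC^[N]. B = fderiv (f^[M]) p: B v = x v, B w = y w, |x| = exp(M a), |y| = exp(M e). fderiv (f^[2M]) p v = B (B v) = x^2 v (`chain_f`, two_mul), x^2 = exp(2 M a) =: ν; the same for w with μ = exp(2 M e). By `fder_io`: fderiv ℂ F (io p) (io v) = ν io v, (io w) -> μ io w.
 By `gf_der` (f^[N] p = p): fderiv (g^[N]) p (ν v) = v so v is an eigenvector for ν^-1, w for μ^-1; `gder_io`.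
 `u_global` for F, P = io p, e = io w, e' = io v, μ, μ' = ν (|ν| < 1 < μ): U, deriv U 0 = io w. `u_global` for G, e = io v, e' = io w, ν^-1 > 1, μ^-1: S with deriv S 0 = io v and G (S t) = S (ν^-1 t); so F (S (ν^-1 t)) = S t, i.e. F (S t) = S (ν t).
 det2 (io w) (io v) = -(det2R v w) as a complex number, not 0. FG, GF: `iter_fC_gC`, `iter_gC_fC`; aF, aG: `ana_iter`, `ana_fC`, `ana_gC`; cF: `cj_iter`, `cj_fC`. exp(2 M e) > 1 > exp(2 M a) > 0.
-/

set_option autoImplicit false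

namespace Pool.Agent.H53.HN

private theorem sad_io_smul (x : ℝ) (v : ℝ × ℝ) : io (x • v) = (x : ℂ) • io v := by
  simp [io]

private theorem sad_det (v w : ℝ × ℝ) : det2 (io v) (io w) = ((det2R v w : ℝ) : ℂ) := by
  simp [det2, det2R, io]

private theorem sad_sq {c b : ℝ} {p v : ℝ × ℝ} {M : ℕ} {x q : ℝ} (hp : (fR c b)^[M] p = p)
    (hx : fderiv ℝ ((fR c b)^[M]) p v = x • v) (hq : |x| = Real.exp (M * q)) :
    fderiv ℝ ((fR c b)^[2 * M]) p v = Real.exp ((2 * M : ℕ) * q) • v := by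
  rw [two_mul, chain_f, hp, hx, map_smul, hx, smul_smul]
  congr 1
  have h1 : x * x = |x| * |x| := (abs_mul_abs_self x).symm
  rw [h1, hq, ← Real.exp_add]
  congr 1
  push_cast
  ring

private theorem sad_inv {c b : ℝ} (hb : b ≠ 0) {p v : ℝ × ℝ} {N : ℕ} {x : ℝ} (hx0 : x ≠ 0)
    (hp : (fR c b)^[N] p = p) (hx : fderiv ℝ ((fR c b)^[N]) p v = x • v) :
    fderiv ℝ ((gR c b)^[N]) p v = x⁻¹ • v := by
  have h1 := gf_der c hb N p v
  rw [hp, hx, map_smul] at h1
  have h2 := congrArg (fun u => x⁻¹ • u) h1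
  simpa [smul_smul, inv_mul_cancel₀ hx0] using h2

theorem sad_ex {c b : ℝ} (hb : b ≠ 0) {p : ℝ × ℝ} {a e : ℝ} {v w : ℝ × ℝ}
    (h : IsExp c b p a e v w) {M : ℕ} (hM : 0 < M) (hp : (fR c b)^[M] p = p) :
    ∃ U S : ℂ → ℂ × ℂ, IsSad (fC c b)^[2 * M] (gC c b)^[2 * M] p
      (Real.exp ((2 * M : ℕ) * e)) (Real.exp ((2 * M : ℕ) * a)) U S := by
  obtain ⟨x, y, hx, hy, hxa, hye⟩ := h.ev M hM hp
  have hp2 : (fR c b)^[2 * M] p = p := by
    rw [two_mul, Function.iterate_add_apply, hp, hp]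
  have hgp : (gR c b)^[2 * M] p = p := by
    have := iter_gR_fR c hb (2 * M) p
    rwa [hp2] at this
  set N := 2 * M with hN
  have hN0 : (0 : ℝ) < (N : ℕ) := by
    have : 0 < N := by omega
    exact_mod_cast this
  set μ : ℝ := Real.exp ((N : ℕ) * e) with hμ
  set ν : ℝ := Real.exp ((N : ℕ) * a) with hν
  have hμ1 : 1 < μ := Real.one_lt_exp_iff.2 (mul_pos hN0 h.e0)
  have hν1 : ν < 1 := Real.exp_lt_one_iff.2 (mul_neg_of_pos_of_neg hN0 h.a0)
  have hν0 : 0 < ν := Real.exp_pos _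
  have hμ0 : 0 < μ := Real.exp_pos _
  have hv : fderiv ℝ ((fR c b)^[N]) p v = ν • v := sad_sq hp hx hxa
  have hw : fderiv ℝ ((fR c b)^[N]) p w = μ • w := sad_sq hp hy hye
  have hgv := sad_inv hb hν0.ne' hp2 hv
  have hgw := sad_inv hb hμ0.ne' hp2 hw
  have hdet : det2 (io w) (io v) ≠ 0 := by
    rw [sad_det]
    have h1 : det2R w v = -det2R v w := by
      unfold det2R
      ring
    rw [h1]
    exact_mod_cast neg_ne_zero.2 h.li
  have hdet' : det2 (io v) (io w) ≠ 0 := by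
    rw [sad_det]
    exact_mod_cast h.li
  obtain ⟨U, dU, U0, dU0, eU, cU⟩ := u_global (F := (fC c b)^[N]) (ana_iter (ana_fC c b) N)
    (cj_iter (cj_fC c b) N) (P := io p) (e := io w) (e' := io v)
    (by rw [io_iter_f, hp2]) (cj_io p) (cj_io w) hμ1 (μ' := ν)
    (by rw [abs_of_pos hν0]; linarith)
    (by rw [fder_io, hw, sad_io_smul]) (by rw [fder_io, hv, sad_io_smul]) hdet
  have hνi : 1 < ν⁻¹ := (one_lt_inv₀ hν0).2 hν1
  have hμi : μ⁻¹ < 1 := inv_lt_one_of_one_lt₀ hμ1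
  obtain ⟨S, dS, S0, dS0, eS, cS⟩ := u_global (F := (gC c b)^[N]) (ana_iter (ana_gC c b) N)
    (cj_iter (cj_gC c b) N) (P := io p) (e := io v) (e' := io w)
    (by rw [io_iter_g, hgp]) (cj_io p) (cj_io v) hνi (μ' := μ⁻¹)
    (by rw [abs_of_pos (inv_pos.2 hμ0)]; linarith)
    (by rw [gder_io, hgv, sad_io_smul]) (by rw [gder_io, hgw, sad_io_smul]) hdet'
  refine ⟨U, S, ?_⟩
  exact
    { FG := iter_fC_gC c hb N
      GF := iter_gC_fC c hb N
      aF := ana_iter (ana_fC c b) N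
      aG := ana_iter (ana_gC c b) N
      cF := cj_iter (cj_fC c b) N
      mu := hμ1
      nu0 := hν0
      nu1 := hν1
      dU := dU
      dS := dS
      U0 := U0
      S0 := S0
      eU := eU
      eS := by
        intro t
        have h1 := eS ((ν : ℂ) * t)
        have h2 : ((ν⁻¹ : ℝ) : ℂ) * ((ν : ℂ) * t) = t := by
          have : (ν : ℂ) ≠ 0 := by exact_mod_cast hν0.ne'
          push_cast
          rw [← mul_assoc, inv_mul_cancel₀ this, one_mul]
        rw [h2] at h1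
        rw [← h1, iter_fC_gC c hb N]
      cU := cU
      cS := cS
      li := by
        rw [dU0, dS0]
        exact hdet }

end Pool.Agent.H53.HN
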