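import Pool.Agent.H53.HN.Wabs
import Pool.Agent.H53.HN.Chart

/-! # The stable and unstable sets are the real curves (helper53, folder HN)

PROOF. F = (fC)^[N], G = (gC)^[N], N > 0. p is fixed by f^[N] and g^[N]: F (io p) = io p (eU at 0, U0), `io_iter_f`, `io_injective`.
 `wu_sub`: z in Wu: along t = N k the distance of g^[N k] z to g^[N k] p = p tends to 0 (`Function.iterate_mul`), so G^[k] (io z) = io (g^[N k] z) -> io p (continuous_io). `w_abs` with ζ = io z and a chart from `chart_ex` gives U t = io z, z = rp (U t).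
 `ws_sub`: the same with `hp.symm` (G, F exchanged) and the chart from `chart_ex hp.symm`.
 `wu_mem`: g^[N k] (rp (U t)) = rp (U (μ^-k t)) -> rp (U 0) = p; for i < N: g^[N k + i] (rp (U t)) = g^[i] (rp (U (μ^-k t))) -> g^[i] p = g^[N k + i] p. So for every i < N the distance along N k + i tends to 0; N classes cover all t (use `Nat.div_add_mod`; e.g. for ε > 0 take the maximum of N thresholds).
 `ws_mem`: the same with `hp.symm`.
 `bdd_wu`: if ‖U t‖ <= K for all real t then Wu is bounded: ‖rp z‖ <= ‖z‖, `wu_sub`.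
-/

set_option autoImplicit false

namespace Pool.Agent.H53.HN

open Filter Topology

private theorem wset_mem {h : ℝ × ℝ → ℝ × ℝ} (hc : Continuous h) {N : ℕ} (hN : 0 < N)
    {p z : ℝ × ℝ} (hfix : h^[N] p = p) (ht : Tendsto (fun k : ℕ => h^[N * k] z) atTop (𝓝 p)) :
    Tendsto (fun t : ℕ => dist (h^[t] z) (h^[t] p)) atTop (𝓝 0) := by
  have hfixk : ∀ k : ℕ, h^[N * k] p = p := by
    intro k
    rw [Function.iterate_mul]
    exact Function.iterate_fixed hfix k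
  rw [Metric.tendsto_atTop]
  intro ε hε
  have h1 : ∀ i ∈ Finset.range N, ∀ᶠ k : ℕ in atTop,
      dist (h^[i] (h^[N * k] z)) (h^[i] p) < ε := by
    intro i _
    have h2 : Tendsto (fun k : ℕ => h^[i] (h^[N * k] z)) atTop (𝓝 (h^[i] p)) :=
      ((hc.iterate i).tendsto p).comp ht
    exact (tendsto_iff_dist_tendsto_zero.1 h2).eventually (gt_mem_nhds hε)
  have h3 : ∀ᶠ k : ℕ in atTop, ∀ i ∈ Finset.range N,
      dist (h^[i] (h^[N * k] z)) (h^[i] p) < ε := by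
    rw [Filter.eventually_all_finset]
    exact h1
  obtain ⟨K, hK⟩ := Filter.eventually_atTop.1 h3
  refine ⟨N * K, fun t htt => ?_⟩
  have h4 : K ≤ t / N := by
    rw [Nat.le_div_iff_mul_le hN]
    rw [mul_comm]
    exact htt
  have h5 : t % N + N * (t / N) = t := Nat.mod_add_div t N
  have h6 := hK (t / N) h4 (t % N) (Finset.mem_range.2 (Nat.mod_lt _ hN))
  have h7 : h^[t] z = h^[t % N] (h^[N * (t / N)] z) := by
    rw [← Function.iterate_add_apply, h5]
  have h8 : h^[t] p = h^[t % N] p := by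
    conv_lhs => rw [← h5, Function.iterate_add_apply, hfixk]
  rw [h7, h8, Real.dist_0_eq_abs, abs_of_nonneg dist_nonneg]
  exact h6

private theorem wset_sub {h : ℝ × ℝ → ℝ × ℝ} {N : ℕ} (hN : 0 < N)
    {p z : ℝ × ℝ} (hfix : h^[N] p = p)
    (ht : Tendsto (fun t : ℕ => dist (h^[t] z) (h^[t] p)) atTop (𝓝 0)) :
    Tendsto (fun k : ℕ => h^[N * k] z) atTop (𝓝 p) := by
  have hfixk : ∀ k : ℕ, h^[N * k] p = p := by
    intro k
    rw [Function.iterate_mul]
    exact Function.iterate_fixed hfix k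
  rw [tendsto_iff_dist_tendsto_zero]
  have h1 : Tendsto (fun k : ℕ => N * k) atTop atTop :=
    tendsto_id.const_mul_atTop' hN
  have h2 := ht.comp h1
  refine h2.congr fun k => ?_
  simp only [Function.comp_apply, hfixk]

private theorem wset_lim {V : ℂ → ℂ × ℂ} (hV : Continuous V) {p : ℝ × ℝ} (h0 : V 0 = io p)
    {q : ℝ} (hq0 : 0 < q) (hq1 : q < 1) (t : ℝ) {w : ℕ → ℝ × ℝ}
    (hw : ∀ k, io (w k) = V (((q ^ k : ℝ) : ℂ) * (t : ℂ))) : Tendsto w atTop (𝓝 p) := by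
  have h1 : Tendsto (fun k : ℕ => q ^ k) atTop (𝓝 0) :=
    tendsto_pow_atTop_nhds_zero_of_lt_one hq0.le hq1
  have h2 : Tendsto (fun k : ℕ => ((q ^ k : ℝ) : ℂ) * (t : ℂ)) atTop (𝓝 0) := by
    have h3 : Tendsto (fun k : ℕ => ((q ^ k : ℝ) : ℂ)) atTop (𝓝 ((0 : ℝ) : ℂ)) :=
      (Complex.continuous_ofReal.tendsto 0).comp h1
    simpa using h3.mul_const (t : ℂ)
  have h4 : Tendsto (fun k : ℕ => rp (V (((q ^ k : ℝ) : ℂ) * (t : ℂ)))) atTop (𝓝 (rp (V 0))) :=
    ((continuous_rp.comp hV).tendsto 0).comp h2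
  rw [h0, rp_io] at h4
  refine h4.congr fun k => ?_
  rw [← hw, rp_io]

private theorem wset_norm (w : ℂ × ℂ) : ‖rp w‖ ≤ ‖w‖ := by
  unfold rp
  rw [Prod.norm_def, Prod.norm_def]
  exact max_le_max (by simpa using Complex.abs_re_le_norm w.1)
    (by simpa using Complex.abs_re_le_norm w.2)

variable {c b : ℝ} {N : ℕ} {p : ℝ × ℝ} {μ ν : ℝ} {U S : ℂ → ℂ × ℂ}

private theorem wset_fixf (hp : IsSad (fC c b)^[N] (gC c b)^[N] p μ ν U S) :
    (fR c b)^[N] p = p := by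
  apply io_injective
  rw [← io_iter_f]
  have := hp.eU 0
  rwa [mul_zero, hp.U0] at this

private theorem wset_fixg (hp : IsSad (fC c b)^[N] (gC c b)^[N] p μ ν U S) :
    (gR c b)^[N] p = p := by
  apply io_injective
  rw [← io_iter_g]
  have := hp.symm.eU 0
  rwa [mul_zero, hp.symm.U0] at this

theorem wu_sub (hN : 0 < N) (hp : IsSad (fC c b)^[N] (gC c b)^[N] p μ ν U S) {z : ℝ × ℝ}
    (hz : z ∈ Wu c b p) : ∃ t : ℝ, rp (U (t : ℂ)) = z := by
  have h1 := wset_sub hN (wset_fixg hp) hz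
  obtain ⟨χ, r, C, hc⟩ := chart_ex hp
  have h2 : Tendsto (fun k : ℕ => ((gC c b)^[N])^[k] (io z)) atTop (𝓝 (io p)) := by
    refine ((continuous_io.tendsto p).comp h1).congr fun k => ?_
    rw [Function.comp_apply, ← io_iter_g, Function.iterate_mul]
  obtain ⟨t, ht⟩ := w_abs hp hc (cj_io z) h2
  exact ⟨t, by rw [ht, rp_io]⟩

theorem ws_sub (hN : 0 < N) (hp : IsSad (fC c b)^[N] (gC c b)^[N] p μ ν U S) {z : ℝ × ℝ}
    (hz : z ∈ Ws c b p) : ∃ t : ℝ, rp (S (t : ℂ)) = z := by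
  have h1 := wset_sub hN (wset_fixf hp) hz
  obtain ⟨χ, r, C, hc⟩ := chart_ex hp.symm
  have h2 : Tendsto (fun k : ℕ => ((fC c b)^[N])^[k] (io z)) atTop (𝓝 (io p)) := by
    refine ((continuous_io.tendsto p).comp h1).congr fun k => ?_
    rw [Function.comp_apply, ← io_iter_f, Function.iterate_mul]
  obtain ⟨t, ht⟩ := w_abs hp.symm hc (cj_io z) h2
  exact ⟨t, by rw [ht, rp_io]⟩

theorem wu_mem (hN : 0 < N) (hp : IsSad (fC c b)^[N] (gC c b)^[N] p μ ν U S) (t : ℝ) :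
    rp (U (t : ℂ)) ∈ Wu c b p := by
  refine wset_mem (continuous_gR c b) hN (wset_fixg hp) ?_
  refine wset_lim hp.dU.continuous hp.U0 hp.symm.nu0 hp.symm.nu1 t fun k => ?_
  rw [rp_iter_g hp.cU, Function.iterate_mul, hp.symm.iterS]

theorem ws_mem (hN : 0 < N) (hp : IsSad (fC c b)^[N] (gC c b)^[N] p μ ν U S) (t : ℝ) :
    rp (S (t : ℂ)) ∈ Ws c b p := by
  refine wset_mem (continuous_fR c b) hN (wset_fixf hp) ?_
  refine wset_lim hp.dS.continuous hp.S0 hp.nu0 hp.nu1 t fun k => ?_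
  rw [rp_iter hp.cS, Function.iterate_mul, hp.iterS]

theorem bdd_wu (hN : 0 < N) (hp : IsSad (fC c b)^[N] (gC c b)^[N] p μ ν U S)
    (hK : ∃ K : ℝ, ∀ t : ℝ, ‖U (t : ℂ)‖ ≤ K) : Bornology.IsBounded (Wu c b p) := by
  obtain ⟨K, hK⟩ := hK
  refine (Metric.isBounded_closedBall (x := (0 : ℝ × ℝ)) (r := K)).subset fun z hz => ?_
  obtain ⟨t, rfl⟩ := wu_sub hN hp hz
  rw [mem_closedBall_zero_iff]
  exact (wset_norm _).trans (hK t)

theorem bdd_ws (hN : 0 < N) (hp : IsSad (fC c b)^[N] (gC c b)^[N] p μ ν U S)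
    (hK : ∃ K : ℝ, ∀ t : ℝ, ‖S (t : ℂ)‖ ≤ K) : Bornology.IsBounded (Ws c b p) := by
  obtain ⟨K, hK⟩ := hK
  refine (Metric.isBounded_closedBall (x := (0 : ℝ × ℝ)) (r := K)).subset fun z hz => ?_
  obtain ⟨t, rfl⟩ := ws_sub hN hp hz
  rw [mem_closedBall_zero_iff]
  exact (wset_norm _).trans (hK t)

end Pool.Agent.H53.HN
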