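import Pool.Agent.H53.HN.Unb
import Pool.Agent.H53.HN.Wset
import Pool.Agent.H53.HN.SadEx

/-! # Large exponents give unbounded manifolds (helper53, folder HN) -/

set_option autoImplicit false

namespace Pool.Agent.H53.HN

theorem norm_io (z : ℝ × ℝ) : ‖io z‖ = ‖z‖ := by
  simp [io, Prod.norm_def]

theorem exp_big {e : ℝ} {M : ℕ} (hM : 0 < M) (he : Real.log 2 < e) :
    (2 : ℝ) ^ M < Real.exp (M * e) := by
  have h1 : (2 : ℝ) ^ M = Real.exp (M * Real.log 2) := by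
    rw [← Real.rpow_natCast, Real.rpow_def_of_pos (by norm_num)]; ring_nf
  rw [h1]
  apply Real.exp_lt_exp.2
  have : (0 : ℝ) < M := by exact_mod_cast hM
  nlinarith

theorem good_u {c b : ℝ} (hb : b ≠ 0) {p : ℝ × ℝ} {a e : ℝ} {v w : ℝ × ℝ}
    (h : IsExp c b p a e v w) {M : ℕ} (hM : 0 < M) (hpM : (fR c b)^[M] p = p)
    (he : Real.log 2 < e) : ¬ Bornology.IsBounded (Wu c b p) := by
  intro hB
  obtain ⟨U, S, hs⟩ := sad_ex hb h hM hpM
  obtain ⟨K, hK⟩ := growth_fC c b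
  refine unb hK hs.dU hs.eU (exp_big (M := 2 * M) (by omega) he) ?_ ?_
  · intro h0
    apply hs.li
    rw [h0]; simp [det2]
  · obtain ⟨K1, hK1⟩ := hB.exists_norm_le
    refine ⟨K1, fun t => ?_⟩
    rw [← io_rpV hs.cU t, norm_io]
    exact hK1 _ (wu_mem (by omega) hs t)

theorem good_s {c b : ℝ} (hb : b ≠ 0) {p : ℝ × ℝ} {a e : ℝ} {v w : ℝ × ℝ}
    (h : IsExp c b p a e v w) {M : ℕ} (hM : 0 < M) (hpM : (fR c b)^[M] p = p)
    (he : Real.log 2 < -a) : ¬ Bornology.IsBounded (Ws c b p) := by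
  intro hB
  obtain ⟨U, S, hs⟩ := sad_ex hb h hM hpM
  obtain ⟨K, hK⟩ := growth_gC c hb
  refine unb hK hs.dS hs.GS ?_ ?_ ?_
  · have := exp_big (M := 2 * M) (by omega) he
    rwa [mul_neg, Real.exp_neg] at this
  · intro h0
    apply hs.li
    rw [h0]; simp [det2]
  · obtain ⟨K1, hK1⟩ := hB.exists_norm_le
    refine ⟨K1, fun t => ?_⟩
    rw [← io_rpV hs.cS t, norm_io]
    exact hK1 _ (ws_mem (by omega) hs t)

end Pool.Agent.H53.HN
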