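import Pool.Agent.H53.HN.Lift

/-! # The index of a closed loop (helper53, folder HN)

PROOF. `ind_int`: L logarithm (`log_ex`), exp (L 1) = γ 1 - z = γ 0 - z = exp (L 0), so L 1 - L 0 is an integer multiple of 2 pi I; `ind_eq`.
 `ind_near`: let δ = min over [0,1] of |γ s - z| > 0 (compactness). For |w - z| < δ: (γ s - w)/(γ s - z) = 1 - (w - z)/(γ s - z) has positive real part, so it is in the slit plane, and
 L' s = L s + log (1 - (w - z)/(γ s - z)) is a logarithm of γ - w; at s = 0 and s = 1 the added terms are equal as γ 0 = γ 1; so the indices agree by `ind_eq`.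
 `ind_const`: on the preconnected set s the function ind γ is locally constant within s (`ind_near`), so constant (`IsPreconnected.constant_of_...`, `IsLocallyConstant`, or: the set of points of s with value ind γ z and its complement in s are relatively open).
 `ind_far`: |γ s| < |z|: γ s - z = (-z)(1 - γ s / z), 1 - γ s/z has positive real part; L s = log(-z) + log(1 - γ s/z), L 1 = L 0.
 `ind_unb`: choose w in s with |w| > max |γ| (compactness) and use `ind_const`, `ind_far`.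
-/

set_option autoImplicit false

namespace Pool.Agent.H53.HN

open Filter Topology

theorem ind_int {γ : ℝ → ℂ} (hγ : ContinuousOn γ (Set.Icc 0 1)) (hc : γ 0 = γ 1) {z : ℂ}
    (hz : ∀ s ∈ Set.Icc (0 : ℝ) 1, γ s ≠ z) : ∃ k : ℤ, ind γ z = k := by
  obtain ⟨L, hL⟩ := log_ex hγ hz
  have h0 : (0 : ℝ) ∈ Set.Icc (0 : ℝ) 1 := ⟨le_refl _, zero_le_one⟩
  have h1 : (1 : ℝ) ∈ Set.Icc (0 : ℝ) 1 := ⟨zero_le_one, le_refl _⟩
  have h : Complex.exp (L 1) = Complex.exp (L 0) := by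
    rw [hL.2 1 h1, hL.2 0 h0, hc]
  obtain ⟨n, hn⟩ := Complex.exp_eq_exp_iff_exists_int.1 h
  refine ⟨n, ?_⟩
  rw [ind_eq hL, hn]
  have hpi : (2 * (Real.pi : ℂ) * Complex.I) ≠ 0 := Complex.two_pi_I_ne_zero
  rw [add_sub_cancel_left, mul_div_assoc, div_self hpi, mul_one]

private theorem slit_of_norm_lt {q : ℂ} (hq : ‖q‖ < 1) : 1 - q ∈ Complex.slitPlane := by
  rw [Complex.mem_slitPlane_iff]
  left
  have h1 : q.re ≤ ‖q‖ := Complex.re_le_norm q
  rw [Complex.sub_re, Complex.one_re]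
  linarith

theorem ind_near {γ : ℝ → ℂ} (hγ : ContinuousOn γ (Set.Icc 0 1)) (hc : γ 0 = γ 1) {z : ℂ}
    (hz : ∀ s ∈ Set.Icc (0 : ℝ) 1, γ s ≠ z) : ∀ᶠ w in 𝓝 z, ind γ w = ind γ z := by
  have h0 : (0 : ℝ) ∈ Set.Icc (0 : ℝ) 1 := ⟨le_refl _, zero_le_one⟩
  have h1 : (1 : ℝ) ∈ Set.Icc (0 : ℝ) 1 := ⟨zero_le_one, le_refl _⟩
  obtain ⟨L, hL⟩ := log_ex hγ hz
  have hcn : ContinuousOn (fun s => ‖γ s - z‖) (Set.Icc 0 1) :=
    (hγ.sub continuousOn_const).norm
  obtain ⟨s0, hs0, hmin⟩ := isCompact_Icc.exists_isMinOn ⟨0, h0⟩ hcn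
  have hδ : 0 < ‖γ s0 - z‖ := norm_pos_iff.2 (sub_ne_zero.2 (hz s0 hs0))
  rw [Metric.eventually_nhds_iff]
  refine ⟨‖γ s0 - z‖, hδ, fun w hw => ?_⟩
  rw [dist_eq_norm] at hw
  have hne : ∀ s ∈ Set.Icc (0 : ℝ) 1, γ s - z ≠ 0 := fun s hs => sub_ne_zero.2 (hz s hs)
  have hq : ∀ s ∈ Set.Icc (0 : ℝ) 1, ‖(w - z) / (γ s - z)‖ < 1 := by
    intro s hs
    have hp : 0 < ‖γ s - z‖ := norm_pos_iff.2 (hne s hs)
    rw [norm_div, div_lt_one hp]
    exact lt_of_lt_of_le hw (hmin hs)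
  have hL' : IsLog γ w (fun s => L s + Complex.log (1 - (w - z) / (γ s - z))) := by
    refine ⟨?_, ?_⟩
    · refine hL.1.add ?_
      refine ContinuousOn.clog ?_ (fun s hs => slit_of_norm_lt (hq s hs))
      exact continuousOn_const.sub (continuousOn_const.div (hγ.sub continuousOn_const) hne)
    · intro s hs
      have hsl : 1 - (w - z) / (γ s - z) ≠ 0 :=
        Complex.slitPlane_ne_zero (slit_of_norm_lt (hq s hs))
      have hn := hne s hs
      show Complex.exp (L s + Complex.log (1 - (w - z) / (γ s - z))) = γ s - w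
      rw [Complex.exp_add, hL.2 s hs, Complex.exp_log hsl, mul_sub, mul_one,
        mul_div_cancel₀ _ hn]
      ring
  rw [ind_eq hL', ind_eq hL]
  rw [hc]
  congr 1
  ring

theorem ind_const {γ : ℝ → ℂ} (hγ : ContinuousOn γ (Set.Icc 0 1)) (hc : γ 0 = γ 1) {s : Set ℂ}
    (hs : IsPreconnected s) (hd : ∀ z ∈ s, ∀ t ∈ Set.Icc (0 : ℝ) 1, γ t ≠ z) {z w : ℂ}
    (hz : z ∈ s) (hw : w ∈ s) : ind γ z = ind γ w := by
  refine hs.induction₂ (fun x y => ind γ x = ind γ y) ?_ ?_ ?_ hz hw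
  · intro x hx
    have h := ind_near hγ hc (hd x hx)
    exact (mem_nhdsWithin_of_mem_nhds (h.mono (fun y hy => hy.symm)))
  · intro x y z _ _ _ h1 h2
    exact h1.trans h2
  · intro x y _ _ h
    exact h.symm

theorem ind_far {γ : ℝ → ℂ} (hγ : ContinuousOn γ (Set.Icc 0 1)) (hc : γ 0 = γ 1) {z : ℂ}
    (hz : ∀ s ∈ Set.Icc (0 : ℝ) 1, ‖γ s‖ < ‖z‖) : ind γ z = 0 := by
  have h0 : (0 : ℝ) ∈ Set.Icc (0 : ℝ) 1 := ⟨le_refl _, zero_le_one⟩
  have hzp : 0 < ‖z‖ := lt_of_le_of_lt (norm_nonneg _) (hz 0 h0)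
  have hz0 : z ≠ 0 := norm_pos_iff.1 hzp
  have hq : ∀ s ∈ Set.Icc (0 : ℝ) 1, ‖γ s / z‖ < 1 := by
    intro s hs
    rw [norm_div, div_lt_one hzp]
    exact hz s hs
  have hL' : IsLog γ z (fun s => Complex.log (-z) + Complex.log (1 - γ s / z)) := by
    refine ⟨?_, ?_⟩
    · refine continuousOn_const.add ?_
      refine ContinuousOn.clog ?_ (fun s hs => slit_of_norm_lt (hq s hs))
      exact continuousOn_const.sub (hγ.div_const z)
    · intro s hs
      have hsl : 1 - γ s / z ≠ 0 :=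
        Complex.slitPlane_ne_zero (slit_of_norm_lt (hq s hs))
      show Complex.exp (Complex.log (-z) + Complex.log (1 - γ s / z)) = γ s - z
      rw [Complex.exp_add, Complex.exp_log (neg_ne_zero.2 hz0), Complex.exp_log hsl]
      field_simp
      ring
  rw [ind_eq hL']
  rw [hc, sub_self, zero_div]

theorem ind_unb {γ : ℝ → ℂ} (hγ : ContinuousOn γ (Set.Icc 0 1)) (hc : γ 0 = γ 1) {s : Set ℂ}
    (hs : IsPreconnected s) (hd : ∀ z ∈ s, ∀ t ∈ Set.Icc (0 : ℝ) 1, γ t ≠ z)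
    (hu : ∀ K : ℝ, ∃ z ∈ s, K < ‖z‖) {z : ℂ} (hz : z ∈ s) : ind γ z = 0 := by
  obtain ⟨K, hK⟩ := isCompact_Icc.exists_bound_of_continuousOn hγ
  obtain ⟨w, hw, hKw⟩ := hu K
  rw [ind_const hγ hc hs hd hz hw]
  exact ind_far hγ hc (fun t ht => lt_of_le_of_lt (hK t ht) hKw)

end Pool.Agent.H53.HN
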