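import Pool.Agent.H53.HN.ChartApi

/-! # Local coincidence of a curve with the stable manifold (helper53, folder HN)

PROOF. V t0 = S s0. Choose j with ν^j |s0| < r. F^[j] (V t0) = S (ν^j s0) = χ (0, ν^j s0). Let Q z = χ.symm (F^[j] z), analytic at V t0 (`chart_diff`), and a(t) = (Q (V t)).1, an analytic function of the complex variable t near t0.
 By `chart_loc` for t near t0: F^[j] (V t) in the target and both coordinates of Q (V t) of norm < r.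
 For the t_k of the hypothesis (points t near t0, t ≠ t0, with V t = S s and s close to s0): F^[j] (V t) = S (ν^j s) = χ (0, ν^j s) (|ν^j s| < r for s near s0), so Q (V t) = (0, ν^j s) and a(t) = 0.
 So a has zeros accumulating at t0 (t ≠ t0): `AnalyticAt.eventually_eq_zero_or_eventually_ne_zero` gives a = 0 near t0. So for real t near t0: F^[j] (V t) = χ (0, Y) with Y = (Q (V t)).2, |Y| < r; by reality (hc.real; F^[j] (V t) is fixed by cj) Y is real,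
 and `chart_zero` gives V t = S (ν^-j Y), |ν^-j Y| <= M := r/ν^j.
-/

set_option autoImplicit false

namespace Pool.Agent.H53.HN

open Filter Topology

variable {F G : ℂ × ℂ → ℂ × ℂ} {p : ℝ × ℝ} {μ ν r C : ℝ} {U S : ℂ → ℂ × ℂ}
  {χ : OpenPartialHomeomorph (ℂ × ℂ) (ℂ × ℂ)}

theorem iso1 (h : IsSad F G p μ ν U S) (hc : IsChart F p μ ν U S χ r C) {V : ℂ → ℂ × ℂ}
    (dV : Differentiable ℂ V) (cV : ∀ t, V (starRingEnd ℂ t) = cj (V t)) {t0 s0 : ℝ}
    (h0 : V (t0 : ℂ) = S (s0 : ℂ))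
    (hacc : ∀ ε : ℝ, 0 < ε → ∃ t s : ℝ, t ≠ t0 ∧ |t - t0| < ε ∧ |s - s0| < ε ∧
      V (t : ℂ) = S (s : ℂ)) :
    ∃ M : ℝ, ∀ᶠ t : ℝ in 𝓝 t0, ∃ s : ℝ, |s| ≤ M ∧ V (t : ℂ) = S (s : ℂ) := by
  have hpos : 0 < |s0| + 1 := by positivity
  obtain ⟨j, hj⟩ := exists_pow_lt_of_lt_one (div_pos hc.r0 hpos) h.nu1
  have hj' : ν ^ j * (|s0| + 1) < r := by rwa [lt_div_iff₀ hpos] at hj
  have hνj : 0 < ν ^ j := pow_pos h.nu0 j
  have hsm : ∀ s : ℝ, |s| ≤ |s0| + 1 → ‖(((ν ^ j : ℝ) : ℂ) * (s : ℂ))‖ < r := by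
    intro s hs
    rw [norm_mul, Complex.norm_real, Complex.norm_real, Real.norm_eq_abs, Real.norm_eq_abs,
      abs_of_pos hνj]
    exact lt_of_le_of_lt (mul_le_mul_of_nonneg_left hs hνj.le) hj'
  have hr0 : ‖(0 : ℂ)‖ < r := by rw [norm_zero]; exact hc.r0
  have hFS : ∀ (s : ℝ), |s| ≤ |s0| + 1 → ∀ t : ℝ, V (t : ℂ) = S (s : ℂ) →
      F^[j] (V (t : ℂ)) = χ (0, ((ν ^ j : ℝ) : ℂ) * (s : ℂ)) := by
    intro s hs t ht
    rw [ht, h.iterS, chart_S h hc (hsm s hs)]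
  have hs00 : |s0| ≤ |s0| + 1 := by linarith
  have hz0 := hFS s0 hs00 t0 h0
  have hA := (chart_diff h hc (w0 := (0, ((ν ^ j : ℝ) : ℂ) * (s0 : ℂ))) hr0 (hsm s0 hs00) hz0).1
  have hB : AnalyticAt ℂ (fun t : ℂ => (χ.symm (F^[j] (V t))).1) (t0 : ℂ) := by
    have h1 : AnalyticAt ℂ ((fun z => χ.symm (F^[j] z)) ∘ V) (t0 : ℂ) :=
      hA.comp (dV.analyticAt _)
    exact AnalyticAt.fun_comp analyticAt_fst h1
  have hzero : ∀ᶠ t in 𝓝 (t0 : ℂ), (χ.symm (F^[j] (V t))).1 = 0 := by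
    rcases hB.eventually_eq_zero_or_eventually_ne_zero with h1 | h1
    · exact h1
    · exfalso
      rw [eventually_nhdsWithin_iff, Metric.eventually_nhds_iff] at h1
      obtain ⟨ε, hε, h2⟩ := h1
      obtain ⟨t, s, a1, a2, a3, a4⟩ := hacc (min ε 1) (lt_min hε one_pos)
      refine h2 (y := (t : ℂ)) ?_ ?_ ?_
      · rw [Complex.dist_eq, ← Complex.ofReal_sub, Complex.norm_real, Real.norm_eq_abs]
        exact lt_of_lt_of_le a2 (min_le_left _ _)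
      · simp only [Set.mem_compl_iff, Set.mem_singleton_iff, Complex.ofReal_inj]
        exact a1
      · have hs : |s| ≤ |s0| + 1 := by
          have h3 : |s| ≤ |s0| + |s - s0| := by
            calc |s| = |s0 + (s - s0)| := by congr 1; ring
              _ ≤ _ := abs_add_le _ _
          have := lt_of_lt_of_le a3 (min_le_right ε 1)
          linarith
        rw [hFS s hs t a4, (chart_symm hc (w := (0, ((ν ^ j : ℝ) : ℂ) * (s : ℂ))) hr0
          (hsm s hs)).2]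
  have hloc : ∀ᶠ t in 𝓝 (t0 : ℂ), F^[j] (V t) ∈ χ.target ∧ ‖(χ.symm (F^[j] (V t))).1‖ < r ∧
      ‖(χ.symm (F^[j] (V t))).2‖ < r :=
    (dV.continuous.tendsto (t0 : ℂ)).eventually
      (chart_loc h hc (w0 := (0, ((ν ^ j : ℝ) : ℂ) * (s0 : ℂ))) hr0 (hsm s0 hs00) hz0)
  refine ⟨(ν ^ j)⁻¹ * r, ?_⟩
  filter_upwards [(Complex.continuous_ofReal.tendsto t0).eventually (hzero.and hloc)] with t ht
  obtain ⟨e1, e2, e3, e4⟩ := ht
  obtain ⟨w, hw⟩ : ∃ w, w = χ.symm (F^[j] (V (t : ℂ))) := ⟨_, rfl⟩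
  rw [← hw] at e1 e3 e4
  have hχ : χ w = F^[j] (V (t : ℂ)) := by rw [hw]; exact χ.right_inv e2
  have hreal : cj w = w := by
    refine hc.real w e3 e4 ?_
    rw [hχ, ← cj_iter h.cF, ← cV, Complex.conj_ofReal]
  have hre : ((w.2.re : ℝ) : ℂ) = w.2 := Complex.conj_eq_iff_re.1 (congrArg Prod.snd hreal)
  refine ⟨(ν ^ j)⁻¹ * w.2.re, ?_, ?_⟩
  · rw [abs_mul, abs_of_pos (inv_pos.2 hνj)]
    refine mul_le_mul_of_nonneg_left ?_ (inv_pos.2 hνj).le
    exact (Complex.abs_re_le_norm _).trans e4.le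
  · rw [chart_zero h hc e1 e4 hχ.symm, Complex.ofReal_mul, hre]

end Pool.Agent.H53.HN
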