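import Pool.Agent.H53.HN.ChartApi

/-! # Iteration in the chart (helper53, folder HN)

PROOF. ν1 = (1+ν)/2 < 1. Choose δ > 0 with δ <= r/2 and exp(C δ/(1-ν1)) <= 1 + ε. Put P_i = product over l < i of (1 + C δ ν1^l); 1 <= P_i <= exp(C δ/(1-ν1)) <= 1 + ε (1 + x <= exp x, geometric series).
 Claim by induction on i <= j: there is w_i with ‖w_i.1‖ < r, ‖w_i.2‖ < r, F^[i] (χ w) = χ w_i, ‖w_i.1 - μ^i w.1‖ <= (P_i - 1) μ^i ‖w.1‖, ‖w_i.2‖ <= ν1^i ‖w.2‖. i = 0: w_0 = w (‖w.1‖ <= μ^j ‖w.1‖ <= r/2).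
 Step i < j: w_(i+1) = χ.symm (F (χ w_i)); `chart_step` gives χ w_(i+1) = F (χ w_i) and ‖w_(i+1).2‖ <= ν1 ‖w_i.2‖ <= δ < r. hc.n1: ‖w_(i+1).1 - μ w_i.1‖ <= C ‖w_i.1‖ ‖w_i.2‖ <= C P_i μ^i ‖w.1‖ ν1^i δ, as ‖w_i.1‖ <= P_i μ^i ‖w.1‖.
 So ‖w_(i+1).1 - μ^(i+1) w.1‖ <= μ (P_i - 1) μ^i ‖w.1‖ + C δ ν1^i P_i μ^i ‖w.1‖ <= μ^(i+1) ‖w.1‖ (P_i - 1 + C δ ν1^i P_i) = μ^(i+1) ‖w.1‖ (P_(i+1) - 1) (μ >= 1). ‖w_(i+1).1‖ <= (1+ε) μ^(i+1) ‖w.1‖ <= (1+ε) r/2 < r.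
-/

set_option autoImplicit false

namespace Pool.Agent.H53.HN

open Filter Topology

variable {F G : ℂ × ℂ → ℂ × ℂ} {p : ℝ × ℝ} {μ ν r C : ℝ} {U S : ℂ → ℂ × ℂ}
  {χ : OpenPartialHomeomorph (ℂ × ℂ) (ℂ × ℂ)}

theorem it (h : IsSad F G p μ ν U S) (hc : IsChart F p μ ν U S χ r C) {ε : ℝ} (hε : 0 < ε)
    (hε1 : ε < 1) : ∃ δ : ℝ, 0 < δ ∧ ∀ (w : ℂ × ℂ) (j : ℕ), ‖w.2‖ ≤ δ → μ ^ j * ‖w.1‖ ≤ r / 2 →
      ∃ w' : ℂ × ℂ, ‖w'.1‖ < r ∧ ‖w'.2‖ < r ∧ F^[j] (χ w) = χ w' ∧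
        ‖w'.1 - ((μ ^ j : ℝ) : ℂ) * w.1‖ ≤ ε * (μ ^ j * ‖w.1‖) ∧
        ‖w'.2‖ ≤ ((1 + ν) / 2) ^ j * ‖w.2‖ := by
  have hr := hc.r0
  have hC := hc.C0
  have hμ := h.mu
  have hμ0 := h.mu0
  have hν0 := h.nu0
  have hν1' := h.nu1
  set ν1 : ℝ := (1 + ν) / 2 with hν1
  have h1ν : 0 < 1 - ν1 := by rw [hν1]; linarith
  have hν1pos : 0 < ν1 := by rw [hν1]; linarith
  have hν1lt : ν1 < 1 := by linarith
  -- choice of δ
  obtain ⟨δ, hδ, hδr, hδe⟩ : ∃ δ : ℝ, 0 < δ ∧ δ ≤ r / 2 ∧ Real.exp (C * δ / (1 - ν1)) ≤ 1 + ε := by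
    have hlog : 0 < Real.log (1 + ε) := Real.log_pos (by linarith)
    refine ⟨min (r / 2) (Real.log (1 + ε) * (1 - ν1) / C),
      lt_min (by linarith) (div_pos (mul_pos hlog h1ν) hC), min_le_left _ _, ?_⟩
    rw [← Real.le_log_iff_exp_le (by linarith), div_le_iff₀ h1ν]
    have := min_le_right (r / 2) (Real.log (1 + ε) * (1 - ν1) / C)
    rw [le_div_iff₀ hC] at this
    linarith
  refine ⟨δ, hδ, fun w j hw2 hw1 => ?_⟩
  set P : ℕ → ℝ := fun i => ∏ l ∈ Finset.range i, (1 + C * δ * ν1 ^ l) with hP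
  have hP1 : ∀ i, 1 ≤ P i := by
    intro i
    induction i with
    | zero => simp [hP]
    | succ l ih =>
      have h1 : P (l + 1) = P l * (1 + C * δ * ν1 ^ l) := by
        simp only [hP]; rw [Finset.prod_range_succ]
      have : 0 ≤ C * δ * ν1 ^ l := by positivity
      rw [h1]
      nlinarith
  have hPe : ∀ i, P i ≤ 1 + ε := by
    intro i
    refine le_trans ?_ hδe
    have h1 : P i ≤ ∏ l ∈ Finset.range i, Real.exp (C * δ * ν1 ^ l) := by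
      refine Finset.prod_le_prod ?_ ?_
      · intro l _; positivity
      · intro l _
        have := Real.add_one_le_exp (C * δ * ν1 ^ l)
        linarith
    refine h1.trans ?_
    rw [← Real.exp_sum, ← Finset.mul_sum]
    apply Real.exp_le_exp.2
    have h2 : ∑ l ∈ Finset.range i, ν1 ^ l ≤ 1 / (1 - ν1) := by
      rw [geom_sum_eq hν1lt.ne, le_div_iff₀ h1ν]
      have h3 : (ν1 ^ i - 1) / (ν1 - 1) * (1 - ν1) = 1 - ν1 ^ i := by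
        have : ν1 - 1 ≠ 0 := by linarith
        field_simp
        ring
      rw [h3]
      have : 0 < ν1 ^ i := pow_pos hν1pos i
      linarith
    calc C * δ * ∑ l ∈ Finset.range i, ν1 ^ l ≤ C * δ * (1 / (1 - ν1)) := by gcongr
      _ = C * δ / (1 - ν1) := by ring
  have hw1n : 0 ≤ ‖w.1‖ := norm_nonneg _
  have hw2n : 0 ≤ ‖w.2‖ := norm_nonneg _
  have hPsucc : ∀ i, P (i + 1) = P i * (1 + C * δ * ν1 ^ i) := fun i => by
    simp only [hP]; rw [Finset.prod_range_succ]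
  have hμi : ∀ i, i ≤ j → (1 + ε) * (μ ^ i * ‖w.1‖) < r := by
    intro i hi
    have h1 : μ ^ i ≤ μ ^ j := pow_le_pow_right₀ hμ.le hi
    have h2 : μ ^ i * ‖w.1‖ ≤ r / 2 := le_trans (mul_le_mul_of_nonneg_right h1 hw1n) hw1
    have h3 : 0 ≤ μ ^ i * ‖w.1‖ := by positivity
    nlinarith
  have claim : ∀ i, i ≤ j → ∃ w' : ℂ × ℂ, ‖w'.1‖ < r ∧ ‖w'.2‖ < r ∧ F^[i] (χ w) = χ w' ∧
      ‖w'.1 - ((μ ^ i : ℝ) : ℂ) * w.1‖ ≤ (P i - 1) * (μ ^ i * ‖w.1‖) ∧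
      ‖w'.2‖ ≤ ν1 ^ i * ‖w.2‖ := by
    intro i
    induction i with
    | zero =>
      intro _
      refine ⟨w, ?_, ?_, rfl, ?_, ?_⟩
      · have := hμi 0 (Nat.zero_le _)
        rw [pow_zero, one_mul] at this
        nlinarith
      · linarith
      · simp [hP]
      · simp
    | succ i ih =>
      intro hi
      obtain ⟨w', h1, h2, h3, h4, h5⟩ := ih (by omega)
      obtain ⟨g1, -, -, g4⟩ := chart_step h hc h1 h2
      have n1 := hc.n1 w' h1 h2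
      set w'' := χ.symm (F (χ w')) with hw''
      have hμipos : 0 < μ ^ i := pow_pos hμ0 i
      have a1 : ‖((μ ^ i : ℝ) : ℂ) * w.1‖ = μ ^ i * ‖w.1‖ := by
        rw [norm_mul, Complex.norm_real, Real.norm_of_nonneg hμipos.le]
      have a2 : ‖w'.1‖ ≤ P i * (μ ^ i * ‖w.1‖) := by
        have := norm_le_norm_add_norm_sub' w'.1 (((μ ^ i : ℝ) : ℂ) * w.1)
        rw [a1] at this
        linarith
      have a3 : ‖w'.2‖ ≤ ν1 ^ i * δ := h5.trans (by gcongr)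
      have b0 : 0 ≤ P i * (μ ^ i * ‖w.1‖) := by
        have := hP1 i
        positivity
      have a4 : ‖w''.1 - ((μ ^ (i + 1) : ℝ) : ℂ) * w.1‖ ≤
          (P (i + 1) - 1) * (μ ^ (i + 1) * ‖w.1‖) := by
        have e1 : w''.1 - ((μ ^ (i + 1) : ℝ) : ℂ) * w.1 =
            (w''.1 - (μ : ℂ) * w'.1) + (μ : ℂ) * (w'.1 - ((μ ^ i : ℝ) : ℂ) * w.1) := by
          push_cast; ring
        rw [e1]
        refine (norm_add_le _ _).trans ?_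
        rw [norm_mul (μ : ℂ), Complex.norm_real, Real.norm_of_nonneg hμ0.le]
        have e2 : ‖w''.1 - (μ : ℂ) * w'.1‖ ≤ C * (P i * (μ ^ i * ‖w.1‖)) * (ν1 ^ i * δ) := by
          refine n1.trans ?_
          have : C * ‖w'.1‖ ≤ C * (P i * (μ ^ i * ‖w.1‖)) := mul_le_mul_of_nonneg_left a2 hC.le
          exact mul_le_mul this a3 (norm_nonneg _) (mul_nonneg hC.le b0)
        have e3 : C * (P i * (μ ^ i * ‖w.1‖)) * (ν1 ^ i * δ) ≤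
            μ * (C * (P i * (μ ^ i * ‖w.1‖)) * (ν1 ^ i * δ)) := by
          have : 0 ≤ C * (P i * (μ ^ i * ‖w.1‖)) * (ν1 ^ i * δ) := by positivity
          nlinarith
        have e4 : μ * ‖w'.1 - ((μ ^ i : ℝ) : ℂ) * w.1‖ ≤ μ * ((P i - 1) * (μ ^ i * ‖w.1‖)) :=
          mul_le_mul_of_nonneg_left h4 hμ0.le
        have e5 : μ * (C * (P i * (μ ^ i * ‖w.1‖)) * (ν1 ^ i * δ)) +
            μ * ((P i - 1) * (μ ^ i * ‖w.1‖)) = (P (i + 1) - 1) * (μ ^ (i + 1) * ‖w.1‖) := by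
          rw [hPsucc, pow_succ]; ring
        linarith
      have a5 : ‖w''.2‖ ≤ ν1 ^ (i + 1) * ‖w.2‖ := by
        calc ‖w''.2‖ ≤ ν1 * ‖w'.2‖ := g4
          _ ≤ ν1 * (ν1 ^ i * ‖w.2‖) := mul_le_mul_of_nonneg_left h5 hν1pos.le
          _ = ν1 ^ (i + 1) * ‖w.2‖ := by rw [pow_succ]; ring
      refine ⟨w'', ?_, ?_, ?_, a4, a5⟩
      · have hμi1 : 0 < μ ^ (i + 1) := pow_pos hμ0 _
        have b1 : ‖((μ ^ (i + 1) : ℝ) : ℂ) * w.1‖ = μ ^ (i + 1) * ‖w.1‖ := by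
          rw [norm_mul, Complex.norm_real, Real.norm_of_nonneg hμi1.le]
        have := norm_le_norm_add_norm_sub' w''.1 (((μ ^ (i + 1) : ℝ) : ℂ) * w.1)
        rw [b1] at this
        have b2 : P (i + 1) * (μ ^ (i + 1) * ‖w.1‖) ≤ (1 + ε) * (μ ^ (i + 1) * ‖w.1‖) :=
          mul_le_mul_of_nonneg_right (hPe _) (by positivity)
        have b3 := hμi (i + 1) hi
        linarith
      · calc ‖w''.2‖ ≤ ν1 * ‖w'.2‖ := g4
          _ ≤ 1 * ‖w'.2‖ := by gcongr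
          _ < r := by rw [one_mul]; exact h2
      · rw [Function.iterate_succ_apply', h3, g1]
  obtain ⟨w', h1, h2, h3, h4, h5⟩ := claim j le_rfl
  refine ⟨w', h1, h2, h3, h4.trans ?_, h5⟩
  have : 0 ≤ μ ^ j * ‖w.1‖ := by positivity
  have := hPe j
  gcongr
  linarith

end Pool.Agent.H53.HN
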