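import Pool.Agent.H53.HN.Basic

/-! # Continuous logarithms of paths (helper53, folder HN)

PROOF. `log_ex`: γ - z is continuous and nonzero on [0,1]; a continuous logarithm exists. Mathlib: `Complex.exists_continuousOn_eqOn_exp_comp`-type results or the covering map property of exp
 (`Complex.isCoveringMapOn_exp`, `IsCoveringMap.exists_path_lifts`, `IsCoveringMap.liftPath`); or by hand: by uniform continuity choose m with |γ s - γ s'| < min|γ - z| for |s - s'| <= 1/m, and on [k/m, (k+1)/m] add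
 the principal logarithm of (γ s - z)/(γ (k/m) - z), which lies in the slit plane; glue by induction on k.
 `log_uniq`: (L' - L)/(2 pi I) is continuous on [0,1] with integer values (exp L = exp L', `Complex.exp_eq_exp_iff_exists_int`), so constant ([0,1] is preconnected; integers are discrete: e.g. its real part is a continuous
 function with values in the range of the integers, `IsPreconnected.constant`-type lemma).
 `ind_eq`: unfold ind, by `log_uniq` the chosen logarithm differs from L by a constant.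
 `angle_ex`: for a continuous ψ on the whole line missing o: apply `log_ex` on every [-n, n] (rescaled) or directly the lifting theorem on the simply connected line; normalise the value at 0 and glue: Θ = imaginary part of the logarithm.
-/

set_option autoImplicit false

namespace Pool.Agent.H53.HN

private theorem lift_log {g : ℝ → ℂ} (hg : Continuous g) (h0 : ∀ t, g t ≠ 0) :
    ∃ f : ℝ → ℂ, Continuous f ∧ ∀ t, Complex.exp (f t) = g t := by
  rcases Complex.isCoveringMapOn_exp.existsUnique_continuousMap_lifts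
    (⟨g, hg⟩ : C(ℝ, ℂ)) (a₀ := 0) (e₀ := Complex.log (g 0)) (Complex.exp_log (h0 0))
    (fun t => h0 t) with ⟨f, ⟨-, hf⟩, -⟩
  exact ⟨f, f.continuous, fun t => congrFun hf t⟩

theorem log_ex {γ : ℝ → ℂ} (hγ : ContinuousOn γ (Set.Icc 0 1)) {z : ℂ}
    (hz : ∀ s ∈ Set.Icc (0 : ℝ) 1, γ s ≠ z) : ∃ L, IsLog γ z L := by
  obtain ⟨f, hf, hf'⟩ := lift_log (g := fun t => γ (Set.projIcc (0 : ℝ) 1 zero_le_one t) - z)
    ((hγ.comp_continuous (continuous_subtype_val.comp continuous_projIcc)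
      (fun t => (Set.projIcc (0 : ℝ) 1 zero_le_one t).2)).sub continuous_const)
    (fun t => sub_ne_zero.2 (hz _ (Set.projIcc (0 : ℝ) 1 zero_le_one t).2))
  refine ⟨f, hf.continuousOn, fun s hs => ?_⟩
  rw [hf', Set.projIcc_of_mem zero_le_one hs]

theorem log_uniq {γ : ℝ → ℂ} {z : ℂ} {L L' : ℝ → ℂ} (h : IsLog γ z L) (h' : IsLog γ z L') :
    ∃ k : ℤ, ∀ s ∈ Set.Icc (0 : ℝ) 1, L' s = L s + k * (2 * (Real.pi : ℂ) * Complex.I) := by
  have h2 : (2 * (Real.pi : ℂ) * Complex.I) ≠ 0 := Complex.two_pi_I_ne_zero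
  have hn : ∀ s ∈ Set.Icc (0 : ℝ) 1, ∃ n : ℤ,
      L' s = L s + n * (2 * (Real.pi : ℂ) * Complex.I) := fun s hs =>
    Complex.exp_eq_exp_iff_exists_int.1 (by rw [h'.2 s hs, h.2 s hs])
  obtain ⟨d, hd⟩ : ∃ d : ℝ → ℝ, d = fun s => ((L' s - L s) / (2 * (Real.pi : ℂ) * Complex.I)).re :=
    ⟨_, rfl⟩
  have hdc : ContinuousOn d (Set.Icc 0 1) := by
    rw [hd]
    exact Complex.continuous_re.comp_continuousOn ((h'.1.sub h.1).div_const _)
  have hdn : ∀ s ∈ Set.Icc (0 : ℝ) 1, ∀ n : ℤ, L' s = L s + n * (2 * (Real.pi : ℂ) * Complex.I) →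
      d s = n := by
    intro s _ n hn
    rw [hd]
    dsimp only
    rw [hn, add_sub_cancel_left, mul_div_assoc, div_self h2, mul_one, Complex.intCast_re]
  have hdisc : DiscreteTopology (Set.range (Int.cast : ℤ → ℝ)) :=
    Int.isClosedEmbedding_coe_real.isEmbedding.toHomeomorph.symm.isEmbedding.discreteTopology
  have h0 : (0 : ℝ) ∈ Set.Icc (0 : ℝ) 1 := ⟨le_rfl, zero_le_one⟩
  obtain ⟨k, hk⟩ := hn 0 h0
  refine ⟨k, fun s hs => ?_⟩
  obtain ⟨n, hns⟩ := hn s hs
  have hconst : d s = d 0 := isPreconnected_Icc.constant_of_mapsTo (isDiscrete_iff_discreteTopology.2 hdisc) hdc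
    (fun t ht => by
      obtain ⟨m, hm⟩ := hn t ht
      exact ⟨m, (hdn t ht m hm).symm⟩) hs h0
  rw [hdn s hs n hns, hdn 0 h0 k hk] at hconst
  have : n = k := by exact_mod_cast hconst
  rw [hns, this]

theorem ind_eq {γ : ℝ → ℂ} {z : ℂ} {L : ℝ → ℂ} (h : IsLog γ z L) :
    ind γ z = (L 1 - L 0) / (2 * (Real.pi : ℂ) * Complex.I) := by
  have hex : ∃ L, IsLog γ z L := ⟨L, h⟩
  unfold ind
  rw [dif_pos hex]
  obtain ⟨k, hk⟩ := log_uniq h hex.choose_spec
  rw [hk 1 ⟨zero_le_one, le_rfl⟩, hk 0 ⟨le_rfl, zero_le_one⟩, add_sub_add_right_eq_sub]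

theorem angle_ex {ψ : ℝ → ℂ} (hψ : Continuous ψ) {o : ℂ} (ho : ∀ t, ψ t ≠ o) :
    ∃ Θ : ℝ → ℝ, Continuous Θ ∧
      ∀ t, ψ t - o = (‖ψ t - o‖ : ℂ) * Complex.exp ((Θ t : ℂ) * Complex.I) := by
  obtain ⟨f, hf, hf'⟩ := lift_log (g := fun t => ψ t - o) (hψ.sub continuous_const)
    (fun t => sub_ne_zero.2 (ho t))
  refine ⟨fun t => (f t).im, Complex.continuous_im.comp hf, fun t => ?_⟩
  have h1 : ‖ψ t - o‖ = Real.exp (f t).re := by
    rw [← Complex.norm_exp]
    exact congrArg norm (hf' t).symm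
  rw [h1, Complex.ofReal_exp, ← Complex.exp_add, Complex.re_add_im]
  exact (hf' t).symm

end Pool.Agent.H53.HN
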