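import Pool.Agent.H53.HN.Rel
import Pool.Agent.H53.HN.Good
import Pool.Agent.H53.HN.FixF2

/-! # The theorem (helper53, folder HN) -/

set_option autoImplicit false

namespace Pool.Agent.H53.HN

open Filter Topology

theorem fin_of_inj {P : ℕ → Prop} {p : ℕ → ℝ × ℝ} {Z : Finset (ℝ × ℝ)}
    (hinj : ∀ i j, P i → P j → p i = p j → i = j) (hZ : ∀ n, P n → p n ∈ Z) :
    ∃ T : Finset ℕ, T.card ≤ Z.card ∧ ∀ n, P n → n ∈ T := by
  classical
  have hfin : {n | P n}.Finite := by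
    refine Set.Finite.of_finite_image (f := p) (Z.finite_toSet.subset ?_) ?_
    · rintro _ ⟨n, hn, rfl⟩; exact hZ n hn
    · intro i hi j hj h; exact hinj i j hi hj h
  refine ⟨hfin.toFinset, ?_, fun n hn => by simpa using hn⟩
  refine Finset.card_le_card_of_injOn p ?_ ?_
  · intro n hn
    have : P n := by simpa using hn
    exact hZ n this
  · intro i hi j hj h
    have h1 : P i := by simpa using hi
    have h2 : P j := by simpa using hj
    exact hinj i j h1 h2 h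

theorem main_thm {c b : ℝ} (hb : b ≠ 0) (p : ℕ → ℝ × ℝ)
    (hs : ∀ n : ℕ, ∃ m : ℕ, 0 < m ∧ (fR c b)^[m] (p n) = p n ∧ ∃ μ₁ μ₂ : ℝ,
        Module.End.HasEigenvalue (fderiv ℝ ((fR c b)^[m]) (p n)).toLinearMap μ₁ ∧
        Module.End.HasEigenvalue (fderiv ℝ ((fR c b)^[m]) (p n)).toLinearMap μ₂ ∧
        abs μ₁ < 1 ∧ 1 < abs μ₂)
    (hr : ∀ i j : ℕ, i ≠ j → ¬ ∃ k : ℕ, TI c b (p i) ((fR c b)^[k] (p j)) ∧
      TI c b ((fR c b)^[k] (p j)) (p i)) :
    ∃ T : Finset ℕ, T.card ≤ 4 ∧ ∀ n, n ∉ T →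
      (Bornology.IsBounded (Wu c b (p n)) ∧ ∀ m : ℕ, 0 < m → (fR c b)^[m] (p n) = p n →
        ∃ μ : ℝ, Module.End.HasEigenvalue (fderiv ℝ ((fR c b)^[m]) (p n)).toLinearMap μ ∧
          1 < abs μ ∧ abs (Real.log (abs μ)) / (m : ℝ) ≤ Real.log 2) ∨
      (Bornology.IsBounded (Ws c b (p n)) ∧ ∀ m : ℕ, 0 < m → (fR c b)^[m] (p n) = p n →
        ∃ μ : ℝ, Module.End.HasEigenvalue (fderiv ℝ ((fR c b)^[m]) (p n)).toLinearMap μ ∧
          abs μ < 1 ∧ abs (Real.log (abs μ)) / (m : ℝ) ≤ Real.log 2) := by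
  classical
  have hs' := hs
  choose M hM0 hMp _ using hs'
  have hex : ∀ n, ∃ (a e : ℝ) (v w : ℝ × ℝ), IsExp c b (p n) a e v w := fun n =>
    exp_ex hb (hs n)
  choose a e v w hE using hex
  let Good : ℕ → Prop := fun n =>
    ¬ (Bornology.IsBounded (Wu c b (p n)) ∧ e n ≤ Real.log 2) ∧
    ¬ (Bornology.IsBounded (Ws c b (p n)) ∧ -(a n) ≤ Real.log 2)
  have G1 : ∀ n, Good n → ¬ Bornology.IsBounded (Wu c b (p n)) := fun n hn hB => by
    rcases le_or_gt (e n) (Real.log 2) with h | h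
    · exact hn.1 ⟨hB, h⟩
    · exact good_u hb (hE n) (hM0 n) (hMp n) h hB
  have G1' : ∀ n, Good n → ¬ Bornology.IsBounded (Ws c b (p n)) := fun n hn hB => by
    rcases le_or_gt (-(a n)) (Real.log 2) with h | h
    · exact hn.2 ⟨hB, h⟩
    · exact good_s hb (hE n) (hM0 n) (hMp n) h hB
  have self : ∀ n, TI c b (p n) (p n) := fun n => ti_self hb (hE n) (hM0 n) (hMp n)
  -- points on one orbit are related
  have G0 : ∀ i j k l : ℕ, (fR c b)^[k] (p i) = (fR c b)^[l] (p j) → i = j := by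
    intro i j k l hkl
    by_contra hij
    have hle : k ≤ M i * (k + 1) := by
      have := hM0 i
      nlinarith
    have h1 : (fR c b)^[M i * (k + 1) - k + l] (p j) = p i := by
      rw [Function.iterate_add_apply, ← hkl, ← Function.iterate_add_apply,
        Nat.sub_add_cancel hle]
      exact iter_fix_mul (hMp i) (k + 1)
    refine hr i j hij ⟨M i * (k + 1) - k + l, ?_, ?_⟩
    · rw [h1]; exact self i
    · rw [h1]; exact self i
  have G2 : ∀ i j, Good i → Good j → (fR c b)^[2] (p i) ≠ p i → (fR c b)^[2] (p j) ≠ p j →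
      i = j := by
    intro i j hi hj h2i h2j
    by_contra hij
    have hMM : 0 < M i * M j := Nat.mul_pos (hM0 i) (hM0 j)
    have hfi : (fR c b)^[M i * M j] (p i) = p i := iter_fix_mul (hMp i) (M j)
    have hfj : (fR c b)^[M i * M j] (p j) = p j := by
      rw [Nat.mul_comm]; exact iter_fix_mul (hMp j) (M i)
    exact hr i j hij (rel_core hb (hE i) (hE j) hMM hfi hfj h2i h2j (G1' i hi) (G1 i hi)
      (G1' j hj) (G1 j hj) (fun k l h => hij (G0 i j k l h)))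
  obtain ⟨Z, hZc, hZ⟩ := fix2 c b
  have hZ' : ∀ n, ∃ k : ℕ, (fR c b)^[2] (p n) = p n → (fR c b)^[k] (p n) ∈ Z := by
    intro n
    by_cases h : (fR c b)^[2] (p n) = p n
    · obtain ⟨k, hk⟩ := hZ _ h
      exact ⟨k, fun _ => hk⟩
    · exact ⟨0, fun h' => absurd h' h⟩
  choose K hK using hZ'
  obtain ⟨T1, hT1, hT1'⟩ := fin_of_inj (P := fun n => Good n ∧ (fR c b)^[2] (p n) = p n) (Z := Z)
    (p := fun n => (fR c b)^[K n] (p n))
    (fun i j _ _ h => G0 i j (K i) (K j) h) (fun n hn => hK n hn.2)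
  have hT2 : ∃ T2 : Finset ℕ, T2.card ≤ 1 ∧ ∀ n, Good n → (fR c b)^[2] (p n) ≠ p n → n ∈ T2 := by
    by_cases hx : ∃ n, Good n ∧ (fR c b)^[2] (p n) ≠ p n
    · obtain ⟨n0, h1, h2⟩ := hx
      refine ⟨{n0}, by simp, fun n h3 h4 => ?_⟩
      rw [G2 n n0 h3 h1 h4 h2]; simp
    · refine ⟨∅, by simp, fun n h3 h4 => ?_⟩
      exact absurd ⟨n, h3, h4⟩ hx
  obtain ⟨T2, hT2c, hT2'⟩ := hT2
  refine ⟨T1 ∪ T2, ?_, ?_⟩
  · have := Finset.card_union_le T1 T2
    omega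
  · intro n hn
    have hng : ¬ Good n := by
      intro hg
      apply hn
      rw [Finset.mem_union]
      by_cases h2 : (fR c b)^[2] (p n) = p n
      · exact Or.inl (hT1' n ⟨hg, h2⟩)
      · exact Or.inr (hT2' n hg h2)
    have hng' : (Bornology.IsBounded (Wu c b (p n)) ∧ e n ≤ Real.log 2) ∨
        (Bornology.IsBounded (Ws c b (p n)) ∧ -(a n) ≤ Real.log 2) := by
      by_contra h
      push Not at h
      exact hng ⟨fun h' => absurd (h.1 h'.1) (not_lt.2 h'.2),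
        fun h' => absurd (h.2 h'.1) (not_lt.2 h'.2)⟩
    rcases hng' with ⟨h1, h2⟩ | ⟨h1, h2⟩
    · left
      refine ⟨h1, fun m hm hpm => ?_⟩
      obtain ⟨-, y, hy1, hy2, hy3⟩ := exp_eig (hE n) hm hpm
      exact ⟨y, hy1, hy2, by rw [hy3]; exact h2⟩
    · right
      refine ⟨h1, fun m hm hpm => ?_⟩
      obtain ⟨⟨x, hx1, hx2, hx3⟩, -⟩ := exp_eig (hE n) hm hpm
      exact ⟨x, hx1, hx2, by rw [hx3]; exact h2⟩

end Pool.Agent.H53.HN
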