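import Pool.Agent.H53.HN.Per

/-! # Periodic Henon sequences: definitions (helper53, folder HN) -/

set_option autoImplicit false

namespace Pool.Agent.H53.HN

/-- Periodic real solution of the Henon recursion. -/
structure IsSeq (c b : ℝ) (n : ℕ) (x : ℤ → ℝ) : Prop where
  npos : 0 < n
  per : ∀ i, x (i + n) = x i
  eqn : ∀ i, x (i + 1) + b * x (i - 1) = x i ^ 2 + c

/-- The smaller fixed point. -/
noncomputable def xm (c b : ℝ) : ℝ := ((1 + b) - Real.sqrt ((1 + b) ^ 2 - 4 * c)) / 2

/-- The larger point of the orbit of period two. -/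
noncomputable def aP (c b : ℝ) : ℝ := (-(1 + b) + Real.sqrt (-3 * (1 + b) ^ 2 - 4 * c)) / 2

/-- The smaller point of the orbit of period two. -/
noncomputable def aM (c b : ℝ) : ℝ := (-(1 + b) - Real.sqrt (-3 * (1 + b) ^ 2 - 4 * c)) / 2

end Pool.Agent.H53.HN
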