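import Pool.Agent.H53.HN.Basic
import Pool.Agent.H53.HN.SeqDefs

/-! # Orbits of periodic points as periodic sequences (helper53, folder HN)

PROOF. Put `y k := ((fR c b)^[k] p).1` for natural k; `(fR c b)^[k+1] p = (y k ^ 2 + c - b * _, y k)`, so the
second coordinate of the (k+1)-st iterate is the first coordinate of the k-th. `y (k+n) = y k`
(`Function.iterate_add_apply`, hp). Define `x i := y (i % n).toNat` (Int.emod); it is n-periodic and `x k = y k`
for natural k (induction or `Nat.mod_add_div` with the period). `(fR c b)^[k] p = (x k, x (k-1))`: for k >= 1 clear; for k = 0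
use `(fR c b)^[0] p = (fR c b)^[n] p` and periodicity. Recursion: for natural i >= 1 from the first coordinate of
`(fR c b)^[i+1] p = fR c b (x i, x (i-1))`; for a general integer i replace i by i + n*m >= 1 (periodicity, `per_mul`).
-/

set_option autoImplicit false

namespace Pool.Agent.H53.HN

theorem orb_seq {c b : ℝ} {n : ℕ} (hn : 0 < n) {p : ℝ × ℝ} (hp : (fR c b)^[n] p = p) :
    ∃ x : ℤ → ℝ, IsSeq c b n x ∧
      ∀ k : ℕ, (fR c b)^[k] p = (x (k : ℤ), x ((k : ℤ) - 1)) := by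
  set y : ℕ → ℝ := fun k => ((fR c b)^[k] p).1 with hy
  set x : ℤ → ℝ := fun i => y (i % (n : ℤ)).toNat with hx
  have hper : Function.IsPeriodicPt (fR c b) n p := hp
  have hmod : ∀ i j : ℤ, i ≡ j [ZMOD (n : ℤ)] → x i = x j := by
    intro i j h
    show y (i % (n : ℤ)).toNat = y (j % (n : ℤ)).toNat
    rw [h]
  have hxn : ∀ k : ℕ, x (k : ℤ) = y k := by
    intro k
    have e : ((k : ℤ) % (n : ℤ)).toNat = k % n := by
      rw [← Int.natCast_mod, Int.toNat_natCast]
    show y (((k : ℤ) % (n : ℤ)).toNat) = y k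
    rw [e]
    show ((fR c b)^[k % n] p).1 = ((fR c b)^[k] p).1
    rw [hper.iterate_mod_apply]
  have hpr : ∀ i : ℤ, x (i + n) = x i := fun i => hmod _ _ (Int.add_modEq_right)
  have hsucc : ∀ k : ℕ, (fR c b)^[k + 1] p = (x ((k + 1 : ℕ) : ℤ), x (((k + 1 : ℕ) : ℤ) - 1)) := by
    intro k
    have e : ((k + 1 : ℕ) : ℤ) - 1 = (k : ℤ) := by
      push_cast
      ring
    rw [e, hxn, hxn]
    refine Prod.ext rfl ?_
    show ((fR c b)^[k + 1] p).2 = y k
    rw [Function.iterate_succ_apply']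
    rfl
  have hall : ∀ k : ℕ, (fR c b)^[k] p = (x (k : ℤ), x ((k : ℤ) - 1)) := by
    intro k
    cases k with
    | succ k => exact hsucc k
    | zero =>
      obtain ⟨m, rfl⟩ : ∃ m, n = m + 1 := ⟨n - 1, by omega⟩
      have h1 := hsucc m
      rw [hp] at h1
      show p = _
      rw [h1]
      have e1 := hpr 0
      have e2 := hpr (-1)
      rw [zero_add] at e1
      have e3 : (-1 : ℤ) + ((m + 1 : ℕ) : ℤ) = ((m + 1 : ℕ) : ℤ) - 1 := by ring
      rw [e3] at e2
      rw [e1, e2]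
      rfl
  refine ⟨x, ⟨hn, hpr, ?_⟩, hall⟩
  intro i
  have hn0 : (n : ℤ) ≠ 0 := by exact_mod_cast hn.ne'
  obtain ⟨k, hk⟩ : ∃ k : ℕ, (k : ℤ) = i % (n : ℤ) :=
    ⟨(i % (n : ℤ)).toNat, Int.toNat_of_nonneg (Int.emod_nonneg _ hn0)⟩
  have hc : i ≡ (k : ℤ) [ZMOD (n : ℤ)] := by
    rw [hk]
    exact (Int.mod_modEq _ _).symm
  rw [hmod _ _ hc, hmod _ _ (hc.add_right 1), hmod _ _ (hc.sub_right 1)]
  have h1 := hall (k + 1)
  rw [Function.iterate_succ_apply', hall k] at h1
  have h2 := congrArg Prod.fst h1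
  have h3 : x (k : ℤ) ^ 2 + c - b * x ((k : ℤ) - 1) = x ((k + 1 : ℕ) : ℤ) := h2
  push_cast at h3
  linarith

end Pool.Agent.H53.HN
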