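import Mathlib

/-! # An entire function of order less than one, bounded on the real line, is constant
(helper53, folder HN)

PROOF. First the closed upper half plane: g w = ψ (w^2) on the quadrant re w > 0, im w > 0; on the boundary w real: w^2 real; w = i y: w^2 = -y^2 real; so g is bounded by K on the boundary, and ‖g w‖ <= exp (B (1 + ‖w‖^(2a))) with 2a < 2. `PhragmenLindelof.quadrant_I` gives ‖g‖ <= K on the closed quadrant;
 w -> w^2 maps it onto the closed upper half plane, so ‖ψ‖ <= K there. The lower half plane: apply the same to z -> ψ (-z) (bounded on the real line, the same growth). So ψ is bounded: Liouville (`Differentiable.apply_eq_apply_of_bounded` or `Differentiable.exists_const_forall_eq_of_bounded`).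
-/

set_option autoImplicit false

namespace Pool.Agent.H53.HN

private theorem exists_sqrt_upper {z : ℂ} (hz : 0 ≤ z.im) :
    ∃ w : ℂ, w ^ 2 = z ∧ 0 ≤ w.re ∧ 0 ≤ w.im := by
  obtain ⟨w, hw⟩ := IsAlgClosed.exists_pow_nat_eq z (n := 2) (by norm_num)
  have him : z.im = 2 * w.re * w.im := by
    rw [← hw, sq, Complex.mul_im]; ring
  rcases lt_trichotomy w.re 0 with h | h | h
  · refine ⟨-w, by rw [neg_sq, hw], by simp [h.le], ?_⟩
    rw [Complex.neg_im]
    by_contra hc
    push Not at hc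
    nlinarith
  · rcases le_total 0 w.im with h' | h'
    · exact ⟨w, hw, h.ge, h'⟩
    · exact ⟨-w, by rw [neg_sq, hw], by simp [h], by simpa using h'⟩
  · refine ⟨w, hw, h.le, ?_⟩
    by_contra hc
    push Not at hc
    nlinarith

private theorem pl_upper {ψ : ℂ → ℂ} (dψ : Differentiable ℂ ψ) {a B K : ℝ} (ha : a < 1)
    (hB : ∀ z, ‖ψ z‖ ≤ Real.exp (B * (1 + ‖z‖ ^ a))) (hK : ∀ x : ℝ, ‖ψ (x : ℂ)‖ ≤ K) {z : ℂ}
    (hz : 0 ≤ z.im) : ‖ψ z‖ ≤ K := by
  obtain ⟨w, hw, hre, him⟩ := exists_sqrt_upper hz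
  have key := PhragmenLindelof.quadrant_I (f := fun w : ℂ => ψ (w ^ 2)) (C := K) (z := w)
    ((dψ.comp (differentiable_id.pow 2)).diffContOnCl) ?_ ?_ ?_ hre him
  · simpa [hw] using key
  · refine ⟨2 * a, by linarith, max B 0, ?_⟩
    refine Asymptotics.IsBigO.of_bound (Real.exp (max B 0)) (Filter.Eventually.of_forall fun w => ?_)
    have h1 := hB (w ^ 2)
    have h2 : ‖w ^ 2‖ ^ a = ‖w‖ ^ (2 * a) := by
      rw [norm_pow, ← Real.rpow_natCast ‖w‖ 2, ← Real.rpow_mul (norm_nonneg _)]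
      norm_num
    rw [h2] at h1
    refine h1.trans ?_
    rw [Real.norm_eq_abs, Real.abs_exp, ← Real.exp_add]
    apply Real.exp_le_exp.mpr
    have h3 : 0 ≤ ‖w‖ ^ (2 * a) := Real.rpow_nonneg (norm_nonneg _) _
    have h4 : B * (1 + ‖w‖ ^ (2 * a)) ≤ max B 0 * (1 + ‖w‖ ^ (2 * a)) :=
      mul_le_mul_of_nonneg_right (le_max_left _ _) (by positivity)
    linarith
  · intro x _
    have := hK (x ^ 2)
    simpa using this
  · intro x _
    have := hK (-(x ^ 2))
    have e : ((x : ℂ) * Complex.I) ^ 2 = ((-(x ^ 2) : ℝ) : ℂ) := by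
      rw [mul_pow, Complex.I_sq]; push_cast; ring
    simpa [e] using this

theorem pl_const {ψ : ℂ → ℂ} (dψ : Differentiable ℂ ψ) {a B K : ℝ} (ha : a < 1) (ha0 : 0 ≤ a)
    (hB : ∀ z, ‖ψ z‖ ≤ Real.exp (B * (1 + ‖z‖ ^ a))) (hK : ∀ x : ℝ, ‖ψ (x : ℂ)‖ ≤ K) (z : ℂ) :
    ψ z = ψ 0 := by
  have _ := ha0
  have hall : ∀ z, ‖ψ z‖ ≤ K := by
    intro z
    rcases le_total 0 z.im with h | h
    · exact pl_upper dψ ha hB hK h
    · have := pl_upper (ψ := fun z => ψ (-z)) (dψ.comp differentiable_neg) ha (B := B) (K := K)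
        (fun z => by simpa using hB (-z)) (fun x => by simpa using hK (-x)) (z := -z)
        (by simpa using h)
      simpa using this
  refine Differentiable.apply_eq_apply_of_bounded dψ ?_ z 0
  rw [isBounded_iff_forall_norm_le]
  exact ⟨K, by rintro _ ⟨y, rfl⟩; exact hall y⟩

end Pool.Agent.H53.HN
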