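import Pool.Agent.H53.HN.SeqDefs

/-! # Sum identity for periodic Henon sequences (helper53, folder HN)

Here b is any real number, m and M are the two fixed points: m + M = 1 + b, m * M = c, so
`x (i+1) + b * x (i-1) - (1+b) * x i = (x i - m) * (x i - M)`.

PROOF. (1) Sum the displayed identity over i in range n: the sums of `x (i+1)`, `x (i-1)`, `x i` over a period are equal
(`Finset.sum_range_succ_comm`-type shift, or: f periodic => sum over range n of f(i+1) = sum of f i, because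
`Finset.sum_range_succ'` and `Finset.sum_range_succ` and f n = f 0). So the left side has sum 0.
(2) sum_zero_low: if m <= x i < M for all i every term is <= 0, the sum is 0, so all terms are 0
(`Finset.sum_eq_zero_iff_of_nonpos`), and x i - M < 0, so x i = m for i in range n, hence for all i by `per_emod`.
(3) sum_zero_high: if x i <= m <= M for all i every term is >= 0, so all are 0: x i = m or x i = M, and x i <= m <= M gives x i = m
in both cases.
(4) disc_nonneg: the sum of (x i ^ 2 - (1+b) * x i + c) over a period is 0, so for some i this is <= 0 (n > 0), hence (1+b)^2-4c >= 0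
(nlinarith [sq_nonneg (2 * x i - (1+b))]).
-/

set_option autoImplicit false

namespace Pool.Agent.H53.HN

private theorem SeqSum_shift {x : ℤ → ℝ} {n : ℕ} (hper : ∀ i, x (i + n) = x i) :
    ∑ i ∈ Finset.range n, x ((i : ℤ) + 1) = ∑ i ∈ Finset.range n, x (i : ℤ) := by
  have h1 := Finset.sum_range_succ' (fun i : ℕ => x (i : ℤ)) n
  have h2 := Finset.sum_range_succ (fun i : ℕ => x (i : ℤ)) n
  have h3 : x ((n : ℕ) : ℤ) = x ((0 : ℕ) : ℤ) := by
    have := hper 0
    rw [zero_add] at this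
    rw [this]
    rfl
  rw [h2, h3] at h1
  have h4 := add_right_cancel h1
  rw [h4]
  apply Finset.sum_congr rfl
  intro i _
  congr 1

theorem seq_sum {c b : ℝ} {n : ℕ} {x : ℤ → ℝ} (hx : IsSeq c b n x) {m M : ℝ}
    (h1 : m + M = 1 + b) (h2 : m * M = c) :
    ∑ i ∈ Finset.range n, (x (i : ℤ) - m) * (x (i : ℤ) - M) = 0 := by
  have e : ∀ i ∈ Finset.range n, (x (i : ℤ) - m) * (x (i : ℤ) - M) =
      x ((i : ℤ) + 1) + b * x ((i : ℤ) - 1) - (1 + b) * x (i : ℤ) := by
    intro i _
    rw [hx.eqn, ← h1, ← h2]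
    ring
  rw [Finset.sum_congr rfl e, Finset.sum_sub_distrib, Finset.sum_add_distrib, ← Finset.mul_sum,
    ← Finset.mul_sum, SeqSum_shift hx.per]
  have h3 := SeqSum_shift (x := fun i => x (i - 1)) (n := n) (by
    intro i
    show x (i + n - 1) = x (i - 1)
    rw [← hx.per (i - 1)]
    congr 1
    ring)
  simp only [add_sub_cancel_right] at h3
  rw [← h3]
  ring

private theorem SeqSum_all {c b : ℝ} {n : ℕ} {x : ℤ → ℝ} (hx : IsSeq c b n x) {m : ℝ}
    (h : ∀ i ∈ Finset.range n, x (i : ℤ) = m) : ∀ i, x i = m := by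
  intro i
  have hn : (0 : ℤ) < n := by exact_mod_cast hx.npos
  have h0 : 0 ≤ i % (n : ℤ) := Int.emod_nonneg _ hn.ne'
  have h1 : i % (n : ℤ) < n := Int.emod_lt_of_pos _ hn
  rw [← per_emod hx.per i]
  have h2 : i % (n : ℤ) = ((i % (n : ℤ)).toNat : ℤ) := (Int.toNat_of_nonneg h0).symm
  rw [h2]
  apply h
  rw [Finset.mem_range]
  omega

theorem sum_zero_low {c b : ℝ} {n : ℕ} {x : ℤ → ℝ} (hx : IsSeq c b n x) {m M : ℝ}
    (h1 : m + M = 1 + b) (h2 : m * M = c) (hlow : ∀ i, m ≤ x i) (hhigh : ∀ i, x i < M) :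
    ∀ i, x i = m := by
  have h3 := seq_sum hx h1 h2
  rw [Finset.sum_eq_zero_iff_of_nonpos (fun i _ => mul_nonpos_of_nonneg_of_nonpos
    (sub_nonneg.2 (hlow _)) (sub_nonpos.2 (hhigh _).le))] at h3
  apply SeqSum_all hx
  intro i hi
  rcases mul_eq_zero.1 (h3 i hi) with h4 | h4
  · linarith
  · linarith [hhigh (i : ℤ)]

theorem sum_zero_high {c b : ℝ} {n : ℕ} {x : ℤ → ℝ} (hx : IsSeq c b n x) {m M : ℝ}
    (h1 : m + M = 1 + b) (h2 : m * M = c) (hmM : m ≤ M) (hlow : ∀ i, x i ≤ m) :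
    ∀ i, x i = m := by
  have h3 := seq_sum hx h1 h2
  rw [Finset.sum_eq_zero_iff_of_nonneg (fun i _ => mul_nonneg_of_nonpos_of_nonpos
    (sub_nonpos.2 (hlow _)) (sub_nonpos.2 ((hlow _).trans hmM)))] at h3
  apply SeqSum_all hx
  intro i hi
  rcases mul_eq_zero.1 (h3 i hi) with h4 | h4
  · linarith
  · linarith [hlow (i : ℤ)]

theorem disc_nonneg {c b : ℝ} {n : ℕ} {x : ℤ → ℝ} (hx : IsSeq c b n x) :
    0 ≤ (1 + b) ^ 2 - 4 * c := by
  have h0 : ∑ i ∈ Finset.range n, (x (i : ℤ) ^ 2 - (1 + b) * x (i : ℤ) + c) = 0 := by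
    have e : ∀ i ∈ Finset.range n, x (i : ℤ) ^ 2 - (1 + b) * x (i : ℤ) + c =
        x ((i : ℤ) + 1) + b * x ((i : ℤ) - 1) - (1 + b) * x (i : ℤ) := by
      intro i _
      rw [hx.eqn]
      ring
    rw [Finset.sum_congr rfl e, Finset.sum_sub_distrib, Finset.sum_add_distrib, ← Finset.mul_sum,
      ← Finset.mul_sum, SeqSum_shift hx.per]
    have h3 := SeqSum_shift (x := fun i => x (i - 1)) (n := n) (by
      intro i
      show x (i + n - 1) = x (i - 1)
      rw [← hx.per (i - 1)]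
      congr 1
      ring)
    simp only [add_sub_cancel_right] at h3
    rw [← h3]
    ring
  by_contra hneg
  push Not at hneg
  have hpos : 0 < ∑ i ∈ Finset.range n, (x (i : ℤ) ^ 2 - (1 + b) * x (i : ℤ) + c) := by
    apply Finset.sum_pos
    · intro i _
      nlinarith [sq_nonneg (2 * x (i : ℤ) - (1 + b))]
    · exact ⟨0, Finset.mem_range.2 hx.npos⟩
  linarith

end Pool.Agent.H53.HN
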