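import Pool.Agent.H53.HN.SeqV
import Pool.Agent.H53.HN.SeqSum

/-! # Case B: no two consecutive terms below a (helper53, folder HN)

b = -β, 0 < β <= 1, fixed points m <= M, orbit of period two a' < a with a > 0. If no two consecutive x i, x (i+1) are both < a,
then x has period two (or one).

PROOF. δ = 1-β, y i = x i - a', z i = x i - a, D = a - a' > 0, a' = -a-δ < 0.
 (E0) y (i+1) = β y (i-1) + (x i^2 - a^2),   (E1) z (i+1) = β z (i-1) + y i (x i + a'). Also x i + a' = z i - δ.
 STEP 1. Some x l < a' . Claim: all l+2k are < a' and all l+2k+1 are >= a. If x (i+1) < a' then x i >= a (no two consecutive < a), so x i^2 >= a^2 and (E0) gives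
  β y (i-1) <= y (i+1) < 0: x (i-1) < a'. So the property x i < a' passes from i+1 to i-1; by periodicity (`per_all2` for the reversed sequence, or
  the property P i := x (-i) < a') it holds at all l+2k, and then x (l+2k+1) >= a. Now (E1) at i = l+2k: y i < 0, x i + a' < 2a' < 0, so
  z (i+1) > β z (i-1), z >= 0 at these places; (E0) at i = l+2k+1: y (i+1) >= β y (i-1), y < 0 at these places.
  If β < 1: let Y = min of y over the places l+2k: Y >= β (previous) >= β Y so (1-β) Y >= 0, Y >= 0, contradiction to y < 0.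
  If β = 1: z strictly increasing along l+2k+1: `per_no_incr`, contradiction. So all x i >= a'.
 STEP 2. All x i >= a. Then x i > -M for all i (M > 0: M >= (1-β)/2 and M^2 - (1-β) M + c = 0; M >= a > 0: E = M - m, E^2 = D^2 + 4δ^2, M - a = (2δ+E-D)/2 >= 0). `seq_v` (hM2: 2M >= 1-β since m <= M):
  x constant = M (done: period two holds) or all x i < M; then m < a <= x i (m < a: a - m = (D+E-2δ)/2 > 0 since E >= 2δ, D > 0) and `sum_zero_low` with b = -β gives x i = m for all i (done, actually contradictory).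
 STEP 3. Some x j < a (so a' <= x j < a), and x (j-1), x (j+1) >= a. Case 3a: all x (j+2k) < a. Then all x (j+2k+1) >= a. For i = j+2k: x i + a' < a + a' = -δ <= 0, y i >= 0: (E1) z (i+1) <= β z (i-1) <= z (i-1),
   with z >= 0 at the places j+2k+1. By periodicity (max/min) z is constant = Z on the places j+2k+1 and equality holds everywhere: if β < 1, Z <= β Z gives Z = 0 [take Z = max: Z = z (i+1) <= β z (i-1) <= β Z];
   and y i (x i + a') = z (i+1) - β z (i-1) = (1-β) Z = 0 (β<1) resp. = 0 (β=1, z nonincreasing and periodic, hence constant); as x i + a' < 0 (if δ > 0 clear; if δ = 0: x i + a' = z i < 0) we get y i = 0: x i = a' at all places j+2k, and z is constant on the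
   others: x has period two.
  Case 3b: some x (j+2k) >= a. Then there is an index j (rename) with x j < a and x (j-2) >= a (otherwise x (i-2) < a for all i in the parity class with x i < a; persistence backwards and periodicity give all < a). Now
   z j = β z (j-2) + y (j-1) (z (j-1) - δ) < 0 with z (j-2) >= 0, y (j-1) >= D > 0 [(E1) at i = j-1], so z (j-1) < δ, and z (j-1) >= 0. Claim by induction on k: z (j+2k) < 0 and 0 <= z (j+2k-1) < δ:
   0 <= z (j+2k+1) since x (j+2k) < a forbids x (j+2k+1) < a; z (j+2k+1) = β z (j+2k-1) + y (j+2k)(z (j+2k) - δ) <= β z (j+2k-1) < δ (y >= 0; if δ = 0 the hypothesis 0 <= z (j-1) < δ is already absurd);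
   z (j+2k+2) = β z (j+2k) + y (j+2k+1)(z (j+2k+1) - δ) < 0. So x (j+2k) < a for all k >= 0; by periodicity x (j-2) = x (j-2+2n) < a: contradiction.
-/

set_option autoImplicit false

namespace Pool.Agent.H53.HN

/-- backward persistence with steps of length two -/
theorem per_back2 {P : ℤ → Prop} {n : ℕ} (hn : 0 < n) (hper : ∀ i, P i → P (i + n))
    (hs : ∀ i, P (i + 2) → P i) {i : ℤ} (hi : P i) (k : ℤ) : P (i + 2 * k) := by
  have h := per_all2 (P := fun i => P (-i)) (n := n) hn
    (fun i h => by
      have e : -i = -(i + (n : ℤ)) + n := by ring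
      show P (-i)
      rw [e]
      exact hper _ h)
    (fun i h => by
      apply hs
      have e : -(i + 2) + 2 = -i := by ring
      rw [e]
      exact h) (i := -i) (by show P (- -i); rw [neg_neg]; exact hi) (-k)
  have e : i + 2 * k = -(-i + 2 * (-k)) := by ring
  rw [e]
  exact h

theorem seq_b {c β : ℝ} (hβ0 : 0 < β) (hβ1 : β ≤ 1) {n : ℕ} {x : ℤ → ℝ}
    (hx : IsSeq c (-β) n x) {m M a a' : ℝ} (hm1 : m + M = 1 - β) (hm2 : m * M = c)
    (hmM : m ≤ M) (h1 : a + a' = -(1 - β)) (h2 : (1 - β) * a = a' ^ 2 + c)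
    (h3 : (1 - β) * a' = a ^ 2 + c) (ha : 0 < a) (hB : ∀ i, ¬ (x i < a ∧ x (i + 1) < a)) :
    ∀ i, x (i + 2) = x i := by
  have hn := hx.npos
  have hper := hx.per
  have E0 : ∀ i, x (i + 1) - a' = β * (x (i - 1) - a') + (x i ^ 2 - a ^ 2) := by
    intro i
    have := hx.eqn i
    linarith
  have E1 : ∀ i, x (i + 1) - a = β * (x (i - 1) - a) + (x i - a') * (x i + a') := by
    intro i
    have := hx.eqn i
    nlinarith [this]
  have haa : a' < a := by linarith
  have ha' : a' < 0 := by linarith
  have hge : ∀ i, x i < a → a ≤ x (i + 1) := by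
    intro i h
    by_contra h2
    exact hB i ⟨h, not_le.1 h2⟩
  have hge' : ∀ i, x (i + 1) < a → a ≤ x i := by
    intro i h
    by_contra h2
    exact hB i ⟨not_le.1 h2, h⟩
  -- step 1
  have S1 : ∀ i, a' ≤ x i := by
    by_contra hcon
    push Not at hcon
    obtain ⟨l, hl⟩ := hcon
    have hall : ∀ k : ℤ, x (l + 2 * k) < a' := by
      intro k
      refine per_back2 (P := fun i => x i < a') hn (fun i h => by
        show x (i + n) < a'
        rw [hper]; exact h) (fun i h => ?_) hl k
      have h : x (i + 2) < a' := h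
      show x i < a'
      have e1 : i + 2 = (i + 1) + 1 := by ring
      rw [e1] at h
      have h3 := hge' (i + 1) (lt_trans h haa)
      have h4 := E0 (i + 1)
      have e2 : i + 1 - 1 = i := by ring
      rw [e2] at h4
      have h5 : a ^ 2 ≤ x (i + 1) ^ 2 := by nlinarith
      have h6 : β * (x i - a') < 0 := by linarith
      by_contra h7
      push Not at h7
      have : 0 ≤ β * (x i - a') := mul_nonneg hβ0.le (by linarith)
      linarith
    have hodd : ∀ k : ℤ, a ≤ x (l + 2 * k + 1) := fun k => hge _ (lt_trans (hall k) haa)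
    rcases lt_or_eq_of_le hβ1 with hβ | hβ
    · -- β < 1
      obtain ⟨k0, hk0⟩ := per_min (x := fun k => x (l + 2 * k)) hn (by
        intro k
        show x (l + 2 * (k + n)) = x (l + 2 * k)
        have e : l + 2 * (k + (n : ℤ)) = (l + 2 * k) + (n : ℤ) * ((2 : ℕ) : ℤ) := by
          push_cast; ring
        rw [e, per_mul hper])
      have h1 := hk0 (k0 - 1)
      have h1 : x (l + 2 * k0) ≤ x (l + 2 * (k0 - 1)) := h1
      have h2 := E0 (l + 2 * (k0 - 1) + 1)
      have e1 : l + 2 * (k0 - 1) + 1 + 1 = l + 2 * k0 := by ring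
      have e2 : l + 2 * (k0 - 1) + 1 - 1 = l + 2 * (k0 - 1) := by ring
      rw [e1, e2] at h2
      have h3 := hodd (k0 - 1)
      have h4 : a ^ 2 ≤ x (l + 2 * (k0 - 1) + 1) ^ 2 := by nlinarith
      have h5 := hall k0
      have h6 : β * (x (l + 2 * k0) - a') ≤ β * (x (l + 2 * (k0 - 1)) - a') :=
        mul_le_mul_of_nonneg_left (by linarith) hβ0.le
      have h7 : 0 ≤ (1 - β) * (x (l + 2 * k0) - a') := by linarith
      have h8 : (1 - β) * (x (l + 2 * k0) - a') < 0 :=
        mul_neg_of_pos_of_neg (by linarith) (by linarith)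
      linarith
    · -- β = 1
      refine per_no_incr hn hper (l + 1) (fun k => ?_)
      have h2 := E1 (l + 2 * ((k : ℤ) + 1))
      have e1 : l + 2 * ((k : ℤ) + 1) + 1 = l + 1 + 2 * (k : ℤ) + 2 := by ring
      have e2 : l + 2 * ((k : ℤ) + 1) - 1 = l + 1 + 2 * (k : ℤ) := by ring
      rw [e1, e2] at h2
      have h3 := hall ((k : ℤ) + 1)
      have h4 : 0 < (x (l + 2 * ((k : ℤ) + 1)) - a') * (x (l + 2 * ((k : ℤ) + 1)) + a') :=
        mul_pos_of_neg_of_neg (by linarith) (by linarith)
      rw [hβ] at h2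
      linarith
  -- step 2
  by_cases hall : ∀ i, a ≤ x i
  · have hf : (a - m) * (a - M) ≤ 0 := by
      have h5 : (a - m) * (a - M) = -2 * (1 - β) * a - (1 - β) ^ 2 := by
        have e1 : a' = -(1 - β) - a := by linarith
        rw [e1] at h2
        linear_combination (-a) * hm1 + hm2 - h2
      rw [h5]
      nlinarith [mul_nonneg (by linarith : (0:ℝ) ≤ 1 - β) ha.le, sq_nonneg (1 - β)]
    have hma : m ≤ a := by
      by_contra h
      push Not at h
      nlinarith
    have hM0 : 0 ≤ M := by linarith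
    rcases seq_v hβ0 hβ1 hx (M := M) (by rw [← hm1, ← hm2]; ring) (by linarith)
      (fun i => by have := hall i; linarith) with h | h
    · intro i
      rw [h, h]
    · have h9 := sum_zero_low hx (m := m) (M := M) (by rw [hm1]; ring) hm2
        (fun i => le_trans hma (hall i)) h
      intro i
      rw [h9, h9]
  -- step 3
  push Not at hall
  obtain ⟨j, hj⟩ := hall
  by_cases hback : ∀ i, x (i + 2) < a → x i < a
  · -- case 3a
    have hev : ∀ k : ℤ, x (j + 2 * k) < a := fun k =>
      per_back2 (P := fun i => x i < a) hn (fun i h => by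
        show x (i + n) < a
        rw [hper]; exact h) (fun i h => hback i h) hj k
    have hod : ∀ k : ℤ, a ≤ x (j + 2 * k + 1) := fun k => hge _ (hev k)
    have key : ∀ k : ℤ, x (j + 2 * (k + 1) + 1) - a = β * (x (j + 2 * k + 1) - a) +
        (x (j + 2 * (k + 1)) - a') * (x (j + 2 * (k + 1)) + a') := by
      intro k
      have h := E1 (j + 2 * (k + 1))
      have e : j + 2 * (k + 1) - 1 = j + 2 * k + 1 := by ring
      rw [e] at h
      exact h
    have hneg : ∀ k : ℤ, (x (j + 2 * k) - a') * (x (j + 2 * k) + a') ≤ 0 := by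
      intro k
      have h1 := hev k
      have h2 := S1 (j + 2 * k)
      exact mul_nonpos_of_nonneg_of_nonpos (by linarith) (by linarith)
    have hmono : ∀ k : ℤ, x (j + 2 * (k + 1) + 1) ≤ x (j + 2 * k + 1) := by
      intro k
      have h1 := key k
      have h2 := hneg (k + 1)
      have h3 := hod k
      nlinarith [mul_nonneg (by linarith : (0:ℝ) ≤ 1 - β)
        (by linarith : (0:ℝ) ≤ x (j + 2 * k + 1) - a)]
    have hperk : ∀ k : ℤ, x (j + 2 * (k + n) + 1) = x (j + 2 * k + 1) := by
      intro k
      have e : j + 2 * (k + (n : ℤ)) + 1 = (j + 2 * k + 1) + (n : ℤ) * ((2 : ℕ) : ℤ) := by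
        push_cast; ring
      rw [e, per_mul hper]
    obtain ⟨k0, hk0⟩ := per_min (x := fun k => x (j + 2 * k + 1)) hn hperk
    have hconst : ∀ k : ℤ, x (j + 2 * k + 1) = x (j + 2 * k0 + 1) := by
      intro k
      refine per_all (P := fun k => x (j + 2 * k + 1) = x (j + 2 * k0 + 1)) hn
        (fun i h => ?_) (fun i h => ?_) (i := k0) rfl k
      · show x (j + 2 * i + 1) = _
        rw [← hperk i]
        exact h
      · have h : x (j + 2 * i + 1) = x (j + 2 * k0 + 1) := h
        show x (j + 2 * (i + 1) + 1) = x (j + 2 * k0 + 1)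
        have h1 := hmono i
        rw [h] at h1
        exact le_antisymm h1 (hk0 (i + 1))
    have heq : ∀ k : ℤ, x (j + 2 * k) = a' := by
      intro k
      have h1 := key (k - 1)
      have e : k - 1 + 1 = k := by ring
      rw [e, hconst k, hconst (k - 1)] at h1
      have h2 := hod k0
      have h3 : 0 ≤ (1 - β) * (x (j + 2 * k0 + 1) - a) :=
        mul_nonneg (by linarith) (by linarith)
      have h4 := hneg k
      have h5 : (x (j + 2 * k) - a') * (x (j + 2 * k) + a') = 0 := by
        apply le_antisymm h4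
        linarith
      rcases mul_eq_zero.1 h5 with h6 | h6
      · linarith
      · have := hev k
        linarith
    intro i
    rcases Int.even_or_odd (i - j) with ⟨k, hk⟩ | ⟨k, hk⟩
    · have e1 : i = j + 2 * k := by linarith
      have e2 : i + 2 = j + 2 * (k + 1) := by linarith
      rw [e2, e1, heq, heq]
    · have e1 : i = j + 2 * k + 1 := by linarith
      have e2 : i + 2 = j + 2 * (k + 1) + 1 := by linarith
      rw [e2, e1, hconst, hconst k]
  · -- case 3b
    exfalso
    push Not at hback
    obtain ⟨i0, h1, h2⟩ := hback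
    -- j := i0 + 2
    have Q : ∀ k : ℕ, x (i0 + 2 + 2 * (k : ℤ)) < a ∧ a ≤ x (i0 + 1 + 2 * (k : ℤ)) ∧
        x (i0 + 1 + 2 * (k : ℤ)) - a < 1 - β := by
      intro k
      induction k with
      | zero =>
        have h3 : a ≤ x (i0 + 1) := by
          apply hge'
          have e : i0 + 1 + 1 = i0 + 2 := by ring
          rw [e]
          exact h1
        have h4 := E1 (i0 + 1)
        have e1 : i0 + 1 + 1 = i0 + 2 := by ring
        have e2 : i0 + 1 - 1 = i0 := by ring
        rw [e1, e2] at h4
        have h5 : 0 ≤ β * (x i0 - a) := mul_nonneg hβ0.le (by linarith)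
        have h6 : (x (i0 + 1) - a') * (x (i0 + 1) + a') < 0 := by linarith
        have h7 : x (i0 + 1) + a' < 0 := by
          by_contra h8
          push Not at h8
          have : 0 ≤ (x (i0 + 1) - a') * (x (i0 + 1) + a') :=
            mul_nonneg (by linarith) h8
          linarith
        simp only [Nat.cast_zero, mul_zero, add_zero]
        refine ⟨h1, h3, by linarith⟩
      | succ k ih =>
        obtain ⟨q1, q2, q3⟩ := ih
        have e0 : i0 + 1 + 2 * ((k + 1 : ℕ) : ℤ) = i0 + 2 + 2 * (k : ℤ) + 1 := by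
          push_cast; ring
        have e1 : i0 + 2 + 2 * ((k + 1 : ℕ) : ℤ) = i0 + 2 + 2 * (k : ℤ) + 1 + 1 := by
          push_cast; ring
        have e2 : i0 + 2 + 2 * (k : ℤ) - 1 = i0 + 1 + 2 * (k : ℤ) := by ring
        have e3 : i0 + 2 + 2 * (k : ℤ) + 1 - 1 = i0 + 2 + 2 * (k : ℤ) := by ring
        rw [e0, e1]
        have r1 : a ≤ x (i0 + 2 + 2 * (k : ℤ) + 1) := hge _ q1
        have h4 := E1 (i0 + 2 + 2 * (k : ℤ))
        rw [e2] at h4
        have s1 := S1 (i0 + 2 + 2 * (k : ℤ))
        have h5 : (x (i0 + 2 + 2 * (k : ℤ)) - a') * (x (i0 + 2 + 2 * (k : ℤ)) + a') ≤ 0 :=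
          mul_nonpos_of_nonneg_of_nonpos (by linarith) (by linarith)
        have h6 : 0 ≤ (1 - β) * (x (i0 + 1 + 2 * (k : ℤ)) - a) :=
          mul_nonneg (by linarith) (by linarith)
        have r2 : x (i0 + 2 + 2 * (k : ℤ) + 1) - a < 1 - β := by linarith
        have h7 := E1 (i0 + 2 + 2 * (k : ℤ) + 1)
        rw [e3] at h7
        have h8 : β * (x (i0 + 2 + 2 * (k : ℤ)) - a) < 0 :=
          mul_neg_of_pos_of_neg hβ0 (by linarith)
        have h9 : (x (i0 + 2 + 2 * (k : ℤ) + 1) - a') * (x (i0 + 2 + 2 * (k : ℤ) + 1) + a') ≤ 0 :=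
          mul_nonpos_of_nonneg_of_nonpos (by linarith) (by linarith)
        refine ⟨by linarith, r1, r2⟩
    have h3 := (Q (n - 1)).1
    have e : i0 + 2 + 2 * ((n - 1 : ℕ) : ℤ) = i0 + (n : ℤ) * ((2 : ℕ) : ℤ) := by
      have : ((n - 1 : ℕ) : ℤ) = (n : ℤ) - 1 := by
        rw [Nat.cast_sub (by omega)]; simp
      rw [this]; push_cast; ring
    rw [e, per_mul hper] at h3
    linarith

end Pool.Agent.H53.HN
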