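import Pool.Agent.H53.HN.SeqSmall
import Pool.Agent.H53.HN.SeqB

/-! # The pattern lemma, 0 < β <= 1 (helper53, folder HN)

PROOF. δ = 1-β. First c < -δ^2: if β < 1 by `seq_small` (contrapositive; h2). If β = 1: summing x (i+1) - x (i-1) = x i^2 + c over a period gives sum of (x i^2 + c) = 0
 (or `seq_sum` with any suitable form; simplest: if c >= 0 all terms x i^2 + c >= 0 have sum 0, so x i = 0 for all i, contradiction to h2). So c < 0 = -δ^2.
 Then -3δ^2-4c > δ^2 >= 0; D := sqrt(-3δ^2-4c) > δ; a := aP c (-β) = (-δ+D)/2 > 0, a' := aM c (-β) = (-δ-D)/2 < 0, a' < a, a+a' = -δ, δ a = a'^2+c, δ a' = a^2+c (ring_nf with D^2).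
 m, M := the fixed points (`disc_nonneg`): m+M = δ, m M = c, m <= M.
 Suppose no i has the pattern. (star): x (i-1) < a, x i < a imply x (i+1) < a: if x i < a' by the assumption; if a' <= x i < a:
  x (i+1) - a = β (x (i-1) - a) + (x i^2 - a'^2) (use δ a = a'^2 + c), x i^2 - a'^2 = (x i - a')(x i + a') <= 0 since x i + a' < a + a' = -δ <= 0; and β (x (i-1)-a) < 0.
 If some i has x i < a ∧ x (i+1) < a then `per_all` (P i := x i < a ∧ x (i+1) < a) gives all x i < a, `seq_a`: x constant: contradiction to h2.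
 Otherwise `seq_b`: x (i+2) = x i: contradiction.
-/

set_option autoImplicit false

namespace Pool.Agent.H53.HN

private theorem Pat_neg {c β : ℝ} (hβ0 : 0 < β) (hβ1 : β ≤ 1) {n : ℕ} {x : ℤ → ℝ}
    (hx : IsSeq c (-β) n x) (h2 : ∃ i, x (i + 2) ≠ x i) : c < -(1 - β) ^ 2 := by
  by_contra hc
  push Not at hc
  obtain ⟨j, hj⟩ := h2
  rcases lt_or_eq_of_le hβ1 with hβ | hβ
  · exact hj (seq_small hβ0 hβ hc hx j)
  · have hD := disc_nonneg hx
    rw [hβ] at hD hc
    have hc0 : c = 0 := by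
      norm_num at hD hc
      linarith
    have hs := seq_sum hx (m := 0) (M := 0) (by rw [hβ]; norm_num) (by rw [hc0]; norm_num)
    rw [Finset.sum_eq_zero_iff_of_nonneg (fun i _ => by
      have : (x (i : ℤ) - 0) * (x (i : ℤ) - 0) = x (i : ℤ) ^ 2 := by ring
      rw [this]
      exact sq_nonneg _)] at hs
    have hall : ∀ i, x i = 0 := by
      intro i
      have hn : (0 : ℤ) < n := by exact_mod_cast hx.npos
      have k0 : 0 ≤ i % (n : ℤ) := Int.emod_nonneg _ hn.ne'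
      have k1 : i % (n : ℤ) < n := Int.emod_lt_of_pos _ hn
      rw [← per_emod hx.per i]
      have k2 : i % (n : ℤ) = ((i % (n : ℤ)).toNat : ℤ) := (Int.toNat_of_nonneg k0).symm
      rw [k2]
      have k3 := hs (i % (n : ℤ)).toNat (by
        rw [Finset.mem_range]
        omega)
      rcases mul_eq_zero.1 k3 with k4 | k4
      · linarith
      · linarith
    exact hj (by rw [hall, hall])

theorem pat {c β : ℝ} (hβ0 : 0 < β) (hβ1 : β ≤ 1) {n : ℕ} {x : ℤ → ℝ}
    (hx : IsSeq c (-β) n x) (h2 : ∃ i, x (i + 2) ≠ x i) :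
    0 < -3 * (1 - β) ^ 2 - 4 * c ∧ 0 < aP c (-β) ∧ aM c (-β) < 0 ∧
      ∃ i, x (i - 1) < aP c (-β) ∧ x i < aM c (-β) ∧ aP c (-β) ≤ x (i + 1) := by
  have hc := Pat_neg hβ0 hβ1 hx h2
  have hδ : 0 ≤ 1 - β := by linarith
  have hpos : 0 < -3 * (1 - β) ^ 2 - 4 * c := by nlinarith [sq_nonneg (1 - β)]
  obtain ⟨D, hD0, hD2, hP, hM'⟩ : ∃ D : ℝ, 0 ≤ D ∧ D ^ 2 = -3 * (1 - β) ^ 2 - 4 * c ∧
      aP c (-β) = (-(1 - β) + D) / 2 ∧ aM c (-β) = (-(1 - β) - D) / 2 := by
    refine ⟨Real.sqrt (-3 * (1 - β) ^ 2 - 4 * c), Real.sqrt_nonneg _, Real.sq_sqrt hpos.le, ?_, ?_⟩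
    · unfold aP
      rw [← sub_eq_add_neg]
    · unfold aM
      rw [← sub_eq_add_neg 1 β]
  obtain ⟨a, ha⟩ : ∃ a, a = aP c (-β) := ⟨_, rfl⟩
  obtain ⟨a', ha'⟩ : ∃ a', a' = aM c (-β) := ⟨_, rfl⟩
  rw [← ha] at hP ⊢
  rw [← ha'] at hM' ⊢
  have hDδ : 1 - β < D := by
    by_contra h
    push Not at h
    nlinarith [sq_nonneg (1 - β)]
  have hapos : 0 < a := by rw [hP]; linarith
  have haneg : a' < 0 := by rw [hM']; linarith
  have r1 : a + a' = -(1 - β) := by rw [hP, hM']; ring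
  have r2 : (1 - β) * a = a' ^ 2 + c := by
    rw [hP, hM']
    linear_combination (-1 / 4 : ℝ) * hD2
  have r3 : (1 - β) * a' = a ^ 2 + c := by
    rw [hP, hM']
    linear_combination (-1 / 4 : ℝ) * hD2
  refine ⟨hpos, hapos, haneg, ?_⟩
  have hDs := disc_nonneg hx
  obtain ⟨s, hs0, hs2⟩ : ∃ s : ℝ, 0 ≤ s ∧ s ^ 2 = (1 + -β) ^ 2 - 4 * c :=
    ⟨Real.sqrt ((1 + -β) ^ 2 - 4 * c), Real.sqrt_nonneg _, Real.sq_sqrt hDs⟩
  obtain ⟨m, hm⟩ : ∃ m : ℝ, m = ((1 - β) - s) / 2 := ⟨_, rfl⟩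
  obtain ⟨M, hM⟩ : ∃ M : ℝ, M = ((1 - β) + s) / 2 := ⟨_, rfl⟩
  have h1 : m + M = 1 - β := by rw [hm, hM]; ring
  have h3 : m * M = c := by
    rw [hm, hM]
    linear_combination (-1 / 4 : ℝ) * hs2
  have hmM : m ≤ M := by rw [hm, hM]; linarith
  by_contra hno
  push Not at hno
  have star : ∀ i, x (i - 1) < a → x i < a → x (i + 1) < a := by
    intro i k1 k2
    by_cases k3 : x i < a'
    · exact hno i k1 k3
    · push Not at k3
      have e1 := hx.eqn i
      have e2 : x (i + 1) - a = β * (x (i - 1) - a) + (x i - a') * (x i + a') := by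
        linear_combination e1 - r2
      have e3 : β * (x (i - 1) - a) < 0 := mul_neg_of_pos_of_neg hβ0 (by linarith)
      have e4 : (x i - a') * (x i + a') ≤ 0 :=
        mul_nonpos_of_nonneg_of_nonpos (by linarith) (by linarith)
      linarith
  obtain ⟨j, hj⟩ := h2
  by_cases hex : ∃ i, x i < a ∧ x (i + 1) < a
  · obtain ⟨i, hi⟩ := hex
    have hall : ∀ k, x k < a := by
      intro k
      exact (per_all (P := fun i => x i < a ∧ x (i + 1) < a) hx.npos (fun i h => by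
        have e : i + (n : ℤ) + 1 = (i + 1) + n := by ring
        show x i < a ∧ x (i + 1) < a
        have h' : x (i + n) < a ∧ x (i + n + 1) < a := h
        rw [e, hx.per, hx.per] at h'
        exact h') (fun i h => by
        refine ⟨h.2, ?_⟩
        have := star (i + 1) (by rw [add_sub_cancel_right]; exact h.1) h.2
        exact this) hi k).1
    have hcst := seq_a hβ0 hβ1 hx h1 h3 hmM r1 r2 r3 (by linarith) hall
    exact hj (by rw [hcst, hcst])
  · push Not at hex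
    exact hj (seq_b hβ0 hβ1 hx h1 h3 hmM r1 r2 r3 hapos (fun i h => by
      have := hex i h.1
      linarith [h.2]) j)

end Pool.Agent.H53.HN
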