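import Pool.Agent.H53.HN.Pat

/-! # The dual pattern lemma, β >= 1 (helper53, folder HN)

PROOF. X i := -x (-i)/β satisfies X (i+1) - X (i-1)/β = X i^2 + c/β^2: indeed the left side is (-x (-i-1) + x (-i+1)/β)/β = (x (-i+1) - β x (-i-1))/β^2 = (x (-i)^2 + c)/β^2.
 So IsSeq (c/β^2) (-(1/β)) n X (periodicity clear), 0 < 1/β <= 1, and X (j+2) ≠ X j for j = -i-2 if x (i+2) ≠ x i. Apply `pat` with β' = 1/β, c' = c/β^2.
 -3(1-1/β)^2 - 4c/β^2 = (-3(1-β)^2-4c)/β^2, so D' = D/β (Real.sqrt_div or sqrt of square: β > 0), and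
 aP c' (-β') = (-(1-1/β) + D/β)/2 = ((1-β)+D)/(2β) = -aM c (-β)/β, aM c' (-β') = ((1-β)-D)/(2β) = -aP c (-β)/β.
 The pattern for X at i: X (i-1) < A, X i < A', A <= X (i+1) reads with j = -i: x (j+1) > aM, x j > aP, x (j-1) <= aM.
-/

set_option autoImplicit false

namespace Pool.Agent.H53.HN

theorem pat_inv {c β : ℝ} (hβ1 : 1 ≤ β) {n : ℕ} {x : ℤ → ℝ}
    (hx : IsSeq c (-β) n x) (h2 : ∃ i, x (i + 2) ≠ x i) :
    0 < -3 * (1 - β) ^ 2 - 4 * c ∧ 0 < aP c (-β) ∧ aM c (-β) < 0 ∧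
      ∃ i, x (i - 1) ≤ aM c (-β) ∧ aP c (-β) < x i ∧ aM c (-β) < x (i + 1) := by
  have hβ : 0 < β := lt_of_lt_of_le one_pos hβ1
  have hβ2 : 0 < β ^ 2 := by positivity
  set X : ℤ → ℝ := fun i => -x (-i) / β with hX
  have hXs : IsSeq (c / β ^ 2) (-(1 / β)) n X := by
    refine ⟨hx.npos, ?_, ?_⟩
    · intro i
      have h1 := hx.per (-(i + n))
      have e : -(i + (n : ℤ)) + n = -i := by ring
      rw [e] at h1
      show -x (-(i + n)) / β = -x (-i) / β
      rw [h1]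
    · intro i
      have h1 := hx.eqn (-i)
      have e1 : -(i + 1) = -i - 1 := by ring
      have e2 : -(i - 1) = -i + 1 := by ring
      show -x (-(i + 1)) / β + -(1 / β) * (-x (-(i - 1)) / β) = (-x (-i) / β) ^ 2 + c / β ^ 2
      rw [e1, e2]
      have h2 : -x (-i - 1) / β + -(1 / β) * (-x (-i + 1) / β) =
          (x (-i + 1) + -β * x (-i - 1)) / β ^ 2 := by
        field_simp
        ring
      rw [h2, h1]
      field_simp
  have hX2 : ∃ j, X (j + 2) ≠ X j := by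
    obtain ⟨i, hi⟩ := h2
    refine ⟨-i - 2, fun h => hi ?_⟩
    have e1 : -(-i - 2 + 2) = i := by ring
    have e2 : -(-i - 2) = i + 2 := by ring
    have h3 : -x (-(-i - 2 + 2)) / β = -x (-(-i - 2)) / β := h
    rw [e1, e2, div_left_inj' hβ.ne', neg_inj] at h3
    exact h3.symm
  have hb0 : 0 < 1 / β := by positivity
  have hb1 : 1 / β ≤ 1 := by
    rw [div_le_one hβ]
    exact hβ1
  obtain ⟨h3, h4, h5, i, h6, h7, h8⟩ := pat hb0 hb1 hXs hX2
  have hE : -3 * (1 - 1 / β) ^ 2 - 4 * (c / β ^ 2) = (-3 * (1 - β) ^ 2 - 4 * c) / β ^ 2 := by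
    field_simp
    ring
  have hD : Real.sqrt (-3 * (1 + -(1 / β)) ^ 2 - 4 * (c / β ^ 2)) =
      Real.sqrt (-3 * (1 + -β) ^ 2 - 4 * c) / β := by
    have e : -3 * (1 + -(1 / β)) ^ 2 - 4 * (c / β ^ 2) =
        (-3 * (1 + -β) ^ 2 - 4 * c) / β ^ 2 := by
      field_simp
      ring
    rw [e, Real.sqrt_div' _ hβ2.le, Real.sqrt_sq hβ.le]
  have hP : aP (c / β ^ 2) (-(1 / β)) = -aM c (-β) / β := by
    unfold aP aM
    rw [hD]
    field_simp
    ring
  have hM : aM (c / β ^ 2) (-(1 / β)) = -aP c (-β) / β := by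
    unfold aP aM
    rw [hD]
    field_simp
    ring
  rw [hP] at h4 h6 h8
  rw [hM] at h5 h7
  rw [hE] at h3
  have key : ∀ u v : ℝ, -u / β < -v / β → v < u := by
    intro u v h
    rw [div_lt_div_iff_of_pos_right hβ] at h
    linarith
  have key' : ∀ u v : ℝ, -u / β ≤ -v / β → v ≤ u := by
    intro u v h
    rw [div_le_div_iff_of_pos_right hβ] at h
    linarith
  refine ⟨?_, ?_, ?_, -i, ?_, ?_, ?_⟩
  · rcases div_pos_iff.1 h3 with h | h
    · exact h.1
    · exact absurd hβ2 (not_lt.2 h.2.le)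
  · have h9 : -aP c (-β) / β < -0 / β := by
      rw [neg_zero, zero_div]
      exact h5
    exact key _ _ h9
  · have h9 : -0 / β < -aM c (-β) / β := by
      rw [neg_zero, zero_div]
      exact h4
    exact key _ _ h9
  · have e : -(i + 1) = -i - 1 := by ring
    have h9 : -aM c (-β) / β ≤ -x (-(i + 1)) / β := h8
    rw [e] at h9
    exact key' _ _ h9
  · have h9 : -x (-i) / β < -aP c (-β) / β := h7
    exact key _ _ h9
  · have e : -(i - 1) = -i + 1 := by ring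
    have h9 : -x (-(i - 1)) / β < -aM c (-β) / β := h6
    rw [e] at h9
    exact key _ _ h9

end Pool.Agent.H53.HN
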