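import Pool.Agent.H53.HN.Defs

/-! # Periodic real sequences (helper53, folder HN) -/

set_option autoImplicit false

namespace Pool.Agent.H53.HN

theorem per_mul {x : ℤ → ℝ} {n : ℕ} (hper : ∀ i, x (i + n) = x i) (i : ℤ) (k : ℕ) :
    x (i + (n : ℤ) * k) = x i := by
  induction k with
  | zero => simp
  | succ k ih =>
    have : i + (n : ℤ) * ((k + 1 : ℕ) : ℤ) = (i + (n : ℤ) * k) + n := by push_cast; ring
    rw [this, hper, ih]

theorem per_mul_int {x : ℤ → ℝ} {n : ℕ} (hper : ∀ i, x (i + n) = x i) (i k : ℤ) :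
    x (i + (n : ℤ) * k) = x i := by
  rcases Int.eq_nat_or_neg k with ⟨m, rfl | rfl⟩
  · exact per_mul hper i m
  · have := per_mul hper (i + (n : ℤ) * (-(m : ℤ))) m
    rw [← this]; congr 1; ring

theorem per_emod {x : ℤ → ℝ} {n : ℕ} (hper : ∀ i, x (i + n) = x i) (i : ℤ) :
    x (i % n) = x i := by
  have := per_mul_int hper (i % n) (i / n)
  rw [← this]; congr 1; exact (Int.emod_add_mul_ediv i n).symm ▸ rfl

/-- A periodic sequence attains its maximum. -/
theorem per_max {x : ℤ → ℝ} {n : ℕ} (hn : 0 < n) (hper : ∀ i, x (i + n) = x i) :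
    ∃ i, ∀ j, x j ≤ x i := by
  obtain ⟨k, hk, hmax⟩ := (Finset.range n).exists_max_image (fun k : ℕ => x (k : ℤ))
    ⟨0, Finset.mem_range.2 hn⟩
  refine ⟨k, fun j => ?_⟩
  have hj0 : 0 ≤ j % (n : ℤ) := Int.emod_nonneg _ (by exact_mod_cast hn.ne')
  have hj1 : j % (n : ℤ) < n := Int.emod_lt_of_pos _ (by exact_mod_cast hn)
  have h1 : x j = x (((j % (n : ℤ)).toNat : ℕ) : ℤ) := by
    rw [Int.toNat_of_nonneg hj0, per_emod hper]
  rw [h1]
  apply hmax
  rw [Finset.mem_range]
  have : ((j % (n : ℤ)).toNat : ℤ) < n := by rw [Int.toNat_of_nonneg hj0]; exact hj1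
  exact_mod_cast this

/-- A periodic sequence attains its minimum. -/
theorem per_min {x : ℤ → ℝ} {n : ℕ} (hn : 0 < n) (hper : ∀ i, x (i + n) = x i) :
    ∃ i, ∀ j, x i ≤ x j := by
  obtain ⟨i, hi⟩ := per_max (x := fun j => - x j) hn (by intro i; simp [hper i])
  exact ⟨i, fun j => by have := hi j; linarith⟩

/-- A periodic sequence cannot be strictly increasing along steps of length two. -/
theorem per_no_incr {x : ℤ → ℝ} {n : ℕ} (hn : 0 < n) (hper : ∀ i, x (i + n) = x i) (j : ℤ)
    (h : ∀ k : ℕ, x (j + 2 * k) < x (j + 2 * k + 2)) : False := by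
  have key : ∀ k : ℕ, x j < x (j + 2 * (k : ℤ) + 2) := by
    intro k
    induction k with
    | zero => simpa using h 0
    | succ k ih =>
      have := h (k + 1)
      have e : j + 2 * ((k + 1 : ℕ) : ℤ) = j + 2 * (k : ℤ) + 2 := by push_cast; ring
      rw [e] at this ⊢
      linarith
  have h1 := key (n - 1)
  have e : j + 2 * ((n - 1 : ℕ) : ℤ) + 2 = j + (n : ℤ) * ((2 : ℕ) : ℤ) := by
    have : ((n - 1 : ℕ) : ℤ) = (n : ℤ) - 1 := by
      rw [Nat.cast_sub (by omega)]; simp
    rw [this]; push_cast; ring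
  rw [e, per_mul hper j 2] at h1
  exact lt_irrefl _ h1

/-- A periodic sequence cannot be strictly decreasing along steps of length two. -/
theorem per_no_decr {x : ℤ → ℝ} {n : ℕ} (hn : 0 < n) (hper : ∀ i, x (i + n) = x i) (j : ℤ)
    (h : ∀ k : ℕ, x (j + 2 * k + 2) < x (j + 2 * k)) : False :=
  per_no_incr (x := fun j => - x j) hn (by intro i; simp [hper i]) j (fun k => by
    have := h k; linarith)

/-- A property of integers that is periodic and persists under i -> i+1 holds everywhere once it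
holds somewhere. -/
theorem per_all {P : ℤ → Prop} {n : ℕ} (hn : 0 < n) (hper : ∀ i, P (i + n) → P i)
    (hs : ∀ i, P i → P (i + 1)) {i : ℤ} (hi : P i) (j : ℤ) : P j := by
  have up : ∀ k : ℕ, P (i + k) := by
    intro k
    induction k with
    | zero => simpa using hi
    | succ k ih =>
      have := hs _ ih
      have e : i + (k : ℤ) + 1 = i + ((k + 1 : ℕ) : ℤ) := by push_cast; ring
      rwa [e] at this
  have down : ∀ (k : ℕ) (m : ℤ), P (m + (n : ℤ) * k) → P m := by
    intro k
    induction k with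
    | zero => intro m h; simpa using h
    | succ k ih =>
      intro m h
      apply hper
      apply ih
      have e : m + (n : ℤ) + (n : ℤ) * (k : ℤ) = m + (n : ℤ) * ((k + 1 : ℕ) : ℤ) := by
        push_cast; ring
      rwa [e]
  have hn' : (1 : ℤ) ≤ n := by exact_mod_cast hn
  obtain ⟨k, hk⟩ : ∃ k : ℕ, i ≤ j + (n : ℤ) * k := by
    refine ⟨(i - j).toNat, ?_⟩
    have h1 : i - j ≤ ((i - j).toNat : ℤ) := Int.self_le_toNat _
    have h2 : (0 : ℤ) ≤ ((i - j).toNat : ℤ) := by positivity
    nlinarith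
  apply down k
  have := up (j + (n : ℤ) * k - i).toNat
  rwa [Int.toNat_of_nonneg (by linarith), add_sub_cancel] at this

/-- The same with steps of length two. -/
theorem per_all2 {P : ℤ → Prop} {n : ℕ} (hn : 0 < n) (hper : ∀ i, P (i + n) → P i)
    (hs : ∀ i, P i → P (i + 2)) {i : ℤ} (hi : P i) (k : ℤ) : P (i + 2 * k) := by
  have hper2 : ∀ k : ℤ, P (i + 2 * (k + n)) → P (i + 2 * k) := by
    intro k h
    apply hper
    apply hper
    have e : i + 2 * k + (n : ℤ) + (n : ℤ) = i + 2 * (k + n) := by ring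
    rwa [e]
  have := per_all (P := fun k : ℤ => P (i + 2 * k)) (n := n) hn hper2
    (fun k h => by
      have e : i + 2 * (k + 1) = i + 2 * k + 2 := by ring
      show P (i + 2 * (k + 1))
      rw [e]; exact hs _ h) (i := 0) (by simpa using hi) k
  exact this

end Pool.Agent.H53.HN
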