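import Pool.Agent.H53.HN.Basic

/-! # The angle along an orbit (helper53, folder HN)

PROOF. G = (fR c b)^[h]. `rot_ne`: G is injective (b not 0: `gR` is an inverse of `fR`) and G o = o, so G z = o = G o implies z = o; induction on j.
 `rot_orbit`: induction on j. j = 0: en z - en o = |..| exp(I arg) (`Complex.norm_mul_exp_arg_mul_I`), the norm is positive because en z is not en o (`en_injective`).
  Step: by `rot` for G^[j] z (not o): en (G^[j+1] z) - en o = ρ exp(I d) (en (G^[j] z) - en o); multiply, `Complex.exp_add`, `Finset.sum_range_succ`, `Function.iterate_succ_apply'`.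
 `rot_kappa`: by `rot_orbit` with j = n: en z - en o = ρ exp(I (T0 + S)), and en z - en o = ρ0 exp(I T0) with ρ, ρ0 > 0, S the sum. Taking norms ρ = ρ0, so exp(I S) = 1, `Complex.exp_eq_one_iff`.
-/

set_option autoImplicit false

namespace Pool.Agent.H53.HN

private theorem RotK_inj {c b : ℝ} (hb : b ≠ 0) (h : ℕ) :
    Function.Injective (fR c b)^[h] := by
  intro z w hzw
  have h1 := congrArg (gR c b)^[h] hzw
  have h2 : ∀ z, (gR c b)^[h] ((fR c b)^[h] z) = z := iter_gR_fR c hb h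
  rwa [h2, h2] at h1

theorem rot_ne {c b : ℝ} (hb : b ≠ 0) {h : ℕ} {R : ℝ} {o : ℝ × ℝ} {d : ℝ × ℝ → ℝ}
    (H : IsRot c b h R o d) {z : ℝ × ℝ} (hz : z ≠ o) (j : ℕ) :
    ((fR c b)^[h])^[j] z ≠ o := by
  induction j with
  | zero => exact hz
  | succ j ih =>
    intro hc
    rw [Function.iterate_succ_apply'] at hc
    apply ih
    apply RotK_inj hb h
    rw [hc, H.fix]

theorem rot_orbit {c b : ℝ} (hb : b ≠ 0) {h : ℕ} {R : ℝ} {o : ℝ × ℝ} {d : ℝ × ℝ → ℝ}
    (H : IsRot c b h R o d) {z : ℝ × ℝ} (hz : z ≠ o) (j : ℕ) :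
    ∃ ρ : ℝ, 0 < ρ ∧ en (((fR c b)^[h])^[j] z) - en o = (ρ : ℂ) *
      Complex.exp (((Complex.arg (en z - en o) +
        ∑ i ∈ Finset.range j, d (((fR c b)^[h])^[i] z) : ℝ) : ℂ) * Complex.I) := by
  induction j with
  | zero =>
    refine ⟨‖en z - en o‖, ?_, ?_⟩
    · rw [norm_pos_iff, sub_ne_zero]
      exact fun hc => hz (en_injective hc)
    · rw [Finset.range_zero, Finset.sum_empty, add_zero, Complex.norm_mul_exp_arg_mul_I]
      rfl
  | succ j ih =>
    obtain ⟨ρ, hρ, h1⟩ := ih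
    obtain ⟨ρ', hρ', h2⟩ := H.rot _ (rot_ne hb H hz j)
    refine ⟨ρ' * ρ, mul_pos hρ' hρ, ?_⟩
    rw [Function.iterate_succ_apply', h2, h1, Finset.sum_range_succ]
    have h3 : (((Complex.arg (en z - en o) + (∑ i ∈ Finset.range j, d (((fR c b)^[h])^[i] z) +
        d (((fR c b)^[h])^[j] z)) : ℝ) : ℂ) * Complex.I) =
        ((d (((fR c b)^[h])^[j] z) : ℝ) : ℂ) * Complex.I +
        ((Complex.arg (en z - en o) +
          ∑ i ∈ Finset.range j, d (((fR c b)^[h])^[i] z) : ℝ) : ℂ) * Complex.I := by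
      push_cast
      ring
    rw [h3, Complex.exp_add]
    push_cast
    ring

theorem rot_kappa {c b : ℝ} (hb : b ≠ 0) {h : ℕ} {R : ℝ} {o : ℝ × ℝ} {d : ℝ × ℝ → ℝ}
    (H : IsRot c b h R o d) {z : ℝ × ℝ} (hz : z ≠ o) {n : ℕ}
    (hn : ((fR c b)^[h])^[n] z = z) :
    ∃ κ : ℤ, ∑ i ∈ Finset.range n, d (((fR c b)^[h])^[i] z) = 2 * Real.pi * κ := by
  obtain ⟨ρ, hρ, h1⟩ := rot_orbit hb H hz n
  rw [hn] at h1
  have h2 := Complex.norm_mul_exp_arg_mul_I (en z - en o)
  have h3 : ‖en z - en o‖ = ρ := by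
    have h4 := congrArg norm h1
    rw [norm_mul, Complex.norm_exp_ofReal_mul_I, mul_one, Complex.norm_real, Real.norm_eq_abs,
      abs_of_pos hρ] at h4
    exact h4
  rw [h3] at h2
  have h5 : (((Complex.arg (en z - en o) +
      ∑ i ∈ Finset.range n, d (((fR c b)^[h])^[i] z) : ℝ) : ℂ) * Complex.I) =
      (Complex.arg (en z - en o) : ℂ) * Complex.I +
      ((∑ i ∈ Finset.range n, d (((fR c b)^[h])^[i] z) : ℝ) : ℂ) * Complex.I := by
    push_cast
    ring
  rw [h5, Complex.exp_add, ← mul_assoc, h2] at h1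
  have h6 : en z - en o ≠ 0 := by
    rw [sub_ne_zero]
    exact fun hc => hz (en_injective hc)
  have h7 : Complex.exp (((∑ i ∈ Finset.range n, d (((fR c b)^[h])^[i] z) : ℝ) : ℂ) *
      Complex.I) = 1 := by
    have h8 : (en z - en o) * Complex.exp (((∑ i ∈ Finset.range n, d (((fR c b)^[h])^[i] z) : ℝ) : ℂ) *
      Complex.I) = (en z - en o) * 1 := by
      rw [mul_one]
      exact h1.symm
    exact mul_left_cancel₀ h6 h8
  obtain ⟨κ, hκ⟩ := Complex.exp_eq_one_iff.1 h7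
  refine ⟨κ, ?_⟩
  have h9 := congrArg Complex.im hκ
  have h10 : (((κ : ℂ) * (2 * Real.pi * Complex.I)).im : ℝ) = κ * (2 * Real.pi) := by
    have : (κ : ℂ) * (2 * Real.pi * Complex.I) = ((κ * (2 * Real.pi) : ℝ) : ℂ) * Complex.I := by
      push_cast
      ring
    rw [this, Complex.im_ofReal_mul, Complex.I_im, mul_one]
  rw [h10, Complex.im_ofReal_mul, Complex.I_im, mul_one] at h9
  rw [h9]
  ring

end Pool.Agent.H53.HN
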