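import Pool.Agent.H53.HN.RotDefs
import Pool.Agent.H53.HN.ArgL

/-! # One double step of the rotation, b < 0 (helper53, folder HN)

PROOF. β = -b > 0, a = aP c b > 0 > a' = aM c b, a + a' = -(1+b), a^2 + c = (1+b) a', a'^2 + c = (1+b) a. w = z.1 - a, v = z.2 - a', w' = (f z).1 - a', w'' = (f (f z)).1 - a;
 w' = w (z.1 + a) + β v, w'' = w' ((f z).1 + a') + β w. hz says w = ρ cos T, v = ρ sin T, so (w,v) is not 0. If w = 0: w' = β v not 0. If w' = 0: w not 0, w'' = β w.
 By `arg_quot` twice: d := dNeg c b z = arg(w'' + w' I) - arg(w + w' I) - arg(w' + w I) + arg(v + w I).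
 (N) if w' < 0 and w >= 0 then w'' > 0: (f z).1 < a' < 0, so (f z).1 + a' < 0, w'((f z).1 + a') > 0.
 Note v + w I = ρ exp(I (pi/2 - T)), and w + w' I = I conj(w' + w I).
 CASE w > 0, T in (-pi/2, pi/2): arg(v + w I) = pi/2 - T; arg(w + w' I) = pi/2 - arg(w' + w I) (arg(w' + w I) in (0,pi)). So T + d = arg(w'' + w' I): in (0,pi) if w' > 0, 0 if w' = 0 (w'' > 0), in (-pi/2, 0) if w' < 0 (w'' > 0 by (N)).
 CASE w = 0, T = pi/2: v > 0, w' > 0: arg v = 0, arg w' = 0, arg(w' I) = pi/2: T + d = arg(w'' + w' I) in (0,pi).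
 CASE w = 0, T = -pi/2: v < 0, w' < 0: arg v = pi, arg w' = pi, arg(w' I) = -pi/2: T + d = arg(w'' + w' I), in (-pi/2, 0) by (N).
 CASE w < 0, T in (pi/2, 3pi/2): arg(v + w I) = pi/2 - T, θ := arg(w' + w I) in (-pi, 0). If w' > 0: θ in (-pi/2,0), arg(w + w' I) = pi/2 - θ, T + d = arg(w'' + w' I) in (0,pi).
  If w' = 0: θ = -pi/2, arg w = pi, arg w'' = pi (w'' = β w < 0): T + d = pi - pi + pi/2 + pi/2 = pi. If w' < 0: θ in (-pi, -pi/2), arg(w + w' I) = pi/2 - θ - 2 pi, T + d = 2 pi + arg(w'' + w' I) > pi, and if w'' >= 0 it is >= 3pi/2.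
 This proves `step_neg1`. For `step_neg2` (T in (0, 2 pi]): T in (0,pi/2): w, v > 0, so w' = w (z.1 + a) + β v > 0 (z.1 > a > 0), T + d in (0,pi). T = pi/2: in (0,pi). T in (pi/2, 3pi/2): T + d > 0 (case w < 0).
  T in [3pi/2, 2pi]: apply the cases to T - 2 pi in [-pi/2, 0]: T - 2 pi + d >= -pi/2. `step_neg3`: T in (-pi/2, 0] (w > 0 , v <= 0, T in (-pi, pi]), w' > 0: T + d = arg(w'' + w' I) > 0.
-/

set_option autoImplicit false

namespace Pool.Agent.H53.HN

private lemma rns_arg {r φ x y : ℝ} (hr : 0 < r) (h1 : -Real.pi < φ) (h2 : φ ≤ Real.pi)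
    (hx : x = r * Real.cos φ) (hy : y = r * Real.sin φ) :
    Complex.arg ((x : ℂ) + (y : ℂ) * Complex.I) = φ := by
  have h := Complex.arg_mul_cos_add_sin_mul_I hr (θ := φ) ⟨h1, h2⟩
  rw [← Complex.ofReal_cos, ← Complex.ofReal_sin] at h
  have e : (x : ℂ) + (y : ℂ) * Complex.I
      = (r : ℂ) * ((Real.cos φ : ℂ) + (Real.sin φ : ℂ) * Complex.I) := by
    rw [hx, hy]
    push_cast
    ring
  rw [e]
  exact h

private lemma rns_re (x y : ℝ) : ((x : ℂ) + (y : ℂ) * Complex.I).re = x := by simp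

private lemma rns_im (x y : ℝ) : ((x : ℂ) + (y : ℂ) * Complex.I).im = y := by simp

private lemma rns_swap (x y : ℝ) (h : x ≠ 0 ∨ y ≠ 0) :
    (0 ≤ x ∨ 0 ≤ y → Complex.arg ((y : ℂ) + (x : ℂ) * Complex.I)
      = Real.pi / 2 - Complex.arg ((x : ℂ) + (y : ℂ) * Complex.I)) ∧
    (x < 0 → y < 0 → Complex.arg ((y : ℂ) + (x : ℂ) * Complex.I)
      = Real.pi / 2 - Complex.arg ((x : ℂ) + (y : ℂ) * Complex.I) - 2 * Real.pi) := by
  set Z : ℂ := (x : ℂ) + (y : ℂ) * Complex.I with hZ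
  have hZ0 : Z ≠ 0 := by
    intro h0
    have h1 := congrArg Complex.re h0
    have h2 := congrArg Complex.im h0
    rw [hZ, rns_re, Complex.zero_re] at h1
    rw [hZ, rns_im, Complex.zero_im] at h2
    rcases h with h | h
    · exact h h1
    · exact h h2
  have hr : 0 < ‖Z‖ := norm_pos_iff.2 hZ0
  have hx : x = ‖Z‖ * Real.cos Z.arg := by
    rw [Complex.norm_mul_cos_arg, hZ, rns_re]
  have hy : y = ‖Z‖ * Real.sin Z.arg := by
    rw [Complex.norm_mul_sin_arg, hZ, rns_im]
  have hpi := Real.pi_pos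
  have hb1 := Complex.neg_pi_lt_arg Z
  have hb2 := Complex.arg_le_pi Z
  constructor
  · intro hxy
    have h3 : -(Real.pi / 2) ≤ Z.arg := by
      rw [Complex.neg_pi_div_two_le_arg_iff, hZ, rns_re, rns_im]
      exact hxy
    apply rns_arg hr (by linarith) (by linarith)
    · rw [Real.cos_pi_div_two_sub]
      exact hy
    · rw [Real.sin_pi_div_two_sub]
      exact hx
  · intro hx0 hy0
    have h3 : Z.arg < -(Real.pi / 2) := by
      by_contra hcon
      push Not at hcon
      rw [Complex.neg_pi_div_two_le_arg_iff, hZ, rns_re, rns_im] at hcon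
      rcases hcon with h | h <;> linarith
    apply rns_arg hr (by linarith) (by linarith)
    · rw [Real.cos_sub_two_pi, Real.cos_pi_div_two_sub]
      exact hy
    · rw [Real.sin_sub_two_pi, Real.sin_pi_div_two_sub]
      exact hx

private lemma rns_rel {c b : ℝ} (hD : 0 < -3 * (1 + b) ^ 2 - 4 * c) :
    aP c b ^ 2 + c = (1 + b) * aM c b ∧ aM c b ^ 2 + c = (1 + b) * aP c b := by
  have h := Real.sq_sqrt hD.le
  unfold aP aM
  constructor
  · linear_combination (1 / 4) * h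
  · linear_combination (1 / 4) * h

private lemma rns_w {c b : ℝ} (hD : 0 < -3 * (1 + b) ^ 2 - 4 * c) (z : ℝ × ℝ) :
    (fR c b z).1 - aM c b = (z.1 - aP c b) * (z.1 + aP c b) + (-b) * (z.2 - aM c b) ∧
    (fR c b (fR c b z)).1 - aP c b
      = ((fR c b z).1 - aM c b) * ((fR c b z).1 + aM c b) + (-b) * (z.1 - aP c b) := by
  obtain ⟨h1, h2⟩ := rns_rel hD
  constructor
  · show z.1 ^ 2 + c - b * z.2 - aM c b = _
    linear_combination h1
  · show (fR c b z).1 ^ 2 + c - b * (fR c b z).2 - aP c b = _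
    have h3 : (fR c b z).2 = z.1 := rfl
    rw [h3]
    linear_combination h2

private lemma rns_wv {c b : ℝ} {z : ℝ × ℝ} {ρ T : ℝ}
    (hz : en z - en (aP c b, aM c b) = (ρ : ℂ) * Complex.exp ((T : ℂ) * Complex.I)) :
    z.1 - aP c b = ρ * Real.cos T ∧ z.2 - aM c b = ρ * Real.sin T := by
  have h1 := congrArg Complex.re hz
  have h2 := congrArg Complex.im hz
  rw [Complex.exp_mul_I, ← Complex.ofReal_cos, ← Complex.ofReal_sin] at h1 h2
  simp [en] at h1 h2
  exact ⟨h1, h2⟩

private lemma rns_core {c b : ℝ} (hb : b < 0) (hD : 0 < -3 * (1 + b) ^ 2 - 4 * c)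
    {z : ℝ × ℝ} {ρ T : ℝ}
    (hρ : 0 < ρ) (hz : en z - en (aP c b, aM c b) = (ρ : ℂ) * Complex.exp ((T : ℂ) * Complex.I))
    (h1 : -(Real.pi / 2) ≤ T) (h2 : T < 3 * Real.pi / 2) :
    (0 ≤ (fR c b z).1 - aM c b ∨ 0 ≤ z.1 - aP c b → T + dNeg c b z
      = Complex.arg ((((fR c b (fR c b z)).1 - aP c b : ℝ) : ℂ) +
        (((fR c b z).1 - aM c b : ℝ) : ℂ) * Complex.I)) ∧
    ((fR c b z).1 - aM c b < 0 → z.1 - aP c b < 0 → T + dNeg c b z
      = Complex.arg ((((fR c b (fR c b z)).1 - aP c b : ℝ) : ℂ) +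
        (((fR c b z).1 - aM c b : ℝ) : ℂ) * Complex.I) + 2 * Real.pi) := by
  obtain ⟨hw', hw''⟩ := rns_w hD z
  obtain ⟨hw, hv⟩ := rns_wv hz
  have hd : dNeg c b z = Complex.arg
    ((((fR c b (fR c b z)).1 - aP c b : ℝ) + (((fR c b z).1 - aM c b : ℝ) : ℂ) * Complex.I) /
      ((z.1 - aP c b : ℝ) + (((fR c b z).1 - aM c b : ℝ) : ℂ) * Complex.I)) -
  Complex.arg
    ((((fR c b z).1 - aM c b : ℝ) + ((z.1 - aP c b : ℝ) : ℂ) * Complex.I) /
      ((z.2 - aM c b : ℝ) + ((z.1 - aP c b : ℝ) : ℂ) * Complex.I)) := rfl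
  set w := z.1 - aP c b with hwdef
  set v := z.2 - aM c b with hvdef
  set w' := (fR c b z).1 - aM c b with hw'def
  set w'' := (fR c b (fR c b z)).1 - aP c b with hw''def
  have hβ : 0 < -b := by linarith
  have hwv : w ≠ 0 ∨ v ≠ 0 := by
    by_contra hcon
    push Not at hcon
    have e : Real.cos T ^ 2 + Real.sin T ^ 2 = 1 := Real.cos_sq_add_sin_sq T
    rw [hcon.1] at hw
    rw [hcon.2] at hv
    have e1 : Real.cos T = 0 := by
      rcases mul_eq_zero.1 hw.symm with h | h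
      · linarith
      · exact h
    have e2 : Real.sin T = 0 := by
      rcases mul_eq_zero.1 hv.symm with h | h
      · linarith
      · exact h
    rw [e1, e2] at e
    norm_num at e
  have hq1 : w' ≠ 0 ∨ 0 < w'' * w := by
    by_cases h0 : w' = 0
    · right
      have e1 : w'' = (-b) * w := by rw [hw'', h0]; ring
      have hw0 : w ≠ 0 := by
        intro hw0
        rw [h0, hw0] at hw'
        have e2 : (-b) * v = 0 := by linarith
        rcases mul_eq_zero.1 e2 with h | h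
        · linarith
        · rcases hwv with h3 | h3
          · exact h3 hw0
          · exact h3 h
      rw [e1]
      have : 0 < w * w := mul_self_pos.2 hw0
      nlinarith
    · exact Or.inl h0
  have hq0 : w ≠ 0 ∨ 0 < w' * v := by
    by_cases h0 : w = 0
    · right
      have hv0 : v ≠ 0 := by
        rcases hwv with h3 | h3
        · exact absurd h0 h3
        · exact h3
      have e1 : w' = (-b) * v := by rw [hw', h0]; ring
      rw [e1]
      have : 0 < v * v := mul_self_pos.2 hv0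
      nlinarith
    · exact Or.inl h0
  have hww : w' ≠ 0 ∨ w ≠ 0 := by
    rcases hq1 with h | h
    · exact Or.inl h
    · right
      rintro h0
      rw [h0, mul_zero] at h
      exact lt_irrefl _ h
  have hA4 : Complex.arg ((v : ℂ) + (w : ℂ) * Complex.I) = Real.pi / 2 - T := by
    apply rns_arg hρ (by linarith) (by linarith)
    · rw [Real.cos_pi_div_two_sub]; exact hv
    · rw [Real.sin_pi_div_two_sub]; exact hw
  have hdd : dNeg c b z = (Complex.arg ((w'' : ℂ) + (w' : ℂ) * Complex.I) -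
      Complex.arg ((w : ℂ) + (w' : ℂ) * Complex.I)) -
      (Complex.arg ((w' : ℂ) + (w : ℂ) * Complex.I) - (Real.pi / 2 - T)) := by
    rw [hd, (arg_quot hq1).2, (arg_quot hq0).2, hA4]
  obtain ⟨s1, s2⟩ := rns_swap w' w hww
  constructor
  · intro h
    have := s1 h
    rw [hdd]
    linarith
  · intro h3 h4
    have := s2 h3 h4
    rw [hdd]
    linarith

theorem step_neg1 {c b : ℝ} (hb : b < 0) (hD : 0 < -3 * (1 + b) ^ 2 - 4 * c)
    (ha : 0 < aP c b) (ha' : aM c b < 0) {z : ℝ × ℝ} {ρ T : ℝ}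
    (hρ : 0 < ρ) (hz : en z - en (aP c b, aM c b) = (ρ : ℂ) * Complex.exp ((T : ℂ) * Complex.I))
    (h1 : -(Real.pi / 2) ≤ T) (h2 : T < 3 * Real.pi / 2) :
    -(Real.pi / 2) ≤ T + dNeg c b z ∧
      (z.1 < aP c b → (fR c b z).1 < aM c b → aP c b ≤ (fR c b (fR c b z)).1 →
        3 * Real.pi / 2 ≤ T + dNeg c b z) := by
  obtain ⟨c1, c2⟩ := rns_core hb hD hρ hz h1 h2
  obtain ⟨hw', hw''⟩ := rns_w hD z
  have hpi := Real.pi_pos
  refine ⟨?_, fun h3 h4 h5 => ?_⟩
  · by_cases hc : 0 ≤ (fR c b z).1 - aM c b ∨ 0 ≤ z.1 - aP c b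
    · rw [c1 hc, Complex.neg_pi_div_two_le_arg_iff, rns_re, rns_im]
      by_cases h0 : 0 ≤ (fR c b z).1 - aM c b
      · exact Or.inr h0
      · left
        push Not at h0
        have hw0 : 0 ≤ z.1 - aP c b := by
          rcases hc with h | h
          · linarith
          · exact h
        rw [hw'']
        have e1 : 0 < ((fR c b z).1 - aM c b) * ((fR c b z).1 + aM c b) :=
          mul_pos_of_neg_of_neg h0 (by linarith)
        have e2 : 0 ≤ -b * (z.1 - aP c b) := mul_nonneg (by linarith) hw0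
        linarith
    · push Not at hc
      rw [c2 hc.1 hc.2]
      have := Complex.neg_pi_lt_arg ((((fR c b (fR c b z)).1 - aP c b : ℝ) : ℂ) +
        (((fR c b z).1 - aM c b : ℝ) : ℂ) * Complex.I)
      linarith
  · rw [c2 (by linarith) (by linarith)]
    have h6 : -(Real.pi / 2) ≤ Complex.arg ((((fR c b (fR c b z)).1 - aP c b : ℝ) : ℂ) +
        (((fR c b z).1 - aM c b : ℝ) : ℂ) * Complex.I) := by
      rw [Complex.neg_pi_div_two_le_arg_iff, rns_re, rns_im]
      left
      linarith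
    linarith

private lemma rns_arg_pos {x y : ℝ} (h : 0 < y ∨ (y = 0 ∧ x < 0)) :
    0 < Complex.arg ((x : ℂ) + (y : ℂ) * Complex.I) := by
  rcases h with h | ⟨h, hx⟩
  · have h1 : 0 ≤ Complex.arg ((x : ℂ) + (y : ℂ) * Complex.I) := by
      rw [Complex.arg_nonneg_iff, rns_im]
      exact h.le
    refine lt_of_le_of_ne h1 fun he => ?_
    have h2 := (Complex.arg_eq_zero_iff.1 he.symm).2
    rw [rns_im] at h2
    linarith
  · have h1 : Complex.arg ((x : ℂ) + (y : ℂ) * Complex.I) = Real.pi := by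
      rw [Complex.arg_eq_pi_iff, rns_re, rns_im]
      exact ⟨hx, h⟩
    rw [h1]
    exact Real.pi_pos

theorem step_neg2 {c b : ℝ} (hb : b < 0) (hD : 0 < -3 * (1 + b) ^ 2 - 4 * c)
    (ha : 0 < aP c b) (ha' : aM c b < 0) {z : ℝ × ℝ} {ρ T : ℝ}
    (hρ : 0 < ρ) (hz : en z - en (aP c b, aM c b) = (ρ : ℂ) * Complex.exp ((T : ℂ) * Complex.I))
    (h1 : 0 < T) (h2 : T ≤ 2 * Real.pi) :
    0 < T + dNeg c b z := by
  have hpi := Real.pi_pos
  by_cases hT : T < 3 * Real.pi / 2
  · obtain ⟨c1, c2⟩ := rns_core hb hD hρ hz (by linarith) hT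
    obtain ⟨hw', hw''⟩ := rns_w hD z
    obtain ⟨hw, hv⟩ := rns_wv hz
    by_cases hc : 0 ≤ (fR c b z).1 - aM c b ∨ 0 ≤ z.1 - aP c b
    · rw [c1 hc]
      apply rns_arg_pos
      by_cases hT2 : T ≤ Real.pi / 2
      · left
        have hv0 : 0 < z.2 - aM c b := by
          rw [hv]
          exact mul_pos hρ (Real.sin_pos_of_pos_of_lt_pi h1 (by linarith))
        have hw0 : 0 ≤ z.1 - aP c b := by
          rw [hw]
          exact mul_nonneg hρ.le (Real.cos_nonneg_of_neg_pi_div_two_le_of_le (by linarith) hT2)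
        rw [hw']
        have e1 : 0 ≤ (z.1 - aP c b) * (z.1 + aP c b) := mul_nonneg hw0 (by linarith)
        have e2 : 0 < -b * (z.2 - aM c b) := mul_pos (by linarith) hv0
        linarith
      · push Not at hT2
        have hw0 : z.1 - aP c b < 0 := by
          rw [hw]
          exact mul_neg_of_pos_of_neg hρ (Real.cos_neg_of_pi_div_two_lt_of_lt hT2 (by linarith))
        have hw1 : 0 ≤ (fR c b z).1 - aM c b := by
          rcases hc with h | h
          · exact h
          · linarith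
        rcases hw1.lt_or_eq with h | h
        · exact Or.inl h
        · right
          refine ⟨h.symm, ?_⟩
          rw [hw'', ← h, zero_mul, zero_add]
          exact mul_neg_of_pos_of_neg (by linarith) hw0
    · push Not at hc
      rw [c2 hc.1 hc.2]
      have := Complex.neg_pi_lt_arg ((((fR c b (fR c b z)).1 - aP c b : ℝ) : ℂ) +
        (((fR c b z).1 - aM c b : ℝ) : ℂ) * Complex.I)
      linarith
  · push Not at hT
    have hz' : en z - en (aP c b, aM c b)
        = (ρ : ℂ) * Complex.exp (((T - 2 * Real.pi : ℝ) : ℂ) * Complex.I) := by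
      rw [hz]
      congr 1
      have e : (((T - 2 * Real.pi : ℝ) : ℂ) * Complex.I)
          = (T : ℂ) * Complex.I - 2 * Real.pi * Complex.I := by
        push_cast; ring
      rw [e, Complex.exp_sub, Complex.exp_two_pi_mul_I, div_one]
    have h3 := (step_neg1 hb hD ha ha' hρ hz' (by linarith) (by linarith)).1
    linarith

theorem step_neg3 {c b : ℝ} (hb : b < 0) (hD : 0 < -3 * (1 + b) ^ 2 - 4 * c)
    (ha : 0 < aP c b) (ha' : aM c b < 0) {z : ℝ × ℝ} {ρ T : ℝ}
    (hρ : 0 < ρ) (hz : en z - en (aP c b, aM c b) = (ρ : ℂ) * Complex.exp ((T : ℂ) * Complex.I))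
    (h1 : -Real.pi < T) (h2 : T ≤ Real.pi) (hw : aP c b < z.1) (hv : z.2 ≤ aM c b)
    (hw' : aM c b < (fR c b z).1) :
    T ≤ 0 ∧ 0 < T + dNeg c b z := by
  have hpi := Real.pi_pos
  obtain ⟨hw1, hv1⟩ := rns_wv hz
  have hcos : 0 < Real.cos T := by
    by_contra hcon
    push Not at hcon
    have := mul_nonpos_of_nonneg_of_nonpos hρ.le hcon
    linarith
  have hsin : Real.sin T ≤ 0 := by
    by_contra hcon
    push Not at hcon
    have := mul_pos hρ hcon
    linarith
  have hT0 : T ≤ 0 := by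
    by_contra hcon
    push Not at hcon
    rcases h2.lt_or_eq with h | h
    · exact absurd (Real.sin_pos_of_pos_of_lt_pi hcon h) (not_lt.2 hsin)
    · rw [h, Real.cos_pi] at hcos
      linarith
  have hT1 : -(Real.pi / 2) ≤ T := by
    by_contra hcon
    push Not at hcon
    have h3 : Real.cos (-T) < 0 := Real.cos_neg_of_pi_div_two_lt_of_lt (by linarith) (by linarith)
    rw [Real.cos_neg] at h3
    linarith
  refine ⟨hT0, ?_⟩
  obtain ⟨c1, _⟩ := rns_core hb hD hρ hz hT1 (by linarith)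
  rw [c1 (Or.inr (by linarith))]
  exact rns_arg_pos (Or.inl (by linarith))

end Pool.Agent.H53.HN
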