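import Pool.Agent.H53.HN.RotNeg
import Pool.Agent.H53.HN.RotNegS
import Pool.Agent.H53.HN.RotK
import Pool.Agent.H53.HN.OrbSeq
import Pool.Agent.H53.HN.PatInv

/-! # Positive rotation of periodic points, b < 0 (helper53, folder HN)

PROOF. β = -b > 0, f = fR c b. `orb_seq` (period 2n) gives x with IsSeq c b (2n) x and f^[k] p = (x k, x (k-1)). Some x (i+2) is not x i: otherwise f^[2] p = (x 2, x 1) = (x 0, x (-1)) = p.
 Case β <= 1: `pat` gives the inequalities and an integer i with x (i-1) < aP, x i < aM, aP <= x (i+1). Let k = (i-1) % (2n), a natural number < 2n, so x k < aP, x (k+1) < aM, aP <= x (k+2) (periodicity).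
 Case β >= 1: `pat_inv` gives an integer i with x (i-1) <= aM, aP < x i, aM < x (i+1); k = i % (2n), so x (k-1) <= aM, aP < x k, aM < x (k+1).
 Write k = 2 j + ε with ε < 2, j < n; take i := ε in the conclusion, q = f^[ε] p. (f^[2])^[n] q = f^[2n] (f^[ε] p) = q. With o = (aP, aM), f^[2] o = o (`rot_neg`, field fix); q is not o, since otherwise
 f^[2] (f^[ε] p) = f^[ε] p, and f injective gives f^[2] p = p. H := IsRot c b 2 R0 o (dNeg c b). `rot_kappa`: the sum is 2 pi κ. T m := arg (en q - en o) + sum over range m of dNeg ((f^[2])^[i] q).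
 `rot_orbit` gives en ((f^[2])^[m] q) - en o = ρ exp(I T m). Case β <= 1: `level_lo` with `step_neg1` (applied to T m - 2 pi l), the jump at m = j: (f^[2])^[j] q = f^[k] p = (x k, x (k-1)), (f ..).1 = x (k+1), (f (f ..)).1 = x (k+2).
 Case β >= 1: `level_hi` with `step_neg2` (applied to T m - 2 pi l in (0, 2 pi]); the jump at m = j: let l be the integer with T j - 2 pi l in (-pi, pi]; `step_neg3` gives T j <= 2 pi l < T (j+1)
 ((f^[k] p).1 = x k > aP, (f^[k] p).2 = x (k-1) <= aM, (f ..).1 = x (k+1) > aM).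
-/

set_option autoImplicit false

namespace Pool.Agent.H53.HN

private theorem rnk_shift (T l : ℝ) (k : ℤ) (hl : l = k) :
    Complex.exp (((T - 2 * Real.pi * l : ℝ) : ℂ) * Complex.I)
      = Complex.exp ((T : ℂ) * Complex.I) := by
  rw [hl]
  have h : (((T - 2 * Real.pi * k : ℝ) : ℂ) * Complex.I)
      = (T : ℂ) * Complex.I - (k : ℂ) * (2 * Real.pi * Complex.I) := by
    push_cast
    ring
  rw [h, Complex.exp_sub, Complex.exp_int_mul_two_pi_mul_I, div_one]

private theorem rnk_nat {x : ℤ → ℝ} {n : ℕ} (hn : 0 < n) (hper : ∀ i, x (i + n) = x i) (i : ℤ) :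
    ∃ k : ℕ, k < n ∧ ∀ j : ℤ, x ((k : ℤ) + j) = x (i + j) := by
  have h0 : 0 ≤ i % (n : ℤ) := Int.emod_nonneg _ (by exact_mod_cast hn.ne')
  have h1 : i % (n : ℤ) < n := Int.emod_lt_of_pos _ (by exact_mod_cast hn)
  refine ⟨(i % (n : ℤ)).toNat, ?_, fun j => ?_⟩
  · have : (((i % (n : ℤ)).toNat : ℕ) : ℤ) < n := by rw [Int.toNat_of_nonneg h0]; exact h1
    exact_mod_cast this
  · rw [Int.toNat_of_nonneg h0]
    have h2 := per_mul_int hper (i % n + j) (i / n)
    rw [← h2]
    congr 1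
    have h3 := Int.emod_add_mul_ediv i n
    linarith

theorem rot_neg_k {c b : ℝ} (hb : b < 0) {n : ℕ} (hn : 0 < n) {p : ℝ × ℝ}
    (hp : (fR c b)^[2 * n] p = p) (h2 : (fR c b)^[2] p ≠ p) :
    0 < -3 * (1 + b) ^ 2 - 4 * c ∧ 0 < aP c b ∧ aM c b < 0 ∧
      ∃ i < 2, ∃ κ : ℤ, 1 ≤ κ ∧ ((fR c b)^[i] p) ≠ (aP c b, aM c b) ∧
        ∑ j ∈ Finset.range n, dNeg c b (((fR c b)^[2])^[j] ((fR c b)^[i] p)) =
          2 * Real.pi * κ := by
  have h2n : 0 < 2 * n := by omega
  obtain ⟨x, hx, hk⟩ := orb_seq h2n hp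
  have h2x : ∃ i, x (i + 2) ≠ x i := by
    by_contra hcon
    push Not at hcon
    apply h2
    have e2 := hk 2
    have e0 := hk 0
    have a1 := hcon 0
    have a2 := hcon (-1)
    norm_num at a1 a2
    rw [Function.iterate_zero, id] at e0
    rw [e2, e0]
    push_cast
    norm_num
    exact ⟨a1, a2⟩
  obtain ⟨β, rfl⟩ : ∃ β : ℝ, b = -β := ⟨-b, by ring⟩
  have hβ : 0 < β := by linarith
  have e1 : (1 + -β) = 1 - β := by ring
  -- the common part
  have main : ∀ (hD : 0 < -3 * (1 + -β) ^ 2 - 4 * c) (ha : 0 < aP c (-β)) (ha' : aM c (-β) < 0)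
      (k : ℕ) (hk2 : k < 2 * n)
      (hcase : (x k < aP c (-β) ∧ x ((k : ℤ) + 1) < aM c (-β) ∧ aP c (-β) ≤ x ((k : ℤ) + 2)) ∨
        (x ((k : ℤ) - 1) ≤ aM c (-β) ∧ aP c (-β) < x k ∧ aM c (-β) < x ((k : ℤ) + 1))),
      ∃ i < 2, ∃ κ : ℤ, 1 ≤ κ ∧ ((fR c (-β))^[i] p) ≠ (aP c (-β), aM c (-β)) ∧
        ∑ j ∈ Finset.range n, dNeg c (-β) (((fR c (-β))^[2])^[j] ((fR c (-β))^[i] p)) =
          2 * Real.pi * κ := by
    intro hD ha ha' k hk2 hcase
    set f := fR c (-β) with hf
    set o : ℝ × ℝ := (aP c (-β), aM c (-β)) with ho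
    obtain ⟨R0, hR0, hrot⟩ := rot_neg hb hD ha ha'
    have H : IsRot c (-β) 2 R0 o (dNeg c (-β)) := hrot R0 le_rfl
    have hinj : Function.Injective f :=
      (Function.LeftInverse.injective (g := gR c (-β)) (gR_fR c hb.ne))
    have hε : k % 2 < 2 := Nat.mod_lt _ (by norm_num)
    set ε := k % 2 with hεd
    set q := f^[ε] p with hq
    have hfo : f^[2] o = o := H.fix
    have hqo : q ≠ o := by
      intro h
      apply h2
      apply hinj.iterate ε
      rw [← Function.iterate_add_apply, add_comm ε 2, Function.iterate_add_apply, ← hq, h, hfo]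
    have hit : ∀ m : ℕ, (f^[2])^[m] q = f^[2 * m + ε] p := by
      intro m
      rw [← Function.iterate_mul, hq, ← Function.iterate_add_apply]
    have hqn : (f^[2])^[n] q = q := by
      rw [hit, add_comm, Function.iterate_add_apply, hp]
    obtain ⟨κ, hκ⟩ := rot_kappa hb.ne H hqo hqn
    refine ⟨ε, hε, κ, ?_, hqo, hκ⟩
    set T : ℕ → ℝ := fun m => Complex.arg (en q - en o) +
      ∑ i ∈ Finset.range m, dNeg c (-β) ((f^[2])^[i] q) with hT
    have hTn : T n = T 0 + 2 * Real.pi * κ := by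
      simp only [hT, Finset.range_zero, Finset.sum_empty, add_zero]
      rw [hκ]
    have hTs : ∀ m, T (m + 1) = T m + dNeg c (-β) ((f^[2])^[m] q) := by
      intro m
      simp only [hT]
      rw [Finset.sum_range_succ]
      ring
    have horb : ∀ m, ∃ ρ : ℝ, 0 < ρ ∧ en ((f^[2])^[m] q) - en o = (ρ : ℂ) *
        Complex.exp ((T m : ℂ) * Complex.I) := fun m => rot_orbit hb.ne H hqo m
    have horb2 : ∀ (m : ℕ) (l : ℤ), ∃ ρ : ℝ, 0 < ρ ∧ en ((f^[2])^[m] q) - en o = (ρ : ℂ) *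
        Complex.exp (((T m - 2 * Real.pi * l : ℝ) : ℂ) * Complex.I) := by
      intro m l
      obtain ⟨ρ, h1, h3⟩ := horb m
      refine ⟨ρ, h1, ?_⟩
      rw [rnk_shift (T m) l l rfl]
      exact h3
    have hj : k / 2 < n := by omega
    have hkk : 2 * (k / 2) + ε = k := by omega
    have hz0 : (f^[2])^[k / 2] q = (x (k : ℤ), x ((k : ℤ) - 1)) := by
      rw [hit, hkk, hk]
    have hz1 : f ((f^[2])^[k / 2] q) = (x ((k : ℤ) + 1), x (k : ℤ)) := by
      rw [hit, hkk, ← Function.iterate_succ_apply' f, hk]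
      push_cast
      rw [add_sub_cancel_right]
    have hz2 : f (f ((f^[2])^[k / 2] q)) = (x ((k : ℤ) + 2), x ((k : ℤ) + 1)) := by
      rw [hit, hkk, ← Function.iterate_succ_apply' f, ← Function.iterate_succ_apply' f, hk]
      push_cast
      have e3 : (k : ℤ) + 1 + 1 = (k : ℤ) + 2 := by ring
      have e4 : (k : ℤ) + 1 + 1 - 1 = (k : ℤ) + 1 := by ring
      rw [e4, e3]
    have hpi := Real.pi_pos
    rcases hcase with ⟨c1, c2, c3⟩ | ⟨c1, c2, c3⟩
    · apply level_lo hTn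
      · intro j hjn l hl1 hl2
        obtain ⟨ρ, hρ, hz⟩ := horb2 j l
        have := (step_neg1 hb hD ha ha' hρ hz (by linarith) (by linarith)).1
        rw [hTs]
        linarith
      · refine ⟨k / 2, hj, ⌊(T (k / 2) + Real.pi / 2) / (2 * Real.pi)⌋, ?_⟩
        set l := ⌊(T (k / 2) + Real.pi / 2) / (2 * Real.pi)⌋ with hl
        have f1 := Int.floor_le ((T (k / 2) + Real.pi / 2) / (2 * Real.pi))
        have f2 := Int.lt_floor_add_one ((T (k / 2) + Real.pi / 2) / (2 * Real.pi))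
        rw [← hl] at f1 f2
        rw [le_div_iff₀ (by positivity)] at f1
        rw [div_lt_iff₀ (by positivity)] at f2
        obtain ⟨ρ, hρ, hz⟩ := horb2 (k / 2) l
        have h5 := (step_neg1 hb hD ha ha' hρ hz (by linarith) (by linarith)).2
          (by rw [hz0]; exact c1) (by rw [← hf, hz1]; exact c2) (by rw [← hf, hz2]; exact c3)
        rw [hTs]
        constructor <;> linarith
    · apply level_hi hTn
      · intro j hjn l hl1 hl2
        obtain ⟨ρ, hρ, hz⟩ := horb2 j l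
        have := step_neg2 hb hD ha ha' hρ hz (by linarith) (by linarith)
        rw [hTs]
        linarith
      · refine ⟨k / 2, hj, ⌈(T (k / 2) - Real.pi) / (2 * Real.pi)⌉, ?_⟩
        set l := ⌈(T (k / 2) - Real.pi) / (2 * Real.pi)⌉ with hl
        have f1 := Int.le_ceil ((T (k / 2) - Real.pi) / (2 * Real.pi))
        have f2 := Int.ceil_lt_add_one ((T (k / 2) - Real.pi) / (2 * Real.pi))
        rw [← hl] at f1 f2
        rw [div_le_iff₀ (by positivity)] at f1
        have f3 : (l : ℝ) - 1 < (T (k / 2) - Real.pi) / (2 * Real.pi) := by linarith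
        rw [lt_div_iff₀ (by positivity)] at f3
        obtain ⟨ρ, hρ, hz⟩ := horb2 (k / 2) l
        have h5 := step_neg3 hb hD ha ha' hρ hz (by linarith) (by linarith)
          (by rw [hz0]; exact c2) (by rw [hz0]; exact c1) (by rw [← hf, hz1]; exact c3)
        rw [hTs]
        constructor <;> linarith [h5.1, h5.2]
  rcases le_total β 1 with hβ1 | hβ1
  · obtain ⟨hD, ha, ha', i0, c1, c2, c3⟩ := pat hβ hβ1 hx h2x
    obtain ⟨k, hk2, hkx⟩ := rnk_nat h2n hx.per (i0 - 1)
    have hD' : 0 < -3 * (1 + -β) ^ 2 - 4 * c := by rw [e1]; exact hD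
    refine ⟨hD', ha, ha', main hD' ha ha' k hk2 (Or.inl ⟨?_, ?_, ?_⟩)⟩
    · have := hkx 0
      rw [add_zero, add_zero] at this
      rw [this]; exact c1
    · rw [hkx 1, sub_add_cancel]; exact c2
    · have e : i0 - 1 + 2 = i0 + 1 := by ring
      rw [hkx 2, e]; exact c3
  · obtain ⟨hD, ha, ha', i0, c1, c2, c3⟩ := pat_inv hβ1 hx h2x
    obtain ⟨k, hk2, hkx⟩ := rnk_nat h2n hx.per i0
    have hD' : 0 < -3 * (1 + -β) ^ 2 - 4 * c := by rw [e1]; exact hD
    refine ⟨hD', ha, ha', main hD' ha ha' k hk2 (Or.inr ⟨?_, ?_, ?_⟩)⟩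
    · have := hkx (-1)
      have e : ∀ t : ℤ, t + -1 = t - 1 := fun t => by ring
      rw [e, e] at this
      rw [this]; exact c1
    · have := hkx 0
      rw [add_zero, add_zero] at this
      rw [this]; exact c2
    · rw [hkx 1]; exact c3

end Pool.Agent.H53.HN
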