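import Pool.Agent.H53.HN.RotPosK
import Pool.Agent.H53.HN.RotNegK

/-! # Existence of rotation data (helper53, folder HN)

PROOF. Case b > 0: h = 1, o = (xm, xm), d = dPos c b; discriminant from `rot_pos_k` for p0 (f p0 = p0 would give f^[2] p0 = p0), R0 from `rot_pos`. For p: i = 0, `rot_pos_k` (N > 0), ((f^[1])^[j] = f^[j]).
 Case b < 0: h = 2, o = (aP, aM), d = dNeg c b, the inequalities from `rot_neg_k` for p0 with n = N/2, R0 from `rot_neg`. For p: `rot_neg_k` with n = N / 2 (2 n = N as N is even, n > 0).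
-/

set_option autoImplicit false

namespace Pool.Agent.H53.HN

theorem rot_ex {c b : ℝ} (hb : b ≠ 0) {N : ℕ} (hN : 0 < N) (hN2 : 2 ∣ N)
    (hex : ∃ p0 : ℝ × ℝ, (fR c b)^[N] p0 = p0 ∧ (fR c b)^[2] p0 ≠ p0) :
    ∃ (h : ℕ) (o : ℝ × ℝ) (d : ℝ × ℝ → ℝ) (R0 : ℝ), 0 < R0 ∧ h ∣ N ∧
      (∀ R, R0 ≤ R → IsRot c b h R o d) ∧
      ∀ p : ℝ × ℝ, (fR c b)^[N] p = p → (fR c b)^[2] p ≠ p →
        ∃ i < 2, ∃ κ : ℤ, κ ≠ 0 ∧ (fR c b)^[i] p ≠ o ∧
          ∑ j ∈ Finset.range (N / h), d (((fR c b)^[h])^[j] ((fR c b)^[i] p)) =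
            2 * Real.pi * κ := by
  have hiter1 : ∀ (j : ℕ) (z : ℝ × ℝ), ((fR c b)^[1])^[j] z = (fR c b)^[j] z := by
    intro j z; rw [Function.iterate_one]
  obtain ⟨p0, hp0, hp0'⟩ := hex
  rcases lt_or_gt_of_ne hb with hb' | hb'
  · obtain ⟨n, rfl⟩ := hN2
    have hn : 0 < n := by omega
    obtain ⟨h1, h2, h3, -⟩ := rot_neg_k hb' hn hp0 hp0'
    obtain ⟨R0, hR0, hR⟩ := rot_neg hb' h1 h2 h3
    refine ⟨2, (aP c b, aM c b), dNeg c b, R0, hR0, ⟨n, rfl⟩, hR, ?_⟩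
    intro p hp hp2
    obtain ⟨-, -, -, i, hi, κ, hκ, hne, hs⟩ := rot_neg_k hb' hn hp hp2
    refine ⟨i, hi, κ, by omega, hne, ?_⟩
    rw [show 2 * n / 2 = n by omega]
    exact hs
  · have h1 : fR c b p0 ≠ p0 := fun h => hp0' (by
      rw [Function.iterate_succ_apply, h, Function.iterate_one, h])
    obtain ⟨hd, -, -⟩ := rot_pos_k hb' hN hp0 h1
    obtain ⟨R0, hR0, hR⟩ := rot_pos hb' hd
    refine ⟨1, (xm c b, xm c b), dPos c b, R0, hR0, one_dvd _, hR, ?_⟩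
    intro p hp hp2
    have h1' : fR c b p ≠ p := fun h => hp2 (by
      rw [Function.iterate_succ_apply, h, Function.iterate_one, h])
    obtain ⟨-, hne, κ, hκ, hs⟩ := rot_pos_k hb' hN hp h1'
    refine ⟨0, by norm_num, κ, by omega, hne, ?_⟩
    rw [Nat.div_one]
    simpa [hiter1] using hs

end Pool.Agent.H53.HN
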