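import Pool.Agent.H53.HN.Fder

/-! # Shifting along the orbit (helper53, folder HN)

PROOF of `ti_shift`. z the given point, z' = f^[k] z. g^[t] z' = g^[t-k] z for t >= k (`iter_gR_fR`), the same for p: so the distance of g^[t] z' and g^[t] (f^[k] p) is that of g^[t-k] z, g^[t-k] p: tends to 0. f^[t] z' = f^[t+k] z, f^[t] (f^[k] q) = f^[t+k] q: tends to 0.
 Vectors D v, D w with D = fderiv (f^[k]) z; det2R (D v) (D w) ≠ 0 since D is injective (`gf_der`) (see the argument: if it vanishes then s D v + t D w = 0 with (s,t) ≠ 0, s v + t w = 0, det2R v w = 0).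
 fderiv (f^[t]) z' (D v) = fderiv (f^[t+k]) z v -> 0 (`chain_f`). For t >= k: g^[t] = g^[t-k] o g^[k], fderiv (g^[t]) z' (D w) = fderiv (g^[t-k]) z (fderiv (g^[k]) z' (D w)) = fderiv (g^[t-k]) z w (`gf_der`) -> 0.
PROOF of `bdd_shift_s`: f^[i] maps Ws c b p into Ws c b (f^[i] p) (f^[t] (f^[i] z) = f^[t+i] z), so z = g^[i] (f^[i] z) is in the image under the continuous map g^[i] of a bounded set, whose closure is compact. `bdd_shift_u`: f^[i] maps Wu c b p into Wu c b (f^[i] p) (g^[t] (f^[i] z) = g^[t-i] z for t >= i).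
-/

set_option autoImplicit false

namespace Pool.Agent.H53.HN

open Filter Topology

private theorem g_add (c : ℝ) {b : ℝ} (hb : b ≠ 0) (t k : ℕ) (z : ℝ × ℝ) :
    (gR c b)^[t + k] ((fR c b)^[k] z) = (gR c b)^[t] z := by
  rw [Function.iterate_add_apply, iter_gR_fR c hb]

private theorem chain_g (c b : ℝ) (m n : ℕ) (p v : ℝ × ℝ) :
    fderiv ℝ ((gR c b)^[m + n]) p v =
      fderiv ℝ ((gR c b)^[m]) ((gR c b)^[n] p) (fderiv ℝ ((gR c b)^[n]) p v) := by
  rw [Function.iterate_add, fderiv_comp p (diffR_g c b m _) (diffR_g c b n p)]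
  rfl

private theorem mem_Ws_shift {c b : ℝ} {p z : ℝ × ℝ} (k : ℕ) (h : z ∈ Ws c b p) :
    (fR c b)^[k] z ∈ Ws c b ((fR c b)^[k] p) := by
  have h' : Tendsto (fun t : ℕ => dist ((fR c b)^[t] z) ((fR c b)^[t] p)) atTop (𝓝 0) := h
  have h1 := h'.comp (tendsto_add_atTop_nat k)
  refine h1.congr fun t => ?_
  simp only [Function.comp_apply, Function.iterate_add_apply]

private theorem mem_Wu_shift {c b : ℝ} (hb : b ≠ 0) {p z : ℝ × ℝ} (k : ℕ) (h : z ∈ Wu c b p) :
    (fR c b)^[k] z ∈ Wu c b ((fR c b)^[k] p) := by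
  have h' : Tendsto (fun t : ℕ => dist ((gR c b)^[t] z) ((gR c b)^[t] p)) atTop (𝓝 0) := h
  show Tendsto (fun t : ℕ => dist ((gR c b)^[t] ((fR c b)^[k] z))
    ((gR c b)^[t] ((fR c b)^[k] p))) atTop (𝓝 0)
  rw [← tendsto_add_atTop_iff_nat k]
  refine h'.congr fun t => ?_
  rw [g_add c hb, g_add c hb]

private theorem det_ne {D : ℝ × ℝ →L[ℝ] ℝ × ℝ} (hD : ∀ v, D v = 0 → v = 0) {v w : ℝ × ℝ}
    (h : det2R v w ≠ 0) : det2R (D v) (D w) ≠ 0 := by
  intro h0
  apply h
  have e0 : (D v).1 * (D w).2 - (D v).2 * (D w).1 = 0 := h0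
  have e1 : (D w).1 • v - (D v).1 • w = 0 := by
    apply hD
    rw [map_sub, map_smul, map_smul]
    refine Prod.ext ?_ ?_
    · simp only [Prod.fst_sub, Prod.smul_fst, smul_eq_mul, Prod.fst_zero]; ring
    · simp only [Prod.snd_sub, Prod.smul_snd, smul_eq_mul, Prod.snd_zero]; linarith
  have e2 : (D w).2 • v - (D v).2 • w = 0 := by
    apply hD
    rw [map_sub, map_smul, map_smul]
    refine Prod.ext ?_ ?_
    · simp only [Prod.fst_sub, Prod.smul_fst, smul_eq_mul, Prod.fst_zero]; linarith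
    · simp only [Prod.snd_sub, Prod.smul_snd, smul_eq_mul, Prod.snd_zero]; ring
  have a1 : (D w).1 * v.1 - (D v).1 * w.1 = 0 := congrArg Prod.fst e1
  have a2 : (D w).1 * v.2 - (D v).1 * w.2 = 0 := congrArg Prod.snd e1
  have b1 : (D w).2 * v.1 - (D v).2 * w.1 = 0 := congrArg Prod.fst e2
  have b2 : (D w).2 * v.2 - (D v).2 * w.2 = 0 := congrArg Prod.snd e2
  unfold det2R
  by_cases c1 : (D w).1 = 0
  · by_cases c2 : (D w).2 = 0
    · have : w = 0 := hD w (Prod.ext c1 c2)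
      rw [this]; simp
    · have : (D w).2 * (v.1 * w.2 - v.2 * w.1) = 0 := by linear_combination w.2 * b1 - w.1 * b2
      exact (mul_eq_zero.1 this).resolve_left c2
  · have : (D w).1 * (v.1 * w.2 - v.2 * w.1) = 0 := by linear_combination w.2 * a1 - w.1 * a2
    exact (mul_eq_zero.1 this).resolve_left c1

theorem ti_shift {c b : ℝ} (hb : b ≠ 0) {p q : ℝ × ℝ} (h : TI c b p q) (k : ℕ) :
    TI c b ((fR c b)^[k] p) ((fR c b)^[k] q) := by
  obtain ⟨z, hzu, hzs, v, w, hdet, hv, hw⟩ := h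
  refine ⟨(fR c b)^[k] z, mem_Wu_shift hb k hzu, mem_Ws_shift k hzs,
    fderiv ℝ ((fR c b)^[k]) z v, fderiv ℝ ((fR c b)^[k]) z w, det_ne ?_ hdet, ?_, ?_⟩
  · intro u hu
    have := gf_der c hb k z u
    rw [hu, map_zero] at this
    exact this.symm
  · have h1 := hv.comp (tendsto_add_atTop_nat k)
    refine h1.congr fun t => ?_
    simp only [Function.comp_apply]
    rw [chain_f]
  · rw [← tendsto_add_atTop_iff_nat k]
    refine hw.congr fun t => ?_
    rw [chain_g, gf_der c hb, iter_gR_fR c hb]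

private theorem bdd_image {F : ℝ × ℝ → ℝ × ℝ} (hF : Continuous F) {A : Set (ℝ × ℝ)}
    (hA : Bornology.IsBounded A) : Bornology.IsBounded (F '' A) :=
  ((hA.isCompact_closure.image hF).isBounded).subset (Set.image_mono subset_closure)

theorem bdd_shift_s {c b : ℝ} (hb : b ≠ 0) {p : ℝ × ℝ} {i : ℕ}
    (h : Bornology.IsBounded (Ws c b ((fR c b)^[i] p))) : Bornology.IsBounded (Ws c b p) := by
  refine (bdd_image ((continuous_gR c b).iterate i) h).subset fun z hz => ?_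
  exact ⟨(fR c b)^[i] z, mem_Ws_shift i hz, iter_gR_fR c hb i z⟩

theorem bdd_shift_u {c b : ℝ} (hb : b ≠ 0) {p : ℝ × ℝ} {i : ℕ}
    (h : Bornology.IsBounded (Wu c b ((fR c b)^[i] p))) : Bornology.IsBounded (Wu c b p) := by
  refine (bdd_image ((continuous_gR c b).iterate i) h).subset fun z hz => ?_
  exact ⟨(fR c b)^[i] z, mem_Wu_shift hb i hz, iter_gR_fR c hb i z⟩

end Pool.Agent.H53.HN
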