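import Pool.Agent.H53.HN.Uprop

/-! # Contraction of tangent vectors (helper53, folder HN)

PROOF. `real_dU`: differentiate U (conj t) = cj (U t): deriv U (conj t) = cj (deriv U t) (difference quotients; cj is additive and conjugate linear), for real t: cj (deriv U t) = deriv U t.
 `tan_U`: σ t = rp (U t) for real t has derivative rp (deriv U t) (rp is real linear). For every k: g^[N k] (σ x) = σ (μ^-k x) (rp_iter_g, iterates of GU), differentiate at t: fderiv (g^[N k]) (σ t) (σ' t) = μ^-k σ'(μ^-k t), of norm <= μ^-k sup over [-|t|,|t|] of ‖σ'‖ -> 0.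
 g^[N k + i] = g^[i] o g^[N k] (i < N): fderiv (g^[N k + i]) (σ t) (σ' t) = fderiv (g^[i]) (σ (μ^-k t)) (μ^-k σ' (μ^-k t)); the operator norms of fderiv (g^[i]) on the compact set σ [-|t|,|t|] are bounded (g^[i] is polynomial, so C^1), i < N. So the whole sequence tends to 0.
 `tan_S`: the same with `hp.symm` and f.
 `det_rp`: v, w real (fixed by cj): det2 v w is the real number det2R (rp v) (rp w).
-/

set_option autoImplicit false

namespace Pool.Agent.H53.HN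

open Filter Topology

theorem real_dV {V : ℂ → ℂ × ℂ} (dV : Differentiable ℂ V)
    (cV : ∀ t, V (starRingEnd ℂ t) = cj (V t)) (t : ℝ) :
    cj (deriv V (t : ℂ)) = deriv V (t : ℂ) := by
  have h1 := (dV (t : ℂ)).hasDerivAt.star_conj
  have h2 : (star ∘ V ∘ ⇑(starRingEnd ℂ)) = V := by
    funext s
    have h3 : star (V (starRingEnd ℂ s)) = cj (V (starRingEnd ℂ s)) := rfl
    rw [Function.comp_apply, Function.comp_apply, h3, cV, cj_cj]
  rw [h2, Complex.conj_ofReal] at h1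
  exact h1.deriv.symm

theorem det_rp {v w : ℂ × ℂ} (hv : cj v = v) (hw : cj w = w) :
    det2 v w = ((det2R (rp v) (rp w) : ℝ) : ℂ) := by
  conv_lhs => rw [← io_rp hv, ← io_rp hw]
  simp [det2, det2R, io]

private theorem tan_res {a : ℕ → ℝ} {N : ℕ} (hN : 0 < N)
    (h : ∀ i, Tendsto (fun k : ℕ => a (i + N * k)) atTop (𝓝 0)) : Tendsto a atTop (𝓝 0) := by
  rw [Metric.tendsto_atTop]
  intro ε hε
  have h3 : ∀ᶠ k : ℕ in atTop, ∀ i ∈ Finset.range N, dist (a (i + N * k)) 0 < ε := by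
    rw [Filter.eventually_all_finset]
    intro i _
    have := (tendsto_iff_dist_tendsto_zero.1 (h i)).eventually (gt_mem_nhds hε)
    exact this
  obtain ⟨K, hK⟩ := Filter.eventually_atTop.1 h3
  refine ⟨N * K, fun t htt => ?_⟩
  have h4 : K ≤ t / N := by
    rw [Nat.le_div_iff_mul_le hN]
    rw [mul_comm]
    exact htt
  have h5 : t % N + N * (t / N) = t := Nat.mod_add_div t N
  have h6 := hK (t / N) h4 (t % N) (Finset.mem_range.2 (Nat.mod_lt _ hN))
  rwa [h5] at h6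

private theorem tan_gen {h : ℝ × ℝ → ℝ × ℝ} (hh : ContDiff ℝ 1 h) {N : ℕ} (hN : 0 < N)
    {σ σ' : ℝ → ℝ × ℝ} (hσ : ∀ s, HasDerivAt σ (σ' s) s) (hσ' : Continuous σ') {q : ℝ}
    (hq0 : 0 < q) (hq1 : q < 1) (hrel : ∀ (k : ℕ) (x : ℝ), h^[N * k] (σ x) = σ (q ^ k * x))
    (t : ℝ) : Tendsto (fun k : ℕ => ‖fderiv ℝ (h^[k]) (σ t) (σ' t)‖) atTop (𝓝 0) := by
  have hit : ∀ i : ℕ, ContDiff ℝ 1 (h^[i]) := by
    intro i
    induction i with
    | zero => exact contDiff_id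
    | succ i ih =>
      rw [Function.iterate_succ']
      exact hh.comp ih
  have hdif : ∀ i : ℕ, Differentiable ℝ (h^[i]) := fun i =>
    (hit i).differentiable one_ne_zero
  have hk : ∀ k : ℕ, fderiv ℝ (h^[N * k]) (σ t) (σ' t) = q ^ k • σ' (q ^ k * t) := by
    intro k
    have h1 : HasDerivAt (h^[N * k] ∘ σ) (fderiv ℝ (h^[N * k]) (σ t) (σ' t)) t :=
      ((hdif (N * k)) (σ t)).hasFDerivAt.comp_hasDerivAt t (hσ t)
    have h2 : HasDerivAt (fun x : ℝ => σ (q ^ k * x)) (q ^ k • σ' (q ^ k * t)) t := by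
      have h3 : HasDerivAt (fun x : ℝ => q ^ k * x) (q ^ k) t := by
        simpa using (hasDerivAt_id t).const_mul (q ^ k)
      exact (hσ (q ^ k * t)).scomp t h3
    have h4 : (h^[N * k] ∘ σ) = fun x : ℝ => σ (q ^ k * x) := by
      funext x
      exact hrel k x
    rw [h4] at h1
    exact h1.unique h2
  refine tan_res hN fun i => ?_
  have hqk : Tendsto (fun k : ℕ => q ^ k) atTop (𝓝 0) :=
    tendsto_pow_atTop_nhds_zero_of_lt_one hq0.le hq1
  have hqt : Tendsto (fun k : ℕ => q ^ k * t) atTop (𝓝 0) := by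
    simpa using hqk.mul_const t
  have hσc : Continuous σ := continuous_iff_continuousAt.2 fun s => (hσ s).continuousAt
  have e1 : ∀ k : ℕ, fderiv ℝ (h^[i + N * k]) (σ t) (σ' t) =
      fderiv ℝ (h^[i]) (σ (q ^ k * t)) (q ^ k • σ' (q ^ k * t)) := by
    intro k
    rw [Function.iterate_add, fderiv_comp _ ((hdif i) _) ((hdif (N * k)) _)]
    rw [ContinuousLinearMap.comp_apply, hk, hrel]
  have h1 : Tendsto (fun k : ℕ => fderiv ℝ (h^[i]) (σ (q ^ k * t))) atTop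
      (𝓝 (fderiv ℝ (h^[i]) (σ 0))) :=
    (((hit i).continuous_fderiv one_ne_zero).comp hσc).tendsto 0 |>.comp hqt
  have h2 : Tendsto (fun k : ℕ => q ^ k • σ' (q ^ k * t)) atTop (𝓝 ((0 : ℝ) • σ' 0)) :=
    hqk.smul ((hσ'.tendsto 0).comp hqt)
  rw [zero_smul] at h2
  have h3 : Tendsto (fun k : ℕ => fderiv ℝ (h^[i]) (σ (q ^ k * t)) (q ^ k • σ' (q ^ k * t)))
      atTop (𝓝 (fderiv ℝ (h^[i]) (σ 0) 0)) :=
    (isBoundedBilinearMap_apply.continuous.tendsto (fderiv ℝ (h^[i]) (σ 0), (0 : ℝ × ℝ))).comp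
      (h1.prodMk_nhds h2)
  rw [map_zero] at h3
  have h4 := h3.norm
  rw [norm_zero] at h4
  refine h4.congr fun k => ?_
  rw [e1]

private noncomputable def rpL : (ℂ × ℂ) →L[ℝ] (ℝ × ℝ) :=
  Complex.reCLM.prodMap Complex.reCLM

private theorem rpL_apply (z : ℂ × ℂ) : rpL z = rp z := rfl

private theorem tan_der {V : ℂ → ℂ × ℂ} (dV : Differentiable ℂ V) (s : ℝ) :
    HasDerivAt (fun s : ℝ => rp (V (s : ℂ))) (rp (deriv V (s : ℂ))) s := by
  have h1 : HasDerivAt (fun s : ℝ => (s : ℂ)) 1 s := Complex.ofRealCLM.hasDerivAt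
  have h2 : HasDerivAt (fun s : ℝ => V (s : ℂ)) ((1 : ℂ) • deriv V (s : ℂ)) s :=
    (dV (s : ℂ)).hasDerivAt.scomp s h1
  rw [one_smul] at h2
  exact rpL.hasFDerivAt.comp_hasDerivAt s h2

private theorem tan_cont {V : ℂ → ℂ × ℂ} (dV : Differentiable ℂ V) :
    Continuous (fun s : ℝ => rp (deriv V (s : ℂ))) :=
  continuous_rp.comp (((dV.contDiff (n := 1)).continuous_deriv le_rfl).comp
    Complex.continuous_ofReal)

variable {c b : ℝ} {N : ℕ} {p : ℝ × ℝ} {μ ν : ℝ} {U S : ℂ → ℂ × ℂ}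

theorem tan_U (hN : 0 < N) (hp : IsSad (fC c b)^[N] (gC c b)^[N] p μ ν U S) (t : ℝ) :
    Tendsto (fun k : ℕ => ‖fderiv ℝ ((gR c b)^[k]) (rp (U (t : ℂ))) (rp (deriv U (t : ℂ)))‖)
      atTop (𝓝 0) := by
  have hg : ContDiff ℝ 1 (gR c b) := by
    unfold gR
    fun_prop
  refine tan_gen hg hN (tan_der hp.dU) (tan_cont hp.dU) hp.symm.nu0 hp.symm.nu1 ?_ t
  intro k x
  apply io_injective
  rw [rp_iter_g hp.cU, Function.iterate_mul, hp.symm.iterS, io_rpV hp.cU]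
  push_cast
  rfl

theorem tan_S (hN : 0 < N) (hp : IsSad (fC c b)^[N] (gC c b)^[N] p μ ν U S) (t : ℝ) :
    Tendsto (fun k : ℕ => ‖fderiv ℝ ((fR c b)^[k]) (rp (S (t : ℂ))) (rp (deriv S (t : ℂ)))‖)
      atTop (𝓝 0) := by
  have hf : ContDiff ℝ 1 (fR c b) := by
    unfold fR
    fun_prop
  refine tan_gen hf hN (tan_der hp.dS) (tan_cont hp.dS) hp.nu0 hp.nu1 ?_ t
  intro k x
  apply io_injective
  rw [rp_iter hp.cS, Function.iterate_mul, hp.iterS, io_rpV hp.cS]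
  push_cast
  rfl

end Pool.Agent.H53.HN
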