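import Pool.Agent.H53.HN.FamEx
import Pool.Agent.H53.HN.Core

/-! # Transversality (helper53, folder HN)

PROOF. hX' : U t' = S s', index j' with ν^j' |s'| < r and the sign condition. Choose i with μ^-i |t'| <= r/4, t2 := μ^-i t' ≠ 0, |t2| < r. n0 = j' + i. F^[n0] (χ (t2,0)) = F^[n0] (U t2) = F^[j'] (U t') = F^[j'] (S s') = S (ν^j' s') = χ (0, ν^j' s').
 Φ w := (χ.symm (F^[n0] (χ w))).1. hΦ: χ is analytic at (t2,0) (open source, hc.app: χ w = U w.1 + S w.2 - io p near it), `chart_diff` at z0 = χ (t2,0). hdΦ: w -> χ.symm (F^[n0] (χ w)) has injective derivative at (t2,0) (`chart_diff`; χ has injective derivative because χ.symm o χ = id near (t2,0) and χ.symm is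
 differentiable at χ (t2,0)), so bijective (dimension 2), so its first component is not 0. hΦr: for real w near (t2,0): χ w, F^[n0] (χ w) are fixed by cj, both coordinates of χ.symm of norm < r (`chart_loc`), hc.real.
 hsgn: χ (t2 ∓ τ, 0) = U (t2 ∓ τ), F^[i] of it = U (t' ∓ μ^i τ), so Φ (t2 ∓ τ, 0) = (χ.symm (F^[j'] (U (t' ∓ μ^i τ)))).1: the sign condition of hX'.
 Ω := the set of w with ‖w.1‖, ‖w.2‖ < r, F^[n0] (χ w) in χ.target, both coordinates of χ.symm (F^[n0] (χ w)) of norm < r (a neighbourhood of (t2,0)). `fam_ex` (with t2) and `core` give j and real w. Let τ1 = a j + b j w (real), M = n0 + J j, Q z = χ.symm (F^[M] z).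
 F^[M] (V τ1) = F^[n0] (χ (X,Y)) = χ (0, y2) with y2 = second coordinate, |y2| < r, real (V τ1 real, hc.real). `chart_zero`: V τ1 = S s1, s1 = ν^-M y2 real.
 Suppose det2 (deriv V τ1) (deriv S s1) = 0. As deriv S s1 ≠ 0 (`dS_ne`), deriv V τ1 = λ deriv S s1. Near s1: Q (S σ) = (0, ν^M σ) (`iterS`, `chart_S`, `chart_symm`), so the first coordinate of DQ (deriv S s1) is 0 (Q is differentiable at V τ1 = S s1, `chart_diff`), so that of DQ (deriv V τ1) is 0.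
 But for z near w (complex): Φ (X j z, Y j z) = (Q (V (a j + b j z))).1, so its derivative at w is b j times the first coordinate of DQ (deriv V τ1) = 0: contradiction to `core`.
-/

set_option autoImplicit false

namespace Pool.Agent.H53.HN

open Filter Topology

variable {F G : ℂ × ℂ → ℂ × ℂ} {p : ℝ × ℝ} {μ ν r C : ℝ} {U S : ℂ → ℂ × ℂ}
  {χ : OpenPartialHomeomorph (ℂ × ℂ) (ℂ × ℂ)}

theorem trans (h : IsSad F G p μ ν U S) (hc : IsChart F p μ ν U S χ r C)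
    {V : ℂ → ℂ × ℂ} (dV : Differentiable ℂ V) (cV : ∀ t, V (starRingEnd ℂ t) = cj (V t))
    (hdis : ∀ x y : ℂ, V x ≠ U y) {t s : ℝ} (hX : CrossAt F χ ν r V S t s)
    {t' s' : ℝ} (ht' : t' ≠ 0) (hX' : CrossAt F χ ν r U S t' s') :
    ∃ t1 s1 : ℝ, V (t1 : ℂ) = S (s1 : ℂ) ∧ det2 (deriv V (t1 : ℂ)) (deriv S (s1 : ℂ)) ≠ 0 := by
  have hr := hc.r0
  have hμ := h.mu0
  have hX' := hX'
  obtain ⟨hUS, j', hj', ε, hε, hsgn⟩ := hX'
  -- choice of i
  obtain ⟨i, hi⟩ := pow_unbounded_of_one_lt (4 * |t'| / r) h.mu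
  have hμi : 0 < μ ^ i := pow_pos hμ i
  set t2 : ℝ := t' / μ ^ i with ht2
  have ht2' : μ ^ i * t2 = t' := by rw [ht2]; field_simp
  have ht20 : t2 ≠ 0 := by rw [ht2]; exact div_ne_zero ht' hμi.ne'
  have ht2r : |t2| ≤ r / 4 := by
    rw [ht2, abs_div, abs_of_pos hμi, div_le_iff₀ hμi]
    rw [div_lt_iff₀ hr] at hi
    nlinarith
  have ht2r' : ‖(t2 : ℂ)‖ < r := by
    rw [Complex.norm_real, Real.norm_eq_abs]; linarith
  set n0 : ℕ := j' + i with hn0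
  set Y0 : ℝ := ν ^ j' * s' with hY0
  have hY0r : ‖(Y0 : ℂ)‖ < r := by
    rw [Complex.norm_real, Real.norm_eq_abs, hY0, abs_mul, abs_of_pos (pow_pos h.nu0 j')]
    exact hj'
  have iterU' : ∀ x : ℝ, F^[n0] (U ((x : ℝ) : ℂ)) = F^[j'] (U ((μ ^ i * x : ℝ) : ℂ)) := by
    intro x
    rw [hn0, Function.iterate_add_apply, h.iterU]; push_cast; rfl
  have hz0 : F^[n0] (χ ((t2 : ℂ), 0)) = χ (0, (Y0 : ℂ)) := by
    rw [chart_U h hc ht2r', iterU', ht2', hUS, h.iterS, chart_S h hc hY0r]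
    rw [hY0]; push_cast; rfl
  have hr0 : ‖(0 : ℂ)‖ < r := by simpa using hr
  obtain ⟨hKa, hKinj⟩ := chart_diff h hc (z0 := χ ((t2 : ℂ), 0)) (w0 := (0, (Y0 : ℂ)))
    (j := n0) hr0 hY0r hz0
  obtain ⟨hχa, hχinj⟩ := chart_ana h hc (w := ((t2 : ℂ), (0 : ℂ))) ht2r' hr0
  set H : ℂ × ℂ → ℂ × ℂ := fun w => χ.symm (F^[n0] (χ w)) with hH
  have hHa : AnalyticAt ℂ H ((t2 : ℂ), 0) :=
    AnalyticAt.comp (g := fun z => χ.symm (F^[n0] z)) (f := χ) hKa hχa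
  have hHinj : ∀ v, fderiv ℂ H ((t2 : ℂ), 0) v = 0 → v = 0 := by
    intro v hv
    have h5 : HasFDerivAt H _ ((t2 : ℂ), 0) :=
      HasFDerivAt.comp ((t2 : ℂ), (0 : ℂ)) (g := fun z => χ.symm (F^[n0] z)) (f := χ)
        hKa.differentiableAt.hasFDerivAt hχa.differentiableAt.hasFDerivAt
    rw [h5.fderiv] at hv
    exact hχinj v (hKinj _ hv)
  have hloc := chart_loc h hc (z0 := χ ((t2 : ℂ), 0)) (w0 := (0, (Y0 : ℂ))) (j := n0) hr0 hY0r hz0
  have hloc' : ∀ᶠ w in 𝓝 ((t2 : ℂ), (0 : ℂ)), F^[n0] (χ w) ∈ χ.target ∧ ‖(H w).1‖ < r ∧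
      ‖(H w).2‖ < r := hχa.continuousAt.eventually hloc
  have hball : ∀ᶠ w : ℂ × ℂ in 𝓝 ((t2 : ℂ), (0 : ℂ)), ‖w.1‖ < r ∧ ‖w.2‖ < r := by
    have c1 : ContinuousAt (fun w : ℂ × ℂ => ‖w.1‖) ((t2 : ℂ), (0 : ℂ)) :=
      continuous_fst.norm.continuousAt
    have c2 : ContinuousAt (fun w : ℂ × ℂ => ‖w.2‖) ((t2 : ℂ), (0 : ℂ)) :=
      continuous_snd.norm.continuousAt
    filter_upwards [c1.eventually_lt continuousAt_const (by simpa using ht2r'),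
      c2.eventually_lt continuousAt_const (by simpa using hr)] with w a b using ⟨a, b⟩
  set Φ : ℂ × ℂ → ℂ := fun w => (H w).1 with hΦdef
  have hΦa : AnalyticAt ℂ Φ ((t2 : ℂ), 0) := AnalyticAt.fun_comp analyticAt_fst hHa
  have hΦd : fderiv ℂ Φ ((t2 : ℂ), 0) ≠ 0 := fst_fderiv_ne hHa.differentiableAt hHinj
  -- reality
  have hΦr : ∀ᶠ z in 𝓝 ((t2 : ℂ), (0 : ℂ)), cj z = z → (Φ z).im = 0 := by
    filter_upwards [hloc', hball] with w hw1 hw2 hcj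
    have h1 : cj (χ w) = χ w := chart_real h hc hw2.1 hw2.2 hcj
    have h2 : cj (F^[n0] (χ w)) = F^[n0] (χ w) := by rw [← cj_iter h.cF, h1]
    have h3 : χ (H w) = F^[n0] (χ w) := χ.right_inv hw1.1
    have h4 : cj (H w) = H w := hc.real _ hw1.2.1 hw1.2.2 (by rw [h3, h2])
    have h5 : starRingEnd ℂ (H w).1 = (H w).1 := congrArg Prod.fst h4
    exact Complex.conj_eq_iff_im.1 h5
  -- sign change
  have hΦs : ∃ ε : ℝ, 0 < ε ∧ ∀ τ τ' : ℝ, 0 < τ → τ < ε → 0 < τ' → τ' < ε →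
      (Φ (((t2 - τ : ℝ) : ℂ), 0)).re * (Φ (((t2 + τ' : ℝ) : ℂ), 0)).re < 0 := by
    refine ⟨min (ε / μ ^ i) (r - |t2|), lt_min (div_pos hε hμi) (by linarith), ?_⟩
    intro τ τ' h1 h2 h3 h4
    have hval : ∀ x : ℝ, |x| < r → Φ ((x : ℂ), 0) =
        (χ.symm (F^[j'] (U ((μ ^ i * x : ℝ) : ℂ)))).1 := by
      intro x hx
      have : ‖(x : ℂ)‖ < r := by rw [Complex.norm_real, Real.norm_eq_abs]; exact hx
      simp only [hΦdef, hH]
      rw [chart_U h hc this, iterU']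
    have hb1 := lt_of_lt_of_le h2 (min_le_left _ _)
    have hb2 := lt_of_lt_of_le h2 (min_le_right _ _)
    have hb3 := lt_of_lt_of_le h4 (min_le_left _ _)
    have hb4 := lt_of_lt_of_le h4 (min_le_right _ _)
    rw [lt_div_iff₀ hμi] at hb1 hb3
    have e1 : |t2 - τ| < r := by
      have := abs_sub_le t2 0 τ
      rw [sub_zero, zero_sub, abs_neg, abs_of_pos h1] at this
      linarith
    have e2 : |t2 + τ'| < r := by
      have := abs_add_le t2 τ'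
      rw [abs_of_pos h3] at this
      linarith
    rw [hval _ e1, hval _ e2, mul_sub, mul_add, ht2']
    refine hsgn (μ ^ i * τ) (μ ^ i * τ') (mul_pos hμi h1) (by linarith) (mul_pos hμi h3)
      (by linarith)
  -- the family
  obtain ⟨k, X, Y, J, a, b, hfam, hb0, hXY⟩ := fam_ex h hc dV cV hdis hX ht20 ht2r
  obtain ⟨j, w, hw, hΩ, hΦ0, hder⟩ := core hfam hΦa hΦr hΦd hΦs (Filter.inter_mem hloc' hball)
  have hwb : (w : ℂ) ∈ Metric.ball (0 : ℂ) (1 / (4 * k)) := by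
    rw [mem_ball_zero_iff, Complex.norm_real, Real.norm_eq_abs]; exact hw
  obtain ⟨hX1, hY1, hV1⟩ := hXY j _ hwb
  set τ1 : ℝ := a j + b j * w with hτ1
  have hτ1' : ((a j : ℂ) + (b j : ℂ) * (w : ℂ)) = (τ1 : ℂ) := by rw [hτ1]; push_cast; rfl
  rw [hτ1'] at hV1
  set M : ℕ := n0 + J j with hM
  set ζ : ℂ × ℂ := H (X j w, Y j w) with hζ
  have hΩ1 : F^[n0] (χ (X j w, Y j w)) ∈ χ.target ∧ ‖ζ.1‖ < r ∧ ‖ζ.2‖ < r := hΩ.1
  have hχζ : χ ζ = F^[n0] (χ (X j w, Y j w)) := χ.right_inv hΩ1.1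
  have hζ0 : ζ.1 = 0 := hΦ0
  have hMV : F^[M] (V (τ1 : ℂ)) = χ ζ := by
    rw [hM, Function.iterate_add_apply, hV1, hχζ]
  have hVS := chart_zero h hc hζ0 hΩ1.2.2 hMV
  have hζr : cj ζ = ζ := by
    refine hc.real _ hΩ1.2.1 hΩ1.2.2 ?_
    rw [← hMV, ← cj_iter h.cF, ← cV, Complex.conj_ofReal]
  have hζ2 : starRingEnd ℂ ζ.2 = ζ.2 := congrArg Prod.snd hζr
  have hζ2' : ((ζ.2.re : ℝ) : ℂ) = ζ.2 := Complex.conj_eq_iff_re.1 hζ2
  set s1 : ℝ := (ν ^ M)⁻¹ * ζ.2.re with hs1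
  have hs1' : (((ν ^ M)⁻¹ : ℝ) : ℂ) * ζ.2 = (s1 : ℂ) := by
    rw [hs1]; push_cast; rw [hζ2']
  rw [hs1'] at hVS
  refine ⟨τ1, s1, hVS, fun hdet => hder ?_⟩
  -- the derivative vanishes
  obtain ⟨hQa, -⟩ := chart_diff h hc (z0 := V (τ1 : ℂ)) (w0 := ζ) (j := M) hΩ1.2.1 hΩ1.2.2 hMV
  set Q : ℂ × ℂ → ℂ × ℂ := fun z => χ.symm (F^[M] z) with hQ
  have hνM : 0 < ν ^ M := pow_pos h.nu0 M
  have hs1r : ν ^ M * |s1| < r := by
    have h1 : |ζ.2.re| < r := lt_of_le_of_lt (Complex.abs_re_le_norm _) hΩ1.2.2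
    rw [hs1, abs_mul, abs_of_pos (inv_pos.2 hνM), ← mul_assoc, mul_inv_cancel₀ hνM.ne', one_mul]
    exact h1
  -- first coordinate of DQ (deriv S s1)
  have hS1 : (fderiv ℂ Q (V (τ1 : ℂ)) (deriv S (s1 : ℂ))).1 = 0 := by
    have h1 : HasDerivAt (fun x : ℂ => (Q (S x)).1)
        (fderiv ℂ Q (V (τ1 : ℂ)) (deriv S (s1 : ℂ))).1 (s1 : ℂ) := by
      have hQd : HasFDerivAt Q (fderiv ℂ Q (V (τ1 : ℂ))) (S (s1 : ℂ)) := by
        rw [← hVS]; exact hQa.differentiableAt.hasFDerivAt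
      have := hQd.comp_hasDerivAt (s1 : ℂ) (h.dS (s1 : ℂ)).hasDerivAt
      exact (hasFDerivAt_fst (𝕜 := ℂ) (p := Q (S (s1 : ℂ)))).comp_hasDerivAt (s1 : ℂ) this
    have h2 : HasDerivAt (fun x : ℂ => (Q (S x)).1) 0 (s1 : ℂ) := by
      refine (hasDerivAt_const (s1 : ℂ) (0 : ℂ)).congr_of_eventuallyEq ?_
      have c1 : ContinuousAt (fun x : ℂ => ‖((ν ^ M : ℝ) : ℂ) * x‖) (s1 : ℂ) := by fun_prop
      have hlt : ‖((ν ^ M : ℝ) : ℂ) * (s1 : ℂ)‖ < r := by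
        rw [norm_mul, Complex.norm_real, Complex.norm_real, Real.norm_of_nonneg hνM.le,
          Real.norm_eq_abs]
        exact hs1r
      filter_upwards [c1.eventually_lt continuousAt_const hlt] with x hx
      simp only [hQ]
      rw [h.iterS, ← chart_S h hc hx, (chart_symm hc hr0 hx).2]
    exact h1.unique h2
  -- proportional tangent vectors
  have hSne := h.dS_ne (s1 : ℂ)
  have hprop : ∃ l : ℂ, deriv V (τ1 : ℂ) = l • deriv S (s1 : ℂ) := by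
    set v := deriv V (τ1 : ℂ)
    set u := deriv S (s1 : ℂ)
    have hd : v.1 * u.2 - v.2 * u.1 = 0 := hdet
    by_cases h1 : u.1 = 0
    · have h2 : u.2 ≠ 0 := fun h2 => hSne (Prod.ext h1 h2)
      refine ⟨v.2 / u.2, Prod.ext ?_ ?_⟩
      · rw [h1, mul_zero, sub_zero] at hd
        have : v.1 = 0 := by
          rcases mul_eq_zero.1 hd with h3 | h3
          · exact h3
          · exact absurd h3 h2
        simp [this, h1]
      · simp [h2]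
    · refine ⟨v.1 / u.1, Prod.ext ?_ ?_⟩
      · simp [h1]
      · simp only [Prod.smul_snd, smul_eq_mul]
        field_simp
        linear_combination -hd
  obtain ⟨l, hl⟩ := hprop
  have hV0 : (fderiv ℂ Q (V (τ1 : ℂ)) (deriv V (τ1 : ℂ))).1 = 0 := by
    rw [hl, map_smul, Prod.smul_fst, hS1, smul_zero]
  -- chain rule for the family
  have h1 : HasDerivAt (fun z : ℂ => (Q (V ((a j : ℂ) + (b j : ℂ) * z))).1)
      ((fderiv ℂ Q (V (τ1 : ℂ)) ((b j : ℂ) • deriv V (τ1 : ℂ))).1) (w : ℂ) := by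
    have hlin : HasDerivAt (fun z : ℂ => (a j : ℂ) + (b j : ℂ) * z) (b j : ℂ) (w : ℂ) := by
      simpa using ((hasDerivAt_id (w : ℂ)).const_mul (b j : ℂ)).const_add (a j : ℂ)
    have hVd : HasDerivAt V (deriv V (τ1 : ℂ)) ((a j : ℂ) + (b j : ℂ) * (w : ℂ)) := by
      rw [hτ1']; exact (dV (τ1 : ℂ)).hasDerivAt
    have hVc := HasDerivAt.scomp (w : ℂ) hVd hlin
    have hQd : HasFDerivAt Q (fderiv ℂ Q (V (τ1 : ℂ)))
        (V ((a j : ℂ) + (b j : ℂ) * (w : ℂ))) := by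
      rw [hτ1']; exact hQa.differentiableAt.hasFDerivAt
    have := hQd.comp_hasDerivAt (w : ℂ) hVc
    exact (hasFDerivAt_fst (𝕜 := ℂ)
      (p := Q (V ((a j : ℂ) + (b j : ℂ) * (w : ℂ))))).comp_hasDerivAt (w : ℂ) this
  have h2 : deriv (fun z : ℂ => Φ (X j z, Y j z)) (w : ℂ) =
      (fderiv ℂ Q (V (τ1 : ℂ)) ((b j : ℂ) • deriv V (τ1 : ℂ))).1 := by
    rw [← h1.deriv]
    refine Filter.EventuallyEq.deriv_eq ?_
    filter_upwards [Metric.isOpen_ball.mem_nhds hwb] with z hz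
    obtain ⟨-, -, hV2⟩ := hXY j z hz
    simp only [hΦdef, hH, hQ, hM]
    rw [Function.iterate_add_apply F n0 (J j), hV2]
  rw [h2, map_smul, Prod.smul_fst, hV0, smul_zero]

end Pool.Agent.H53.HN
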