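import Pool.Agent.H53.HN.Cross
import Pool.Agent.H53.HN.Trans
import Pool.Agent.H53.HN.Wset
import Pool.Agent.H53.HN.Tan
import Pool.Agent.H53.HN.SadEx
import Pool.Agent.H53.HN.Shift
import Pool.Agent.H53.HN.RotEx

/-! # Saddles with unbounded manifolds are homoclinically related (helper53, folder HN) -/

set_option autoImplicit false

namespace Pool.Agent.H53.HN

open Filter Topology

/-- A transversal intersection of the curves gives the relation TI. -/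
theorem ti_of_curves {c b : ℝ} {N : ℕ} (hN : 0 < N) {p q : ℝ × ℝ} {μ ν μ' ν' : ℝ}
    {U S U' S' : ℂ → ℂ × ℂ}
    (hp : IsSad (fC c b)^[N] (gC c b)^[N] p μ ν U S)
    (hq : IsSad (fC c b)^[N] (gC c b)^[N] q μ' ν' U' S') {t s : ℝ}
    (hts : U' (t : ℂ) = S (s : ℂ)) (hd : det2 (deriv U' (t : ℂ)) (deriv S (s : ℂ)) ≠ 0) :
    TI c b q p := by
  refine ⟨rp (U' (t : ℂ)), wu_mem hN hq t, ?_, rp (deriv S (s : ℂ)), rp (deriv U' (t : ℂ)),
    ?_, ?_, tan_U hN hq t⟩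
  · rw [hts]; exact ws_mem hN hp s
  · intro h0
    apply hd
    rw [det2_swap, det_rp (real_dV hp.dS hp.cS s) (real_dV hq.dU hq.cU t), h0]; simp
  · rw [hts]; exact tan_S hN hp s

theorem ti_self {c b : ℝ} (hb : b ≠ 0) {p : ℝ × ℝ} {a e : ℝ} {v w : ℝ × ℝ}
    (hp : IsExp c b p a e v w) {M : ℕ} (hM : 0 < M) (hpM : (fR c b)^[M] p = p) :
    TI c b p p := by
  obtain ⟨U, S, h⟩ := sad_ex hb hp hM hpM
  refine ti_of_curves (t := 0) (s := 0) (by omega) h h ?_ ?_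
  · simp [h.U0, h.S0]
  · simpa using h.li

theorem iter_fix {c b : ℝ} {M : ℕ} {p : ℝ × ℝ} (h : (fR c b)^[M] p = p) (i : ℕ) :
    (fR c b)^[M] ((fR c b)^[i] p) = (fR c b)^[i] p := by
  rw [← Function.iterate_add_apply, Nat.add_comm, Function.iterate_add_apply, h]

theorem iter_fix_mul {c b : ℝ} {M : ℕ} {p : ℝ × ℝ} (h : (fR c b)^[M] p = p) (k : ℕ) :
    (fR c b)^[M * k] p = p := by
  induction k with
  | zero => rfl
  | succ k ih => rw [Nat.mul_succ, Function.iterate_add_apply, h, ih]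

theorem rel_core {c b : ℝ} (hb : b ≠ 0) {p q : ℝ × ℝ} {a e a' e' : ℝ} {v w v' w' : ℝ × ℝ}
    (hp : IsExp c b p a e v w) (hq : IsExp c b q a' e' v' w') {M : ℕ} (hM : 0 < M)
    (hpM : (fR c b)^[M] p = p) (hqM : (fR c b)^[M] q = q)
    (h2p : (fR c b)^[2] p ≠ p) (h2q : (fR c b)^[2] q ≠ q)
    (sp : ¬ Bornology.IsBounded (Ws c b p)) (up : ¬ Bornology.IsBounded (Wu c b p))
    (sq : ¬ Bornology.IsBounded (Ws c b q)) (uq : ¬ Bornology.IsBounded (Wu c b q))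
    (horb : ∀ i j : ℕ, (fR c b)^[i] p ≠ (fR c b)^[j] q) :
    ∃ k : ℕ, TI c b p ((fR c b)^[k] q) ∧ TI c b ((fR c b)^[k] q) p := by
  have hN : 0 < 2 * M := by omega
  have hpN : (fR c b)^[2 * M] p = p := by rw [Nat.mul_comm]; exact iter_fix_mul hpM 2
  have hqN : (fR c b)^[2 * M] q = q := by rw [Nat.mul_comm]; exact iter_fix_mul hqM 2
  obtain ⟨h, o, d, R0, hR0, hdvd, hrot, hk⟩ := rot_ex (c := c) hb hN ⟨M, rfl⟩ ⟨p, hpN, h2p⟩
  obtain ⟨i, hi, κ, hκ, hio, hsum⟩ := hk p hpN h2p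
  obtain ⟨j, hj, κ', hκ', hjo, hsum'⟩ := hk q hqN h2q
  obtain ⟨R1, hR1, hsec⟩ := sec_ex c hb
  obtain ⟨n, hn⟩ := hdvd
  set R : ℝ := max (max R0 R1) (‖o‖ + 1) with hRdef
  have H := hrot R ((le_max_left _ _).trans (le_max_left _ _))
  have hs := hsec R ((le_max_right _ _).trans (le_max_left _ _))
  have hoR : ‖o‖ < R := lt_of_lt_of_le (by linarith) (le_max_right _ _)
  have hn0 : 0 < n := by
    rcases Nat.eq_zero_or_pos n with h0 | h0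
    · rw [h0] at hn; omega
    · exact h0
  have hNh : 2 * M / h = n := by rw [hn]; exact Nat.mul_div_cancel_left n H.h0
  rw [hNh] at hsum hsum'
  obtain ⟨v1, w1, hp1⟩ := exp_shift hb hp i
  obtain ⟨v2, w2, hq1⟩ := exp_shift hb hq j
  obtain ⟨U, S, hpS⟩ := sad_ex hb hp1 hM (iter_fix hpM i)
  obtain ⟨U', S', hqS⟩ := sad_ex hb hq1 hM (iter_fix hqM j)
  obtain ⟨χ1, r1, C1, hc1⟩ := chart_ex hpS
  obtain ⟨χ2, r2, C2, hc2⟩ := chart_ex hpS.symm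
  obtain ⟨χ3, r3, C3, hc3⟩ := chart_ex hqS
  obtain ⟨χ4, r4, C4, hc4⟩ := chart_ex hqS.symm
  have uS : ¬ ∃ K : ℝ, ∀ t : ℝ, ‖S (t : ℂ)‖ ≤ K := fun hK =>
    sp (bdd_shift_s hb (bdd_ws hN hpS hK))
  have uU : ¬ ∃ K : ℝ, ∀ t : ℝ, ‖U (t : ℂ)‖ ≤ K := fun hK =>
    up (bdd_shift_u hb (bdd_wu hN hpS hK))
  have uS' : ¬ ∃ K : ℝ, ∀ t : ℝ, ‖S' (t : ℂ)‖ ≤ K := fun hK =>
    sq (bdd_shift_s hb (bdd_ws hN hqS hK))
  have uU' : ¬ ∃ K : ℝ, ∀ t : ℝ, ‖U' (t : ℂ)‖ ≤ K := fun hK =>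
    uq (bdd_shift_u hb (bdd_wu hN hqS hK))
  have hne : (fR c b)^[i] p ≠ (fR c b)^[j] q := horb i j
  obtain ⟨t1, s1, ht1, hs1, hX1⟩ := cross hb hn hn0 H hs hoR hpS hc1 hqS hc4 hio hjo hκ hκ'
    hsum hsum' uS uU'
  obtain ⟨t2, s2, ht2, hs2, hX2⟩ := cross hb hn hn0 H hs hoR hpS hc1 hpS hc2 hio hio hκ hκ
    hsum hsum uS uU
  obtain ⟨t3, s3, ht3, hs3, hX3⟩ := cross hb hn hn0 H hs hoR hqS hc3 hpS hc2 hjo hio hκ' hκ
    hsum' hsum uS' uU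
  obtain ⟨t4, s4, ht4, hs4, hX4⟩ := cross hb hn hn0 H hs hoR hqS hc3 hqS hc4 hjo hjo hκ' hκ'
    hsum' hsum' uS' uU'
  obtain ⟨x, y, hxy, hd⟩ := trans hpS hc1 hqS.dU hqS.cU
    (fun x y => hqS.disjU hpS hne.symm x y) hX1 ht2 hX2
  obtain ⟨x', y', hxy', hd'⟩ := trans hqS hc3 hpS.dU hpS.cU
    (fun x y => hpS.disjU hqS hne x y) hX3 ht4 hX4
  have T1 : TI c b ((fR c b)^[j] q) ((fR c b)^[i] p) := ti_of_curves hN hpS hqS hxy hd
  have T2 : TI c b ((fR c b)^[i] p) ((fR c b)^[j] q) := ti_of_curves hN hqS hpS hxy' hd'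
  have hfix : (fR c b)^[2 * M - i] ((fR c b)^[i] p) = p := by
    rw [← Function.iterate_add_apply, show 2 * M - i + i = 2 * M by omega, hpN]
  refine ⟨2 * M - i + j, ?_, ?_⟩
  · have := ti_shift hb T2 (2 * M - i)
    rwa [hfix, ← Function.iterate_add_apply] at this
  · have := ti_shift hb T1 (2 * M - i)
    rwa [hfix, ← Function.iterate_add_apply] at this

end Pool.Agent.H53.HN
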