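import Pool.Agent.H53.HN.Basic

/-! # API for saddles (helper53, folder HN) -/

set_option autoImplicit false

namespace Pool.Agent.H53.HN

open Filter Topology

variable {F G : ℂ × ℂ → ℂ × ℂ} {p : ℝ × ℝ} {μ ν : ℝ} {U S : ℂ → ℂ × ℂ}

theorem IsSad.cG (h : IsSad F G p μ ν U S) (z : ℂ × ℂ) : G (cj z) = cj (G z) := by
  have h1 : F (cj (G z)) = cj z := by rw [h.cF, h.FG]
  calc G (cj z) = G (F (cj (G z))) := by rw [h1]
    _ = cj (G z) := h.GF _

theorem IsSad.mu0 (h : IsSad F G p μ ν U S) : 0 < μ := by linarith [h.mu]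

theorem IsSad.muC (h : IsSad F G p μ ν U S) : (μ : ℂ) ≠ 0 := by
  exact_mod_cast h.mu0.ne'

theorem IsSad.nuC (h : IsSad F G p μ ν U S) : (ν : ℂ) ≠ 0 := by
  exact_mod_cast h.nu0.ne'

theorem IsSad.GU (h : IsSad F G p μ ν U S) (t : ℂ) : G (U t) = U (((μ⁻¹ : ℝ) : ℂ) * t) := by
  have : F (U (((μ⁻¹ : ℝ) : ℂ) * t)) = U t := by
    rw [h.eU]; congr 1; push_cast; field_simp [h.muC]
  rw [← this, h.GF]

theorem IsSad.GS (h : IsSad F G p μ ν U S) (t : ℂ) : G (S t) = S (((ν⁻¹ : ℝ) : ℂ) * t) := by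
  have : F (S (((ν⁻¹ : ℝ) : ℂ) * t)) = S t := by
    rw [h.eS]; congr 1; push_cast; field_simp [h.nuC]
  rw [← this, h.GF]

theorem det2_swap (v w : ℂ × ℂ) : det2 w v = - det2 v w := by
  unfold det2; ring

/-- The inverse map has the same saddle, with the two manifolds exchanged. -/
theorem IsSad.symm (h : IsSad F G p μ ν U S) : IsSad G F p ν⁻¹ μ⁻¹ S U where
  FG := h.GF
  GF := h.FG
  aF := h.aG
  aG := h.aF
  cF := h.cG
  mu := (one_lt_inv₀ h.nu0).2 h.nu1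
  nu0 := inv_pos.2 h.mu0
  nu1 := inv_lt_one_of_one_lt₀ h.mu
  dU := h.dS
  dS := h.dU
  U0 := h.S0
  S0 := h.U0
  eU := h.GS
  eS := h.GU
  cU := h.cS
  cS := h.cU
  li := by rw [det2_swap]; exact neg_ne_zero.2 h.li

theorem IsSad.iterU (h : IsSad F G p μ ν U S) (j : ℕ) (t : ℂ) :
    F^[j] (U t) = U (((μ ^ j : ℝ) : ℂ) * t) := by
  induction j generalizing t with
  | zero => simp
  | succ j ih =>
    rw [Function.iterate_succ_apply, h.eU, ih]; congr 1; push_cast; ring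

theorem IsSad.iterS (h : IsSad F G p μ ν U S) (j : ℕ) (t : ℂ) :
    F^[j] (S t) = S (((ν ^ j : ℝ) : ℂ) * t) := by
  induction j generalizing t with
  | zero => simp
  | succ j ih =>
    rw [Function.iterate_succ_apply, h.eS, ih]; congr 1; push_cast; ring

theorem IsSad.iterFG (h : IsSad F G p μ ν U S) (j : ℕ) (z : ℂ × ℂ) : F^[j] (G^[j] z) = z :=
  Function.LeftInverse.iterate h.FG j z

theorem IsSad.iterGF (h : IsSad F G p μ ν U S) (j : ℕ) (z : ℂ × ℂ) : G^[j] (F^[j] z) = z :=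
  Function.LeftInverse.iterate h.GF j z

theorem IsSad.realU (h : IsSad F G p μ ν U S) (t : ℝ) : cj (U (t : ℂ)) = U (t : ℂ) := by
  rw [← h.cU, Complex.conj_ofReal]

theorem IsSad.realS (h : IsSad F G p μ ν U S) (t : ℝ) : cj (S (t : ℂ)) = S (t : ℂ) := by
  rw [← h.cS, Complex.conj_ofReal]

theorem IsSad.dF (h : IsSad F G p μ ν U S) : Differentiable ℂ F := fun z =>
  (h.aF z).differentiableAt

theorem IsSad.dG (h : IsSad F G p μ ν U S) : Differentiable ℂ G := fun z =>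
  (h.aG z).differentiableAt

theorem IsSad.anaU (h : IsSad F G p μ ν U S) (t : ℂ) : AnalyticAt ℂ U t := h.dU.analyticAt t

theorem IsSad.anaS (h : IsSad F G p μ ν U S) (t : ℂ) : AnalyticAt ℂ S t := h.dS.analyticAt t

theorem IsSad.injF (h : IsSad F G p μ ν U S) : Function.Injective F := fun x y e => by
  rw [← h.GF x, ← h.GF y, e]

theorem io_rpV {V : ℂ → ℂ × ℂ} (cV : ∀ t, V (starRingEnd ℂ t) = cj (V t)) (t : ℝ) :
    io (rp (V (t : ℂ))) = V (t : ℂ) :=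
  io_rp (by rw [← cV, Complex.conj_ofReal])

theorem pa_inj {V W : ℂ → ℂ × ℂ} (cV : ∀ t, V (starRingEnd ℂ t) = cj (V t))
    (cW : ∀ t, W (starRingEnd ℂ t) = cj (W t)) {t s : ℝ} (h : pa V t = pa W s) :
    V (t : ℂ) = W (s : ℂ) := by
  rw [← io_rpV cV t, ← io_rpV cW s, en_injective h]

theorem continuous_pa {V : ℂ → ℂ × ℂ} (hV : Continuous V) : Continuous (pa V) := by
  unfold pa
  exact continuous_en.comp (continuous_rp.comp (hV.comp Complex.continuous_ofReal))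

/-- The real dynamics along a real parametrisation. -/
theorem rp_iter {c b : ℝ} {V : ℂ → ℂ × ℂ} (cV : ∀ t, V (starRingEnd ℂ t) = cj (V t)) (t : ℝ)
    (m : ℕ) : io ((fR c b)^[m] (rp (V (t : ℂ)))) = (fC c b)^[m] (V (t : ℂ)) := by
  rw [← io_iter_f, io_rpV cV]

theorem rp_iter_g {c b : ℝ} {V : ℂ → ℂ × ℂ} (cV : ∀ t, V (starRingEnd ℂ t) = cj (V t)) (t : ℝ)
    (m : ℕ) : io ((gR c b)^[m] (rp (V (t : ℂ)))) = (gC c b)^[m] (V (t : ℂ)) := by
  rw [← io_iter_g, io_rpV cV]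

end Pool.Agent.H53.HN
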