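import Pool.Agent.H53.HN.RotK
import Pool.Agent.H53.HN.Lift
import Pool.Agent.H53.HN.SadApi
import Pool.Agent.H53.HN.Sec

/-! # The angle along an invariant curve (helper53, folder HN)

PROOF of `rot_angle`. f = fR c b, f^[N] = (f^[h])^[n]. For real t the point z = rp (V t) is not o, V t = io z, V (λ t) = (fC)^[N] (V t) = io (f^[N] z), so rp (V (λ t)) = (f^[h])^[n] z.
 By `rot_orbit` (j = n): en (f^[N] z) - en o = ρ exp(I (arg(en z - en o) + S(t))), S(t) = sum over range n of d ((f^[h])^[i] z). Since en z - en o = |..| exp(I Θ t), Θ t and arg(en z - en o) differ by an integer multiple of 2 pi, so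
 pa V (λ t) - en o = ρ' exp(I (Θ t + S(t))), ρ' > 0. Hence E(t) := Θ(λ t) - Θ t - S(t) is an integer multiple of 2 pi for every t. E is continuous in t: d is continuous off o (H.cont), (f^[h])^[i] z is not o (`rot_ne`), z depends continuously on t.
 So E is constant (connectedness of the line), and E(0) = - S(0) = - 2 pi κ.
PROOF of `tel_P`: z in Np R: all iterates are in Np R (hs.fNp), in particular (f^[h])^[j] z; H.argP at each; telescoping sum (`Finset.sum_range_sub`).
PROOF of `tel_M`: (f^[h])^[n] z in Nm b R: for i <= h n, f^[i] z = g^[h n - i] (f^[h n] z) is in Nm b R (hs.gNm, `iter_gR_fR`), H.argM at each (f^[h])^[j] z, j < n; telescoping.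
-/

set_option autoImplicit false

namespace Pool.Agent.H53.HN

theorem rot_angle {c b : ℝ} (hb : b ≠ 0) {h n N : ℕ} (hN : N = h * n) {R : ℝ} {o : ℝ × ℝ}
    {d : ℝ × ℝ → ℝ} (H : IsRot c b h R o d) {V : ℂ → ℂ × ℂ} (hV : Continuous V)
    (cV : ∀ t, V (starRingEnd ℂ t) = cj (V t)) {l : ℝ}
    (eV : ∀ t, (fC c b)^[N] (V t) = V ((l : ℂ) * t))
    (hVo : ∀ t : ℝ, rp (V (t : ℂ)) ≠ o) {κ : ℤ}
    (hκ : ∑ j ∈ Finset.range n, d (((fR c b)^[h])^[j] (rp (V 0))) = 2 * Real.pi * κ)
    {Θ : ℝ → ℝ} (hΘ : Continuous Θ)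
    (hrep : ∀ t, pa V t - en o = (‖pa V t - en o‖ : ℂ) * Complex.exp ((Θ t : ℂ) * Complex.I))
    (t : ℝ) :
    Θ (l * t) = Θ t + ∑ j ∈ Finset.range n, d (((fR c b)^[h])^[j] (rp (V (t : ℂ)))) -
      2 * Real.pi * κ := by
  have hN' : ∀ t : ℝ, ((fR c b)^[h])^[n] (rp (V (t : ℂ))) = rp (V ((l * t : ℝ) : ℂ)) := by
    intro t
    rw [← Function.iterate_mul, ← hN]
    apply io_injective
    rw [rp_iter cV, eV, io_rpV cV]
    congr 1
    push_cast
    rfl
  set Sg : ℝ → ℝ := fun t => ∑ j ∈ Finset.range n, d (((fR c b)^[h])^[j] (rp (V (t : ℂ)))) with hSg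
  have key : ∀ t, ∃ k : ℤ, Θ (l * t) - Θ t - Sg t = 2 * Real.pi * k := by
    intro t
    obtain ⟨ρ, hρ, h1⟩ := rot_orbit hb H (hVo t) n
    rw [hN' t] at h1
    have h2 := hrep (l * t)
    have h3 := hrep t
    have h4 : (‖pa V t - en o‖ : ℂ) ≠ 0 := by
      have : pa V t - en o ≠ 0 := sub_ne_zero.2 fun h => hVo t (en_injective h)
      exact_mod_cast norm_ne_zero_iff.2 this
    have h5 : Complex.exp ((Complex.arg (pa V t - en o) : ℂ) * Complex.I) =
        Complex.exp ((Θ t : ℂ) * Complex.I) := by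
      have h6 := Complex.norm_mul_exp_arg_mul_I (pa V t - en o)
      exact mul_left_cancel₀ h4 (h6.trans h3)
    have h7 : pa V (l * t) - en o = (ρ : ℂ) *
        Complex.exp (((Complex.arg (pa V t - en o) + Sg t : ℝ) : ℂ) * Complex.I) := h1
    have h8 : ‖pa V (l * t) - en o‖ = ρ := by
      rw [h7, norm_mul, Complex.norm_exp_ofReal_mul_I, mul_one, Complex.norm_real,
        Real.norm_of_nonneg hρ.le]
    rw [h8] at h2
    have hρ' : (ρ : ℂ) ≠ 0 := by exact_mod_cast hρ.ne'
    have h9 : Complex.exp (((Complex.arg (pa V t - en o) + Sg t : ℝ) : ℂ) * Complex.I) =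
        Complex.exp ((Θ (l * t) : ℂ) * Complex.I) :=
      mul_left_cancel₀ hρ' (h7.symm.trans h2)
    rw [Complex.ofReal_add, add_mul, Complex.exp_add, h5, ← Complex.exp_add] at h9
    have h10 : Complex.exp ((((Θ (l * t) - Θ t - Sg t : ℝ) : ℂ)) * Complex.I) = 1 := by
      have h11 : (((Θ (l * t) - Θ t - Sg t : ℝ) : ℂ)) * Complex.I =
          (Θ (l * t) : ℂ) * Complex.I - ((Θ t : ℂ) * Complex.I + (Sg t : ℂ) * Complex.I) := by
        push_cast; ring
      rw [h11, Complex.exp_sub, h9, div_self (Complex.exp_ne_zero _)]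
    rw [Complex.exp_eq_one_iff] at h10
    obtain ⟨k, hk⟩ := h10
    refine ⟨k, ?_⟩
    have h12 : (((Θ (l * t) - Θ t - Sg t : ℝ) : ℂ)) = ((2 * Real.pi * k : ℝ) : ℂ) := by
      have h13 : (((Θ (l * t) - Θ t - Sg t : ℝ) : ℂ)) * Complex.I =
          ((2 * Real.pi * k : ℝ) : ℂ) * Complex.I := by
        rw [hk]; push_cast; ring
      exact mul_right_cancel₀ Complex.I_ne_zero h13
    exact_mod_cast h12
  have hcont : Continuous fun t => Θ (l * t) - Θ t - Sg t := by
    refine ((hΘ.comp (continuous_const.mul continuous_id)).sub hΘ).sub ?_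
    refine continuous_finsetSum _ fun j _ => ?_
    refine H.cont.comp_continuous ?_ ?_
    · exact (((continuous_fR c b).iterate h).iterate j).comp
        (continuous_rp.comp (hV.comp Complex.continuous_ofReal))
    · intro t
      exact rot_ne hb H (hVo t) j
  choose k hk using key
  have hpi : (2 * Real.pi : ℝ) ≠ 0 := by positivity
  have hkc : Continuous k := by
    rw [Int.isClosedEmbedding_coe_real.isInducing.continuous_iff]
    have h1 : ((↑) : ℤ → ℝ) ∘ k = fun t => (Θ (l * t) - Θ t - Sg t) / (2 * Real.pi) := by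
      funext t
      show (k t : ℝ) = _
      rw [hk t, mul_div_cancel_left₀ _ hpi]
    rw [h1]
    exact hcont.div_const _
  have hconst : k t = k 0 := PreconnectedSpace.constant inferInstance hkc
  have h0 := hk 0
  have hS0 : Sg 0 = 2 * Real.pi * κ := by
    rw [hSg]
    simp only [Complex.ofReal_zero]
    exact hκ
  rw [mul_zero, hS0] at h0
  have ht := hk t
  rw [hconst] at ht
  have h14 : Θ (l * t) - Θ t - Sg t = - (2 * Real.pi * κ) := by
    rw [ht, ← h0]; ring
  show Θ (l * t) = Θ t + Sg t - 2 * Real.pi * κ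
  linarith

theorem tel_P {c b : ℝ} {h : ℕ} {R : ℝ} {o : ℝ × ℝ} {d : ℝ × ℝ → ℝ}
    (H : IsRot c b h R o d) (hs : IsSec c b R) {z : ℝ × ℝ} (hz : z ∈ Np R) (n : ℕ) :
    ∑ j ∈ Finset.range n, d (((fR c b)^[h])^[j] z) =
      Complex.arg (en (((fR c b)^[h])^[n] z) - en o) - Complex.arg (en z - en o) := by
  have hmem : ∀ j : ℕ, ((fR c b)^[h])^[j] z ∈ Np R := fun j =>
    (show Set.MapsTo ((fR c b)^[h]) (Np R) (Np R) from
      (show Set.MapsTo (fR c b) (Np R) (Np R) from fun z hz => hs.fNp z hz).iterate h).iterate j hz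
  induction n with
  | zero => simp
  | succ n ih =>
    rw [Finset.sum_range_succ, ih, Function.iterate_succ_apply', H.argP _ (hmem n)]
    ring

theorem tel_M {c b : ℝ} (hb : b ≠ 0) {h : ℕ} {R : ℝ} {o : ℝ × ℝ} {d : ℝ × ℝ → ℝ}
    (H : IsRot c b h R o d) (hs : IsSec c b R) {z : ℝ × ℝ} {n : ℕ}
    (hz : ((fR c b)^[h])^[n] z ∈ Nm b R) :
    ∑ j ∈ Finset.range n, d (((fR c b)^[h])^[j] z) =
      Complex.arg (en (((fR c b)^[h])^[n] z) - en o) - Complex.arg (en z - en o) := by
  induction n with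
  | zero => simp
  | succ n ih =>
    have h1 : ((fR c b)^[h])^[n] z ∈ Nm b R := by
      rw [Function.iterate_succ_apply'] at hz
      rw [← iter_gR_fR c hb h (((fR c b)^[h])^[n] z)]
      exact (show Set.MapsTo (gR c b) (Nm b R) (Nm b R) from
        fun z hz => hs.gNm z hz).iterate h hz
    have h2 := ih h1
    rw [Function.iterate_succ_apply'] at hz
    rw [Finset.sum_range_succ, h2, Function.iterate_succ_apply', H.argM _ h1 hz]
    ring

end Pool.Agent.H53.HN
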