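import Pool.Agent.H53.HN.Basic
import Pool.Agent.H53.HN.SeqDefs

/-! # The displacement functions (helper53, folder HN) -/

set_option autoImplicit false

namespace Pool.Agent.H53.HN

/-- Displacement of the lift of fR around the fixed point (m,m), m = xm c b, for b > 0. -/
noncomputable def dPos (c b : ℝ) (z : ℝ × ℝ) : ℝ :=
  Real.pi / 2 + Complex.arg
    ((((fR c b z).1 - xm c b : ℝ) + ((z.1 - xm c b : ℝ) : ℂ) * Complex.I) /
      ((-(z.2 - xm c b) : ℝ) + ((z.1 - xm c b : ℝ) : ℂ) * Complex.I))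

/-- Displacement of the lift of the second iterate around the point (aP,aM) of period two,
for b < 0. -/
noncomputable def dNeg (c b : ℝ) (z : ℝ × ℝ) : ℝ :=
  Complex.arg
    ((((fR c b (fR c b z)).1 - aP c b : ℝ) + (((fR c b z).1 - aM c b : ℝ) : ℂ) * Complex.I) /
      ((z.1 - aP c b : ℝ) + (((fR c b z).1 - aM c b : ℝ) : ℂ) * Complex.I)) -
  Complex.arg
    ((((fR c b z).1 - aM c b : ℝ) + ((z.1 - aP c b : ℝ) : ℂ) * Complex.I) /
      ((z.2 - aM c b : ℝ) + ((z.1 - aP c b : ℝ) : ℂ) * Complex.I))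

end Pool.Agent.H53.HN
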