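import Pool.Agent.H53.HN.RotDefs
import Pool.Agent.H53.HN.Sec
import Pool.Agent.H53.HN.ArgL

/-! # Rotation data for b < 0 (helper53, folder HN)

PROOF. β = -b > 0, a = aP c b, a' = aM c b. From the definitions (D = sqrt(-3(1+b)^2 - 4c), D^2 = -3(1+b)^2-4c): a + a' = -(1+b), a^2 + c = (1+b) a', a'^2 + c = (1+b) a (ring_nf).
 o = (a, a'). f o = (a^2 + c + β a', a) = (a', a), f (f o) = (a'^2 + c + β a, a') = o.
 For z put w = z.1 - a, v = z.2 - a', w' = (f z).1 - a', w'' = (f (f z)).1 - a. Then w' = w (z.1 + a) + β v, w'' = w' ((f z).1 + a') + β w. en z - en o = w + v I, en (f (f z)) - en o = w'' + w' I ((f (f z)).2 = (f z).1).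
 If w = 0 then w' = β v, for z not o: v not 0, w' v > 0. If w' = 0 then w'' = β w; for z not o: w not 0 (otherwise v = 0), w'' w > 0. So `arg_quot` applies to both quotients of dNeg
 (q0 = (w' + w I)/(v + w I), q1 = (w'' + w' I)/(w + w' I)), dNeg = arg q1 - arg q0. cont: q0, q1 continuous off o with values in the slit plane.
 rot: v + w I = I * conj (w + v I), w + w' I = I * conj (w' + w I). With q0 = |q0| exp(I δ0), q1 = |q1| exp(I δ1): w' + w I = q0 I conj(w + v I), so conj(w' + w I) = conj q0 (-I) (w + v I), and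
  w'' + w' I = q1 I conj(w' + w I) = q1 conj q0 (w + v I) = |q0||q1| exp(I(δ1 - δ0)) (w + v I).
 argP: R0 = max of the R0 of `sec_ex` and |a| + |a'| + 1. z in Np R: w, v > 0, f z, f (f z) in Np R so w', w'' > 0. For positive x, y: arg (y + x I) = pi/2 - arg (x + y I). By `arg_quot`
  d = arg(w'' + w' I) - arg(w + w' I) - arg(w' + w I) + arg(v + w I) = arg(w'' + w' I) - (pi/2 - arg(w' + w I)) - arg(w' + w I) + (pi/2 - arg(w + v I)).
 argM: z in Nm b R and f^2 z in Nm b R: f z = g (f^2 z) in Nm b R by `sec_ex`, so w, v, w', w'' < 0 (first coordinates <= -R; v: z.2 <= 2 z.1 <= -2R). For negative x, y: arg (y + x I) = -3pi/2 - arg (x + y I). The same computation.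
-/

set_option autoImplicit false

namespace Pool.Agent.H53.HN

private theorem rn_rel {c b : ℝ} (hD : 0 < -3 * (1 + b) ^ 2 - 4 * c) :
    (aP c b) ^ 2 + c = (1 + b) * aM c b ∧ (aM c b) ^ 2 + c = (1 + b) * aP c b := by
  have h := Real.sq_sqrt hD.le
  unfold aP aM
  constructor
  · linear_combination (1 / 4 : ℝ) * h
  · linear_combination (1 / 4 : ℝ) * h

private theorem rn_w1 {c b : ℝ} (hD : 0 < -3 * (1 + b) ^ 2 - 4 * c) (z : ℝ × ℝ) :
    (fR c b z).1 - aM c b = (z.1 - aP c b) * (z.1 + aP c b) - b * (z.2 - aM c b) := by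
  have h := (rn_rel hD).1
  simp only [fR]
  linear_combination h

private theorem rn_w2 {c b : ℝ} (hD : 0 < -3 * (1 + b) ^ 2 - 4 * c) (z : ℝ × ℝ) :
    (fR c b (fR c b z)).1 - aP c b
      = ((fR c b z).1 - aM c b) * ((fR c b z).1 + aM c b) - b * (z.1 - aP c b) := by
  have h := (rn_rel hD).2
  simp only [fR]
  linear_combination h

private theorem rn_fix {c b : ℝ} (hD : 0 < -3 * (1 + b) ^ 2 - 4 * c) :
    fR c b (fR c b (aP c b, aM c b)) = (aP c b, aM c b) := by
  have h1 := rn_w1 hD (aP c b, aM c b)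
  have h2 := rn_w2 hD (aP c b, aM c b)
  simp only [sub_self, zero_mul, mul_zero] at h1
  rw [h1] at h2
  simp only [sub_self, zero_mul, mul_zero] at h2
  ext
  · show (fR c b (fR c b (aP c b, aM c b))).1 = aP c b
    linarith
  · show (fR c b (aP c b, aM c b)).1 = aM c b
    linarith

private theorem rn_swap_pos {x y : ℝ} (hx : 0 < x) :
    Complex.arg ((y : ℂ) + (x : ℂ) * Complex.I)
      = Real.pi / 2 - Complex.arg ((x : ℂ) + (y : ℂ) * Complex.I) := by
  set z : ℂ := (x : ℂ) + (y : ℂ) * Complex.I with hz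
  have hre : z.re = x := by simp [hz]
  have him : z.im = y := by simp [hz]
  have hz0 : z ≠ 0 := by
    intro h
    rw [h] at hre
    simp at hre
    linarith
  have h1 : ‖z‖ * Real.cos z.arg = x := by rw [Complex.norm_mul_cos_arg, hre]
  have h2 : ‖z‖ * Real.sin z.arg = y := by rw [Complex.norm_mul_sin_arg, him]
  have h3 : -(Real.pi / 2) ≤ z.arg := Complex.neg_pi_div_two_le_arg_iff.2 (Or.inl (by
    rw [hre]; exact hx.le))
  have h4 : z.arg ≤ Real.pi := Complex.arg_le_pi _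
  have h5 := Real.pi_pos
  have h6 := Complex.arg_mul_cos_add_sin_mul_I (norm_pos_iff.2 hz0)
    (θ := Real.pi / 2 - z.arg) ⟨by linarith, by linarith⟩
  have h7 : ((‖z‖ : ℝ) : ℂ) * (Complex.cos ((Real.pi / 2 - z.arg : ℝ) : ℂ)
      + Complex.sin ((Real.pi / 2 - z.arg : ℝ) : ℂ) * Complex.I)
      = (y : ℂ) + (x : ℂ) * Complex.I := by
    rw [← Complex.ofReal_cos, ← Complex.ofReal_sin, Real.cos_pi_div_two_sub,
      Real.sin_pi_div_two_sub, ← h1, ← h2]
    push_cast
    ring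
  rw [h7] at h6
  exact h6

private theorem rn_swap_neg {x y : ℝ} (hx : x < 0) (hy : y < 0) :
    Complex.arg ((y : ℂ) + (x : ℂ) * Complex.I)
      = -(3 * Real.pi / 2) - Complex.arg ((x : ℂ) + (y : ℂ) * Complex.I) := by
  set z : ℂ := (x : ℂ) + (y : ℂ) * Complex.I with hz
  have hre : z.re = x := by simp [hz]
  have him : z.im = y := by simp [hz]
  have hz0 : z ≠ 0 := by
    intro h
    rw [h] at hre
    simp at hre
    linarith
  have h1 : ‖z‖ * Real.cos z.arg = x := by rw [Complex.norm_mul_cos_arg, hre]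
  have h2 : ‖z‖ * Real.sin z.arg = y := by rw [Complex.norm_mul_sin_arg, him]
  have h3 : z.arg < -(Real.pi / 2) := by
    by_contra hcon
    push Not at hcon
    rcases Complex.neg_pi_div_two_le_arg_iff.1 hcon with h | h
    · rw [hre] at h; linarith
    · rw [him] at h; linarith
  have h4 : -Real.pi < z.arg := Complex.neg_pi_lt_arg _
  have h5 := Real.pi_pos
  have h6 := Complex.arg_mul_cos_add_sin_mul_I (norm_pos_iff.2 hz0)
    (θ := -(3 * Real.pi / 2) - z.arg) ⟨by linarith, by linarith⟩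
  have c1 : Real.cos (-(3 * Real.pi / 2) - z.arg) = Real.sin z.arg := by
    have e : -(3 * Real.pi / 2) - z.arg = Real.pi / 2 - z.arg - 2 * Real.pi := by ring
    rw [e, Real.cos_sub_two_pi, Real.cos_pi_div_two_sub]
  have c2 : Real.sin (-(3 * Real.pi / 2) - z.arg) = Real.cos z.arg := by
    have e : -(3 * Real.pi / 2) - z.arg = Real.pi / 2 - z.arg - 2 * Real.pi := by ring
    rw [e, Real.sin_sub_two_pi, Real.sin_pi_div_two_sub]
  have h7 : ((‖z‖ : ℝ) : ℂ) * (Complex.cos ((-(3 * Real.pi / 2) - z.arg : ℝ) : ℂ)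
      + Complex.sin ((-(3 * Real.pi / 2) - z.arg : ℝ) : ℂ) * Complex.I)
      = (y : ℂ) + (x : ℂ) * Complex.I := by
    rw [← Complex.ofReal_cos, ← Complex.ofReal_sin, c1, c2, ← h1, ← h2]
    push_cast
    ring
  rw [h7] at h6
  exact h6

private theorem rn_en (z o : ℝ × ℝ) :
    en z - en o = ((z.1 - o.1 : ℝ) : ℂ) + ((z.2 - o.2 : ℝ) : ℂ) * Complex.I := by
  simp only [en]
  push_cast
  ring

/-- the two conditions of arg_quot -/
private theorem rn_cond {c b : ℝ} (hb : b < 0) (hD : 0 < -3 * (1 + b) ^ 2 - 4 * c)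
    {z : ℝ × ℝ} (hz : z ≠ (aP c b, aM c b)) :
    (z.1 - aP c b ≠ 0 ∨ 0 < ((fR c b z).1 - aM c b) * (z.2 - aM c b)) ∧
    ((fR c b z).1 - aM c b ≠ 0 ∨
      0 < ((fR c b (fR c b z)).1 - aP c b) * (z.1 - aP c b)) ∧
    (z.1 - aP c b ≠ 0 ∨ z.2 - aM c b ≠ 0) ∧
    (z.1 - aP c b ≠ 0 ∨ (fR c b z).1 - aM c b ≠ 0) := by
  have h1 := rn_w1 hD z
  have h2 := rn_w2 hD z
  have hv : z.1 - aP c b = 0 → z.2 - aM c b ≠ 0 := by
    intro h3 h4
    apply hz
    ext
    · show z.1 = aP c b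
      linarith
    · show z.2 = aM c b
      linarith
  have hw : z.1 - aP c b = 0 → (fR c b z).1 - aM c b ≠ 0 := by
    intro h3 h4
    rw [h3, h4, zero_mul, zero_sub] at h1
    have h5 : b * (z.2 - aM c b) = 0 := by linarith
    rcases mul_eq_zero.1 h5 with h6 | h6
    · linarith
    · exact hv h3 h6
  refine ⟨?_, ?_, ?_, ?_⟩
  · by_cases h3 : z.1 - aP c b = 0
    · right
      rw [h1, h3, zero_mul, zero_sub]
      have h4 := hv h3
      have h5 : 0 < (z.2 - aM c b) ^ 2 := by positivity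
      nlinarith
    · exact Or.inl h3
  · by_cases h3 : (fR c b z).1 - aM c b = 0
    · right
      rw [h2, h3, zero_mul, zero_sub]
      have h4 : z.1 - aP c b ≠ 0 := fun h5 => hw h5 h3
      have h5 : 0 < (z.1 - aP c b) ^ 2 := by positivity
      nlinarith
    · exact Or.inl h3
  · by_cases h3 : z.1 - aP c b = 0
    · exact Or.inr (hv h3)
    · exact Or.inl h3
  · by_cases h3 : z.1 - aP c b = 0
    · exact Or.inr (hw h3)
    · exact Or.inl h3

private theorem rn_ne {x y : ℝ} (h : x ≠ 0 ∨ y ≠ 0) : (x : ℂ) + (y : ℂ) * Complex.I ≠ 0 := by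
  intro h0
  have h1 := congrArg Complex.re h0
  have h2 := congrArg Complex.im h0
  simp at h1 h2
  rcases h with h | h
  · exact h h1
  · exact h h2

private theorem rn_argform {x y : ℂ} :
    x * (starRingEnd ℂ) y = ((‖x‖ * ‖y‖ : ℝ) : ℂ) *
      Complex.exp (((Complex.arg x - Complex.arg y : ℝ) : ℂ) * Complex.I) := by
  have h1 := Complex.norm_mul_exp_arg_mul_I x
  have h2 := Complex.norm_mul_exp_arg_mul_I y
  have h3 : (starRingEnd ℂ) y = (‖y‖ : ℂ) * Complex.exp (-(Complex.arg y : ℂ) * Complex.I) := by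
    conv_lhs => rw [← h2]
    rw [map_mul, Complex.conj_ofReal, ← Complex.exp_conj, map_mul, Complex.conj_ofReal,
      Complex.conj_I]
    congr 2
    ring
  rw [h3]
  conv_lhs => rw [← h1]
  have h4 : (((Complex.arg x - Complex.arg y : ℝ) : ℂ) * Complex.I)
      = (Complex.arg x : ℂ) * Complex.I + (-(Complex.arg y : ℂ) * Complex.I) := by
    push_cast
    ring
  rw [h4, Complex.exp_add]
  push_cast
  ring

theorem rot_neg {c b : ℝ} (hb : b < 0) (hD : 0 < -3 * (1 + b) ^ 2 - 4 * c)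
    (ha : 0 < aP c b) (ha' : aM c b < 0) :
    ∃ R0 : ℝ, 0 < R0 ∧ ∀ R, R0 ≤ R → IsRot c b 2 R (aP c b, aM c b) (dNeg c b) := by
  obtain ⟨R1, hR1, hsec⟩ := sec_ex c hb.ne
  refine ⟨max R1 (|aP c b| + |aM c b| + 1), lt_max_of_lt_left hR1, fun R hR => ?_⟩
  have hRs : IsSec c b R := hsec R (le_trans (le_max_left _ _) hR)
  have hRa : |aP c b| + |aM c b| + 1 ≤ R := le_trans (le_max_right _ _) hR
  have e1 := le_abs_self (aP c b)
  have e2 := neg_abs_le (aP c b)
  have e3 := le_abs_self (aM c b)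
  have e4 := neg_abs_le (aM c b)
  have e5 := abs_nonneg (aP c b)
  have e6 := abs_nonneg (aM c b)
  refine ⟨by norm_num, rn_fix hD, ?_, ?_, ?_, ?_⟩
  · -- continuity
    intro z hz
    have hz' : z ≠ (aP c b, aM c b) := hz
    obtain ⟨k1, k2, k3, k4⟩ := rn_cond hb hD hz'
    apply ContinuousAt.continuousWithinAt
    have hfc : Continuous fun z : ℝ × ℝ => (fR c b z).1 := by
      unfold fR
      fun_prop
    have hffc : Continuous fun z : ℝ × ℝ => (fR c b (fR c b z)).1 := by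
      unfold fR
      fun_prop
    have s1 := (arg_quot k2).1
    have s0 := (arg_quot k1).1
    have n1 := rn_ne k4
    have n0 := rn_ne (Or.symm k3)
    unfold dNeg
    apply ContinuousAt.sub
    · refine (Complex.continuousAt_arg s1).comp (f := fun z : ℝ × ℝ =>
        (((fR c b (fR c b z)).1 - aP c b : ℝ) + (((fR c b z).1 - aM c b : ℝ) : ℂ) * Complex.I) /
        ((z.1 - aP c b : ℝ) + (((fR c b z).1 - aM c b : ℝ) : ℂ) * Complex.I)) ?_
      have g1 : ContinuousAt (fun z : ℝ × ℝ => (((fR c b (fR c b z)).1 - aP c b : ℝ) : ℂ)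
        + (((fR c b z).1 - aM c b : ℝ) : ℂ) * Complex.I) z := by fun_prop
      have g2 : ContinuousAt (fun z : ℝ × ℝ => ((z.1 - aP c b : ℝ) : ℂ)
        + (((fR c b z).1 - aM c b : ℝ) : ℂ) * Complex.I) z := by fun_prop
      exact g1.div₀ g2 n1
    · refine (Complex.continuousAt_arg s0).comp (f := fun z : ℝ × ℝ =>
        (((fR c b z).1 - aM c b : ℝ) + ((z.1 - aP c b : ℝ) : ℂ) * Complex.I) /
        ((z.2 - aM c b : ℝ) + ((z.1 - aP c b : ℝ) : ℂ) * Complex.I)) ?_
      have g1 : ContinuousAt (fun z : ℝ × ℝ => (((fR c b z).1 - aM c b : ℝ) : ℂ)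
        + ((z.1 - aP c b : ℝ) : ℂ) * Complex.I) z := by fun_prop
      have g2 : ContinuousAt (fun z : ℝ × ℝ => ((z.2 - aM c b : ℝ) : ℂ)
        + ((z.1 - aP c b : ℝ) : ℂ) * Complex.I) z := by fun_prop
      exact g1.div₀ g2 n0
  · -- rotation
    intro z hz
    obtain ⟨k1, k2, k3, k4⟩ := rn_cond hb hD hz
    set w := z.1 - aP c b with hw
    set v := z.2 - aM c b with hv
    set w' := (fR c b z).1 - aM c b with hw'
    set w'' := (fR c b (fR c b z)).1 - aP c b with hw''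
    set q1 : ℂ := ((w'' : ℂ) + (w' : ℂ) * Complex.I) / ((w : ℂ) + (w' : ℂ) * Complex.I) with hq1
    set q0 : ℂ := ((w' : ℂ) + (w : ℂ) * Complex.I) / ((v : ℂ) + (w : ℂ) * Complex.I) with hq0
    have n1 := rn_ne k4
    have n0 := rn_ne (Or.symm k3)
    have m1 : q1 ≠ 0 := Complex.slitPlane_ne_zero (arg_quot k2).1
    have m0 : q0 ≠ 0 := Complex.slitPlane_ne_zero (arg_quot k1).1
    refine ⟨‖q1‖ * ‖q0‖, mul_pos (norm_pos_iff.2 m1) (norm_pos_iff.2 m0), ?_⟩
    have hd : dNeg c b z = Complex.arg q1 - Complex.arg q0 := rfl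
    rw [hd, ← rn_argform]
    have f1 : en ((fR c b)^[2] z) - en (aP c b, aM c b) = (w'' : ℂ) + (w' : ℂ) * Complex.I :=
      rn_en _ _
    have f2 : en z - en (aP c b, aM c b) = (w : ℂ) + (v : ℂ) * Complex.I := rn_en _ _
    rw [f1, f2]
    have g1 : (w'' : ℂ) + (w' : ℂ) * Complex.I = q1 * ((w : ℂ) + (w' : ℂ) * Complex.I) := by
      rw [hq1, div_mul_cancel₀ _ n1]
    have g0 : (w' : ℂ) + (w : ℂ) * Complex.I = q0 * ((v : ℂ) + (w : ℂ) * Complex.I) := by
      rw [hq0, div_mul_cancel₀ _ n0]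
    have g2 := congrArg (starRingEnd ℂ) g0
    rw [map_mul] at g2
    simp only [map_add, map_mul, Complex.conj_ofReal, Complex.conj_I] at g2
    rw [g1]
    have hI : Complex.I * Complex.I = -1 := Complex.I_mul_I
    have g3 : (w : ℂ) + (w' : ℂ) * Complex.I
        = Complex.I * ((w' : ℂ) + (w : ℂ) * -Complex.I) := by
      linear_combination (w : ℂ) * hI
    rw [g3, g2]
    linear_combination (-q1 * (starRingEnd ℂ) q0 * w) * hI
  · -- the sector Np
    intro z hz
    have hz1 := hRs.fNp z hz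
    have hz2 := hRs.fNp _ hz1
    obtain ⟨a1, a2⟩ := hz
    obtain ⟨b1, b2⟩ := hz1
    obtain ⟨c1, c2⟩ := hz2
    have w0 : 0 < z.1 - aP c b := by linarith
    have v0 : 0 < z.2 - aM c b := by linarith
    have w1 : 0 < (fR c b z).1 - aM c b := by linarith
    have w2 : 0 < (fR c b (fR c b z)).1 - aP c b := by linarith
    have f1 : en ((fR c b)^[2] z) - en (aP c b, aM c b)
        = (((fR c b (fR c b z)).1 - aP c b : ℝ) : ℂ)
          + (((fR c b z).1 - aM c b : ℝ) : ℂ) * Complex.I := rn_en _ _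
    have f2 : en z - en (aP c b, aM c b) = ((z.1 - aP c b : ℝ) : ℂ)
      + ((z.2 - aM c b : ℝ) : ℂ) * Complex.I := rn_en _ _
    rw [f1, f2]
    unfold dNeg
    rw [(arg_quot (Or.inl w1.ne')).2, (arg_quot (Or.inl w0.ne')).2,
      rn_swap_pos (y := z.1 - aP c b) w1, rn_swap_pos (y := z.2 - aM c b) w0]
    ring
  · -- the sector Nm
    intro z hz hz2
    have hz1 : fR c b z ∈ Nm b R := by
      have := hRs.gNm _ hz2
      have e : gR c b ((fR c b)^[2] z) = fR c b z := gR_fR c hb.ne (fR c b z)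
      rwa [e] at this
    obtain ⟨a1, a2⟩ := hz.2 hb
    obtain ⟨b1, b2⟩ := hz1.2 hb
    obtain ⟨c1, c2⟩ := hz2.2 hb
    have c1' : (fR c b (fR c b z)).1 ≤ -R := c1
    have w0 : z.1 - aP c b < 0 := by linarith
    have v0 : z.2 - aM c b < 0 := by linarith
    have w1 : (fR c b z).1 - aM c b < 0 := by linarith
    have w2 : (fR c b (fR c b z)).1 - aP c b < 0 := by linarith
    have f1 : en ((fR c b)^[2] z) - en (aP c b, aM c b)
        = (((fR c b (fR c b z)).1 - aP c b : ℝ) : ℂ)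
          + (((fR c b z).1 - aM c b : ℝ) : ℂ) * Complex.I := rn_en _ _
    have f2 : en z - en (aP c b, aM c b) = ((z.1 - aP c b : ℝ) : ℂ)
      + ((z.2 - aM c b : ℝ) : ℂ) * Complex.I := rn_en _ _
    rw [f1, f2]
    unfold dNeg
    rw [(arg_quot (Or.inl w1.ne)).2, (arg_quot (Or.inl w0.ne)).2,
      rn_swap_neg w1 w0, rn_swap_neg w0 v0]
    ring

end Pool.Agent.H53.HN
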