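import Pool.Agent.H53.HN.RotDefs
import Pool.Agent.H53.HN.SeqSum
import Pool.Agent.H53.HN.Sec
import Pool.Agent.H53.HN.ArgL

/-! # Rotation data for b > 0 (helper53, folder HN)

PROOF. m = xm c b satisfies m^2 + c = (1+b) m (definition, `Real.sq_sqrt` with hd), o = (m,m). Write u = z.1 - m, v = z.2 - m, u' = (f z).1 - m = z.1^2 + c - b z.2 - m. f z - o = (u', u), as complex numbers
 en z - en o = u + v I, en (f z) - en o = u' + u I, and -v + u I = I (u + v I). The number q = (u' + u I)/(-v + u I) is the one in dPos.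
 If u = 0 then u' = -b v, and v is not 0 for z not o, so u' * (-v) = b v^2 > 0. So `arg_quot` applies with s = u, x = u', y = -v for every z not o.
 fix: f o = (m^2 + c - b m, m) = o. cont: q is continuous on the complement of o (denominator nonzero) with values in the slit plane, `Complex.continuousAt_arg`.
 rot: q nonzero, q = |q| exp(I arg q) (`Complex.norm_mul_exp_arg_mul_I`), so u' + u I = q * I * (u + v I) = |q| exp(I (arg q + pi/2)) (u + v I); take rho = |q|.
 argP: choose R0 = max of the R0 of `sec_ex` and |m| + 1. z in Np R: u, v > 0 (z.1 >= 2 z.2 >= z.2 >= R > m), f z in Np R so u' > 0. arg (-v + u I) = pi/2 + arg (u + v I) since the argument of u + v I is in (0, pi/2)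
  (`Complex.arg_mul_I`-type lemma or via the uniqueness of the argument). So d z = pi/2 + arg (u' + u I) - (pi/2 + arg (u + v I)).
 argM: z in Nm b R and f z in Nm b R (b > 0): z.1 >= R, z.2 >= 2 z.1, (f z).1 >= R: again u, v, u' > 0: the same computation.
-/

set_option autoImplicit false

namespace Pool.Agent.H53.HN

theorem xm_eq {c b : ℝ} (hd : 0 ≤ (1 + b) ^ 2 - 4 * c) :
    xm c b ^ 2 + c = (1 + b) * xm c b := by
  have hs := Real.sq_sqrt hd
  unfold xm
  linear_combination (1 / 4) * hs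

theorem exp_half_pi_I : Complex.exp (((Real.pi / 2 : ℝ) : ℂ) * Complex.I) = Complex.I := by
  rw [Complex.exp_mul_I, ← Complex.ofReal_cos, ← Complex.ofReal_sin, Real.cos_pi_div_two,
    Real.sin_pi_div_two]
  simp

theorem rotp_sub (z : ℝ × ℝ) (m : ℝ) :
    en z - en (m, m) = ((z.1 - m : ℝ) : ℂ) + ((z.2 - m : ℝ) : ℂ) * Complex.I := by
  unfold en
  push_cast
  ring

theorem rotp_cond {c b : ℝ} (hb : 0 < b) (hd : 0 ≤ (1 + b) ^ 2 - 4 * c) {z : ℝ × ℝ}
    (hz : z ≠ (xm c b, xm c b)) :
    z.1 - xm c b ≠ 0 ∨ 0 < ((fR c b z).1 - xm c b) * (-(z.2 - xm c b)) := by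
  have hm := xm_eq hd
  by_cases h : z.1 - xm c b = 0
  · right
    have h1 : z.1 = xm c b := sub_eq_zero.1 h
    have h2 : z.2 ≠ xm c b := fun h3 => hz (Prod.ext h1 h3)
    have h3 : (fR c b z).1 - xm c b = - (b * (z.2 - xm c b)) := by
      show z.1 ^ 2 + c - b * z.2 - xm c b = _
      rw [h1]
      linear_combination hm
    rw [h3]
    have h4 : 0 < (z.2 - xm c b) ^ 2 := by
      have : z.2 - xm c b ≠ 0 := sub_ne_zero.2 h2
      positivity
    nlinarith [mul_pos hb h4]
  · left
    exact h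

theorem rotp_I (u v : ℝ) : ((-v : ℝ) : ℂ) + (u : ℂ) * Complex.I =
    Complex.I * ((u : ℂ) + (v : ℂ) * Complex.I) := by
  push_cast
  linear_combination (-(v : ℂ)) * Complex.I_mul_I

theorem rotp_argI {u v : ℝ} (hu : 0 < u) :
    Complex.arg (((-v : ℝ) : ℂ) + (u : ℂ) * Complex.I) =
      Complex.arg ((u : ℂ) + (v : ℂ) * Complex.I) + Real.pi / 2 := by
  have h1 : |Complex.arg ((u : ℂ) + (v : ℂ) * Complex.I)| < Real.pi / 2 := by
    rw [Complex.abs_arg_lt_pi_div_two_iff]
    left
    simpa using hu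
  have h2 := abs_lt.1 h1
  have hne : (u : ℂ) + (v : ℂ) * Complex.I ≠ 0 := by
    intro h
    have := congrArg Complex.re h
    simp at this
    exact hu.ne' this
  rw [rotp_I, Complex.arg_mul Complex.I_ne_zero hne, Complex.arg_I, add_comm]
  rw [Complex.arg_I]
  constructor <;> linarith [h2.1, h2.2, Real.pi_pos]

theorem rotp_arg {c b : ℝ} {z : ℝ × ℝ} (hz : xm c b < z.1) :
    Complex.arg (en (fR c b z) - en (xm c b, xm c b)) =
      Complex.arg (en z - en (xm c b, xm c b)) + dPos c b z := by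
  have hu : 0 < z.1 - xm c b := by linarith
  have h1 := (arg_quot (s := z.1 - xm c b) (x := (fR c b z).1 - xm c b) (y := -(z.2 - xm c b))
    (Or.inl hu.ne')).2
  rw [rotp_sub, rotp_sub]
  have h2 : (fR c b z).2 = z.1 := rfl
  rw [h2]
  unfold dPos
  rw [h1, rotp_argI hu]
  ring

theorem rot_pos {c b : ℝ} (hb : 0 < b) (hd : 0 ≤ (1 + b) ^ 2 - 4 * c) :
    ∃ R0 : ℝ, 0 < R0 ∧ ∀ R, R0 ≤ R → IsRot c b 1 R (xm c b, xm c b) (dPos c b) := by
  refine ⟨|xm c b| + 1, by positivity, fun R hR => ?_⟩
  have hm := xm_eq hd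
  have hmR : xm c b < R := by linarith [le_abs_self (xm c b)]
  have hR0 : 0 < R := by linarith [abs_nonneg (xm c b)]
  have hslit : ∀ z : ℝ × ℝ, z ≠ (xm c b, xm c b) → _ := fun z hz =>
    (arg_quot (s := z.1 - xm c b) (x := (fR c b z).1 - xm c b) (y := -(z.2 - xm c b))
      (rotp_cond hb hd hz)).1
  have hden : ∀ z : ℝ × ℝ, z ≠ (xm c b, xm c b) →
      ((-(z.2 - xm c b) : ℝ) : ℂ) + ((z.1 - xm c b : ℝ) : ℂ) * Complex.I ≠ 0 := by
    intro z hz h0
    have h1 := hslit z hz
    rw [h0, div_zero] at h1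
    exact Complex.slitPlane_ne_zero h1 rfl
  refine ⟨Nat.one_pos, ?_, ?_, ?_, ?_, ?_⟩
  · rw [Function.iterate_one]
    ext
    · show xm c b ^ 2 + c - b * xm c b = xm c b
      linear_combination hm
    · rfl
  · intro z hz
    have hz' : z ≠ (xm c b, xm c b) := hz
    refine ContinuousAt.continuousWithinAt ?_
    unfold dPos
    refine continuousAt_const.add (ContinuousAt.comp (g := Complex.arg)
      (Complex.continuousAt_arg (hslit z hz')) ?_)
    refine ContinuousAt.div ?_ ?_ (hden z hz')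
    · refine Continuous.continuousAt ?_
      have h1 := continuous_fR c b
      exact (Complex.continuous_ofReal.comp ((continuous_fst.comp h1).sub continuous_const)).add
        ((Complex.continuous_ofReal.comp (continuous_fst.sub continuous_const)).mul
          continuous_const)
    · refine Continuous.continuousAt ?_
      exact (Complex.continuous_ofReal.comp (continuous_snd.sub continuous_const).neg).add
        ((Complex.continuous_ofReal.comp (continuous_fst.sub continuous_const)).mul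
          continuous_const)
  · intro z hz
    have h1 := hslit z hz
    have h2 := hden z hz
    set q : ℂ := (((((fR c b z).1 - xm c b : ℝ) : ℂ) + ((z.1 - xm c b : ℝ) : ℂ) * Complex.I) /
      (((-(z.2 - xm c b) : ℝ) : ℂ) + ((z.1 - xm c b : ℝ) : ℂ) * Complex.I)) with hq
    refine ⟨‖q‖, norm_pos_iff.2 (Complex.slitPlane_ne_zero h1), ?_⟩
    rw [Function.iterate_one, rotp_sub, rotp_sub]
    have h3 : (fR c b z).2 = z.1 := rfl
    rw [h3]
    have h4 : dPos c b z = Real.pi / 2 + Complex.arg q := rfl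
    rw [h4, Complex.ofReal_add, add_mul, Complex.exp_add, exp_half_pi_I]
    have h5 := Complex.norm_mul_exp_arg_mul_I q
    have h6 : ((((fR c b z).1 - xm c b : ℝ) : ℂ) + ((z.1 - xm c b : ℝ) : ℂ) * Complex.I) =
        q * (((-(z.2 - xm c b) : ℝ) : ℂ) + ((z.1 - xm c b : ℝ) : ℂ) * Complex.I) := by
      rw [hq, div_mul_cancel₀ _ h2]
    rw [h6, rotp_I]
    calc q * (Complex.I * (((z.1 - xm c b : ℝ) : ℂ) + ((z.2 - xm c b : ℝ) : ℂ) * Complex.I))
        = ((‖q‖ : ℂ) * Complex.exp ((Complex.arg q : ℂ) * Complex.I)) *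
          (Complex.I * (((z.1 - xm c b : ℝ) : ℂ) + ((z.2 - xm c b : ℝ) : ℂ) * Complex.I)) := by
          rw [h5]
      _ = _ := by ring
  · intro z hz
    rw [Function.iterate_one]
    apply rotp_arg
    obtain ⟨h1, h2⟩ := hz
    linarith
  · intro z hz _
    rw [Function.iterate_one]
    apply rotp_arg
    obtain ⟨h1, -⟩ := hz
    have := (h1 hb).1
    linarith

end Pool.Agent.H53.HN
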