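import Pool.Agent.H53.HN.RotDefs
import Pool.Agent.H53.HN.ArgL

/-! # One step of the rotation, b > 0 (helper53, folder HN)

PROOF. m = xm c b, m^2 + c = (1+b) m (hd), u = z.1 - m, v = z.2 - m, u' = (f z).1 - m; if u = 0 then u' = -b v and v is not 0. hz says u = ρ cos T, v = ρ sin T.
 By `arg_quot` (s = u, x = u', y = -v): d := dPos c b z = pi/2 + arg(u' + u I) - arg(-v + u I), and -v + u I = ρ exp(I (T + pi/2)).
 u > 0: cos T > 0 and T in [-pi/2, 3pi/2) give T in (-pi/2, pi/2), so arg(-v + u I) = T + pi/2 (in (0,pi)), T + d = arg(u' + u I) in (0, pi).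
 u = 0: cos T = 0 so T = -pi/2 or T = pi/2. T = pi/2: v > 0, arg(-v) = pi, u' = -b v < 0, arg u' = pi, T + d = pi. T = -pi/2: v < 0, -v > 0, u' > 0, both arguments 0, T + d = 0.
 u < 0: T in (pi/2, 3pi/2), arg(-v + u I) = T + pi/2 - 2 pi, T + d = 2 pi + arg(u' + u I) > pi. If u' >= 0, arg(u' + u I) in [-pi/2, 0) (`Complex.abs_arg_le_pi_div_two_iff` or `Complex.neg_pi_div_two_le_arg_iff`), T + d >= 3pi/2.
-/

set_option autoImplicit false

namespace Pool.Agent.H53.HN

theorem rps_xm {c b : ℝ} (hd : 0 ≤ (1 + b) ^ 2 - 4 * c) :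
    xm c b ^ 2 + c = (1 + b) * xm c b := by
  have hs := Real.sq_sqrt hd
  unfold xm
  linear_combination (1 / 4) * hs

/-- the argument of the denominator -/
theorem rps_arg {ρ T θ : ℝ} (hρ : 0 < ρ) {u v : ℝ} (hu : u = ρ * Real.cos T)
    (hv : v = ρ * Real.sin T) (h1 : Real.cos θ = - Real.sin T) (h2 : Real.sin θ = Real.cos T)
    (hθ : θ ∈ Set.Ioc (-Real.pi) Real.pi) :
    Complex.arg (((-v : ℝ) : ℂ) + (u : ℂ) * Complex.I) = θ := by
  have h3 : (((-v : ℝ) : ℂ) + (u : ℂ) * Complex.I) =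
      (ρ : ℂ) * (Complex.cos θ + Complex.sin θ * Complex.I) := by
    rw [hu, hv, ← Complex.ofReal_cos, ← Complex.ofReal_sin, h1, h2]
    push_cast
    ring
  rw [h3, Complex.arg_mul_cos_add_sin_mul_I hρ hθ]

theorem step_pos {c b : ℝ} (hb : 0 < b) (hd : 0 ≤ (1 + b) ^ 2 - 4 * c) {z : ℝ × ℝ} {ρ T : ℝ}
    (hρ : 0 < ρ) (hz : en z - en (xm c b, xm c b) = (ρ : ℂ) * Complex.exp ((T : ℂ) * Complex.I))
    (h1 : -(Real.pi / 2) ≤ T) (h2 : T < 3 * Real.pi / 2) :
    -(Real.pi / 2) ≤ T + dPos c b z ∧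
      (z.1 < xm c b → xm c b ≤ (fR c b z).1 → 3 * Real.pi / 2 ≤ T + dPos c b z) := by
  have hm := rps_xm hd
  have hpi := Real.pi_pos
  obtain ⟨u, hu⟩ : ∃ u, u = z.1 - xm c b := ⟨_, rfl⟩
  obtain ⟨v, hv⟩ : ∃ v, v = z.2 - xm c b := ⟨_, rfl⟩
  obtain ⟨u', hu'⟩ : ∃ u', u' = (fR c b z).1 - xm c b := ⟨_, rfl⟩
  have hz1 : en z - en (xm c b, xm c b) = (u : ℂ) + (v : ℂ) * Complex.I := by
    rw [hu, hv]
    unfold en
    push_cast
    ring
  rw [hz1, Complex.exp_mul_I, ← Complex.ofReal_cos, ← Complex.ofReal_sin] at hz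
  have hu1 : u = ρ * Real.cos T := by
    have h := congrArg Complex.re hz
    simpa [Complex.cos_ofReal_re] using h
  have hv1 : v = ρ * Real.sin T := by
    have h := congrArg Complex.im hz
    simpa [Complex.sin_ofReal_re] using h
  have hu2 : u' = u ^ 2 + 2 * xm c b * u - b * v := by
    rw [hu', hu, hv]
    show z.1 ^ 2 + c - b * z.2 - xm c b = _
    linear_combination hm
  have hdp : ∀ _ : u ≠ 0 ∨ 0 < u' * (-v), dPos c b z = Real.pi / 2 +
      (Complex.arg ((u' : ℂ) + (u : ℂ) * Complex.I) -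
        Complex.arg (((-v : ℝ) : ℂ) + (u : ℂ) * Complex.I)) := by
    intro h
    rw [← (arg_quot h).2]
    unfold dPos
    rw [hu', hu, hv]
  rcases lt_trichotomy u 0 with h | h | h
  · -- u < 0
    have hc : Real.cos T < 0 := by
      by_contra h3
      push Not at h3
      have : 0 ≤ u := by rw [hu1]; positivity
      linarith
    have hT : Real.pi / 2 < T := by
      by_contra h3
      push Not at h3
      have := Real.cos_nonneg_of_neg_pi_div_two_le_of_le h1 h3
      linarith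
    have harg := rps_arg (θ := T + Real.pi / 2 - 2 * Real.pi) hρ hu1 hv1
      (by rw [Real.cos_sub_two_pi, Real.cos_add_pi_div_two])
      (by rw [Real.sin_sub_two_pi, Real.sin_add_pi_div_two])
      ⟨by linarith, by linarith⟩
    rw [hdp (Or.inl h.ne), harg]
    have h4 := Complex.neg_pi_lt_arg ((u' : ℂ) + (u : ℂ) * Complex.I)
    refine ⟨by linarith, fun _ h6 => ?_⟩
    have h7 : 0 ≤ u' := by rw [hu']; linarith
    have h8 : |Complex.arg ((u' : ℂ) + (u : ℂ) * Complex.I)| ≤ Real.pi / 2 := by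
      rw [Complex.abs_arg_le_pi_div_two_iff]
      simpa using h7
    have h9 := (abs_le.1 h8).1
    linarith
  · -- u = 0
    have hv0 : v ≠ 0 := by
      intro h3
      have h4 : ρ ^ 2 = u ^ 2 + v ^ 2 := by
        rw [hu1, hv1]
        have := Real.sin_sq_add_cos_sq T
        linear_combination (-(ρ ^ 2)) * this
      rw [h, h3] at h4
      have : 0 < ρ ^ 2 := by positivity
      linarith
    have hu3 : u' = - (b * v) := by
      rw [hu2, h]; ring
    have hpos : 0 < u' * (-v) := by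
      rw [hu3]
      have : 0 < v ^ 2 := by positivity
      nlinarith [mul_pos hb this]
    have harg : Complex.arg ((u' : ℂ) + (u : ℂ) * Complex.I) =
        Complex.arg (((-v : ℝ) : ℂ) + (u : ℂ) * Complex.I) := by
      rw [h, hu3]
      have e1 : ((-(b * v) : ℝ) : ℂ) + ((0 : ℝ) : ℂ) * Complex.I = (b : ℂ) * ((-v : ℝ) : ℂ) := by
        push_cast; ring
      have e2 : ((-v : ℝ) : ℂ) + ((0 : ℝ) : ℂ) * Complex.I = ((-v : ℝ) : ℂ) := by
        push_cast; ring
      rw [e1, e2, Complex.arg_real_mul _ hb]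
    rw [hdp (Or.inr hpos), harg]
    refine ⟨by linarith, fun h5 => ?_⟩
    exfalso
    linarith
  · -- u > 0
    have hc : 0 < Real.cos T := by
      by_contra h3
      push Not at h3
      have : u ≤ 0 := by
        rw [hu1]
        exact mul_nonpos_of_nonneg_of_nonpos hρ.le h3
      linarith
    have hT : T < Real.pi / 2 := by
      by_contra h3
      push Not at h3
      have := Real.cos_nonpos_of_pi_div_two_le_of_le h3 (by linarith)
      linarith
    have harg := rps_arg (θ := T + Real.pi / 2) hρ hu1 hv1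
      (by rw [Real.cos_add_pi_div_two])
      (by rw [Real.sin_add_pi_div_two])
      ⟨by linarith, by linarith⟩
    rw [hdp (Or.inl h.ne'), harg]
    have h4 : 0 ≤ Complex.arg ((u' : ℂ) + (u : ℂ) * Complex.I) := by
      rw [Complex.arg_nonneg_iff]
      simpa using h.le
    refine ⟨by linarith, fun h5 => ?_⟩
    exfalso
    linarith

end Pool.Agent.H53.HN
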