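import Pool.Agent.H53.HN.SeqSum

/-! # Positive Jacobian: a nonconstant periodic sequence crosses the smaller fixed point
(helper53, folder HN)

PROOF. m = xm c b, M = 1 + b - m; by `disc_nonneg` m + M = 1 + b, m * M = c, m <= M, and for every t: t^2-(1+b)t+c = (t-m)(t-M).
STEP 1: |x i| <= M. Let i be an index where |x i| is maximal (`per_max` for |x|), K = |x i|:
 K^2 + c = x (i+1) + b * x (i-1) <= (1+b) K, so (K-m)(K-M) <= 0, K <= M (if K > M then K > m and the product is positive).
STEP 2: not all x i >= m. Otherwise all terms (x i - m)(x i - M) <= 0 have sum 0 (`seq_sum`), so x i = m or x i = M for all i in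
 range n, hence for all i. If some x i = M: x (i+1) + b x (i-1) = M^2 + c = (1+b) M and both values <= M, b > 0, so x (i+1) = M;
 so x = M everywhere (`per_all`), x constant, contradiction. So all x i = m, constant, contradiction.
STEP 3: not all x i < m: otherwise every term (x i - m)(x i - M) > 0 (x i - M <= x i - m < 0), the sum over range n (n > 0) is > 0, contradiction.
STEP 4: so there are i with x i < m and j with m <= x j. If x i < m implied x (i+1) < m for all i then all x i < m by `per_all`
 (P i := x i < m), contradiction to STEP 3. So some i has x i < m <= x (i+1).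
-/

set_option autoImplicit false

namespace Pool.Agent.H53.HN

theorem seq_pos {c b : ℝ} (hb : 0 < b) {n : ℕ} {x : ℤ → ℝ} (hx : IsSeq c b n x)
    (hnc : ∃ i, x (i + 1) ≠ x i) :
    ∃ i, x i < xm c b ∧ xm c b ≤ x (i + 1) := by
  have hD := disc_nonneg hx
  obtain ⟨s, hs0, hs2, hsm⟩ : ∃ s : ℝ, 0 ≤ s ∧ s ^ 2 = (1 + b) ^ 2 - 4 * c ∧
      xm c b = ((1 + b) - s) / 2 :=
    ⟨Real.sqrt ((1 + b) ^ 2 - 4 * c), Real.sqrt_nonneg _, Real.sq_sqrt hD, rfl⟩
  obtain ⟨m, hm⟩ : ∃ m, m = xm c b := ⟨_, rfl⟩
  obtain ⟨M, hM⟩ : ∃ M : ℝ, M = ((1 + b) + s) / 2 := ⟨_, rfl⟩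
  rw [← hm] at hsm ⊢
  have h1 : m + M = 1 + b := by rw [hsm, hM]; ring
  have h2 : m * M = c := by
    rw [hsm, hM]
    have : (1 + b - s) / 2 * ((1 + b + s) / 2) = ((1 + b) ^ 2 - s ^ 2) / 4 := by ring
    rw [this, hs2]
    ring
  have hmM : m ≤ M := by rw [hsm, hM]; linarith
  -- step 1
  have hup : ∀ i, x i ≤ M := by
    obtain ⟨i0, hi0⟩ := per_max (x := fun i => |x i|) hx.npos (by
      intro i
      show |x (i + n)| = |x i|
      rw [hx.per])
    have hK : |x i0| ≤ M := by
      by_contra hc
      push Not at hc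
      have e1 := hx.eqn i0
      have e2 : x (i0 + 1) ≤ |x i0| := (le_abs_self _).trans (hi0 _)
      have e3 : x (i0 - 1) ≤ |x i0| := (le_abs_self _).trans (hi0 _)
      have e4 : b * x (i0 - 1) ≤ b * |x i0| := mul_le_mul_of_nonneg_left e3 hb.le
      have e5 : |x i0| ^ 2 = x i0 ^ 2 := sq_abs _
      have e6 : 0 < (|x i0| - m) * (|x i0| - M) := mul_pos (by linarith) (by linarith)
      have e7 : (|x i0| - m) * (|x i0| - M) = |x i0| ^ 2 - (1 + b) * |x i0| + c := by
        rw [← h1, ← h2]
        ring
      rw [e7, e5] at e6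
      linarith
    exact fun i => (le_abs_self _).trans ((hi0 i).trans hK)
  have hsum := seq_sum hx h1 h2
  -- step 2
  have hlow : ∃ i, x i < m := by
    by_contra hc
    push Not at hc
    have h3 := hsum
    rw [Finset.sum_eq_zero_iff_of_nonpos (fun i _ => mul_nonpos_of_nonneg_of_nonpos
      (sub_nonneg.2 (hc _)) (sub_nonpos.2 (hup _)))] at h3
    have h4 : ∀ i, x i = m ∨ x i = M := by
      intro i
      have hn : (0 : ℤ) < n := by exact_mod_cast hx.npos
      have k0 : 0 ≤ i % (n : ℤ) := Int.emod_nonneg _ hn.ne'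
      have k1 : i % (n : ℤ) < n := Int.emod_lt_of_pos _ hn
      rw [← per_emod hx.per i]
      have k2 : i % (n : ℤ) = ((i % (n : ℤ)).toNat : ℤ) := (Int.toNat_of_nonneg k0).symm
      rw [k2]
      have k3 := h3 (i % (n : ℤ)).toNat (by
        rw [Finset.mem_range]
        omega)
      rcases mul_eq_zero.1 k3 with k4 | k4
      · left; linarith
      · right; linarith
    obtain ⟨i0, hi0⟩ := hnc
    by_cases hex : ∃ i, x i = M
    · obtain ⟨i, hi⟩ := hex
      have hall : ∀ j, x j = M := fun j => per_all (P := fun i => x i = M) hx.npos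
        (fun i h => by rw [← hx.per]; exact h) (fun i h => by
          have e1 := hx.eqn i
          have e2 := hup (i - 1)
          have e3 := hup (i + 1)
          have e4 : b * x (i - 1) ≤ b * M := mul_le_mul_of_nonneg_left e2 hb.le
          have e5 : M ^ 2 + c = (1 + b) * M := by
            rw [← h1, ← h2]
            ring
          rw [h] at e1
          show x (i + 1) = M
          apply le_antisymm e3
          linarith) hi j
      exact hi0 (by rw [hall, hall])
    · push Not at hex
      have hall : ∀ j, x j = m := fun j => (h4 j).resolve_right (hex j)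
      exact hi0 (by rw [hall, hall])
  -- step 3
  have hhigh : ∃ i, m ≤ x i := by
    by_contra hc
    push Not at hc
    have hpos : 0 < ∑ i ∈ Finset.range n, (x (i : ℤ) - m) * (x (i : ℤ) - M) := by
      apply Finset.sum_pos
      · intro i _
        have := hc (i : ℤ)
        exact mul_pos_of_neg_of_neg (by linarith) (by linarith)
      · exact ⟨0, Finset.mem_range.2 hx.npos⟩
    linarith
  -- step 4
  by_contra hc
  push Not at hc
  obtain ⟨i, hi⟩ := hlow
  obtain ⟨j, hj⟩ := hhigh
  have hall := per_all (P := fun i => x i < m) hx.npos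
    (fun i h => by rw [← hx.per]; exact h) (fun i h => hc i h) hi j
  have : x j < m := hall
  linarith

end Pool.Agent.H53.HN
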