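import Pool.Agent.H53.HN.RotPos
import Pool.Agent.H53.HN.RotPosS
import Pool.Agent.H53.HN.RotK
import Pool.Agent.H53.HN.OrbSeq
import Pool.Agent.H53.HN.SeqPos

/-! # Positive rotation of periodic points, b > 0 (helper53, folder HN)

PROOF. `orb_seq` gives x with IsSeq c b n x and f^[k] p = (x k, x (k-1)). x is not constant: otherwise f p = (x 1, x 0) = (x 0, x (-1)) = p. `disc_nonneg` gives the discriminant; `seq_pos` gives an integer i with
 x i < m <= x (i+1), m = xm c b; replacing i by i % n (`per_emod` or `per_mul`) we may take i = j a natural number < n. p is not (m,m) because (m,m) is fixed (`rot_pos`, field fix, h = 1) and p is not.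
 H := IsRot c b 1 R0 (m,m) (dPos c b) from `rot_pos`; (f^[1])^[j] = f^[j] (`Function.iterate_one`). `rot_kappa` gives κ with S n = 2 pi κ, S j = sum over range j of dPos (f^[i] p).
 T j := arg (en p - en o) + S j. By `rot_orbit` en (f^[j] p) - en o = ρ exp(I T j). T (j+1) = T j + dPos (f^[j] p).
 `level_lo`: hstep from `step_pos` applied to T j - 2 pi l (the exponential has period 2 pi I); hj: at the index j above let l be the integer with T j in [-pi/2 + 2 pi l, 3 pi/2 + 2 pi l) and apply the second part of `step_pos`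
 ((f^[j] p).1 = x j < m, (f (f^[j] p)).1 = x (j+1) >= m). So κ >= 1.
-/

set_option autoImplicit false

namespace Pool.Agent.H53.HN

theorem rot_pos_k {c b : ℝ} (hb : 0 < b) {n : ℕ} (hn : 0 < n) {p : ℝ × ℝ}
    (hp : (fR c b)^[n] p = p) (h1 : fR c b p ≠ p) :
    0 ≤ (1 + b) ^ 2 - 4 * c ∧ p ≠ (xm c b, xm c b) ∧
      ∃ κ : ℤ, 1 ≤ κ ∧
        ∑ j ∈ Finset.range n, dPos c b ((fR c b)^[j] p) = 2 * Real.pi * κ := by
  obtain ⟨x, hx, hxk⟩ := orb_seq hn hp
  have hnc : ∃ i, x (i + 1) ≠ x i := by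
    by_contra hc
    push Not at hc
    have e0 := hxk 0
    have e1 := hxk 1
    rw [Function.iterate_one] at e1
    have e2 : p = (x ((0 : ℕ) : ℤ), x (((0 : ℕ) : ℤ) - 1)) := e0
    apply h1
    rw [e1, e2]
    have a1 : x ((1 : ℕ) : ℤ) = x ((0 : ℕ) : ℤ) := by
      have := hc 0
      simpa using this
    have a2 : x (((1 : ℕ) : ℤ) - 1) = x (((0 : ℕ) : ℤ) - 1) := by
      have := hc (-1)
      simpa using this
    rw [a1, a2]
  have hd := disc_nonneg hx
  obtain ⟨i, hi1, hi2⟩ := seq_pos hb hx hnc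
  obtain ⟨R0, -, hR⟩ := rot_pos hb hd
  have H := hR R0 le_rfl
  have hpne : p ≠ (xm c b, xm c b) := by
    intro h
    have h2 := H.fix
    rw [Function.iterate_one, ← h] at h2
    exact h1 h2
  have it1 : (fR c b)^[1] = fR c b := Function.iterate_one _
  obtain ⟨κ, hκ⟩ := rot_kappa hb.ne' H hpne (n := n) (by rw [it1]; exact hp)
  rw [it1] at hκ
  have hn' : (0 : ℤ) < n := by exact_mod_cast hn
  have k0 : 0 ≤ i % (n : ℤ) := Int.emod_nonneg _ hn'.ne'
  have k1 : i % (n : ℤ) < n := Int.emod_lt_of_pos _ hn'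
  obtain ⟨j, hj⟩ : ∃ j : ℕ, (j : ℤ) = i % (n : ℤ) := ⟨(i % (n : ℤ)).toNat, Int.toNat_of_nonneg k0⟩
  have hjn : j < n := by
    rw [← hj] at k1
    exact_mod_cast k1
  have hj1 : x (j : ℤ) < xm c b := by
    rw [hj, per_emod hx.per]
    exact hi1
  have hj2 : xm c b ≤ x ((j : ℤ) + 1) := by
    have h2 := per_mul_int hx.per ((j : ℤ) + 1) (i / n)
    have h3 : (j : ℤ) + 1 + (n : ℤ) * (i / n) = i + 1 := by
      rw [hj]
      have := Int.emod_add_mul_ediv i n
      linarith
    rw [h3] at h2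
    rw [← h2]
    exact hi2
  have hpi := Real.pi_pos
  have hT1 : ∀ k, Complex.arg (en p - en (xm c b, xm c b)) +
      ∑ i ∈ Finset.range (k + 1), dPos c b ((fR c b)^[i] p) =
      Complex.arg (en p - en (xm c b, xm c b)) +
      ∑ i ∈ Finset.range k, dPos c b ((fR c b)^[i] p) + dPos c b ((fR c b)^[k] p) := by
    intro k
    rw [Finset.sum_range_succ]
    ring
  have hstep0 : ∀ (k : ℕ) (l : ℤ),
      -(Real.pi / 2) + 2 * Real.pi * l ≤ Complex.arg (en p - en (xm c b, xm c b)) +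
        ∑ i ∈ Finset.range k, dPos c b ((fR c b)^[i] p) →
      Complex.arg (en p - en (xm c b, xm c b)) +
        ∑ i ∈ Finset.range k, dPos c b ((fR c b)^[i] p) < 3 * Real.pi / 2 + 2 * Real.pi * l →
      (-(Real.pi / 2) ≤ Complex.arg (en p - en (xm c b, xm c b)) +
        ∑ i ∈ Finset.range k, dPos c b ((fR c b)^[i] p) - 2 * Real.pi * l +
          dPos c b ((fR c b)^[k] p) ∧
      (((fR c b)^[k] p).1 < xm c b → xm c b ≤ (fR c b ((fR c b)^[k] p)).1 →
        3 * Real.pi / 2 ≤ Complex.arg (en p - en (xm c b, xm c b)) +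
        ∑ i ∈ Finset.range k, dPos c b ((fR c b)^[i] p) - 2 * Real.pi * l +
          dPos c b ((fR c b)^[k] p))) := by
    intro k l a1 a2
    obtain ⟨ρ, hρ, hz⟩ := rot_orbit hb.ne' H hpne k
    rw [it1] at hz
    refine step_pos hb hd hρ ?_ (by linarith) (by linarith)
    rw [hz]
    congr 1
    rw [Complex.exp_eq_exp_iff_exists_int]
    refine ⟨l, ?_⟩
    push_cast
    ring
  refine ⟨hd, hpne, κ, level_lo (n := n) (T := fun k => Complex.arg (en p - en (xm c b, xm c b)) +
      ∑ i ∈ Finset.range k, dPos c b ((fR c b)^[i] p)) ?_ ?_ ?_, hκ⟩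
  · show Complex.arg (en p - en (xm c b, xm c b)) +
      ∑ i ∈ Finset.range n, dPos c b ((fR c b)^[i] p) = Complex.arg (en p - en (xm c b, xm c b)) +
      ∑ i ∈ Finset.range 0, dPos c b ((fR c b)^[i] p) + 2 * Real.pi * κ
    rw [hκ, Finset.range_zero, Finset.sum_empty, add_zero]
  · intro k _ l a1 a2
    have h2 := (hstep0 k l a1 a2).1
    show -(Real.pi / 2) + 2 * Real.pi * l ≤ Complex.arg (en p - en (xm c b, xm c b)) +
      ∑ i ∈ Finset.range (k + 1), dPos c b ((fR c b)^[i] p)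
    rw [hT1]
    linarith
  · refine ⟨j, hjn, ⌊(Complex.arg (en p - en (xm c b, xm c b)) +
      ∑ i ∈ Finset.range j, dPos c b ((fR c b)^[i] p) + Real.pi / 2) / (2 * Real.pi)⌋, ?_⟩
    have f1 := Int.floor_le ((Complex.arg (en p - en (xm c b, xm c b)) +
      ∑ i ∈ Finset.range j, dPos c b ((fR c b)^[i] p) + Real.pi / 2) / (2 * Real.pi))
    have f2 := Int.lt_floor_add_one ((Complex.arg (en p - en (xm c b, xm c b)) +
      ∑ i ∈ Finset.range j, dPos c b ((fR c b)^[i] p) + Real.pi / 2) / (2 * Real.pi))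
    rw [le_div_iff₀ (by positivity)] at f1
    rw [div_lt_iff₀ (by positivity)] at f2
    set l : ℤ := ⌊(Complex.arg (en p - en (xm c b, xm c b)) +
      ∑ i ∈ Finset.range j, dPos c b ((fR c b)^[i] p) + Real.pi / 2) / (2 * Real.pi)⌋ with hl
    have b1 : -(Real.pi / 2) + 2 * Real.pi * l ≤ Complex.arg (en p - en (xm c b, xm c b)) +
        ∑ i ∈ Finset.range j, dPos c b ((fR c b)^[i] p) := by linarith
    have b2 : Complex.arg (en p - en (xm c b, xm c b)) +
        ∑ i ∈ Finset.range j, dPos c b ((fR c b)^[i] p) < 3 * Real.pi / 2 + 2 * Real.pi * l := by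
      linarith
    refine ⟨b2, ?_⟩
    have e1 := hxk j
    have e2 := hxk (j + 1)
    rw [Function.iterate_succ_apply'] at e2
    have h2 := (hstep0 j l b1 b2).2 (by rw [e1]; exact hj1) (by
      rw [e2]
      have : x (((j + 1 : ℕ) : ℤ)) = x ((j : ℤ) + 1) := by push_cast; rfl
      rw [this]
      exact hj2)
    show 3 * Real.pi / 2 + 2 * Real.pi * l ≤ Complex.arg (en p - en (xm c b, xm c b)) +
      ∑ i ∈ Finset.range (j + 1), dPos c b ((fR c b)^[i] p)
    rw [hT1]
    linarith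

end Pool.Agent.H53.HN
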