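import Pool.Agent.H53.HN.SeqSum

/-! # Case A, step 1: the sequence alternates around the smaller fixed point (helper53, folder HN)

b = -β, 0 < β <= 1, fixed points m <= M, m + M = 1 - β, m * M = c; all x i < a with a + m <= 0, a < M, and x is not
identically m. Then for some j the differences u i := x i - m satisfy u (j+2k) > 0 and u (j+2k+1) < 0 for all integers k.

PROOF. u (i+1) = β u (i-1) + u i * (x i + m) and x i + m < a + m <= 0.
 Not all u i >= 0 (`sum_zero_low` with b = -β, as x i < a < M) and not all u i <= 0 (`sum_zero_high`).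
 If u i <= 0 implied u (i+1) <= 0 for all i, then (`per_all`, starting from an index with u <= 0) all u <= 0, contradiction; so there is j with
 u (j-1) <= 0 < u j. Then u (j+1) = β u (j-1) + u j (x j + m) < 0.
 Whenever u i > 0 > u (i+1): u (i+2) = β u i + u (i+1)(x (i+1) + m) > 0 and then u (i+3) = β u (i+1) + u (i+2)(x (i+2)+m) < 0.
 So P i := (u i > 0 ∧ u (i+1) < 0) persists under i -> i+2, holds at j and is periodic: `per_all2`.
-/

set_option autoImplicit false

namespace Pool.Agent.H53.HN

theorem seq_a1 {c β : ℝ} (hβ0 : 0 < β) (hβ1 : β ≤ 1) {n : ℕ} {x : ℤ → ℝ}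
    (hx : IsSeq c (-β) n x) {m M a : ℝ} (h1 : m + M = 1 - β) (h2 : m * M = c) (hmM : m ≤ M)
    (ham : a + m ≤ 0) (haM : a < M) (hA : ∀ i, x i < a) (hne : ∃ i, x i ≠ m) :
    ∃ j : ℤ, ∀ k : ℤ, m < x (j + 2 * k) ∧ x (j + 2 * k + 1) < m := by
  have hu : ∀ i, x (i + 1) - m = β * (x (i - 1) - m) + (x i - m) * (x i + m) := by
    intro i
    linear_combination hx.eqn i + m * h1 - h2
  have hlow : ∃ i, x i < m := by
    by_contra h
    push Not at h
    obtain ⟨i, hi⟩ := hne
    exact hi (sum_zero_low hx (by linarith) h2 h (fun i => (hA i).trans haM) i)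
  have hhigh : ∃ i, m < x i := by
    by_contra h
    push Not at h
    obtain ⟨i, hi⟩ := hne
    exact hi (sum_zero_high hx (by linarith) h2 hmM h i)
  obtain ⟨i, hi1, hi2⟩ : ∃ i, x i ≤ m ∧ m < x (i + 1) := by
    by_contra h
    push Not at h
    obtain ⟨i, hi⟩ := hlow
    obtain ⟨i', hi'⟩ := hhigh
    have := per_all (P := fun i => x i ≤ m) hx.npos
      (by intro i h; rwa [hx.per] at h) h (i := i) hi.le i'
    exact absurd this (not_le.2 hi')
  have hneg : ∀ i, x i + m < 0 := fun i => by have := hA i; linarith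
  have hstart : m < x (i + 1) ∧ x (i + 1 + 1) < m := by
    refine ⟨hi2, ?_⟩
    have e := hu (i + 1)
    rw [add_sub_cancel_right] at e
    have a1 : β * (x i - m) ≤ 0 := mul_nonpos_of_nonneg_of_nonpos hβ0.le (by linarith)
    have a2 : (x (i + 1) - m) * (x (i + 1) + m) < 0 :=
      mul_neg_of_pos_of_neg (by linarith) (hneg _)
    linarith
  refine ⟨i + 1, fun k => ?_⟩
  refine per_all2 (P := fun i => m < x i ∧ x (i + 1) < m) hx.npos ?_ ?_ hstart k
  · intro i hi
    have e1 : i + (n : ℤ) + 1 = (i + 1) + n := by ring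
    rw [e1, hx.per, hx.per] at hi
    exact hi
  · intro i hi
    have e := hu (i + 1)
    rw [add_sub_cancel_right] at e
    have e2 : i + 1 + 1 = i + 2 := by ring
    rw [e2] at e
    have a1 : 0 < β * (x i - m) := mul_pos hβ0 (by linarith [hi.1])
    have a2 : 0 < (x (i + 1) - m) * (x (i + 1) + m) :=
      mul_pos_of_neg_of_neg (by linarith [hi.2]) (hneg _)
    have b1 : m < x (i + 2) := by linarith
    refine ⟨b1, ?_⟩
    have e' := hu (i + 2)
    have e3 : i + 2 - 1 = i + 1 := by ring
    rw [e3] at e'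
    have a3 : β * (x (i + 1) - m) < 0 := mul_neg_of_pos_of_neg hβ0 (by linarith [hi.2])
    have a4 : (x (i + 2) - m) * (x (i + 2) + m) < 0 :=
      mul_neg_of_pos_of_neg (by linarith) (hneg _)
    linarith

end Pool.Agent.H53.HN
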