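import Pool.Agent.H53.HN.SeqDefs

/-! # Case A, step 2: not all positive places lie in (-a,a) (helper53, folder HN)

b = -β, 0 < β <= 1, a the larger and a' the smaller point of the orbit of period two: a + a' = -(1-β),
(1-β) a = a'^2 + c, (1-β) a' = a^2 + c, 0 < a (so a' < 0). All x i < a, and the places j + 2k (k integer) have -a < x (j+2k). Contradiction.

PROOF. y i := x i - a', z i := x i - a. Identities (from the recursion and the relations for a, a'):
 (E0) y (i+1) = β y (i-1) + (x i ^2 - a^2),   (E1) z (i+1) = β z (i-1) + (x i^2 - a'^2) = β z (i-1) + y i (x i + a').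
 For i = j+2k: x i^2 < a^2, so y (j+2k+1) < β y (j+2k-1) for all k.
 The sequence k -> y (j+2k+1) is periodic; let k0 be an index where it is maximal (`per_max` applied to k -> y (j+2k+1), which has period n).
 With Y = y (j+2k0+1): Y < β y (j+2k0-1) <= β Y. If β = 1: Y < Y, contradiction. If β < 1: (1-β) Y < 0, so Y < 0.
 So y i < 0 at all places i = j+2k+1, i.e. x i < a' < 0, so x i + a' < 0 and y i (x i + a') > 0: by (E1) z (j+2k+2) > β z (j+2k) for all k.
 Let k1 be an index where k -> z (j+2k) is minimal, Z = z (j+2k1) : Z > β z (j+2k1-2) >= β Z, so (1-β) Z > 0, so β < 1 and Z > 0; but z < 0 always (x i < a). Contradiction.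
-/

set_option autoImplicit false

namespace Pool.Agent.H53.HN

theorem seq_a2 {c β : ℝ} (hβ0 : 0 < β) (hβ1 : β ≤ 1) {n : ℕ} {x : ℤ → ℝ}
    (hx : IsSeq c (-β) n x) {a a' : ℝ} (h1 : a + a' = -(1 - β)) (h2 : (1 - β) * a = a' ^ 2 + c)
    (h3 : (1 - β) * a' = a ^ 2 + c) (ha : 0 < a) (hA : ∀ i, x i < a) {j : ℤ}
    (hj : ∀ k : ℤ, -a < x (j + 2 * k)) : False := by
  have hE0 : ∀ i, x (i + 1) - a' = β * (x (i - 1) - a') + (x i ^ 2 - a ^ 2) := by
    intro i
    linear_combination hx.eqn i - h3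
  have hE1 : ∀ i, x (i + 1) - a = β * (x (i - 1) - a) + (x i - a') * (x i + a') := by
    intro i
    linear_combination hx.eqn i - h2
  have hsq : ∀ k : ℤ, x (j + 2 * k) ^ 2 < a ^ 2 := by
    intro k
    have b1 := hj k
    have b2 := hA (j + 2 * k)
    nlinarith
  -- maximum over the odd places
  have hperO : ∀ k : ℤ, x (j + 2 * (k + (n : ℤ)) + 1) = x (j + 2 * k + 1) := by
    intro k
    have e := per_mul_int hx.per (j + 2 * k + 1) 2
    rw [← e]; congr 1; ring
  have hperE : ∀ k : ℤ, x (j + 2 * (k + (n : ℤ))) = x (j + 2 * k) := by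
    intro k
    have e := per_mul_int hx.per (j + 2 * k) 2
    rw [← e]; congr 1; ring
  obtain ⟨k0, hk0⟩ := per_max (x := fun k : ℤ => x (j + 2 * k + 1)) hx.npos hperO
  obtain ⟨k1, hk1⟩ := per_min (x := fun k : ℤ => x (j + 2 * k)) hx.npos hperE
  have hY : x (j + 2 * k0 + 1) - a' < β * (x (j + 2 * k0 + 1) - a') := by
    have e := hE0 (j + 2 * k0)
    have b1 := hsq k0
    have b2 := hk0 (k0 - 1)
    have e2 : j + 2 * (k0 - 1) + 1 = j + 2 * k0 - 1 := by ring
    rw [e2] at b2
    have b3 : β * (x (j + 2 * k0 - 1) - a') ≤ β * (x (j + 2 * k0 + 1) - a') :=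
      mul_le_mul_of_nonneg_left (by linarith) hβ0.le
    linarith
  have hY0 : x (j + 2 * k0 + 1) - a' < 0 := by
    by_contra h
    push Not at h
    nlinarith
  have ha' : a' < 0 := by linarith
  have hZ : β * (x (j + 2 * k1) - a) < x (j + 2 * k1) - a := by
    have e := hE1 (j + 2 * (k1 - 1) + 1)
    have b1 := hk0 (k1 - 1)
    have b2 := hk1 (k1 - 1)
    have e2 : j + 2 * (k1 - 1) + 1 + 1 = j + 2 * k1 := by ring
    rw [add_sub_cancel_right, e2] at e
    have b3 : 0 < (x (j + 2 * (k1 - 1) + 1) - a') * (x (j + 2 * (k1 - 1) + 1) + a') :=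
      mul_pos_of_neg_of_neg (by linarith) (by linarith)
    have b4 : β * (x (j + 2 * k1) - a) ≤ β * (x (j + 2 * (k1 - 1)) - a) :=
      mul_le_mul_of_nonneg_left (by linarith) hβ0.le
    linarith
  have hA1 := hA (j + 2 * k1)
  nlinarith

end Pool.Agent.H53.HN
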