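import Pool.Agent.H53.HN.SeqAlt
import Pool.Agent.H53.HN.SeqA1
import Pool.Agent.H53.HN.SeqA2

/-! # Case A: a periodic sequence below a is constant (helper53, folder HN)

b = -β, 0 < β <= 1. Fixed points m <= M (m + M = 1-β, m M = c); orbit of period two a' < a:
a + a' = -(1-β), (1-β) a = a'^2 + c, (1-β) a' = a^2 + c. If all x i < a then x is identically m.

PROOF. δ := 1-β >= 0. Write E = M - m >= 0, D = a - a' > 0. Then m = (δ-E)/2, a = (D-δ)/2, E^2 = δ^2 - 4c, and from the relations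
 D^2 = -3 δ^2 - 4 c (subtract/add the two relations: a a' = δ^2 + c), so E^2 = D^2 + 4 δ^2. Hence E >= D, E >= 2δ, E > 0, E > 2δ (as D > 0).
 So a + m = (D-E)/2 <= 0; a < M (M - a = (2δ + E - D)/2 > 0: if δ > 0 clear, if δ = 0 then E = D and M - a = 0!).
 ATTENTION: for δ = 0 (β = 1) we have a = M; then `seq_a1` cannot be used with a < M directly. Use it with a replaced by a number a1 with
  all x i < a1 < a = M: a1 = (max of x + a)/2 (`per_max`); a1 + m <= 0 still holds. (In all cases this a1 works: a <= M always; use a1 in all cases.)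
 m < 0 : m = (δ-E)/2 and E > 2δ >= δ. t := -m > 0, 2t = E - δ > δ. Also m < a: a - m = (D + E - 2δ)/2 > 0.
 Suppose x is not identically m. `seq_a1`: j with m < x (j+2k), x (j+2k+1) < m.
 Let A = min of x over the places j+2k (k -> x (j+2k) is periodic, `per_min`), I := A - m > 0, and B = max of x over the places j+2k+1, J := m - B > 0.
 CLAIM: x (j+2k)^2 <= A^2 for all k. If a <= 0: A <= x < a <= 0. If a > 0: by `seq_a2` not all -a < x (j+2k), so A <= -a, and A <= x < a <= -A.
 Recursion in terms of m (m^2 + c = δ m): x (i+1) - m = β (x (i-1) - m) + (x i^2 - m^2).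
 At i = j+2k (so i+1 is a place of the second kind): m - x (i+1) = β (m - x (i-1)) + (m^2 - x i^2) >= β J + (m^2 - A^2). Choose k with x (i+1) = B:
  J >= β J + m^2 - A^2, i.e. δ J >= m^2 - (m+I)^2 = 2 t I - I^2.
 At i = j+2k+1: x (i+1) - m = β (x (i-1) - m) + (x i^2 - m^2), x i <= B < m < 0, x i^2 >= B^2 = (m - J)^2: choose k with x (i+1) = A: I >= β I + (J^2 + 2 t J), i.e. δ I >= 2 t J + J^2.
 If δ = 0: 0 >= 2tJ + J^2 > 0, contradiction. If δ > 0: Ro := a - m > 0, Re := m - a' (> 0: Re = (D + E ... compute m - a' = (2δ - E + D)/2; positivity: from δ Re = 2 t Ro - Ro^2 = Ro (2t - Ro),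
  2t - Ro = E - δ - (D+E-2δ)/2 = (E - D)/2 > 0 as E > D for δ > 0). The relations h1,h2 of `seq_alt` hold for (Ro,Re): (recursion for the orbit of period two: a' - m = β (a' - m) + a^2 - m^2,
  a - m = β (a - m) + a'^2 - m^2). I < Ro since A < a. `seq_alt` gives False.
-/

set_option autoImplicit false

namespace Pool.Agent.H53.HN

theorem seq_a {c β : ℝ} (hβ0 : 0 < β) (hβ1 : β ≤ 1) {n : ℕ} {x : ℤ → ℝ}
    (hx : IsSeq c (-β) n x) {m M a a' : ℝ} (hm1 : m + M = 1 - β) (hm2 : m * M = c)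
    (hmM : m ≤ M) (h1 : a + a' = -(1 - β)) (h2 : (1 - β) * a = a' ^ 2 + c)
    (h3 : (1 - β) * a' = a ^ 2 + c) (haa : a' < a) (hA : ∀ i, x i < a) :
    ∀ i, x i = m := by
  have hδ0 : 0 ≤ 1 - β := by linarith
  have haa' : a * a' = (1 - β) ^ 2 + c := by
    linear_combination h2 + (a' - (1 - β)) * h1
  have hE : (M - m) ^ 2 = (a - a') ^ 2 + 4 * (1 - β) ^ 2 := by
    linear_combination (m + M + (1 - β)) * hm1 - 4 * hm2 - (a + a' - (1 - β)) * h1 + 4 * haa'
  have hD0 : 0 < a - a' := by linarith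
  have hE0 : 0 ≤ M - m := by linarith
  have hED : a - a' ≤ M - m := by
    by_contra h
    push Not at h
    have := mul_pos (sub_pos.2 h) (show 0 < (a - a') + (M - m) by linarith)
    nlinarith [sq_nonneg (1 - β)]
  have hE2 : 2 * (1 - β) < M - m := by
    by_contra h
    push Not at h
    have h5 : (M - m) ^ 2 ≤ (2 * (1 - β)) ^ 2 := pow_le_pow_left₀ hE0 h 2
    have h6 : 0 < (a - a') ^ 2 := by positivity
    nlinarith
  have ham : a + m ≤ 0 := by linarith
  have haM : a ≤ M := by linarith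
  have hma : m < a := by linarith
  have hm0 : m < 0 := by linarith
  have ht : 1 - β < 2 * (-m) := by linarith
  have hm3 : m ^ 2 + c = (1 - β) * m := by
    linear_combination m * hm1 - hm2
  by_contra hcon
  push Not at hcon
  obtain ⟨i0, hi0⟩ := per_max hx.npos hx.per
  have hai0 := hA i0
  obtain ⟨j, hj⟩ := seq_a1 hβ0 hβ1 hx hm1 hm2 hmM (a := (x i0 + a) / 2) (by linarith) (by linarith)
    (fun i => by have := hi0 i; linarith) hcon
  have hperO : ∀ k : ℤ, x (j + 2 * (k + (n : ℤ)) + 1) = x (j + 2 * k + 1) := by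
    intro k
    have e := per_mul_int hx.per (j + 2 * k + 1) 2
    rw [← e]; congr 1; ring
  have hperE : ∀ k : ℤ, x (j + 2 * (k + (n : ℤ))) = x (j + 2 * k) := by
    intro k
    have e := per_mul_int hx.per (j + 2 * k) 2
    rw [← e]; congr 1; ring
  obtain ⟨k1, hk1⟩ := per_max (x := fun k : ℤ => x (j + 2 * k + 1)) hx.npos hperO
  obtain ⟨k0, hk0⟩ := per_min (x := fun k : ℤ => x (j + 2 * k)) hx.npos hperE
  have hsq : ∀ k : ℤ, x (j + 2 * k) ^ 2 ≤ x (j + 2 * k0) ^ 2 := by
    intro k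
    have b1 : x (j + 2 * k0) ≤ x (j + 2 * k) := hk0 k
    have b2 := hA (j + 2 * k)
    rcases le_or_gt a 0 with ha0 | ha0
    · nlinarith
    · have hex : ¬ ∀ k : ℤ, -a < x (j + 2 * k) :=
        fun hall => seq_a2 hβ0 hβ1 hx h1 h2 h3 ha0 hA hall
      push Not at hex
      obtain ⟨k2, hk2⟩ := hex
      have b3 : x (j + 2 * k0) ≤ x (j + 2 * k2) := hk0 k2
      have b4 : x (j + 2 * k0) ≤ -a := b3.trans hk2
      nlinarith
  have hrec : ∀ i, x (i + 1) - m = β * (x (i - 1) - m) + (x i ^ 2 - m ^ 2) := by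
    intro i
    linear_combination hx.eqn i + hm3
  have hI : 0 < x (j + 2 * k0) - m := by
    have := (hj k0).1
    linarith
  have hJ : 0 < m - x (j + 2 * k1 + 1) := by
    have := (hj k1).2
    linarith
  have hineq1 : 2 * (-m) * (x (j + 2 * k0) - m) - (x (j + 2 * k0) - m) ^ 2 ≤
      (1 - β) * (m - x (j + 2 * k1 + 1)) := by
    have e := hrec (j + 2 * k1)
    have b1 : x (j + 2 * (k1 - 1) + 1) ≤ x (j + 2 * k1 + 1) := hk1 (k1 - 1)
    have e2 : j + 2 * (k1 - 1) + 1 = j + 2 * k1 - 1 := by ring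
    rw [e2] at b1
    have b2 := hsq k1
    have b3 : β * (x (j + 2 * k1 - 1) - m) ≤ β * (x (j + 2 * k1 + 1) - m) :=
      mul_le_mul_of_nonneg_left (by linarith) hβ0.le
    nlinarith
  have hineq2 : 2 * (-m) * (m - x (j + 2 * k1 + 1)) + (m - x (j + 2 * k1 + 1)) ^ 2 ≤
      (1 - β) * (x (j + 2 * k0) - m) := by
    have e := hrec (j + 2 * (k0 - 1) + 1)
    have e2 : j + 2 * (k0 - 1) + 1 + 1 = j + 2 * k0 := by ring
    rw [add_sub_cancel_right, e2] at e
    have b1 : x (j + 2 * k0) ≤ x (j + 2 * (k0 - 1)) := hk0 (k0 - 1)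
    have b2 : x (j + 2 * (k0 - 1) + 1) ≤ x (j + 2 * k1 + 1) := hk1 (k0 - 1)
    have b3 : β * (x (j + 2 * k0) - m) ≤ β * (x (j + 2 * (k0 - 1)) - m) :=
      mul_le_mul_of_nonneg_left (by linarith) hβ0.le
    have b4 : x (j + 2 * k1 + 1) ^ 2 ≤ x (j + 2 * (k0 - 1) + 1) ^ 2 := by
      have b5 := (hj k1).2
      nlinarith
    nlinarith
  rcases hδ0.eq_or_lt with hδ | hδ
  · rw [← hδ, zero_mul] at hineq2
    have b1 : 0 < 2 * (-m) * (m - x (j + 2 * k1 + 1)) := by
      apply mul_pos _ hJ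
      linarith
    have b2 : 0 < (m - x (j + 2 * k1 + 1)) ^ 2 := by positivity
    linarith
  · have hEDs : a - a' < M - m := by
      by_contra h
      push Not at h
      have h5 : (M - m) ^ 2 ≤ (a - a') ^ 2 := pow_le_pow_left₀ hE0 h 2
      have h6 : 0 < (1 - β) ^ 2 := by positivity
      nlinarith
    have hams : a + m < 0 := by linarith
    have hRe : 0 < m - a' := by
      have b1 : (1 - β) * (m - a') = (a - m) * (-(a + m)) := by
        linear_combination - hm3 - h3
      have b2 : 0 < (1 - β) * (m - a') := by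
        rw [b1]
        exact mul_pos (by linarith) (by linarith)
      exact (mul_pos_iff_of_pos_left hδ).1 b2
    refine seq_alt (δ := 1 - β) (t := -m) (Ro := a - m) (Re := m - a')
      (I := x (j + 2 * k0) - m) (J := m - x (j + 2 * k1 + 1)) hδ ht (by linarith) hRe ?_ ?_ hI ?_
      hJ hineq1 hineq2
    · linear_combination - hm3 - h3
    · linear_combination h2 + hm3
    · have := hA (j + 2 * k0)
      linarith

end Pool.Agent.H53.HN
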