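import Mathlib

/-! # The final inequality of case A (helper53, folder HN)

Pure real algebra. δ > 0, 2t > δ; (Ro,Re) is a solution of δ Re = 2 t Ro - Ro^2, δ Ro = 2 t Re + Re^2 with Ro, Re > 0
(the orbit of period two); (I,J) satisfies δ J >= 2 t I - I^2, δ I >= 2 t J + J^2, 0 < I < Ro, 0 < J. Contradiction.

PROOF. Put s = I/Ro in (0,1), e = J/Re > 0. From δ Re = Ro (2t - Ro): A := 2t - Ro = δ Re/Ro > 0; from δ Ro = Re (2t + Re): B := 2t + Re = δ Ro/Re > 0,
 and A * B = δ^2. The inequalities read e * A >= s * (2t - Ro s) (i) and s * B >= e * (2t + Re e) (ii).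
 If e >= 1: (ii) gives s * B >= e * B, s >= e >= 1, contradiction.
 If e < 1: (i) gives e * A >= s (2t - Ro s) > s (2t - Ro) = s A, so e > s. Multiply (i) and (ii) (all terms >= 0; 2t - Ro s > A > 0):
  e s A B >= s e (2t - Ro s)(2t + Re e), so A B >= (2t - Ro s)(2t + Re e) > (2t - Ro s)(2t + Re s) =: φ(s).
  φ(s) - [(1-s) φ(0) + s φ(1)] = Ro Re s (1 - s) >= 0 (compute: φ(s) = 4t^2 + 2t(Re-Ro)s - Ro Re s^2), φ(0) = 4t^2 > δ^2 = A B = φ(1),
  so φ(s) > A B: contradiction.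
-/

set_option autoImplicit false

namespace Pool.Agent.H53.HN

theorem seq_alt {δ t Ro Re I J : ℝ} (hδ : 0 < δ) (ht : δ < 2 * t) (hRo : 0 < Ro) (hRe : 0 < Re)
    (h1 : δ * Re = 2 * t * Ro - Ro ^ 2) (h2 : δ * Ro = 2 * t * Re + Re ^ 2)
    (hI : 0 < I) (hIR : I < Ro) (hJ : 0 < J)
    (h3 : 2 * t * I - I ^ 2 ≤ δ * J) (h4 : 2 * t * J + J ^ 2 ≤ δ * I) : False := by
  obtain ⟨s, hs⟩ : ∃ s, I = s * Ro := ⟨I / Ro, by field_simp⟩
  obtain ⟨e, he⟩ : ∃ e, J = e * Re := ⟨J / Re, by field_simp⟩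
  subst hs
  subst he
  have hs0 : 0 < s := (mul_pos_iff_of_pos_right hRo).1 hI
  have he0 : 0 < e := (mul_pos_iff_of_pos_right hRe).1 hJ
  have hs1 : s < 1 := by
    by_contra h
    push Not at h
    nlinarith
  have hA : 0 < 2 * t - Ro := by
    have : 0 < Ro * (2 * t - Ro) := by
      have := mul_pos hδ hRe
      nlinarith
    exact (mul_pos_iff_of_pos_left hRo).1 this
  have hB : 0 < 2 * t + Re := by linarith
  have hAB : (2 * t - Ro) * (2 * t + Re) = δ ^ 2 := by
    have h : (Ro * Re) * ((2 * t - Ro) * (2 * t + Re)) = (Ro * Re) * δ ^ 2 := by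
      have e1 : (Ro * (2 * t - Ro)) * (Re * (2 * t + Re)) = (δ * Re) * (δ * Ro) := by
        rw [h1, h2]; ring
      linarith
    exact mul_left_cancel₀ (mul_pos hRo hRe).ne' h
  have i1 : s * (2 * t - Ro * s) ≤ e * (2 * t - Ro) := by
    have h : Ro * (s * (2 * t - Ro * s)) ≤ Ro * (e * (2 * t - Ro)) := by
      have e1 : δ * (e * Re) = e * (2 * t * Ro - Ro ^ 2) := by rw [← h1]; ring
      nlinarith
    exact le_of_mul_le_mul_left h hRo
  have i2 : e * (2 * t + Re * e) ≤ s * (2 * t + Re) := by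
    have h : Re * (e * (2 * t + Re * e)) ≤ Re * (s * (2 * t + Re)) := by
      have e1 : δ * (s * Ro) = s * (2 * t * Re + Re ^ 2) := by rw [← h2]; ring
      nlinarith
    exact le_of_mul_le_mul_left h hRe
  rcases le_or_gt 1 e with h | h
  · have a1 : e * (2 * t + Re) ≤ e * (2 * t + Re * e) := by
      apply mul_le_mul_of_nonneg_left _ he0.le
      nlinarith
    have a2 : e ≤ s := le_of_mul_le_mul_right (a1.trans i2) hB
    linarith
  · have a1 : s * (2 * t - Ro) < s * (2 * t - Ro * s) := by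
      apply mul_lt_mul_of_pos_left _ hs0
      nlinarith
    have a2 : s < e := lt_of_mul_lt_mul_right (a1.trans_le i1) hA.le
    have b1 : 0 < 2 * t - Ro * s := by nlinarith
    have b2 : 0 < 2 * t + Re * e := by nlinarith
    have a3 : (2 * t - Ro * s) * (2 * t + Re * e) ≤ δ ^ 2 := by
      have h5 : (s * (2 * t - Ro * s)) * (e * (2 * t + Re * e)) ≤
          (e * (2 * t - Ro)) * (s * (2 * t + Re)) :=
        mul_le_mul i1 i2 (mul_pos he0 b2).le (mul_pos he0 hA).le
      have h6 : (s * e) * ((2 * t - Ro * s) * (2 * t + Re * e)) ≤ (s * e) * δ ^ 2 := by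
        rw [← hAB]; linarith
      exact le_of_mul_le_mul_left h6 (mul_pos hs0 he0)
    have a4 : (2 * t - Ro * s) * (2 * t + Re * s) < (2 * t - Ro * s) * (2 * t + Re * e) := by
      apply mul_lt_mul_of_pos_left _ b1
      nlinarith
    have a5 : (2 * t - Ro * s) * (2 * t + Re * s) =
        (1 - s) * (4 * t ^ 2) + s * ((2 * t - Ro) * (2 * t + Re)) + Ro * Re * (s * (1 - s)) := by
      ring
    rw [hAB] at a5
    have a6 : 0 < Ro * Re * (s * (1 - s)) :=
      mul_pos (mul_pos hRo hRe) (mul_pos hs0 (by linarith))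
    have a7 : δ ^ 2 < 4 * t ^ 2 := by nlinarith
    nlinarith

end Pool.Agent.H53.HN
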