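import Pool.Agent.H53.HN.SeqV
import Pool.Agent.H53.HN.SeqA

/-! # The range c >= -(1-β)^2: only period one and two (helper53, folder HN)

b = -β, 0 < β < 1, δ = 1-β > 0, c >= -δ^2. Every periodic sequence satisfies x (i+2) = x i.

PROOF. `disc_nonneg` (with b = -β): E := sqrt (δ^2 - 4c), m = (δ-E)/2 <= M = (δ+E)/2, m + M = δ, m M = c. X = max x, μ = min x (`per_max`, `per_min`).
 Recursion: x (i+1) = β x (i-1) + x i^2 + c. Taking x (i+1) = μ: μ >= β μ + c, so δ μ >= c (0).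
 1. x i > -M for all i: if c >= 0 then μ >= 0 and M >= δ/2 > 0. If c < 0: M^2 = δ M - c; E^2 = δ^2 - 4c <= 5δ^2 < 9δ^2, so M < 2δ, so -c = M^2 - δ M < δ M, δ μ >= c > -δ M, μ > -M.
 2. `seq_v`: x constant (done) or all x i < M. So X < M.
 3. If X >= -μ: x i^2 <= X^2 for all i; taking x (i+1) = X: X <= β X + X^2 + c, so (X-m)(X-M) >= 0, so X <= m, all x i <= m, `sum_zero_high`: constant, done.
 4. Otherwise X < -μ, so μ < 0 and x i^2 <= μ^2 for all i; δ X <= μ^2 + c. From (0) c <= δ μ < 0 and μ^2 <= c^2/δ^2 (0 > μ >= c/δ). So δ^3 X <= c^2 + c δ^2 = c (c + δ^2) <= 0: X <= 0, all x i <= X <= 0.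
 5. Taking x (i+1) = μ: μ >= β μ + X^2 + c (x i^2 >= X^2), so δ μ >= X^2 + c. Put Φ = (X^2+c)/δ <= μ <= 0, so μ^2 <= Φ^2 and δ X <= μ^2 + c <= Φ^2 + c. Multiply by δ^2: δ^3 X <= (X^2+c)^2 + c δ^2.
   Identity: (X^2+c)^2 + c δ^2 - δ^3 X = (X-m)(X-M)(X^2 + δ X + δ^2 + c). So (X-m)(X-M)(X^2+δX+δ^2+c) >= 0. If X <= m: `sum_zero_high`, done. So X > m and, as X < M,
   X^2 + δ X + δ^2 + c <= 0. So D^2 := -3δ^2-4c >= (2X+δ)^2 >= 0, D = sqrt(..), a = (-δ+D)/2, a' = (-δ-D)/2, a' <= X <= a, relations a+a' = -δ, δ a = a'^2+c, δ a' = a^2+c.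
   If X < a: then a' < a (a' <= X) and all x i < a: `seq_a`, x constant, done.
   If X = a: δ a <= μ^2 + c and δ a = a'^2 + c give a'^2 <= μ^2, so μ <= a' (both <= 0); and δ μ >= X^2 + c = a^2 + c = δ a' gives μ >= a'. So μ = a'. Take k with x (k+1) = X = a:
    a = β x (k-1) + x k^2 + c <= β a + a'^2 + c = a with equality only if x (k-1) = a and x k^2 = a'^2, so x k = a' (x k <= 0). Then P i := (x i = a ∧ x (i+1) = a') ∨ (x i = a' ∧ x (i+1) = a)
    persists under i -> i+1 by the recursion and holds at k-1: `per_all`; so x (i+2) = x i.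
-/

set_option autoImplicit false

namespace Pool.Agent.H53.HN

theorem seq_small {c β : ℝ} (hβ0 : 0 < β) (hβ1 : β < 1) (hc : -(1 - β) ^ 2 ≤ c) {n : ℕ}
    {x : ℤ → ℝ} (hx : IsSeq c (-β) n x) : ∀ i, x (i + 2) = x i := by
  have hconst : (∃ t : ℝ, ∀ i, x i = t) → ∀ i, x (i + 2) = x i := by
    rintro ⟨t, ht⟩ i
    rw [ht, ht]
  have rec' : ∀ i, x (i + 1) = β * x (i - 1) + x i ^ 2 + c := by
    intro i
    have := hx.eqn i
    linarith
  have hdisc := disc_nonneg hx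
  have hδ : 0 < 1 - β := by linarith
  set δ := 1 - β with hδd
  have hβ : β = 1 - δ := by rw [hδd]; ring
  have hdisc' : 0 ≤ δ ^ 2 - 4 * c := by
    have : (1 + -β) ^ 2 - 4 * c = δ ^ 2 - 4 * c := by rw [hδd]; ring
    rwa [this] at hdisc
  set E := Real.sqrt (δ ^ 2 - 4 * c) with hE
  have hE0 : 0 ≤ E := Real.sqrt_nonneg _
  have hE2 : E ^ 2 = δ ^ 2 - 4 * c := Real.sq_sqrt hdisc'
  set m := (δ - E) / 2 with hm
  set M := (δ + E) / 2 with hMd
  have hmM : m ≤ M := by rw [hm, hMd]; linarith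
  have hs1 : m + M = δ := by rw [hm, hMd]; ring
  have hs2 : m * M = c := by rw [hm, hMd]; linear_combination (-1 / 4 : ℝ) * hE2
  have hs1' : m + M = 1 + -β := by rw [hs1, hδd]; ring
  have hM2 : M ^ 2 - (1 - β) * M + c = 0 := by
    rw [← hδd, ← hs1, ← hs2]; ring
  have hM2' : M ^ 2 - δ * M + c = 0 := hM2
  have hMd2 : 1 - β ≤ 2 * M := by rw [← hδd, hMd]; linarith
  have hMpos : 0 < M := by rw [hMd]; linarith
  obtain ⟨iX, hX⟩ := per_max hx.npos hx.per
  obtain ⟨iμ, hμ⟩ := per_min hx.npos hx.per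
  set X := x iX with hXd
  set μ := x iμ with hμd
  have recX : X = β * x (iX - 1 - 1) + x (iX - 1) ^ 2 + c := by
    have := rec' (iX - 1)
    rwa [sub_add_cancel] at this
  have recμ : μ = β * x (iμ - 1 - 1) + x (iμ - 1) ^ 2 + c := by
    have := rec' (iμ - 1)
    rwa [sub_add_cancel] at this
  have h0 : c ≤ δ * μ := by
    have h1 := hμ (iμ - 1 - 1)
    have h2 := sq_nonneg (x (iμ - 1))
    have h3 : β * μ ≤ β * x (iμ - 1 - 1) := mul_le_mul_of_nonneg_left h1 hβ0.le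
    have h4 : δ * μ = μ - β * μ := by rw [hδd]; ring
    rw [h4]
    linarith
  -- step 1
  have hgt : ∀ i, -M < x i := by
    intro i
    have h1 := hμ i
    have h2 : -M < μ := by
      rcases le_or_gt 0 c with hc0 | hc0
      · have : 0 ≤ δ * μ := le_trans hc0 h0
        have : 0 ≤ μ := nonneg_of_mul_nonneg_right this hδ
        linarith
      · have h3 : E < 3 * δ := by
          have h4 : E ^ 2 < (3 * δ) ^ 2 := by
            have e : (3 * δ) ^ 2 = 9 * δ ^ 2 := by ring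
            have e2 : 0 < δ ^ 2 := by positivity
            rw [hE2, e]
            linarith
          exact lt_of_pow_lt_pow_left₀ 2 (by linarith) h4
        have h5 : M < 2 * δ := by rw [hMd]; linarith
        have h6 : -(δ * M) < c := by
          have e : M * M < 2 * δ * M := mul_lt_mul_of_pos_right h5 hMpos
          have e2 : M ^ 2 = M * M := by ring
          linarith
        have h7 : δ * (-M) < δ * μ := by linarith
        exact lt_of_mul_lt_mul_left h7 hδ.le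
    linarith
  rcases seq_v hβ0 hβ1.le hx hM2 hMd2 hgt with hv | hv
  · exact hconst ⟨M, hv⟩
  have hhigh : X ≤ m → ∀ i, x (i + 2) = x i := by
    intro hXm
    exact hconst ⟨m, sum_zero_high hx hs1' hs2 hmM (fun i => le_trans (hX i) hXm)⟩
  have hXM : X < M := hv iX
  have hβX : β * x (iX - 1 - 1) ≤ β * X := mul_le_mul_of_nonneg_left (hX _) hβ0.le
  rcases le_or_gt (-μ) X with h3 | h3
  · -- step 3
    apply hhigh
    have h4 : x (iX - 1) ^ 2 ≤ X ^ 2 := by
      apply sq_le_sq'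
      · have := hμ (iX - 1); linarith
      · exact hX _
    have h5 : 0 ≤ (X - m) * (X - M) := by
      have : (X - m) * (X - M) = X ^ 2 - δ * X + c := by rw [← hs1, ← hs2]; ring
      have e : δ * X = X - β * X := by rw [hδd]; ring
      rw [this]
      linarith
    by_contra hcon
    push Not at hcon
    have : (X - m) * (X - M) < 0 := mul_neg_of_pos_of_neg (by linarith) (by linarith)
    linarith
  -- step 4
  have hμX : μ ≤ X := hμ iX
  have hμ0 : μ < 0 := by linarith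
  have hsq : ∀ i, x i ^ 2 ≤ μ ^ 2 := by
    intro i
    have h1 := hμ i
    have h2 := hX i
    have : |x i| ≤ |μ| := by
      rw [abs_of_neg hμ0, abs_le]
      constructor <;> linarith
    exact sq_le_sq.2 this
  have h4 : δ * X ≤ μ ^ 2 + c := by
    have h5 := hsq (iX - 1)
    have h6 : δ * X = X - β * X := by rw [hδd]; ring
    rw [h6]
    linarith
  have hc0 : c < 0 := by
    have : δ * μ < 0 := mul_neg_of_pos_of_neg hδ hμ0
    linarith
  have h5 : δ ^ 2 * μ ^ 2 ≤ c ^ 2 := by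
    have h6 : (δ * μ) ^ 2 ≤ c ^ 2 := by
      apply sq_le_sq.2
      rw [abs_of_neg (mul_neg_of_pos_of_neg hδ hμ0), abs_of_neg hc0]
      linarith
    calc δ ^ 2 * μ ^ 2 = (δ * μ) ^ 2 := by ring
      _ ≤ _ := h6
  have hδ2 : 0 < δ ^ 2 := by positivity
  have hX0 : X ≤ 0 := by
    have h7 : δ ^ 2 * (δ * X) ≤ δ ^ 2 * (μ ^ 2 + c) := mul_le_mul_of_nonneg_left h4 hδ2.le
    have h8 : c * (c + δ ^ 2) ≤ 0 := mul_nonpos_of_nonpos_of_nonneg hc0.le (by linarith)
    have h9 : δ ^ 3 * X ≤ 0 := by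
      have e1 : δ ^ 2 * (δ * X) = δ ^ 3 * X := by ring
      have e2 : δ ^ 2 * (μ ^ 2 + c) = δ ^ 2 * μ ^ 2 + c * δ ^ 2 := by ring
      have e3 : c * (c + δ ^ 2) = c ^ 2 + c * δ ^ 2 := by ring
      linarith
    have h10 : 0 < δ ^ 3 := by positivity
    by_contra hcon
    push Not at hcon
    have := mul_pos h10 hcon
    linarith
  have hle0 : ∀ i, x i ≤ 0 := fun i => le_trans (hX i) hX0
  -- step 5
  have hXsq : ∀ i, X ^ 2 ≤ x i ^ 2 := by
    intro i
    apply sq_le_sq.2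
    rw [abs_of_nonpos hX0, abs_of_nonpos (hle0 i)]
    have := hX i
    linarith
  have h6 : X ^ 2 + c ≤ δ * μ := by
    have h1 := hμ (iμ - 1 - 1)
    have h2 := hXsq (iμ - 1)
    have h3 : β * μ ≤ β * x (iμ - 1 - 1) := mul_le_mul_of_nonneg_left h1 hβ0.le
    have h4 : δ * μ = μ - β * μ := by rw [hδd]; ring
    rw [h4]
    linarith
  have hδμ : δ * μ < 0 := mul_neg_of_pos_of_neg hδ hμ0
  have h7 : δ ^ 2 * μ ^ 2 ≤ (X ^ 2 + c) ^ 2 := by
    have h8 : (δ * μ) ^ 2 ≤ (X ^ 2 + c) ^ 2 := by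
      apply sq_le_sq.2
      rw [abs_of_neg hδμ, abs_of_neg (by linarith)]
      linarith
    calc δ ^ 2 * μ ^ 2 = (δ * μ) ^ 2 := by ring
      _ ≤ _ := h8
  have h8 : 0 ≤ (X - m) * (X - M) * (X ^ 2 + δ * X + δ ^ 2 + c) := by
    have h9 : δ ^ 2 * (δ * X) ≤ δ ^ 2 * (μ ^ 2 + c) := mul_le_mul_of_nonneg_left h4 hδ2.le
    have h10 : (X - m) * (X - M) = X ^ 2 - δ * X + c := by rw [← hs1, ← hs2]; ring
    have id : (X ^ 2 - δ * X + c) * (X ^ 2 + δ * X + δ ^ 2 + c)
        = (X ^ 2 + c) ^ 2 + c * δ ^ 2 - δ ^ 3 * X := by ring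
    have e1 : δ ^ 2 * (δ * X) = δ ^ 3 * X := by ring
    have e2 : δ ^ 2 * (μ ^ 2 + c) = δ ^ 2 * μ ^ 2 + c * δ ^ 2 := by ring
    rw [h10, id]
    linarith
  rcases le_or_gt X m with hXm | hXm
  · exact hhigh hXm
  have h9 : X ^ 2 + δ * X + δ ^ 2 + c ≤ 0 := by
    by_contra hcon
    push Not at hcon
    have h10 : (X - m) * (X - M) < 0 := mul_neg_of_pos_of_neg (by linarith) (by linarith)
    have := mul_neg_of_neg_of_pos h10 hcon
    linarith
  have hDD : (2 * X + δ) ^ 2 ≤ -3 * δ ^ 2 - 4 * c := by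
    have e : (2 * X + δ) ^ 2 = 4 * (X ^ 2 + δ * X + δ ^ 2 + c) + (-3 * δ ^ 2 - 4 * c) := by ring
    linarith
  have hDD0 : 0 ≤ -3 * δ ^ 2 - 4 * c := le_trans (sq_nonneg _) hDD
  set D := Real.sqrt (-3 * δ ^ 2 - 4 * c) with hD
  have hD0 : 0 ≤ D := Real.sqrt_nonneg _
  have hD2 : D ^ 2 = -3 * δ ^ 2 - 4 * c := Real.sq_sqrt hDD0
  have hDabs : |2 * X + δ| ≤ D := by
    rw [← abs_of_nonneg hD0]
    apply sq_le_sq.1
    rw [hD2]; exact hDD
  obtain ⟨hDl, hDr⟩ := abs_le.1 hDabs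
  set a := (-δ + D) / 2 with ha
  set a' := (-δ - D) / 2 with ha'
  have haX : a' ≤ X := by rw [ha']; linarith
  have hXa : X ≤ a := by rw [ha]; linarith
  have r1 : a + a' = -(1 - β) := by rw [ha, ha', ← hδd]; ring
  have r2 : (1 - β) * a = a' ^ 2 + c := by
    rw [← hδd, ha, ha']; linear_combination (-1 / 4 : ℝ) * hD2
  have r3 : (1 - β) * a' = a ^ 2 + c := by
    rw [← hδd, ha, ha']; linear_combination (-1 / 4 : ℝ) * hD2
  rcases lt_or_eq_of_le hXa with hlt | heq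
  · exact hconst ⟨m, seq_a hβ0 hβ1.le hx hs1 hs2 hmM r1 r2 r3 (lt_of_le_of_lt haX hlt)
      (fun i => lt_of_le_of_lt (hX i) hlt)⟩
  -- X = a
  have ha'0 : a' ≤ 0 := by rw [ha']; linarith
  have hμa' : μ ≤ a' := by
    have h10 : a' ^ 2 ≤ μ ^ 2 := by
      rw [← hδd] at r2
      rw [heq] at h4
      linarith
    have h11 := sq_le_sq.1 h10
    rw [abs_of_nonpos ha'0, abs_of_neg hμ0] at h11
    linarith
  have hμa'2 : a' ≤ μ := by
    rw [← hδd] at r3
    rw [heq] at h6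
    have : δ * a' ≤ δ * μ := by linarith
    exact le_of_mul_le_mul_left this hδ
  have hμe : μ = a' := le_antisymm hμa' hμa'2
  have hstart1 : x (iX - 1 - 1) = a ∧ x (iX - 1) = a' := by
    have h10 : x (iX - 1 - 1) ≤ a := heq ▸ hX _
    have h11 : x (iX - 1) ^ 2 ≤ a' ^ 2 := by rw [← hμe]; exact hsq _
    have h12 : a = β * x (iX - 1 - 1) + x (iX - 1) ^ 2 + c := by rw [← heq]; exact recX
    have h13 : a = β * a + a' ^ 2 + c := by linarith
    have h14 : β * x (iX - 1 - 1) ≤ β * a := mul_le_mul_of_nonneg_left h10 hβ0.le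
    have h15 : β * x (iX - 1 - 1) = β * a := by linarith
    have h16 : x (iX - 1) ^ 2 = a' ^ 2 := by linarith
    refine ⟨mul_left_cancel₀ hβ0.ne' h15, ?_⟩
    have h17 : |x (iX - 1)| = |a'| := (sq_eq_sq_iff_abs_eq_abs _ _).1 h16
    rw [abs_of_nonpos (hle0 _), abs_of_nonpos ha'0] at h17
    linarith
  have hP := per_all (P := fun i => (x i = a ∧ x (i + 1) = a') ∨ (x i = a' ∧ x (i + 1) = a))
    (n := n) hx.npos (by
      intro i h
      have e1 := hx.per i
      have e2 := hx.per (i + 1)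
      have e3 : i + (n : ℤ) + 1 = i + 1 + (n : ℤ) := by ring
      simp only [e3, e1, e2] at h
      exact h) (by
      intro i h
      have e := rec' (i + 1)
      rw [add_sub_cancel_right] at e
      rcases h with ⟨h1, h2⟩ | ⟨h1, h2⟩
      · right
        refine ⟨h2, ?_⟩
        rw [e, h1, h2]; linarith
      · left
        refine ⟨h2, ?_⟩
        rw [e, h1, h2]; linarith) (i := iX - 1 - 1) (by
      left
      refine ⟨hstart1.1, ?_⟩
      rw [sub_add_cancel]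
      exact hstart1.2)
  intro i
  have e : i + 2 = i + 1 + 1 := by ring
  rcases hP i with ⟨h1, h2⟩ | ⟨h1, h2⟩ <;> rcases hP (i + 1) with ⟨h3, h4⟩ | ⟨h3, h4⟩
  · rw [e, h4, h1, ← h3, h2]
  · rw [e, h4, h1]
  · rw [e, h4, h1]
  · rw [e, h4, h1, ← h3, h2]

end Pool.Agent.H53.HN
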