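import Pool.Agent.H53.HN.SeqDefs

/-! # Negative Jacobian: sequences to the right of the point -M stay below the larger fixed point
(helper53, folder HN)

Here b = -β, 0 < β <= 1, and M is a fixed point: M^2 - (1-β) M + c = 0, 1 - β <= 2 M. v i := x i - M satisfies
`v (i+1) = β * v (i-1) + v i * (x i + M)` (I), where x i + M > 0 by hypothesis.

PROOF. (a) If v (i-1) >= 0, v i >= 0, not both 0, then contradiction: first v (i+1) >= 0; if v i > 0 then
 x i + M = 2M + v i > 1-β so v (i+1) > β v (i-1) + (1-β) v i, in particular v (i+1) > 0. If v i = 0 then v (i-1) > 0, v (i+1) = β v (i-1) > 0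
 and v (i+2) = β * 0 + v (i+1) (..) > 0. So after at most two steps we have an index j with v j > 0, v (j+1) > 0. Then for all k >= 0
 v (j+k) > 0 (induction with (I)) and, with w k = min (v (j+k)) (v (j+k+1)) > 0: v (j+k+2) > β v (j+k) + (1-β) v (j+k+1) >= w k,
 so v (j+k+2) > w k, v (j+k+3) > β v (j+k+1)+(1-β) v (j+k+2) >= w k, so w (k+2) > w k. But w is n-periodic as a function of k
 (so is v): contradiction (`per_no_incr` for the sequence i -> min (v i) (v (i+1)), after extending positivity to all i by `per_all`).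
(b) If v (i-1) = 0 = v i for some i then v = 0 everywhere by (I) (`per_all` with P i := v (i-1) = 0 and v i = 0): first alternative.
(c) If v (i-1) < 0, v i < 0 for some i then v (i+1) < 0 by (I), so all v < 0 (`per_all`, P i := v (i-1) < 0 ∧ v i < 0): second alternative.
(d) Otherwise signs alternate strictly: for every i exactly one of v (i-1), v i is < 0. Take j with v j < 0 (exists by (a),(b)): v (j-1) >= 0,
 v (j+1) >= 0, and by induction v (j+2k) < 0 <= v (j+2k+1) for all k. (I) at j+2k: v (j+2k+1) = β v (j+2k-1) + v (j+2k)(..) < β v (j+2k-1) <= v (j+2k-1).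
 So v is strictly decreasing along j-1, j+1, j+3, ...: contradiction by `per_no_decr`.
-/

set_option autoImplicit false

namespace Pool.Agent.H53.HN

private theorem seq_v_pos {β M : ℝ} (hβ0 : 0 < β) (hβ1 : β ≤ 1) (hM2 : 1 - β ≤ 2 * M) {n : ℕ}
    (hn : 0 < n) {v : ℤ → ℝ} (hper : ∀ i, v (i + n) = v i)
    (hI : ∀ i, v (i + 1) = β * v (i - 1) + v i * (v i + 2 * M))
    (hpos : ∀ i, 0 < v i + 2 * M) (j : ℤ) (h0 : 0 < v (j - 1)) (h1 : 0 < v j) : False := by
  have hall : ∀ i, 0 < v (i - 1) ∧ 0 < v i := by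
    intro i
    refine per_all (P := fun i => 0 < v (i - 1) ∧ 0 < v i) hn ?_ ?_ (i := j) ⟨h0, h1⟩ i
    · intro i hi
      have e1 : i + (n : ℤ) - 1 = (i - 1) + n := by ring
      rw [e1, hper, hper] at hi
      exact hi
    · intro i hi
      refine ⟨?_, ?_⟩
      · rw [add_sub_cancel_right]; exact hi.2
      · rw [hI]
        have := mul_pos hβ0 hi.1
        have := mul_pos hi.2 (hpos i)
        linarith
  have hv : ∀ i, 0 < v i := fun i => (hall i).2
  have hstep : ∀ i, min (v i) (v (i + 1)) < v (i + 2) := by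
    intro i
    have e := hI (i + 1)
    have e1 : i + 1 + 1 = i + 2 := by ring
    have e2 : i + 1 - 1 = i := by ring
    rw [e1, e2] at e
    have h1 := hv i
    have h2 := hv (i + 1)
    have h3 : v (i + 2) > β * v i + (1 - β) * v (i + 1) := by
      rw [e]
      nlinarith [mul_pos h2 h2]
    have h4 : β * v i + (1 - β) * v (i + 1) ≥ min (v i) (v (i + 1)) := by
      have a1 := min_le_left (v i) (v (i + 1))
      have a2 := min_le_right (v i) (v (i + 1))
      nlinarith
    linarith
  refine per_no_incr (x := fun i => min (v i) (v (i + 1))) hn ?_ 0 ?_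
  · intro i
    have e1 : i + (n : ℤ) + 1 = (i + 1) + n := by ring
    show min (v (i + n)) (v (i + n + 1)) = min (v i) (v (i + 1))
    rw [e1, hper, hper]
  · intro k
    show min (v (0 + 2 * k)) (v (0 + 2 * k + 1)) < min (v (0 + 2 * k + 2)) (v (0 + 2 * k + 2 + 1))
    generalize (0 : ℤ) + 2 * k = m
    have h1 := hstep m
    have h2 := hstep (m + 1)
    have e1 : m + 1 + 1 = m + 2 := by ring
    have e2 : m + 1 + 2 = m + 2 + 1 := by ring
    rw [e1, e2] at h2
    refine lt_min h1 (lt_of_le_of_lt ?_ h2)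
    exact le_min (min_le_right _ _) h1.le

private theorem seq_v_core {β M : ℝ} (hβ0 : 0 < β) (hβ1 : β ≤ 1) (hM2 : 1 - β ≤ 2 * M) {n : ℕ}
    (hn : 0 < n) {v : ℤ → ℝ} (hper : ∀ i, v (i + n) = v i)
    (hI : ∀ i, v (i + 1) = β * v (i - 1) + v i * (v i + 2 * M))
    (hpos : ∀ i, 0 < v i + 2 * M) : (∀ i, v i = 0) ∨ (∀ i, v i < 0) := by
  have hA := seq_v_pos hβ0 hβ1 hM2 hn hper hI hpos
  have hB : ∀ i, 0 ≤ v (i - 1) → 0 ≤ v i → v (i - 1) = 0 ∧ v i = 0 := by
    intro i h0 h1
    rcases h1.eq_or_lt with h1 | h1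
    · rcases h0.eq_or_lt with h0 | h0
      · exact ⟨h0.symm, h1.symm⟩
      · exfalso
        have a1 : 0 < v (i + 1) := by
          rw [hI, ← h1]
          have := mul_pos hβ0 h0
          linarith
        have a2 : 0 < v (i + 2) := by
          have e := hI (i + 1)
          have e1 : i + 1 + 1 = i + 2 := by ring
          rw [e1, add_sub_cancel_right, ← h1] at e
          rw [e]
          have := mul_pos a1 (hpos (i + 1))
          linarith
        refine hA (i + 2) ?_ a2
        have e1 : i + 2 - 1 = i + 1 := by ring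
        rw [e1]; exact a1
    · exfalso
      have a1 : 0 < v (i + 1) := by
        rw [hI]
        have := mul_nonneg hβ0.le h0
        have := mul_pos h1 (hpos i)
        linarith
      refine hA (i + 1) ?_ a1
      rw [add_sub_cancel_right]; exact h1
  by_cases hz : ∃ i, v (i - 1) = 0 ∧ v i = 0
  · left
    obtain ⟨i, hi⟩ := hz
    intro j
    refine (per_all (P := fun i => v (i - 1) = 0 ∧ v i = 0) hn ?_ ?_ (i := i) hi j).2
    · intro i hi
      have e1 : i + (n : ℤ) - 1 = (i - 1) + n := by ring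
      rw [e1, hper, hper] at hi
      exact hi
    · intro i hi
      refine ⟨?_, ?_⟩
      · rw [add_sub_cancel_right]; exact hi.2
      · rw [hI, hi.1, hi.2]; ring
  by_cases hn2 : ∃ i, v (i - 1) < 0 ∧ v i < 0
  · right
    obtain ⟨i, hi⟩ := hn2
    intro j
    refine (per_all (P := fun i => v (i - 1) < 0 ∧ v i < 0) hn ?_ ?_ (i := i) hi j).2
    · intro i hi
      have e1 : i + (n : ℤ) - 1 = (i - 1) + n := by ring
      rw [e1, hper, hper] at hi
      exact hi
    · intro i hi
      refine ⟨?_, ?_⟩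
      · rw [add_sub_cancel_right]; exact hi.2
      · rw [hI]
        have := mul_neg_of_pos_of_neg hβ0 hi.1
        have := mul_neg_of_neg_of_pos hi.2 (hpos i)
        linarith
  exfalso
  push Not at hz hn2
  have hneg : ∀ i, v i < 0 → 0 ≤ v (i + 1) := by
    intro i hi
    have := hn2 (i + 1)
    rw [add_sub_cancel_right] at this
    exact this hi
  have hnn : ∀ i, 0 ≤ v i → v (i + 1) < 0 := by
    intro i hi
    by_contra h
    push Not at h
    have h1 := hB (i + 1)
    have h2 := hz (i + 1)
    rw [add_sub_cancel_right] at h1 h2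
    exact h2 (h1 hi h).1 (h1 hi h).2
  have hneg' : ∀ i, v i < 0 → 0 ≤ v (i - 1) := by
    intro i hi
    by_contra h
    push Not at h
    exact absurd (hn2 i h) (not_le.2 hi)
  obtain ⟨j, hj⟩ : ∃ j, v j < 0 := by
    by_cases h : v 0 < 0
    · exact ⟨0, h⟩
    · exact ⟨0 + 1, hnn 0 (not_lt.1 h)⟩
  have hall : ∀ k : ℕ, v (j + 2 * k) < 0 := by
    intro k
    induction k with
    | zero => simpa using hj
    | succ k ih =>
      have := hnn _ (hneg _ ih)
      have e : j + 2 * (k : ℤ) + 1 + 1 = j + 2 * ((k + 1 : ℕ) : ℤ) := by push_cast; ring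
      rwa [e] at this
  refine per_no_decr hn hper (j - 1) ?_
  intro k
  have h1 := hall k
  have h2 := hneg' _ h1
  have e1 : j - 1 + 2 * (k : ℤ) + 2 = (j + 2 * k) + 1 := by ring
  have e2 : j - 1 + 2 * (k : ℤ) = (j + 2 * k) - 1 := by ring
  rw [e1, e2, hI]
  have h3 := mul_neg_of_neg_of_pos h1 (hpos (j + 2 * k))
  have h4 : β * v (j + 2 * k - 1) ≤ v (j + 2 * k - 1) := by
    have := mul_nonneg (sub_nonneg.2 hβ1) h2
    linarith
  linarith

theorem seq_v {c β : ℝ} (hβ0 : 0 < β) (hβ1 : β ≤ 1) {n : ℕ} {x : ℤ → ℝ}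
    (hx : IsSeq c (-β) n x) {M : ℝ} (hM : M ^ 2 - (1 - β) * M + c = 0) (hM2 : 1 - β ≤ 2 * M)
    (hgt : ∀ i, -M < x i) : (∀ i, x i = M) ∨ (∀ i, x i < M) := by
  have h := seq_v_core (v := fun i => x i - M) hβ0 hβ1 hM2 hx.npos (by intro i; simp [hx.per i])
    (by
      intro i
      have e := hx.eqn i
      show x (i + 1) - M = β * (x (i - 1) - M) + (x i - M) * (x i - M + 2 * M)
      linear_combination e + hM)
    (by intro i; have := hgt i; show 0 < x i - M + 2 * M; linarith)
  rcases h with h | h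
  · left; intro i; have := h i; linarith
  · right; intro i; have := h i; linarith

end Pool.Agent.H53.HN
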