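import Pool.Agent.H53.HN.ChartApi
import Pool.Agent.H53.HN.Ind
import Pool.Agent.H53.HN.Loop

/-! # The two sides of an invariant arc (helper53, folder HN)

PROOF. Γ = lp (pa S) α β '' [0,1] = pa S '' [α,β] ∪ segment (`lp_image`); the segment is the image under en of the segment from rp (S β) to rp (S α), contained in en '' K (convexity).
 Y0 = ν^j s, |Y0| < r. F^[j] (V t) = F^[j] (S s) = S (ν^j s) = χ (0, Y0) (`IsSad.iterS`, `chart_S`).
 Define for real x, y with |x|, |y| < r the point Ψ(x,y) = rp (G^[j] (χ (x,y))) (real plane); G^[j] (χ (x,y)) is fixed by cj (`chart_real`, `IsSad.cG`, `cj_iter`), so io (Ψ(x,y)) = G^[j] (χ (x,y)). Ψ(0,Y0) = rp (V t).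
 Choose ρ > 0 so small that ρ < r - |Y0|, that |y - Y0| < ρ implies α < y/ν^j < β (s is in the open interval), and that |x| < ρ, |y - Y0| < ρ implies Ψ(x,y) not in K (K closed, Ψ continuous at (0,Y0) because χ is continuous on its open source, rp (V t) not in K).
 (i) For |x| < ρ, |y - Y0| < ρ, x ≠ 0: en (Ψ(x,y)) is not in Γ: it is not in the segment part (not in K); if it is pa S s' with s' in [α,β] then G^[j] (χ (x,y)) = S s', so χ (x,y) = F^[j] (S s') = S (ν^j s') = χ (0, ν^j s') by hj, and `chart_uniq` gives x = 0.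
 (ii) The set {en (Ψ(x,y)) : 0 < x < ρ, |y - Y0| < ρ} is the continuous image of a convex set, so preconnected, and misses Γ by (i): `ind_const` gives that the index of the loop is constant on it (`lp_cont`, `lp_zero`, `lp_one`). The same for -ρ < x < 0.
 Choose ε > 0 such that for real τ with |τ - t| < ε: F^[j] (V τ) is in χ.target, (X,Y) := χ.symm (F^[j] (V τ)) satisfies ‖X‖ < ρ, ‖Y - Y0‖ < ρ, ‖Y‖ < r (`chart_loc` and continuity of χ.symm at χ (0,Y0)). χ (X,Y) = F^[j] (V τ) is fixed by cj (cV), so X, Y are real (hc.real), so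
 rp (V τ) = Ψ(X.re, Y.re) (G^[j] (F^[j] (V τ)) = V τ). If X.re = 0: Ψ(0,y) = rp (G^[j] (S y)) = rp (S (y/ν^j)), with y/ν^j in (α,β), so pa V τ is in Γ. So pa V τ not in Γ implies X.re ≠ 0. If X.re and X'.re have the same sign, (ii) gives equality of the indices.
-/

set_option autoImplicit false

namespace Pool.Agent.H53.HN

open Filter Topology

variable {F G : ℂ × ℂ → ℂ × ℂ} {p : ℝ × ℝ} {μ ν r C : ℝ} {U S : ℂ → ℂ × ℂ}
  {χ : OpenPartialHomeomorph (ℂ × ℂ) (ℂ × ℂ)}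

private theorem cj_fix_re {w : ℂ × ℂ} (h : cj w = w) :
    ((w.1.re : ℂ), (w.2.re : ℂ)) = w := by
  have h1 : starRingEnd ℂ w.1 = w.1 := congrArg Prod.fst h
  have h2 : starRingEnd ℂ w.2 = w.2 := congrArg Prod.snd h
  exact Prod.ext (Complex.conj_eq_iff_re.1 h1) (Complex.conj_eq_iff_re.1 h2)

private theorem en_comb (a b : ℝ) (x y : ℝ × ℝ) :
    en (a • x + b • y) = a • en x + b • en y := by
  apply Complex.ext <;> simp

theorem side (h : IsSad F G p μ ν U S) (hc : IsChart F p μ ν U S χ r C) {α β s t : ℝ}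
    (hs : α < s) (hs' : s < β) {j : ℕ} (hj : ∀ x ∈ Set.Icc α β, ν ^ j * |x| < r)
    {V : ℂ → ℂ × ℂ} (hV : Continuous V) (cV : ∀ t, V (starRingEnd ℂ t) = cj (V t))
    (hVS : V (t : ℂ) = S (s : ℂ)) {K : Set (ℝ × ℝ)} (hK : IsClosed K) (hKc : Convex ℝ K)
    (hKα : rp (S (α : ℂ)) ∈ K) (hKβ : rp (S (β : ℂ)) ∈ K) (hKV : rp (V (t : ℂ)) ∉ K) :
    ∃ ε : ℝ, 0 < ε ∧ ∀ τ τ' : ℝ, |τ - t| < ε → |τ' - t| < ε →
      pa V τ ∉ lp (pa S) α β '' Set.Icc 0 1 → pa V τ' ∉ lp (pa S) α β '' Set.Icc 0 1 →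
      (χ.symm (F^[j] (V (τ : ℂ)))).1.re ≠ 0 ∧
      (0 < (χ.symm (F^[j] (V (τ : ℂ)))).1.re * (χ.symm (F^[j] (V (τ' : ℂ)))).1.re →
        ind (lp (pa S) α β) (pa V τ) = ind (lp (pa S) α β) (pa V τ')) := by
  have hνj : 0 < ν ^ j := pow_pos h.nu0 j
  have hαβ : α ≤ β := (hs.trans hs').le
  obtain ⟨Y0, hY0⟩ : ∃ Y0 : ℝ, Y0 = ν ^ j * s := ⟨_, rfl⟩
  have hY0r : |Y0| < r := by
    rw [hY0, abs_mul, abs_of_pos hνj]
    exact hj s ⟨hs.le, hs'.le⟩
  have hFS : ∀ x : ℝ, F^[j] (S (x : ℂ)) = S ((ν ^ j * x : ℝ) : ℂ) := by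
    intro x
    rw [h.iterS]
    congr 1
    push_cast
    ring
  have hchS : ∀ y : ℝ, |y| < r → χ (((0 : ℝ) : ℂ), (y : ℂ)) = S (y : ℂ) := by
    intro y hy
    rw [Complex.ofReal_zero]
    exact chart_S h hc (by rw [Complex.norm_real]; exact hy)
  have hz0 : F^[j] (V (t : ℂ)) = χ (((0 : ℝ) : ℂ), (Y0 : ℂ)) := by
    rw [hVS, hFS, ← hY0, hchS Y0 hY0r]
  -- the real map
  obtain ⟨W, hW⟩ : ∃ W : ℝ × ℝ → ℝ × ℝ, ∀ q, W q = rp (G^[j] (χ ((q.1 : ℂ), (q.2 : ℂ)))) :=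
    ⟨fun q => rp (G^[j] (χ ((q.1 : ℂ), (q.2 : ℂ)))), fun _ => rfl⟩
  have hWc : ∀ q : ℝ × ℝ, |q.1| < r → |q.2| < r → ContinuousAt W q := by
    intro q h1 h2
    have e : W = fun q => rp (G^[j] (χ ((q.1 : ℂ), (q.2 : ℂ)))) := funext hW
    rw [e]
    have hsrc : (((q.1 : ℂ), (q.2 : ℂ)) : ℂ × ℂ) ∈ χ.source :=
      hc.src _ (by rw [Complex.norm_real]; exact h1) (by rw [Complex.norm_real]; exact h2)
    have c1 : ContinuousAt (fun q : ℝ × ℝ => (((q.1 : ℂ), (q.2 : ℂ)) : ℂ × ℂ)) q := by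
      fun_prop
    have c2 : ContinuousAt (fun q : ℝ × ℝ => χ ((q.1 : ℂ), (q.2 : ℂ))) q :=
      (χ.continuousAt hsrc).comp (f := fun q : ℝ × ℝ => (((q.1 : ℂ), (q.2 : ℂ)) : ℂ × ℂ)) c1
    have c3 : Continuous (fun z : ℂ × ℂ => rp (G^[j] z)) :=
      continuous_rp.comp (diff_iter h.dG j).continuous
    exact c3.continuousAt.comp (f := fun q : ℝ × ℝ => χ ((q.1 : ℂ), (q.2 : ℂ))) c2
  have hWio : ∀ x y : ℝ, |x| < r → |y| < r → io (W (x, y)) = G^[j] (χ ((x : ℂ), (y : ℂ))) := by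
    intro x y h1 h2
    rw [hW]
    refine io_rp ?_
    have e1 : cj (χ ((x : ℂ), (y : ℂ))) = χ ((x : ℂ), (y : ℂ)) :=
      chart_real h hc (by rw [Complex.norm_real]; exact h1)
        (by rw [Complex.norm_real]; exact h2) (by simp [cj])
    rw [← cj_iter h.cG, e1]
  have hW0 : W (0, Y0) = rp (V (t : ℂ)) := by
    rw [hW]
    show rp (G^[j] (χ (((0 : ℝ) : ℂ), (Y0 : ℂ)))) = _
    rw [← hz0, h.iterGF]
  -- choice of rho
  have ev1 : ∀ᶠ q : ℝ × ℝ in 𝓝 (0, Y0), W q ∉ K := by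
    have c := hWc (0, Y0) (by simpa using hc.r0) hY0r
    exact c.eventually (p := fun z => z ∉ K)
      (by rw [hW0]; exact hK.isOpen_compl.mem_nhds hKV)
  have ev2 : ∀ᶠ q : ℝ × ℝ in 𝓝 (0, Y0), |q.1| < r := by
    have c : ContinuousAt (fun q : ℝ × ℝ => |q.1|) (0, Y0) := by fun_prop
    refine c.eventually_lt continuousAt_const ?_
    simpa using hc.r0
  have ev3 : ∀ᶠ q : ℝ × ℝ in 𝓝 (0, Y0), |q.2| < r := by
    have c : ContinuousAt (fun q : ℝ × ℝ => |q.2|) (0, Y0) := by fun_prop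
    exact c.eventually_lt continuousAt_const hY0r
  have ev4 : ∀ᶠ q : ℝ × ℝ in 𝓝 (0, Y0), α < (ν ^ j)⁻¹ * q.2 := by
    have c : ContinuousAt (fun q : ℝ × ℝ => (ν ^ j)⁻¹ * q.2) (0, Y0) := by fun_prop
    refine continuousAt_const.eventually_lt c ?_
    show α < (ν ^ j)⁻¹ * Y0
    rw [hY0, inv_mul_cancel_left₀ hνj.ne']
    exact hs
  have ev5 : ∀ᶠ q : ℝ × ℝ in 𝓝 (0, Y0), (ν ^ j)⁻¹ * q.2 < β := by
    have c : ContinuousAt (fun q : ℝ × ℝ => (ν ^ j)⁻¹ * q.2) (0, Y0) := by fun_prop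
    refine c.eventually_lt continuousAt_const ?_
    show (ν ^ j)⁻¹ * Y0 < β
    rw [hY0, inv_mul_cancel_left₀ hνj.ne']
    exact hs'
  obtain ⟨ρ, hρ, hρq⟩ := Metric.eventually_nhds_iff.1
    (ev1.and (ev2.and (ev3.and (ev4.and ev5))))
  have hQ : ∀ x y : ℝ, |x| < ρ → |y - Y0| < ρ → W (x, y) ∉ K ∧ |x| < r ∧ |y| < r ∧
      α < (ν ^ j)⁻¹ * y ∧ (ν ^ j)⁻¹ * y < β := by
    intro x y h1 h2
    have hd : dist ((x, y) : ℝ × ℝ) (0, Y0) < ρ := by
      rw [Prod.dist_eq]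
      refine max_lt ?_ ?_
      · simpa [Real.dist_eq] using h1
      · simpa [Real.dist_eq] using h2
    exact hρq hd
  -- (i)
  have himg := lp_image (pa S) hαβ
  have hmiss : ∀ x y : ℝ, |x| < ρ → |y - Y0| < ρ → x ≠ 0 →
      en (W (x, y)) ∉ lp (pa S) α β '' Set.Icc 0 1 := by
    intro x y h1 h2 hx hmem
    obtain ⟨q1, q2, q3, q4, q5⟩ := hQ x y h1 h2
    rw [himg] at hmem
    rcases hmem with ⟨s', hs'm, hs'e⟩ | hseg
    · have e1 : io (W (x, y)) = S (s' : ℂ) := by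
        rw [← io_rpV h.cS s']
        congr 1
        exact (en_injective hs'e).symm
      rw [hWio x y q2 q3] at e1
      have e2 : χ ((x : ℂ), (y : ℂ)) = F^[j] (S (s' : ℂ)) := by
        rw [← e1, h.iterFG]
      have hb : |ν ^ j * s'| < r := by
        rw [abs_mul, abs_of_pos hνj]; exact hj s' hs'm
      rw [hFS, ← hchS _ hb] at e2
      have e3 := chart_uniq hc (by rw [Complex.norm_real]; exact q2)
        (by rw [Complex.norm_real]; exact q3) (by simpa using hc.r0)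
        (by rw [Complex.norm_real]; exact hb) e2
      have e4 : (x : ℂ) = 0 := congrArg Prod.fst e3
      exact hx (by exact_mod_cast e4)
    · obtain ⟨a, b, ha, hb, hab, e⟩ := hseg
      apply q1
      have e1 : en (a • rp (S (β : ℂ)) + b • rp (S (α : ℂ))) = en (W (x, y)) := by
        rw [en_comb]; exact e
      rw [← en_injective e1]
      exact hKc hKβ hKα ha hb hab
  -- loops
  have hlc : ContinuousOn (lp (pa S) α β) (Set.Icc 0 1) :=
    (lp_cont (continuous_pa h.dS.continuous) α β).continuousOn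
  have hl01 : lp (pa S) α β 0 = lp (pa S) α β 1 := by rw [lp_zero, lp_one]
  have hind : ∀ I : Set ℝ, IsPreconnected I → (∀ x ∈ I, |x| < ρ ∧ x ≠ 0) →
      ∀ x y x' y' : ℝ, x ∈ I → |y - Y0| < ρ → x' ∈ I → |y' - Y0| < ρ →
      ind (lp (pa S) α β) (en (W (x, y))) = ind (lp (pa S) α β) (en (W (x', y'))) := by
    intro I hI hI' x y x' y' hx hy hx' hy'
    have hpre : IsPreconnected ((fun q : ℝ × ℝ => en (W q)) '' (I ×ˢ Set.Ioo (Y0 - ρ) (Y0 + ρ))) := by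
      refine (hI.prod isPreconnected_Ioo).image _ ?_
      rintro ⟨a, b⟩ ⟨ha, hb⟩
      have hb' : |b - Y0| < ρ := by
        rw [abs_lt]
        exact ⟨by linarith [hb.1], by linarith [hb.2]⟩
      obtain ⟨-, q2, q3, -, -⟩ := hQ a b (hI' a ha).1 hb'
      exact (continuous_en.continuousAt.comp (hWc (a, b) q2 q3)).continuousWithinAt
    refine ind_const hlc hl01 hpre ?_ ?_ ?_
    · rintro z ⟨⟨a, b⟩, ⟨ha, hb⟩, rfl⟩ u hu hz
      have hb' : |b - Y0| < ρ := by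
        rw [abs_lt]
        exact ⟨by linarith [hb.1], by linarith [hb.2]⟩
      exact hmiss a b (hI' a ha).1 hb' (hI' a ha).2 ⟨u, hu, hz⟩
    · refine ⟨(x, y), ⟨hx, ?_⟩, rfl⟩
      have := abs_lt.1 hy
      exact ⟨by show Y0 - ρ < y; linarith [this.1], by show y < Y0 + ρ; linarith [this.2]⟩
    · refine ⟨(x', y'), ⟨hx', ?_⟩, rfl⟩
      have := abs_lt.1 hy'
      exact ⟨by show Y0 - ρ < y'; linarith [this.1], by show y' < Y0 + ρ; linarith [this.2]⟩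
  -- choice of epsilon
  have n0 : ‖(((0 : ℝ) : ℂ), (Y0 : ℂ)).1‖ < r := by simpa using hc.r0
  have n1 : ‖(((0 : ℝ) : ℂ), (Y0 : ℂ)).2‖ < r := by
    show ‖(Y0 : ℂ)‖ < r
    rw [Complex.norm_real]; exact hY0r
  have hloc := chart_loc h hc n0 n1 hz0
  have hcont : ContinuousAt (fun z => χ.symm (F^[j] z)) (V (t : ℂ)) :=
    (chart_diff h hc n0 n1 hz0).1.continuousAt
  have hval : χ.symm (F^[j] (V (t : ℂ))) = (((0 : ℝ) : ℂ), (Y0 : ℂ)) := by
    rw [hz0]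
    exact (chart_symm hc n0 n1).2
  have hVr : ContinuousAt (fun τ : ℝ => V (τ : ℂ)) t :=
    (hV.comp Complex.continuous_ofReal).continuousAt
  have ev6 : ∀ᶠ z in 𝓝 (V (t : ℂ)), ‖(χ.symm (F^[j] z)).1‖ < ρ := by
    have c : ContinuousAt (fun z => ‖(χ.symm (F^[j] z)).1‖) (V (t : ℂ)) := hcont.fst.norm
    refine c.eventually_lt continuousAt_const ?_
    rw [hval]
    simpa using hρ
  have ev7 : ∀ᶠ z in 𝓝 (V (t : ℂ)), ‖(χ.symm (F^[j] z)).2 - (Y0 : ℂ)‖ < ρ := by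
    have c : ContinuousAt (fun z => ‖(χ.symm (F^[j] z)).2 - (Y0 : ℂ)‖) (V (t : ℂ)) :=
      (hcont.snd.sub continuousAt_const).norm
    refine c.eventually_lt continuousAt_const ?_
    rw [hval]
    simpa using hρ
  obtain ⟨ε, hε, hεq⟩ := Metric.eventually_nhds_iff.1
    (hVr.eventually (hloc.and (ev6.and ev7)))
  -- the description of points of V
  have hmain : ∀ τ : ℝ, |τ - t| < ε → pa V τ ∉ lp (pa S) α β '' Set.Icc 0 1 →
      ∃ x y : ℝ, x = (χ.symm (F^[j] (V (τ : ℂ)))).1.re ∧ |x| < ρ ∧ |y - Y0| < ρ ∧ x ≠ 0 ∧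
        pa V τ = en (W (x, y)) := by
    intro τ hτ hmem
    obtain ⟨⟨t1, t2, t3⟩, t4, t5⟩ := hεq (y := τ) (by rw [Real.dist_eq]; exact hτ)
    have e1 : χ (χ.symm (F^[j] (V (τ : ℂ)))) = F^[j] (V (τ : ℂ)) := χ.right_inv t1
    have e2 : cj (F^[j] (V (τ : ℂ))) = F^[j] (V (τ : ℂ)) := by
      rw [← cj_iter h.cF, ← cV, Complex.conj_ofReal]
    have e3 : cj (χ.symm (F^[j] (V (τ : ℂ)))) = χ.symm (F^[j] (V (τ : ℂ))) :=
      hc.real _ t2 t3 (by rw [e1, e2])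
    have e4 := cj_fix_re e3
    obtain ⟨w, hw⟩ : ∃ w, w = χ.symm (F^[j] (V (τ : ℂ))) := ⟨_, rfl⟩
    rw [← hw] at e1 e3 e4 t2 t3 t4 t5
    rw [← hw]
    have k1 : (w.1.re : ℂ) = w.1 := congrArg Prod.fst e4
    have k2 : (w.2.re : ℂ) = w.2 := congrArg Prod.snd e4
    have hx : |w.1.re| < ρ := by
      rw [← k1, Complex.norm_real] at t4; exact t4
    have hy : |w.2.re - Y0| < ρ := by
      rw [← k2, ← Complex.ofReal_sub, Complex.norm_real] at t5; exact t5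
    have hpa : pa V τ = en (W (w.1.re, w.2.re)) := by
      rw [hW]
      show en (rp (V (τ : ℂ))) = en (rp (G^[j] (χ ((w.1.re : ℂ), (w.2.re : ℂ)))))
      rw [e4, e1, h.iterGF]
    refine ⟨w.1.re, w.2.re, rfl, hx, hy, ?_, hpa⟩
    intro hx0
    apply hmem
    obtain ⟨-, q2, q3, q4, q5⟩ := hQ _ _ hx hy
    have k3 : w.1 = 0 := by rw [← k1, hx0]; simp
    have k4 := chart_zero h hc k3 t3 e1.symm
    rw [himg]
    left
    refine ⟨(ν ^ j)⁻¹ * w.2.re, ⟨q4.le, q5.le⟩, ?_⟩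
    show en (rp (S (((ν ^ j)⁻¹ * w.2.re : ℝ) : ℂ))) = en (rp (V (τ : ℂ)))
    rw [k4, Complex.ofReal_mul, k2]
  refine ⟨ε, hε, fun τ τ' hτ hτ' hm hm' => ?_⟩
  obtain ⟨x, y, hx1, hx2, hy, hx0, hpa⟩ := hmain τ hτ hm
  obtain ⟨x', y', hx1', hx2', hy', hx0', hpa'⟩ := hmain τ' hτ' hm'
  rw [← hx1, ← hx1', hpa, hpa']
  refine ⟨hx0, fun hpos => ?_⟩
  rcases lt_or_gt_of_ne hx0 with hneg | hp
  · have hneg' : x' < 0 := by
      by_contra hcon
      have : x * x' ≤ 0 := mul_nonpos_of_nonpos_of_nonneg hneg.le (not_lt.1 hcon)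
      linarith
    refine hind (Set.Ioo (-ρ) 0) isPreconnected_Ioo ?_ x y x' y' ⟨?_, hneg⟩ hy ⟨?_, hneg'⟩ hy'
    · intro a ha
      exact ⟨by rw [abs_of_neg ha.2]; linarith [ha.1], ha.2.ne⟩
    · linarith [(abs_lt.1 hx2).1]
    · linarith [(abs_lt.1 hx2').1]
  · have hp' : 0 < x' := by
      by_contra hcon
      have : x * x' ≤ 0 := mul_nonpos_of_nonneg_of_nonpos (le_of_lt hp) (not_lt.1 hcon)
      linarith
    refine hind (Set.Ioo 0 ρ) isPreconnected_Ioo ?_ x y x' y' ⟨hp, ?_⟩ hy ⟨hp', ?_⟩ hy'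
    · intro a ha
      exact ⟨by rw [abs_of_pos ha.1]; exact ha.2, ha.1.ne'⟩
    · exact (abs_lt.1 hx2).2
    · exact (abs_lt.1 hx2').2

end Pool.Agent.H53.HN
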