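import Pool.Agent.H53.HN.Basic

/-! # Local existence of the unstable parametrisation (helper53, folder HN)

PROOF. A = fderiv F P, A e = μ e, A e' = μ' e', e, e' linearly independent (det2 e e' ≠ 0). Norm N(x e + y e') = max |x| |y| on the plane (equivalent to the given norm: use the coordinates x, y as continuous linear functionals; or transport everything by the linear isomorphism (x,y) -> x e + y e', i.e. work with
 F0 (x,y) = coordinates of F (P + x e + y e') - P, whose derivative at 0 is diag (μ, μ') and use the sup norm). N(A v) <= μ N(v) since |μ'| <= μ.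
 F (P + v) = P + A v + R v, N(R v) <= C N(v)^2 for N(v) <= 1 (F is analytic, so C^2: near P the derivative satisfies ‖fderiv F (P+v) - A‖ <= C0 ‖v‖, and the mean value inequality gives the bound; only small v are needed; C >= 1). Let L = (μ + μ^2)/2, μ < L < μ^2; δ in (0,1] such that F is L-Lipschitz in N on the N-ball of radius δ about P (the derivative is close to A; convexity).
 Let C' = 4 C/(μ^2 - μ), δ1 > 0 with C' δ1 <= 1, 2 δ1 <= δ.
 (1) For |t| <= δ1 and j <= k: D_j := F^[j] (P + μ^-k t e) - P - μ^(j-k) t e satisfies N(D_j) <= C' s^2, s = |μ^(j-k) t|: induction on j; D_(j+1) = A D_j + R(v_j), v_j = μ^(j-k) t e + D_j, N(v_j) <= s + C' s^2 <= 2 s;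
  N(D_(j+1)) <= μ C' s^2 + 4 C s^2 = C' (μ s)^2 by the choice of C'. So all these points are within N-distance 2 s <= δ of P.
 (2) a_k(t) := F^[k] (P + μ^-k t e). a_(k+1)(t) - a_k(t) = F^[k] (x) - F^[k] (y) with x = F (P + μ^(-k-1) t e), y = P + μ^-k t e, N(x - y) = N(R(μ^(-k-1) t e)) <= C μ^(-2k-2) |t|^2. The orbits of x and y up to time k stay in the δ-ball by (1), so N(a_(k+1) t - a_k t) <= L^k C μ^(-2k-2) |t|^2,
  summable uniformly for |t| <= δ1 as L < μ^2. So a_k converges uniformly on |t| < δ1 to U0, differentiable there (`TendstoLocallyUniformlyOn.differentiableOn`, componentwise or for the complete space ℂ × ℂ).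
 (3) a_k 0 = P. By (1) with j = k: N(a_k t - P - t e) <= C'|t|^2, so the same for U0: U0 0 = P and U0 has derivative e at 0. (4) F (a_k t) = F^[k+1] (P + μ^(-k-1) (μ t) e) = a_(k+1) (μ t): for |μ t| < δ1 (so |t| < δ1) the limit gives F (U0 t) = U0 (μ t).
 (5) Reality: if F commutes with cj and P, e are real then a_k (conj t) = cj (a_k t).
-/

set_option autoImplicit false

namespace Pool.Agent.H53.HN

open Filter Topology

section gen

variable {E : Type*} [NormedAddCommGroup E] [NormedSpace ℂ E]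

private theorem quad_bound {F : E → E} (h0 : F 0 = 0) (aF : AnalyticAt ℂ F 0) :
    ∃ C ρ : ℝ, 0 < C ∧ 0 < ρ ∧ ∀ v : E, ‖v‖ < ρ → ‖F v - fderiv ℂ F 0 v‖ ≤ C * ‖v‖ ^ 2 := by
  obtain ⟨q, hq⟩ := aF
  have hO := hq.isBigO_sub_partialSum_pow 2
  obtain ⟨C, hC, hb⟩ := hO.exists_pos
  obtain ⟨ρ, hρ, hb'⟩ := Metric.eventually_nhds_iff.1 hb.bound
  refine ⟨C, ρ, hC, hρ, fun v hv => ?_⟩
  have h1 := hb' (y := v) (by rw [dist_zero_right]; exact hv)
  have e : q.partialSum 2 v = fderiv ℂ F 0 v := by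
    rw [hq.fderiv_eq]
    simp only [FormalMultilinearSeries.partialSum, Finset.sum_range_succ, Finset.range_zero,
      Finset.sum_empty, zero_add]
    have e0 : q 0 (fun _ : Fin 0 => v) = 0 := by
      have := hq.coeff_zero (fun _ : Fin 0 => v)
      rw [this, h0]
    rw [e0, zero_add]
    rfl
  rw [e, zero_add] at h1
  simpa using h1

private theorem lip_bound {F : E → E} (aF : AnalyticAt ℂ F 0) {μ L : ℝ}
    (hA : ∀ v, ‖fderiv ℂ F 0 v‖ ≤ μ * ‖v‖) (hL : μ < L) :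
    ∃ ρ : ℝ, 0 < ρ ∧ ∀ v w : E, ‖v‖ < ρ → ‖w‖ < ρ → ‖F v - F w‖ ≤ L * ‖v - w‖ := by
  have h1 := aF.hasStrictFDerivAt.isLittleO
  have h2 := h1.def (sub_pos.2 hL)
  obtain ⟨ρ, hρ, hb⟩ := Metric.eventually_nhds_iff.1 h2
  refine ⟨ρ, hρ, fun v w hv hw => ?_⟩
  have h3 := hb (y := (v, w)) (by
    rw [Prod.dist_eq]
    exact max_lt (by rw [dist_zero_right]; exact hv) (by rw [dist_zero_right]; exact hw))
  have h4 : ‖F v - F w - fderiv ℂ F 0 (v - w)‖ ≤ (L - μ) * ‖v - w‖ := h3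
  have h5 := hA (v - w)
  have h6 := norm_add_le (F v - F w - fderiv ℂ F 0 (v - w)) (fderiv ℂ F 0 (v - w))
  rw [sub_add_cancel] at h6
  linarith

omit [NormedSpace ℂ E] in
private theorem iter_lip {F : E → E} {L ρ : ℝ} (hL0 : 0 ≤ L)
    (hL : ∀ v w : E, ‖v‖ < ρ → ‖w‖ < ρ → ‖F v - F w‖ ≤ L * ‖v - w‖) (k : ℕ) (x y : E)
    (hx : ∀ i < k, ‖F^[i] x‖ < ρ) (hy : ∀ i < k, ‖F^[i] y‖ < ρ) :
    ‖F^[k] x - F^[k] y‖ ≤ L ^ k * ‖x - y‖ := by
  induction k with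
  | zero => simp
  | succ k ih =>
    rw [Function.iterate_succ_apply', Function.iterate_succ_apply']
    have h1 := hL _ _ (hx k (Nat.lt_succ_self k)) (hy k (Nat.lt_succ_self k))
    have h2 := ih (fun i hi => hx i (hi.trans (Nat.lt_succ_self k)))
      (fun i hi => hy i (hi.trans (Nat.lt_succ_self k)))
    calc _ ≤ L * ‖F^[k] x - F^[k] y‖ := h1
      _ ≤ L * (L ^ k * ‖x - y‖) := mul_le_mul_of_nonneg_left h2 hL0
      _ = L ^ (k + 1) * ‖x - y‖ := by ring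

private theorem orbit_bound {F : E → E} {μ C C' ρ δ : ℝ} {e : E} {A : E →L[ℂ] E}
    (hμ : 1 < μ) (hC : 0 < C) (hC' : C' * (μ ^ 2 - μ) = 4 * C)
    (he1 : ‖e‖ = 1) (he : A e = (μ : ℂ) • e) (hA : ∀ v, ‖A v‖ ≤ μ * ‖v‖)
    (hq : ∀ v : E, ‖v‖ < ρ → ‖F v - A v‖ ≤ C * ‖v‖ ^ 2)
    (hδ1 : C' * δ ≤ 1) (hδ2 : 2 * δ ≤ ρ) (j : ℕ) (u : ℂ) (hu : μ ^ j * ‖u‖ < δ) :
    ‖F^[j] (u • e) - ((μ : ℂ) ^ j * u) • e‖ ≤ C' * (μ ^ j * ‖u‖) ^ 2 := by
  have hμ0 : 0 < μ := by linarith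
  have hμμ : 0 < μ ^ 2 - μ := by nlinarith
  have hC'0 : 0 < C' := by
    by_contra hcon
    have : C' * (μ ^ 2 - μ) ≤ 0 := mul_nonpos_of_nonpos_of_nonneg (not_lt.1 hcon) hμμ.le
    linarith
  have hnμ : ‖(μ : ℂ)‖ = μ := by rw [Complex.norm_real, Real.norm_of_nonneg hμ0.le]
  induction j with
  | zero =>
    simp only [Function.iterate_zero, id_eq, pow_zero, one_mul, sub_self, norm_zero]
    positivity
  | succ j ih =>
    have hs0 : 0 ≤ μ ^ j * ‖u‖ := by positivity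
    have hj : μ ^ j * ‖u‖ < δ := by
      refine lt_of_le_of_lt ?_ hu
      rw [pow_succ]
      nlinarith
    have hD := ih hj
    obtain ⟨s, hs⟩ : ∃ s, s = μ ^ j * ‖u‖ := ⟨_, rfl⟩
    obtain ⟨v, hv⟩ : ∃ v, v = F^[j] (u • e) := ⟨_, rfl⟩
    obtain ⟨w, hw⟩ : ∃ w : E, w = ((μ : ℂ) ^ j * u) • e := ⟨_, rfl⟩
    rw [← hs, ← hv, ← hw] at hD
    rw [← hs] at hj hs0
    have hnw : ‖w‖ = s := by
      rw [hw, norm_smul, he1, mul_one, norm_mul, norm_pow, hnμ, hs]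
    have hCs : C' * s ≤ 1 := (mul_le_mul_of_nonneg_left hj.le hC'0.le).trans hδ1
    have hnv : ‖v‖ ≤ 2 * s := by
      have h1 := norm_add_le (v - w) w
      rw [sub_add_cancel, hnw] at h1
      nlinarith
    have hvρ : ‖v‖ < ρ := by linarith
    have hR := hq v hvρ
    have hAw : A w = ((μ : ℂ) ^ (j + 1) * u) • e := by
      rw [hw, map_smul, he, smul_smul]
      congr 1
      ring
    rw [Function.iterate_succ_apply', ← hv, ← hAw]
    have e1 : F v - A w = (F v - A v) + A (v - w) := by rw [map_sub]; abel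
    rw [e1]
    have h2 := norm_add_le (F v - A v) (A (v - w))
    have h3 := hA (v - w)
    have h4 : C * ‖v‖ ^ 2 ≤ C * (2 * s) ^ 2 := by
      have := norm_nonneg v
      gcongr
    have h5 : μ * ‖v - w‖ ≤ μ * (C' * s ^ 2) := mul_le_mul_of_nonneg_left hD hμ0.le
    have h6 : C' * (μ ^ (j + 1) * ‖u‖) ^ 2 = C * (2 * s) ^ 2 + μ * (C' * s ^ 2) := by
      rw [hs]
      have : C' * (μ ^ (j + 1) * ‖u‖) ^ 2 = (C' * (μ ^ 2 - μ)) * (μ ^ j * ‖u‖) ^ 2 +
        μ * (C' * (μ ^ j * ‖u‖) ^ 2) := by ring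
      rw [this, hC']
      ring
    rw [h6]
    linarith

private theorem u_gen [CompleteSpace E] {F : E → E} (dF : Differentiable ℂ F) (h0 : F 0 = 0)
    (aF : AnalyticAt ℂ F 0) {e : E} (he1 : ‖e‖ = 1) {μ : ℝ} (hμ : 1 < μ)
    (he : fderiv ℂ F 0 e = (μ : ℂ) • e) (hA : ∀ v, ‖fderiv ℂ F 0 v‖ ≤ μ * ‖v‖) :
    ∃ (δ : ℝ) (U : ℂ → E), 0 < δ ∧ DifferentiableOn ℂ U (Metric.ball 0 δ) ∧ U 0 = 0 ∧
      HasDerivAt U e 0 ∧ ∀ t : ℂ, ‖t‖ < δ →
        Tendsto (fun k : ℕ => F^[k] ((((μ : ℂ) ^ k)⁻¹ * t) • e)) atTop (𝓝 (U t)) := by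
  have hμ0 : 0 < μ := by linarith
  have hμμ : 0 < μ ^ 2 - μ := by nlinarith
  have hnμ : ‖(μ : ℂ)‖ = μ := by rw [Complex.norm_real, Real.norm_of_nonneg hμ0.le]
  have hμC : (μ : ℂ) ≠ 0 := by exact_mod_cast hμ0.ne'
  obtain ⟨C, ρ1, hC, hρ1, hq1⟩ := quad_bound h0 aF
  obtain ⟨L, hL⟩ : ∃ L, L = (μ + μ ^ 2) / 2 := ⟨_, rfl⟩
  have hL1 : μ < L := by rw [hL]; linarith
  have hL2 : L < μ ^ 2 := by rw [hL]; linarith
  have hL0 : 0 ≤ L := by linarith
  obtain ⟨ρ2, hρ2, hlip2⟩ := lip_bound aF hA hL1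
  obtain ⟨ρ, hρd⟩ : ∃ ρ, ρ = min ρ1 ρ2 := ⟨_, rfl⟩
  have hρ : 0 < ρ := by rw [hρd]; exact lt_min hρ1 hρ2
  have hq : ∀ v : E, ‖v‖ < ρ → ‖F v - fderiv ℂ F 0 v‖ ≤ C * ‖v‖ ^ 2 := fun v hv =>
    hq1 v (lt_of_lt_of_le hv (by rw [hρd]; exact min_le_left _ _))
  have hlip : ∀ v w : E, ‖v‖ < ρ → ‖w‖ < ρ → ‖F v - F w‖ ≤ L * ‖v - w‖ := fun v w hv hw =>
    hlip2 v w (lt_of_lt_of_le hv (by rw [hρd]; exact min_le_right _ _))
      (lt_of_lt_of_le hw (by rw [hρd]; exact min_le_right _ _))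
  obtain ⟨C', hC'⟩ : ∃ C', C' = 4 * C / (μ ^ 2 - μ) := ⟨_, rfl⟩
  have hC'0 : 0 < C' := by rw [hC']; positivity
  have hC'e : C' * (μ ^ 2 - μ) = 4 * C := by rw [hC', div_mul_cancel₀ _ hμμ.ne']
  obtain ⟨δ, hδd⟩ : ∃ δ, δ = min (1 / C') (ρ / 2) := ⟨_, rfl⟩
  have hδ : 0 < δ := by rw [hδd]; exact lt_min (by positivity) (by positivity)
  have hδ1 : C' * δ ≤ 1 := by
    have : δ ≤ 1 / C' := by rw [hδd]; exact min_le_left _ _
    calc C' * δ ≤ C' * (1 / C') := mul_le_mul_of_nonneg_left this hC'0.le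
      _ = 1 := by field_simp
  have hδ2 : 2 * δ ≤ ρ := by
    have : δ ≤ ρ / 2 := by rw [hδd]; exact min_le_right _ _
    linarith
  have hA1 : ∀ (j : ℕ) (u : ℂ), μ ^ j * ‖u‖ < δ →
      ‖F^[j] (u • e) - ((μ : ℂ) ^ j * u) • e‖ ≤ C' * (μ ^ j * ‖u‖) ^ 2 :=
    orbit_bound hμ hC hC'e he1 he hA hq hδ1 hδ2
  have hA2 : ∀ (j : ℕ) (u : ℂ), μ ^ j * ‖u‖ < δ → ‖F^[j] (u • e)‖ < ρ := by
    intro j u hu
    have h1 := hA1 j u hu
    have h2 := norm_add_le (F^[j] (u • e) - ((μ : ℂ) ^ j * u) • e) (((μ : ℂ) ^ j * u) • e)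
    rw [sub_add_cancel] at h2
    have h3 : ‖((μ : ℂ) ^ j * u) • e‖ = μ ^ j * ‖u‖ := by
      rw [norm_smul, he1, mul_one, norm_mul, norm_pow, hnμ]
    have h4 : 0 ≤ μ ^ j * ‖u‖ := by positivity
    have h5 : C' * (μ ^ j * ‖u‖) ≤ 1 := (mul_le_mul_of_nonneg_left hu.le hC'0.le).trans hδ1
    nlinarith
  -- the approximations
  obtain ⟨a, ha⟩ : ∃ a : ℕ → ℂ → E, ∀ k t, a k t = F^[k] ((((μ : ℂ) ^ k)⁻¹ * t) • e) :=
    ⟨_, fun _ _ => rfl⟩
  have hnk : ∀ (k : ℕ) (t : ℂ), ‖((μ : ℂ) ^ k)⁻¹ * t‖ = (μ ^ k)⁻¹ * ‖t‖ := by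
    intro k t
    rw [norm_mul, norm_inv, norm_pow, hnμ]
  have hik : ∀ (i k : ℕ) (t : ℂ), i ≤ k → μ ^ i * ‖((μ : ℂ) ^ k)⁻¹ * t‖ ≤ ‖t‖ := by
    intro i k t hik
    rw [hnk, ← mul_assoc]
    have h1 : μ ^ i ≤ μ ^ k := pow_le_pow_right₀ hμ.le hik
    have h2 : μ ^ i * (μ ^ k)⁻¹ ≤ 1 := by
      rw [← div_eq_mul_inv, div_le_one (by positivity)]
      exact h1
    calc _ ≤ 1 * ‖t‖ := mul_le_mul_of_nonneg_right h2 (norm_nonneg t)
      _ = ‖t‖ := one_mul _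
  have hda : ∀ k, Differentiable ℂ (a k) := by
    intro k
    have e1 : a k = fun t => F^[k] ((((μ : ℂ) ^ k)⁻¹ * t) • e) := funext (ha k)
    rw [e1]
    have hit : ∀ n : ℕ, Differentiable ℂ F^[n] := by
      intro n
      induction n with
      | zero => exact differentiable_id
      | succ n ih => rw [Function.iterate_succ']; exact dF.comp ih
    exact (hit k).comp ((differentiable_id.const_mul _).smul_const e)
  have hbd : ∀ (k : ℕ) (t : ℂ), t ∈ Metric.ball (0 : ℂ) δ →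
      ‖a (k + 1) t - a k t‖ ≤ C * δ ^ 2 * (L / μ ^ 2) ^ k := by
    intro k t ht
    rw [mem_ball_zero_iff] at ht
    obtain ⟨u', hu'⟩ : ∃ u', u' = ((μ : ℂ) ^ (k + 1))⁻¹ * t := ⟨_, rfl⟩
    obtain ⟨u, hu⟩ : ∃ u, u = ((μ : ℂ) ^ k)⁻¹ * t := ⟨_, rfl⟩
    have huu : u = (μ : ℂ) * u' := by
      rw [hu, hu', pow_succ, mul_inv]
      field_simp
    rw [ha, ha, ← hu', ← hu, Function.iterate_succ_apply]
    have hx : ∀ i < k, ‖F^[i] (F (u' • e))‖ < ρ := by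
      intro i hi
      rw [← Function.iterate_succ_apply]
      refine hA2 (i + 1) u' (lt_of_le_of_lt ?_ ht)
      rw [hu']
      exact hik (i + 1) (k + 1) t (by omega)
    have hy : ∀ i < k, ‖F^[i] (u • e)‖ < ρ := by
      intro i hi
      refine hA2 i u (lt_of_le_of_lt ?_ ht)
      rw [hu]
      exact hik i k t hi.le
    have h1 := iter_lip hL0 hlip k _ _ hx hy
    have hnu' : ‖u'‖ = (μ ^ (k + 1))⁻¹ * ‖t‖ := by rw [hu', hnk]
    have hnu'1 : ‖u'‖ ≤ ‖t‖ := by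
      have := hik 0 (k + 1) t (Nat.zero_le _)
      rwa [pow_zero, one_mul, ← hu'] at this
    have h2 : ‖F (u' • e) - u • e‖ ≤ C * ‖u'‖ ^ 2 := by
      have e1 : u • e = fderiv ℂ F 0 (u' • e) := by
        rw [map_smul, he, smul_smul, huu, mul_comm]
      rw [e1]
      have hnn : ‖u' • e‖ = ‖u'‖ := by rw [norm_smul, he1, mul_one]
      have := hq (u' • e) (by rw [hnn]; linarith)
      rwa [hnn] at this
    have h3 : ‖u'‖ ^ 2 ≤ δ ^ 2 * ((μ ^ 2) ^ k)⁻¹ := by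
      rw [hnu', mul_pow, mul_comm]
      have h4 : ‖t‖ ^ 2 ≤ δ ^ 2 := by
        have := norm_nonneg t
        gcongr
      have h5 : ((μ ^ (k + 1))⁻¹) ^ 2 ≤ ((μ ^ 2) ^ k)⁻¹ := by
        rw [inv_pow]
        refine inv_anti₀ (by positivity) ?_
        rw [← pow_mul, ← pow_mul]
        exact pow_le_pow_right₀ hμ.le (by omega)
      have := norm_nonneg t
      gcongr
    calc _ ≤ L ^ k * ‖F (u' • e) - u • e‖ := h1
      _ ≤ L ^ k * (C * (δ ^ 2 * ((μ ^ 2) ^ k)⁻¹)) := by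
        refine mul_le_mul_of_nonneg_left ?_ (by positivity)
        exact h2.trans (mul_le_mul_of_nonneg_left h3 hC.le)
      _ = C * δ ^ 2 * (L / μ ^ 2) ^ k := by
        rw [div_pow, div_eq_mul_inv]; ring
  have hsum : Summable (fun k : ℕ => C * δ ^ 2 * (L / μ ^ 2) ^ k) := by
    refine (summable_geometric_of_lt_one (by positivity) ?_).mul_left _
    rw [div_lt_one (by positivity)]
    exact hL2
  obtain ⟨U, hU⟩ : ∃ U : ℂ → E, ∀ t, U t = a 0 t + ∑' k : ℕ, (a (k + 1) t - a k t) :=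
    ⟨_, fun _ => rfl⟩
  have hUd : DifferentiableOn ℂ U (Metric.ball 0 δ) := by
    have e1 : U = fun t => a 0 t + ∑' k : ℕ, (a (k + 1) t - a k t) := funext hU
    rw [e1]
    refine (hda 0).differentiableOn.add ?_
    exact Complex.differentiableOn_tsum_of_summable_norm hsum
      (fun i => ((hda (i + 1)).sub (hda i)).differentiableOn) Metric.isOpen_ball hbd
  have hlim : ∀ t : ℂ, ‖t‖ < δ → Tendsto (fun k => a k t) atTop (𝓝 (U t)) := by
    intro t ht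
    have hs : Summable (fun k => a (k + 1) t - a k t) :=
      Summable.of_norm_bounded hsum (fun k => hbd k t (by rwa [mem_ball_zero_iff]))
    have h1 := hs.hasSum.tendsto_sum_nat
    have h2 := h1.const_add (a 0 t)
    rw [← hU] at h2
    refine h2.congr (fun n => ?_)
    rw [Finset.sum_range_sub (fun k => a k t)]
    abel
  have hsq : ∀ t : ℂ, ‖t‖ < δ → ‖U t - t • e‖ ≤ C' * ‖t‖ ^ 2 := by
    intro t ht
    have h1 : Tendsto (fun k => ‖a k t - t • e‖) atTop (𝓝 ‖U t - t • e‖) :=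
      ((hlim t ht).sub_const _).norm
    refine le_of_tendsto h1 (Filter.Eventually.of_forall fun k => ?_)
    have hk := hik k k t le_rfl
    have h2 := hA1 k (((μ : ℂ) ^ k)⁻¹ * t) (lt_of_le_of_lt hk ht)
    rw [← ha] at h2
    have h3 : (μ : ℂ) ^ k * (((μ : ℂ) ^ k)⁻¹ * t) = t := by
      rw [mul_inv_cancel_left₀ (pow_ne_zero _ hμC)]
    rw [h3] at h2
    refine h2.trans ?_
    have : 0 ≤ μ ^ k * ‖((μ : ℂ) ^ k)⁻¹ * t‖ := by positivity
    gcongr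
  have hU0 : U 0 = 0 := by
    have := hsq 0 (by simpa using hδ)
    simpa using this
  refine ⟨δ, U, hδ, hUd, hU0, ?_, fun t ht => ?_⟩
  · rw [hasDerivAt_iff_isLittleO]
    have h1 : (fun t : ℂ => U t - U 0 - (t - 0) • e) =O[𝓝 0] fun t : ℂ => ‖t‖ ^ 2 := by
      refine Asymptotics.IsBigO.of_bound C' ?_
      filter_upwards [Metric.ball_mem_nhds (0 : ℂ) hδ] with t ht
      rw [mem_ball_zero_iff] at ht
      rw [hU0, sub_zero, sub_zero, norm_pow, norm_norm]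
      exact hsq t ht
    refine h1.trans_isLittleO ?_
    have h2 : (fun t : ℂ => ‖t‖ ^ 2) =o[𝓝 0] fun t : ℂ => ‖t‖ ^ 1 :=
      Asymptotics.isLittleO_norm_pow_norm_pow (by norm_num)
    simp only [pow_one] at h2
    simpa using h2.of_norm_right
  · have := hlim t ht
    simpa only [ha] using this

end gen

/-- The linear coordinates with respect to a basis. -/
private theorem basis_maps {e e' : ℂ × ℂ} (hli : det2 e e' ≠ 0) :
    ∃ B Bi : ℂ × ℂ →L[ℂ] ℂ × ℂ, (∀ w, B w = w.1 • e + w.2 • e') ∧ (∀ v, B (Bi v) = v) ∧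
      ∀ w, Bi (B w) = w := by
  obtain ⟨d, hd⟩ : ∃ d, d = det2 e e' := ⟨_, rfl⟩
  rw [← hd] at hli
  have hd' : e.1 * e'.2 - e.2 * e'.1 = d := hd.symm
  refine ⟨(ContinuousLinearMap.fst ℂ ℂ ℂ).smulRight e + (ContinuousLinearMap.snd ℂ ℂ ℂ).smulRight e',
    ((d⁻¹ * e'.2) • ContinuousLinearMap.fst ℂ ℂ ℂ - (d⁻¹ * e'.1) • ContinuousLinearMap.snd ℂ ℂ ℂ).prod
    ((d⁻¹ * e.1) • ContinuousLinearMap.snd ℂ ℂ ℂ - (d⁻¹ * e.2) • ContinuousLinearMap.fst ℂ ℂ ℂ),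
    fun w => rfl, fun v => ?_, fun w => ?_⟩
  · apply Prod.ext
    · simp
      field_simp
      rw [← hd']
      ring
    · simp
      field_simp
      rw [← hd']
      ring
  · apply Prod.ext
    · simp
      field_simp
      rw [← hd']
      ring
    · simp
      field_simp
      rw [← hd']
      ring

theorem u_local {F : ℂ × ℂ → ℂ × ℂ} (aF : ∀ z, AnalyticAt ℂ F z)
    (cF : ∀ z, F (cj z) = cj (F z)) {P e e' : ℂ × ℂ} (hP : F P = P) (cP : cj P = P)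
    (ce : cj e = e) {μ μ' : ℝ} (hμ : 1 < μ) (hμ' : |μ'| ≤ μ) (he : fderiv ℂ F P e = (μ : ℂ) • e)
    (he' : fderiv ℂ F P e' = (μ' : ℂ) • e') (hli : det2 e e' ≠ 0) :
    ∃ (δ : ℝ) (U : ℂ → ℂ × ℂ), 0 < δ ∧ DifferentiableOn ℂ U (Metric.ball 0 δ) ∧ U 0 = P ∧
      HasDerivAt U e 0 ∧
      (∀ t : ℂ, ‖(μ : ℂ) * t‖ < δ → F (U t) = U ((μ : ℂ) * t)) ∧
      (∀ t : ℂ, ‖t‖ < δ → U (starRingEnd ℂ t) = cj (U t)) := by
  have hμ0 : 0 < μ := by linarith
  have hμC : (μ : ℂ) ≠ 0 := by exact_mod_cast hμ0.ne'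
  have hnμ : ‖(μ : ℂ)‖ = μ := by rw [Complex.norm_real, Real.norm_of_nonneg hμ0.le]
  obtain ⟨B, Bi, hB, hBBi, hBiB⟩ := basis_maps hli
  have hB1 : B (1, 0) = e := by rw [hB]; simp
  have hB2 : B (0, 1) = e' := by rw [hB]; simp
  have dF : Differentiable ℂ F := fun z => (aF z).differentiableAt
  obtain ⟨F0, hF0⟩ : ∃ F0 : ℂ × ℂ → ℂ × ℂ, ∀ w, F0 w = Bi (F (P + B w) - P) := ⟨_, fun _ => rfl⟩
  have hF0fun : F0 = fun w => Bi (F (P + B w) - P) := funext hF0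
  have hBF0 : ∀ w, P + B (F0 w) = F (P + B w) := by
    intro w
    rw [hF0, hBBi]
    abel
  have hiter : ∀ (k : ℕ) (w : ℂ × ℂ), F^[k] (P + B w) = P + B (F0^[k] w) := by
    intro k
    induction k with
    | zero => intro w; rfl
    | succ k ih =>
      intro w
      rw [Function.iterate_succ_apply, Function.iterate_succ_apply, ← hBF0, ih]
  have dF0 : Differentiable ℂ F0 := by
    rw [hF0fun]
    exact Bi.differentiable.comp ((dF.comp (B.differentiable.const_add P)).sub_const P)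
  have h00 : F0 0 = 0 := by rw [hF0, map_zero, add_zero, hP, sub_self, map_zero]
  have hinner : AnalyticAt ℂ (fun w : ℂ × ℂ => P + B w) 0 :=
    analyticAt_const.add (B.analyticAt 0)
  have aF0 : AnalyticAt ℂ F0 0 := by
    rw [hF0fun]
    have h1 : AnalyticAt ℂ (fun w : ℂ × ℂ => F (P + B w) - P) 0 :=
      ((aF _).comp hinner).sub analyticAt_const
    exact (Bi.analyticAt _).comp h1
  have hfd : ∀ v, fderiv ℂ F0 0 v = Bi (fderiv ℂ F P (B v)) := by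
    intro v
    have h1 : HasFDerivAt (fun w : ℂ × ℂ => P + B w) B 0 := B.hasFDerivAt.const_add P
    have h2 : HasFDerivAt F (fderiv ℂ F P) (P + B 0) := by
      rw [map_zero, add_zero]; exact (dF P).hasFDerivAt
    have h3 : HasFDerivAt (fun w : ℂ × ℂ => F (P + B w) - P) ((fderiv ℂ F P).comp B) 0 :=
      (h2.comp (0 : ℂ × ℂ) h1).sub_const P
    have h4 : HasFDerivAt F0 (Bi.comp ((fderiv ℂ F P).comp B)) 0 := by
      rw [hF0fun]
      exact (Bi.hasFDerivAt (x := F (P + B 0) - P)).comp (0 : ℂ × ℂ) h3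
    rw [h4.fderiv]
    rfl
  have hfd' : ∀ v : ℂ × ℂ, fderiv ℂ F0 0 v = ((μ : ℂ) * v.1, (μ' : ℂ) * v.2) := by
    intro v
    have e1 : fderiv ℂ F P (B v) = B ((μ : ℂ) * v.1, (μ' : ℂ) * v.2) := by
      rw [hB, map_add, map_smul, map_smul, he, he', hB, smul_smul, smul_smul]
      simp only [mul_comm]
    rw [hfd, e1, hBiB]
  obtain ⟨δ, U, hδ, hUd, hU0, hU1, hlim⟩ := u_gen dF0 h00 aF0 (e := ((1, 0) : ℂ × ℂ))
    (by simp [Prod.norm_def]) hμ (by rw [hfd']; simp) (by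
      intro v
      rw [hfd', Prod.norm_def, Prod.norm_def]
      refine max_le ?_ ?_
      · show ‖(μ : ℂ) * v.1‖ ≤ _
        rw [norm_mul, hnμ]
        exact mul_le_mul_of_nonneg_left (le_max_left _ _) hμ0.le
      · show ‖(μ' : ℂ) * v.2‖ ≤ _
        rw [norm_mul, Complex.norm_real, Real.norm_eq_abs]
        exact mul_le_mul hμ' (le_max_right _ _) (norm_nonneg _) hμ0.le)
  have hlim' : ∀ t : ℂ, ‖t‖ < δ →
      Tendsto (fun k : ℕ => F^[k] (P + (((μ : ℂ) ^ k)⁻¹ * t) • e)) atTop (𝓝 (P + B (U t))) := by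
    intro t ht
    have h1 : Tendsto (fun k : ℕ => P + B (F0^[k] ((((μ : ℂ) ^ k)⁻¹ * t) • ((1, 0) : ℂ × ℂ))))
        atTop (𝓝 (P + B (U t))) :=
      ((B.continuous.tendsto _).comp (hlim t ht)).const_add P
    refine h1.congr (fun k => ?_)
    rw [← hiter, map_smul, hB1]
  refine ⟨δ, fun t => P + B (U t), hδ, ?_, ?_, ?_, ?_, ?_⟩
  · exact (B.differentiable.comp_differentiableOn hUd).const_add P
  · show P + B (U 0) = P
    rw [hU0, map_zero, add_zero]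
  · have h1 : HasDerivAt (fun t => B (U t)) (B (1, 0)) 0 := B.hasFDerivAt.comp_hasDerivAt 0 hU1
    rw [hB1] at h1
    exact h1.const_add P
  · intro t ht
    show F (P + B (U t)) = P + B (U ((μ : ℂ) * t))
    have ht' : ‖t‖ < δ := by
      rw [norm_mul, hnμ] at ht
      have := norm_nonneg t
      nlinarith
    have h1 := (dF.continuous.tendsto _).comp (hlim' t ht')
    have h2 := (hlim' ((μ : ℂ) * t) ht).comp (tendsto_add_atTop_nat 1)
    refine tendsto_nhds_unique h1 (h2.congr (fun k => ?_))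
    show F^[k + 1] (P + (((μ : ℂ) ^ (k + 1))⁻¹ * ((μ : ℂ) * t)) • e) =
      F (F^[k] (P + (((μ : ℂ) ^ k)⁻¹ * t) • e))
    have e1 : ((μ : ℂ) ^ (k + 1))⁻¹ * ((μ : ℂ) * t) = ((μ : ℂ) ^ k)⁻¹ * t := by
      rw [pow_succ, mul_inv]
      field_simp
    rw [e1, Function.iterate_succ_apply']
  · intro t ht
    show P + B (U (starRingEnd ℂ t)) = cj (P + B (U t))
    have ht' : ‖starRingEnd ℂ t‖ < δ := by rwa [Complex.norm_conj]
    have h1 := hlim' _ ht'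
    have h2 := (continuous_cj.tendsto _).comp (hlim' t ht)
    refine tendsto_nhds_unique h1 (h2.congr (fun k => ?_))
    show cj (F^[k] (P + (((μ : ℂ) ^ k)⁻¹ * t) • e)) =
      F^[k] (P + (((μ : ℂ) ^ k)⁻¹ * starRingEnd ℂ t) • e)
    rw [← cj_iter cF]
    congr 1
    have ce1 : starRingEnd ℂ e.1 = e.1 := congrArg Prod.fst ce
    have ce2 : starRingEnd ℂ e.2 = e.2 := congrArg Prod.snd ce
    have cP1 : starRingEnd ℂ P.1 = P.1 := congrArg Prod.fst cP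
    have cP2 : starRingEnd ℂ P.2 = P.2 := congrArg Prod.snd cP
    apply Prod.ext
    · simp [cj, ce1, cP1]
    · simp [cj, ce2, cP2]

end Pool.Agent.H53.HN
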