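import Pool.Agent.H53.HN.PL
import Pool.Agent.H53.HN.Basic

/-! # Unboundedness when the multiplier is large (helper53, folder HN)

PROOF of `iter_growth`: K >= 1 (take z = 0 in hK: 1 <= 1 + ‖φ 0‖ <= K). Claim K (1 + ‖φ^[n] z‖) <= (K (1 + ‖z‖))^(2^n): induction, K (1 + ‖φ y‖) <= K * K (1+‖y‖)^2 = (K (1 + ‖y‖))^2.
PROOF of `unb`. Suppose ‖V x‖ <= K1 for real x. Let M0 = sup of ‖V‖ on the closed unit disc, Q = K (1 + M0) >= 1 , a = log (2^N)/log l: 0 <= a < 1 (as l > 2^N >= 1), l^a = 2^N. For ‖z‖ <= 1: ‖V z‖ <= Q. For ‖z‖ > 1 let k >= 1 be the natural number with l^(k-1) < ‖z‖ <= l^k (or similar). V z = φ^[N k] (V (l^-k z)) (hV),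
 so 1 + ‖V z‖ <= Q^(2^(N k)), 2^(N k) = 2^N (l^(k-1))^a <= 2^N ‖z‖^a. So ‖V z‖ <= exp (B (1 + ‖z‖^a)), B = 2^N log Q (for ‖z‖ <= 1 also: ‖V z‖ <= Q = exp (log Q)). Each coordinate of V satisfies the hypotheses of `pl_const`, so V is constant, so deriv V 0 = 0: contradiction.
-/

set_option autoImplicit false

namespace Pool.Agent.H53.HN

theorem iter_growth {φ : ℂ × ℂ → ℂ × ℂ} {K : ℝ} (hK : ∀ z, 1 + ‖φ z‖ ≤ K * (1 + ‖z‖) ^ 2)
    (n : ℕ) (z : ℂ × ℂ) : 1 + ‖φ^[n] z‖ ≤ (K * (1 + ‖z‖)) ^ (2 ^ n) := by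
  have hK1 : 1 ≤ K := by
    have := hK 0
    have h0 := norm_nonneg (φ 0)
    simp only [norm_zero, add_zero, one_pow, mul_one] at this
    linarith
  have key : ∀ n : ℕ, K * (1 + ‖φ^[n] z‖) ≤ (K * (1 + ‖z‖)) ^ (2 ^ n) := by
    intro n
    induction n with
    | zero => simp
    | succ n ih =>
      rw [Function.iterate_succ_apply']
      have h1 := hK (φ^[n] z)
      have h2 : 0 ≤ K * (1 + ‖φ^[n] z‖) := by positivity
      calc K * (1 + ‖φ (φ^[n] z)‖) ≤ K * (K * (1 + ‖φ^[n] z‖) ^ 2) := by gcongr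
        _ = (K * (1 + ‖φ^[n] z‖)) ^ 2 := by ring
        _ ≤ ((K * (1 + ‖z‖)) ^ (2 ^ n)) ^ 2 := by gcongr
        _ = (K * (1 + ‖z‖)) ^ (2 ^ (n + 1)) := by rw [← pow_mul, ← pow_succ]
  refine le_trans ?_ (key n)
  have := norm_nonneg (φ^[n] z)
  nlinarith

theorem unb {φ : ℂ × ℂ → ℂ × ℂ} {K : ℝ} (hK : ∀ z, 1 + ‖φ z‖ ≤ K * (1 + ‖z‖) ^ 2) {N : ℕ}
    {V : ℂ → ℂ × ℂ} (dV : Differentiable ℂ V) {l : ℝ} (hV : ∀ t, φ^[N] (V t) = V ((l : ℂ) * t))
    (hl : 2 ^ N < l) (hd : deriv V 0 ≠ 0) : ¬ ∃ K1 : ℝ, ∀ t : ℝ, ‖V (t : ℂ)‖ ≤ K1 := by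
  rintro ⟨K1, hK1⟩
  have hKone : 1 ≤ K := by
    have := hK 0
    have h0 := norm_nonneg (φ 0)
    simp only [norm_zero, add_zero, one_pow, mul_one] at this
    linarith
  have h2N : (1 : ℝ) ≤ 2 ^ N := one_le_pow₀ (by norm_num)
  have hl1 : 1 < l := h2N.trans_lt hl
  have hl0 : 0 < l := by linarith
  -- bound on the closed unit disc
  obtain ⟨C, hC⟩ := (isCompact_closedBall (0 : ℂ) 1).exists_bound_of_continuousOn
    dV.continuous.continuousOn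
  have hC0 : 0 ≤ C := (norm_nonneg (V 0)).trans (hC 0 (by simp))
  set Q : ℝ := K * (1 + C) with hQ
  have hQ1 : 1 ≤ Q := by nlinarith
  have hQ0 : 0 < Q := by linarith
  have hlogQ : 0 ≤ Real.log Q := Real.log_nonneg hQ1
  set a : ℝ := Real.logb l (2 ^ N) with ha
  have ha0 : 0 ≤ a := Real.logb_nonneg hl1 h2N
  have ha1 : a < 1 := by
    rw [ha, Real.logb_lt_iff_lt_rpow hl1 (by positivity), Real.rpow_one]
    exact hl
  have hla : l ^ a = 2 ^ N := Real.rpow_logb hl0 hl1.ne' (by positivity)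
  have hiter : ∀ (k : ℕ) (t : ℂ), φ^[N * k] (V t) = V ((l : ℂ) ^ k * t) := by
    intro k
    induction k with
    | zero => intro t; simp
    | succ k ih =>
      intro t
      rw [Nat.mul_succ, Function.iterate_add_apply, hV, ih, pow_succ, mul_assoc]
  set B : ℝ := 2 ^ N * Real.log Q with hB
  have hB0 : 0 ≤ B := by positivity
  have hgr : ∀ z, ‖V z‖ ≤ Real.exp (B * (1 + ‖z‖ ^ a)) := by
    intro z
    have hza : 0 ≤ ‖z‖ ^ a := Real.rpow_nonneg (norm_nonneg _) _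
    rcases le_or_gt ‖z‖ 1 with hz | hz
    · have h1 : ‖V z‖ ≤ C := hC z (by simpa using hz)
      have h2 : C ≤ Q := by nlinarith
      have h3 : Q = Real.exp (Real.log Q) := (Real.exp_log hQ0).symm
      have h4 : Real.log Q ≤ B * (1 + ‖z‖ ^ a) := by
        have : Real.log Q ≤ B := by nlinarith
        nlinarith
      calc ‖V z‖ ≤ Q := h1.trans h2
        _ = Real.exp (Real.log Q) := h3
        _ ≤ _ := Real.exp_le_exp.mpr h4
    · obtain ⟨n, hn1, hn2⟩ := exists_nat_pow_near hz.le hl1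
      set t : ℂ := ((l : ℂ) ^ (n + 1))⁻¹ * z with ht
      have hlc : ((l : ℂ) ^ (n + 1)) ≠ 0 := pow_ne_zero _ (by exact_mod_cast hl0.ne')
      have hzt : V z = φ^[N * (n + 1)] (V t) := by
        rw [hiter, ht, mul_inv_cancel_left₀ hlc]
      have htn : ‖t‖ ≤ 1 := by
        rw [ht, norm_mul, norm_inv, norm_pow, Complex.norm_real, Real.norm_eq_abs, abs_of_pos hl0,
          inv_mul_le_iff₀ (by positivity), mul_one]
        exact hn2.le
      have h1 := iter_growth hK (N * (n + 1)) (V t)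
      rw [← hzt] at h1
      have h2 : ‖V t‖ ≤ C := hC t (by simpa using htn)
      have h3 : (K * (1 + ‖V t‖)) ^ (2 ^ (N * (n + 1))) ≤ Q ^ (2 ^ (N * (n + 1))) := by
        apply pow_le_pow_left₀ (by positivity)
        rw [hQ]
        gcongr
      have h4 : (((2 ^ (N * (n + 1)) : ℕ)) : ℝ) ≤ 2 ^ N * ‖z‖ ^ a := by
        have e1 : (((2 ^ (N * (n + 1)) : ℕ)) : ℝ) = 2 ^ N * (2 ^ N) ^ n := by
          push_cast
          rw [pow_mul, pow_succ]
          ring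
        rw [e1, ← hla, ← Real.rpow_mul_natCast hl0.le, mul_comm a, Real.rpow_natCast_mul hl0.le]
        have : (l ^ n) ^ a ≤ ‖z‖ ^ a := Real.rpow_le_rpow (by positivity) hn1 ha0
        have hp : 0 ≤ l ^ a := Real.rpow_nonneg hl0.le _
        exact mul_le_mul_of_nonneg_left this hp
      calc ‖V z‖ ≤ Q ^ (2 ^ (N * (n + 1))) := by linarith
        _ = Real.exp ((((2 ^ (N * (n + 1)) : ℕ)) : ℝ) * Real.log Q) := by
          rw [mul_comm _ (Real.log Q), Real.exp_mul, Real.exp_log hQ0, Real.rpow_natCast]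
        _ ≤ Real.exp (B * (1 + ‖z‖ ^ a)) := by
          apply Real.exp_le_exp.mpr
          have : (((2 ^ (N * (n + 1)) : ℕ)) : ℝ) * Real.log Q ≤ 2 ^ N * ‖z‖ ^ a * Real.log Q :=
            mul_le_mul_of_nonneg_right h4 hlogQ
          rw [hB]
          nlinarith
  have hc1 : ∀ z, (V z).1 = (V 0).1 := fun z =>
    pl_const (ψ := fun t => (V t).1) dV.fst ha1 ha0
      (fun z => (norm_fst_le _).trans (hgr z)) (fun x => (norm_fst_le _).trans (hK1 x)) z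
  have hc2 : ∀ z, (V z).2 = (V 0).2 := fun z =>
    pl_const (ψ := fun t => (V t).2) dV.snd ha1 ha0
      (fun z => (norm_snd_le _).trans (hgr z)) (fun x => (norm_snd_le _).trans (hK1 x)) z
  have hc : V = fun _ => V 0 := funext fun z => Prod.ext (hc1 z) (hc2 z)
  apply hd
  rw [hc]
  simp

theorem growth_fC (c b : ℝ) : ∃ K : ℝ, ∀ z, 1 + ‖fC c b z‖ ≤ K * (1 + ‖z‖) ^ 2 := by
  refine ⟨2 + |c| + |b|, fun z => ?_⟩
  have h1 : ‖z.1‖ ≤ ‖z‖ := norm_fst_le z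
  have h2 : ‖z.2‖ ≤ ‖z‖ := norm_snd_le z
  have h3 : ‖fC c b z‖ ≤ (1 + |c| + |b|) * (1 + ‖z‖) ^ 2 := by
    have hz := norm_nonneg z
    have hc := abs_nonneg c
    have hb := abs_nonneg b
    rw [Prod.norm_def]
    apply max_le
    · calc ‖z.1 ^ 2 + (c : ℂ) - (b : ℂ) * z.2‖ ≤ ‖z.1‖ ^ 2 + |c| + |b| * ‖z.2‖ := by
            refine (norm_sub_le _ _).trans ?_
            refine add_le_add ((norm_add_le _ _).trans ?_) ?_
            · simp [norm_pow]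
            · simp [norm_mul]
        _ ≤ ‖z‖ ^ 2 + |c| + |b| * ‖z‖ := by gcongr
        _ ≤ _ := by nlinarith [mul_nonneg hc hz, mul_nonneg hb hz, mul_nonneg hc (sq_nonneg ‖z‖),
                      mul_nonneg hb (sq_nonneg ‖z‖)]
    · calc ‖z.1‖ ≤ ‖z‖ := h1
        _ ≤ _ := by nlinarith [mul_nonneg hc hz, mul_nonneg hb hz, mul_nonneg hc (sq_nonneg ‖z‖),
                      mul_nonneg hb (sq_nonneg ‖z‖)]
  have : (1 : ℝ) ≤ (1 + ‖z‖) ^ 2 := by nlinarith [norm_nonneg z]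
  nlinarith

theorem growth_gC (c : ℝ) {b : ℝ} (hb : b ≠ 0) :
    ∃ K : ℝ, ∀ z, 1 + ‖gC c b z‖ ≤ K * (1 + ‖z‖) ^ 2 := by
  refine ⟨2 + (2 + |c|) / |b|, fun z => ?_⟩
  have h1 : ‖z.1‖ ≤ ‖z‖ := norm_fst_le z
  have h2 : ‖z.2‖ ≤ ‖z‖ := norm_snd_le z
  have hb' : 0 < |b| := abs_pos.mpr hb
  have hz := norm_nonneg z
  have hc := abs_nonneg c
  have h3 : ‖gC c b z‖ ≤ (1 + (2 + |c|) / |b|) * (1 + ‖z‖) ^ 2 := by
    rw [Prod.norm_def]
    have hq : 0 ≤ (2 + |c|) / |b| := by positivity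
    apply max_le
    · calc ‖z.2‖ ≤ ‖z‖ := h2
        _ ≤ _ := by nlinarith [mul_nonneg hq (sq_nonneg (1 + ‖z‖))]
    · have e : ‖(z.2 ^ 2 + (c : ℂ) - z.1) / (b : ℂ)‖ ≤ (‖z‖ ^ 2 + |c| + ‖z‖) / |b| := by
        rw [norm_div, Complex.norm_real, Real.norm_eq_abs]
        gcongr
        refine (norm_sub_le _ _).trans ?_
        refine add_le_add ((norm_add_le _ _).trans ?_) h1
        rw [norm_pow, Complex.norm_real, Real.norm_eq_abs]
        gcongr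
      refine e.trans ?_
      have h5 : (‖z‖ ^ 2 + |c| + ‖z‖) / |b| ≤ (2 + |c|) / |b| * (1 + ‖z‖) ^ 2 := by
        rw [div_mul_eq_mul_div]
        gcongr
        nlinarith [mul_nonneg hc hz, mul_nonneg hc (sq_nonneg ‖z‖)]
      nlinarith [sq_nonneg (1 + ‖z‖)]
  have : (1 : ℝ) ≤ (1 + ‖z‖) ^ 2 := by nlinarith [norm_nonneg z]
  nlinarith

end Pool.Agent.H53.HN
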