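import Pool.Agent.H53.HN.ChartApi

/-! # Points whose backward orbit tends to the saddle lie on the unstable curve
(helper53, folder HN)

PROOF. χ 0 = io p (`chart_U` at 0), χ.symm (io p) = 0, io p in the open target. G^[k] ζ tends to io p, so for k >= K0 the point G^[k] ζ is in the target and w_k := χ.symm (G^[k] ζ) satisfies ‖w_k.1‖, ‖w_k.2‖ < r; χ w_k = G^[k] ζ. F (χ w_(k+1)) = F (G^[k+1] ζ) = G^[k] ζ = χ w_k, so
 w_k = χ.symm (F (χ w_(k+1))) and `chart_step` gives ‖w_k.2‖ <= ν1 ‖w_(k+1).2‖, ν1 = (1+ν)/2 < 1. Iterating, ‖w_K0.2‖ <= ν1^m ‖w_(K0+m).2‖ <= ν1^m r for all m, so w_K0.2 = 0. G^[K0] ζ is fixed by cj (`IsSad.cG`, `cj_iter`), so w_K0 is real (hc.real): w_K0 = (x, 0), x real.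
 G^[K0] ζ = χ (x,0) = U x (`chart_U`), ζ = F^[K0] (U x) = U (μ^K0 x) (`iterFG`, `iterU`).
-/

set_option autoImplicit false

namespace Pool.Agent.H53.HN

open Filter Topology

variable {F G : ℂ × ℂ → ℂ × ℂ} {p : ℝ × ℝ} {μ ν r C : ℝ} {U S : ℂ → ℂ × ℂ}
  {χ : OpenPartialHomeomorph (ℂ × ℂ) (ℂ × ℂ)}

theorem w_abs (h : IsSad F G p μ ν U S) (hc : IsChart F p μ ν U S χ r C) {ζ : ℂ × ℂ}
    (hζ : cj ζ = ζ) (ht : Tendsto (fun k : ℕ => G^[k] ζ) atTop (𝓝 (io p))) :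
    ∃ t : ℝ, U (t : ℂ) = ζ := by
  have hr := hc.r0
  have hχ0 : χ ((0 : ℂ), (0 : ℂ)) = io p := by
    rw [chart_U h hc (by simpa using hr), h.U0]
  have hloc := chart_loc h hc (z0 := io p) (w0 := ((0 : ℂ), (0 : ℂ))) (j := 0)
    (by simpa using hr) (by simpa using hr) (by simpa using hχ0.symm)
  have hev := ht.eventually hloc
  obtain ⟨K0, hK0⟩ := eventually_atTop.1 hev
  simp only [Function.iterate_zero, id_eq] at hK0
  have hχw : ∀ k, K0 ≤ k → χ (χ.symm (G^[k] ζ)) = G^[k] ζ := fun k hk =>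
    χ.right_inv (hK0 k hk).1
  have hstep : ∀ k, K0 ≤ k →
      ‖(χ.symm (G^[k] ζ)).2‖ ≤ (1 + ν) / 2 * ‖(χ.symm (G^[k + 1] ζ)).2‖ := by
    intro k hk
    have h1 := hK0 (k + 1) (by omega)
    have h2 := (chart_step h hc (w := χ.symm (G^[k + 1] ζ)) h1.2.1 h1.2.2).2.2.2
    rwa [hχw (k + 1) (by omega), Function.iterate_succ_apply', h.FG,
      ← Function.iterate_succ_apply' G] at h2
  have hν1 : 0 ≤ (1 + ν) / 2 := by linarith [h.nu0]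
  have hν2 : (1 + ν) / 2 < 1 := by linarith [h.nu1]
  have hiter : ∀ m : ℕ, ‖(χ.symm (G^[K0] ζ)).2‖ ≤
      ((1 + ν) / 2) ^ m * ‖(χ.symm (G^[K0 + m] ζ)).2‖ := by
    intro m
    induction m with
    | zero => simp
    | succ m ih =>
      refine ih.trans ?_
      have := hstep (K0 + m) (by omega)
      calc ((1 + ν) / 2) ^ m * ‖(χ.symm (G^[K0 + m] ζ)).2‖
          ≤ ((1 + ν) / 2) ^ m * ((1 + ν) / 2 * ‖(χ.symm (G^[K0 + m + 1] ζ)).2‖) := by gcongr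
        _ = ((1 + ν) / 2) ^ (m + 1) * ‖(χ.symm (G^[K0 + (m + 1)] ζ)).2‖ := by
          rw [pow_succ, ← add_assoc]; ring
  have hzero : ‖(χ.symm (G^[K0] ζ)).2‖ ≤ 0 := by
    have hlim : Tendsto (fun m : ℕ => ((1 + ν) / 2) ^ m * r) atTop (𝓝 (0 * r)) :=
      (tendsto_pow_atTop_nhds_zero_of_lt_one hν1 hν2).mul_const r
    rw [zero_mul] at hlim
    refine ge_of_tendsto hlim (Eventually.of_forall fun m => ?_)
    refine (hiter m).trans ?_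
    have := (hK0 (K0 + m) (by omega)).2.2.le
    gcongr
  have hw2 : (χ.symm (G^[K0] ζ)).2 = 0 := norm_le_zero_iff.1 hzero
  have hK := hK0 K0 le_rfl
  have hreal : cj (χ.symm (G^[K0] ζ)) = χ.symm (G^[K0] ζ) := by
    refine hc.real _ hK.2.1 hK.2.2 ?_
    rw [hχw K0 le_rfl, ← cj_iter h.cG, hζ]
  have hre : starRingEnd ℂ (χ.symm (G^[K0] ζ)).1 = (χ.symm (G^[K0] ζ)).1 :=
    congrArg Prod.fst hreal
  obtain ⟨x, hx⟩ : ∃ x : ℝ, (χ.symm (G^[K0] ζ)).1 = (x : ℂ) :=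
    ⟨_, (Complex.conj_eq_iff_re.1 hre).symm⟩
  have hUx : U (x : ℂ) = G^[K0] ζ := by
    have h1 : χ.symm (G^[K0] ζ) = ((x : ℂ), (0 : ℂ)) := Prod.ext hx hw2
    rw [← hχw K0 le_rfl, h1, chart_U h hc]
    rw [← hx]
    exact hK.2.1
  refine ⟨μ ^ K0 * x, ?_⟩
  have h3 := h.iterU K0 (x : ℂ)
  rw [hUx, h.iterFG] at h3
  rw [h3]
  push_cast
  rfl

end Pool.Agent.H53.HN
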